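import Pool.Agent.H34.SY.Forms

/-!
# MP_46177c : statements of the blocks
-/

open Set Topology
open scoped ContDiff ComplexConjugate

namespace Pool.Agent.H34.SY

/-- Block HD. -/
def HDSpec : Prop := Nonempty Handle

/-- Profiles exist. -/
def ProfSpec : Prop := ∀ a : ℝ, ∃ (m n : ℝ → ℝ) (s0 s1 : ℝ), a ≤ s0 ∧ Prof m n s0 s1

/-- Block W: `M` is a closed connected 6-manifold. -/
def MSpec : Prop := ∀ P : Par, 0 < P.La → IsClosed6Mfd P.M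

/-- Block TOP: `M'` is a submanifold, diffeomorphic to the final manifold by an ambient
diffeomorphism which is the identity on `-1 ≤ s`. -/
def TopSpec : Prop :=
  ∀ hd : Handle, ∃ T0 : ℝ, ∀ T : ℝ, T0 ≤ T → ∀ (m n : ℝ → ℝ) (s0 s1 : ℝ), Prof m n s0 s1 →
    hd.L ^ 2 + T + 1 ≤ s0 → ∃ La0 : ℝ, ∀ La : ℝ, La0 ≤ La → ∃ rb0 : ℝ, 0 < rb0 ∧
      ∀ rb : ℝ, 0 < rb → rb < rb0 → ∀ P : Par, P = ⟨hd, T, La, rb⟩ →
        IsMfd R6 P.M' ∧ IsCompact P.M' ∧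
        ∃ D D' : EA → EA, ContDiff ℝ ∞ D ∧ ContDiff ℝ ∞ D' ∧ (∀ z, D' (D z) = z) ∧
          (∀ z, D (D' z) = z) ∧ (∀ z, z ∈ P.Mfin m n ↔ D z ∈ P.M') ∧
          ∀ z, -1 ≤ eS z → D z = z ∧ D' z = z

/-- Topological part of the connected sum, relative to the region `-1 ≤ s`. -/
def TopConnSum {E' : Type} [NormedAddCommGroup E'] [NormedSpace ℝ E']
    (M : Set EA) (N : Set E') (M' : Set EA) : Prop :=
  ∃ (UM : Set EA) (ρM : EA → R6) (i : R6 → EA) (UN : Set E') (ρN : E' → R6) (j : R6 → E')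
    (f : EA → EA) (g : E' → EA) (A B : Set EA),
    IsChart M UM (Metric.ball (0 : R6) 2) ρM i ∧
    IsChart N UN (Metric.ball (0 : R6) 2) ρN j ∧
    IsOpen A ∧ IsOpen B ∧ M' ⊆ A ∪ B ∧
    IsDiffeo (M \ i '' Metric.closedBall (0 : R6) (1 / 2)) (M' ∩ A) f ∧
    IsDiffeo (N \ j '' Metric.closedBall (0 : R6) (1 / 2)) (M' ∩ B) g ∧
    M' ∩ A ∩ B = f '' (i '' {v : R6 | 1 / 2 < ‖v‖ ∧ ‖v‖ < 2}) ∧
    (∀ v : R6, 1 / 2 < ‖v‖ → ‖v‖ < 2 → f (i v) = g (j ((‖v‖ ^ 2)⁻¹ • v))) ∧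
    (∀ v ∈ Metric.ball (0 : R6) 2, eS (i v) < -1) ∧
    ∀ z ∈ M, -1 ≤ eS z → f z = z

/-- Block G: the final manifold is the connected sum of `M` and `S³ × S³`. -/
def GSpec : Prop :=
  ∀ (hd : Handle) (T : ℝ) (m n : ℝ → ℝ) (s0 s1 : ℝ), Prof m n s0 s1 →
    ∃ La0 : ℝ, ∀ La : ℝ, La0 ≤ La → ∀ rb : ℝ, ∀ P : Par, P = ⟨hd, T, La, rb⟩ →
      TopConnSum P.M S3S3 (P.Mfin m n)

/-- Block SYM: the symplectic forms. -/
def SymSpec : Prop :=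
  ∀ (hd : Handle) (T : ℝ), 0 < T → ∃ La0 : ℝ, ∀ La : ℝ, La0 ≤ La → ∃ rb0 : ℝ, 0 < rb0 ∧
    ∀ rb : ℝ, 0 < rb → rb < rb0 → ∀ P : Par, P = ⟨hd, T, La, rb⟩ → IsMfd R6 P.M' →
      ∃ om om' : Form EA, IsSymplectic P.M om ∧ IsSymplectic P.M' om' ∧
        ∃ z0 ∈ P.M, -1 < eS z0 ∧ z0 ∈ P.M' ∧
          ∀ a b, IsTangent P.M z0 a → IsTangent P.M z0 b → om z0 a b = om' z0 a b

/-- The main statement. -/
def MainSpec : Prop :=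
  ∃ (M M' : Set EA) (om om' : Form EA), IsClosed6Mfd M ∧ IsClosed6Mfd M' ∧
    IsSymplectic M om ∧ IsSymplectic M' om' ∧ IsConnSum M om S3S3 M' om'

end Pool.Agent.H34.SY
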