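import Pool.Agent.H34.SY.Defs

/-!
# Row CA: tangent vectors and charts

`IsTangent X z a`: there is a curve `γ` in `X`, smooth at `0`, `γ 0 = z`, `γ' 0 = a`.

* `tangent_psi`: the curve `t ↦ ψ (v + t h)`.
* `rho_psi`: differentiate `ρ (ψ w) = w` (valid for `w ∈ V`, open) at `v`; `ψ v ∈ U` open, `ρ` is
  differentiable there.
* `tangent_eq`: `γ t ∈ X ∩ U` for `t` near `0` (`γ` is continuous at `0`), so `γ t = ψ (ρ (γ t))`;
  differentiate.
* `mapsTangent_iff`: `f (γ t) = F (γ t)` near `t = 0`, chain rule, uniqueness of derivatives.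
* `IsTangent.map`: the curve `F ∘ γ` (it is smooth at `0` because `F` is smooth near `z`).
* `IsTangent.congr`: eventually `γ t ∈ W`.
* `tangent_injective`: if `F` has a smooth left inverse `G` on `X` near `z`, `fderiv F z` is injective on
  tangent vectors (apply `fderiv` of `G` at `F z`, with the curve).
-/

open Set Topology
open scoped ContDiff

namespace Pool.Agent.H34.SY

variable {E : Type} [NormedAddCommGroup E] [NormedSpace ℝ E]
variable {E' : Type} [NormedAddCommGroup E'] [NormedSpace ℝ E']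
variable {H : Type} [NormedAddCommGroup H] [NormedSpace ℝ H]
variable {X U : Set E} {V : Set H} {ρ : E → H} {ψ : H → E}

theorem CA_line (v h : H) : HasDerivAt (fun t : ℝ => v + t • h) h 0 := by
  simpa using ((hasDerivAt_id (0:ℝ)).smul_const h).const_add v

theorem CA_psi (hc : IsChart X U V ρ ψ) {v : H} (hv : v ∈ V) : ContDiffAt ℝ ∞ ψ v :=
  hc.smooth_ψ.contDiffAt (hc.isOpen_V.mem_nhds hv)

theorem CA_rho (hc : IsChart X U V ρ ψ) {z : E} (hz : z ∈ U) : ContDiffAt ℝ ∞ ρ z :=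
  hc.smooth_ρ.contDiffAt (hc.isOpen_U.mem_nhds hz)

theorem CA_fd {F : E → E'} {z : E} (h : ContDiffAt ℝ ∞ F z) : HasFDerivAt F (fderiv ℝ F z) z :=
  (h.differentiableAt (by simp)).hasFDerivAt

theorem CA_comp {F : E → E'} {γ : ℝ → E} {z a : E} (h0 : γ 0 = z) (h : HasFDerivAt F (fderiv ℝ F z) z)
    (hγ : HasDerivAt γ a 0) : HasDerivAt (fun t => F (γ t)) (fderiv ℝ F z a) 0 := by
  subst h0
  exact h.comp_hasDerivAt (0:ℝ) hγ

theorem CA_ev {W : Set E} {γ : ℝ → E} {z : E} (h0 : γ 0 = z) (hW : IsOpen W) (hz : z ∈ W)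
    (hγ : ContinuousAt γ 0) : ∀ᶠ t in 𝓝 (0:ℝ), γ t ∈ W :=
  hγ.eventually (by rw [h0]; exact hW.mem_nhds hz)

theorem IsChart.tangent_psi (hc : IsChart X U V ρ ψ) {v : H} (hv : v ∈ V) (h : H) :
    IsTangent X (ψ v) (fderiv ℝ ψ v h) := by
  have e0 : v + (0:ℝ) • h = v := by simp
  have hcont : ContDiffAt ℝ ∞ (fun t : ℝ => v + t • h) 0 := by fun_prop
  refine ⟨fun t => ψ (v + t • h), by simp, ?_, ?_, ?_⟩
  · filter_upwards [CA_ev (γ := fun t : ℝ => v + t • h) e0 hc.isOpen_V hv hcont.continuousAt] with t ht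
    exact (hc.maps_ψ _ ht).1
  · refine ContDiffAt.comp (0:ℝ) (g := ψ) (f := fun t : ℝ => v + t • h) ?_ hcont
    rw [e0]
    exact CA_psi hc hv
  · exact CA_comp (γ := fun t : ℝ => v + t • h) e0 (CA_fd (CA_psi hc hv)) (CA_line v h)

theorem IsChart.rho_psi (hc : IsChart X U V ρ ψ) {v : H} (hv : v ∈ V) (h : H) :
    fderiv ℝ ρ (ψ v) (fderiv ℝ ψ v h) = h := by
  have e0 : v + (0:ℝ) • h = v := by simp
  have h1 := CA_comp (γ := fun t : ℝ => v + t • h) e0 (CA_fd (CA_psi hc hv)) (CA_line v h)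
  have h2 := CA_comp (F := ρ) (γ := fun t : ℝ => ψ (v + t • h)) (z := ψ v) (by simp)
    (CA_fd (CA_rho hc (hc.maps_ψ v hv).2)) h1
  have hcont : ContinuousAt (fun t : ℝ => v + t • h) 0 := by fun_prop
  have h3 : (fun t : ℝ => ρ (ψ (v + t • h))) =ᶠ[𝓝 0] fun t : ℝ => v + t • h := by
    filter_upwards [CA_ev (γ := fun t : ℝ => v + t • h) e0 hc.isOpen_V hv hcont] with t ht
    exact hc.right_inv _ ht
  exact (h2.congr_of_eventuallyEq h3.symm).unique (CA_line v h)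

theorem IsChart.tangent_eq (hc : IsChart X U V ρ ψ) {z a : E} (hz : z ∈ X ∩ U)
    (ha : IsTangent X z a) : a = fderiv ℝ ψ (ρ z) (fderiv ℝ ρ z a) := by
  obtain ⟨γ, h0, hX, hs, hd⟩ := ha
  have h1 := CA_comp (F := ρ) h0 (CA_fd (CA_rho hc hz.2)) hd
  have h2 := CA_comp (F := ψ) (γ := fun t => ρ (γ t)) (z := ρ z) (by rw [h0])
    (CA_fd (CA_psi hc (hc.maps_ρ z hz))) h1
  have h3 : γ =ᶠ[𝓝 0] fun t : ℝ => ψ (ρ (γ t)) := by
    filter_upwards [hX, CA_ev h0 hc.isOpen_U hz.2 hs.continuousAt] with t ht1 ht2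
    exact (hc.left_inv _ ⟨ht1, ht2⟩).symm
  exact hd.unique (h2.congr_of_eventuallyEq h3)

theorem IsTangent.congr {X Y W : Set E} {z a : E} (hW : IsOpen W) (hz : z ∈ W)
    (h : X ∩ W = Y ∩ W) : IsTangent X z a ↔ IsTangent Y z a := by
  have key : ∀ X Y : Set E, X ∩ W = Y ∩ W → IsTangent X z a → IsTangent Y z a := by
    rintro X Y h ⟨γ, h0, hX, hs, hd⟩
    refine ⟨γ, h0, ?_, hs, hd⟩
    filter_upwards [hX, CA_ev h0 hW hz hs.continuousAt] with t ht1 ht2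
    have : γ t ∈ X ∩ W := ⟨ht1, ht2⟩
    rw [h] at this
    exact this.1
  exact ⟨key X Y h, key Y X h.symm⟩

theorem IsTangent.map {X : Set E} {Y : Set E'} {W : Set E} {z a : E} {F : E → E'} (hW : IsOpen W)
    (hz : z ∈ W) (hF : ContDiffOn ℝ ∞ F W) (hXY : ∀ y ∈ X ∩ W, F y ∈ Y) (ha : IsTangent X z a) :
    IsTangent Y (F z) (fderiv ℝ F z a) := by
  obtain ⟨γ, h0, hX, hs, hd⟩ := ha
  have hFz : ContDiffAt ℝ ∞ F z := hF.contDiffAt (hW.mem_nhds hz)
  refine ⟨fun t => F (γ t), by simp only [h0], ?_, ?_, CA_comp h0 (CA_fd hFz) hd⟩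
  · filter_upwards [hX, CA_ev h0 hW hz hs.continuousAt] with t ht1 ht2
    exact hXY _ ⟨ht1, ht2⟩
  · refine ContDiffAt.comp (0:ℝ) (g := F) (f := γ) ?_ hs
    rw [h0]
    exact hFz

theorem mapsTangent_iff {X W : Set E} {z a : E} {b : E'} {f F : E → E'} (hW : IsOpen W)
    (hz : z ∈ X ∩ W) (hF : ContDiffOn ℝ ∞ F W) (hf : ∀ y ∈ X ∩ W, F y = f y) :
    MapsTangent X f z a b ↔ (IsTangent X z a ∧ b = fderiv ℝ F z a) := by
  have hFz : ContDiffAt ℝ ∞ F z := hF.contDiffAt (hW.mem_nhds hz.2)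
  constructor
  · rintro ⟨γ, h0, hX, hs, hd, hb⟩
    refine ⟨⟨γ, h0, hX, hs, hd⟩, ?_⟩
    have h1 := CA_comp h0 (CA_fd hFz) hd
    have h2 : (fun t => f (γ t)) =ᶠ[𝓝 0] fun t => F (γ t) := by
      filter_upwards [hX, CA_ev h0 hW hz.2 hs.continuousAt] with t ht1 ht2
      exact (hf _ ⟨ht1, ht2⟩).symm
    exact hb.unique (h1.congr_of_eventuallyEq h2)
  · rintro ⟨⟨γ, h0, hX, hs, hd⟩, rfl⟩
    refine ⟨γ, h0, hX, hs, hd, ?_⟩
    have h1 := CA_comp h0 (CA_fd hFz) hd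
    have h2 : (fun t => f (γ t)) =ᶠ[𝓝 0] fun t => F (γ t) := by
      filter_upwards [hX, CA_ev h0 hW hz.2 hs.continuousAt] with t ht1 ht2
      exact (hf _ ⟨ht1, ht2⟩).symm
    exact h1.congr_of_eventuallyEq h2

theorem tangent_injective {X W : Set E} {W' : Set E'} {z a : E} {F : E → E'} {G : E' → E}
    (hW : IsOpen W) (hW' : IsOpen W') (hz : z ∈ X ∩ W) (hF : ContDiffOn ℝ ∞ F W)
    (hG : ContDiffOn ℝ ∞ G W') (hFW : F z ∈ W') (hGF : ∀ y ∈ X ∩ W, G (F y) = y)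
    (ha : IsTangent X z a) : fderiv ℝ G (F z) (fderiv ℝ F z a) = a := by
  obtain ⟨γ, h0, hX, hs, hd⟩ := ha
  have hFz : ContDiffAt ℝ ∞ F z := hF.contDiffAt (hW.mem_nhds hz.2)
  have hGz : ContDiffAt ℝ ∞ G (F z) := hG.contDiffAt (hW'.mem_nhds hFW)
  have h1 := CA_comp h0 (CA_fd hFz) hd
  have h2 := CA_comp (F := G) (γ := fun t => F (γ t)) (z := F z) (by simp only [h0]) (CA_fd hGz) h1
  have h3 : (fun t => G (F (γ t))) =ᶠ[𝓝 0] γ := by
    filter_upwards [hX, CA_ev h0 hW hz.2 hs.continuousAt] with t ht1 ht2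
    exact hGF _ ⟨ht1, ht2⟩
  exact (h2.congr_of_eventuallyEq h3.symm).unique hd

/-- Zero, sums and multiples of tangent vectors at a point covered by a chart. -/
theorem IsChart.tangent_submodule (hc : IsChart X U V ρ ψ) {z : E} (hz : z ∈ X ∩ U) :
    ∃ S : Submodule ℝ E, ∀ a, a ∈ S ↔ IsTangent X z a := by
  refine ⟨LinearMap.range (fderiv ℝ ψ (ρ z)).toLinearMap, fun a => ⟨?_, fun ha => ?_⟩⟩
  · rintro ⟨h, rfl⟩
    have := hc.tangent_psi (hc.maps_ρ z hz) h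
    rw [hc.left_inv z hz] at this
    exact this
  · exact ⟨fderiv ℝ ρ z a, (hc.tangent_eq hz ha).symm⟩

end Pool.Agent.H34.SY
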