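import Pool.Agent.H34.SY.Forms

/-!
# Row CB: exterior derivative of 1-forms and pull-backs

`dd l z a b = D_a l (b) - D_b l (a)`, `pb1 f l z = (l (f z)) ∘ (D f z)`,
`pb2 f Om z a b = Om (f z) (D f z a) (D f z b)`.

* `dd_pb1`: `D_a (pb1 f l) b = (D_{Df a} l)(Df b) + l (f z) (D²f z a b)` (product rule for
  `ContinuousLinearMap.comp`, `HasFDerivAt.clm_comp`), and `D²f` is symmetric
  (`ContDiffAt.isSymmSndFDerivAt` or `second_derivative_symmetric`).
* `extD_dd`: `extD (dd l)` is the alternating sum of `D²l`, which is symmetric in the first two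
  arguments; the six terms cancel.
-/

open Set Topology
open scoped ContDiff

namespace Pool.Agent.H34.SY

variable {E : Type} [NormedAddCommGroup E] [NormedSpace ℝ E]
variable {E' : Type} [NormedAddCommGroup E'] [NormedSpace ℝ E']
variable {E'' : Type} [NormedAddCommGroup E''] [NormedSpace ℝ E'']

theorem cb_diff2 {f : E → E'} {z : E} (hf : ContDiffAt ℝ 2 f z) :
    HasFDerivAt (fderiv ℝ f) (fderiv ℝ (fderiv ℝ f) z) z := by
  have h : ContDiffAt ℝ 1 (fderiv ℝ f) z := hf.fderiv_right (by norm_num)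
  exact (h.differentiableAt (by norm_num)).hasFDerivAt

theorem cb_fderiv {f : E → E'} {U : Set E} (hU : IsOpen U) (hf : ContDiffOn ℝ ∞ f U) :
    ContDiffOn ℝ ∞ (fderiv ℝ f) U :=
  hf.fderiv_of_isOpen hU (by simp)

/-- The flip, as a continuous linear map. -/
noncomputable def cb_L (G G' : Type) [NormedAddCommGroup G] [NormedSpace ℝ G]
    [NormedAddCommGroup G'] [NormedSpace ℝ G'] :
    (G →L[ℝ] G' →L[ℝ] ℝ) →L[ℝ] (G' →L[ℝ] G →L[ℝ] ℝ) :=
  ((ContinuousLinearMap.flipₗᵢ ℝ G G' ℝ).toContinuousLinearEquiv :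
        (G →L[ℝ] G' →L[ℝ] ℝ) →L[ℝ] (G' →L[ℝ] G →L[ℝ] ℝ))

theorem cb_Lcd {G G' : Type} [NormedAddCommGroup G] [NormedSpace ℝ G] [NormedAddCommGroup G']
    [NormedSpace ℝ G'] : ContDiff ℝ ∞ (cb_L G G') :=
  @ContinuousLinearMap.contDiff ℝ (G →L[ℝ] G' →L[ℝ] ℝ) (G' →L[ℝ] G →L[ℝ] ℝ) _ _ _ _ _ ∞
    (cb_L G G')

theorem cb_flip {G G' : Type} [NormedAddCommGroup G] [NormedSpace ℝ G] [NormedAddCommGroup G']
    [NormedSpace ℝ G'] {f : E → G →L[ℝ] G' →L[ℝ] ℝ} {U : Set E} (hf : ContDiffOn ℝ ∞ f U) :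
    ContDiffOn ℝ ∞ (fun y => (f y).flip) U :=
  cb_Lcd.comp_contDiffOn hf

theorem cb_hflip {G G' : Type} [NormedAddCommGroup G] [NormedSpace ℝ G] [NormedAddCommGroup G']
    [NormedSpace ℝ G'] {f : E → G →L[ℝ] G' →L[ℝ] ℝ} {f' : E →L[ℝ] G →L[ℝ] G' →L[ℝ] ℝ} {z : E}
    (hf : HasFDerivAt f f' z) :
    HasFDerivAt (fun y => (f y).flip) ((cb_L G G').comp f') z := by
  have h1 := @ContinuousLinearMap.hasFDerivAt ℝ _ (G →L[ℝ] G' →L[ℝ] ℝ) _ _ _
    (G' →L[ℝ] G →L[ℝ] ℝ) _ _ _ (cb_L G G') (f z)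
  have h2 := @HasFDerivAt.comp ℝ _ E _ _ (G →L[ℝ] G' →L[ℝ] ℝ) _ _ (G' →L[ℝ] G →L[ℝ] ℝ) _ _ f f' z
    (cb_L G G') (cb_L G G') h1 hf
  exact h2

theorem cb_comp {f : E → E'} {Om : Form E'} {z : E} (hOm : DifferentiableAt ℝ Om (f z))
    (hd : DifferentiableAt ℝ f z) :
    HasFDerivAt (fun y => Om (f y)) ((fderiv ℝ Om (f z)).comp (fderiv ℝ f z)) z :=
  HasFDerivAt.comp (E := E) (F := E') (G := E' →L[ℝ] E' →L[ℝ] ℝ) z hOm.hasFDerivAt hd.hasFDerivAt

theorem dd_apply (l : Form1 E) (z a b : E) :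
    dd l z a b = fderiv ℝ l z a b - fderiv ℝ l z b a := by
  rfl

theorem dd_self (l : Form1 E) (z a : E) : dd l z a a = 0 := by
  rw [dd_apply, sub_self]

theorem dd_swap (l : Form1 E) (z a b : E) : dd l z a b = -dd l z b a := by
  rw [dd_apply, dd_apply, neg_sub]

theorem wdg_apply (l m : E →L[ℝ] ℝ) (a b : E) : wdg l m a b = l a * m b - m a * l b := by
  rfl

theorem dd_congr {l m : Form1 E} {z : E} (h : l =ᶠ[𝓝 z] m) : dd l z = dd m z := by
  unfold dd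
  rw [h.fderiv_eq]

theorem dd_add {l m : Form1 E} {z : E} (hl : DifferentiableAt ℝ l z)
    (hm : DifferentiableAt ℝ m z) : dd (fun y => l y + m y) z = dd l z + dd m z := by
  have h : fderiv ℝ (fun y => l y + m y) z = fderiv ℝ l z + fderiv ℝ m z :=
    (hl.hasFDerivAt.add hm.hasFDerivAt).fderiv
  ext a b
  rw [dd_apply, h]
  show fderiv ℝ l z a b + fderiv ℝ m z a b - (fderiv ℝ l z b a + fderiv ℝ m z b a) =
    (fderiv ℝ l z a b - fderiv ℝ l z b a) + (fderiv ℝ m z a b - fderiv ℝ m z b a)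
  ring

theorem dd_sub {l m : Form1 E} {z : E} (hl : DifferentiableAt ℝ l z)
    (hm : DifferentiableAt ℝ m z) : dd (fun y => l y - m y) z = dd l z - dd m z := by
  have h : fderiv ℝ (fun y => l y - m y) z = fderiv ℝ l z - fderiv ℝ m z :=
    (hl.hasFDerivAt.sub hm.hasFDerivAt).fderiv
  ext a b
  rw [dd_apply, h]
  show fderiv ℝ l z a b - fderiv ℝ m z a b - (fderiv ℝ l z b a - fderiv ℝ m z b a) =
    (fderiv ℝ l z a b - fderiv ℝ l z b a) - (fderiv ℝ m z a b - fderiv ℝ m z b a)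
  ring

theorem dd_neg {l : Form1 E} {z : E} : dd (fun y => -l y) z = -dd l z := by
  have h : fderiv ℝ (fun y => -l y) z = -fderiv ℝ l z := fderiv_fun_neg
  ext a b
  rw [dd_apply, h]
  show -fderiv ℝ l z a b - -fderiv ℝ l z b a = -(fderiv ℝ l z a b - fderiv ℝ l z b a)
  ring

theorem dd_const_smul {l : Form1 E} {z : E} (c : ℝ) (hl : DifferentiableAt ℝ l z) :
    dd (fun y => c • l y) z = c • dd l z := by
  have h : fderiv ℝ (fun y => c • l y) z = c • fderiv ℝ l z :=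
    (hl.hasFDerivAt.const_smul c).fderiv
  ext a b
  rw [dd_apply, h]
  show c * fderiv ℝ l z a b - c * fderiv ℝ l z b a = c * (fderiv ℝ l z a b - fderiv ℝ l z b a)
  ring

/-- `d (f l) = df ∧ l + f dl`. -/
theorem dd_smul {f : E → ℝ} {l : Form1 E} {z : E} (hf : DifferentiableAt ℝ f z)
    (hl : DifferentiableAt ℝ l z) :
    dd (fun y => f y • l y) z = wdg (fderiv ℝ f z) (l z) + f z • dd l z := by
  have h : fderiv ℝ (fun y => f y • l y) z = f z • fderiv ℝ l z + (fderiv ℝ f z).smulRight (l z) :=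
    (hf.hasFDerivAt.smul hl.hasFDerivAt).fderiv
  ext a b
  rw [dd_apply, h]
  show (f z * fderiv ℝ l z a b + fderiv ℝ f z a * l z b) -
      (f z * fderiv ℝ l z b a + fderiv ℝ f z b * l z a) =
    (fderiv ℝ f z a * l z b - l z a * fderiv ℝ f z b) +
      f z * (fderiv ℝ l z a b - fderiv ℝ l z b a)
  ring

/-- `d (df) = 0`. -/
theorem dd_fderiv {f : E → ℝ} {z : E} (hf : ContDiffAt ℝ 2 f z) :
    dd (fun y => fderiv ℝ f y) z = 0 := by
  have h := (hf.isSymmSndFDerivAt (by simp))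
  ext a b
  rw [dd_apply]
  show fderiv ℝ (fderiv ℝ f) z a b - fderiv ℝ (fderiv ℝ f) z b a = 0
  rw [h a b, sub_self]

/-- A constant 1-form is closed. -/
theorem dd_const (c : E →L[ℝ] ℝ) (z : E) : dd (fun _ => c) z = 0 := by
  have h : fderiv ℝ (fun _ : E => c) z = 0 := (hasFDerivAt_const c z).fderiv
  ext a b
  rw [dd_apply, h]
  show (0 : ℝ) - 0 = 0
  ring

theorem dd_pb1 {f : E → E'} {l : Form1 E'} {z : E} (hf : ContDiffAt ℝ 2 f z)
    (hl : DifferentiableAt ℝ l (f z)) : dd (pb1 f l) z = pb2 f (dd l) z := by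
  have hsym := (hf.isSymmSndFDerivAt (by simp))
  have hd : DifferentiableAt ℝ f z := hf.differentiableAt (by norm_num)
  have h1 : HasFDerivAt (fun y => l (f y)) ((fderiv ℝ l (f z)).comp (fderiv ℝ f z)) z :=
    hl.hasFDerivAt.comp z hd.hasFDerivAt
  have h2 : HasFDerivAt (fderiv ℝ f) (fderiv ℝ (fderiv ℝ f) z) z :=
    cb_diff2 hf
  have h3 := (h1.clm_comp h2).fderiv
  ext a b
  rw [dd_apply]
  have h4 : fderiv ℝ (pb1 f l) z = _ := h3
  rw [h4]
  show (l (f z) (fderiv ℝ (fderiv ℝ f) z a b) + fderiv ℝ l (f z) (fderiv ℝ f z a) (fderiv ℝ f z b)) -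
      (l (f z) (fderiv ℝ (fderiv ℝ f) z b a) + fderiv ℝ l (f z) (fderiv ℝ f z b) (fderiv ℝ f z a)) =
    fderiv ℝ l (f z) (fderiv ℝ f z a) (fderiv ℝ f z b) -
      fderiv ℝ l (f z) (fderiv ℝ f z b) (fderiv ℝ f z a)
  rw [hsym a b]
  ring

theorem pb2_apply (f : E → E') (Om : Form E') (z a b : E) :
    pb2 f Om z a b = Om (f z) (fderiv ℝ f z a) (fderiv ℝ f z b) := by
  rfl

theorem pb1_comp {f : E → E'} {g : E' → E''} {l : Form1 E''} {z : E}
    (hf : DifferentiableAt ℝ f z) (hg : DifferentiableAt ℝ g (f z)) :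
    pb1 f (pb1 g l) z = pb1 (fun y => g (f y)) l z := by
  have h : fderiv ℝ (fun y => g (f y)) z = (fderiv ℝ g (f z)).comp (fderiv ℝ f z) :=
    (hg.hasFDerivAt.comp z hf.hasFDerivAt).fderiv
  unfold pb1
  rw [h]
  rfl

theorem pb2_comp {f : E → E'} {g : E' → E''} {Om : Form E''} {z : E}
    (hf : DifferentiableAt ℝ f z) (hg : DifferentiableAt ℝ g (f z)) :
    pb2 f (pb2 g Om) z = pb2 (fun y => g (f y)) Om z := by
  have h : fderiv ℝ (fun y => g (f y)) z = (fderiv ℝ g (f z)).comp (fderiv ℝ f z) :=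
    (hg.hasFDerivAt.comp z hf.hasFDerivAt).fderiv
  ext a b
  rw [pb2_apply, pb2_apply, pb2_apply, h]
  rfl

theorem contDiffOn_pb1 {f : E → E'} {l : Form1 E'} {U : Set E} {V : Set E'} (hU : IsOpen U)
    (hf : ContDiffOn ℝ ∞ f U) (hl : ContDiffOn ℝ ∞ l V) (hUV : MapsTo f U V) :
    ContDiffOn ℝ ∞ (pb1 f l) U := by
  exact (hl.comp hf hUV).clm_comp (cb_fderiv hU hf)

theorem contDiffOn_dd {l : Form1 E} {U : Set E} (hU : IsOpen U) (hl : ContDiffOn ℝ ∞ l U) :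
    ContDiffOn ℝ ∞ (dd l) U := by
  exact (cb_fderiv hU hl).sub (cb_flip (cb_fderiv hU hl))

theorem contDiffOn_pb2 {f : E → E'} {Om : Form E'} {U : Set E} {V : Set E'} (hU : IsOpen U)
    (hf : ContDiffOn ℝ ∞ f U) (hl : ContDiffOn ℝ ∞ Om V) (hUV : MapsTo f U V) :
    ContDiffOn ℝ ∞ (pb2 f Om) U := by
  have h1 := cb_fderiv hU hf
  have h2 := (hl.comp hf hUV).clm_comp h1
  exact cb_flip ((cb_flip h2).clm_comp h1)

theorem extD_dd {l : Form1 E} {z : E} (hl : ContDiffAt ℝ 2 l z) (a b c : E) :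
    extD (dd l) z a b c = 0 := by
  have hsym := (hl.isSymmSndFDerivAt (by simp))
  have h2 : HasFDerivAt (fderiv ℝ l) (fderiv ℝ (fderiv ℝ l) z) z := cb_diff2 hl
  have h4 : ∀ a b c, fderiv ℝ (dd l) z a b c =
      fderiv ℝ (fderiv ℝ l) z a b c - fderiv ℝ (fderiv ℝ l) z a c b := by
    intro a b c
    have h6 := @HasFDerivAt.sub ℝ _ E _ _ (E →L[ℝ] E →L[ℝ] ℝ) _ _ _ _ _ _ _ h2 (cb_hflip h2)
    have h7 := h6.fderiv
    exact congrArg (fun L : E →L[ℝ] E →L[ℝ] E →L[ℝ] ℝ => L a b c) h7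
  unfold extD
  rw [h4, h4, h4, hsym a b, hsym b c, hsym c a]
  ring

/-- The pull-back of a closed alternating form is closed. -/
theorem extD_pb2 {f : E → E'} {Om : Form E'} {z : E} (hf : ContDiffAt ℝ 2 f z)
    (hOm : DifferentiableAt ℝ Om (f z)) (halt : ∀ᶠ y in 𝓝 (f z), ∀ a, Om y a a = 0)
    (hcl : ∀ a b c, extD Om (f z) a b c = 0) (a b c : E) : extD (pb2 f Om) z a b c = 0 := by
  have hsym := (hf.isSymmSndFDerivAt (by simp))
  have hd : DifferentiableAt ℝ f z := hf.differentiableAt (by norm_num)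
  have h1 : HasFDerivAt (fun y => Om (f y)) ((fderiv ℝ Om (f z)).comp (fderiv ℝ f z)) z :=
    cb_comp hOm hd
  have h2 : HasFDerivAt (fderiv ℝ f) (fderiv ℝ (fderiv ℝ f) z) z := cb_diff2 hf
  have h3 := cb_hflip ((cb_hflip (h1.clm_comp h2)).clm_comp h2)
  have h4 : ∀ a b c, fderiv ℝ (pb2 f Om) z a b c =
      fderiv ℝ Om (f z) (fderiv ℝ f z a) (fderiv ℝ f z b) (fderiv ℝ f z c) +
      Om (f z) (fderiv ℝ (fderiv ℝ f) z a b) (fderiv ℝ f z c) +
      Om (f z) (fderiv ℝ f z b) (fderiv ℝ (fderiv ℝ f) z a c) := by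
    intro a b c
    have h5 : fderiv ℝ (pb2 f Om) z = _ := h3.fderiv
    rw [h5]
    show Om (f z) (fderiv ℝ f z b) (fderiv ℝ (fderiv ℝ f) z a c) +
      (Om (f z) (fderiv ℝ (fderiv ℝ f) z a b) (fderiv ℝ f z c) +
        fderiv ℝ Om (f z) (fderiv ℝ f z a) (fderiv ℝ f z b) (fderiv ℝ f z c)) = _
    ring
  have h0 := halt.self_of_nhds
  have hanti : ∀ x y, Om (f z) x y = -Om (f z) y x := by
    intro x y
    have h6 := h0 (x + y)
    rw [map_add] at h6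
    have h8 : Om (f z) (x + y) = Om (f z) x + Om (f z) y := map_add _ _ _
    rw [h8] at h6
    have h9 : (Om (f z) x x + Om (f z) y x) + (Om (f z) x y + Om (f z) y y) = 0 := h6
    rw [h0 x, h0 y] at h9
    linarith
  have h7 := hcl (fderiv ℝ f z a) (fderiv ℝ f z b) (fderiv ℝ f z c)
  unfold extD at h7 ⊢
  rw [h4, h4, h4, hsym b a, hsym c a, hsym c b,
    hanti (fderiv ℝ f z c) (fderiv ℝ (fderiv ℝ f) z a b),
    hanti (fderiv ℝ f z b) (fderiv ℝ (fderiv ℝ f) z a c),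
    hanti (fderiv ℝ f z a) (fderiv ℝ (fderiv ℝ f) z b c)]
  linarith

end Pool.Agent.H34.SY
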