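import Pool.Agent.H34.SY.CA
import Pool.Agent.H34.SY.CB

/-!
# Row CC: closed forms on a submanifold; gluing

`IsClosedForm X om`: near every point of `X` there is a smooth closed alternating form `Om` of the
ambient space with the same values on tangent vectors.  Imports rows CA, CB (add the imports).

* `isClosedForm_dd`: take `Om = dd l` (`contDiffOn_dd`, `dd_self`, `extD_dd`).
* `add`, `smul`, `congr`, `mono`: intersect the neighbourhoods (tangent vectors of `X ∩ U` and of `X`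
  agree at points of the open `U`: `IsTangent.congr`).
* `pb`: at `z ∈ X ∩ U`, take the local form `Om'` of `Y` near `f z`, the neighbourhood
  `U ∩ f ⁻¹' U'` (open since `f` is continuous on the open `U`) and the form `pb2 f Om'`;
  `extD_pb2`; `IsTangent.map`.
* `glue`: define `om z := Om (i z) z` for a chosen index `i z` with `z ∈ U (i z)` (any index if there
  is none).
-/

open Set Topology
open scoped ContDiff

namespace Pool.Agent.H34.SY

variable {E : Type} [NormedAddCommGroup E] [NormedSpace ℝ E]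
variable {E' : Type} [NormedAddCommGroup E'] [NormedSpace ℝ E']

theorem CC_two_le : (2 : WithTop ℕ∞) ≤ (∞ : WithTop ℕ∞) := by
  have h : ((2 : ℕ∞) : WithTop ℕ∞) ≤ ((⊤ : ℕ∞) : WithTop ℕ∞) := by
    exact_mod_cast (le_top : (2 : ℕ∞) ≤ ⊤)
  exact h

theorem CC_at {F : Type} [NormedAddCommGroup F] [NormedSpace ℝ F] {f : E → F} {U : Set E}
    (hU : IsOpen U) (hf : ContDiffOn ℝ ∞ f U) {z : E} (hz : z ∈ U) : ContDiffAt ℝ 2 f z :=
  (hf.contDiffAt (hU.mem_nhds hz)).of_le CC_two_le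

theorem CC_diff {F : Type} [NormedAddCommGroup F] [NormedSpace ℝ F] {f : E → F} {U : Set E}
    (hU : IsOpen U) (hf : ContDiffOn ℝ ∞ f U) {z : E} (hz : z ∈ U) : DifferentiableAt ℝ f z :=
  (CC_at hU hf hz).differentiableAt (by norm_num)

theorem CC_tan_mono {X Y : Set E} (h : X ⊆ Y) {z a : E} (ha : IsTangent X z a) :
    IsTangent Y z a := by
  obtain ⟨γ, h0, h1, h2, h3⟩ := ha
  exact ⟨γ, h0, h1.mono fun t ht => h ht, h2, h3⟩

theorem isClosedForm_dd {X U : Set E} {l : Form1 E} (hU : IsOpen U) (hl : ContDiffOn ℝ ∞ l U) :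
    IsClosedForm (X ∩ U) (dd l) := by
  intro z hz
  exact ⟨U, hU, hz.2, dd l, contDiffOn_dd hU hl, fun y _ a => dd_self l y a,
    fun y hy a b c => extD_dd (CC_at hU hl hy) a b c, fun y _ a b _ _ => rfl⟩

theorem IsClosedForm.add {X : Set E} {om om' : Form E} (h : IsClosedForm X om)
    (h' : IsClosedForm X om') : IsClosedForm X (fun z => om z + om' z) := by
  intro z hz
  obtain ⟨U, hU, hzU, Om, hOm, halt, hcl, hag⟩ := h z hz
  obtain ⟨U', hU', hzU', Om', hOm', halt', hcl', hag'⟩ := h' z hz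
  refine ⟨U ∩ U', hU.inter hU', ⟨hzU, hzU'⟩, fun y => Om y + Om' y,
    (hOm.mono inter_subset_left).add (hOm'.mono inter_subset_right), ?_, ?_, ?_⟩
  · intro y hy a
    show Om y a a + Om' y a a = 0
    rw [halt y hy.1 a, halt' y hy.2 a, add_zero]
  · intro y hy a b c
    have e := fderiv_fun_add (CC_diff hU hOm hy.1) (CC_diff hU' hOm' hy.2)
    have e1 := hcl y hy.1 a b c
    have e2 := hcl' y hy.2 a b c
    simp only [extD] at e1 e2 ⊢
    rw [e]
    simp only [ContinuousLinearMap.add_apply]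
    linarith
  · intro y hy a b ha hb
    show om y a b + om' y a b = Om y a b + Om' y a b
    rw [hag y ⟨hy.1, hy.2.1⟩ a b ha hb, hag' y ⟨hy.1, hy.2.2⟩ a b ha hb]

theorem IsClosedForm.smul {X : Set E} {om : Form E} (c : ℝ) (h : IsClosedForm X om) :
    IsClosedForm X (fun z => c • om z) := by
  intro z hz
  obtain ⟨U, hU, hzU, Om, hOm, halt, hcl, hag⟩ := h z hz
  refine ⟨U, hU, hzU, fun y => c • Om y, hOm.const_smul c, ?_, ?_, ?_⟩
  · intro y hy a
    show c • Om y a a = 0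
    rw [halt y hy a, smul_zero]
  · intro y hy a b d
    have e := fderiv_fun_const_smul (CC_diff hU hOm hy) c
    have e1 := hcl y hy a b d
    simp only [extD] at e1 ⊢
    rw [e]
    simp only [ContinuousLinearMap.smul_apply, smul_eq_mul]
    linear_combination c * e1
  · intro y hy a b ha hb
    show c • om y a b = c • Om y a b
    rw [hag y hy a b ha hb]

theorem IsClosedForm.congr {X : Set E} {om om' : Form E} (h : IsClosedForm X om)
    (h' : ∀ z ∈ X, ∀ a b, IsTangent X z a → IsTangent X z b → om z a b = om' z a b) :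
    IsClosedForm X om' := by
  intro z hz
  obtain ⟨U, hU, hzU, Om, hOm, halt, hcl, hag⟩ := h z hz
  exact ⟨U, hU, hzU, Om, hOm, halt, hcl, fun y hy a b ha hb =>
    (h' y hy.1 a b ha hb).symm.trans (hag y hy a b ha hb)⟩

theorem IsClosedForm.mono {X U : Set E} {om : Form E} (hU : IsOpen U) (h : IsClosedForm X om) :
    IsClosedForm (X ∩ U) om := by
  intro z hz
  obtain ⟨U', hU', hzU, Om, hOm, halt, hcl, hag⟩ := h z hz.1
  exact ⟨U', hU', hzU, Om, hOm, halt, hcl, fun y hy a b ha hb =>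
    hag y ⟨hy.1.1, hy.2⟩ a b (CC_tan_mono inter_subset_left ha) (CC_tan_mono inter_subset_left hb)⟩

theorem IsClosedForm.pb {X U : Set E} {Y : Set E'} {f : E → E'} {om : Form E'} (hU : IsOpen U)
    (hf : ContDiffOn ℝ ∞ f U) (hXY : ∀ z ∈ X ∩ U, f z ∈ Y) (h : IsClosedForm Y om) :
    IsClosedForm (X ∩ U) (pb2 f om) := by
  intro z hz
  obtain ⟨U', hU', hzU, Om, hOm, halt, hcl, hag⟩ := h (f z) (hXY z hz)
  have hW : IsOpen (U ∩ f ⁻¹' U') := hf.continuousOn.isOpen_inter_preimage hU hU'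
  have hfW : ContDiffOn ℝ ∞ f (U ∩ f ⁻¹' U') := hf.mono inter_subset_left
  refine ⟨U ∩ f ⁻¹' U', hW, ⟨hz.2, hzU⟩, pb2 f Om,
    contDiffOn_pb2 hW hfW hOm (fun y hy => hy.2), ?_, ?_, ?_⟩
  · intro y hy a
    rw [pb2_apply, halt (f y) hy.2]
  · intro y hy a b c
    exact extD_pb2 (CC_at hU hf hy.1) (CC_diff hU' hOm hy.2)
      (Filter.eventually_of_mem (hU'.mem_nhds hy.2) fun w hw a => halt w hw a)
      (fun a b c => hcl (f y) hy.2 a b c) a b c
  · intro y hy a b ha hb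
    rw [pb2_apply, pb2_apply]
    have hm : ∀ w ∈ (X ∩ U) ∩ U, f w ∈ Y := fun w hw => hXY w hw.1
    exact hag (f y) ⟨hXY y hy.1, hy.2.2⟩ _ _ (IsTangent.map hU hy.1.2 hf hm ha)
      (IsTangent.map hU hy.1.2 hf hm hb)

theorem IsClosedForm.alt {X : Set E} {om : Form E} (h : IsClosedForm X om) {z : E} (hz : z ∈ X)
    {a b : E} (ha : IsTangent X z a) (hb : IsTangent X z b) : om z a b = -om z b a := by
  obtain ⟨U, hU, hzU, Om, hOm, halt, hcl, hag⟩ := h z hz
  rw [hag z ⟨hz, hzU⟩ a b ha hb, hag z ⟨hz, hzU⟩ b a hb ha]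
  have h1 := halt z hzU (a + b)
  have h2 := halt z hzU a
  have h3 := halt z hzU b
  simp only [map_add, ContinuousLinearMap.add_apply] at h1
  linarith

theorem glue_closed {X : Set E} {I : Type} (U : I → Set E) (Om : I → Form E)
    (hU : ∀ i, IsOpen (U i)) (hcl : ∀ i, IsClosedForm (X ∩ U i) (Om i))
    (hcov : ∀ z ∈ X, ∃ i, z ∈ U i)
    (hcomp : ∀ i j, ∀ z ∈ X, z ∈ U i → z ∈ U j → ∀ a b, IsTangent X z a → IsTangent X z b →
      Om i z a b = Om j z a b) :
    ∃ om : Form E, IsClosedForm X om ∧ ∀ i, ∀ z ∈ X, z ∈ U i → ∀ a b, IsTangent X z a →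
      IsTangent X z b → om z a b = Om i z a b := by
  classical
  obtain ⟨om, hom⟩ : ∃ om : Form E, ∀ z, (∃ i, z ∈ U i) → ∃ i, z ∈ U i ∧ om z = Om i z := by
    refine ⟨fun z => if h : ∃ i, z ∈ U i then Om h.choose z else 0, fun z hz => ?_⟩
    refine ⟨hz.choose, hz.choose_spec, ?_⟩
    show (if h : ∃ i, z ∈ U i then Om h.choose z else 0) = _
    rw [dif_pos hz]
  have hag : ∀ i, ∀ z ∈ X, z ∈ U i → ∀ a b, IsTangent X z a →
      IsTangent X z b → om z a b = Om i z a b := by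
    intro i z hz hzi a b ha hb
    obtain ⟨j, hj, e⟩ := hom z ⟨i, hzi⟩
    rw [e]
    exact hcomp j i z hz hj hzi a b ha hb
  refine ⟨om, ?_, hag⟩
  intro z hz
  obtain ⟨i, hi⟩ := hcov z hz
  obtain ⟨W, hW, hzW, Om', hOm', halt, hc, hag'⟩ := hcl i z ⟨hz, hi⟩
  refine ⟨W ∩ U i, hW.inter (hU i), ⟨hzW, hi⟩, Om', hOm'.mono inter_subset_left,
    fun y hy => halt y hy.1, fun y hy => hc y hy.1, ?_⟩
  intro y hy a b ha hb
  have hset : X ∩ U i = X ∩ U i ∩ U i := by
    rw [inter_assoc, inter_self]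
  rw [hag i y hy.1 hy.2.2 a b ha hb]
  exact hag' y ⟨⟨hy.1, hy.2.2⟩, hy.2.1⟩ a b ((IsTangent.congr (hU i) hy.2.2 hset).1 ha)
    ((IsTangent.congr (hU i) hy.2.2 hset).1 hb)

/-- If two 1-forms agree on the tangent vectors of `X` near `z`, so do their derivatives at `z`.
Proof: `pb1 ψ l = pb1 ψ m` near `ρ z` (each `ψ w` is in the neighbourhood, and
`fderiv ψ w h` is tangent), so `dd` of both agree; `dd_pb1`; every tangent vector at `z` is
`fderiv ψ (ρ z) h` (`IsChart.tangent_eq`). -/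
theorem dd_congr_tangent {H : Type} [NormedAddCommGroup H] [NormedSpace ℝ H] {X U W : Set E}
    {V : Set H} {ρ : E → H} {ψ : H → E} (hc : IsChart X U V ρ ψ) {z : E} (hz : z ∈ X ∩ U)
    (hW : IsOpen W) (hzW : z ∈ W) {l m : Form1 E} (hl : ContDiffOn ℝ ∞ l W)
    (hm : ContDiffOn ℝ ∞ m W) (h : ∀ y ∈ X ∩ W, ∀ a, IsTangent X y a → l y a = m y a) {a b : E}
    (ha : IsTangent X z a) (hb : IsTangent X z b) : dd l z a b = dd m z a b := by
  have hv : ρ z ∈ V := hc.maps_ρ z hz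
  have hz0 : ψ (ρ z) = z := hc.left_inv z hz
  have hψ : ContDiffAt ℝ 2 ψ (ρ z) := CC_at hc.isOpen_V hc.smooth_ψ hv
  have hcont : ContinuousAt ψ (ρ z) := hψ.continuousAt
  have hev : pb1 ψ l =ᶠ[𝓝 (ρ z)] pb1 ψ m := by
    have e1 : ∀ᶠ w in 𝓝 (ρ z), w ∈ V := hc.isOpen_V.mem_nhds hv
    have e2 : ∀ᶠ w in 𝓝 (ρ z), ψ w ∈ W :=
      hcont (hW.mem_nhds (by rw [hz0]; exact hzW))
    filter_upwards [e1, e2] with w hw1 hw2
    ext k
    show l (ψ w) (fderiv ℝ ψ w k) = m (ψ w) (fderiv ℝ ψ w k)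
    exact h (ψ w) ⟨(hc.maps_ψ w hw1).1, hw2⟩ _ (hc.tangent_psi hw1 k)
  have hd := dd_congr hev
  have el : DifferentiableAt ℝ l (ψ (ρ z)) := by
    rw [hz0]; exact CC_diff hW hl hzW
  have em : DifferentiableAt ℝ m (ψ (ρ z)) := by
    rw [hz0]; exact CC_diff hW hm hzW
  rw [dd_pb1 hψ el, dd_pb1 hψ em] at hd
  have key : ∀ k k' : H, dd l z (fderiv ℝ ψ (ρ z) k) (fderiv ℝ ψ (ρ z) k') =
      dd m z (fderiv ℝ ψ (ρ z) k) (fderiv ℝ ψ (ρ z) k') := by
    intro k k'
    have e1 := pb2_apply ψ (dd l) (ρ z) k k'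
    have e2 := pb2_apply ψ (dd m) (ρ z) k k'
    rw [hz0] at e1 e2
    rw [← e1, ← e2, hd]
  have e3 := hc.tangent_eq hz ha
  have e4 := hc.tangent_eq hz hb
  rw [e3, e4]
  exact key _ _

end Pool.Agent.H34.SY
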