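import Pool.Agent.H34.SY.Forms

/-!
# Row CD: the cube of a bilinear form

* `cube B a` is multilinear and alternating in `a : Fin 6 → E` (it is the alternatization of the
  multilinear map `a ↦ B (a 0) (a 1) * B (a 2) (a 3) * B (a 4) (a 5)`; use
  `MultilinearMap.alternatization` or prove it by hand).  Hence for vectors `e : Fin 6 → E` and a
  matrix `A`: `cube B (fun k => ∑ l, A k l • e l) = det A * cube B e`
  (`AlternatingMap.map_matrix`.. or `AlternatingMap.eq_smul_basis_det` on `ℝ⁶`, applied to the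
  pull-back of `cube B` by the linear map `ℝ⁶ → E`, `x ↦ ∑ x_l e_l`).
* `cube_ne_zero`: a nondegenerate alternating bilinear form on a 6-dimensional space has
  `cube B e ≠ 0` for every basis `e`.  Proof: choose a symplectic basis
  `a 0, a 1, ..` with `B (a 0) (a 1) = 1`, `B (a 2) (a 3) = 1`, `B (a 4) (a 5) = 1`, all other products
  zero: take `a 0 ≠ 0`, `a 1` with `B (a 0) (a 1) = 1`; the orthogonal complement of the plane is
  4-dimensional and nondegenerate, etc.  For it `cube = 48` (all the nonzero terms of the sum are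
  positive: a permutation contributes iff it permutes the three pairs and the members of pairs, and then
  the sign equals the sign of the product; you may also evaluate it by `decide`-free expansion:
  prove that every nonzero term is `1`, and that the identity term is nonzero).
* `sign` statements are used for orientations.
-/

set_option autoImplicit false

open Set Topology
open scoped ContDiff

namespace Pool.Agent.H34.SY

variable {E : Type} [NormedAddCommGroup E] [NormedSpace ℝ E]

/-- the product as a multilinear map. -/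
noncomputable def CD_mul (B : E →L[ℝ] E →L[ℝ] ℝ) : MultilinearMap ℝ (fun _ : Fin 6 => E) ℝ where
  toFun a := B (a 0) (a 1) * B (a 2) (a 3) * B (a 4) (a 5)
  map_update_add' := by
    intro inst m i x y
    have h : inst = instDecidableEqFin 6 := Subsingleton.elim _ _
    subst h
    fin_cases i <;> simp [Function.update] <;> ring
  map_update_smul' := by
    intro inst m i c x
    have h : inst = instDecidableEqFin 6 := Subsingleton.elim _ _
    subst h
    fin_cases i <;> simp [Function.update] <;> ring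

/-- the cube as an alternating map. -/
noncomputable def CD_alt (B : E →L[ℝ] E →L[ℝ] ℝ) : E [⋀^Fin 6]→ₗ[ℝ] ℝ :=
  MultilinearMap.alternatization (CD_mul B)

theorem CD_alt_apply (B : E →L[ℝ] E →L[ℝ] ℝ) (a : Fin 6 → E) : CD_alt B a = cube B a := by
  rw [CD_alt, MultilinearMap.alternatization_apply, cube]
  refine Finset.sum_congr rfl fun σ _ => ?_
  rw [Units.smul_def, zsmul_eq_mul]
  rfl

theorem cube_matrix (B : E →L[ℝ] E →L[ℝ] ℝ) (e : Fin 6 → E) (A : Matrix (Fin 6) (Fin 6) ℝ) :
    cube B (fun k => ∑ l, A k l • e l) = A.det * cube B e := by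
  have h := AlternatingMap.eq_smul_basis_det (Pi.basisFun ℝ (Fin 6))
    ((CD_alt B).compLinearMap (Fintype.linearCombination ℝ e))
  have h1 : (CD_alt B).compLinearMap (Fintype.linearCombination ℝ e) (fun k => A k) =
      (CD_alt B).compLinearMap (Fintype.linearCombination ℝ e) (Pi.basisFun ℝ (Fin 6)) *
        (Pi.basisFun ℝ (Fin 6)).det (fun k => A k) := by
    conv_lhs => rw [h]
    rw [AlternatingMap.smul_apply, smul_eq_mul]
  have e1 : (fun k => ∑ l, A k l • e l) = fun k => Fintype.linearCombination ℝ e (A k) := by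
    funext k
    rw [Fintype.linearCombination_apply]
  have e2 : (fun i => Fintype.linearCombination ℝ e (Pi.basisFun ℝ (Fin 6) i)) = e := by
    funext k
    rw [Pi.basisFun_apply, Fintype.linearCombination_apply_single, one_smul]
  have e3 : (Pi.basisFun ℝ (Fin 6)).det (fun k => A k) = A.det := Pi.basisFun_det_apply _
  rw [AlternatingMap.compLinearMap_apply, AlternatingMap.compLinearMap_apply, e2, e3] at h1
  rw [e1, ← CD_alt_apply, ← CD_alt_apply, mul_comm]
  exact h1

/-- the standard form. -/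
def CD_J (i j : Fin 6) : ℤ := if i.val / 2 = j.val / 2 then (j.val : ℤ) - i.val else 0

theorem CD_J_sum : (∑ σ : Equiv.Perm (Fin 6), (Equiv.Perm.sign σ : ℤ) *
    (CD_J (σ 0) (σ 1) * CD_J (σ 2) (σ 3) * CD_J (σ 4) (σ 5))) = 48 := by decide +kernel

theorem CD_cube_J (B : E →L[ℝ] E →L[ℝ] ℝ) (a : Fin 6 → E)
    (h : ∀ i j, B (a i) (a j) = (CD_J i j : ℝ)) : cube B a = 48 := by
  have h1 := congrArg (Int.cast : ℤ → ℝ) CD_J_sum
  rw [Int.cast_sum] at h1
  rw [cube]
  refine Eq.trans (Finset.sum_congr rfl fun σ _ => ?_) (h1.trans (by norm_num))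
  rw [h, h, h]
  push_cast
  ring

/-- one step of the Gram-Schmidt process. -/
theorem CD_step (B : E →L[ℝ] E →L[ℝ] ℝ) (T : Submodule ℝ E) (n : ℕ)
    (hT : n + 1 ≤ Module.finrank ℝ T) (halt : ∀ a ∈ T, ∀ b ∈ T, B a b = -B b a)
    (hnd : ∀ a ∈ T, a ≠ 0 → ∃ b ∈ T, B a b ≠ 0) :
    ∃ a ∈ T, ∃ b ∈ T, B a b = 1 ∧ ∃ T' : Submodule ℝ E, T' ≤ T ∧ n ≤ Module.finrank ℝ T' + 1 ∧
      (∀ x ∈ T', B a x = 0 ∧ B b x = 0) ∧ ∀ x ∈ T', x ≠ 0 → ∃ y ∈ T', B x y ≠ 0 := by
  have hfin : FiniteDimensional ℝ T := Module.finite_of_finrank_pos (by omega)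
  have hT0 : T ≠ ⊥ := by
    rintro rfl
    rw [finrank_bot] at hT
    omega
  obtain ⟨a, ha, ha0⟩ := (Submodule.ne_bot_iff T).1 hT0
  obtain ⟨b0, hb0, hab0⟩ := hnd a ha ha0
  obtain ⟨b, hb, hab⟩ : ∃ b ∈ T, B a b = 1 :=
    ⟨(B a b0)⁻¹ • b0, T.smul_mem _ hb0, by rw [map_smul, smul_eq_mul, inv_mul_cancel₀ hab0]⟩
  have haa : B a a = 0 := by have := halt a ha a ha; linarith
  have hbb : B b b = 0 := by have := halt b hb b hb; linarith
  have hba : B b a = -1 := by have := halt b hb a ha; linarith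
  refine ⟨a, ha, b, hb, hab, ?_⟩
  let φ : T →ₗ[ℝ] ℝ × ℝ := (LinearMap.prod (B a).toLinearMap (B b).toLinearMap) ∘ₗ T.subtype
  have hφ : ∀ x : T, φ x = 0 ↔ B a x = 0 ∧ B b x = 0 := by
    intro x
    rw [Prod.ext_iff]
    rfl
  refine ⟨(LinearMap.ker φ).map T.subtype, ?_, ?_, ?_, ?_⟩
  · exact Submodule.map_subtype_le T _
  · have h1 := LinearMap.finrank_range_add_finrank_ker φ
    have h2 : Module.finrank ℝ (LinearMap.range φ) ≤ 2 := by
      have := Submodule.finrank_le (LinearMap.range φ)
      rw [Module.finrank_prod, Module.finrank_self] at this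
      exact this
    have h3 : Module.finrank ℝ ((LinearMap.ker φ).map T.subtype) =
        Module.finrank ℝ (LinearMap.ker φ) :=
      LinearEquiv.finrank_eq (Submodule.equivSubtypeMap T (LinearMap.ker φ)).symm
    omega
  · intro x hx
    obtain ⟨z, hz, rfl⟩ := Submodule.mem_map.1 hx
    exact (hφ z).1 (LinearMap.mem_ker.1 hz)
  · intro x hx hx0
    obtain ⟨z, hz, rfl⟩ := Submodule.mem_map.1 hx
    have hz1 := (hφ z).1 (LinearMap.mem_ker.1 hz)
    obtain ⟨y, hy, hxy⟩ := hnd z z.2 hx0
    have hy' : y - (B y b) • a - (B a y) • b ∈ T :=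
      T.sub_mem (T.sub_mem hy (T.smul_mem _ ha)) (T.smul_mem _ hb)
    refine ⟨y - (B y b) • a - (B a y) • b, ?_, ?_⟩
    · refine Submodule.mem_map.2 ⟨⟨_, hy'⟩, LinearMap.mem_ker.2 ((hφ _).2 ?_), rfl⟩
      have h5 := halt y hy b hb
      constructor
      · change B a (y - (B y b) • a - (B a y) • b) = 0
        rw [map_sub, map_sub, map_smul, map_smul, smul_eq_mul, smul_eq_mul, haa, hab]
        ring
      · change B b (y - (B y b) • a - (B a y) • b) = 0
        rw [map_sub, map_sub, map_smul, map_smul, smul_eq_mul, smul_eq_mul, hba, hbb, h5]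
        ring
    · have h6 := halt z z.2 a ha
      have h7 := halt z z.2 b hb
      change B z (y - (B y b) • a - (B a y) • b) ≠ 0
      rw [map_sub, map_sub, map_smul, map_smul, smul_eq_mul, smul_eq_mul, h6, h7, hz1.1, hz1.2]
      simpa using hxy

/-- `S` is a 6-dimensional space of vectors. -/
theorem exists_cube_ne_zero (B : E →L[ℝ] E →L[ℝ] ℝ) (S : Submodule ℝ E)
    (hS : Module.finrank ℝ S = 6) (halt : ∀ a ∈ S, ∀ b ∈ S, B a b = -B b a)
    (hnd : ∀ a ∈ S, a ≠ 0 → ∃ b ∈ S, B a b ≠ 0) :
    ∃ a : Fin 6 → E, (∀ k, a k ∈ S) ∧ cube B a ≠ 0 := by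
  obtain ⟨a0, h0, a1, h1, h01, S1, hS1, hd1, ho1, hn1⟩ := CD_step B S 5 (by omega) halt hnd
  obtain ⟨a2, h2, a3, h3, h23, S2, hS2, hd2, ho2, hn2⟩ := CD_step B S1 3 (by omega)
    (fun a ha b hb => halt a (hS1 ha) b (hS1 hb)) hn1
  obtain ⟨a4, h4, a5, h5, h45, S3, hS3, hd3, ho3, hn3⟩ := CD_step B S2 1 (by omega)
    (fun a ha b hb => halt a (hS1 (hS2 ha)) b (hS1 (hS2 hb))) hn2
  have g2 := hS1 h2
  have g3 := hS1 h3
  have g4 := hS1 (hS2 h4)
  have g5 := hS1 (hS2 h5)
  have self : ∀ x ∈ S, B x x = 0 := fun x hx => by have := halt x hx x hx; linarith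
  refine ⟨![a0, a1, a2, a3, a4, a5], ?_, ?_⟩
  · intro k
    fin_cases k
    · exact h0
    · exact h1
    · exact g2
    · exact g3
    · exact g4
    · exact g5
  · have key : ∀ i j : Fin 6, i ≤ j → B ((![a0, a1, a2, a3, a4, a5] : Fin 6 → E) i)
        ((![a0, a1, a2, a3, a4, a5] : Fin 6 → E) j) = (CD_J i j : ℝ) := by
      intro i j hij
      fin_cases i <;> fin_cases j <;> first
        | exact absurd hij (by decide)
        | (simp [CD_J, h01, h23, h45, self _ h0, self _ h1, self _ g2, self _ g3, self _ g4,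
            self _ g5, (ho1 _ h2).1, (ho1 _ h3).1, (ho1 _ (hS2 h4)).1, (ho1 _ (hS2 h5)).1,
            (ho1 _ h2).2, (ho1 _ h3).2, (ho1 _ (hS2 h4)).2, (ho1 _ (hS2 h5)).2,
            (ho2 _ h4).1, (ho2 _ h5).1, (ho2 _ h4).2, (ho2 _ h5).2])
    have mem : ∀ k : Fin 6, (![a0, a1, a2, a3, a4, a5] : Fin 6 → E) k ∈ S := by
      intro k
      fin_cases k
      · exact h0
      · exact h1
      · exact g2
      · exact g3
      · exact g4
      · exact g5
    rw [CD_cube_J B _ fun i j => ?_]
    · norm_num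
    · rcases le_total i j with hij | hij
      · exact key i j hij
      · rw [halt _ (mem i) _ (mem j), key j i hij]
        have : ∀ i j : Fin 6, -CD_J j i = CD_J i j := by decide
        rw [← this i j]
        push_cast
        rfl

theorem linearIndependent_of_cube_ne_zero (B : E →L[ℝ] E →L[ℝ] ℝ) {a : Fin 6 → E}
    (hca : cube B a ≠ 0) : LinearIndependent ℝ a := by
  by_contra h
  rw [← CD_alt_apply] at hca
  exact hca (AlternatingMap.map_linearDependent (CD_alt B) a h)

/-- If the cube does not vanish on six vectors of `S`, they are linearly independent, and it does not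
vanish on any six linearly independent vectors of `S`. -/
theorem cube_ne_zero_of_linearIndependent (B : E →L[ℝ] E →L[ℝ] ℝ) (S : Submodule ℝ E)
    (hS : Module.finrank ℝ S = 6) {a e : Fin 6 → E} (ha : ∀ k, a k ∈ S) (he : ∀ k, e k ∈ S)
    (hca : cube B a ≠ 0) (hli : LinearIndependent ℝ e) : cube B e ≠ 0 := by
  have hfin : FiniteDimensional ℝ S := Module.finite_of_finrank_pos (by omega)
  have hspan : Submodule.span ℝ (Set.range e) = S := by
    apply Submodule.eq_of_le_of_finrank_eq
    · rw [Submodule.span_le]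
      rintro _ ⟨k, rfl⟩
      exact he k
    · rw [finrank_span_eq_card hli, hS]
      rfl
  have hc : ∀ k, ∃ c : Fin 6 → ℝ, ∑ l, c l • e l = a k := by
    intro k
    have h1 : a k ∈ Submodule.span ℝ (Set.range e) := by rw [hspan]; exact ha k
    exact (Submodule.mem_span_range_iff_exists_fun ℝ).1 h1
  choose c hc using hc
  have h2 := cube_matrix B e (Matrix.of c)
  have h3 : (fun k => ∑ l, (Matrix.of c) k l • e l) = a := funext hc
  rw [h3] at h2
  intro h4
  rw [h4, mul_zero] at h2
  exact hca h2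

end Pool.Agent.H34.SY
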