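import Pool.Agent.H34.SY.Forms
import Pool.Agent.H34.SY.CA
import Pool.Agent.H34.SY.CD

/-!
# Row CE: nondegenerate closed forms are symplectic

Imports rows CA, CC, CD.  At `z ∈ X` take a chart with model `R6`; the tangent space is the image of the
injective linear map `fderiv ψ (ρ z)` (injective by `IsChart.rho_psi`), a 6-dimensional subspace
(`IsChart.tangent_submodule`); apply `exists_cube_ne_zero`.
`nonDegAt_of_chart`: nondegeneracy may be checked in any chart (any model space).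
-/

open Set Topology
open scoped ContDiff

namespace Pool.Agent.H34.SY

variable {E : Type} [NormedAddCommGroup E] [NormedSpace ℝ E]

theorem isSymplectic_of_nonDeg {X : Set E} {om : Form E} (hX : IsMfd R6 X)
    (hcl : IsClosedForm X om) (hnd : ∀ z ∈ X, NonDegAt X om z) : IsSymplectic X om := by
  refine ⟨hcl, fun z hz => ?_⟩
  obtain ⟨U, V, ρ, ψ, hzU, hc⟩ := hX z hz
  have hzX : z ∈ X ∩ U := ⟨hz, hzU⟩
  have hv := hc.maps_ρ z hzX
  have hpsi := hc.left_inv z hzX
  set L : R6 →ₗ[ℝ] E := (fderiv ℝ ψ (ρ z)).toLinearMap with hL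
  set S : Submodule ℝ E := LinearMap.range L with hS
  have hmem : ∀ a, a ∈ S ↔ IsTangent X z a := by
    intro a
    constructor
    · rintro ⟨h, rfl⟩
      have := hc.tangent_psi hv h
      rw [hpsi] at this
      exact this
    · intro ha
      exact ⟨fderiv ℝ ρ z a, (hc.tangent_eq hzX ha).symm⟩
  have hinj : Function.Injective L := by
    intro a b hab
    have h1 := hc.rho_psi hv a
    have h2 := hc.rho_psi hv b
    have hab' : fderiv ℝ ψ (ρ z) a = fderiv ℝ ψ (ρ z) b := hab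
    rw [← h1, ← h2, hab']
  have hfr : Module.finrank ℝ S = 6 := by
    rw [hS, LinearMap.finrank_range_of_inj hinj]
    simp
  obtain ⟨U', hU', hzU', Om, -, halt, -, hOm⟩ := hcl z hz
  have hal : ∀ a b, Om z a b = -Om z b a := by
    intro a b
    have h1 := halt z hzU' (a + b)
    have h2 := halt z hzU' a
    have h3 := halt z hzU' b
    simp only [map_add, ContinuousLinearMap.add_apply] at h1
    linarith
  obtain ⟨a, ha, hcube⟩ := exists_cube_ne_zero (om z) S hfr
    (fun a ha b hb => by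
      rw [hOm z ⟨hz, hzU'⟩ a b ((hmem a).1 ha) ((hmem b).1 hb),
        hOm z ⟨hz, hzU'⟩ b a ((hmem b).1 hb) ((hmem a).1 ha)]
      exact hal a b)
    (fun a ha ha0 => by
      obtain ⟨b, hb, hab⟩ := hnd z hz a ((hmem a).1 ha) ha0
      exact ⟨b, (hmem b).2 hb, hab⟩)
  exact ⟨a, fun k => (hmem _).1 (ha k), hcube⟩

theorem nonDegAt_of_chart {H : Type} [NormedAddCommGroup H] [NormedSpace ℝ H] {X U : Set E}
    {V : Set H} {ρ : E → H} {ψ : H → E} (hc : IsChart X U V ρ ψ) {v : H} (hv : v ∈ V)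
    {om : Form E} (h : ∀ a : H, a ≠ 0 → ∃ b : H, pb2 ψ om v a b ≠ 0) :
    NonDegAt X om (ψ v) := by
  intro a ha ha0
  have hzX := hc.maps_ψ v hv
  have h1 := hc.tangent_eq hzX ha
  rw [hc.right_inv v hv] at h1
  have h2 : fderiv ℝ ρ (ψ v) a ≠ 0 := by
    intro h0
    rw [h0, map_zero] at h1
    exact ha0 h1
  obtain ⟨b, hb⟩ := h _ h2
  refine ⟨fderiv ℝ ψ v b, hc.tangent_psi hv b, ?_⟩
  have h3 : pb2 ψ om v (fderiv ℝ ρ (ψ v) a) b =
      om (ψ v) (fderiv ℝ ψ v (fderiv ℝ ρ (ψ v) a)) (fderiv ℝ ψ v b) := rfl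
  rw [h3, ← h1] at hb
  exact hb

theorem NonDegAt.congr {X : Set E} {om om' : Form E} {z : E} (h : NonDegAt X om z)
    (h' : ∀ a b, IsTangent X z a → IsTangent X z b → om z a b = om' z a b) :
    NonDegAt X om' z := by
  intro a ha ha0
  obtain ⟨b, hb, hab⟩ := h a ha ha0
  exact ⟨b, hb, by rwa [← h' a b ha hb]⟩

end Pool.Agent.H34.SY
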