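import Pool.Agent.H34.SY.Forms
import Pool.Agent.H34.SY.CA
import Pool.Agent.H34.SY.CD

/-!
# Row CF: orientations

A diffeomorphism between symplectic manifolds, defined on a connected open part, which preserves the
orientation at one point preserves it everywhere.  Imports rows CA, CC, CD, CE.

Proof.  Let `M0 = M ∩ O`.  At `z ∈ M0` choose a chart `(U, V, ρ, ψ)` of `M` with model `R6` and the
frame `e_k(y) = fderiv ψ (ρ y) (basis k)`, `y ∈ M ∩ U`.  Let `F` be a smooth ambient map equal to `f`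
on `M ∩ O` near `z`.  The functions `y ↦ cube (om y) (e(y))` and `y ↦ cube (om' (f y)) (fderiv F y e(y))`
are continuous on `M0` near `z` (replace `om`, `om'` by their local smooth extensions: same values on
tangent vectors) and nonzero: the first because `om` is symplectic (`cube_ne_zero_of_linearIndependent`),
the second because `fderiv F y` is injective on tangent vectors with values in the tangent space of `M'`
(`f` is a diffeomorphism, `tangent_injective`) and `om'` is symplectic.  So the set of the `y ∈ M0` where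
the two have the same sign is open in `M0`, and so is its complement; `M0` is preconnected.  At a given
point the sign comparison for one frame implies it for all vectors `a`, `b = fderiv F y a` by
`cube_matrix` (`a_k = Σ A_kl e_l`, both cubes are multiplied by `det A`).
-/

open Set Topology
open scoped ContDiff

namespace Pool.Agent.H34.SY

variable {E : Type} [NormedAddCommGroup E] [NormedSpace ℝ E]
variable {E' : Type} [NormedAddCommGroup E'] [NormedSpace ℝ E']

theorem orientation_connected_cube_congr {B B' : E →L[ℝ] E →L[ℝ] ℝ} {a : Fin 6 → E}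
    (h : ∀ i j, B (a i) (a j) = B' (a i) (a j)) : cube B a = cube B' a := by
  unfold cube
  refine Finset.sum_congr rfl fun σ _ => ?_
  rw [h, h, h]

theorem orientation_connected_cube_cont {T : Type} [TopologicalSpace T] {B : T → E →L[ℝ] E →L[ℝ] ℝ}
    {a : T → Fin 6 → E} {z : T} (hB : ContinuousAt B z) (ha : ∀ k, ContinuousAt (fun y => a y k) z) :
    ContinuousAt (fun y => cube (B y) (a y)) z := by
  unfold cube
  refine tendsto_finsetSum _ fun σ _ => ?_
  refine Filter.Tendsto.mul tendsto_const_nhds ?_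
  exact ((((hB.clm_apply (ha (σ 0))).clm_apply (ha (σ 1))).mul
    ((hB.clm_apply (ha (σ 2))).clm_apply (ha (σ 3)))).mul
    ((hB.clm_apply (ha (σ 4))).clm_apply (ha (σ 5))))

/-- The standard basis. -/
noncomputable def orientation_connected_bs : Module.Basis (Fin 6) ℝ R6 :=
  (EuclideanSpace.basisFun (Fin 6) ℝ).toBasis

theorem orientation_connected_range {X U : Set E} {V : Set R6} {ρ : E → R6} {ψ : R6 → E}
    (hc : IsChart X U V ρ ψ) {z : E} (hz : z ∈ X ∩ U) :
    ∃ S : Submodule ℝ E, Module.finrank ℝ S = 6 ∧ ∀ a, IsTangent X z a → a ∈ S := by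
  refine ⟨LinearMap.range (fderiv ℝ ψ (ρ z)).toLinearMap, ?_, ?_⟩
  · have hinj : Function.Injective (fderiv ℝ ψ (ρ z)).toLinearMap := by
      refine Function.LeftInverse.injective (g := fun x => fderiv ℝ ρ (ψ (ρ z)) x) fun h => ?_
      exact hc.rho_psi (hc.maps_ρ z hz) h
    rw [LinearMap.finrank_range_of_inj hinj]
    simp
  · intro a ha
    exact ⟨fderiv ℝ ρ z a, (hc.tangent_eq hz ha).symm⟩

theorem orientation_connected_local {M O : Set E} {M' A : Set E'} {om : Form E} {om' : Form E'}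
    {f : E → E'} (hM : IsMfd R6 M) (hM' : IsMfd R6 M') (hom : IsSymplectic M om)
    (hom' : IsSymplectic M' om') (hO : IsOpen O)
    (hf : IsDiffeo (M ∩ O) (M' ∩ A) f) {z : E} (hz : z ∈ M ∩ O) :
    ∃ p q : E → ℝ, ContinuousAt p z ∧ ContinuousAt q z ∧ p z ≠ 0 ∧ q z ≠ 0 ∧
      ∀ᶠ y in 𝓝 z, y ∈ M ∩ O →
        (∀ (a : Fin 6 → E) (b : Fin 6 → E'), (∀ k, MapsTangent M f y (a k) (b k)) →
          ∃ d : ℝ, cube (om y) a = d * p y ∧ cube (om' (f y)) b = d * q y) ∧
        ∃ (a : Fin 6 → E) (b : Fin 6 → E'), (∀ k, MapsTangent M f y (a k) (b k)) ∧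
          cube (om y) a = p y ∧ cube (om' (f y)) b = q y := by
  obtain ⟨U, V, ρ, ψ, hzU, hc⟩ := hM z hz.1
  obtain ⟨hsf, hmf, g, hsg, hmg, hgf, hfg⟩ := hf
  obtain ⟨W1, hW1, hzW1, F, hF, hFf⟩ := hsf z hz
  obtain ⟨W2, hW2, hzW2, Om, hOm, -, -, hOmom⟩ := hom.1 z hz.1
  have hfz := hmf z hz
  obtain ⟨W3, hW3, hfW3, G, hG, hGg⟩ := hsg (f z) hfz
  obtain ⟨W4, hW4, hfW4, Om', hOm', -, -, hOmom'⟩ := hom'.1 (f z) hfz.1
  obtain ⟨U', V', ρ', ψ', hzU', hc'⟩ := hM' (f z) hfz.1
  have hFz : F z = f z := hFf z ⟨hz, hzW1⟩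
  -- the open set where everything is defined
  set W : Set E := W1 ∩ O with hWdef
  have hW : IsOpen W := hW1.inter hO
  have hzW : z ∈ W := ⟨hzW1, hz.2⟩
  have hFW : ContDiffOn ℝ ∞ F W := hF.mono inter_subset_left
  have hFfW : ∀ y ∈ M ∩ W, F y = f y := fun y hy => hFf y ⟨⟨hy.1, hy.2.2⟩, hy.2.1⟩
  have hmapW : ∀ y ∈ M ∩ W, F y ∈ M' := fun y hy => by
    rw [hFfW y hy]
    exact (hmf y ⟨hy.1, hy.2.2⟩).1
  have hFc : ContinuousAt F z := (hFW.continuousOn).continuousAt (hW.mem_nhds hzW)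
  have hρc : ContinuousAt ρ z := (hc.smooth_ρ.continuousOn).continuousAt (hc.isOpen_U.mem_nhds hzU)
  have hρz : ρ z ∈ V := hc.maps_ρ z ⟨hz.1, hzU⟩
  have hdψ : ContinuousAt (fderiv ℝ ψ) (ρ z) :=
    (hc.smooth_ψ.continuousOn_fderiv_of_isOpen hc.isOpen_V (by simp)).continuousAt
      (hc.isOpen_V.mem_nhds hρz)
  have hdF : ContinuousAt (fderiv ℝ F) z :=
    (hFW.continuousOn_fderiv_of_isOpen hW (by simp)).continuousAt (hW.mem_nhds hzW)
  have hOmc : ContinuousAt Om z := hOm.continuousOn.continuousAt (hW2.mem_nhds hzW2)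
  have hOmc' : ContinuousAt Om' (F z) := by
    rw [hFz]
    exact hOm'.continuousOn.continuousAt (hW4.mem_nhds hfW4)
  set bs := orientation_connected_bs with hbs
  set e : E → Fin 6 → E := fun y k => fderiv ℝ ψ (ρ y) (bs k) with he
  have hec : ∀ k, ContinuousAt (fun y => e y k) z := fun k => by
    have h1 : ContinuousAt (fun y => fderiv ℝ ψ (ρ y)) z := ContinuousAt.comp hdψ hρc
    exact h1.clm_apply continuousAt_const
  have het : ∀ y ∈ M ∩ U, ∀ k, IsTangent M y (e y k) := fun y hy k => by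
    have := hc.tangent_psi (hc.maps_ρ y hy) (bs k)
    rw [hc.left_inv y hy] at this
    exact this
  set e' : E → Fin 6 → E' := fun y k => fderiv ℝ F y (e y k) with he'
  have hec' : ∀ k, ContinuousAt (fun y => e' y k) z := fun k => hdF.clm_apply (hec k)
  have het' : ∀ y ∈ M ∩ U ∩ W, ∀ k, IsTangent M' (F y) (e' y k) := fun y hy k =>
    IsTangent.map hW hy.2 hFW hmapW (het y hy.1 k)
  have hOp : ContinuousAt (fun y => Om' (F y)) z := ContinuousAt.comp hOmc' hFc
  refine ⟨fun y => cube (Om y) (e y), fun y => cube (Om' (F y)) (e' y),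
    orientation_connected_cube_cont hOmc hec, orientation_connected_cube_cont hOp hec', ?_, ?_, ?_⟩
  · -- `p z ≠ 0`
    have h1 : cube (Om z) (e z) = cube (om z) (e z) := by
      refine orientation_connected_cube_congr fun i j => ?_
      exact (hOmom z ⟨hz.1, hzW2⟩ _ _ (het z ⟨hz.1, hzU⟩ i) (het z ⟨hz.1, hzU⟩ j)).symm
    change cube (Om z) (e z) ≠ 0
    rw [h1]
    obtain ⟨S, hS, hSt⟩ := orientation_connected_range hc ⟨hz.1, hzU⟩
    obtain ⟨a, hat, hac⟩ := hom.2 z hz.1
    refine cube_ne_zero_of_linearIndependent (om z) S hS (fun k => hSt _ (hat k))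
      (fun k => hSt _ (het z ⟨hz.1, hzU⟩ k)) hac ?_
    have hker : LinearMap.ker (fderiv ℝ ψ (ρ z)).toLinearMap = ⊥ := by
      refine LinearMap.ker_eq_bot.2 (Function.LeftInverse.injective (g := fun x => fderiv ℝ ρ (ψ (ρ z)) x)
        fun h => ?_)
      exact hc.rho_psi hρz h
    exact bs.linearIndependent.map' _ hker
  · -- `q z ≠ 0`
    have h1 : cube (Om' (F z)) (e' z) = cube (om' (F z)) (e' z) := by
      refine orientation_connected_cube_congr fun i j => ?_
      refine (hOmom' (F z) ⟨hmapW z ⟨hz.1, hzW⟩, by rw [hFz]; exact hfW4⟩ _ _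
        (het' z ⟨⟨hz.1, hzU⟩, hzW⟩ i) (het' z ⟨⟨hz.1, hzU⟩, hzW⟩ j)).symm
    change cube (Om' (F z)) (e' z) ≠ 0
    rw [h1]
    have hFz' : F z ∈ M' ∩ U' := ⟨hmapW z ⟨hz.1, hzW⟩, by rw [hFz]; exact hzU'⟩
    obtain ⟨S, hS, hSt⟩ := orientation_connected_range hc' hFz'
    obtain ⟨a, hat, hac⟩ := hom'.2 (F z) hFz'.1
    refine cube_ne_zero_of_linearIndependent (om' (F z)) S hS (fun k => hSt _ (hat k))
      (fun k => hSt _ (het' z ⟨⟨hz.1, hzU⟩, hzW⟩ k)) hac ?_
    -- injectivity
    set W5 : Set E := W ∩ F ⁻¹' W3 with hW5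
    have hW5o : IsOpen W5 := hFW.continuousOn.isOpen_inter_preimage hW hW3
    have hzW5 : z ∈ W5 := ⟨hzW, by change F z ∈ W3; rw [hFz]; exact hfW3⟩
    have hGF : ∀ y ∈ M ∩ W5, G (F y) = y := by
      intro y hy
      have hyW : y ∈ M ∩ W := ⟨hy.1, hy.2.1⟩
      have hy2 : F y ∈ W3 := hy.2.2
      rw [hFfW y hyW] at hy2 ⊢
      have hyO : y ∈ M ∩ O := ⟨hy.1, hy.2.1.2⟩
      rw [hGg (f y) ⟨hmf y hyO, hy2⟩, hgf y hyO]
    have hinj : ∀ h : R6, fderiv ℝ ρ (ψ (ρ z)) (fderiv ℝ G (F z) (fderiv ℝ F z (fderiv ℝ ψ (ρ z) h))) = h := by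
      intro h
      have ht : IsTangent M z (fderiv ℝ ψ (ρ z) h) := by
        have := hc.tangent_psi hρz h
        rw [hc.left_inv z ⟨hz.1, hzU⟩] at this
        exact this
      rw [tangent_injective hW5o hW3 ⟨hz.1, hzW5⟩ (hFW.mono inter_subset_left) hG
        (by rw [hFz]; exact hfW3) hGF ht]
      exact hc.rho_psi hρz h
    have hker : LinearMap.ker ((fderiv ℝ F z).comp (fderiv ℝ ψ (ρ z))).toLinearMap = ⊥ := by
      refine LinearMap.ker_eq_bot.2 (Function.LeftInverse.injective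
        (g := fun x => fderiv ℝ ρ (ψ (ρ z)) (fderiv ℝ G (F z) x)) fun h => ?_)
      exact hinj h
    exact bs.linearIndependent.map' _ hker
  · -- the local statement
    have hev : ∀ᶠ y in 𝓝 z, y ∈ U ∧ y ∈ W ∧ y ∈ W2 ∧ F y ∈ W4 := by
      refine (hc.isOpen_U.eventually_mem hzU).and ((hW.eventually_mem hzW).and
        ((hW2.eventually_mem hzW2).and ?_))
      exact hFc.eventually_mem (by rw [hFz]; exact hW4.mem_nhds hfW4)
    filter_upwards [hev] with y hy hyMO
    obtain ⟨hyU, hyW, hyW2, hyW4⟩ := hy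
    have hyMU : y ∈ M ∩ U := ⟨hyMO.1, hyU⟩
    have hyMW : y ∈ M ∩ W := ⟨hyMO.1, hyW⟩
    have hFy : F y = f y := hFfW y hyMW
    have p1 : cube (om y) (e y) = cube (Om y) (e y) :=
      orientation_connected_cube_congr fun i j =>
        hOmom y ⟨hyMO.1, hyW2⟩ _ _ (het y hyMU i) (het y hyMU j)
    have q1 : cube (om' (f y)) (e' y) = cube (Om' (F y)) (e' y) := by
      rw [← hFy]
      exact orientation_connected_cube_congr fun i j =>
        hOmom' (F y) ⟨hmapW y hyMW, hyW4⟩ _ _ (het' y ⟨hyMU, hyW⟩ i) (het' y ⟨hyMU, hyW⟩ j)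
    refine ⟨fun a b hab => ?_, e y, e' y, fun k => ?_, p1, q1⟩
    · have hab' := fun k => (mapsTangent_iff hW hyMW hFW hFfW).1 (hab k)
      set D : Matrix (Fin 6) (Fin 6) ℝ := fun k l => bs.repr (fderiv ℝ ρ y (a k)) l with hD
      have ha : a = fun k => ∑ l, D k l • e y l := by
        funext k
        have h1 := hc.tangent_eq hyMU (hab' k).1
        have h2 := bs.sum_repr (fderiv ℝ ρ y (a k))
        calc a k = fderiv ℝ ψ (ρ y) (fderiv ℝ ρ y (a k)) := h1
          _ = fderiv ℝ ψ (ρ y) (∑ l, bs.repr (fderiv ℝ ρ y (a k)) l • bs l) := by rw [h2]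
          _ = _ := by
            rw [map_sum]
            refine Finset.sum_congr rfl fun l _ => ?_
            rw [map_smul]
      have hb : b = fun k => ∑ l, D k l • e' y l := by
        funext k
        rw [(hab' k).2, congrFun ha k, map_sum]
        refine Finset.sum_congr rfl fun l _ => ?_
        rw [map_smul]
      refine ⟨D.det, ?_, ?_⟩
      · rw [ha, cube_matrix, p1]
      · rw [hb, cube_matrix, q1]
    · exact (mapsTangent_iff hW hyMW hFW hFfW).2 ⟨het y hyMU k, rfl⟩

/-- The differential preserves the orientations at `y`. -/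
def orientation_connected_P (M : Set E) (om : Form E) (om' : Form E') (f : E → E') (y : E) : Prop :=
  ∀ (a : Fin 6 → E) (b : Fin 6 → E'), (∀ k, MapsTangent M f y (a k) (b k)) → cube (om y) a ≠ 0 →
    0 < cube (om y) a * cube (om' (f y)) b

theorem orientation_connected {M O : Set E} {M' A : Set E'} {om : Form E} {om' : Form E'}
    {f : E → E'} (hM : IsMfd R6 M) (hM' : IsMfd R6 M') (hom : IsSymplectic M om)
    (hom' : IsSymplectic M' om') (hO : IsOpen O) (hA : IsOpen A) (hconn : IsPreconnected (M ∩ O))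
    (hf : IsDiffeo (M ∩ O) (M' ∩ A) f) {z0 : E} (hz0 : z0 ∈ M ∩ O)
    (h0 : ∃ (a : Fin 6 → E) (b : Fin 6 → E'), (∀ k, MapsTangent M f z0 (a k) (b k)) ∧
      0 < cube (om z0) a ∧ 0 < cube (om' (f z0)) b)
    {z : E} (hz : z ∈ M ∩ O) (a : Fin 6 → E) (b : Fin 6 → E')
    (hab : ∀ k, MapsTangent M f z (a k) (b k)) (ha : 0 < cube (om z) a) :
    0 < cube (om' (f z)) b := by
  -- characterisation of `P` near a point
  have key : ∀ x ∈ M ∩ O, ∃ p q : E → ℝ, ContinuousAt p x ∧ ContinuousAt q x ∧ p x ≠ 0 ∧ q x ≠ 0 ∧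
      ∀ᶠ y in 𝓝 x, y ∈ M ∩ O → p y ≠ 0 → (orientation_connected_P M om om' f y ↔ 0 < p y * q y) := by
    intro x hx
    obtain ⟨p, q, hp, hq, hp0, hq0, hev⟩ := orientation_connected_local hM hM' hom hom' hO hf hx
    refine ⟨p, q, hp, hq, hp0, hq0, ?_⟩
    filter_upwards [hev] with y hy hyM hpy
    obtain ⟨h1, a1, b1, hab1, ha1, hb1⟩ := hy hyM
    constructor
    · intro hP
      have := hP a1 b1 hab1 (by rw [ha1]; exact hpy)
      rw [ha1, hb1] at this
      exact this
    · intro hpos a2 b2 hab2 hne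
      obtain ⟨d, hd1, hd2⟩ := h1 a2 b2 hab2
      have hd : d ≠ 0 := by
        rintro rfl
        rw [zero_mul] at hd1
        exact hne hd1
      rw [hd1, hd2]
      have e1 : d * p y * (d * q y) = d ^ 2 * (p y * q y) := by ring
      rw [e1]
      positivity
  have hP0 : orientation_connected_P M om om' f z0 := by
    obtain ⟨p, q, hp, hq, hp0, hq0, hev⟩ := orientation_connected_local hM hM' hom hom' hO hf hz0
    obtain ⟨h1, -⟩ := hev.self_of_nhds hz0
    obtain ⟨a1, b1, hab1, ha1, hb1⟩ := h0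
    obtain ⟨d1, hd1, hd1'⟩ := h1 a1 b1 hab1
    have hpq : 0 < p z0 * q z0 := by
      rw [hd1] at ha1
      rw [hd1'] at hb1
      have h2 := mul_pos ha1 hb1
      have e1 : d1 * p z0 * (d1 * q z0) = d1 ^ 2 * (p z0 * q z0) := by ring
      rw [e1] at h2
      by_contra hneg
      push Not at hneg
      have : d1 ^ 2 * (p z0 * q z0) ≤ 0 := mul_nonpos_of_nonneg_of_nonpos (sq_nonneg _) hneg
      linarith
    intro a2 b2 hab2 hne
    obtain ⟨d, hd1, hd2⟩ := h1 a2 b2 hab2
    have hd : d ≠ 0 := by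
      rintro rfl
      rw [zero_mul] at hd1
      exact hne hd1
    rw [hd1, hd2]
    have e1 : d * p z0 * (d * q z0) = d ^ 2 * (p z0 * q z0) := by ring
    rw [e1]
    positivity
  have hloc : ∀ x ∈ M ∩ O, ∀ᶠ y in 𝓝[M ∩ O] x,
      (orientation_connected_P M om om' f x ↔ orientation_connected_P M om om' f y) := by
    intro x hx
    obtain ⟨p, q, hp, hq, hp0, hq0, hev⟩ := key x hx
    have hx0 := hev.self_of_nhds hx hp0
    have hpq : ContinuousAt (fun y => p y * q y) x := hp.mul hq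
    have e1 : ∀ᶠ y in 𝓝 x, p y ≠ 0 := hp.eventually_ne hp0
    have hpqx : p x * q x ≠ 0 := mul_ne_zero hp0 hq0
    have e2 : ∀ᶠ y in 𝓝 x, (0 < p x * q x ↔ 0 < p y * q y) := by
      rcases lt_or_gt_of_ne hpqx with hlt | hgt
      · filter_upwards [hpq.eventually_lt continuousAt_const hlt] with y hy
        exact ⟨fun h => absurd h (not_lt.2 hlt.le), fun h => absurd h (not_lt.2 hy.le)⟩
      · filter_upwards [continuousAt_const.eventually_lt hpq hgt] with y hy
        exact ⟨fun _ => hy, fun _ => hgt⟩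
    refine (eventually_nhdsWithin_of_eventually_nhds (hev.and (e1.and e2))).and
      eventually_mem_nhdsWithin |>.mono ?_
    rintro y ⟨⟨h1, h2, h3⟩, h4⟩
    rw [hx0, h1 h4 h2]
    exact h3
  have hPz : orientation_connected_P M om om' f z := by
    have := hconn.induction₂ (fun x y => orientation_connected_P M om om' f x ↔
      orientation_connected_P M om om' f y) hloc (fun x y w _ _ _ h1 h2 => h1.trans h2)
      (fun x y _ _ h => h.symm) hz0 hz
    exact this.1 hP0
  have := hPz a b hab ha.ne'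
  exact (mul_pos_iff_of_pos_left ha).1 this

end Pool.Agent.H34.SY
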