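import Pool.Agent.H34.SY.Defs

/-!
# Row CG: regular level sets in an embedded manifold

`level_mfd`: if `X` has charts modelled on a 7-dimensional `H` in which `F` is smooth with nonzero
derivative at the zeros of `F`, then `{z ∈ X | F z = 0}` is a submanifold modelled on `R6`.

Proof: at `z0`, chart `(U, V, ρ, ψ)`, `v0 = ρ z0`, `φ = F ∘ ψ` smooth on `V`, `L = fderiv φ v0 ≠ 0`.
Choose a linear map `π : H →L R6` such that `(L, π) : H → ℝ × R6` is bijective (kernel of `L` has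
dimension 6).  The map `Φ v = (φ v, π v)` has invertible derivative at `v0`
(`HasStrictFDerivAt.toOpenPartialHomeomorph`, `ContDiffAt.toOpenPartialHomeomorph`), its local inverse is
smooth on a neighbourhood (`OpenPartialHomeomorph.contDiffAt_symm`, shrink to a set where the derivative
stays invertible).  New chart: `ρ' z = π (ρ z)`, `ψ' x = ψ (Φ⁻¹ (0, x))`, `V' = {x | (0,x) ∈ target'}`,
`U' = {z ∈ U | ρ z ∈ source'}` where `source'` is an open subset of `V` on which `Φ` is injective and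
`target' = Φ (source')` is open.  Note `ρ` is only required to map `X ∩ U` into `V`.
`IsMfd.model_equiv`: change of model by a linear isomorphism.
`isChart_restrict`: shrink a chart.
-/

open Set Topology
open scoped ContDiff

namespace Pool.Agent.H34.SY

variable {E : Type} [NormedAddCommGroup E] [NormedSpace ℝ E]
variable {H : Type} [NormedAddCommGroup H] [NormedSpace ℝ H]

theorem IsChart.restrict {X U : Set E} {V : Set H} {ρ : E → H} {ψ : H → E}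
    (hc : IsChart X U V ρ ψ) {W : Set E} (hW : IsOpen W) :
    IsChart X (U ∩ W) (V ∩ ψ ⁻¹' W) ρ ψ where
  isOpen_U := hc.isOpen_U.inter hW
  isOpen_V := hc.smooth_ψ.continuousOn.isOpen_inter_preimage hc.isOpen_V hW
  smooth_ρ := hc.smooth_ρ.mono inter_subset_left
  smooth_ψ := hc.smooth_ψ.mono inter_subset_left
  maps_ρ := by
    rintro z ⟨hX, hU, hz⟩
    refine ⟨hc.maps_ρ z ⟨hX, hU⟩, ?_⟩
    show ψ (ρ z) ∈ W
    rw [hc.left_inv z ⟨hX, hU⟩]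
    exact hz
  maps_ψ := by
    rintro v ⟨hv, hvW⟩
    exact ⟨(hc.maps_ψ v hv).1, (hc.maps_ψ v hv).2, hvW⟩
  left_inv := by
    rintro z ⟨hX, hU, _⟩
    exact hc.left_inv z ⟨hX, hU⟩
  right_inv := by
    rintro v ⟨hv, _⟩
    exact hc.right_inv v hv

theorem IsChart.restrict_model {X U : Set E} {V : Set H} {ρ : E → H} {ψ : H → E}
    (hc : IsChart X U V ρ ψ) {V' : Set H} (hV : IsOpen V') :
    IsChart X (U ∩ ρ ⁻¹' V') (V ∩ V') ρ ψ where
  isOpen_U := hc.smooth_ρ.continuousOn.isOpen_inter_preimage hc.isOpen_U hV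
  isOpen_V := hc.isOpen_V.inter hV
  smooth_ρ := hc.smooth_ρ.mono inter_subset_left
  smooth_ψ := hc.smooth_ψ.mono inter_subset_left
  maps_ρ := by
    rintro z ⟨hX, hU, hz⟩
    exact ⟨hc.maps_ρ z ⟨hX, hU⟩, hz⟩
  maps_ψ := by
    rintro v ⟨hv, hvW⟩
    refine ⟨(hc.maps_ψ v hv).1, (hc.maps_ψ v hv).2, ?_⟩
    show ρ (ψ v) ∈ V'
    rw [hc.right_inv v hv]
    exact hvW
  left_inv := by
    rintro z ⟨hX, hU, _⟩
    exact hc.left_inv z ⟨hX, hU⟩
  right_inv := by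
    rintro v ⟨hv, _⟩
    exact hc.right_inv v hv

theorem IsChart.equiv {H' : Type} [NormedAddCommGroup H'] [NormedSpace ℝ H'] {X U : Set E}
    {V : Set H} {ρ : E → H} {ψ : H → E} (hc : IsChart X U V ρ ψ) (e : H ≃L[ℝ] H') :
    IsChart X U (e.symm ⁻¹' V) (fun z => e (ρ z)) (fun v => ψ (e.symm v)) where
  isOpen_U := hc.isOpen_U
  isOpen_V := hc.isOpen_V.preimage e.symm.continuous
  smooth_ρ := e.contDiff.comp_contDiffOn hc.smooth_ρ
  smooth_ψ := hc.smooth_ψ.comp e.symm.contDiff.contDiffOn (fun _ hv => hv)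
  maps_ρ := by
    intro z hz
    show e.symm (e (ρ z)) ∈ V
    rw [e.symm_apply_apply]
    exact hc.maps_ρ z hz
  maps_ψ := fun v hv => hc.maps_ψ _ hv
  left_inv := by
    intro z hz
    show ψ (e.symm (e (ρ z))) = z
    rw [e.symm_apply_apply]
    exact hc.left_inv z hz
  right_inv := by
    intro v hv
    show e (ρ (ψ (e.symm v))) = v
    rw [hc.right_inv _ hv, e.apply_symm_apply]

/-- completion of a nonzero functional to a linear isomorphism. -/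
theorem CG_equiv [FiniteDimensional ℝ H] (hH : Module.finrank ℝ H = 7) (L : H →L[ℝ] ℝ)
    (hL : L ≠ 0) : ∃ (π : H →L[ℝ] R6) (T : H ≃L[ℝ] ℝ × R6), (T : H →L[ℝ] ℝ × R6) = L.prod π := by
  obtain ⟨u0, hu0⟩ : ∃ u0, L u0 ≠ 0 := by
    by_contra h
    push Not at h
    exact hL (ContinuousLinearMap.ext h)
  obtain ⟨u, hu⟩ : ∃ u, L u = 1 := by
    refine ⟨(L u0)⁻¹ • u0, ?_⟩
    rw [map_smul, smul_eq_mul, inv_mul_cancel₀ hu0]
  have hsurj : Function.Surjective (L : H →ₗ[ℝ] ℝ) := by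
    intro t
    refine ⟨t • u, ?_⟩
    show L (t • u) = t
    rw [map_smul, hu, smul_eq_mul, mul_one]
  have hdim : Module.finrank ℝ (LinearMap.ker (L : H →ₗ[ℝ] ℝ)) = Module.finrank ℝ R6 := by
    have h1 := LinearMap.finrank_range_add_finrank_ker (L : H →ₗ[ℝ] ℝ)
    rw [LinearMap.range_eq_top.2 hsurj, finrank_top, Module.finrank_self, hH] at h1
    rw [finrank_euclideanSpace, Fintype.card_fin]
    omega
  have e : (LinearMap.ker (L : H →ₗ[ℝ] ℝ)) ≃L[ℝ] R6 := ContinuousLinearEquiv.ofFinrankEq hdim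
  have hP : ∀ v, (ContinuousLinearMap.id ℝ H - L.smulRight u) v ∈ LinearMap.ker (L : H →ₗ[ℝ] ℝ) := by
    intro v
    rw [LinearMap.mem_ker]
    show L (v - L v • u) = 0
    rw [map_sub, map_smul, hu, smul_eq_mul, mul_one, sub_self]
  obtain ⟨π, hπ⟩ : ∃ π : H →L[ℝ] R6, π = (e : _ →L[ℝ] R6).comp
      ((ContinuousLinearMap.id ℝ H - L.smulRight u).codRestrict
        (LinearMap.ker (L : H →ₗ[ℝ] ℝ)) hP) := ⟨_, rfl⟩
  have hπv : ∀ v, π v = e ⟨v - L v • u, hP v⟩ := by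
    intro v
    rw [hπ]
    rfl
  obtain ⟨g, hg⟩ : ∃ g : ℝ × R6 →L[ℝ] H, g = (ContinuousLinearMap.fst ℝ ℝ R6).smulRight u +
      ((LinearMap.ker (L : H →ₗ[ℝ] ℝ)).subtypeL.comp (e.symm : R6 →L[ℝ] _)).comp
        (ContinuousLinearMap.snd ℝ ℝ R6) := ⟨_, rfl⟩
  have hgv : ∀ p : ℝ × R6, g p = p.1 • u + (e.symm p.2 : H) := by
    intro p
    rw [hg]
    rfl
  refine ⟨π, ContinuousLinearEquiv.equivOfInverse (L.prod π) g ?_ ?_, rfl⟩
  · intro v
    rw [hgv]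
    show L v • u + (e.symm (π v) : H) = v
    rw [hπv, e.symm_apply_apply]
    show L v • u + (v - L v • u) = v
    abel
  · intro p
    have hk : L (e.symm p.2 : H) = 0 := (e.symm p.2).2
    have h1 : L (g p) = p.1 := by
      rw [hgv, map_add, map_smul, hu, hk, smul_eq_mul, mul_one, add_zero]
    show (L (g p), π (g p)) = p
    refine Prod.ext h1 ?_
    show π (g p) = p.2
    rw [hπv]
    have h2 : (⟨g p - L (g p) • u, hP (g p)⟩ : LinearMap.ker (L : H →ₗ[ℝ] ℝ)) = e.symm p.2 := by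
      refine Subtype.ext ?_
      show g p - L (g p) • u = (e.symm p.2 : H)
      rw [h1, hgv]
      abel
    rw [h2, e.apply_symm_apply]

theorem level_mfd [FiniteDimensional ℝ H] (hH : Module.finrank ℝ H = 7) {X : Set E}
    (F : E → ℝ)
    (hch : ∀ z ∈ X, F z = 0 → ∃ (U : Set E) (V : Set H) (ρ : E → H) (ψ : H → E), z ∈ U ∧
      IsChart X U V ρ ψ ∧ ContDiffOn ℝ ∞ (fun v => F (ψ v)) V ∧
      fderiv ℝ (fun v => F (ψ v)) (ρ z) ≠ 0) :
    IsMfd R6 {z | z ∈ X ∧ F z = 0} := by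
  haveI : CompleteSpace H := FiniteDimensional.complete ℝ H
  rintro z0 ⟨hz0X, hz0F⟩
  obtain ⟨U, V, ρ, ψ, hz0U, hc, hφ, hL⟩ := hch z0 hz0X hz0F
  obtain ⟨φ, hφdef⟩ : ∃ φ : H → ℝ, φ = fun v => F (ψ v) := ⟨_, rfl⟩
  rw [← hφdef] at hφ hL
  obtain ⟨v0, hv0⟩ : ∃ v0, v0 = ρ z0 := ⟨_, rfl⟩
  rw [← hv0] at hL
  have hv0V : v0 ∈ V := by
    rw [hv0]
    exact hc.maps_ρ z0 ⟨hz0X, hz0U⟩
  obtain ⟨π, T, hT⟩ := CG_equiv hH (fderiv ℝ φ v0) hL
  obtain ⟨Φ, hΦ⟩ : ∃ Φ : H → ℝ × R6, Φ = fun v => (φ v, π v) := ⟨_, rfl⟩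
  have hΦs : ContDiffOn ℝ ∞ Φ V := by
    rw [hΦ]
    exact hφ.prodMk π.contDiff.contDiffOn
  have hΦa : ∀ v ∈ V, ContDiffAt ℝ ∞ Φ v := fun v hv => hΦs.contDiffAt (hc.isOpen_V.mem_nhds hv)
  have hφa : DifferentiableAt ℝ φ v0 :=
    (hφ.contDiffAt (hc.isOpen_V.mem_nhds hv0V)).differentiableAt (by simp)
  have hder : HasFDerivAt Φ (T : H →L[ℝ] ℝ × R6) v0 := by
    rw [hT, hΦ]
    exact hφa.hasFDerivAt.prodMk π.hasFDerivAt
  obtain ⟨Θ, hΘ⟩ : ∃ Θ : OpenPartialHomeomorph H (ℝ × R6), Θ =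
    (hΦa v0 hv0V).toOpenPartialHomeomorph Φ hder (by simp) := ⟨_, rfl⟩
  have hΘc : ∀ v, Θ v = Φ v := by
    intro v
    rw [hΘ]
    rfl
  have hΘs : v0 ∈ Θ.source := by
    rw [hΘ]
    exact ContDiffAt.mem_toOpenPartialHomeomorph_source (hΦa v0 hv0V) hder (by simp)
  have hfc : ContinuousOn (fun v => fderiv ℝ Φ v) V :=
    hΦs.continuousOn_fderiv_of_isOpen hc.isOpen_V (by simp)
  obtain ⟨S, hS⟩ : ∃ S : Set H, S = (V ∩ (fun v => fderiv ℝ Φ v) ⁻¹'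
    range ((↑) : (H ≃L[ℝ] ℝ × R6) → (H →L[ℝ] ℝ × R6))) ∩ Θ.source := ⟨_, rfl⟩
  have hSo : IsOpen S := by
    rw [hS]
    exact (hfc.isOpen_inter_preimage hc.isOpen_V ContinuousLinearEquiv.isOpen).inter Θ.open_source
  have hSV : ∀ v ∈ S, v ∈ V := by
    intro v hv
    rw [hS] at hv
    exact hv.1.1
  have hSs : ∀ v ∈ S, v ∈ Θ.source := by
    intro v hv
    rw [hS] at hv
    exact hv.2
  have hv0S : v0 ∈ S := by
    rw [hS]
    refine ⟨⟨hv0V, ?_⟩, hΘs⟩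
    exact ⟨T, hder.fderiv.symm⟩
  have hsymm : ∀ p ∈ Θ.target, Θ.symm p ∈ S → ContDiffAt ℝ ∞ Θ.symm p := by
    intro p hp hpS
    have hpV := hSV _ hpS
    rw [hS] at hpS
    obtain ⟨T', hT'⟩ := hpS.1.2
    have hfun : (Θ : H → ℝ × R6) = Φ := funext hΘc
    refine Θ.contDiffAt_symm (f₀' := T') hp ?_ ?_
    · rw [hfun, hT']
      exact ((hΦa _ hpV).differentiableAt (by simp)).hasFDerivAt
    · rw [hfun]
      exact hΦa _ hpV
  have h0c : Continuous (fun x : R6 => ((0 : ℝ), x)) := by fun_prop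
  have h0s : ContDiff ℝ ∞ (fun x : R6 => ((0 : ℝ), x)) := by fun_prop
  obtain ⟨V', hV'⟩ : ∃ V' : Set R6, V' = (fun x : R6 => ((0 : ℝ), x)) ⁻¹'
    (Θ.target ∩ Θ.symm ⁻¹' S) := ⟨_, rfl⟩
  have hV'm : ∀ x, x ∈ V' ↔ ((0 : ℝ), x) ∈ Θ.target ∧ Θ.symm ((0 : ℝ), x) ∈ S := by
    intro x
    rw [hV']
    exact Iff.rfl
  have hkey : ∀ z ∈ X, F z = 0 → z ∈ U → ρ z ∈ S →
      ((0 : ℝ), π (ρ z)) ∈ Θ.target ∧ Θ.symm ((0 : ℝ), π (ρ z)) = ρ z := by
    intro z hzX hzF hzU hzS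
    have h1 : ((0 : ℝ), π (ρ z)) = Θ (ρ z) := by
      rw [hΘc, hΦ]
      show ((0 : ℝ), π (ρ z)) = (φ (ρ z), π (ρ z))
      rw [hφdef]
      show ((0 : ℝ), π (ρ z)) = (F (ψ (ρ z)), π (ρ z))
      rw [hc.left_inv z ⟨hzX, hzU⟩, hzF]
    rw [h1]
    exact ⟨Θ.map_source (hSs _ hzS), Θ.left_inv (hSs _ hzS)⟩
  have hval : ∀ x ∈ V', Φ (Θ.symm ((0 : ℝ), x)) = ((0 : ℝ), x) := by
    intro x hx
    rw [← hΘc]
    exact Θ.right_inv ((hV'm x).1 hx).1
  refine ⟨U ∩ ρ ⁻¹' S, V', fun z => π (ρ z), fun x => ψ (Θ.symm ((0 : ℝ), x)), ⟨hz0U, ?_⟩, ?_⟩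
  · show ρ z0 ∈ S
    rw [← hv0]
    exact hv0S
  · constructor
    · exact hc.smooth_ρ.continuousOn.isOpen_inter_preimage hc.isOpen_U hSo
    · rw [hV']
      exact (Θ.symm.isOpen_inter_preimage hSo).preimage h0c
    · exact π.contDiff.comp_contDiffOn (hc.smooth_ρ.mono inter_subset_left)
    · intro x hx
      have h1 := (hV'm x).1 hx
      have h2 : ContDiffAt ℝ ∞ (fun x : R6 => Θ.symm ((0 : ℝ), x)) x :=
        (hsymm _ h1.1 h1.2).comp x h0s.contDiffAt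
      have h3 : ContDiffAt ℝ ∞ ψ (Θ.symm ((0 : ℝ), x)) :=
        hc.smooth_ψ.contDiffAt (hc.isOpen_V.mem_nhds (hSV _ h1.2))
      exact (h3.comp x h2).contDiffWithinAt
    · rintro z ⟨⟨hzX, hzF⟩, hzU, hzS⟩
      obtain ⟨h1, h2⟩ := hkey z hzX hzF hzU hzS
      rw [hV'm]
      refine ⟨h1, ?_⟩
      rw [h2]
      exact hzS
    · intro x hx
      have h1 := (hV'm x).1 hx
      have h2 := hc.maps_ψ _ (hSV _ h1.2)
      refine ⟨⟨h2.1, ?_⟩, h2.2, ?_⟩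
      · have h3 := congrArg Prod.fst (hval x hx)
        rw [hΦ, hφdef] at h3
        exact h3
      · show ρ (ψ (Θ.symm ((0 : ℝ), x))) ∈ S
        rw [hc.right_inv _ (hSV _ h1.2)]
        exact h1.2
    · rintro z ⟨⟨hzX, hzF⟩, hzU, hzS⟩
      obtain ⟨_, h2⟩ := hkey z hzX hzF hzU hzS
      show ψ (Θ.symm ((0 : ℝ), π (ρ z))) = z
      rw [h2]
      exact hc.left_inv z ⟨hzX, hzU⟩
    · intro x hx
      have h1 := (hV'm x).1 hx
      show π (ρ (ψ (Θ.symm ((0 : ℝ), x)))) = x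
      rw [hc.right_inv _ (hSV _ h1.2)]
      have h3 := congrArg Prod.snd (hval x hx)
      rw [hΦ] at h3
      exact h3

/-- Images of manifolds under ambient diffeomorphisms. -/
theorem IsMfd.image {Y X : Set E} {D D' : E → E} (hD : ContDiff ℝ ∞ D) (hD' : ContDiff ℝ ∞ D')
    (h1 : ∀ z, D' (D z) = z) (h2 : ∀ z, D (D' z) = z) (hXY : ∀ z, z ∈ X ↔ D z ∈ Y)
    (hX : IsMfd H X) : IsMfd H Y := by
  intro y hy
  have hz : D' y ∈ X := by
    rw [hXY, h2]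
    exact hy
  obtain ⟨U, V, ρ, ψ, hzU, hc⟩ := hX (D' y) hz
  have hYX : ∀ w ∈ Y, D' w ∈ X := by
    intro w hw
    rw [hXY, h2]
    exact hw
  refine ⟨D' ⁻¹' U, V, fun w => ρ (D' w), fun v => D (ψ v), hzU, ?_⟩
  constructor
  · exact hc.isOpen_U.preimage hD'.continuous
  · exact hc.isOpen_V
  · exact hc.smooth_ρ.comp hD'.contDiffOn (fun _ hw => hw)
  · exact hD.comp_contDiffOn hc.smooth_ψ
  · rintro w ⟨hwY, hwU⟩
    exact hc.maps_ρ _ ⟨hYX w hwY, hwU⟩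
  · intro v hv
    have h3 := hc.maps_ψ v hv
    refine ⟨(hXY _).1 h3.1, ?_⟩
    show D' (D (ψ v)) ∈ U
    rw [h1]
    exact h3.2
  · rintro w ⟨hwY, hwU⟩
    show D (ψ (ρ (D' w))) = w
    rw [hc.left_inv _ ⟨hYX w hwY, hwU⟩, h2]
  · intro v hv
    show ρ (D' (D (ψ v))) = v
    rw [h1]
    exact hc.right_inv v hv

end Pool.Agent.H34.SY
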