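import Pool.Agent.H34.SY.Defs

/-!
# Row CH: the complement of a closed ball is connected

`M` connected, `i` a chart with image the ball of radius 2 of `R6`.  Then `M ∖ i (closedBall 0 ½)` is
preconnected.  Proof: use `isPreconnected_iff_subset_of_disjoint` or the definition: let `u`, `v` be open
sets covering `M0 = M ∖ i (closedBall)`, disjoint on `M0`; the annulus `i {½ < |v| < 2}` is preconnected
(image of an annulus of `R6`, dimension > 1: e.g. image of `sphere × Ioo` under `(x, r) ↦ r x`, the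
sphere is connected by `isConnected_sphere`), so it lies in `u` (say).  Put `u' = (u ∖ K) ∪ UM` and
`v' = v ∖ (image of the closed ball of radius 1, compact, hence closed) `, ... so that `u'`, `v'` are open, cover
`M` and are disjoint on `M`; `M` is connected, hence `v ∩ M0` or (since `UM ∩ M ≠ ∅`) ... is empty.
In detail: `v ∩ M0` does not meet `i (ball 2)`; the closed ball image `K1 = i (closedBall 0 1)` is
compact.  `M = ((u ∖ K) ∪ UM) ∪ (v ∖ K1)`; a point of `M` in both: if in `UM` it is `i x`, `|x| < 2`, in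
`v ∖ K1` so `|x| > 1`, it is in the annulus and in `v`: contradiction; if in `u ∖ K`: in `M0 ∩ u ∩ v`.
-/

open Set Topology
open scoped ContDiff

namespace Pool.Agent.H34.SY

variable {E : Type} [NormedAddCommGroup E] [NormedSpace ℝ E]

theorem CH_rank (n : ℕ) (hn : 1 < n) : 1 < Module.rank ℝ (EuclideanSpace ℝ (Fin n)) := by
  rw [← Module.finrank_eq_rank, finrank_euclideanSpace_fin]
  exact_mod_cast hn

theorem isPreconnected_annulus :
    IsPreconnected {v : R6 | 1 / 2 < ‖v‖ ∧ ‖v‖ < 2} := by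
  have h1 : IsPreconnected (Metric.sphere (0 : R6) 1) :=
    isPreconnected_sphere (CH_rank 6 (by norm_num)) 0 1
  have h2 : IsPreconnected (Set.Ioo (1 / 2 : ℝ) 2) := isPreconnected_Ioo
  have h3 := (h1.prod h2).image (fun q : R6 × ℝ => q.2 • q.1)
    (Continuous.continuousOn (by fun_prop))
  have h4 : (fun q : R6 × ℝ => q.2 • q.1) '' (Metric.sphere (0 : R6) 1 ×ˢ Set.Ioo (1 / 2 : ℝ) 2) =
      {v : R6 | 1 / 2 < ‖v‖ ∧ ‖v‖ < 2} := by
    ext v
    constructor
    · rintro ⟨⟨x, r⟩, ⟨hx, hr1, hr2⟩, rfl⟩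
      have hx' : ‖x‖ = 1 := mem_sphere_zero_iff_norm.1 hx
      change 1 / 2 < r at hr1
      change r < 2 at hr2
      have hn : ‖r • x‖ = r := by
        rw [norm_smul, hx', mul_one, Real.norm_eq_abs, abs_of_pos (by linarith)]
      show 1 / 2 < ‖r • x‖ ∧ ‖r • x‖ < 2
      rw [hn]
      exact ⟨hr1, hr2⟩
    · rintro ⟨hv1, hv2⟩
      have hv0 : ‖v‖ ≠ 0 := by
        intro h
        rw [h] at hv1
        linarith
      refine ⟨(‖v‖⁻¹ • v, ‖v‖), ⟨?_, hv1, hv2⟩, ?_⟩
      · show ‖v‖⁻¹ • v ∈ Metric.sphere (0 : R6) 1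
        rw [mem_sphere_zero_iff_norm, norm_smul, norm_inv, norm_norm, inv_mul_cancel₀ hv0]
      · show ‖v‖ • ‖v‖⁻¹ • v = v
        rw [smul_smul, mul_inv_cancel₀ hv0, one_smul]
  rw [h4] at h3
  exact h3

theorem CH_aux {M UM : Set E} {ρM : E → R6} {i : R6 → E} (hM : IsConnected M)
    (hc : IsChart M UM (Metric.ball (0 : R6) 2) ρM i) (u v : Set E) (hu : IsOpen u)
    (hv : IsOpen v)
    (hcov : M \ i '' Metric.closedBall (0 : R6) (1 / 2) ⊆ u ∪ v)
    (hdis : (M \ i '' Metric.closedBall (0 : R6) (1 / 2)) ∩ (u ∩ v) = ∅)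
    (hA : i '' {v : R6 | 1 / 2 < ‖v‖ ∧ ‖v‖ < 2} ⊆ u) :
    M \ i '' Metric.closedBall (0 : R6) (1 / 2) ⊆ u := by
  have hcont : ContinuousOn i (Metric.ball (0 : R6) 2) := hc.smooth_ψ.continuousOn
  have hK : IsClosed (i '' Metric.closedBall (0 : R6) (1 / 2)) :=
    ((isCompact_closedBall (0 : R6) (1 / 2)).image_of_continuousOn (hcont.mono
      (Metric.closedBall_subset_ball (by norm_num)))).isClosed
  have hK1 : IsClosed (i '' Metric.closedBall (0 : R6) 1) :=
    ((isCompact_closedBall (0 : R6) 1).image_of_continuousOn (hcont.mono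
      (Metric.closedBall_subset_ball (by norm_num)))).isClosed
  have hsub : i '' Metric.closedBall (0 : R6) (1 / 2) ⊆ i '' Metric.closedBall (0 : R6) 1 :=
    Set.image_mono (Metric.closedBall_subset_closedBall (by norm_num))
  have hKU1 : i '' Metric.closedBall (0 : R6) 1 ⊆ UM := by
    rintro _ ⟨x, hx, rfl⟩
    exact (hc.maps_ψ x (Metric.closedBall_subset_ball (by norm_num) hx)).2
  have hUM : ∀ z ∈ M, z ∈ UM → ∃ x : R6, ‖x‖ < 2 ∧ i x = z := by
    intro z hz hzU
    refine ⟨ρM z, ?_, hc.left_inv z ⟨hz, hzU⟩⟩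
    have := hc.maps_ρ z ⟨hz, hzU⟩
    rwa [mem_ball_zero_iff] at this
  have hdis' : ∀ z, z ∈ M → z ∉ i '' Metric.closedBall (0 : R6) (1 / 2) → z ∈ u → z ∈ v → False := by
    intro z h1 h2 h3 h4
    have : z ∈ (M \ i '' Metric.closedBall (0 : R6) (1 / 2)) ∩ (u ∩ v) := ⟨⟨h1, h2⟩, h3, h4⟩
    rw [hdis] at this
    exact this
  have hpre := isPreconnected_iff_subset_of_disjoint.1 hM.isPreconnected
    ((u \ i '' Metric.closedBall (0 : R6) (1 / 2)) ∪ UM) (v \ i '' Metric.closedBall (0 : R6) 1)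
    ((hu.sdiff hK).union hc.isOpen_U) (hv.sdiff hK1) ?_ ?_
  · rcases hpre with hpre | hpre
    · rintro z ⟨hz, hzK⟩
      rcases hpre hz with h | h
      · exact h.1
      · obtain ⟨x, hx, rfl⟩ := hUM z hz h
        refine hA ⟨x, ⟨?_, hx⟩, rfl⟩
        by_contra hcon
        push Not at hcon
        exact hzK ⟨x, mem_closedBall_zero_iff.2 hcon, rfl⟩
    · exfalso
      have h0 : (0 : R6) ∈ Metric.ball (0 : R6) 2 := Metric.mem_ball_self (by norm_num)
      have h1 := hpre (hc.maps_ψ 0 h0).1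
      exact h1.2 ⟨0, Metric.mem_closedBall_self (by norm_num), rfl⟩
  · intro z hz
    by_cases hzU : z ∈ UM
    · exact Or.inl (Or.inr hzU)
    · have hzK1 : z ∉ i '' Metric.closedBall (0 : R6) 1 := fun h => hzU (hKU1 h)
      have hzK : z ∉ i '' Metric.closedBall (0 : R6) (1 / 2) := fun h => hzK1 (hsub h)
      rcases hcov ⟨hz, hzK⟩ with h | h
      · exact Or.inl (Or.inl ⟨h, hzK⟩)
      · exact Or.inr ⟨h, hzK1⟩
  · rw [Set.eq_empty_iff_forall_notMem]
    rintro z ⟨hz, h1, h2, h3⟩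
    have hzK : z ∉ i '' Metric.closedBall (0 : R6) (1 / 2) := fun h => h3 (hsub h)
    rcases h1 with h1 | h1
    · exact hdis' z hz hzK h1.1 h2
    · obtain ⟨x, hx, rfl⟩ := hUM z hz h1
      refine hdis' _ hz hzK (hA ⟨x, ⟨?_, hx⟩, rfl⟩) h2
      by_contra hcon
      push Not at hcon
      exact hzK ⟨x, mem_closedBall_zero_iff.2 hcon, rfl⟩

theorem isPreconnected_compl {M UM : Set E} {ρM : E → R6} {i : R6 → E} (hM : IsConnected M)
    (hc : IsChart M UM (Metric.ball (0 : R6) 2) ρM i) :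
    IsPreconnected (M \ i '' Metric.closedBall (0 : R6) (1 / 2)) := by
  rw [isPreconnected_iff_subset_of_disjoint]
  intro u v hu hv hcov hdis
  have hcont : ContinuousOn i (Metric.ball (0 : R6) 2) := hc.smooth_ψ.continuousOn
  have hsubA : {v : R6 | 1 / 2 < ‖v‖ ∧ ‖v‖ < 2} ⊆ Metric.ball (0 : R6) 2 := by
    intro x hx
    exact mem_ball_zero_iff.2 hx.2
  have hApre : IsPreconnected (i '' {v : R6 | 1 / 2 < ‖v‖ ∧ ‖v‖ < 2}) :=
    isPreconnected_annulus.image i (hcont.mono hsubA)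
  have hAM : i '' {v : R6 | 1 / 2 < ‖v‖ ∧ ‖v‖ < 2} ⊆
      M \ i '' Metric.closedBall (0 : R6) (1 / 2) := by
    rintro _ ⟨x, hx, rfl⟩
    refine ⟨(hc.maps_ψ x (hsubA hx)).1, ?_⟩
    rintro ⟨y, hy, hxy⟩
    have hyb : y ∈ Metric.ball (0 : R6) 2 := Metric.closedBall_subset_ball (by norm_num) hy
    have h1 : y = x := by
      rw [← hc.right_inv y hyb, ← hc.right_inv x (hsubA hx), hxy]
    rw [h1] at hy
    have h2 := mem_closedBall_zero_iff.1 hy
    have h3 := hx.1
    linarith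
  rcases isPreconnected_iff_subset_of_disjoint.1 hApre u v hu hv (hAM.trans hcov) (by
    rw [Set.eq_empty_iff_forall_notMem]
    rintro z ⟨hz, hz2⟩
    have : z ∈ (M \ i '' Metric.closedBall (0 : R6) (1 / 2)) ∩ (u ∩ v) := ⟨hAM hz, hz2⟩
    rw [hdis] at this
    exact this) with h | h
  · exact Or.inl (CH_aux hM hc u v hu hv hcov hdis h)
  · right
    refine CH_aux hM hc v u hv hu ?_ ?_ h
    · rw [Set.union_comm]
      exact hcov
    · rw [Set.inter_comm v u]
      exact hdis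

/-- `S³ × S³` is connected. -/
theorem isConnected_S3S3 : IsConnected S3S3 := by
  have h1 : IsConnected (Metric.sphere (0 : EuclideanSpace ℝ (Fin 4)) 1) :=
    isConnected_sphere (CH_rank 4 (by norm_num)) 0 (by norm_num)
  have h2 : S3S3 = Metric.sphere (0 : EuclideanSpace ℝ (Fin 4)) 1 ×ˢ
      Metric.sphere (0 : EuclideanSpace ℝ (Fin 4)) 1 := by
    ext p
    show (‖p.1‖ = 1 ∧ ‖p.2‖ = 1) ↔ _
    rw [Set.mem_prod, mem_sphere_zero_iff_norm, mem_sphere_zero_iff_norm]
  rw [h2]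
  exact h1.prod h1

end Pool.Agent.H34.SY
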