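import Mathlib

/-!
# MP_46177c : symplectic forms on six-dimensional connected sums -- definitions

Smooth closed manifolds are embedded submanifolds of a finite-dimensional real normed space
(every closed manifold is one, by Whitney).
-/

open Set Topology
open scoped ContDiff

namespace Pool.Agent.H34.SY

/-- The model space of six-dimensional manifolds, with its Euclidean norm. -/
abbrev R6 : Type := EuclideanSpace ℝ (Fin 6)

section Defs

variable {E : Type} [NormedAddCommGroup E] [NormedSpace ℝ E]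
variable {E' : Type} [NormedAddCommGroup E'] [NormedSpace ℝ E']
variable {E'' : Type} [NormedAddCommGroup E''] [NormedSpace ℝ E'']
variable {H : Type} [NormedAddCommGroup H] [NormedSpace ℝ H]

/-- `ρ` and `ψ` form a smooth chart of the subset `X` of `E`: the open part `X ∩ U` of `X` and
the open subset `V` of the model space `H` are identified by the smooth maps `ρ` (defined on the
open subset `U` of the ambient space) and `ψ` (defined on `V`), inverse to each other. -/
structure IsChart (X U : Set E) (V : Set H) (ρ : E → H) (ψ : H → E) : Prop where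
  isOpen_U : IsOpen U
  isOpen_V : IsOpen V
  smooth_ρ : ContDiffOn ℝ ∞ ρ U
  smooth_ψ : ContDiffOn ℝ ∞ ψ V
  maps_ρ : ∀ z ∈ X ∩ U, ρ z ∈ V
  maps_ψ : ∀ v ∈ V, ψ v ∈ X ∩ U
  left_inv : ∀ z ∈ X ∩ U, ψ (ρ z) = z
  right_inv : ∀ v ∈ V, ρ (ψ v) = v

/-- The subset `X` of `E` is an embedded smooth submanifold modelled on `H`. -/
def IsMfd (H : Type) [NormedAddCommGroup H] [NormedSpace ℝ H] (X : Set E) : Prop :=
  ∀ z ∈ X, ∃ (U : Set E) (V : Set H) (ρ : E → H) (ψ : H → E), z ∈ U ∧ IsChart X U V ρ ψ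

/-- The subset `X` of `E` is a closed (compact, without boundary) connected smooth manifold of
dimension six. -/
def IsClosed6Mfd (X : Set E) : Prop :=
  IsMfd R6 X ∧ IsCompact X ∧ IsConnected X

/-- `a` is a tangent vector of `X` at the point `z`. -/
def IsTangent (X : Set E) (z a : E) : Prop :=
  ∃ γ : ℝ → E, γ 0 = z ∧ (∀ᶠ t in 𝓝 (0 : ℝ), γ t ∈ X) ∧ ContDiffAt ℝ ∞ γ 0 ∧ HasDerivAt γ a 0

/-- The differential of the map `f` on `X` at `z` sends the tangent vector `a` to `b`. -/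
def MapsTangent (X : Set E) (f : E → E') (z a : E) (b : E') : Prop :=
  ∃ γ : ℝ → E, γ 0 = z ∧ (∀ᶠ t in 𝓝 (0 : ℝ), γ t ∈ X) ∧ ContDiffAt ℝ ∞ γ 0 ∧
    HasDerivAt γ a 0 ∧ HasDerivAt (fun t => f (γ t)) b 0

/-- `f` is smooth on the subset `X`: near every point of `X` it is the restriction of a smooth map
of the ambient space. -/
def SmoothOn (X : Set E) (f : E → E') : Prop :=
  ∀ z ∈ X, ∃ U : Set E, IsOpen U ∧ z ∈ U ∧ ∃ F : E → E', ContDiffOn ℝ ∞ F U ∧
    ∀ y ∈ X ∩ U, F y = f y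

/-- `f` is a diffeomorphism of `X` onto `Y`. -/
def IsDiffeo (X : Set E) (Y : Set E') (f : E → E') : Prop :=
  SmoothOn X f ∧ (∀ z ∈ X, f z ∈ Y) ∧
    ∃ g : E' → E, SmoothOn Y g ∧ (∀ y ∈ Y, g y ∈ X) ∧ (∀ z ∈ X, g (f z) = z) ∧
      ∀ y ∈ Y, f (g y) = y

/-- Fields of bilinear forms on `E`. -/
abbrev Form (E : Type) [NormedAddCommGroup E] [NormedSpace ℝ E] : Type :=
  E → E →L[ℝ] E →L[ℝ] ℝ

/-- The exterior derivative of the 2-form `Om` at `z`, evaluated on `a`, `b`, `c`. -/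
noncomputable def extD (Om : Form E) (z a b c : E) : ℝ :=
  fderiv ℝ Om z a b c + fderiv ℝ Om z b c a + fderiv ℝ Om z c a b

/-- `om` restricts to a smooth closed 2-form on `X`: near every point of `X` there is a smooth
closed 2-form `Om` of the ambient space with the same values on the tangent vectors of `X`. -/
def IsClosedForm (X : Set E) (om : Form E) : Prop :=
  ∀ z ∈ X, ∃ U : Set E, IsOpen U ∧ z ∈ U ∧ ∃ Om : Form E, ContDiffOn ℝ ∞ Om U ∧
    (∀ y ∈ U, ∀ a, Om y a a = 0) ∧ (∀ y ∈ U, ∀ a b c, extD Om y a b c = 0) ∧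
    ∀ y ∈ X ∩ U, ∀ a b, IsTangent X y a → IsTangent X y b → om y a b = Om y a b

/-- A positive multiple of the value of the wedge cube of the alternating form `B` on six vectors
(the alternating sum over all permutations of the arguments). -/
noncomputable def cube (B : E →L[ℝ] E →L[ℝ] ℝ) (a : Fin 6 → E) : ℝ :=
  ∑ σ : Equiv.Perm (Fin 6), ((Equiv.Perm.sign σ : ℤ) : ℝ) *
    (B (a (σ 0)) (a (σ 1)) * B (a (σ 2)) (a (σ 3)) * B (a (σ 4)) (a (σ 5)))

/-- `om` is a symplectic form on the 6-manifold `X`: closed, and its cube vanishes nowhere. -/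
def IsSymplectic (X : Set E) (om : Form E) : Prop :=
  IsClosedForm X om ∧ ∀ z ∈ X, ∃ a : Fin 6 → E, (∀ k, IsTangent X z (a k)) ∧ cube (om z) a ≠ 0

/-- The oriented connected sum.  `(M, om)` is a 6-manifold with the orientation of the cube of
`om`, `N` is a 6-manifold, `(M', om')` a 6-manifold with the orientation of the cube of `om'`.
`i` and `j` are charts of `M` and `N` with image the ball of radius 2; `M'` is the union of a copy
`f (M ∖ i (closed half ball))` and of a copy `g (N ∖ j (closed half ball))`, both open, whose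
intersection is the annulus, where `f (i v) = g (j (v / ‖v‖ ^ 2))`; and `f` preserves the
orientations. -/
def IsConnSum (M : Set E) (om : Form E) (N : Set E') (M' : Set E'') (om' : Form E'') : Prop :=
  ∃ (UM : Set E) (ρM : E → R6) (i : R6 → E) (UN : Set E') (ρN : E' → R6) (j : R6 → E')
    (f : E → E'') (g : E' → E'') (A B : Set E''),
    IsChart M UM (Metric.ball (0 : R6) 2) ρM i ∧
    IsChart N UN (Metric.ball (0 : R6) 2) ρN j ∧
    IsOpen A ∧ IsOpen B ∧ M' ⊆ A ∪ B ∧
    IsDiffeo (M \ i '' Metric.closedBall (0 : R6) (1 / 2)) (M' ∩ A) f ∧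
    IsDiffeo (N \ j '' Metric.closedBall (0 : R6) (1 / 2)) (M' ∩ B) g ∧
    M' ∩ A ∩ B = f '' (i '' {v : R6 | 1 / 2 < ‖v‖ ∧ ‖v‖ < 2}) ∧
    (∀ v : R6, 1 / 2 < ‖v‖ → ‖v‖ < 2 → f (i v) = g (j ((‖v‖ ^ 2)⁻¹ • v))) ∧
    ∀ z ∈ M \ i '' Metric.closedBall (0 : R6) (1 / 2), ∀ (a : Fin 6 → E) (b : Fin 6 → E''),
      (∀ k, MapsTangent M f z (a k) (b k)) → 0 < cube (om z) a → 0 < cube (om' (f z)) b

end Defs

/-- `S³ × S³` in `ℝ⁴ × ℝ⁴`. -/
def S3S3 : Set (EuclideanSpace ℝ (Fin 4) × EuclideanSpace ℝ (Fin 4)) :=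
  {p | ‖p.1‖ = 1 ∧ ‖p.2‖ = 1}

end Pool.Agent.H34.SY
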