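import Pool.Agent.H34.SY.Spec
import Pool.Agent.H34.SY.CA
import Pool.Agent.H34.SY.CD
import Pool.Agent.H34.SY.CF
import Pool.Agent.H34.SY.CH

/-!
# Row FA: transfer of the connected sum to `M'`, orientation, connectedness

`connected_of_topConnSum`: `Mf ⊆ A ∪ B`; `Mf ∩ A` is the image of the preconnected set `M ∖ i(closedBall ½)` (row CH) under `f`,
continuous on it (`SmoothOn` implies continuous: near every point it is the restriction of a smooth map); the same for `Mf ∩ B`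
and `S3S3 ∖ j(closedBall ½)` (`isConnected_S3S3`, `isPreconnected_compl`); the two meet in the image of the annulus, nonempty.

`connSum_transfer`: data for `M'`: `i, j`, `f' = D ∘ f`, `g' = D ∘ g`, `A' = D' ⁻¹' A`, `B' = D' ⁻¹' B`.
Orientation: `orientation_connected` (row CF) with `O` = complement of `i '' closedBall 0 ½` (compact, since `i` is continuous on
the ball, hence closed; its complement is open and `M ∩ O = M ∖ ..`).  At `z0`: `-1 < eS z0`, so `z0` is not in the image of `i`; on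
`M ∩ {-1 < eS}` one has `D (f z) = D z = z`, so `MapsTangent M f' z0 a a` for every tangent vector `a` (`mapsTangent_iff` with
`F = id`).  There is `a` with `cube (om z0) a ≠ 0`; after replacing `a 0` by `-a 0` if necessary (`cube_matrix` with a diagonal
matrix, or directly) it is positive; `cube (om' z0) a = cube (om z0) a` because the two forms agree on tangent vectors of `M` at `z0`.
-/

open Set Topology
open scoped ContDiff ComplexConjugate

namespace Pool.Agent.H34.SY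

theorem FA_cont {E E' : Type} [NormedAddCommGroup E] [NormedSpace ℝ E] [NormedAddCommGroup E']
    [NormedSpace ℝ E'] {X : Set E} {f : E → E'} (h : SmoothOn X f) : ContinuousOn f X := by
  intro z hz
  obtain ⟨U, hU, hzU, F, hF, hFf⟩ := h z hz
  have h1 : ContinuousAt F z := (hF.continuousOn).continuousAt (hU.mem_nhds hzU)
  have h2 : F z = f z := hFf z ⟨hz, hzU⟩
  have h3 : F =ᶠ[𝓝[X] z] f := by
    have h4 : ∀ᶠ y in 𝓝[X] z, y ∈ X ∩ U :=
      Filter.inter_mem self_mem_nhdsWithin (mem_nhdsWithin_of_mem_nhds (hU.mem_nhds hzU))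
    exact h4.mono (fun y hy => hFf y hy)
  exact (h1.continuousWithinAt.congr_of_eventuallyEq h3.symm h2.symm)

theorem FA_image {E E' : Type} [NormedAddCommGroup E] [NormedSpace ℝ E] [NormedAddCommGroup E']
    [NormedSpace ℝ E'] {X : Set E} {Y : Set E'} {f : E → E'} (h : IsDiffeo X Y f) :
    Y = f '' X := by
  obtain ⟨-, h1, g, -, h2, -, h3⟩ := h
  ext y
  constructor
  · intro hy
    exact ⟨g y, h2 y hy, h3 y hy⟩
  · rintro ⟨x, hx, rfl⟩
    exact h1 x hx

theorem FA_pt : ∃ v : R6, 1 / 2 < ‖v‖ ∧ ‖v‖ < 2 := by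
  refine ⟨EuclideanSpace.single 0 1, ?_⟩
  rw [EuclideanSpace.norm_single, norm_one]
  norm_num

theorem FA_diffeo {E : Type} [NormedAddCommGroup E] [NormedSpace ℝ E] {X : Set E}
    {Mf M' A : Set EA} {f : E → EA} {D D' : EA → EA} (hD : ContDiff ℝ ∞ D) (hD' : ContDiff ℝ ∞ D')
    (h1 : ∀ z, D' (D z) = z) (h2 : ∀ z, D (D' z) = z) (h3 : ∀ z, z ∈ Mf ↔ D z ∈ M')
    (h : IsDiffeo X (Mf ∩ A) f) : IsDiffeo X (M' ∩ D' ⁻¹' A) (fun z => D (f z)) := by
  obtain ⟨hs, hm, g, hg, hgm, hgf, hfg⟩ := h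
  have hback : ∀ y ∈ M' ∩ D' ⁻¹' A, D' y ∈ Mf ∩ A := by
    rintro y ⟨hy, hyA⟩
    refine ⟨(h3 _).2 ?_, hyA⟩
    rw [h2]
    exact hy
  refine ⟨?_, ?_, fun y => g (D' y), ?_, ?_, ?_, ?_⟩
  · intro z hz
    obtain ⟨U, hU, hzU, F, hF, hFf⟩ := hs z hz
    refine ⟨U, hU, hzU, fun y => D (F y), hD.comp_contDiffOn hF, fun y hy => ?_⟩
    show D (F y) = D (f y)
    rw [hFf y hy]
  · intro z hz
    have h4 := hm z hz
    refine ⟨(h3 _).1 h4.1, ?_⟩
    show D' (D (f z)) ∈ A
    rw [h1]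
    exact h4.2
  · intro y hy
    obtain ⟨U, hU, hyU, F, hF, hFg⟩ := hg (D' y) (hback y hy)
    refine ⟨D' ⁻¹' U, hU.preimage hD'.continuous, hyU, fun x => F (D' x),
      hF.comp hD'.contDiffOn (fun x hx => hx), fun x hx => ?_⟩
    exact hFg (D' x) ⟨hback x hx.1, hx.2⟩
  · intro y hy
    exact hgm _ (hback y hy)
  · intro z hz
    show g (D' (D (f z))) = z
    rw [h1]
    exact hgf z hz
  · intro y hy
    show D (f (g (D' y))) = y
    rw [hfg _ (hback y hy), h2]

theorem FA_diag {E : Type} [NormedAddCommGroup E] [NormedSpace ℝ E] (B : E →L[ℝ] E →L[ℝ] ℝ)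
    (e : Fin 6 → E) (d : Fin 6 → ℝ) : cube B (fun k => d k • e k) = (∏ k, d k) * cube B e := by
  have h := cube_matrix B e (Matrix.diagonal d)
  rw [Matrix.det_diagonal] at h
  rw [← h]
  congr 1
  funext k
  rw [Finset.sum_eq_single k]
  · rw [Matrix.diagonal_apply_eq]
  · intro l _ hl
    rw [Matrix.diagonal_apply_ne _ (Ne.symm hl), zero_smul]
  · intro hk
    exact absurd (Finset.mem_univ k) hk

theorem FA_pos {M : Set EA} {om : Form EA} (hM : IsMfd R6 M) (hs : IsSymplectic M om) {z0 : EA}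
    (hz0 : z0 ∈ M) : ∃ a : Fin 6 → EA, (∀ k, IsTangent M z0 (a k)) ∧ 0 < cube (om z0) a := by
  obtain ⟨a, ha, hne⟩ := hs.2 z0 hz0
  rcases lt_or_gt_of_ne hne with h | h
  · obtain ⟨U, V, ρ, ψ, hzU, hc⟩ := hM z0 hz0
    obtain ⟨S, hS⟩ := hc.tangent_submodule (⟨hz0, hzU⟩ : z0 ∈ M ∩ U)
    refine ⟨fun k => (if k = 0 then (-1 : ℝ) else 1) • a k, fun k => ?_, ?_⟩
    · exact (hS _).1 (S.smul_mem _ ((hS _).2 (ha k)))
    · rw [FA_diag]
      have hp : (∏ k : Fin 6, (if k = 0 then (-1 : ℝ) else 1)) = -1 := by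
        rw [Finset.prod_ite_eq']
        simp
      rw [hp]
      linarith
  · exact ⟨a, ha, h⟩

theorem connected_of_topConnSum {M Mf : Set EA} (hM : IsConnected M)
    (h : TopConnSum M S3S3 Mf) : IsConnected Mf := by
  obtain ⟨UM, ρM, i, UN, ρN, j, f, g, A, B, hcM, hcN, hA, hB, hAB, hf, hg, hint, hglue, hS, hid⟩ := h
  have hA1 : Mf ∩ A = f '' (M \ i '' Metric.closedBall (0 : R6) (1 / 2)) := FA_image hf
  have hB1 : Mf ∩ B = g '' (S3S3 \ j '' Metric.closedBall (0 : R6) (1 / 2)) := FA_image hg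
  have hA2 : IsPreconnected (Mf ∩ A) := by
    rw [hA1]
    exact (isPreconnected_compl hM hcM).image f (FA_cont hf.1)
  have hB2 : IsPreconnected (Mf ∩ B) := by
    rw [hB1]
    exact (isPreconnected_compl isConnected_S3S3 hcN).image g (FA_cont hg.1)
  obtain ⟨v, hv⟩ := FA_pt
  have hmem : f (i v) ∈ Mf ∩ A ∩ B := by
    rw [hint]
    exact ⟨i v, ⟨v, hv, rfl⟩, rfl⟩
  have hU : Mf = (Mf ∩ A) ∪ (Mf ∩ B) := by
    ext z
    constructor
    · intro hz
      rcases hAB hz with h | h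
      · exact Or.inl ⟨hz, h⟩
      · exact Or.inr ⟨hz, h⟩
    · rintro (h | h)
      · exact h.1
      · exact h.1
  refine ⟨⟨_, hmem.1.1⟩, ?_⟩
  rw [hU]
  exact IsPreconnected.union (f (i v)) hmem.1 ⟨hmem.1.1, hmem.2⟩ hA2 hB2

theorem connSum_transfer {M Mf M' : Set EA} {om om' : Form EA} (hM : IsClosed6Mfd M)
    (hM' : IsMfd R6 M') (hs : IsSymplectic M om) (hs' : IsSymplectic M' om')
    (h : TopConnSum M S3S3 Mf) {D D' : EA → EA} (hD : ContDiff ℝ ∞ D) (hD' : ContDiff ℝ ∞ D')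
    (h1 : ∀ z, D' (D z) = z) (h2 : ∀ z, D (D' z) = z) (h3 : ∀ z, z ∈ Mf ↔ D z ∈ M')
    (h4 : ∀ z, -1 ≤ eS z → D z = z ∧ D' z = z) {z0 : EA} (hz0 : z0 ∈ M) (hs0 : -1 < eS z0)
    (hform : ∀ a b, IsTangent M z0 a → IsTangent M z0 b → om z0 a b = om' z0 a b) :
    IsConnSum M om S3S3 M' om' := by
  obtain ⟨UM, ρM, i, UN, ρN, j, f, g, A, B, hcM, hcN, hA, hB, hAB, hf, hg, hint, hglue, hS, hid⟩ := h
  have hfD := FA_diffeo hD hD' h1 h2 h3 hf
  have hgD := FA_diffeo hD hD' h1 h2 h3 hg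
  have hcont : ContinuousOn i (Metric.ball (0 : R6) 2) := hcM.smooth_ψ.continuousOn
  have hK : IsClosed (i '' Metric.closedBall (0 : R6) (1 / 2)) :=
    ((isCompact_closedBall (0 : R6) (1 / 2)).image_of_continuousOn (hcont.mono
      (Metric.closedBall_subset_ball (by norm_num)))).isClosed
  refine ⟨UM, ρM, i, UN, ρN, j, fun z => D (f z), fun z => D (g z), D' ⁻¹' A, D' ⁻¹' B, hcM, hcN,
    hA.preimage hD'.continuous, hB.preimage hD'.continuous, ?_, hfD, hgD, ?_, ?_, ?_⟩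
  · intro z hz
    have hz' : D' z ∈ Mf := (h3 _).2 (by rw [h2]; exact hz)
    exact hAB hz'
  · have e1 : M' ∩ D' ⁻¹' A ∩ D' ⁻¹' B = D '' (Mf ∩ A ∩ B) := by
      ext z
      constructor
      · rintro ⟨⟨hz, hzA⟩, hzB⟩
        exact ⟨D' z, ⟨⟨(h3 _).2 (by rw [h2]; exact hz), hzA⟩, hzB⟩, h2 z⟩
      · rintro ⟨y, ⟨⟨hy, hyA⟩, hyB⟩, rfl⟩
        refine ⟨⟨(h3 _).1 hy, ?_⟩, ?_⟩
        · show D' (D y) ∈ A
          rw [h1]; exact hyA
        · show D' (D y) ∈ B
          rw [h1]; exact hyB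
    rw [e1, hint, Set.image_image]
  · intro v hv1 hv2
    show D (f (i v)) = D (g (j ((‖v‖ ^ 2)⁻¹ • v)))
    rw [hglue v hv1 hv2]
  · intro z hz a b hab ha
    have hz0' : z0 ∈ M ∩ (i '' Metric.closedBall (0 : R6) (1 / 2))ᶜ := by
      refine ⟨hz0, ?_⟩
      rintro ⟨v, hv, hvz⟩
      have h5 := hS v (Metric.closedBall_subset_ball (by norm_num) hv)
      rw [hvz] at h5
      linarith
    have hD0 : D (f z0) = z0 := by
      rw [hid z0 hz0 hs0.le]
      exact (h4 z0 hs0.le).1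
    refine orientation_connected (f := fun z => D (f z)) hM.1 hM' hs hs' hK.isOpen_compl
      (hA.preimage hD'.continuous) (isPreconnected_compl hM.2.2 hcM) hfD hz0' ?_ hz a b hab ha
    obtain ⟨c, hc, hpos⟩ := FA_pos hM.1 hs hz0
    have hW : IsOpen {z : EA | -1 < eS z} := isOpen_lt continuous_const
      (continuous_fst.comp (continuous_snd.comp (continuous_snd.comp continuous_snd)))
    refine ⟨c, c, fun k => ?_, hpos, ?_⟩
    · have h6 := (mapsTangent_iff (X := M) (W := {z : EA | -1 < eS z}) (z := z0) (a := c k)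
        (b := c k) (f := fun z => D (f z)) (F := fun z => z) hW ⟨hz0, hs0⟩ contDiffOn_id
        (fun y hy => by
          have hy1 : -1 ≤ eS y := le_of_lt hy.2
          show y = D (f y)
          rw [hid y hy.1 hy1]
          exact (h4 y hy1).1.symm))
      refine h6.2 ⟨hc k, ?_⟩
      rw [fderiv_fun_id]
      rfl
    · show 0 < cube (om' (D (f z0))) c
      rw [hD0]
      rw [← orientation_connected_cube_congr (B := om z0) (B' := om' z0) (a := c)
        (fun i j => hform _ _ (hc i) (hc j))]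
      exact hpos

end Pool.Agent.H34.SY
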