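import Pool.Agent.H34.SY.MY

/-!
# Row MZ: block SYM

Given `hd`, `T > 0` (if needed replace nothing: `SymSpec` asks for all `T > 0`; but `Ok2` needs `1 ≤ T`: see below), choose
1. `T2` large: `slope1` (`ga` is continuous with compact support, so `nsq3 (ga x) ≤ G`; `psi2 = cut 1 T2`, `|psi2'| ≤ C/T2` (`cut_slope`),
   supported in `1 ≤ s ≤ 1 + T2`: `4 (C/T2)² (1+T2) G < 1`);
2. `Ta` large: `slope2` (`|cut'| ≤ C/Ta`, support in `s ≤ B² + Ta`: `4 (C/Ta)² (B²+Ta)(B²+T2+2) < 1`);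
3. `La0` from `La2` and `2 ≤ La`;
4. `r1, kap` from `exists_nearE hd T2 Ta`; `rb0 = 1` (or anything `≤ 1`); given `rb < rb0`, `r0 = min (rb/2) r1`-like (`NearE` and the
   regularity are monotone in `r`: for `r0 ≤ r1` they follow from those for `r1`);
5. `eps` from `exists_small` and `2 eps |chi'| ≤ kap` (`chi'` bounded).
`M_form`, `M'_form`.  The point `z0`: `psiN p` with `p = (La, 0, 1, 0, La, 0, 0)` (`ζ = La`, `z = 0`, `s = 0`, `h0 = 1`, `h = 0`, `u = 0`,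
`t = La = Re ζ`): it is in `WS La`, in `M`, and in `M'` (`mem_N`, `0 ≤ s`).  Near `z0` the sets `M` and `M'` coincide
(`graph_mid`, `M` is `t = Re ζ`), so they have the same tangent vectors (`IsTangent.congr`), and
`omO0 = omN0` at `rhoN z0` (`omO0_mid`).
-/

open Set Topology
open scoped ContDiff ComplexConjugate

namespace Pool.Agent.H34.SY

theorem MZ_ga_bound (hd : Handle) : ∃ G : ℝ, 0 ≤ G ∧ ∀ x, nsq3 (hd.ga x) ≤ G := by
  have hcont : Continuous (fun x : V3 => nsq3 (hd.ga x)) := by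
    have h := hd.ga_smooth.continuous
    have h1 : Continuous (fun x : V3 => (hd.ga x).1) := continuous_fst.comp h
    have h2 : Continuous (fun x : V3 => (hd.ga x).2.1) := continuous_fst.comp (continuous_snd.comp h)
    have h3 : Continuous (fun x : V3 => (hd.ga x).2.2) := continuous_snd.comp (continuous_snd.comp h)
    exact ((h1.pow 2).add (h2.pow 2)).add (h3.pow 2)
  have hB : 0 < hd.B := lt_of_lt_of_le zero_lt_one (hd.hL.trans hd.hLB.le)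
  have hcomp : IsCompact (Metric.closedBall (0 : V3) hd.B) := isCompact_closedBall _ _
  obtain ⟨G, hG⟩ := hcomp.bddAbove_image hcont.continuousOn
  refine ⟨max G 0, le_max_right _ _, fun x => ?_⟩
  by_cases hx : hd.B ^ 2 ≤ nsq3 x
  · rw [hd.ga_far x hx]
    refine le_trans (le_of_eq ?_) (le_max_right _ _)
    simp [nsq3]
  · refine le_trans (hG ⟨x, ?_, rfl⟩) (le_max_left _ _)
    rw [mem_closedBall_zero_iff]
    obtain ⟨x1, x2, x3⟩ := x
    simp only [nsq3, not_le] at hx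
    have h1 : |x1| ≤ hd.B := abs_le_of_sq_le_sq (by nlinarith [sq_nonneg x2, sq_nonneg x3]) hB.le
    have h2 : |x2| ≤ hd.B := abs_le_of_sq_le_sq (by nlinarith [sq_nonneg x1, sq_nonneg x3]) hB.le
    have h3 : |x3| ≤ hd.B := abs_le_of_sq_le_sq (by nlinarith [sq_nonneg x1, sq_nonneg x2]) hB.le
    rw [Prod.norm_def, Prod.norm_def]
    exact max_le h1 (max_le h2 h3)

/-- the slope of a wide cut-off function. -/
theorem MZ_slope (C a G : ℝ) (hC : 0 < C) (ha : 0 ≤ a) (hG : 0 ≤ G)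
    (h : ∀ a T : ℝ, 0 < T → ∀ s, |deriv (cut a T) s| ≤ C / T) (T : ℝ)
    (hT : a + 8 * C ^ 2 * G + 1 ≤ T) (s : ℝ) (hs : 0 ≤ s) :
    4 * (deriv (cut a T) s) ^ 2 * s * G < 1 := by
  have hT0 : 0 < T := by
    have : 0 ≤ 8 * C ^ 2 * G := by positivity
    linarith
  have h8 : 0 ≤ 8 * C ^ 2 * G := by positivity
  rcases lt_or_ge (a + T) s with hs1 | hs1
  · have he : cut a T =ᶠ[𝓝 s] fun _ => (0 : ℝ) := by
      filter_upwards [lt_mem_nhds hs1] with y hy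
      exact (cut_props a T hT0).2.2.1 y (le_of_lt hy)
    rw [he.deriv_eq, deriv_const]
    norm_num
  · have h1 := h a T hT0 s
    have h2 : (deriv (cut a T) s) ^ 2 ≤ (C / T) ^ 2 := by
      rw [← sq_abs]
      exact pow_le_pow_left₀ (abs_nonneg _) h1 2
    have h3 : s ≤ 2 * T := by linarith
    have h4 : 4 * (deriv (cut a T) s) ^ 2 * s * G ≤ 4 * (C / T) ^ 2 * (2 * T) * G := by
      gcongr
    have h5 : 4 * (C / T) ^ 2 * (2 * T) * G = 8 * C ^ 2 * G / T := by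
      field_simp
      ring
    rw [h5] at h4
    refine lt_of_le_of_lt h4 ?_
    rw [div_lt_one hT0]
    linarith

theorem exists_FPar (hd : Handle) (T : ℝ) (hT : 1 ≤ T) :
    ∃ La0 : ℝ, ∀ La : ℝ, La0 ≤ La → ∀ rb : ℝ, 0 < rb → rb < 1 →
      ∃ P : FPar, P.toPar = ⟨hd, T, La, rb⟩ ∧ P.Ok3 := by
  obtain ⟨C, hC, hCs⟩ := cut_slope
  obtain ⟨G, hG, hga⟩ := MZ_ga_bound hd
  have hB2 := sq_nonneg hd.B
  obtain ⟨T2, hT2⟩ : ∃ T2 : ℝ, T2 = 1 + 8 * C ^ 2 * G + 1 := ⟨_, rfl⟩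
  have hT20 : 0 < T2 := by
    have : 0 ≤ 8 * C ^ 2 * G := by positivity
    linarith
  have hD : 0 ≤ hd.B ^ 2 + T2 + 2 := by linarith
  obtain ⟨Ta, hTa⟩ : ∃ Ta : ℝ, Ta = hd.B ^ 2 + 8 * C ^ 2 * (hd.B ^ 2 + T2 + 2) + 1 := ⟨_, rfl⟩
  have hTa0 : 0 < Ta := by
    have : 0 ≤ 8 * C ^ 2 * (hd.B ^ 2 + T2 + 2) := by positivity
    linarith
  obtain ⟨r1, kap, hr1, hr11, hkap, hnear⟩ := FPar.exists_nearE hd T2 Ta hT20 hTa0
  obtain ⟨Q, hQ⟩ : ∃ Q : ℝ, Q = hd.B + hd.Sb + T + 2 := ⟨_, rfl⟩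
  refine ⟨4 * (Q ^ 2 + hd.B ^ 2 + T2 + 4), fun La hLa rb hrb hrb1 => ?_⟩
  have hQ2 := sq_nonneg Q
  have hLa2 : 2 ≤ La := by linarith
  have hLa3 : 4 * (Q ^ 2 + hd.B ^ 2 + T2 + 4) ≤ La ^ 2 := by nlinarith
  obtain ⟨r0, hr0⟩ : ∃ r0 : ℝ, r0 = min (rb / 2) r1 := ⟨_, rfl⟩
  have hr00 : 0 < r0 := by rw [hr0]; exact lt_min (by linarith) hr1
  have hr0b : r0 ≤ rb / 2 := by rw [hr0]; exact min_le_left _ _
  have hr0r : r0 ≤ r1 := by rw [hr0]; exact min_le_right _ _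
  obtain ⟨e0, he0, hsm⟩ := FPar.exists_small hd T La rb T2 Ta r0 hTa0 hr00
  -- the slope of chi
  obtain ⟨D, hD0, hDs⟩ : ∃ D : ℝ, 0 < D ∧ ∀ r, |deriv (fun y : ℝ => cut (1 / 4) (3 / 4) (y / r0 ^ 2)) r| ≤ D := by
    refine ⟨C / (3 / 4) * (1 / r0 ^ 2), by positivity, fun r => ?_⟩
    have h6 : HasDerivAt (fun y : ℝ => y / r0 ^ 2) (1 / r0 ^ 2) r :=
      (hasDerivAt_id r).div_const _
    have hcd : DifferentiableAt ℝ (cut (1 / 4) (3 / 4)) (r / r0 ^ 2) :=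
      ((cut_props (1 / 4) (3 / 4) (by norm_num)).1.differentiable (by simp)).differentiableAt
    have h7 : HasDerivAt (fun y : ℝ => cut (1 / 4) (3 / 4) (y / r0 ^ 2))
        (deriv (cut (1 / 4) (3 / 4)) (r / r0 ^ 2) * (1 / r0 ^ 2)) r :=
      HasDerivAt.comp (h₂ := cut (1 / 4) (3 / 4)) (h := fun y : ℝ => y / r0 ^ 2) r hcd.hasDerivAt h6
    rw [h7.deriv, abs_mul, abs_of_pos (show (0 : ℝ) < 1 / r0 ^ 2 by positivity)]
    exact mul_le_mul_of_nonneg_right (hCs _ _ (by norm_num) _) (by positivity)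
  obtain ⟨eps, heps⟩ : ∃ eps : ℝ, eps = min (e0 / 2) (kap / (2 * D)) := ⟨_, rfl⟩
  have heps0 : 0 < eps := by rw [heps]; exact lt_min (by linarith) (by positivity)
  have hepse : eps < e0 := by
    have : eps ≤ e0 / 2 := by rw [heps]; exact min_le_left _ _
    linarith
  have hepsk : 2 * eps * D ≤ kap := by
    have h1 : eps ≤ kap / (2 * D) := by rw [heps]; exact min_le_right _ _
    rw [le_div_iff₀ (by positivity)] at h1
    linarith
  obtain ⟨P, hP⟩ : ∃ P : FPar, P = ⟨⟨hd, T, La, rb⟩, T2, Ta, eps, r0⟩ := ⟨_, rfl⟩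
  obtain ⟨hs1, hs2⟩ := hsm eps heps0 hepse P hP
  obtain ⟨hn1, hn2⟩ := hnear P (by rw [hP]) (by rw [hP]) (by rw [hP])
  subst hP
  refine ⟨⟨⟨hd, T, La, rb⟩, T2, Ta, eps, r0⟩, rfl, ?_⟩
  have hsq : r0 ^ 2 ≤ r1 ^ 2 := pow_le_pow_left₀ hr00.le hr0r 2
  refine
    { La := hLa2
      Ta := hTa0
      r0 := hr00
      r1 := by show r0 ≤ 1; linarith
      eps := heps0
      small1 := hs1
      small2 := hs2
      T := hT
      rb0 := hrb
      rb1 := hrb1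
      r0rb := hr0b
      T2 := hT20
      slope1 := ?_
      slope2 := ?_
      La2 := ?_
      near := ⟨kap, hkap, ?_, ?_⟩
      reg := ?_ }
  · intro x s hs
    have h1 := MZ_slope C 1 G hC zero_le_one hG hCs T2 (le_of_eq hT2.symm) s hs
    have h2 : 4 * (deriv (cut 1 T2) s) ^ 2 * s * nsq3 (hd.ga x) ≤
        4 * (deriv (cut 1 T2) s) ^ 2 * s * G := by
      have := hga x
      gcongr
    exact lt_of_le_of_lt h2 h1
  · intro s hs
    exact MZ_slope C (hd.B ^ 2) (hd.B ^ 2 + T2 + 2) hC hB2 hD hCs Ta (le_of_eq hTa.symm) s hs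
  · show 4 * ((hd.B + hd.Sb + T + 2) ^ 2 + hd.B ^ 2 + T2 + 4) ≤ La ^ 2
    rw [← hQ]
    exact hLa3
  · intro v hv1 hv2 hv3
    exact hn1 v hv1 (lt_of_lt_of_le hv2 hsq) hv3
  · intro r
    have h1 := hDs r
    have h2 : 2 * eps * |deriv (fun y : ℝ => cut (1 / 4) (3 / 4) (y / r0 ^ 2)) r| ≤ 2 * eps * D :=
      mul_le_mul_of_nonneg_left h1 (by positivity)
    exact h2.trans hepsk
  · intro v hv1 hv2 hv3
    exact hn2 v hv1 (lt_of_lt_of_le hv2 hsq) hv3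

/-- Block SYM (for `1 ≤ T`). -/
theorem symSpec' : ∀ (hd : Handle) (T : ℝ), 1 ≤ T → ∃ La0 : ℝ, ∀ La : ℝ, La0 ≤ La →
    ∃ rb0 : ℝ, 0 < rb0 ∧ ∀ rb : ℝ, 0 < rb → rb < rb0 → ∀ P : Par, P = ⟨hd, T, La, rb⟩ →
      IsMfd R6 P.M' → ∃ om om' : Form EA, IsSymplectic P.M om ∧ IsSymplectic P.M' om' ∧
        ∃ z0 ∈ P.M, -1 < eS z0 ∧ z0 ∈ P.M' ∧
          ∀ a b, IsTangent P.M z0 a → IsTangent P.M z0 b →
            IsTangent P.M' z0 a ∧ IsTangent P.M' z0 b ∧ om z0 a b = om' z0 a b := by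
  intro hd T hT
  obtain ⟨La0, h⟩ := exists_FPar hd T hT
  refine ⟨La0, fun La hLa => ⟨1, one_pos, fun rb hrb hrb1 P0 hP0 hm => ?_⟩⟩
  obtain ⟨P, hP, hok⟩ := h La hLa rb hrb hrb1
  rw [← hP] at hP0
  subst hP0
  have hPLa : P.La = La := by
    show P.toPar.La = La
    rw [hP]
  have hok2 := hok.toOk2
  have hok1 := hok2.toOk1
  have hLa2 : 2 ≤ P.La := hok1.La
  obtain ⟨om, hom, homt⟩ := P.M_form hok1
  obtain ⟨om', hom', homt'⟩ := P.M'_form hok hm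
  refine ⟨om, om', hom, hom', ?_⟩
  obtain ⟨p, hp⟩ : ∃ p : FP, p = (P.La, 0, 1, 0, (P.La : ℂ), 0, 0) := ⟨_, rfl⟩
  have hpm : p ∈ FPS P.La := by
    rw [hp]
    refine ⟨?_, ?_, ?_, ?_⟩
    · show (1 : ℝ) ^ 2 + Complex.normSq 0 = 1
      rw [map_zero]
      norm_num
    · show ((1 + (1 : ℝ) : ℝ) : ℂ) * 0 = 0 * (P.La : ℂ)
      rw [mul_zero, zero_mul]
    · show ((1 - (1 : ℝ) : ℝ) : ℂ) * (P.La : ℂ) = conj (0 : ℂ) * 0
      rw [sub_self, Complex.ofReal_zero, mul_zero, zero_mul]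
    · show Complex.normSq (P.La : ℂ) + Complex.normSq 0 + (0 : ℝ) ^ 2 = P.La ^ 2
      rw [Complex.normSq_ofReal, map_zero]
      ring
  obtain ⟨hW, h1⟩ := psiN_mem hpm
  have hr : rhoN (psiN p) = p := rhoN_psiN p
  obtain ⟨z0, hz0⟩ : ∃ z0 : EA, z0 = psiN p := ⟨_, rfl⟩
  rw [← hz0] at hW h1 hr
  have hS : fS (rhoN z0) = 0 := by rw [hr, hp]
  have hT0 : fT (rhoN z0) = P.La := by rw [hr, hp]
  have hZe : fZe (rhoN z0) = (P.La : ℂ) := by rw [hr, hp]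
  have hre : fT (rhoN z0) = (fZe (rhoN z0)).re := by rw [hT0, hZe, Complex.ofReal_re]
  have hzM : z0 ∈ P.toPar.M := ⟨hW, hre⟩
  have hzM' : z0 ∈ P.toPar.M' := ((P.mem_N hW h1).2 (by rw [hS])).2 hre
  have hgm := P.graph_mid hok2
  -- near z0 the two manifolds coincide
  have hopen : IsOpen {z : EA | -1 < eW1 z ∧ -(3 / 4) * P.La < eS z} := by
    have c1 : Continuous (fun z : EA => eW1 z) := continuous_fst.comp continuous_snd
    have c2 : Continuous (fun z : EA => eS z) := continuous_fst.comp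
      (continuous_snd.comp (continuous_snd.comp continuous_snd))
    have o1 : IsOpen {z : EA | -1 < eW1 z} := isOpen_lt continuous_const c1
    have o2 : IsOpen {z : EA | -(3 / 4) * P.La < eS z} := isOpen_lt continuous_const c2
    exact o1.inter o2
  have hz0m : z0 ∈ {z : EA | -1 < eW1 z ∧ -(3 / 4) * P.La < eS z} := by
    refine ⟨h1, ?_⟩
    have : eS z0 = 0 := hS
    rw [this]
    linarith
  have hcap : P.toPar.M ∩ {z : EA | -1 < eW1 z ∧ -(3 / 4) * P.La < eS z} =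
      P.toPar.M' ∩ {z : EA | -1 < eW1 z ∧ -(3 / 4) * P.La < eS z} := by
    ext z
    constructor
    · rintro ⟨hz, hz1⟩
      exact ⟨(hgm.2.2.2.2.2 z hz.1 hz1.1 hz1.2).2 hz.2, hz1⟩
    · rintro ⟨hz, hz1⟩
      exact ⟨⟨hz.1, (hgm.2.2.2.2.2 z hz.1 hz1.1 hz1.2).1 hz⟩, hz1⟩
  have hq : fZe (rhoN z0) ≠ 0 ∨ fZ (rhoN z0) ≠ 0 := by
    left
    rw [hZe]
    intro h0
    have : P.La = 0 := by exact_mod_cast h0
    linarith
  have hq1 : 1 < qsq (fZe (rhoN z0)) (fZ (rhoN z0)) := by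
    have hz : fZ (rhoN z0) = 0 := by rw [hr, hp]
    rw [hZe, hz]
    unfold qsq
    rw [Complex.normSq_ofReal, map_zero]
    nlinarith
  refine ⟨z0, hzM, ?_, hzM', ?_⟩
  · have : eS z0 = 0 := hS
    rw [this]
    norm_num
  · intro a b ha hb
    have ha' := (IsTangent.congr hopen hz0m hcap).1 ha
    have hb' := (IsTangent.congr hopen hz0m hcap).1 hb
    refine ⟨ha', hb', ?_⟩
    rw [homt z0 hzM h1 hq a b ha hb, homt' z0 hzM' h1 hq (by rw [hS]; linarith) a b ha' hb']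
    unfold pb2
    rw [P.omO0_mid hok2 hq (Or.inr hq1)]

end Pool.Agent.H34.SY
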