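import Pool.Agent.H34.SY.FA
import Pool.Agent.H34.SY.MZ
import Pool.Agent.H31.SYHD.Fin
import Pool.Agent.H8.SYG.GFin

/-!
# Final assembly
-/

open Set Topology
open scoped ContDiff ComplexConjugate

namespace Pool.Agent.H34.SY

theorem main_of_top (hHD : HDSpec) (hProf : ProfSpec) (hM : MSpec) (hTop : TopSpec)
    (hG : GSpec) : MainSpec := by
  obtain ⟨hd⟩ := hHD
  obtain ⟨T0, hT0⟩ := hTop hd
  set T := max T0 1 with hT
  obtain ⟨m, n, s0, s1, hs0, hP⟩ := hProf (hd.L ^ 2 + T + 1)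
  obtain ⟨La1, hLa1⟩ := hT0 T (le_max_left _ _) m n s0 s1 hP hs0
  obtain ⟨La2, hLa2⟩ := hG hd T m n s0 s1 hP
  obtain ⟨La3, hLa3⟩ := symSpec' hd T (le_max_right _ _)
  set La := max (max La1 La2) (max La3 1) with hLa
  have e1 : La1 ≤ La := le_trans (le_max_left _ _) (le_max_left _ _)
  have e2 : La2 ≤ La := le_trans (le_max_right _ _) (le_max_left _ _)
  have e3 : La3 ≤ La := le_trans (le_max_left _ _) (le_max_right _ _)
  have e4 : (1 : ℝ) ≤ La := le_trans (le_max_right _ _) (le_max_right _ _)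
  obtain ⟨rb1, hrb1, h1⟩ := hLa1 La e1
  obtain ⟨rb2, hrb2, h2⟩ := hLa3 La e3
  set rb := min rb1 rb2 / 2 with hrb
  have hmin : 0 < min rb1 rb2 := lt_min hrb1 hrb2
  have hr0 : 0 < rb := by rw [hrb]; linarith
  have hr1 : rb < rb1 := by
    have := min_le_left rb1 rb2
    rw [hrb]; linarith
  have hr2 : rb < rb2 := by
    have := min_le_right rb1 rb2
    rw [hrb]; linarith
  set P : Par := ⟨hd, T, La, rb⟩ with hPdef
  obtain ⟨hmf, hcp, D, D', hD, hD', k1, k2, k3, k4⟩ := h1 rb hr0 hr1 P hPdef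
  have hcs := hLa2 La e2 rb P hPdef
  obtain ⟨om, om', hs, hs', z0, hz0, hs0', hz0', hform⟩ := h2 rb hr0 hr2 P hPdef hmf
  have hMc : IsClosed6Mfd P.M := hM P (lt_of_lt_of_le one_pos e4)
  have hMfc : IsConnected (P.Mfin m n) := connected_of_topConnSum hMc.2.2 hcs
  have himg : P.M' = D '' (P.Mfin m n) := by
    ext z
    constructor
    · intro hz
      refine ⟨D' z, ?_, k2 z⟩
      rw [k3, k2]
      exact hz
    · rintro ⟨y, hy, rfl⟩
      exact (k3 y).1 hy
  have hM'c : IsConnected P.M' := by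
    rw [himg]
    exact hMfc.image _ hD.continuous.continuousOn
  refine ⟨P.M, P.M', om, om', hMc, ⟨hmf, hcp, hM'c⟩, hs, hs', ?_⟩
  exact connSum_transfer hMc hmf hs hs' hcs hD hD' k1 k2 k3 k4 hz0 hs0'
    (fun a b ha hb => (hform a b ha hb).2.2)

end Pool.Agent.H34.SY
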