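import Pool.Agent.H34.SY.Forms

/-!
# Model forms in 6 real coordinates (definitions used by several rows)

`H6 = ℂ × ℂ × ℂ`: base coordinate `u`, and either `(Q₁, Q₂)` (off the exceptional divisors), or
`(b, y)` (near them).
-/

open Set Topology
open scoped ContDiff ComplexConjugate

namespace Pool.Agent.H34.SY

noncomputable section

abbrev H6 : Type := ℂ × ℂ × ℂ

def hU : H6 →L[ℝ] ℂ := ContinuousLinearMap.fst ℝ ℂ (ℂ × ℂ)
def hA : H6 →L[ℝ] ℂ :=
  (ContinuousLinearMap.fst ℝ ℂ ℂ).comp (ContinuousLinearMap.snd ℝ ℂ (ℂ × ℂ))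
def hB : H6 →L[ℝ] ℂ :=
  (ContinuousLinearMap.snd ℝ ℂ ℂ).comp (ContinuousLinearMap.snd ℝ ℂ (ℂ × ℂ))

/-- Off the exceptional divisors, coordinates `(u, Q₁, Q₂)`: `G(|Q|²) (α_Q + H ka θ) + ½ kr θ + ch(|Q|²) ke θ`
with `θ = Im (ū du)`, `α_Q = Im (Q̄ dQ)/|Q|²`, `H = |Q₂|²/|Q|²`; `ka`, `kr`, `ke` are functions of `|u|²`. -/
def lamQ (G ka kr ch ke : ℝ → ℝ) : Form1 H6 := fun v =>
  (G (qsq v.2.1 v.2.2) / qsq v.2.1 v.2.2) •
      (imF hA v + imF hB v + (Complex.normSq v.2.2 * ka (Complex.normSq v.1)) • imF hU v)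
    + (kr (Complex.normSq v.1) / 2) • imF hU v
    + (ch (qsq v.2.1 v.2.2) * ke (Complex.normSq v.1)) • imF hU v

/-- Near an exceptional divisor, coordinates `(u, b, y)` with `q = (b y, y)`. -/
def lamB (k1 k2 : ℝ) (ka kr : ℝ → ℝ) (mu : Form1 H6) : Form1 H6 := fun v =>
  (k1 / 2 * (1 + Complex.normSq v.2.1)) • imF hB v + Complex.normSq v.2.2 • mu v
    + (k2 / (1 + Complex.normSq v.2.1)) • (imF hA v + ka (Complex.normSq v.1) • imF hU v)
    + (kr (Complex.normSq v.1) / 2) • imF hU v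

/-- Near an exceptional divisor, coordinates `(u, β, y)` with `q = (y, β y)`. -/
def lamA (k1 k2 : ℝ) (ka kr : ℝ → ℝ) (mu : Form1 H6) : Form1 H6 := fun v =>
  (k1 / 2 * (1 + Complex.normSq v.2.1)) • imF hB v + Complex.normSq v.2.2 • mu v
    + (k2 / (1 + Complex.normSq v.2.1)) •
      (imF hA v + (Complex.normSq v.2.1 * ka (Complex.normSq v.1)) • imF hU v)
    + (kr (Complex.normSq v.1) / 2) • imF hU v

end

end Pool.Agent.H34.SY
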