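import Pool.Agent.H34.SY.TJ

/-!
# Row TK: TopSpec
-/

open Set Topology
open scoped ContDiff ComplexConjugate

namespace Pool.Agent.H34.SY

/-- The statement of the isotopy (b). -/
def FbSpec : Prop := ∀ hd : Handle, ∃ T0 : ℝ, ∀ T : ℝ, T0 ≤ T →
  ∀ (m n : ℝ → ℝ) (s0 s1 : ℝ), Prof m n s0 s1 → hd.L ^ 2 + T + 1 ≤ s0 → ∃ La0 : ℝ,
    ∀ La : ℝ, La0 ≤ La → ∀ rb : ℝ, ∀ P : Par, P = ⟨hd, T, La, rb⟩ → IsoFam P.La (P.Fb m n)

theorem Fa_Fb (P : Par) (m n : ℝ → ℝ) (z : EA) : P.Fa 1 z = P.Fb m n 0 z := by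
  unfold Par.Fa Par.Fb Par.FaN Par.FbN
  by_cases h1 : -1 < eW1 z
  · rw [if_pos h1, if_pos h1]
    by_cases h2 : fS (rhoN z) < 0
    · by_cases h3 : fH0 (rhoN z) < 1
      · rw [if_pos h2, if_pos h3, if_pos ⟨h2, h3⟩]
        ring
      · rw [if_pos h2, if_neg h3, if_neg (fun h => h3 h.2)]
        ring
    · rw [if_neg h2, if_neg (fun h => h2 h.1)]
  · rw [if_neg h1, if_neg h1]

theorem isMfd_M' (P : Par) (h : ∀ z ∈ WS P.La, RegAt P.La P.FD z) : IsMfd R6 P.M' := by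
  have hfr := finrank_H7
  refine level_mfd (H := H7) hfr (P.FD 1) ?_
  intro z hz hF
  obtain ⟨U, V, ρ, ψ, hzU, hc, hs, hr⟩ := h z hz
  refine ⟨U, V, ρ, ψ, hzU, hc, ?_, ?_⟩
  · have h1 : ContDiffOn ℝ ∞ (fun v : H7 => ((1 : ℝ), v)) V := contDiffOn_const.prodMk contDiffOn_id
    exact hs.comp h1 (fun v hv => ⟨mem_univ _, hv⟩)
  · have hv : ρ z ∈ V := hc.maps_ρ z ⟨hz, hzU⟩
    refine hr 1 ⟨zero_le_one, le_refl _⟩ (ρ z) hv ?_
    rw [hc.left_inv z ⟨hz, hzU⟩]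
    exact hF

theorem continuousOn_FD (P : Par) (h : ∀ z ∈ WS P.La, RegAt P.La P.FD z) :
    ContinuousOn (P.FD 1) (WS P.La) := by
  intro z hz
  obtain ⟨U, V, ρ, ψ, hzU, hc, hs, hr⟩ := h z hz
  have h1 : ContDiffOn ℝ ∞ (fun v : H7 => ((1 : ℝ), v)) V := contDiffOn_const.prodMk contDiffOn_id
  have h2 : ContDiffOn ℝ ∞ (fun v : H7 => P.FD 1 (ψ v)) V :=
    hs.comp h1 (fun v hv => ⟨mem_univ _, hv⟩)
  have h3 : ContinuousOn (fun y => P.FD 1 (ψ (ρ y))) (WS P.La ∩ U) :=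
    h2.continuousOn.comp (hc.smooth_ρ.continuousOn.mono inter_subset_right)
      (fun y hy => hc.maps_ρ y hy)
  have h4 : ContinuousOn (P.FD 1) (WS P.La ∩ U) :=
    h3.congr (fun y hy => by
      show P.FD 1 y = P.FD 1 (ψ (ρ y))
      rw [hc.left_inv y hy])
  have h5 := h4 z ⟨hz, hzU⟩
  exact (continuousWithinAt_inter (hc.isOpen_U.mem_nhds hzU)).1 h5

theorem TK_bd {a b l A : ℝ} (h : a ^ 2 + b ^ 2 ≤ A ^ 2) (hA : 0 ≤ A) :
    |((1 - l) * a + l * b) / Real.sqrt ((1 - l) ^ 2 + l ^ 2)| ≤ A := by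
  have hp : 0 < (1 - l) ^ 2 + l ^ 2 := by nlinarith [sq_nonneg (1 - 2 * l)]
  have hs := Real.sqrt_pos.2 hp
  rw [abs_div, abs_of_pos hs, div_le_iff₀ hs]
  refine abs_le_of_sq_le_sq ?_ (by positivity)
  rw [mul_pow, Real.sq_sqrt hp.le]
  nlinarith [sq_nonneg ((1 - l) * b - l * a), mul_le_mul_of_nonneg_right h hp.le]

theorem TK_re {La : ℝ} (hLa : 0 < La) {p : FP} (hp : p ∈ FPS La) :
    (fZe p).re ^ 2 + (fZ p).re ^ 2 ≤ La ^ 2 ∧ |(fZe p).re| ≤ La ∧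
      qsq (fZe p) (fZ p) ≤ La ^ 2 := by
  obtain ⟨h1, _, _⟩ := FPS_bounds hLa hp
  have h2 : qsq (fZe p) (fZ p) ≤ La ^ 2 := by nlinarith [sq_nonneg (fS p)]
  have h3 : qsq (fZe p) (fZ p) = (fZe p).re ^ 2 + (fZe p).im ^ 2 + ((fZ p).re ^ 2 + (fZ p).im ^ 2) := by
    unfold qsq
    rw [Complex.normSq_apply, Complex.normSq_apply]
    ring
  refine ⟨by nlinarith [sq_nonneg (fZe p).im, sq_nonneg (fZ p).im], ?_, h2⟩
  refine abs_le_of_sq_le_sq ?_ hLa.le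
  nlinarith [sq_nonneg (fZe p).im, sq_nonneg (fZ p).im, sq_nonneg (fZ p).re]

theorem FD_ne (P : Par) (hLa : 0 < P.La) {z : EA} (hz : z ∈ WS P.La)
    (h1 : P.hd.B < |eT z|) (h2 : P.La < |eT z|) : P.FD 1 z ≠ 0 := by
  have hB : 0 < P.hd.B := lt_trans (lt_of_lt_of_le one_pos P.hd.hL) P.hd.hLB
  have key : ∀ a : ℝ, |a| ≤ P.La → eT z - a ≠ 0 := by
    intro a ha h
    have : eT z = a := by linarith
    rw [this] at h2
    exact absurd ha (not_le.2 h2)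
  unfold Par.FD
  by_cases hw : -1 < eW1 z
  · rw [if_pos hw]
    obtain ⟨hp, -⟩ := rhoN_mem hz hw
    obtain ⟨e1, e2, e3⟩ := TK_re hLa hp
    unfold Par.FN
    by_cases hs : fS (rhoN z) < 0
    · rw [if_pos hs]
      have hT : fT (rhoN z) = eT z := rfl
      have hc : P.hd.c (xpt (fT (rhoN z)) (fU (rhoN z))) = fT (rhoN z) := by
        rw [P.hd.c_far]
        · rfl
        · show P.hd.B ^ 2 ≤ nsq3 (fT (rhoN z), (fU (rhoN z)).re, (fU (rhoN z)).im)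
          unfold nsq3
          have : P.hd.B ^ 2 ≤ (eT z) ^ 2 := by
            rw [← sq_abs (eT z)]
            exact pow_le_pow_left₀ hB.le h1.le 2
          rw [hT]
          dsimp only
          nlinarith [sq_nonneg (fU (rhoN z)).re, sq_nonneg (fU (rhoN z)).im]
      have hy := yy_ghat P 1 (fT (rhoN z)) (fU (rhoN z)) (fZe (rhoN z)) (fZ (rhoN z))
      have hn : nsq4 (P.yy 1 (fT (rhoN z)) (fU (rhoN z)) (fZe (rhoN z)) (fZ (rhoN z))) ≤ P.La ^ 2 := by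
        rw [hy, qb_norm, ghat_unit, mul_one]
        exact e3
      have ha : |(P.yy 1 (fT (rhoN z)) (fU (rhoN z)) (fZe (rhoN z)) (fZ (rhoN z))).1| ≤ P.La := by
        refine abs_le_of_sq_le_sq ?_ hLa.le
        unfold nsq4 at hn
        nlinarith [sq_nonneg (P.yy 1 (fT (rhoN z)) (fU (rhoN z)) (fZe (rhoN z)) (fZ (rhoN z))).2.1,
          sq_nonneg (P.yy 1 (fT (rhoN z)) (fU (rhoN z)) (fZe (rhoN z)) (fZ (rhoN z))).2.2.1,
          sq_nonneg (P.yy 1 (fT (rhoN z)) (fU (rhoN z)) (fZe (rhoN z)) (fZ (rhoN z))).2.2.2]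
      unfold Par.FNm
      dsimp only
      rw [hc, sub_self, mul_zero, add_zero, hT]
      rw [hT] at ha
      exact key _ ha
    · rw [if_neg hs]
      exact key _ e2
  · rw [if_neg hw]
    have hw1 : eW1 z < 1 := by linarith [not_lt.1 hw]
    obtain ⟨hp, -⟩ := rhoS_mem hz hw1
    obtain ⟨e1, e2, e3⟩ := TK_re hLa hp
    unfold Par.FS
    by_cases hs : fS (rhoS z) < 0
    · rw [if_pos hs]
      unfold Par.FSm
      dsimp only
      exact key _ (TK_bd e1 hLa.le)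
    · rw [if_neg hs]
      exact key _ e2

theorem isCompact_M' (P : Par) (hLa : 0 < P.La) (h : ∀ z ∈ WS P.La, RegAt P.La P.FD z) :
    IsCompact P.M' := by
  have hK := isCompact_WS P.La (max P.hd.B P.La)
  have hcl : IsClosed P.M' := by
    have h1 : IsClosed (WS P.La ∩ (P.FD 1) ⁻¹' {0}) :=
      (continuousOn_FD P h).preimage_isClosed_of_isClosed (isClosed_WS P.La) isClosed_singleton
    exact h1
  refine hK.of_isClosed_subset hcl ?_
  intro z hz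
  refine ⟨hz.1, ?_⟩
  show |eT z| ≤ max P.hd.B P.La
  by_contra hcon
  rw [not_le] at hcon
  exact FD_ne P hLa hz.1 (lt_of_le_of_lt (le_max_left _ _) hcon)
    (lt_of_le_of_lt (le_max_right _ _) hcon) hz.2

theorem topSpec_of (hFb : FbSpec) : TopSpec := by
  intro hd
  obtain ⟨T1, h1⟩ := isoFam_Fa hd
  obtain ⟨T2, h2⟩ := isoFam_FD hd
  obtain ⟨T3, h3⟩ := hFb hd
  refine ⟨max T1 (max T2 T3), fun T hT m n s0 s1 hP hs0 => ?_⟩
  obtain ⟨La1, k1⟩ := h1 T (le_trans (le_max_left _ _) hT)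
  obtain ⟨La2, k2⟩ := h2 T (le_trans (le_trans (le_max_left _ _) (le_max_right _ _)) hT)
  obtain ⟨La3, k3⟩ := h3 T (le_trans (le_trans (le_max_right _ _) (le_max_right _ _)) hT)
    m n s0 s1 hP hs0
  refine ⟨max (max La1 1) (max La2 La3), fun La hLa => ?_⟩
  have l1 : La1 ≤ La := le_trans (le_trans (le_max_left _ _) (le_max_left _ _)) hLa
  have l4 : (1 : ℝ) ≤ La := le_trans (le_trans (le_max_right _ _) (le_max_left _ _)) hLa
  have l2 : La2 ≤ La := le_trans (le_trans (le_max_left _ _) (le_max_right _ _)) hLa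
  have l3 : La3 ≤ La := le_trans (le_trans (le_max_right _ _) (le_max_right _ _)) hLa
  obtain ⟨rb0, hrb0, k4⟩ := k2 La l2
  refine ⟨rb0, hrb0, fun rb hr hrr P hPeq => ?_⟩
  obtain ⟨hreg, Φt, Ψt, a1, a2, a3, a4, a5, a6, a7, a8⟩ := k4 rb hr hrr P hPeq
  obtain ⟨Φa, Ψa, b1, b2, b3, b4, b5, b6, b7, b8⟩ := k1 La l1 rb P hPeq
  obtain ⟨Φb, Ψb, c1, c2, c3, c4, c5, c6, c7, c8⟩ := k3 La l3 rb P hPeq
  have hLa0 : 0 < P.La := by
    rw [hPeq]
    exact lt_of_lt_of_le one_pos l4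
  refine ⟨isMfd_M' P hreg, isCompact_M' P hLa0 hreg, fun z => Φt (Ψa (Ψb z)),
    fun z => Φb (Φa (Ψt z)), a1.comp (b2.comp c2), c1.comp (b1.comp a2), ?_, ?_, ?_, ?_⟩
  · intro z
    dsimp only
    rw [a3, b4, c4]
  · intro z
    dsimp only
    rw [c3, b3, a4]
  · intro z
    have key : ∀ z ∈ WS P.La, (P.Fb m n 1 z = 0 ↔ P.FD 1 (Φt (Ψa (Ψb z))) = 0) := by
      intro z hz
      have m1 : Ψb z ∈ WS P.La := c6 z hz
      have m2 : Ψa (Ψb z) ∈ WS P.La := b6 _ m1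
      have e1 := c8 (Ψb z) m1
      rw [c4] at e1
      have e2 := b8 (Ψa (Ψb z)) m2
      rw [b4] at e2
      have e3 := a8 (Ψa (Ψb z)) m2
      rw [← e3, FD_0 P m2, e2, Fa_Fb P m n, e1]
    have hinv : ∀ z, Φt (Ψa (Ψb z)) ∈ WS P.La → z ∈ WS P.La := by
      intro z hz
      have m1 := a6 _ hz
      rw [a3] at m1
      have m2 := b5 _ m1
      rw [b4] at m2
      have m3 := c5 _ m2
      rw [c4] at m3
      exact m3
    constructor
    · rintro ⟨hz, h0⟩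
      exact ⟨a5 _ (b6 _ (c6 _ hz)), (key z hz).1 h0⟩
    · rintro ⟨hz, h0⟩
      have hz' := hinv z hz
      exact ⟨hz', (key z hz').2 h0⟩
  · intro z hz
    have d1 := c7 z hz
    have d2 := b7 z hz
    have d3 := a7 z hz
    dsimp only
    rw [d1.2, d2.2, d3.1, d3.2, d2.1, d1.1]
    exact ⟨rfl, rfl⟩

end Pool.Agent.H34.SY
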