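import Pool.Agent.H34.SY.Geo

/-!
# Row WC: transition between the sides, closedness, compactness of `WS La`

`trans` is the change from side `N` to side `S` on `-1 < w₁ < 1` : `u_S = u/|u|^2`,
`z_S = z e^{iθ}`, `h_S = h e^{iθ}`, `e^{iθ} = u/|u|`.
On `WS La` with `-1 < w₁ < 1`: `u_N = w/(1+w₁)`, `u_S = w/(1-w₁)`, `|w|^2 = 1-w₁^2 ≠ 0`,
`u_N/|u_N|^2 = (w/(1+w₁)) (1+w₁)^2/|w|^2 = w (1+w₁)/((1-w₁)(1+w₁))`.  `v = (v₀, v₁)` with
`v₀ = z_N/n_N`, `v₁ = z_N u_N/n_N`, and `z_S = n_S v₁` (see row WB), `n_S = √(1+1/|u_N|^2) =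
n_N/|u_N|`, so `z_S = z_N u_N/|u_N|`.  All factors are real multiples; compute with
`nu`, `Complex.normSq`, `Complex.abs`/norm.  (If you prefer: it is enough to check
`psiS (trans p) = psiN p` for `fU p ≠ 0` and to apply `rhoS (psiS q) = q`, which may be reproved here.)
-/

open Set Topology
open scoped ContDiff ComplexConjugate

namespace Pool.Agent.H34.SY

noncomputable section

/-- Change of side. -/
def trans (p : FP) : FP :=
  (fT p, ((Complex.normSq (fU p))⁻¹ : ℝ) * fU p, fH0 p, ((‖fU p‖)⁻¹ : ℝ) * (fH p * fU p), fZe p,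
    ((‖fU p‖)⁻¹ : ℝ) * (fZ p * fU p), fS p)

theorem WC_ns (u : ℂ) (hu : u ≠ 0) :
    Complex.normSq (((Complex.normSq u)⁻¹ : ℝ) * u) = (Complex.normSq u)⁻¹ := by
  have h0 : Complex.normSq u ≠ 0 := (map_ne_zero Complex.normSq).2 hu
  rw [map_mul, Complex.normSq_ofReal]
  field_simp

theorem WC_nsq (u : ℂ) : ‖u‖ * ‖u‖ = Complex.normSq u := by
  rw [Complex.normSq_eq_norm_sq]
  ring

theorem WC_nu (u : ℂ) (hu : u ≠ 0) :
    nu (((Complex.normSq u)⁻¹ : ℝ) * u) = nu u / ‖u‖ := by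
  have h0 : 0 < Complex.normSq u := Complex.normSq_pos.2 hu
  unfold nu
  rw [WC_ns u hu]
  have h1 : ‖u‖ = Real.sqrt (Complex.normSq u) := by
    rw [Complex.normSq_eq_norm_sq, Real.sqrt_sq (norm_nonneg _)]
  rw [h1, ← Real.sqrt_div (by positivity)]
  congr 1
  field_simp
  ring

theorem WC_nup (u : ℂ) : 0 < nu u := by
  unfold nu
  apply Real.sqrt_pos.2
  have := Complex.normSq_nonneg u
  linarith

theorem WC_nu_sq (u : ℂ) : nu u * nu u = 1 + Complex.normSq u := by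
  unfold nu
  apply Real.mul_self_sqrt
  have := Complex.normSq_nonneg u
  linarith

theorem WC_mc (u : ℂ) : u * conj u = ((Complex.normSq u : ℝ) : ℂ) := Complex.mul_conj u

/-- first component -/
theorem WC_a (u z : ℂ) (hu : u ≠ 0) :
    (((nu (((Complex.normSq u)⁻¹ : ℝ) * u))⁻¹ : ℝ) : ℂ) *
      ((((‖u‖)⁻¹ : ℝ) : ℂ) * (z * u) * conj ((((Complex.normSq u)⁻¹ : ℝ) : ℂ) * u)) =
      (((nu u)⁻¹ : ℝ) : ℂ) * z := by
  have h0 : Complex.normSq u ≠ 0 := (map_ne_zero Complex.normSq).2 hu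
  have h1 : ‖u‖ ≠ 0 := norm_ne_zero_iff.2 hu
  have h2 := (WC_nup u).ne'
  rw [WC_nu u hu, map_mul, Complex.conj_ofReal]
  have h3 : ((((nu u / ‖u‖)⁻¹ : ℝ) : ℂ)) * ((((‖u‖)⁻¹ : ℝ) : ℂ) * (z * u) *
      ((((Complex.normSq u)⁻¹ : ℝ) : ℂ) * conj u)) =
      ((((nu u / ‖u‖)⁻¹ * (‖u‖)⁻¹ * (Complex.normSq u)⁻¹ : ℝ) : ℂ)) * z * (u * conj u) := by
    push_cast
    ring
  rw [h3, WC_mc]
  have h4 : ((nu u / ‖u‖)⁻¹ * (‖u‖)⁻¹ * (Complex.normSq u)⁻¹ : ℝ) =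
      (nu u)⁻¹ * (Complex.normSq u)⁻¹ := by
    field_simp
  rw [h4]
  have h5 : (((Complex.normSq u : ℝ)) : ℂ) ≠ 0 := Complex.ofReal_ne_zero.2 h0
  push_cast
  field_simp

/-- second component -/
theorem WC_b (u z : ℂ) (hu : u ≠ 0) :
    (((nu (((Complex.normSq u)⁻¹ : ℝ) * u))⁻¹ : ℝ) : ℂ) *
      ((((‖u‖)⁻¹ : ℝ) : ℂ) * (z * u)) = (((nu u)⁻¹ : ℝ) : ℂ) * (z * u) := by
  have h1 : ‖u‖ ≠ 0 := norm_ne_zero_iff.2 hu
  have h2 := (WC_nup u).ne'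
  rw [WC_nu u hu, ← mul_assoc, ← Complex.ofReal_mul]
  have h4 : ((nu u / ‖u‖)⁻¹ * (‖u‖)⁻¹ : ℝ) = (nu u)⁻¹ := by
    field_simp
  rw [h4]

theorem psiS_trans (p : FP) (hu : fU p ≠ 0) : psiS (trans p) = psiN p := by
  obtain ⟨t, u, h0, h, ze, z, s⟩ := p
  change u ≠ 0 at hu
  have hn : 0 < Complex.normSq u := Complex.normSq_pos.2 hu
  have e1 : (Complex.normSq (((Complex.normSq u)⁻¹ : ℝ) * u) - 1) /
      (Complex.normSq (((Complex.normSq u)⁻¹ : ℝ) * u) + 1) =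
      (1 - Complex.normSq u) / (1 + Complex.normSq u) := by
    rw [WC_ns u hu]
    field_simp
  have e2 : (((2 / (1 + Complex.normSq (((Complex.normSq u)⁻¹ : ℝ) * u)) : ℝ)) : ℂ) *
      ((((Complex.normSq u)⁻¹ : ℝ) : ℂ) * u) =
      (((2 / (1 + Complex.normSq u) : ℝ)) : ℂ) * u := by
    rw [WC_ns u hu, ← mul_assoc, ← Complex.ofReal_mul]
    congr 2
    field_simp
    ring
  unfold psiS psiN trans
  simp only [Prod.mk.injEq]
  exact ⟨trivial, e1, trivial, trivial, e2, trivial, WC_a u z hu, WC_b u z hu, WC_a u h hu,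
    WC_b u h hu⟩

theorem trans_mem {La : ℝ} {p : FP} (hp : p ∈ FPS La) (hu : fU p ≠ 0) : trans p ∈ FPS La := by
  obtain ⟨t, u, h0, h, ze, z, s⟩ := p
  change u ≠ 0 at hu
  obtain ⟨a1, a2, a3, a4⟩ := hp
  have hn : 0 < Complex.normSq u := Complex.normSq_pos.2 hu
  have h1 : ‖u‖ ≠ 0 := norm_ne_zero_iff.2 hu
  have hns : ∀ w : ℂ, Complex.normSq ((((‖u‖)⁻¹ : ℝ) : ℂ) * (w * u)) = Complex.normSq w := by
    intro w
    rw [map_mul, map_mul, Complex.normSq_ofReal, ← WC_nsq u]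
    field_simp
  change h0 ^ 2 + Complex.normSq h = 1 at a1
  change ((1 + h0 : ℝ) : ℂ) * z = h * ze at a2
  change ((1 - h0 : ℝ) : ℂ) * ze = conj h * z at a3
  change Complex.normSq ze + Complex.normSq z + s ^ 2 = La ^ 2 at a4
  refine ⟨?_, ?_, ?_, ?_⟩
  · show h0 ^ 2 + Complex.normSq ((((‖u‖)⁻¹ : ℝ) : ℂ) * (h * u)) = 1
    rw [hns]
    exact a1
  · show ((1 + h0 : ℝ) : ℂ) * ((((‖u‖)⁻¹ : ℝ) : ℂ) * (z * u)) =
      (((‖u‖)⁻¹ : ℝ) : ℂ) * (h * u) * ze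
    linear_combination ((((‖u‖)⁻¹ : ℝ) : ℂ) * u) * a2
  · show ((1 - h0 : ℝ) : ℂ) * ze = conj ((((‖u‖)⁻¹ : ℝ) : ℂ) * (h * u)) *
      ((((‖u‖)⁻¹ : ℝ) : ℂ) * (z * u))
    rw [a3, map_mul, map_mul, Complex.conj_ofReal]
    have h3 : (((‖u‖)⁻¹ : ℝ) : ℂ) * (conj h * conj u) * ((((‖u‖)⁻¹ : ℝ) : ℂ) * (z * u)) =
        ((((‖u‖)⁻¹ * (‖u‖)⁻¹ : ℝ)) : ℂ) * (u * conj u) * (conj h * z) := by
      push_cast
      ring
    rw [h3, WC_mc, ← Complex.ofReal_mul]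
    have h4 : ((‖u‖)⁻¹ * (‖u‖)⁻¹ * Complex.normSq u : ℝ) = 1 := by
      rw [← WC_nsq u]
      field_simp
    rw [h4, Complex.ofReal_one, one_mul]
  · show Complex.normSq ze + Complex.normSq ((((‖u‖)⁻¹ : ℝ) : ℂ) * (z * u)) + s ^ 2 = La ^ 2
    rw [hns]
    exact a4

theorem WC_c (u a b : ℂ) (hu : u ≠ 0) (hb : b = u * a) :
    (((nu (((Complex.normSq u)⁻¹ : ℝ) * u))⁻¹ : ℝ) : ℂ) *
      ((((Complex.normSq u)⁻¹ : ℝ) : ℂ) * u * a + b) =
      (((‖u‖)⁻¹ : ℝ) : ℂ) * ((((nu u)⁻¹ : ℝ) : ℂ) * (a + conj u * b) * u) := by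
  have hn : 0 < Complex.normSq u := Complex.normSq_pos.2 hu
  have h1 : ‖u‖ ≠ 0 := norm_ne_zero_iff.2 hu
  have h2 := (WC_nup u).ne'
  rw [WC_nu u hu, hb]
  have e1 : a + conj u * (u * a) = (((1 + Complex.normSq u : ℝ)) : ℂ) * a := by
    have := WC_mc u
    push_cast
    linear_combination a * this
  have e2 : (((Complex.normSq u)⁻¹ : ℝ) : ℂ) * u * a + u * a =
      ((((Complex.normSq u)⁻¹ + 1 : ℝ)) : ℂ) * (u * a) := by
    push_cast
    ring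
  rw [e1, e2]
  have e3 : ((((nu u / ‖u‖)⁻¹ : ℝ)) : ℂ) * (((((Complex.normSq u)⁻¹ + 1 : ℝ)) : ℂ) * (u * a)) =
      ((((nu u / ‖u‖)⁻¹ * ((Complex.normSq u)⁻¹ + 1) : ℝ)) : ℂ) * (u * a) := by
    push_cast
    ring
  have e4 : (((‖u‖)⁻¹ : ℝ) : ℂ) * ((((nu u)⁻¹ : ℝ) : ℂ) *
      ((((1 + Complex.normSq u : ℝ)) : ℂ) * a) * u) =
      (((‖u‖)⁻¹ * (nu u)⁻¹ * (1 + Complex.normSq u) : ℝ) : ℂ) * (u * a) := by
    push_cast
    ring
  rw [e3, e4]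
  congr 2
  rw [← WC_nsq u]
  field_simp

/-- On `WS La` (and `-1 < w₁ < 1`) the two projections differ by `trans`. -/
theorem rhoS_eq {La : ℝ} {z : EA} (hz : z ∈ WS La) (h1 : -1 < eW1 z) (h2 : eW1 z < 1) :
    fU (rhoN z) ≠ 0 ∧ rhoS z = trans (rhoN z) := by
  obtain ⟨t, w1, h0, s, w, ze, v0, v1, k0, k1⟩ := z
  change -1 < w1 at h1
  change w1 < 1 at h2
  obtain ⟨a1, a2, -, a4, -, -⟩ := hz
  change w1 ^ 2 + Complex.normSq w = 1 at a1
  change ((1 + w1 : ℝ) : ℂ) * v1 = w * v0 at a2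
  change ((1 + w1 : ℝ) : ℂ) * k1 = w * k0 at a4
  have hp : 0 < 1 + w1 := by linarith
  have hm : 0 < 1 - w1 := by linarith
  have hpC : ((1 + w1 : ℝ) : ℂ) ≠ 0 := Complex.ofReal_ne_zero.2 hp.ne'
  have hw : Complex.normSq w = (1 + w1) * (1 - w1) := by linarith [a1]
  have hw0 : w ≠ 0 := by
    intro h
    rw [h, map_zero] at hw
    have := mul_pos hp hm
    linarith
  set u : ℂ := (((1 + w1)⁻¹ : ℝ) : ℂ) * w with hu
  have hu0 : u ≠ 0 := by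
    rw [hu]
    exact mul_ne_zero (Complex.ofReal_ne_zero.2 (inv_ne_zero hp.ne')) hw0
  have hN : Complex.normSq u = (1 - w1) / (1 + w1) := by
    rw [hu, map_mul, Complex.normSq_ofReal, hw]
    field_simp
  have hus : (((1 - w1)⁻¹ : ℝ) : ℂ) * w = (((Complex.normSq u)⁻¹ : ℝ) : ℂ) * u := by
    rw [hN, hu, ← mul_assoc, ← Complex.ofReal_mul]
    congr 2
    field_simp
  have hv : v1 = u * v0 := by
    rw [hu, Complex.ofReal_inv, mul_assoc, ← a2]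
    field_simp
  have hk : k1 = u * k0 := by
    rw [hu, Complex.ofReal_inv, mul_assoc, ← a4]
    field_simp
  refine ⟨hu0, ?_⟩
  show (t, (((1 - w1)⁻¹ : ℝ) : ℂ) * w, h0,
      (((nu ((((1 - w1)⁻¹ : ℝ) : ℂ) * w))⁻¹ : ℝ) : ℂ) *
        ((((1 - w1)⁻¹ : ℝ) : ℂ) * w * k0 + k1), ze,
      (((nu ((((1 - w1)⁻¹ : ℝ) : ℂ) * w))⁻¹ : ℝ) : ℂ) *
        ((((1 - w1)⁻¹ : ℝ) : ℂ) * w * v0 + v1), s) =
    (t, (((Complex.normSq u)⁻¹ : ℝ) : ℂ) * u, h0,
      (((‖u‖)⁻¹ : ℝ) : ℂ) * ((((nu u)⁻¹ : ℝ) : ℂ) * (k0 + conj u * k1) * u), ze,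
      (((‖u‖)⁻¹ : ℝ) : ℂ) * ((((nu u)⁻¹ : ℝ) : ℂ) * (v0 + conj u * v1) * u), s)
  rw [hus, WC_c u k0 k1 hu0 hk, WC_c u v0 v1 hu0 hv]

theorem isClosed_WS (La : ℝ) : IsClosed (WS La) := by
  have hn : Continuous Complex.normSq := Complex.continuous_normSq
  unfold WS
  refine IsClosed.and (isClosed_eq (by fun_prop) continuous_const) ?_
  refine IsClosed.and (isClosed_eq (by fun_prop) (by fun_prop)) ?_
  refine IsClosed.and (isClosed_eq (by fun_prop) (by fun_prop)) ?_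
  refine IsClosed.and (isClosed_eq (by fun_prop) (by fun_prop)) ?_
  refine IsClosed.and (isClosed_eq (by fun_prop) (by fun_prop)) ?_
  refine IsClosed.and (isClosed_eq (by fun_prop) continuous_const) ?_
  refine IsClosed.and (isClosed_eq (by fun_prop) (by fun_prop)) ?_
  refine IsClosed.and (isClosed_eq (by fun_prop) (by fun_prop)) ?_
  refine IsClosed.and (isClosed_eq (by fun_prop) (by fun_prop)) ?_
  exact isClosed_eq (by fun_prop) continuous_const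

/-- Bounded part in the direction `t`. -/
theorem isCompact_WS (La r : ℝ) : IsCompact (WS La ∩ {z | |eT z| ≤ r}) := by
  refine Metric.isCompact_of_isClosed_isBounded
    ((isClosed_WS La).inter (isClosed_le (by fun_prop) continuous_const)) ?_
  refine (Metric.isBounded_closedBall (x := (0 : EA)) (r := |r| + 1 + |La|)).subset ?_
  rintro ⟨t, w1, h0, s, w, ze, v0, v1, k0, k1⟩ ⟨⟨a1, -, -, -, -, a6, -, -, -, a10⟩, hr⟩
  change w1 ^ 2 + Complex.normSq w = 1 at a1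
  change h0 ^ 2 + Complex.normSq k0 + Complex.normSq k1 = 1 at a6
  change Complex.normSq ze + Complex.normSq v0 + Complex.normSq v1 + s ^ 2 = La ^ 2 at a10
  change |t| ≤ r at hr
  rw [mem_closedBall_zero_iff]
  have c1 := abs_nonneg r
  have c2 := abs_nonneg La
  have n1 := Complex.normSq_nonneg w
  have n2 := Complex.normSq_nonneg k0
  have n3 := Complex.normSq_nonneg k1
  have n4 := Complex.normSq_nonneg ze
  have n5 := Complex.normSq_nonneg v0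
  have n6 := Complex.normSq_nonneg v1
  have s1 := sq_nonneg w1
  have s2 := sq_nonneg h0
  have s3 := sq_nonneg s
  have b1 : ∀ x : ℝ, x ^ 2 ≤ 1 → ‖x‖ ≤ |r| + 1 + |La| := by
    intro x hx
    have : |x| ≤ 1 := by
      rw [← sq_le_one_iff_abs_le_one]
      exact hx
    rw [Real.norm_eq_abs]
    linarith
  have b2 : ∀ x : ℝ, x ^ 2 ≤ La ^ 2 → ‖x‖ ≤ |r| + 1 + |La| := by
    intro x hx
    have : |x| ≤ |La| := sq_le_sq.1 hx
    rw [Real.norm_eq_abs]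
    linarith
  have b3 : ∀ x : ℂ, Complex.normSq x ≤ 1 → ‖x‖ ≤ |r| + 1 + |La| := by
    intro x hx
    rw [Complex.normSq_eq_norm_sq] at hx
    have := b1 ‖x‖ hx
    rwa [norm_norm] at this
  have b4 : ∀ x : ℂ, Complex.normSq x ≤ La ^ 2 → ‖x‖ ≤ |r| + 1 + |La| := by
    intro x hx
    rw [Complex.normSq_eq_norm_sq] at hx
    have := b2 ‖x‖ hx
    rwa [norm_norm] at this
  simp only [norm_prod_le_iff]
  refine ⟨?_, b1 _ (by linarith), b1 _ (by linarith), b2 _ (by linarith), b3 _ (by linarith),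
    b4 _ (by linarith), b4 _ (by linarith), b4 _ (by linarith), b3 _ (by linarith),
    b3 _ (by linarith)⟩
  rw [Real.norm_eq_abs]
  have := le_abs_self r
  linarith

end

end Pool.Agent.H34.SY
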