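import Pool.Agent.H34.SY.Defs

open Set Topology
open scoped ContDiff

namespace Pool.Agent.H34.SY

/-- Statement of the regular family lemma (block RF). -/
def RFStatement : Prop :=
  ∀ (E H : Type) [NormedAddCommGroup E] [NormedSpace ℝ E] [FiniteDimensional ℝ E]
    [NormedAddCommGroup H] [NormedSpace ℝ H] [FiniteDimensional ℝ H]
    (X : Set E) (F : ℝ → E → ℝ) (K O : Set E) (η : ℝ),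
    IsClosed X → IsCompact K → IsOpen O → K ⊆ O → 0 < η →
    (∀ z ∈ X, ∃ (U : Set E) (V : Set H) (ρ : E → H) (ψ : H → E), z ∈ U ∧ IsChart X U V ρ ψ ∧
      ContDiffOn ℝ ∞ (fun p : ℝ × H => F p.1 (ψ p.2)) (univ ×ˢ V) ∧
      ∀ τ ∈ Icc (0 : ℝ) 1, ∀ v ∈ V, F τ (ψ v) = 0 → fderiv ℝ (fun w => F τ (ψ w)) v ≠ 0) →
    (∀ z ∈ X, z ∉ K → (∀ τ ∈ Icc (0 : ℝ) 1, F τ z = F 0 z) ∨ (∀ τ ∈ Icc (0 : ℝ) 1, η ≤ |F τ z|)) →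
    ∃ Φ Ψ : E → E, ContDiff ℝ ∞ Φ ∧ ContDiff ℝ ∞ Ψ ∧ (∀ z, Ψ (Φ z) = z) ∧ (∀ z, Φ (Ψ z) = z) ∧
      (∀ z ∈ X, Φ z ∈ X) ∧ (∀ z ∈ X, Ψ z ∈ X) ∧ (∀ z, z ∉ O → Φ z = z ∧ Ψ z = z) ∧
      ∀ z ∈ X, (F 0 z = 0 ↔ F 1 (Φ z) = 0)

end Pool.Agent.H34.SY
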