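import Pool.Agent.H34.SY.TCH
import Pool.Agent.H34.SY.WC
import Pool.Agent.H34.SY.CG
import Pool.Agent.H34.SY.Spec
import Pool.Agent.H64.SYRF.Main

open Set Topology
open scoped ContDiff ComplexConjugate

/-!
# Row TA: general lemmas of block TOP

`RegAt La F z`: a chart of `WS La` at `z` in which the family `F` is smooth and regular (`τ ∈ [0, 1]`).
`IsoFam La F`: ambient diffeomorphism carrying `F 0 = 0` to `F 1 = 0` on `WS La`.

* `isoFam_of`: apply `Pool.Agent.H64.SYRF.rf` with `E = EA`, `H = H7`, `X = WS La` (`isClosed_WS`), `K = WS La ∩ {|eT z| ≤ t0} ∩ {eS z ≤ -2}`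
  (compact by `isCompact_WS`), `O = {eS z < -1}`.
* `regAt_chart`: `H` has dimension 7, so there is `e : H ≃L[ℝ] H7` (`ContinuousLinearEquiv.ofFinrankEq`); chart `IsChart.equiv`;
  `fderiv` nonzero since its value on the tangent vector of the curve is `d ≠ 0` (chain rule, smoothness).
* `regAt_N`, `regAt_S`: `regAt_chart` with `chart_N`, `chart_S`.
* `regAt_lin`: chart from `exists_tchart` at `rhoN z` (or `rhoS z` if `eW1 z ≤ -1`), `IsChart.restrict` to `W`; there the family is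
  `t - Re ζ`, and the coordinate `t = v.1` is a product factor (`TChart.c_t`), so the derivative along `s ↦ (v.1 + s, v.2)` is `1`
  (use `ψ (v.1 + s, v.2) = psiN (v.1 + s, (c v).2)`; inside the restricted domain for small `s`).
-/

namespace Pool.Agent.H34.SY

noncomputable section

/-- There is a chart of `WS La` at `z` in which the family `F` is smooth and regular. -/
def RegAt (La : ℝ) (F : ℝ → EA → ℝ) (z : EA) : Prop :=
  ∃ (U : Set EA) (V : Set H7) (ρ : EA → H7) (ψ : H7 → EA), z ∈ U ∧ IsChart (WS La) U V ρ ψ ∧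
    ContDiffOn ℝ ∞ (fun p : ℝ × H7 => F p.1 (ψ p.2)) (univ ×ˢ V) ∧
    ∀ τ ∈ Icc (0 : ℝ) 1, ∀ v ∈ V, F τ (ψ v) = 0 → fderiv ℝ (fun w => F τ (ψ w)) v ≠ 0

/-- An ambient diffeomorphism carries the zero set of `F 0` to the zero set of `F 1`. -/
def IsoFam (La : ℝ) (F : ℝ → EA → ℝ) : Prop :=
  ∃ Φ Ψ : EA → EA, ContDiff ℝ ∞ Φ ∧ ContDiff ℝ ∞ Ψ ∧ (∀ z, Ψ (Φ z) = z) ∧ (∀ z, Φ (Ψ z) = z) ∧
    (∀ z ∈ WS La, Φ z ∈ WS La) ∧ (∀ z ∈ WS La, Ψ z ∈ WS La) ∧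
    (∀ z, -1 ≤ eS z → Φ z = z ∧ Ψ z = z) ∧ ∀ z ∈ WS La, (F 0 z = 0 ↔ F 1 (Φ z) = 0)

theorem TA_contT : Continuous eT := continuous_fst

theorem TA_contS : Continuous eS := continuous_fst.comp
  (continuous_snd.comp (continuous_snd.comp continuous_snd))

theorem isoFam_of {La : ℝ} (F : ℝ → EA → ℝ) (hreg : ∀ z ∈ WS La, RegAt La F z)
    (t0 η : ℝ) (hη : 0 < η)
    (hout : ∀ z ∈ WS La, t0 < |eT z| ∨ -2 < eS z →
      (∀ τ ∈ Icc (0 : ℝ) 1, F τ z = F 0 z) ∨ (∀ τ ∈ Icc (0 : ℝ) 1, η ≤ |F τ z|)) :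
    IsoFam La F := by
  have hK : IsCompact (WS La ∩ {z | |eT z| ≤ t0} ∩ {z | eS z ≤ -2}) :=
    (isCompact_WS La t0).inter_right (isClosed_le TA_contS continuous_const)
  have hO : IsOpen {z : EA | eS z < -1} := isOpen_lt TA_contS continuous_const
  obtain ⟨Φ, Ψ, h1, h2, h3, h4, h5, h6, h7, h8⟩ := Pool.Agent.H64.SYRF.rf EA H7 (WS La) F
    (WS La ∩ {z | |eT z| ≤ t0} ∩ {z | eS z ≤ -2}) {z : EA | eS z < -1} η (isClosed_WS La) hK hO
    (fun z hz => by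
      have : eS z ≤ -2 := hz.2
      show eS z < -1
      linarith) hη hreg
    (fun z hz hzK => hout z hz (by
      by_contra hcon
      push Not at hcon
      exact hzK ⟨⟨hz, hcon.1⟩, hcon.2⟩))
  exact ⟨Φ, Ψ, h1, h2, h3, h4, h5, h6, fun z hz => h7 z (not_lt.2 hz), h8⟩

theorem finrank_H7 : Module.finrank ℝ H7 = 7 := by
  simp [Complex.finrank_real_complex]

theorem regAt_chart {H : Type} [NormedAddCommGroup H] [NormedSpace ℝ H] [FiniteDimensional ℝ H]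
    (hH : Module.finrank ℝ H = 7) {La : ℝ} {U : Set EA} {V : Set H} {ρ : EA → H} {ψ : H → EA}
    (hc : IsChart (WS La) U V ρ ψ) (F : ℝ → EA → ℝ) {z : EA} (hzU : z ∈ U) (G : ℝ → H → ℝ)
    (hG : ∀ τ, ∀ v ∈ V, F τ (ψ v) = G τ v)
    (hs : ContDiffOn ℝ ∞ (fun p : ℝ × H => G p.1 p.2) (univ ×ˢ V))
    (hr : ∀ τ ∈ Icc (0 : ℝ) 1, ∀ v ∈ V, G τ v = 0 → ∃ (γ : ℝ → H) (γ' : H) (d : ℝ),
      γ 0 = v ∧ HasDerivAt γ γ' 0 ∧ HasDerivAt (fun t => G τ (γ t)) d 0 ∧ d ≠ 0) :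
    RegAt La F z := by
  let e : H ≃L[ℝ] H7 := ContinuousLinearEquiv.ofFinrankEq (by rw [hH, finrank_H7])
  have hch := hc.equiv e
  refine ⟨U, e.symm ⁻¹' V, fun z => e (ρ z), fun v => ψ (e.symm v), hzU, hch, ?_, ?_⟩
  · have h1 : ContDiffOn ℝ ∞ (fun p : ℝ × H7 => ((p.1, e.symm p.2) : ℝ × H))
        (univ ×ˢ (e.symm ⁻¹' V)) :=
      (contDiff_fst.prodMk (e.symm.contDiff.comp contDiff_snd)).contDiffOn
    have h2 := hs.comp h1 (fun p hp => ⟨mem_univ _, hp.2⟩)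
    exact h2.congr (fun p hp => hG p.1 _ hp.2)
  · intro τ hτ v hv h0 hzero
    have hv' : e.symm v ∈ V := hv
    obtain ⟨γ, γ', d, g0, g1, g2, g3⟩ := hr τ hτ (e.symm v) hv' (by rw [← hG τ _ hv']; exact h0)
    have hsv : ContDiffOn ℝ ∞ (fun w : H7 => F τ (ψ (e.symm w))) (e.symm ⁻¹' V) := by
      have h1 : ContDiffOn ℝ ∞ (fun w : H7 => ((τ, e.symm w) : ℝ × H)) (e.symm ⁻¹' V) :=
        (contDiff_const.prodMk e.symm.contDiff).contDiffOn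
      have h2 := hs.comp h1 (fun p hp => ⟨mem_univ _, hp⟩)
      exact h2.congr (fun p hp => hG τ _ hp)
    have hd : DifferentiableAt ℝ (fun w : H7 => F τ (ψ (e.symm w))) v :=
      (hsv.contDiffAt (hch.isOpen_V.mem_nhds hv)).differentiableAt (by simp)
    have hf := hd.hasFDerivAt
    have e0 : e (γ 0) = v := by rw [g0, e.apply_symm_apply]
    have hγ : HasDerivAt (fun t => e (γ t)) (e γ') 0 :=
      (e : H →L[ℝ] H7).hasFDerivAt.comp_hasDerivAt (0 : ℝ) g1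
    have hf' : HasFDerivAt (fun w : H7 => F τ (ψ (e.symm w)))
        (fderiv ℝ (fun w : H7 => F τ (ψ (e.symm w))) v) (e (γ 0)) := by rw [e0]; exact hf
    have h5 := hf'.comp_hasDerivAt (0 : ℝ) hγ
    have hev : (fun t => G τ (γ t)) =ᶠ[𝓝 0]
        ((fun w : H7 => F τ (ψ (e.symm w))) ∘ fun t => e (γ t)) := by
      have hV : V ∈ 𝓝 (γ 0) := by rw [g0]; exact hc.isOpen_V.mem_nhds hv'
      filter_upwards [g1.continuousAt hV] with t ht
      show _ = F τ (ψ (e.symm (e (γ t))))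
      rw [e.symm_apply_apply]
      exact (hG τ _ ht).symm
    have h6 := h5.congr_of_eventuallyEq hev
    have h7 := g2.unique h6
    apply g3
    rw [h7]
    have : fderiv ℝ (fun w : H7 => F τ (ψ (e.symm w))) v = 0 := hzero
    rw [this]
    rfl

theorem regAt_N {H : Type} [NormedAddCommGroup H] [NormedSpace ℝ H] [FiniteDimensional ℝ H]
    (hH : Module.finrank ℝ H = 7) {La : ℝ} {U : Set FP} {V : Set H} {ρ : FP → H} {c : H → FP}
    (hc : IsChart (FPS La) U V ρ c) (F : ℝ → EA → ℝ) {z : EA} (h1 : -1 < eW1 z)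
    (hzU : rhoN z ∈ U) (G : ℝ → H → ℝ)
    (hG : ∀ τ, ∀ v ∈ V, F τ (psiN (c v)) = G τ v)
    (hs : ContDiffOn ℝ ∞ (fun p : ℝ × H => G p.1 p.2) (univ ×ˢ V))
    (hr : ∀ τ ∈ Icc (0 : ℝ) 1, ∀ v ∈ V, G τ v = 0 → ∃ (γ : ℝ → H) (γ' : H) (d : ℝ),
      γ 0 = v ∧ HasDerivAt γ γ' 0 ∧ HasDerivAt (fun t => G τ (γ t)) d 0 ∧ d ≠ 0) :
    RegAt La F z :=
  regAt_chart hH (chart_N hc) F ⟨h1, hzU⟩ G hG hs hr

theorem regAt_S {H : Type} [NormedAddCommGroup H] [NormedSpace ℝ H] [FiniteDimensional ℝ H]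
    (hH : Module.finrank ℝ H = 7) {La : ℝ} {U : Set FP} {V : Set H} {ρ : FP → H} {c : H → FP}
    (hc : IsChart (FPS La) U V ρ c) (F : ℝ → EA → ℝ) {z : EA} (h1 : eW1 z < 1)
    (hzU : rhoS z ∈ U) (G : ℝ → H → ℝ)
    (hG : ∀ τ, ∀ v ∈ V, F τ (psiS (c v)) = G τ v)
    (hs : ContDiffOn ℝ ∞ (fun p : ℝ × H => G p.1 p.2) (univ ×ˢ V))
    (hr : ∀ τ ∈ Icc (0 : ℝ) 1, ∀ v ∈ V, G τ v = 0 → ∃ (γ : ℝ → H) (γ' : H) (d : ℝ),
      γ 0 = v ∧ HasDerivAt γ γ' 0 ∧ HasDerivAt (fun t => G τ (γ t)) d 0 ∧ d ≠ 0) :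
    RegAt La F z :=
  regAt_chart hH (chart_S hc) F ⟨h1, hzU⟩ G hG hs hr

/-- The linear family in a chart with the product factor `t`. -/
theorem TA_lin {La : ℝ} {U0 : Set FP} {V : Set H7} {ρ0 : FP → H7} {c : H7 → FP}
    (ht : TChart La U0 V ρ0 c) {U : Set EA} {ρ : EA → H7} {ψ : H7 → EA}
    (hc : IsChart (WS La) U V ρ ψ) (hT : ∀ v, eT (ψ v) = fT (c v)) (hZ : ∀ v, eZe (ψ v) = fZe (c v))
    (F : ℝ → EA → ℝ) {z : EA} (hzU : z ∈ U) (W : Set EA) (hW : IsOpen W) (hzW : z ∈ W)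
    (h : ∀ y ∈ WS La ∩ W, ∀ τ, F τ y = eT y - (eZe y).re) : RegAt La F z := by
  refine regAt_chart finrank_H7 (hc.restrict hW) F ⟨hzU, hzW⟩
    (fun _ v => fT (c v) - (fZe (c v)).re) ?_ ?_ ?_
  · rintro τ v ⟨hv, hvW⟩
    rw [h (ψ v) ⟨(hc.maps_ψ v hv).1, hvW⟩ τ, hT, hZ]
  · have hcs : ContDiffOn ℝ ∞ c V := ht.chart.smooth_ψ
    have h1 : ContDiffOn ℝ ∞ (fun v => fT (c v) - (fZe (c v)).re) V :=
      ((contDiff_fst.comp_contDiffOn hcs)).sub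
        ((Complex.reCLM.contDiff.comp (contDiff_fst.comp (contDiff_snd.comp (contDiff_snd.comp
          (contDiff_snd.comp contDiff_snd))))).comp_contDiffOn hcs)
    exact h1.comp contDiff_snd.contDiffOn (fun p hp => hp.2.1)
  · rintro τ _ v ⟨hv, _⟩ _
    refine ⟨fun t => (v.1 + t, v.2), (1, 0), 1, by simp, ?_, ?_, one_ne_zero⟩
    · exact ((hasDerivAt_id (0 : ℝ)).const_add v.1).prodMk (hasDerivAt_const (0 : ℝ) v.2)
    · have e : (fun t : ℝ => fT (c (v.1 + t, v.2)) - (fZe (c (v.1 + t, v.2))).re) =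
          fun t : ℝ => v.1 + t - (fZe (c v)).re := by
        funext t
        rw [ht.c_t v (v.1 + t)]
      show HasDerivAt (fun t : ℝ => fT (c (v.1 + t, v.2)) - (fZe (c (v.1 + t, v.2))).re) 1 0
      rw [e]
      exact ((hasDerivAt_id (0 : ℝ)).const_add v.1).sub_const _

theorem regAt_lin {La : ℝ} (hLa : 0 < La) (F : ℝ → EA → ℝ) {z : EA} (hz : z ∈ WS La)
    (W : Set EA) (hW : IsOpen W) (hzW : z ∈ W)
    (h : ∀ y ∈ WS La ∩ W, ∀ τ, F τ y = eT y - (eZe y).re) : RegAt La F z := by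
  rcases lt_or_ge (-1) (eW1 z) with h1 | h1
  · obtain ⟨U, V, ρ, c, hU, ht⟩ := exists_tchart hLa (rhoN_mem hz h1).1
    exact TA_lin ht (chart_N ht.chart) (fun _ => rfl) (fun _ => rfl) F ⟨h1, hU⟩ W hW hzW h
  · have h2 : eW1 z < 1 := by linarith
    obtain ⟨U, V, ρ, c, hU, ht⟩ := exists_tchart hLa (rhoS_mem hz h2).1
    exact TA_lin ht (chart_S ht.chart) (fun _ => rfl) (fun _ => rfl) F ⟨h2, hU⟩ W hW hzW h

end

end Pool.Agent.H34.SY
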