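import Pool.Agent.H34.SY.Geo

/-!
# Row WB: the two sides of `WS La`

`psiN`, `rhoN` are inverse bijections between `FPS La` and `WS La ∩ {-1 < w₁}`; same for `psiS`,
`rhoS` and `WS La ∩ {w₁ < 1}`.

Side `N`: on `WS La` with `-1 < w₁` put `u = w/(1+w₁)`; then `|u|^2 = (1-w₁)/(1+w₁)`,
`1+|u|^2 = 2/(1+w₁)`, `v₁ = u v₀`, `k₁ = u k₀`; `n = nu u = √(1+|u|^2)`, `z = (v₀ + conj u v₁)/n =
v₀ (1+|u|^2)/n = n v₀`, `h = n k₀`.  So `v₀ = z/n`, `v₁ = z u/n` etc., `|v₀|^2+|v₁|^2 = |z|^2`,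
`|k₀|^2+|k₁|^2 = |h|^2`, `conj k₀ v₀ + conj k₁ v₁ = conj h z`.
Side `S`: `u = w/(1-w₁)`, `|u|^2 = (1+w₁)/(1-w₁)`, `v₀ = conj u v₁` (from `(1-w₁) v₀ = conj w v₁`),
`z = (u v₀ + v₁)/n = n v₁`, `h = n k₁`.
The identities `rhoN (psiN p) = p`, `rhoS (psiS p) = p` hold for all `p : FP`.

Smoothness: `nu u > 0` always, `Real.sqrt` of a positive smooth function.  The last two statements
are formal consequences (composition of charts).
-/

open Set Topology
open scoped ContDiff ComplexConjugate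

namespace Pool.Agent.H34.SY

theorem nu_pos (u : ℂ) : 0 < nu u := by
  unfold nu
  exact Real.sqrt_pos.2 (by have := Complex.normSq_nonneg u; linarith)

lemma WB_nu_sq (u : ℂ) : nu u ^ 2 = 1 + Complex.normSq u := by
  unfold nu
  exact Real.sq_sqrt (by have := Complex.normSq_nonneg u; linarith)

lemma WB_key (u : ℂ) : (((nu u)⁻¹ : ℝ) : ℂ) ^ 2 * (1 + u * conj u) = 1 := by
  have h := WB_nu_sq u
  have hp := nu_pos u
  rw [Complex.mul_conj]
  have h2 : ((nu u)⁻¹) ^ 2 * (1 + Complex.normSq u) = 1 := by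
    rw [← h]; field_simp
  exact_mod_cast h2

lemma WB_keyR (u : ℂ) : ((nu u)⁻¹) ^ 2 * (1 + Complex.normSq u) = 1 := by
  have h := WB_nu_sq u
  have hp := nu_pos u
  rw [← h]; field_simp

lemma WB_recov (u h : ℂ) : (((nu u)⁻¹ : ℝ) : ℂ) * ((((nu u)⁻¹ : ℝ) : ℂ) * h +
    conj u * ((((nu u)⁻¹ : ℝ) : ℂ) * (h * u))) = h := by
  linear_combination h * WB_key u

lemma WB_u (u : ℂ) : (((1 + (1 - Complex.normSq u) / (1 + Complex.normSq u))⁻¹ : ℝ) : ℂ) *
    (((2 / (1 + Complex.normSq u) : ℝ) : ℂ) * u) = u := by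
  have hN := Complex.normSq_nonneg u
  have h1 : (1 + (1 - Complex.normSq u) / (1 + Complex.normSq u))⁻¹ *
      (2 / (1 + Complex.normSq u)) = 1 := by
    have h0 : (1 + Complex.normSq u) ≠ 0 := by positivity
    have h2 : 1 + (1 - Complex.normSq u) / (1 + Complex.normSq u) = 2 / (1 + Complex.normSq u) := by
      field_simp; ring
    rw [h2]; field_simp
  rw [← mul_assoc, ← Complex.ofReal_mul, h1, Complex.ofReal_one, one_mul]

theorem rhoN_psiN (p : FP) : rhoN (psiN p) = p := by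
  obtain ⟨t, u, h0, h, ze, z, s⟩ := p
  simp only [rhoN, psiN, fT, fU, fH0, fH, fZe, fZ, fS, eT, eW1, eH0, eS, eW, eZe, eV0, eV1, eK0,
    eK1]
  rw [WB_u]
  simp only [Prod.mk.injEq, true_and, and_true]
  exact ⟨WB_recov u h, WB_recov u z⟩

/-- symmetry of the two sides -/
def WB_sig (z : EA) : EA :=
  (eT z, -eW1 z, eH0 z, eS z, conj (eW z), eZe z, eV1 z, eV0 z, eK1 z, eK0 z)

/-- symmetry of the side coordinates -/
def WB_sip (p : FP) : FP := (fT p, conj (fU p), fH0 p, fH p, fZe p, fZ p, fS p)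

lemma WB_sip_sip (p : FP) : WB_sip (WB_sip p) = p := by
  obtain ⟨t, u, h0, h, ze, z, s⟩ := p
  simp only [WB_sip, fT, fU, fH0, fH, fZe, fZ, fS, Complex.conj_conj]

lemma WB_sig_sig (z : EA) : WB_sig (WB_sig z) = z := by
  obtain ⟨t, w1, h0, s, w, ze, v0, v1, k0, k1⟩ := z
  simp only [WB_sig, eT, eW1, eH0, eS, eW, eZe, eV0, eV1, eK0, eK1, Complex.conj_conj, neg_neg]

lemma WB_nu_conj (u : ℂ) : nu (conj u) = nu u := by
  unfold nu; rw [Complex.normSq_conj]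

lemma WB_psiS (p : FP) : psiS p = WB_sig (psiN (WB_sip p)) := by
  obtain ⟨t, u, h0, h, ze, z, s⟩ := p
  simp only [WB_sig, WB_sip, psiS, psiN, fT, fU, fH0, fH, fZe, fZ, fS, eT, eW1, eH0, eS, eW, eZe,
    eV0, eV1, eK0, eK1, WB_nu_conj, Complex.normSq_conj, map_mul, Complex.conj_conj,
    Complex.conj_ofReal, Prod.mk.injEq, true_and, and_true]
  rw [← neg_div, neg_sub, add_comm (Complex.normSq u) 1]

lemma WB_rhoS (z : EA) : rhoS z = WB_sip (rhoN (WB_sig z)) := by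
  obtain ⟨t, w1, h0, s, w, ze, v0, v1, k0, k1⟩ := z
  have e : (((1 + -w1)⁻¹ : ℝ) : ℂ) * conj w = conj ((((1 - w1)⁻¹ : ℝ) : ℂ) * w) := by
    rw [map_mul, Complex.conj_ofReal, sub_eq_add_neg]
  simp only [WB_sig, WB_sip, rhoS, rhoN, fT, fU, fH0, fH, fZe, fZ, fS, eT, eW1, eH0, eS, eW, eZe,
    eV0, eV1, eK0, eK1]
  rw [e]
  simp only [Complex.conj_conj, WB_nu_conj, Prod.mk.injEq, true_and, and_true]
  exact ⟨by rw [add_comm], by rw [add_comm]⟩

theorem rhoS_psiS (p : FP) : rhoS (psiS p) = p := by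
  rw [WB_psiS, WB_rhoS, WB_sig_sig, rhoN_psiN, WB_sip_sip]

lemma WB_sip_mem {La : ℝ} {p : FP} (hp : p ∈ FPS La) : WB_sip p ∈ FPS La := hp

lemma WB_sig_mem {La : ℝ} {z : EA} (hz : z ∈ WS La) : WB_sig z ∈ WS La := by
  obtain ⟨t, w1, h0, s, w, ze, v0, v1, k0, k1⟩ := z
  simp only [WS, mem_ofPred_eq, WB_sig, eT, eW1, eH0, eS, eW, eZe, eV0, eV1, eK0, eK1] at hz ⊢
  obtain ⟨h1, h2, h3, h4, h5, h6, h7, h8, h9, h10⟩ := hz
  refine ⟨?_, ?_, ?_, ?_, ?_, ?_, h8, h7, ?_, ?_⟩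
  · rw [Complex.normSq_conj, neg_sq]; exact h1
  · rw [← sub_eq_add_neg]; exact h3
  · rw [sub_neg_eq_add, Complex.conj_conj]; exact h2
  · rw [← sub_eq_add_neg]; exact h5
  · rw [sub_neg_eq_add, Complex.conj_conj]; exact h4
  · linarith
  · rw [h9]; ring
  · linarith

theorem psiN_mem {La : ℝ} {p : FP} (hp : p ∈ FPS La) : psiN p ∈ WS La ∧ -1 < eW1 (psiN p) := by
  obtain ⟨t, u, h0, h, ze, z, s⟩ := p
  simp only [FPS, mem_ofPred_eq, fT, fU, fH0, fH, fZe, fZ, fS] at hp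
  obtain ⟨p1, p2, p3, p4⟩ := hp
  have hN := Complex.normSq_nonneg u
  have hN0 : (1 + Complex.normSq u) ≠ 0 := by positivity
  have e1 : 1 + (1 - Complex.normSq u) / (1 + Complex.normSq u) = 2 / (1 + Complex.normSq u) := by
    field_simp; ring
  have e2 : 1 - (1 - Complex.normSq u) / (1 + Complex.normSq u) =
      2 / (1 + Complex.normSq u) * Complex.normSq u := by
    field_simp; ring
  have hK := WB_key u
  have hKR := WB_keyR u
  have nz : ∀ x : ℂ, Complex.normSq ((((nu u)⁻¹ : ℝ) : ℂ) * x) +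
      Complex.normSq ((((nu u)⁻¹ : ℝ) : ℂ) * (x * u)) = Complex.normSq x := by
    intro x
    rw [Complex.normSq_mul, Complex.normSq_mul, Complex.normSq_mul, Complex.normSq_ofReal]
    linear_combination Complex.normSq x * hKR
  constructor
  · simp only [WS, psiN, mem_ofPred_eq, fT, fU, fH0, fH, fZe, fZ, fS, eT, eW1, eH0, eS, eW, eZe,
      eV0, eV1, eK0, eK1]
    refine ⟨?_, ?_, ?_, ?_, ?_, ?_, ?_, ?_, ?_, ?_⟩
    · rw [Complex.normSq_mul, Complex.normSq_ofReal]; field_simp; ring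
    · rw [e1]; ring
    · rw [e2, map_mul, Complex.conj_ofReal, Complex.ofReal_mul, ← Complex.mul_conj]; ring
    · rw [e1]; ring
    · rw [e2, map_mul, Complex.conj_ofReal, Complex.ofReal_mul, ← Complex.mul_conj]; ring
    · rw [add_assoc, nz]; exact p1
    · linear_combination (((nu u)⁻¹ : ℝ) : ℂ) * p2
    · linear_combination (((nu u)⁻¹ : ℝ) : ℂ) * u * p2
    · rw [p3, map_mul, map_mul, map_mul, Complex.conj_ofReal]
      linear_combination (-(conj h * z)) * hK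
    · rw [add_assoc (Complex.normSq ze), nz]; exact p4
  · simp only [psiN, eW1, fU]
    rw [lt_div_iff₀ (by positivity)]; linarith

theorem psiS_mem {La : ℝ} {p : FP} (hp : p ∈ FPS La) : psiS p ∈ WS La ∧ eW1 (psiS p) < 1 := by
  have h := psiN_mem (WB_sip_mem hp)
  rw [WB_psiS]
  refine ⟨WB_sig_mem h.1, ?_⟩
  have := h.2
  simp only [WB_sig, eW1] at this ⊢
  linarith

theorem rhoN_mem {La : ℝ} {z : EA} (hz : z ∈ WS La) (h : -1 < eW1 z) :
    rhoN z ∈ FPS La ∧ psiN (rhoN z) = z := by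
  obtain ⟨t, w1, h0, s, w, ze, v0, v1, k0, k1⟩ := z
  simp only [WS, mem_ofPred_eq, eT, eW1, eH0, eS, eW, eZe, eV0, eV1, eK0, eK1] at hz h
  obtain ⟨h1, h2, h3, h4, h5, h6, h7, h8, h9, h10⟩ := hz
  have hw : 0 < 1 + w1 := by linarith
  have hw0 : (1 + w1) ≠ 0 := hw.ne'
  have hwC : ((1 + w1 : ℝ) : ℂ) ≠ 0 := by exact_mod_cast hw0
  obtain ⟨u, hu⟩ : ∃ u : ℂ, u = (((1 + w1)⁻¹ : ℝ) : ℂ) * w := ⟨_, rfl⟩
  have hwu : w = ((1 + w1 : ℝ) : ℂ) * u := by
    rw [hu, ← mul_assoc, ← Complex.ofReal_mul, mul_inv_cancel₀ hw0, Complex.ofReal_one, one_mul]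
  have hN : Complex.normSq u = (1 - w1) / (1 + w1) := by
    rw [hwu, Complex.normSq_mul, Complex.normSq_ofReal] at h1
    rw [eq_div_iff hw0]
    have : (1 + w1) * ((1 + w1) * Complex.normSq u) = (1 + w1) * (1 - w1) := by nlinarith
    have := mul_left_cancel₀ hw0 this
    linarith
  have hN1 : 1 + Complex.normSq u = 2 / (1 + w1) := by rw [hN]; field_simp; ring
  have hv : v1 = u * v0 := by
    rw [hwu, mul_assoc] at h2
    exact mul_left_cancel₀ hwC h2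
  have hk : k1 = u * k0 := by
    rw [hwu, mul_assoc] at h4
    exact mul_left_cancel₀ hwC h4
  obtain ⟨n, hn⟩ : ∃ n : ℝ, n = nu u := ⟨_, rfl⟩
  have hn0 : 0 < n := by rw [hn]; exact nu_pos u
  have hn2 : n ^ 2 = 1 + Complex.normSq u := by rw [hn]; exact WB_nu_sq u
  have hnC : (n : ℂ) ≠ 0 := by exact_mod_cast hn0.ne'
  have hn2C : (n : ℂ) ^ 2 = 1 + u * conj u := by
    rw [Complex.mul_conj]; exact_mod_cast hn2
  have hx : ∀ x : ℂ, ((n⁻¹ : ℝ) : ℂ) * (x + conj u * (u * x)) = (n : ℂ) * x := by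
    intro x
    rw [Complex.ofReal_inv, inv_mul_eq_div, div_eq_iff hnC]
    linear_combination (-x) * hn2C
  have hr : rhoN (t, w1, h0, s, w, ze, v0, v1, k0, k1) =
      (t, u, h0, (n : ℂ) * k0, ze, (n : ℂ) * v0, s) := by
    simp only [rhoN, eT, eW1, eH0, eS, eW, eZe, eV0, eV1, eK0, eK1]
    rw [← hu, ← hn, hk, hv, hx, hx]
  rw [hr]
  constructor
  · simp only [FPS, mem_ofPred_eq, fT, fU, fH0, fH, fZe, fZ, fS]
    rw [hk, Complex.normSq_mul] at h6
    rw [hv, Complex.normSq_mul] at h10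
    rw [hk, hv] at h9
    refine ⟨?_, ?_, ?_, ?_⟩
    · rw [Complex.normSq_mul, Complex.normSq_ofReal]
      linear_combination h6 + Complex.normSq k0 * hn2
    · linear_combination (n : ℂ) * h7
    · rw [h9, map_mul, map_mul, Complex.conj_ofReal]
      linear_combination (-(conj k0 * v0)) * hn2C
    · rw [Complex.normSq_mul, Complex.normSq_ofReal]
      linear_combination h10 + Complex.normSq v0 * hn2
  · simp only [psiN, fT, fU, fH0, fH, fZe, fZ, fS]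
    rw [← hn]
    have hcan : ∀ x : ℂ, ((n⁻¹ : ℝ) : ℂ) * ((n : ℂ) * x) = x := by
      intro x
      rw [Complex.ofReal_inv, ← mul_assoc, inv_mul_cancel₀ hnC, one_mul]
    have hcan2 : ∀ x : ℂ, ((n⁻¹ : ℝ) : ℂ) * ((n : ℂ) * x * u) = u * x := by
      intro x
      rw [mul_assoc, hcan]; ring
    rw [hcan, hcan, hcan2, hcan2, ← hv, ← hk]
    have e1 : (1 - Complex.normSq u) / (1 + Complex.normSq u) = w1 := by
      rw [hN]; field_simp; ring
    have e2 : ((2 / (1 + Complex.normSq u) : ℝ) : ℂ) * u = w := by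
      rw [hN1, hwu]
      congr 2
      field_simp
    rw [e1, e2]

theorem rhoS_mem {La : ℝ} {z : EA} (hz : z ∈ WS La) (h : eW1 z < 1) :
    rhoS z ∈ FPS La ∧ psiS (rhoS z) = z := by
  have h1 : -1 < eW1 (WB_sig z) := by simp only [WB_sig, eW1] at h ⊢; linarith
  have h2 := rhoN_mem (WB_sig_mem hz) h1
  rw [WB_rhoS, WB_psiS, WB_sip_sip, h2.2, WB_sig_sig]
  exact ⟨WB_sip_mem h2.1, rfl⟩

lemma WB_cd_normSq : ContDiff ℝ ∞ (fun z : ℂ => Complex.normSq z) := by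
  have : (fun z : ℂ => Complex.normSq z) = fun z : ℂ => Complex.reCLM z * Complex.reCLM z +
      Complex.imCLM z * Complex.imCLM z := by
    funext z; simp [Complex.normSq_apply]
  rw [this]
  exact (Complex.reCLM.contDiff.mul Complex.reCLM.contDiff).add
    (Complex.imCLM.contDiff.mul Complex.imCLM.contDiff)

lemma WB_cd_nu : ContDiff ℝ ∞ nu := by
  unfold nu
  exact (contDiff_const.add WB_cd_normSq).sqrt
    (fun z => by have := Complex.normSq_nonneg z; positivity)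

lemma WB_cd_nuInv : ContDiff ℝ ∞ (fun u : ℂ => (((nu u)⁻¹ : ℝ) : ℂ)) :=
  Complex.ofRealCLM.contDiff.comp (WB_cd_nu.inv (fun u => (nu_pos u).ne'))

lemma WB_cd_conj : ContDiff ℝ ∞ (fun u : ℂ => conj u) := Complex.conjCLE.contDiff

theorem contDiff_psiN : ContDiff ℝ ∞ psiN := by
  have cT : ContDiff ℝ ∞ fT := contDiff_fst
  have c1 : ContDiff ℝ ∞ (fun p : FP => p.2) := contDiff_snd
  have cU : ContDiff ℝ ∞ fU := contDiff_fst.comp c1
  have c2 : ContDiff ℝ ∞ (fun p : FP => p.2.2) := contDiff_snd.comp c1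
  have cH0 : ContDiff ℝ ∞ fH0 := contDiff_fst.comp c2
  have c3 : ContDiff ℝ ∞ (fun p : FP => p.2.2.2) := contDiff_snd.comp c2
  have cH : ContDiff ℝ ∞ fH := contDiff_fst.comp c3
  have c4 : ContDiff ℝ ∞ (fun p : FP => p.2.2.2.2) := contDiff_snd.comp c3
  have cZe : ContDiff ℝ ∞ fZe := contDiff_fst.comp c4
  have c5 : ContDiff ℝ ∞ (fun p : FP => p.2.2.2.2.2) := contDiff_snd.comp c4
  have cZ : ContDiff ℝ ∞ fZ := contDiff_fst.comp c5
  have cS : ContDiff ℝ ∞ fS := contDiff_snd.comp c5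
  have cn : ContDiff ℝ ∞ (fun p : FP => Complex.normSq (fU p)) := WB_cd_normSq.comp cU
  have ca : ContDiff ℝ ∞ (fun p : FP => (((nu (fU p))⁻¹ : ℝ) : ℂ)) := WB_cd_nuInv.comp cU
  have h0 : ∀ p : FP, 1 + Complex.normSq (fU p) ≠ 0 := fun p => by
    have := Complex.normSq_nonneg (fU p); positivity
  have cw1 : ContDiff ℝ ∞ (fun p : FP => (1 - Complex.normSq (fU p)) /
      (1 + Complex.normSq (fU p))) := (contDiff_const.sub cn).div (contDiff_const.add cn) h0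
  have cc : ContDiff ℝ ∞ (fun p : FP => ((2 / (1 + Complex.normSq (fU p)) : ℝ) : ℂ)) :=
    Complex.ofRealCLM.contDiff.comp (contDiff_const.div (contDiff_const.add cn) h0)
  unfold psiN
  exact cT.prodMk (cw1.prodMk (cH0.prodMk (cS.prodMk ((cc.mul cU).prodMk (cZe.prodMk
    ((ca.mul cZ).prodMk ((ca.mul (cZ.mul cU)).prodMk ((ca.mul cH).prodMk
      (ca.mul (cH.mul cU))))))))))

lemma WB_cd_sip : ContDiff ℝ ∞ WB_sip := by
  have cT : ContDiff ℝ ∞ fT := contDiff_fst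
  have c1 : ContDiff ℝ ∞ (fun p : FP => p.2) := contDiff_snd
  have cU : ContDiff ℝ ∞ fU := contDiff_fst.comp c1
  have c2 : ContDiff ℝ ∞ (fun p : FP => p.2.2) := contDiff_snd.comp c1
  exact cT.prodMk ((WB_cd_conj.comp cU).prodMk c2)

lemma WB_cd_sig : ContDiff ℝ ∞ WB_sig := by
  have cT : ContDiff ℝ ∞ eT := contDiff_fst
  have c1 : ContDiff ℝ ∞ (fun p : EA => p.2) := contDiff_snd
  have cW1 : ContDiff ℝ ∞ eW1 := contDiff_fst.comp c1
  have c2 : ContDiff ℝ ∞ (fun p : EA => p.2.2) := contDiff_snd.comp c1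
  have cH0 : ContDiff ℝ ∞ eH0 := contDiff_fst.comp c2
  have c3 : ContDiff ℝ ∞ (fun p : EA => p.2.2.2) := contDiff_snd.comp c2
  have cS : ContDiff ℝ ∞ eS := contDiff_fst.comp c3
  have c4 : ContDiff ℝ ∞ (fun p : EA => p.2.2.2.2) := contDiff_snd.comp c3
  have cW : ContDiff ℝ ∞ eW := contDiff_fst.comp c4
  have c5 : ContDiff ℝ ∞ (fun p : EA => p.2.2.2.2.2) := contDiff_snd.comp c4
  have cZe : ContDiff ℝ ∞ eZe := contDiff_fst.comp c5
  have c6 : ContDiff ℝ ∞ (fun p : EA => p.2.2.2.2.2.2) := contDiff_snd.comp c5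
  have cV0 : ContDiff ℝ ∞ eV0 := contDiff_fst.comp c6
  have c7 : ContDiff ℝ ∞ (fun p : EA => p.2.2.2.2.2.2.2) := contDiff_snd.comp c6
  have cV1 : ContDiff ℝ ∞ eV1 := contDiff_fst.comp c7
  have c8 : ContDiff ℝ ∞ (fun p : EA => p.2.2.2.2.2.2.2.2) := contDiff_snd.comp c7
  have cK0 : ContDiff ℝ ∞ eK0 := contDiff_fst.comp c8
  have cK1 : ContDiff ℝ ∞ eK1 := contDiff_snd.comp c8
  exact cT.prodMk (cW1.neg.prodMk (cH0.prodMk (cS.prodMk ((WB_cd_conj.comp cW).prodMk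
    (cZe.prodMk (cV1.prodMk (cV0.prodMk (cK1.prodMk cK0))))))))

theorem contDiff_psiS : ContDiff ℝ ∞ psiS := by
  have : psiS = fun p => WB_sig (psiN (WB_sip p)) := funext WB_psiS
  rw [this]
  exact WB_cd_sig.comp (contDiff_psiN.comp WB_cd_sip)

theorem contDiffOn_rhoN : ContDiffOn ℝ ∞ rhoN {z | -1 < eW1 z} := by
  have cT : ContDiff ℝ ∞ eT := contDiff_fst
  have c1 : ContDiff ℝ ∞ (fun p : EA => p.2) := contDiff_snd
  have cW1 : ContDiff ℝ ∞ eW1 := contDiff_fst.comp c1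
  have c2 : ContDiff ℝ ∞ (fun p : EA => p.2.2) := contDiff_snd.comp c1
  have cH0 : ContDiff ℝ ∞ eH0 := contDiff_fst.comp c2
  have c3 : ContDiff ℝ ∞ (fun p : EA => p.2.2.2) := contDiff_snd.comp c2
  have cS : ContDiff ℝ ∞ eS := contDiff_fst.comp c3
  have c4 : ContDiff ℝ ∞ (fun p : EA => p.2.2.2.2) := contDiff_snd.comp c3
  have cW : ContDiff ℝ ∞ eW := contDiff_fst.comp c4
  have c5 : ContDiff ℝ ∞ (fun p : EA => p.2.2.2.2.2) := contDiff_snd.comp c4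
  have cZe : ContDiff ℝ ∞ eZe := contDiff_fst.comp c5
  have c6 : ContDiff ℝ ∞ (fun p : EA => p.2.2.2.2.2.2) := contDiff_snd.comp c5
  have cV0 : ContDiff ℝ ∞ eV0 := contDiff_fst.comp c6
  have c7 : ContDiff ℝ ∞ (fun p : EA => p.2.2.2.2.2.2.2) := contDiff_snd.comp c6
  have cV1 : ContDiff ℝ ∞ eV1 := contDiff_fst.comp c7
  have c8 : ContDiff ℝ ∞ (fun p : EA => p.2.2.2.2.2.2.2.2) := contDiff_snd.comp c7
  have cK0 : ContDiff ℝ ∞ eK0 := contDiff_fst.comp c8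
  have cK1 : ContDiff ℝ ∞ eK1 := contDiff_snd.comp c8
  have cu : ContDiffOn ℝ ∞ (fun z : EA => (((1 + eW1 z)⁻¹ : ℝ) : ℂ) * eW z) {z | -1 < eW1 z} := by
    have ci : ContDiffOn ℝ ∞ (fun z : EA => (1 + eW1 z)⁻¹) {z | -1 < eW1 z} :=
      (contDiff_const.add cW1).contDiffOn.inv (fun z hz => by
        have : -1 < eW1 z := hz
        linarith)
    exact (Complex.ofRealCLM.contDiff.comp_contDiffOn ci).mul cW.contDiffOn
  have ca : ContDiffOn ℝ ∞ (fun z : EA => (((nu ((((1 + eW1 z)⁻¹ : ℝ) : ℂ) * eW z))⁻¹ : ℝ) : ℂ))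
      {z | -1 < eW1 z} := WB_cd_nuInv.comp_contDiffOn cu
  have cb : ContDiffOn ℝ ∞ (fun z : EA => conj ((((1 + eW1 z)⁻¹ : ℝ) : ℂ) * eW z))
      {z | -1 < eW1 z} := WB_cd_conj.comp_contDiffOn cu
  exact cT.contDiffOn.prodMk (cu.prodMk (cH0.contDiffOn.prodMk
    ((ca.mul (cK0.contDiffOn.add (cb.mul cK1.contDiffOn))).prodMk (cZe.contDiffOn.prodMk
      ((ca.mul (cV0.contDiffOn.add (cb.mul cV1.contDiffOn))).prodMk cS.contDiffOn)))))

theorem contDiffOn_rhoS : ContDiffOn ℝ ∞ rhoS {z | eW1 z < 1} := by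
  have : rhoS = fun z => WB_sip (rhoN (WB_sig z)) := funext WB_rhoS
  rw [this]
  refine WB_cd_sip.comp_contDiffOn (contDiffOn_rhoN.comp WB_cd_sig.contDiffOn ?_)
  intro z hz
  have hz' : eW1 z < 1 := hz
  change -1 < eW1 (WB_sig z)
  simp only [WB_sig, eW1] at hz' ⊢
  linarith

lemma WB_cont_W1 : Continuous eW1 := continuous_fst.comp continuous_snd

theorem chart_N {H : Type} [NormedAddCommGroup H] [NormedSpace ℝ H] {La : ℝ} {U : Set FP}
    {V : Set H} {ρ : FP → H} {ψ : H → FP} (hc : IsChart (FPS La) U V ρ ψ) :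
    IsChart (WS La) ({z | -1 < eW1 z} ∩ rhoN ⁻¹' U) V (fun z => ρ (rhoN z))
      (fun v => psiN (ψ v)) where
  isOpen_U := contDiffOn_rhoN.continuousOn.isOpen_inter_preimage
    (isOpen_lt continuous_const WB_cont_W1) hc.isOpen_U
  isOpen_V := hc.isOpen_V
  smooth_ρ := hc.smooth_ρ.comp (contDiffOn_rhoN.mono inter_subset_left) (fun z hz => hz.2)
  smooth_ψ := contDiff_psiN.comp_contDiffOn hc.smooth_ψ
  maps_ρ := fun z hz => hc.maps_ρ _ ⟨(rhoN_mem hz.1 hz.2.1).1, hz.2.2⟩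
  maps_ψ := fun v hv => by
    have h := hc.maps_ψ v hv
    have h2 := psiN_mem h.1
    refine ⟨h2.1, h2.2, ?_⟩
    change rhoN (psiN (ψ v)) ∈ U
    rw [rhoN_psiN]; exact h.2
  left_inv := fun z hz => by
    have h := rhoN_mem hz.1 hz.2.1
    change psiN (ψ (ρ (rhoN z))) = z
    rw [hc.left_inv _ ⟨h.1, hz.2.2⟩, h.2]
  right_inv := fun v hv => by
    change ρ (rhoN (psiN (ψ v))) = v
    rw [rhoN_psiN, hc.right_inv v hv]

theorem chart_S {H : Type} [NormedAddCommGroup H] [NormedSpace ℝ H] {La : ℝ} {U : Set FP}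
    {V : Set H} {ρ : FP → H} {ψ : H → FP} (hc : IsChart (FPS La) U V ρ ψ) :
    IsChart (WS La) ({z | eW1 z < 1} ∩ rhoS ⁻¹' U) V (fun z => ρ (rhoS z))
      (fun v => psiS (ψ v)) where
  isOpen_U := contDiffOn_rhoS.continuousOn.isOpen_inter_preimage
    (isOpen_lt WB_cont_W1 continuous_const) hc.isOpen_U
  isOpen_V := hc.isOpen_V
  smooth_ρ := hc.smooth_ρ.comp (contDiffOn_rhoS.mono inter_subset_left) (fun z hz => hz.2)
  smooth_ψ := contDiff_psiS.comp_contDiffOn hc.smooth_ψ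
  maps_ρ := fun z hz => hc.maps_ρ _ ⟨(rhoS_mem hz.1 hz.2.1).1, hz.2.2⟩
  maps_ψ := fun v hv => by
    have h := hc.maps_ψ v hv
    have h2 := psiS_mem h.1
    refine ⟨h2.1, h2.2, ?_⟩
    change rhoS (psiS (ψ v)) ∈ U
    rw [rhoS_psiS]; exact h.2
  left_inv := fun z hz => by
    have h := rhoS_mem hz.1 hz.2.1
    change psiS (ψ (ρ (rhoS z))) = z
    rw [hc.left_inv _ ⟨h.1, hz.2.2⟩, h.2]
  right_inv := fun v hv => by
    change ρ (rhoS (psiS (ψ v))) = v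
    rw [rhoS_psiS, hc.right_inv v hv]

end Pool.Agent.H34.SY
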