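import Pool.Agent.H34.SY.FB
import Pool.Agent.H34.SY.TK
import Pool.Agent.H8.SYG.GFin
import Pool.Agent.H8.SYG.GProf
import Pool.Agent.H8.SYb.Z
import Pool.Agent.H31.SYHD.Fin

/-!
# MP_46177c : the main theorem
-/

open Set Topology
open scoped ContDiff ComplexConjugate

namespace Pool.Agent.H34.SY

theorem mainSpec : MainSpec :=
  main_of_top Pool.Agent.H31.SYHD.hd Pool.Agent.H8.SYG.profSpec M_closed_mfd
    (topSpec_of Pool.Agent.H8.SYb.isoFam_Fb) Pool.Agent.H8.SYG.gSpec

end Pool.Agent.H34.SY
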