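import Pool.Agent.H34.SY.Geo

/-!
# MP_46177c : the differential forms (see /team-store/H34_46177c.md)
-/

open Set Topology
open scoped ContDiff ComplexConjugate

namespace Pool.Agent.H34.SY

noncomputable section

section Calc

variable {E : Type} [NormedAddCommGroup E] [NormedSpace ℝ E]
variable {E' : Type} [NormedAddCommGroup E'] [NormedSpace ℝ E']

/-- Fields of linear forms. -/
abbrev Form1 (E : Type) [NormedAddCommGroup E] [NormedSpace ℝ E] : Type := E → E →L[ℝ] ℝ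

/-- Exterior derivative of a 1-form: `dd l z a b = D_a l (b) - D_b l (a)`. -/
def dd (l : Form1 E) : Form E := fun z => fderiv ℝ l z - (fderiv ℝ l z).flip

/-- Wedge product of two linear forms. -/
def wdg (a b : E →L[ℝ] ℝ) : E →L[ℝ] E →L[ℝ] ℝ := a.smulRight b - b.smulRight a

/-- Pull-back of a 1-form. -/
def pb1 (f : E → E') (l : Form1 E') : Form1 E := fun z => (l (f z)).comp (fderiv ℝ f z)

/-- Pull-back of a 2-form. -/
def pb2 (f : E → E') (Om : Form E') : Form E :=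
  fun z => (Om (f z)).bilinearComp (fderiv ℝ f z) (fderiv ℝ f z)

/-- `om` is nondegenerate on the tangent space of `X` at `z`. -/
def NonDegAt (X : Set E) (om : Form E) (z : E) : Prop :=
  ∀ a, IsTangent X z a → a ≠ 0 → ∃ b, IsTangent X z b ∧ om z a b ≠ 0

end Calc

/-! ### Coordinates of `FP` -/

def pT : FP →L[ℝ] ℝ := ContinuousLinearMap.fst ℝ _ _
def pR1 : FP →L[ℝ] ℂ × ℝ × ℂ × ℂ × ℂ × ℝ := ContinuousLinearMap.snd ℝ _ _
def pU : FP →L[ℝ] ℂ := (ContinuousLinearMap.fst ℝ _ _).comp pR1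
def pR2 : FP →L[ℝ] ℝ × ℂ × ℂ × ℂ × ℝ := (ContinuousLinearMap.snd ℝ _ _).comp pR1
def pH0 : FP →L[ℝ] ℝ := (ContinuousLinearMap.fst ℝ _ _).comp pR2
def pR3 : FP →L[ℝ] ℂ × ℂ × ℂ × ℝ := (ContinuousLinearMap.snd ℝ _ _).comp pR2
def pH : FP →L[ℝ] ℂ := (ContinuousLinearMap.fst ℝ _ _).comp pR3
def pR4 : FP →L[ℝ] ℂ × ℂ × ℝ := (ContinuousLinearMap.snd ℝ _ _).comp pR3
def pZe : FP →L[ℝ] ℂ := (ContinuousLinearMap.fst ℝ _ _).comp pR4
def pR5 : FP →L[ℝ] ℂ × ℝ := (ContinuousLinearMap.snd ℝ _ _).comp pR4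
def pZ : FP →L[ℝ] ℂ := (ContinuousLinearMap.fst ℝ _ _).comp pR5
def pS : FP →L[ℝ] ℝ := (ContinuousLinearMap.snd ℝ _ _).comp pR5

/-- The 1-form `Im (c̄ dc)` for a complex coordinate `c`. -/
def imF {E : Type} [NormedAddCommGroup E] [NormedSpace ℝ E] (c : E →L[ℝ] ℂ) : Form1 E :=
  fun p => Complex.imCLM.comp ((conj (c p)) • c)

/-- `α = Im (ζ̄ dζ + z̄ dz) / |q|²`. -/
def alq : Form1 FP := fun p => (qsq (fZe p) (fZ p))⁻¹ • (imF pZe p + imF pZ p)

/-- Local primitives of the area form of the sphere `(h₀, h)`. -/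
def Ab : Form1 FP := fun p => (-(1 / (2 * (1 - fH0 p)))) • imF pH p
def Abe : Form1 FP := fun p => (1 / (2 * (1 + fH0 p))) • imF pH p

/-- Half the area form of the sphere `(h₀, h)`: `½ det (m, ṁ, ṁ')`. -/
def areaF : Form FP := fun p =>
  (1 / 2 : ℝ) • ((fH0 p / 2) • dd (imF pH) p - wdg pH0 (imF pH p))

/-- The parameters of the forms. -/
structure FPar extends Par where
  (T2 Ta eps r0 : ℝ)

namespace FPar

variable (P : FPar)

/-- The connection is zero for `|u|² ≤ s1` and pure gauge for `s1 + 1 ≤ |u|²`. -/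
def s1 : ℝ := P.hd.B ^ 2 + P.Ta + 3

/-- The base area form is flat for `|u|² ≤ s2`, and `|u|⁻⁴ du` for `s2 + 1 ≤ |u|²`. -/
def s2 : ℝ := P.s1 + 1

/-- The coefficient of the connection: `a = ka(|u|²) Im (ū du)`. -/
def ka (s : ℝ) : ℝ := Real.smoothTransition (s - P.s1) / s

/-- The base area is `d (½ kr(|u|²) Im (ū du))`. -/
def kr (s : ℝ) : ℝ :=
  1 + Real.smoothTransition (s - P.s2) * (P.s2 + 3 - 1 / s - s) / s

/-- The radial function of the fibre, without the blow-up term. -/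
def f0 (s : ℝ) : ℝ :=
  let x := Real.smoothTransition ((s + P.La / 2) / P.La)
  (1 - x) * ((P.La ^ 2 - s ^ 2) / 2) + x * (P.La ^ 2 + 1 - (P.La ^ 2 - s ^ 2) / 2)

/-- The cut-off function of the blow-up term, a function of `|q|²` (used for `s < 0`). -/
def chi (r : ℝ) : ℝ := cut (1 / 4) (3 / 4) (r / P.r0 ^ 2)

def chip (p : FP) : ℝ := if fS p < 0 then P.chi (qsq (fZe p) (fZ p)) else 0

def F0 (p : FP) : ℝ := P.f0 (fS p) + P.eps * P.chip p

/-- The connection form on the side `N`. -/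
def aN : Form1 FP := fun p => P.ka (Complex.normSq (fU p)) • imF pU p

/-- Primitive of the base area form on the side `N`. -/
def bN : Form1 FP := fun p => (P.kr (Complex.normSq (fU p)) / 2) • imF pU p

/-- Primitive of the base area form on the side `S`. -/
def bS : Form1 FP := fun p => (-(1 / 2) : ℝ) • imF pU p

/-! #### Local forms of `M` -/

/-- Side `N`, off `q = 0`. -/
def lN0 : Form1 FP := fun p =>
  P.F0 p • (alq p + (Complex.normSq (fZ p) / qsq (fZe p) (fZ p)) • P.aN p) + P.bN p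

/-- `½ (Im (ζ̄ dζ + z̄ dz) + |z|² a)`. -/
def q2N : Form1 FP := fun p =>
  (1 / 2 : ℝ) • (imF pZe p + imF pZ p + Complex.normSq (fZ p) • P.aN p)

def omN0 : Form FP := dd P.lN0

/-- Side `N`, near `q = 0`, `s < 0`. -/
def omNm : Form FP := fun p =>
  dd (fun p => P.q2N p + P.bN p + (P.eps * ((1 - fH0 p) / 2)) • P.aN p) p + P.eps • areaF p

/-- Side `N`, near `q = 0`, `s > 0`. -/
def omNp : Form FP := fun p =>
  dd (fun p => -P.q2N p + P.bN p + ((P.La ^ 2 + 1) * ((1 - fH0 p) / 2)) • P.aN p) p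
    + (P.La ^ 2 + 1) • areaF p

/-- Side `S`, off `q = 0`. -/
def lS0 : Form1 FP := fun p => P.F0 p • alq p + bS p

def q2S : Form1 FP := fun p => (1 / 2 : ℝ) • (imF pZe p + imF pZ p)

def omS0 : Form FP := dd P.lS0

def omSm : Form FP := fun p => dd (fun p => q2S p + bS p) p + P.eps • areaF p

def omSp : Form FP := fun p => dd (fun p => -q2S p + bS p) p + (P.La ^ 2 + 1) • areaF p

/-! #### Local forms of `M'` -/

/-- `ψ₂`, a function of `|y|²`. -/
def psi2 (s : ℝ) : ℝ := cut 1 P.T2 s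

/-- The cut-off function of the shear. -/
def psh (x y : V3) : ℝ :=
  cut (P.hd.B ^ 2) P.Ta (x.2.1 ^ 2 + x.2.2 ^ 2) * cut (P.hd.B ^ 2 + P.T2 + 1) 1 (x.1 ^ 2 + nsq3 y)

/-- The shear `(x, y) ↦ (x + psh (0, -y₃, y₂), y)`. -/
def shear (p : V3 × V3) : V3 × V3 :=
  ((p.1.1, p.1.2.1 - P.psh p.1 p.2 * p.2.2.2, p.1.2.2 + P.psh p.1 p.2 * p.2.2.1), p.2)

/-- Coordinates on `V3 × V3`. -/
def cX (k : Fin 3) : V3 × V3 →L[ℝ] ℝ :=
  let f := ContinuousLinearMap.fst ℝ V3 V3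
  match k with
  | 0 => (ContinuousLinearMap.fst ℝ _ _).comp f
  | 1 => ((ContinuousLinearMap.fst ℝ _ _).comp (ContinuousLinearMap.snd ℝ _ _)).comp f
  | 2 => ((ContinuousLinearMap.snd ℝ _ _).comp (ContinuousLinearMap.snd ℝ _ _)).comp f

def cY (k : Fin 3) : V3 × V3 →L[ℝ] ℝ :=
  let f := ContinuousLinearMap.snd ℝ V3 V3
  match k with
  | 0 => (ContinuousLinearMap.fst ℝ _ _).comp f
  | 1 => ((ContinuousLinearMap.fst ℝ _ _).comp (ContinuousLinearMap.snd ℝ _ _)).comp f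
  | 2 => ((ContinuousLinearMap.snd ℝ _ _).comp (ContinuousLinearMap.snd ℝ _ _)).comp f

/-- `½ (x₂ dx₃ - x₃ dx₂) + ½ (x₁ dy₁ - y₁ dx₁ - y₂ dy₃ + y₃ dy₂)`. -/
def lX : Form1 (V3 × V3) := fun p =>
  (1 / 2 : ℝ) • (p.1.2.1 • cX 2 - p.1.2.2 • cX 1
    + p.1.1 • cY 0 - p.2.1 • cX 0 - p.2.2.1 • cY 2 + p.2.2.2 • cY 1)

/-- The primitive of the form of the core, on `V3 × V3`. -/
def l6 : Form1 (V3 × V3) := fun p =>
  pb1 P.shear lX p + P.psi2 (nsq3 p.2) •
    ((P.hd.ga p.1).1 • cX 0 + (P.hd.ga p.1).2.1 • cX 1 + (P.hd.ga p.1).2.2 • cX 2)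

/-- `(x, y)` on the side `N`: `x = (t, u)`, `y = Im (q ḡ)`. -/
def PiN (p : FP) : V3 × V3 :=
  (xpt (fT p) (fU p), (P.toPar.yy 1 (fT p) (fU p) (fZe p) (fZ p)).2)

/-- Inner form, off `q = 0`. -/
def omI0 : Form FP := dd (fun p => pb1 P.PiN P.l6 p - (P.eps * P.chip p) • alq p)

/-- Inner form, near `q = 0`. -/
def omIm : Form FP := fun p => dd (pb1 P.PiN P.l6) p - P.eps • areaF p

/-- The map `q ↦ q ḡ` on the side `N` (outer region; the coordinates `h₀`, `h` are kept). -/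
def xiN (p : FP) : FP :=
  let y := if fS p < 0 then P.toPar.yy 1 (fT p) (fU p) (fZe p) (fZ p)
    else (((fZe p).re, (fZe p).im, (fZ p).re, -(fZ p).im) : V4)
  (fT p, fU p, fH0 p, fH p, ⟨y.1, y.2.1⟩, ⟨y.2.2.1, -y.2.2.2⟩, fS p)

/-- `dθ - a`, on the side `N`, off `u = 0`. -/
def etaN : Form1 FP := fun p =>
  (1 / Complex.normSq (fU p) - P.ka (Complex.normSq (fU p))) • imF pU p

/-- Outer form, side `N`, off `q = 0`. -/
def omO0 : Form FP := dd (fun p => pb1 P.xiN P.lN0 p + (P.eps * P.chip p) • P.etaN p)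

/-- Outer form, side `N`, near `q = 0`, `s < 0`. -/
def omOm : Form FP := fun p =>
  dd (fun p => P.bN p + pb1 P.xiN P.q2N p - (P.eps * ((1 - fH0 p) / 2)) • P.aN p) p
    - P.eps • areaF p

/-- The map `q ↦ q ḡ` on the side `S`, `g = (1 - l) + l j`. -/
def xiS (p : FP) : FP :=
  let l : ℝ := if fS p < 0 then P.toPar.lamb (qsq (fZe p) (fZ p)) else 0
  let n : ℝ := Real.sqrt ((1 - l) ^ 2 + l ^ 2)
  (fT p, fU p, fH0 p, fH p,
    (((1 - l) / n : ℝ) : ℂ) * fZe p + ((l / n : ℝ) : ℂ) * conj (fZ p),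
    (((1 - l) / n : ℝ) : ℂ) * fZ p - ((l / n : ℝ) : ℂ) * conj (fZe p), fS p)

/-- Side `S`, off `q = 0`. -/
def omOS0 : Form FP := dd (pb1 P.xiS P.lS0)

/-- Side `S`, near `q = 0`, `s < 0`. -/
def omOSm : Form FP := fun p => dd (fun p => bS p + pb1 P.xiS q2S p) p - P.eps • areaF p

end FPar

end

end Pool.Agent.H34.SY
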