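import Pool.Agent.H34.SY.FD6
import Pool.Agent.H34.SY.WB

/-!
# Row GR: charts of hypersurfaces `t = τ(rest)` of `WS La`

Let `c : H7 → FP` be a chart of `FPS La` of the kind of `cB`, `cA`, `cQ`: the first coordinate is `t`, and the
other coordinates do not involve `t`.  If a subset `X` of `WS La` is given, over the domain of the chart, by
`t = τ(p)` with `τ` independent of `t`, then `w ↦ psi (c (τ, w))` is a chart of `X`.
Only formal verifications.  The set `W` (open in the ambient space) allows to shrink the domain; it is assumed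
independent of `t` in the side coordinates, through `U`.
-/

open Set Topology
open scoped ContDiff ComplexConjugate

namespace Pool.Agent.H34.SY

/-- `c` is a chart of `FPS La` in which `t` is a product factor. -/
structure TChart (La : ℝ) (U : Set FP) (V : Set H7) (ρ : FP → H7) (c : H7 → FP) : Prop where
  chart : IsChart (FPS La) U V ρ c
  c_t : ∀ v : H7, ∀ t : ℝ, c (t, v.2) = (t, (c v).2)
  ρ_t : ∀ p : FP, ∀ t : ℝ, ρ (t, p.2) = (t, (ρ p).2)
  U_t : ∀ p : FP, ∀ t : ℝ, p ∈ U → (t, p.2) ∈ U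
  V_t : ∀ v : H7, ∀ t : ℝ, v ∈ V → (t, v.2) ∈ V

theorem TChart.graphN {La : ℝ} {U : Set FP} {V : Set H7} {ρ : FP → H7} {c : H7 → FP}
    (hc : TChart La U V ρ c) (τ : FP → ℝ) (hτ : ContDiffOn ℝ ∞ τ U)
    (hτt : ∀ p : FP, ∀ t : ℝ, τ (t, p.2) = τ p) (X : Set EA) (hXW : X ⊆ WS La)
    (hX : ∀ z ∈ WS La, -1 < eW1 z → rhoN z ∈ U → (z ∈ X ↔ eT z = τ (rhoN z))) :
    IsChart X ({z | -1 < eW1 z} ∩ rhoN ⁻¹' U) {w : H6 | ((0, w) : H7) ∈ V}
      (fun z => (ρ (rhoN z)).2) (fun w => psiN (c (τ (c (0, w)), w))) := by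
  have hch := chart_N hc.chart
  have hct : ∀ (w : H6) (t : ℝ), c (t, w) = (t, (c (0, w)).2) := fun w t => hc.c_t (0, w) t
  have hτc : ∀ (w : H6) (t : ℝ), τ (c (t, w)) = τ (c (0, w)) := by
    intro w t
    rw [hct w t]
    exact hτt (c (0, w)) t
  have hVt : ∀ (w : H6) (t : ℝ), ((0, w) : H7) ∈ V → ((t, w) : H7) ∈ V := fun w t h =>
    hc.V_t (0, w) t h
  have hlin : ContDiff ℝ ∞ (fun w : H6 => ((0, w) : H7)) := contDiff_const.prodMk contDiff_id
  have hcU : ∀ w : H6, ((0, w) : H7) ∈ V → c (0, w) ∈ U := fun w h => (hc.chart.maps_ψ _ h).2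
  have hs1 : ContDiffOn ℝ ∞ (fun w : H6 => c (0, w)) {w : H6 | ((0, w) : H7) ∈ V} :=
    hc.chart.smooth_ψ.comp hlin.contDiffOn (fun w h => h)
  have hs2 : ContDiffOn ℝ ∞ (fun w : H6 => τ (c (0, w))) {w : H6 | ((0, w) : H7) ∈ V} :=
    hτ.comp hs1 (fun w h => hcU w h)
  have hs3 : ContDiffOn ℝ ∞ (fun w : H6 => ((τ (c (0, w)), w) : H7))
      {w : H6 | ((0, w) : H7) ∈ V} := hs2.prodMk contDiffOn_id
  exact {
    isOpen_U := hch.isOpen_U
    isOpen_V := hc.chart.isOpen_V.preimage hlin.continuous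
    smooth_ρ := contDiff_snd.comp_contDiffOn hch.smooth_ρ
    smooth_ψ := hch.smooth_ψ.comp hs3 (fun w h => hVt w _ h)
    maps_ρ := by
      intro z hz
      exact hc.V_t _ 0 (hch.maps_ρ z ⟨hXW hz.1, hz.2⟩)
    maps_ψ := by
      intro w hw
      have h1 := hch.maps_ψ (τ (c (0, w)), w) (hVt w _ hw)
      refine ⟨?_, h1.2⟩
      refine (hX _ h1.1 h1.2.1 h1.2.2).2 ?_
      show (c (τ (c (0, w)), w)).1 = τ (rhoN (psiN (c (τ (c (0, w)), w))))
      rw [rhoN_psiN, hct w (τ (c (0, w)))]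
      exact (hτt (c (0, w)) (τ (c (0, w)))).symm
    left_inv := by
      intro z hz
      have hzW := hXW hz.1
      have h1 : rhoN z ∈ FPS La ∩ U := ⟨(rhoN_mem hzW hz.2.1).1, hz.2.2⟩
      have h2 : c (ρ (rhoN z)) = rhoN z := hc.chart.left_inv _ h1
      have h3 : eT z = τ (rhoN z) := (hX z hzW hz.2.1 hz.2.2).1 hz.1
      have h4 : c (0, (ρ (rhoN z)).2) = (0, (rhoN z).2) := by
        have h5 := hc.c_t (ρ (rhoN z)) 0
        rw [h2] at h5
        exact h5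
      have h6 : τ (c (0, (ρ (rhoN z)).2)) = (rhoN z).1 := by
        rw [h4, hτt (rhoN z) 0, ← h3]
        rfl
      show psiN (c (τ (c (0, (ρ (rhoN z)).2)), (ρ (rhoN z)).2)) = z
      rw [h6]
      have h7 := hc.c_t (ρ (rhoN z)) (rhoN z).1
      rw [h2] at h7
      rw [h7]
      exact (rhoN_mem hzW hz.2.1).2
    right_inv := by
      intro w hw
      show (ρ (rhoN (psiN (c (τ (c (0, w)), w))))).2 = w
      rw [rhoN_psiN, hc.chart.right_inv _ (hVt w _ hw)] }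

theorem TChart.graphS {La : ℝ} {U : Set FP} {V : Set H7} {ρ : FP → H7} {c : H7 → FP}
    (hc : TChart La U V ρ c) (τ : FP → ℝ) (hτ : ContDiffOn ℝ ∞ τ U)
    (hτt : ∀ p : FP, ∀ t : ℝ, τ (t, p.2) = τ p) (X : Set EA) (hXW : X ⊆ WS La)
    (hX : ∀ z ∈ WS La, eW1 z < 1 → rhoS z ∈ U → (z ∈ X ↔ eT z = τ (rhoS z))) :
    IsChart X ({z | eW1 z < 1} ∩ rhoS ⁻¹' U) {w : H6 | ((0, w) : H7) ∈ V}
      (fun z => (ρ (rhoS z)).2) (fun w => psiS (c (τ (c (0, w)), w))) := by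
  have hch := chart_S hc.chart
  have hct : ∀ (w : H6) (t : ℝ), c (t, w) = (t, (c (0, w)).2) := fun w t => hc.c_t (0, w) t
  have hτc : ∀ (w : H6) (t : ℝ), τ (c (t, w)) = τ (c (0, w)) := by
    intro w t
    rw [hct w t]
    exact hτt (c (0, w)) t
  have hVt : ∀ (w : H6) (t : ℝ), ((0, w) : H7) ∈ V → ((t, w) : H7) ∈ V := fun w t h =>
    hc.V_t (0, w) t h
  have hlin : ContDiff ℝ ∞ (fun w : H6 => ((0, w) : H7)) := contDiff_const.prodMk contDiff_id
  have hcU : ∀ w : H6, ((0, w) : H7) ∈ V → c (0, w) ∈ U := fun w h => (hc.chart.maps_ψ _ h).2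
  have hs1 : ContDiffOn ℝ ∞ (fun w : H6 => c (0, w)) {w : H6 | ((0, w) : H7) ∈ V} :=
    hc.chart.smooth_ψ.comp hlin.contDiffOn (fun w h => h)
  have hs2 : ContDiffOn ℝ ∞ (fun w : H6 => τ (c (0, w))) {w : H6 | ((0, w) : H7) ∈ V} :=
    hτ.comp hs1 (fun w h => hcU w h)
  have hs3 : ContDiffOn ℝ ∞ (fun w : H6 => ((τ (c (0, w)), w) : H7))
      {w : H6 | ((0, w) : H7) ∈ V} := hs2.prodMk contDiffOn_id
  exact {
    isOpen_U := hch.isOpen_U
    isOpen_V := hc.chart.isOpen_V.preimage hlin.continuous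
    smooth_ρ := contDiff_snd.comp_contDiffOn hch.smooth_ρ
    smooth_ψ := hch.smooth_ψ.comp hs3 (fun w h => hVt w _ h)
    maps_ρ := by
      intro z hz
      exact hc.V_t _ 0 (hch.maps_ρ z ⟨hXW hz.1, hz.2⟩)
    maps_ψ := by
      intro w hw
      have h1 := hch.maps_ψ (τ (c (0, w)), w) (hVt w _ hw)
      refine ⟨?_, h1.2⟩
      refine (hX _ h1.1 h1.2.1 h1.2.2).2 ?_
      show (c (τ (c (0, w)), w)).1 = τ (rhoS (psiS (c (τ (c (0, w)), w))))
      rw [rhoS_psiS, hct w (τ (c (0, w)))]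
      exact (hτt (c (0, w)) (τ (c (0, w)))).symm
    left_inv := by
      intro z hz
      have hzW := hXW hz.1
      have h1 : rhoS z ∈ FPS La ∩ U := ⟨(rhoS_mem hzW hz.2.1).1, hz.2.2⟩
      have h2 : c (ρ (rhoS z)) = rhoS z := hc.chart.left_inv _ h1
      have h3 : eT z = τ (rhoS z) := (hX z hzW hz.2.1 hz.2.2).1 hz.1
      have h4 : c (0, (ρ (rhoS z)).2) = (0, (rhoS z).2) := by
        have h5 := hc.c_t (ρ (rhoS z)) 0
        rw [h2] at h5
        exact h5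
      have h6 : τ (c (0, (ρ (rhoS z)).2)) = (rhoS z).1 := by
        rw [h4, hτt (rhoS z) 0, ← h3]
        rfl
      show psiS (c (τ (c (0, (ρ (rhoS z)).2)), (ρ (rhoS z)).2)) = z
      rw [h6]
      have h7 := hc.c_t (ρ (rhoS z)) (rhoS z).1
      rw [h2] at h7
      rw [h7]
      exact (rhoS_mem hzW hz.2.1).2
    right_inv := by
      intro w hw
      show (ρ (rhoS (psiS (c (τ (c (0, w)), w))))).2 = w
      rw [rhoS_psiS, hc.chart.right_inv _ (hVt w _ hw)] }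

/-- Restricting the domain of a `TChart` to an open set independent of `t`. -/
theorem TChart.restrict {La : ℝ} {U W : Set FP} {V : Set H7} {ρ : FP → H7} {c : H7 → FP}
    (hc : TChart La U V ρ c) (hW : IsOpen W) (hWt : ∀ p : FP, ∀ t : ℝ, p ∈ W → (t, p.2) ∈ W) :
    TChart La (U ∩ W) (V ∩ c ⁻¹' W) ρ c where
  chart :=
    { isOpen_U := hc.chart.isOpen_U.inter hW
      isOpen_V := hc.chart.smooth_ψ.continuousOn.isOpen_inter_preimage hc.chart.isOpen_V hW
      smooth_ρ := hc.chart.smooth_ρ.mono inter_subset_left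
      smooth_ψ := hc.chart.smooth_ψ.mono inter_subset_left
      maps_ρ := fun z hz => by
        refine ⟨hc.chart.maps_ρ z ⟨hz.1, hz.2.1⟩, ?_⟩
        show c (ρ z) ∈ W
        rw [hc.chart.left_inv z ⟨hz.1, hz.2.1⟩]
        exact hz.2.2
      maps_ψ := fun v hv => by
        have h := hc.chart.maps_ψ v hv.1
        exact ⟨h.1, h.2, hv.2⟩
      left_inv := fun z hz => hc.chart.left_inv z ⟨hz.1, hz.2.1⟩
      right_inv := fun v hv => hc.chart.right_inv v hv.1 }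
  c_t := hc.c_t
  ρ_t := hc.ρ_t
  U_t := fun p t hp => ⟨hc.U_t p t hp.1, hWt p t hp.2⟩
  V_t := fun v t hv => by
    refine ⟨hc.V_t v t hv.1, ?_⟩
    show c (t, v.2) ∈ W
    rw [hc.c_t v t]
    exact hWt (c v) t hv.2

end Pool.Agent.H34.SY
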