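import Pool.Agent.H34.SY.Defs

/-!
# MP_46177c : explicit geometry (see /team-store/H34_46177c.md)

Ambient space `EA`, the closed seven-dimensional submanifold `WS La` of `EA` (a line times a
three-stage tower of 2-spheres), its two sides `N`, `S`, the functions whose zero sets are the
manifolds `M` and `M'`.
-/

open Set Topology
open scoped ContDiff ComplexConjugate

namespace Pool.Agent.H34.SY

noncomputable section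

/-- Ambient space: `(t, w₁, h₀, s, w, ζ, v₀, v₁, k₀, k₁)`. -/
abbrev EA : Type := ℝ × ℝ × ℝ × ℝ × ℂ × ℂ × ℂ × ℂ × ℂ × ℂ

abbrev eT (z : EA) : ℝ := z.1
abbrev eW1 (z : EA) : ℝ := z.2.1
abbrev eH0 (z : EA) : ℝ := z.2.2.1
abbrev eS (z : EA) : ℝ := z.2.2.2.1
abbrev eW (z : EA) : ℂ := z.2.2.2.2.1
abbrev eZe (z : EA) : ℂ := z.2.2.2.2.2.1
abbrev eV0 (z : EA) : ℂ := z.2.2.2.2.2.2.1
abbrev eV1 (z : EA) : ℂ := z.2.2.2.2.2.2.2.1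
abbrev eK0 (z : EA) : ℂ := z.2.2.2.2.2.2.2.2.1
abbrev eK1 (z : EA) : ℂ := z.2.2.2.2.2.2.2.2.2

/-- The closed 7-manifold `ℝ × M_amb` in `EA`. -/
def WS (La : ℝ) : Set EA := {z |
  eW1 z ^ 2 + Complex.normSq (eW z) = 1 ∧
  ((1 + eW1 z : ℝ) : ℂ) * eV1 z = eW z * eV0 z ∧
  ((1 - eW1 z : ℝ) : ℂ) * eV0 z = conj (eW z) * eV1 z ∧
  ((1 + eW1 z : ℝ) : ℂ) * eK1 z = eW z * eK0 z ∧
  ((1 - eW1 z : ℝ) : ℂ) * eK0 z = conj (eW z) * eK1 z ∧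
  eH0 z ^ 2 + Complex.normSq (eK0 z) + Complex.normSq (eK1 z) = 1 ∧
  ((1 + eH0 z : ℝ) : ℂ) * eV0 z = eZe z * eK0 z ∧
  ((1 + eH0 z : ℝ) : ℂ) * eV1 z = eZe z * eK1 z ∧
  ((1 - eH0 z : ℝ) : ℂ) * eZe z = conj (eK0 z) * eV0 z + conj (eK1 z) * eV1 z ∧
  Complex.normSq (eZe z) + Complex.normSq (eV0 z) + Complex.normSq (eV1 z) + eS z ^ 2 = La ^ 2}

/-- Side coordinates: `(t, u, h₀, h, ζ, z, s)`. -/
abbrev FP : Type := ℝ × ℂ × ℝ × ℂ × ℂ × ℂ × ℝ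

abbrev fT (p : FP) : ℝ := p.1
abbrev fU (p : FP) : ℂ := p.2.1
abbrev fH0 (p : FP) : ℝ := p.2.2.1
abbrev fH (p : FP) : ℂ := p.2.2.2.1
abbrev fZe (p : FP) : ℂ := p.2.2.2.2.1
abbrev fZ (p : FP) : ℂ := p.2.2.2.2.2.1
abbrev fS (p : FP) : ℝ := p.2.2.2.2.2.2

/-- The 7-manifold in side coordinates (`t` and `u` are free). -/
def FPS (La : ℝ) : Set FP := {p |
  fH0 p ^ 2 + Complex.normSq (fH p) = 1 ∧
  ((1 + fH0 p : ℝ) : ℂ) * fZ p = fH p * fZe p ∧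
  ((1 - fH0 p : ℝ) : ℂ) * fZe p = conj (fH p) * fZ p ∧
  Complex.normSq (fZe p) + Complex.normSq (fZ p) + fS p ^ 2 = La ^ 2}

/-- `√(1 + |u|²)`. -/
def nu (u : ℂ) : ℝ := Real.sqrt (1 + Complex.normSq u)

/-- The side `N` (all points of `WS La` with `w₁ ≠ -1`). -/
def psiN (p : FP) : EA :=
  (fT p, (1 - Complex.normSq (fU p)) / (1 + Complex.normSq (fU p)), fH0 p, fS p,
    ((2 / (1 + Complex.normSq (fU p)) : ℝ) : ℂ) * fU p, fZe p,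
    ((nu (fU p))⁻¹ : ℝ) * fZ p, ((nu (fU p))⁻¹ : ℝ) * (fZ p * fU p),
    ((nu (fU p))⁻¹ : ℝ) * fH p, ((nu (fU p))⁻¹ : ℝ) * (fH p * fU p))

/-- Inverse of `psiN`, on the ambient open set `-1 < w₁`. -/
def rhoN (z : EA) : FP :=
  let u : ℂ := ((1 + eW1 z)⁻¹ : ℝ) * eW z
  (eT z, u, eH0 z, ((nu u)⁻¹ : ℝ) * (eK0 z + conj u * eK1 z), eZe z,
    ((nu u)⁻¹ : ℝ) * (eV0 z + conj u * eV1 z), eS z)

/-- The side `S` (all points of `WS La` with `w₁ ≠ 1`). -/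
def psiS (p : FP) : EA :=
  (fT p, (Complex.normSq (fU p) - 1) / (Complex.normSq (fU p) + 1), fH0 p, fS p,
    ((2 / (1 + Complex.normSq (fU p)) : ℝ) : ℂ) * fU p, fZe p,
    ((nu (fU p))⁻¹ : ℝ) * (fZ p * conj (fU p)), ((nu (fU p))⁻¹ : ℝ) * fZ p,
    ((nu (fU p))⁻¹ : ℝ) * (fH p * conj (fU p)), ((nu (fU p))⁻¹ : ℝ) * fH p)

/-- Inverse of `psiS`, on the ambient open set `w₁ < 1`. -/
def rhoS (z : EA) : FP :=
  let u : ℂ := ((1 - eW1 z)⁻¹ : ℝ) * eW z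
  (eT z, u, eH0 z, ((nu u)⁻¹ : ℝ) * (u * eK0 z + eK1 z), eZe z,
    ((nu u)⁻¹ : ℝ) * (u * eV0 z + eV1 z), eS z)

/-- Model space of the 7-manifold: `(t, u, ·, ·)`. -/
abbrev H7 : Type := ℝ × ℂ × ℂ × ℂ

/-- Chart of `FPS La`: `ζ = b y`, `z = y`, sign `sg = ±1` of `s`; domain `|y|²(1+|b|²) < La²`. -/
def cB (La sg : ℝ) (p : H7) : FP :=
  (p.1, p.2.1, (Complex.normSq p.2.2.1 - 1) / (Complex.normSq p.2.2.1 + 1),
    ((2 / (1 + Complex.normSq p.2.2.1) : ℝ) : ℂ) * conj p.2.2.1,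
    p.2.2.1 * p.2.2.2, p.2.2.2,
    sg * Real.sqrt (La ^ 2 - Complex.normSq p.2.2.2 * (1 + Complex.normSq p.2.2.1)))

/-- Chart of `FPS La`: `ζ = y`, `z = β y`. -/
def cA (La sg : ℝ) (p : H7) : FP :=
  (p.1, p.2.1, (1 - Complex.normSq p.2.2.1) / (1 + Complex.normSq p.2.2.1),
    ((2 / (1 + Complex.normSq p.2.2.1) : ℝ) : ℂ) * p.2.2.1,
    p.2.2.2, p.2.2.1 * p.2.2.2,
    sg * Real.sqrt (La ^ 2 - Complex.normSq p.2.2.2 * (1 + Complex.normSq p.2.2.1)))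

/-- Chart of `FPS La` off `ζ = z = 0`: `Q = (ζ, z) / (La - s)`, domain `Q ≠ 0`. -/
def cQ (La : ℝ) (p : H7) : FP :=
  let r : ℝ := Complex.normSq p.2.2.1 + Complex.normSq p.2.2.2
  (p.1, p.2.1, (Complex.normSq p.2.2.1 - Complex.normSq p.2.2.2) / r,
    ((2 / r : ℝ) : ℂ) * (conj p.2.2.1 * p.2.2.2),
    ((2 * La / (1 + r) : ℝ) : ℂ) * p.2.2.1, ((2 * La / (1 + r) : ℝ) : ℂ) * p.2.2.2,
    La * (r - 1) / (r + 1))

/-! ### Vectors of `ℝ³` -/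

/-- `ℝ³`, as triples. -/
abbrev V3 : Type := ℝ × ℝ × ℝ

def dot3 (a b : V3) : ℝ := a.1 * b.1 + a.2.1 * b.2.1 + a.2.2 * b.2.2

def cross3 (a b : V3) : V3 :=
  (a.2.1 * b.2.2 - a.2.2 * b.2.1, a.2.2 * b.1 - a.1 * b.2.2, a.1 * b.2.1 - a.2.1 * b.1)

def nsq3 (a : V3) : ℝ := a.1 ^ 2 + a.2.1 ^ 2 + a.2.2 ^ 2

/-- Gradient. -/
def grad3 (f : V3 → ℝ) (x : V3) : V3 :=
  (fderiv ℝ f x (1, 0, 0), fderiv ℝ f x (0, 1, 0), fderiv ℝ f x (0, 0, 1))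

/-- Curl. -/
def curl3 (f : V3 → V3) (x : V3) : V3 :=
  ((fderiv ℝ f x (0, 1, 0)).2.2 - (fderiv ℝ f x (0, 0, 1)).2.1,
    (fderiv ℝ f x (0, 0, 1)).1 - (fderiv ℝ f x (1, 0, 0)).2.2,
    (fderiv ℝ f x (1, 0, 0)).2.1 - (fderiv ℝ f x (0, 1, 0)).1)

/-- Quaternions with real coordinates `(g₀, g₁, g₂, g₃)`, `g = g₀ + g₁ i + g₂ j + g₃ k`. -/
abbrev V4 : Type := ℝ × ℝ × ℝ × ℝ

def nsq4 (g : V4) : ℝ := g.1 ^ 2 + g.2.1 ^ 2 + g.2.2.1 ^ 2 + g.2.2.2 ^ 2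

/-- `- g i ḡ`, as a vector of `ℝ³ = Im ℍ`. -/
def nrm (g : V4) : V3 :=
  (-(g.1 ^ 2 + g.2.1 ^ 2 - g.2.2.1 ^ 2 - g.2.2.2 ^ 2),
    -(2 * (g.2.1 * g.2.2.1 + g.1 * g.2.2.2)), -(2 * (g.2.1 * g.2.2.2 - g.1 * g.2.2.1)))

/-- `c₀(x) = x₁ (|x|² - 1) + 2 x₂ x₃`; its zero set is the plane `x₁ = 0` with one handle. -/
def c0 (x : V3) : ℝ := x.1 * (nsq3 x - 1) + 2 * x.2.1 * x.2.2

/-- All that the rest of the proof uses of the explicit handle. -/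
structure Handle where
  (c : V3 → ℝ)
  (ga : V3 → V3)
  (g : V3 → V4)
  (B L K Sb : ℝ)
  hL : 1 ≤ L
  hLB : L < B
  hK : 0 < K
  c_smooth : ContDiff ℝ ∞ c
  ga_smooth : ContDiff ℝ ∞ ga
  g_smooth : ContDiff ℝ ∞ g
  /-- near the core `c` is a positive multiple of `c₀` -/
  c_core : ∀ x, nsq3 x ≤ L ^ 2 → c x = K * c0 x / (1 + nsq3 x)
  c_far : ∀ x, B ^ 2 ≤ nsq3 x → c x = x.1
  ga_far : ∀ x, B ^ 2 ≤ nsq3 x → ga x = 0
  c_mono : ∀ x, L ^ 2 ≤ nsq3 x ∨ 3 / 4 ≤ |x.1| → 0 < fderiv ℝ c x (1, 0, 0)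
  c_bound : ∀ x, |c x - x.1| ≤ Sb
  g_unit : ∀ x, nsq4 (g x) = 1
  g_ne : ∀ x, g x ≠ (-1, 0, 0, 0)
  /-- far out `g = x' / |x'|`, `x' = x₂ j + x₃ k` -/
  g_far : ∀ x : V3, B ^ 2 ≤ x.2.1 ^ 2 + x.2.2 ^ 2 →
    g x = (0, 0, x.2.1 / Real.sqrt (x.2.1 ^ 2 + x.2.2 ^ 2),
      x.2.2 / Real.sqrt (x.2.1 ^ 2 + x.2.2 ^ 2))
  /-- tameness at the points of the surface `c = 0`; `V = e₁ + curl ga`, `N = grad c`,
  `n = - g i ḡ` -/
  tame_pos : ∀ x, c x = 0 → 0 < dot3 ((1, 0, 0) + curl3 ga x) (nrm (g x))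
  tame : ∀ x, c x = 0 →
    nsq3 ((1, 0, 0) + curl3 ga x - grad3 c x)
      - (dot3 ((1, 0, 0) + curl3 ga x - grad3 c x) (nrm (g x))) ^ 2
    < 4 * dot3 ((1, 0, 0) + curl3 ga x) (nrm (g x)) * dot3 (grad3 c x) (nrm (g x))

/-! ### The functions on the two sides -/

/-- Smooth cut-off function: `1` on `s ≤ a`, `0` on `a + T ≤ s`. -/
def cut (a T s : ℝ) : ℝ := 1 - Real.smoothTransition ((s - a) / T)

/-- The parameters of the construction besides the handle. -/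
structure Par where
  (hd : Handle)
  (T La rb : ℝ)

/-- Radius of the ball of all modifications. -/
def Par.Q (P : Par) : ℝ := P.hd.B + P.hd.Sb + P.T + 2

/-- `ψ_c`, a function of `|Im q|²`. -/
def Par.psic (P : Par) (s : ℝ) : ℝ := cut 1 (P.T ^ 2) s

/-- `χ_q`, a function of `|q|²`. -/
def Par.chiq (P : Par) (s : ℝ) : ℝ := cut (P.Q ^ 2) 1 s

/-- `λ_b`, a function of `|q|²`: `1` for `|q|² ≤ rb²/4`, `0` for `|q|² ≥ rb²`. -/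
def Par.lamb (P : Par) (s : ℝ) : ℝ := cut (1 / 4) (3 / 4) (s / P.rb ^ 2)

/-- The interpolated quaternion `(1 - l) + l g`, not normalised. -/
def mixq (l : ℝ) (g : V4) : V4 := (1 - l + l * g.1, l * g.2.1, l * g.2.2.1, l * g.2.2.2)

/-- The components of `q ḡ / |g|`, where `q = ζ + j z`. -/
def qgbar (ze z : ℂ) (g : V4) : V4 :=
  let gC : ℂ := ⟨g.1, g.2.1⟩
  let gJ : ℂ := ⟨g.2.2.1, -g.2.2.2⟩
  let A : ℂ := ze * conj gC + conj z * gJ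
  let B : ℂ := z * conj gC - conj ze * gJ
  let n : ℝ := Real.sqrt (nsq4 g)
  (A.re / n, A.im / n, B.re / n, -B.im / n)

/-- `|q|²`. -/
def qsq (ze z : ℂ) : ℝ := Complex.normSq ze + Complex.normSq z

/-- The point `x` of `ℝ³`. -/
def xpt (t : ℝ) (u : ℂ) : V3 := (t, u.re, u.im)

/-- `q` in the untwisted frame (for the parameter `τ` of the twist), on the side `N`, `s < 0`. -/
def Par.yy (P : Par) (τ : ℝ) (t : ℝ) (u ze z : ℂ) : V4 :=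
  qgbar ze z (mixq (τ * P.lamb (qsq ze z)) (P.hd.g (xpt t u)))

/-- The defining function on the side `N`, for `s < 0`. -/
def Par.FNm (P : Par) (τ : ℝ) (t : ℝ) (u ze z : ℂ) : ℝ :=
  let y := P.yy τ t u ze z
  t + P.psic (y.2.1 ^ 2 + y.2.2.1 ^ 2 + y.2.2.2 ^ 2) * P.chiq (qsq ze z)
      * (P.hd.c (xpt t u) - t) - y.1

/-- The defining function on the side `N`. -/
def Par.FN (P : Par) (τ : ℝ) (p : FP) : ℝ :=
  if fS p < 0 then P.FNm τ (fT p) (fU p) (fZe p) (fZ p) else fT p - (fZe p).re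

/-- The defining function on the side `S`, for `s < 0`: `t - Re (q ḡ)`, `g = (1 - l) + l j`. -/
def Par.FSm (P : Par) (τ : ℝ) (t : ℝ) (ze z : ℂ) : ℝ :=
  let l := τ * P.lamb (qsq ze z)
  t - ((1 - l) * ze.re + l * z.re) / Real.sqrt ((1 - l) ^ 2 + l ^ 2)

/-- The defining function on the side `S`. -/
def Par.FS (P : Par) (τ : ℝ) (p : FP) : ℝ :=
  if fS p < 0 then P.FSm τ (fT p) (fZe p) (fZ p) else fT p - (fZe p).re

/-- The twisted family of functions on `WS La`; `τ = 1` defines `M'`. -/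
def Par.FD (P : Par) (τ : ℝ) (z : EA) : ℝ :=
  if -1 < eW1 z then P.FN τ (rhoN z) else P.FS τ (rhoS z)

/-- The manifold `M`. -/
def Par.M (P : Par) : Set EA := {z | z ∈ WS P.La ∧ eT z = (eZe z).re}

/-- The manifold `M'`. -/
def Par.M' (P : Par) : Set EA := {z | z ∈ WS P.La ∧ P.FD 1 z = 0}

/-! ### The two untwisted families (isotopies (a) and (b)) -/

/-- `R = (|b|² + |z|²) / 2`, `|b|² = |ζ|²/|z|² = (1 + h₀)/(1 - h₀)`. -/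
def Rr (h0 : ℝ) (z : ℂ) : ℝ := ((1 + h0) / (1 - h0) + Complex.normSq z) / 2

/-- `ψ_R`. -/
def Par.psiR (P : Par) (s : ℝ) : ℝ := cut (1 / 4) P.T s

/-- The family (a), on the side `N`. -/
def Par.FaN (P : Par) (τ : ℝ) (p : FP) : ℝ :=
  if fS p < 0 then
    fT p + ((1 - τ) * (P.psic ((fZe p).im ^ 2 + Complex.normSq (fZ p)) * P.chiq (qsq (fZe p) (fZ p)))
      + τ * (if fH0 p < 1 then P.psiR (Rr (fH0 p) (fZ p)) else 0))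
      * (P.hd.c (xpt (fT p) (fU p)) - fT p) - (fZe p).re
  else fT p - (fZe p).re

/-- The family (a). -/
def Par.Fa (P : Par) (τ : ℝ) (z : EA) : ℝ :=
  if -1 < eW1 z then P.FaN τ (rhoN z) else eT z - (eZe z).re

/-- The final function `C(x, R)`, from the profiles `m`, `n` (functions of `|x|² + R`). -/
def Cfin (m n : ℝ → ℝ) (x : V3) (R : ℝ) : ℝ :=
  x.1 * m (nsq3 x + R) + 2 * n (nsq3 x + R) * x.2.1 * x.2.2

/-- The family (b), on the side `N`. -/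
def Par.FbN (P : Par) (m n : ℝ → ℝ) (τ : ℝ) (p : FP) : ℝ :=
  if fS p < 0 ∧ fH0 p < 1 then
    (1 - τ) * (fT p + P.psiR (Rr (fH0 p) (fZ p)) * (P.hd.c (xpt (fT p) (fU p)) - fT p))
      + τ * Cfin m n (xpt (fT p) (fU p)) (Rr (fH0 p) (fZ p)) - (fZe p).re
  else fT p - (fZe p).re

/-- The family (b). -/
def Par.Fb (P : Par) (m n : ℝ → ℝ) (τ : ℝ) (z : EA) : ℝ :=
  if -1 < eW1 z then P.FbN m n τ (rhoN z) else eT z - (eZe z).re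

/-- Properties of the profiles `m`, `n`. -/
structure Prof (m n : ℝ → ℝ) (s0 s1 : ℝ) : Prop where
  s0_large : 10 ^ 6 ≤ s0
  s1_gt : 2 * s0 < s1
  m_smooth : ContDiff ℝ ∞ m
  n_smooth : ContDiff ℝ ∞ n
  m_core : ∀ s, s ≤ 2 * s0 → m s = s - 1
  m_far : ∀ s, s1 ≤ s → m s = 1
  n_core : ∀ s, s ≤ s0 → n s = 1
  n_far : ∀ s, 2 * s0 ≤ s → n s = 0
  mono : ∀ s, s0 ≤ s → ∀ r, 0 ≤ r → r ≤ s →
    4 * |deriv n s| * (s * Real.sqrt s) < m s + 2 * r * deriv m s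

/-- The final manifold. -/
def Par.Mfin (P : Par) (m n : ℝ → ℝ) : Set EA := {z | z ∈ WS P.La ∧ P.Fb m n 1 z = 0}

end

end Pool.Agent.H34.SY
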