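import Pool.Agent.H34.SY.SH

/-!
# Row SI: the function `GM`

`GM r = F(s(r))`, `s(r) = La (r-1)/(r+1)`, `s'(r) = 2La/(r+1)²`, `La² - s² = 4 La² r/(1+r)²`,
`F(s) = f0(s) + eps chi(La² - s²)` for `s < 0`, `F = f0` for `s ≥ 0` (and `chi = 0` for `La² - s² ≥ r0²`, in
particular for `|s| ≤ La/2`, because `r0 ≤ 1 < La`).  `F' = f0' - 2 s eps chi'(La² - s²)`; where `chi' ≠ 0` one has
`s < -La/2`, `f0' = -s`, so `F' = -s (1 + 2 eps chi') > 0`.  `GM > 0` for `r > 0` since `f0 > 0` on `s > -La`, `chi ≥ 0`.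
-/

open Set Topology
open scoped ContDiff ComplexConjugate

namespace Pool.Agent.H34.SY

namespace FPar

/-- Smallness of `eps`. -/
structure Ok1 (P : FPar) : Prop extends P.Ok0 where
  small1 : ∀ r, 2 * P.eps * |deriv P.chi r| < 1
  small2 : ∀ s, 0 ≤ s → 2 * P.eps * (P.ka s + s * deriv P.ka s) < P.kr s + s * deriv P.kr s

/-- `s` as a function of `r`. -/
noncomputable def SI_s (P : FPar) (r : ℝ) : ℝ := P.La * (r - 1) / (r + 1)

/-- `|q|²` as a function of `r`. -/
noncomputable def SI_u (P : FPar) (r : ℝ) : ℝ := 4 * P.La ^ 2 * r / (1 + r) ^ 2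

theorem SI_s_has (P : FPar) {r : ℝ} (hr : 0 < r) :
    HasDerivAt P.SI_s (2 * P.La / (r + 1) ^ 2) r := by
  have h1 : HasDerivAt (fun y : ℝ => P.La * (y - 1)) (P.La * 1) r :=
    ((hasDerivAt_id r).sub_const 1).const_mul P.La
  have h2 : HasDerivAt (fun y : ℝ => y + 1) 1 r := (hasDerivAt_id r).add_const 1
  have h3 := h1.div h2 (by linarith)
  refine h3.congr_deriv ?_
  congr 1
  ring

theorem SI_u_has (P : FPar) {r : ℝ} (hr : 0 < r) :
    HasDerivAt P.SI_u (-(2 * P.SI_s r * (2 * P.La / (r + 1) ^ 2))) r := by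
  have h1 : HasDerivAt (fun y : ℝ => 4 * P.La ^ 2 * y) (4 * P.La ^ 2 * 1) r :=
    (hasDerivAt_id r).const_mul (4 * P.La ^ 2)
  have h2 : HasDerivAt (fun y : ℝ => 1 + y) 1 r := (hasDerivAt_id r).const_add 1
  have h3 : HasDerivAt (fun y : ℝ => (1 + y) ^ 2) (((2 : ℕ) : ℝ) * (1 + r) ^ (2 - 1) * 1) r :=
    h2.pow 2
  have hne : (1 + r) ^ 2 ≠ 0 := by positivity
  have h4 := h1.div h3 hne
  refine h4.congr_deriv ?_
  unfold SI_s
  have hr1 : r + 1 ≠ 0 := by linarith
  have hr2 : 1 + r ≠ 0 := by linarith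
  have e : r + 1 = 1 + r := by ring
  rw [e]
  field_simp
  push_cast
  ring

theorem SI_id (P : FPar) {r : ℝ} (hr : 0 < r) : P.SI_u r = P.La ^ 2 - P.SI_s r ^ 2 := by
  unfold SI_u SI_s
  have hr1 : r + 1 ≠ 0 := by linarith
  have e : 1 + r = r + 1 := by ring
  rw [e]
  field_simp
  ring

theorem SI_s_smooth (P : FPar) {r : ℝ} (hr : 0 < r) : ContDiffAt ℝ ∞ P.SI_s r :=
  (contDiffAt_const.mul (contDiffAt_id.sub contDiffAt_const)).div
    (contDiffAt_id.add contDiffAt_const) (show r + 1 ≠ 0 by linarith)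

theorem SI_u_smooth (P : FPar) {r : ℝ} (hr : 0 < r) : ContDiffAt ℝ ∞ P.SI_u r :=
  (contDiffAt_const.mul contDiffAt_id).div
    ((contDiffAt_const.add contDiffAt_id).pow 2) (show (1 + r) ^ 2 ≠ 0 by positivity)

theorem SI_s_gt (P : FPar) (h : P.Ok1) {r : ℝ} (hr : 0 < r) : -P.La < P.SI_s r := by
  unfold SI_s
  have hLa := h.La
  rw [lt_div_iff₀ (by linarith)]
  nlinarith

theorem SI_lt (P : FPar) {r : ℝ} (h1 : r < 1) :
    P.GM =ᶠ[𝓝 r] fun y => P.f0 (P.SI_s y) + P.eps * P.chi (P.SI_u y) := by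
  filter_upwards [Iio_mem_nhds h1] with y hy
  unfold GM
  rw [if_pos (show y < 1 from hy)]
  rfl

theorem SI_ge (P : FPar) (h : P.Ok1) {r : ℝ} (hr : 0 < r) (h1 : 1 ≤ r) :
    P.GM =ᶠ[𝓝 r] fun y => P.f0 (P.SI_s y) := by
  have hLa := h.La
  have hr0 := h.r0
  have hr1 := h.r1
  have hch := (P.chi_props hr0).2.2.1
  have key : ∀ᶠ y in 𝓝 r, ¬ y < 1 ∨ P.r0 ^ 2 ≤ P.SI_u y := by
    rcases h1.eq_or_lt with h2 | h2
    · have hc : ContinuousAt P.SI_u r := (P.SI_u_has hr).continuousAt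
      have hv : P.r0 ^ 2 < P.SI_u r := by
        rw [← h2]
        unfold SI_u
        have e : 4 * P.La ^ 2 * 1 / (1 + 1) ^ 2 = P.La ^ 2 := by ring
        rw [e]
        nlinarith
      filter_upwards [hc.eventually (lt_mem_nhds hv)] with y hy
      exact Or.inr hy.le
    · filter_upwards [Ioi_mem_nhds h2] with y hy
      exact Or.inl (not_lt.2 (le_of_lt hy))
  filter_upwards [key] with y hy
  unfold GM
  rcases hy with hy | hy
  · rw [if_neg hy, mul_zero, add_zero]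
    rfl
  · have e : (if y < 1 then P.chi (4 * P.La ^ 2 * y / (1 + y) ^ 2) else 0) = 0 := by
      split_ifs
      · exact hch _ hy
      · rfl
    rw [e, mul_zero, add_zero]
    rfl

theorem GM_props (P : FPar) (h : P.Ok1) (r : ℝ) (hr : 0 < r) :
    ContDiffAt ℝ ∞ P.GM r ∧ 0 < P.GM r ∧ 0 < deriv P.GM r := by
  have hLa := h.La
  have hLa0 : 0 < P.La := by linarith
  obtain ⟨hf1, hf2, hf3, hf4, hf5, hf6⟩ := P.f0_props hLa0
  obtain ⟨hc1, hc2, hc3, hc4, hc5⟩ := P.chi_props h.r0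
  have hsp : 0 < 2 * P.La / (r + 1) ^ 2 := by positivity
  have hfd : HasDerivAt P.f0 (deriv P.f0 (P.SI_s r)) (P.SI_s r) :=
    (hf1.differentiable (by simp)).differentiableAt.hasDerivAt
  have hcd : HasDerivAt P.chi (deriv P.chi (P.SI_u r)) (P.SI_u r) :=
    (hc1.differentiable (by simp)).differentiableAt.hasDerivAt
  have hfs : HasDerivAt (fun y => P.f0 (P.SI_s y))
      (deriv P.f0 (P.SI_s r) * (2 * P.La / (r + 1) ^ 2)) r :=
    HasDerivAt.comp r hfd (P.SI_s_has hr)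
  have hcs : HasDerivAt (fun y => P.chi (P.SI_u y))
      (deriv P.chi (P.SI_u r) * (-(2 * P.SI_s r * (2 * P.La / (r + 1) ^ 2)))) r :=
    HasDerivAt.comp (h := P.SI_u) (h₂ := P.chi) r hcd (P.SI_u_has hr)
  have hfc : ContDiffAt ℝ ∞ (fun y => P.f0 (P.SI_s y)) r :=
    ContDiffAt.comp r hf1.contDiffAt (P.SI_s_smooth hr)
  have hcc : ContDiffAt ℝ ∞ (fun y => P.chi (P.SI_u y)) r :=
    ContDiffAt.comp (g := P.chi) r hc1.contDiffAt (P.SI_u_smooth hr)
  have hpos : 0 < P.GM r := by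
    unfold GM
    have h1 : 0 < P.f0 (P.La * (r - 1) / (r + 1)) := hf5 _ (P.SI_s_gt h hr)
    have h2 : 0 ≤ (if r < 1 then P.chi (4 * P.La ^ 2 * r / (1 + r) ^ 2) else 0) := by
      split_ifs
      · exact (hc4 _).1
      · exact le_refl _
    have h3 := mul_nonneg h.eps.le h2
    linarith
  refine ⟨?_, hpos, ?_⟩
  · rcases lt_or_ge r 1 with h1 | h1
    · exact (hfc.add (contDiffAt_const.mul hcc)).congr_of_eventuallyEq (P.SI_lt h1)
    · exact hfc.congr_of_eventuallyEq (P.SI_ge h hr h1)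
  · rcases lt_or_ge r 1 with h1 | h1
    · have hsum : HasDerivAt (fun y => P.f0 (P.SI_s y) + P.eps * P.chi (P.SI_u y))
          (deriv P.f0 (P.SI_s r) * (2 * P.La / (r + 1) ^ 2) +
          P.eps * (deriv P.chi (P.SI_u r) * (-(2 * P.SI_s r * (2 * P.La / (r + 1) ^ 2))))) r :=
        hfs.add (hcs.const_mul P.eps)
      rw [(P.SI_lt h1).deriv_eq, hsum.deriv]
      have e : deriv P.f0 (P.SI_s r) * (2 * P.La / (r + 1) ^ 2) +
          P.eps * (deriv P.chi (P.SI_u r) * (-(2 * P.SI_s r * (2 * P.La / (r + 1) ^ 2)))) =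
          (2 * P.La / (r + 1) ^ 2) *
            (deriv P.f0 (P.SI_s r) - P.SI_s r * (2 * P.eps * deriv P.chi (P.SI_u r))) := by
        ring
      rw [e]
      refine mul_pos hsp ?_
      by_cases h2 : deriv P.chi (P.SI_u r) = 0
      · rw [h2, mul_zero, mul_zero, sub_zero]
        exact hf4 _
      · have h3 : P.SI_u r ≤ P.r0 ^ 2 := by
          by_contra hc
          push Not at hc
          apply h2
          have h4 : P.chi =ᶠ[𝓝 (P.SI_u r)] fun _ => (0 : ℝ) := by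
            filter_upwards [Ioi_mem_nhds hc] with y hy
            exact hc3 y (le_of_lt hy)
          rw [h4.deriv_eq, deriv_const]
        have h4 := P.SI_id hr
        have h5 : P.r0 ^ 2 ≤ 1 := by
          have := h.r0
          have := h.r1
          nlinarith
        have h6 : P.SI_s r < 0 := by
          unfold SI_s
          exact div_neg_of_neg_of_pos (by nlinarith) (by linarith)
        have h7 : P.SI_s r < -P.La / 2 := by
          by_contra hc
          push Not at hc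
          nlinarith
        have h8 : deriv P.f0 (P.SI_s r) = -P.SI_s r := by
          have h9 : P.f0 =ᶠ[𝓝 (P.SI_s r)] fun y => (P.La ^ 2 - y ^ 2) / 2 := by
            filter_upwards [Iio_mem_nhds h7] with y hy
            exact hf2 y (le_of_lt hy)
          rw [h9.deriv_eq]
          have h10 : HasDerivAt (fun y : ℝ => (P.La ^ 2 - y ^ 2) / 2)
              (-(((2 : ℕ) : ℝ) * P.SI_s r ^ (2 - 1)) / 2) (P.SI_s r) :=
            ((hasDerivAt_pow 2 (P.SI_s r)).const_sub (P.La ^ 2)).div_const 2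
          rw [h10.deriv]
          simp
          ring
        rw [h8]
        have h11 := h.small1 (P.SI_u r)
        have h12 : -(2 * P.eps * |deriv P.chi (P.SI_u r)|) ≤ 2 * P.eps * deriv P.chi (P.SI_u r) := by
          have h13 := neg_abs_le (deriv P.chi (P.SI_u r))
          have h14 := h.eps
          nlinarith
        have h15 : 0 < 1 + 2 * P.eps * deriv P.chi (P.SI_u r) := by linarith
        have h16 := mul_pos (neg_pos.2 h6) h15
        linarith
    · rw [(P.SI_ge h hr h1).deriv_eq, hfs.deriv]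
      exact mul_pos (hf4 _) hsp

/-- `eps` can be chosen: both conditions hold for all small `eps`.  The functions `chi`, `ka`, `kr` do not depend on
`eps`; `deriv chi` is continuous with compact support (or zero outside `[0, r0²]`), and `ka_bound` (row SB). -/
theorem exists_small (hd : Handle) (T La rb T2 Ta r0 : ℝ) (hTa : 0 < Ta) (hr0 : 0 < r0) :
    ∃ e0 : ℝ, 0 < e0 ∧ ∀ eps : ℝ, 0 < eps → eps < e0 → ∀ P : FPar,
      P = ⟨⟨hd, T, La, rb⟩, T2, Ta, eps, r0⟩ →
      (∀ r, 2 * P.eps * |deriv P.chi r| < 1) ∧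
      (∀ s, 0 ≤ s → 2 * P.eps * (P.ka s + s * deriv P.ka s) < P.kr s + s * deriv P.kr s) := by
  obtain ⟨P0, hP0⟩ : ∃ P0 : FPar, P0 = ⟨⟨hd, T, La, rb⟩, T2, Ta, 1, r0⟩ := ⟨_, rfl⟩
  have hTa0 : 0 < P0.Ta := by rw [hP0]; exact hTa
  have hr00 : 0 < P0.r0 := by rw [hP0]; exact hr0
  obtain ⟨C1, hC1, h1⟩ := cut_slope
  obtain ⟨C2, hC2, h2⟩ := P0.ka_bound hTa0
  have h3 := (P0.kr_props hTa0).2.2.2
  have hchi : ∀ r, |deriv P0.chi r| ≤ C1 / (3 / 4) * (1 / r0 ^ 2) := by
    intro r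
    have h6 : HasDerivAt (fun y : ℝ => y / P0.r0 ^ 2) (1 / P0.r0 ^ 2) r :=
      (hasDerivAt_id r).div_const _
    have h7 : HasDerivAt P0.chi (deriv (cut (1 / 4) (3 / 4)) (r / P0.r0 ^ 2) * (1 / P0.r0 ^ 2)) r :=
      HasDerivAt.comp r (SB_cut_has (1 / 4) (3 / 4) (r / P0.r0 ^ 2)).differentiableAt.hasDerivAt h6
    have e : P0.r0 = r0 := by rw [hP0]
    rw [h7.deriv, e, abs_mul, abs_of_pos (show (0 : ℝ) < 1 / r0 ^ 2 by positivity)]
    exact mul_le_mul_of_nonneg_right (h1 _ _ (by norm_num) _) (by positivity)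
  set D := C1 / (3 / 4) * (1 / r0 ^ 2) with hD
  have hD0 : 0 < D := by positivity
  refine ⟨1 / (2 * (D + C2)), by positivity, fun eps he0 he1 P hP => ?_⟩
  have e1 : P.chi = P0.chi := by rw [hP, hP0]; rfl
  have e2 : P.ka = P0.ka := by rw [hP, hP0]; rfl
  have e3 : P.kr = P0.kr := by rw [hP, hP0]; rfl
  have e4 : P.eps = eps := by rw [hP]
  rw [e1, e2, e3, e4]
  rw [lt_div_iff₀ (by positivity)] at he1
  constructor
  · intro r
    have h4 := mul_le_mul_of_nonneg_left (hchi r) he0.le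
    have h5 := mul_pos he0 hC2
    linarith
  · intro s hs
    have h4 := mul_le_mul_of_nonneg_left (h2 s hs) he0.le
    have h5 := h3 s hs
    have h6 := mul_pos he0 hD0
    have h7 : 2 * (eps * C2) < 1 := by linarith
    have h8 := mul_lt_mul_of_pos_right h7 h5
    rw [one_mul] at h8
    linarith

end FPar

end Pool.Agent.H34.SY
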