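import Pool.Agent.H34.SY.SA1
import Pool.Agent.H34.SY.CC

/-!
# Row SA2 (parts 4, 5): tangent vectors of `FPS La` and the key identity `d α = areaF`

(1) `tangent_FPS`: differentiate the four equations of `FPS La` along a curve.

(2) `dd_imF`: `imF c p b = Im (conj (c p) (c b))`, so `dd (imF c) p a b = 2 Im (conj (c a) (c b))`
(`D_a (imF c)(b) = Im (conj (c a) (c b))`, antisymmetric).

(3) `star`: for `p ∈ FPS La`, `q = (ζ, z) ≠ 0`, `r = |q|²`, tangent vectors `a`, `b` with components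
`ζa, za, ha, h0a`, ...:
`dd alq p a b = (2/r) (Im (conj ζa ζb) + Im (conj za zb)) - (2/r²) (ra * β b - rb * β a)`, where
`ra = Re (conj ζ ζa + conj z za)` and `β b = Im (conj ζ ζb + conj z zb)` (product rule `dd_smul`,
`fderiv (1/r) a = - 2 ra / r²`), and
`areaF p a b = ½ (h0 Im (conj ha hb) - h0a Im (conj h hb) + h0b Im (conj h ha))`.
On `FPS`, off `q = 0`: `h0 = (|ζ|²-|z|²)/r`, `h = 2 conj ζ z / r` (from the equations); the same formulas hold
along curves, so `h0a`, `ha` are the derivatives of these two functions of `(ζ, z)` in the direction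
`(ζa, za)`: prove first `h0a = d/da`, `ha = d/da` (apply `IsTangent.map`/the curve: the functions
`h0 - (|ζ|²-|z|²)/r` and `h - 2 conj ζ z / r` vanish on `FPS` near `p`).  Then both sides are explicit
rational functions of the real and imaginary parts of `ζ, z, ζa, za, ζb, zb`: `field_simp; ring` (or first
multiply by `r³`).  If the real computation is too big: both sides are invariant under `(ζ,z) ↦ (ζ,z) e^{iφ}`
..., but a direct `ring` after clearing denominators works (degree 8 in 12 variables).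

(4) `dd_Ab`, `dd_Abe`: same with `A = -½ Im (conj h dh)/(1-h0)` on the sphere `h0² + |h|² = 1`,
tangent: `h0 h0a + Re (conj h ha) = 0`.  `dd Ab p a b = -Im(conj ha hb)/(1-h0) - ½ (h0a Im(conj h hb) -
h0b Im (conj h ha))/(1-h0)²`.  To prove: this equals `areaF`.  Multiply by `2(1-h0)²`; with
`X = Im (conj ha hb)`, `Y = Im (conj h hb)`, `Y' = Im (conj h ha)`, one uses
`|h|² X = Re(conj h ha) Y - Re (conj h hb) Y' = h0 (h0b Y' - h0a Y)` and `|h|² = (1-h0)(1+h0)`; treat the case
`h = 0` (i.e. `h0 = -1`, since `h0 < 1`; then `h0a = h0b = 0`) separately.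

(5) `areaF` is closed on `FPS`: near a point with `h0 < 1` it is `dd Ab` on tangent vectors, near a point with
`h0 > -1` it is `dd Abe`.  Uses rows CA, CB, CC (add the imports).
-/

open Set Topology
open scoped ContDiff ComplexConjugate

namespace Pool.Agent.H34.SY

theorem SA2_smul {E G : Type} [NormedAddCommGroup E] [NormedSpace ℝ E] [NormedAddCommGroup G]
    [NormedSpace ℝ G] (f : E → ℝ) (A : E → G) (hf : ContDiff ℝ ∞ f) (hA : ContDiff ℝ ∞ A) :
    ContDiff ℝ ∞ (fun p => f p • A p) := ContDiff.smul hf hA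

theorem SA2_cd {E : Type} [NormedAddCommGroup E] [NormedSpace ℝ E] (f : E → ℝ) (A : Form E)
    (c : E →L[ℝ] ℝ) (l : Form1 E) (hf : ContDiff ℝ ∞ f) (hA : ContDiff ℝ ∞ A)
    (hl : ContDiff ℝ ∞ l) :
    ContDiff ℝ ∞ (fun p => (1 / 2 : ℝ) • ((f p / 2) • A p - wdg c (l p))) := by
  have h3 : ContDiff ℝ ∞ (fun p : E => wdg c (l p)) := by
    unfold wdg
    exact (contDiff_const.smulRight hl).sub (hl.smulRight contDiff_const)
  exact ((SA2_smul _ _ (hf.div_const 2) hA).sub h3).const_smul (1 / 2 : ℝ)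

theorem SA2_fderiv (e : ℝ) (c : ℝ) (p : FP) (h : 1 + e * fH0 p ≠ 0) :
    HasFDerivAt (fun p : FP => c / (2 * (1 + e * fH0 p)))
      ((-(c * e / (2 * (1 + e * fH0 p) ^ 2))) • pH0) p := by
  have h1 : HasFDerivAt (fun p : FP => fH0 p) pH0 p := pH0.hasFDerivAt
  have h2 : HasFDerivAt (fun p : FP => 2 * (1 + e * fH0 p)) ((2 : ℝ) • (e • pH0)) p :=
    ((h1.const_mul e).const_add 1).const_mul 2
  have hne : 2 * (1 + e * fH0 p) ≠ 0 := mul_ne_zero two_ne_zero h
  have h3 := ((hasDerivAt_inv hne).comp_hasFDerivAt p h2).const_mul c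
  have e1 : (fun p : FP => c / (2 * (1 + e * fH0 p))) =
      fun y => c * ((fun x => x⁻¹) ∘ fun p : FP => 2 * (1 + e * fH0 p)) y := by
    funext y
    simp only [Function.comp_apply]
    rw [div_eq_mul_inv]
  rw [e1]
  have e2 : (-(c * e / (2 * (1 + e * fH0 p) ^ 2))) • pH0 =
      c • (-((2 * (1 + e * fH0 p)) ^ 2)⁻¹) • ((2 : ℝ) • (e • pH0)) := by
    rw [smul_smul, smul_smul, smul_smul]
    congr 1
    field_simp
  rw [e2]
  exact h3

theorem SA2_dd (e c : ℝ) (l : Form1 FP)
    (hl : l = fun p => (c / (2 * (1 + e * fH0 p))) • imF pH p) (p a b : FP)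
    (h : 1 + e * fH0 p ≠ 0) :
    dd l p a b = (-(c * e / (2 * (1 + e * fH0 p) ^ 2))) *
        (fH0 a * (conj (fH p) * fH b).im - fH0 b * (conj (fH p) * fH a).im)
      + c / (1 + e * fH0 p) * (conj (fH a) * fH b).im := by
  have hf := SA2_fderiv e c p h
  rw [hl, dd_smul hf.differentiableAt ((contDiff_imF pH).differentiable (by simp)).differentiableAt,
    hf.fderiv]
  rw [add_apply, add_apply, wdg_apply, smul_apply, smul_apply, smul_apply, smul_apply, dd_imF,
    imF_apply, imF_apply]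
  have e1 : pH0 a = fH0 a := rfl
  have e2 : pH0 b = fH0 b := rfl
  have e3 : pH a = fH a := rfl
  have e4 : pH b = fH b := rfl
  have e5 : pH p = fH p := rfl
  rw [e1, e2, e3, e4, e5, smul_eq_mul, smul_eq_mul, smul_eq_mul]
  have e6 : c / (2 * (1 + e * fH0 p)) * 2 = c / (1 + e * fH0 p) := by
    field_simp
  rw [← e6]
  ring

theorem SA2_key {La : ℝ} {p a b : FP} (hp : p ∈ FPS La)
    (ha : IsTangent (FPS La) p a) (hb : IsTangent (FPS La) p b) :
    (1 - fH0 p ^ 2) * (conj (fH a) * fH b).im = -fH0 p *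
      (fH0 a * (conj (fH p) * fH b).im - fH0 b * (conj (fH p) * fH a).im) := by
  have h1 := (tangent_FPS ha).1
  have h2 := (tangent_FPS hb).1
  have h3 : fH0 p ^ 2 + Complex.normSq (fH p) = 1 := hp.1
  have h4 : Complex.normSq (fH p) * (conj (fH a) * fH b).im =
      (conj (fH p) * fH a).re * (conj (fH p) * fH b).im -
        (conj (fH p) * fH b).re * (conj (fH p) * fH a).im := by
    rw [Complex.normSq_apply]
    simp only [Complex.mul_re, Complex.mul_im, Complex.conj_re, Complex.conj_im]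
    ring
  have h5 : (conj (fH p) * fH a).re = -(fH0 p * fH0 a) := by linarith
  have h6 : (conj (fH p) * fH b).re = -(fH0 p * fH0 b) := by linarith
  rw [h5, h6] at h4
  have h7 : 1 - fH0 p ^ 2 = Complex.normSq (fH p) := by linarith
  rw [h7, h4]
  ring

theorem SA2_both {La : ℝ} {p a b : FP} (hp : p ∈ FPS La) (e : ℝ) (he : e ^ 2 = 1)
    (l : Form1 FP) (hl : l = fun p => (e / (2 * (1 + e * fH0 p))) • imF pH p)
    (h0 : 0 < 1 + e * fH0 p) (ha : IsTangent (FPS La) p a) (hb : IsTangent (FPS La) p b) :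
    dd l p a b = areaF p a b := by
  rw [SA2_dd e e l hl p a b h0.ne', areaF_apply]
  have hk := SA2_key hp ha hb
  obtain ⟨X, hX⟩ : ∃ X, X = (conj (fH a) * fH b).im := ⟨_, rfl⟩
  obtain ⟨Z, hZ⟩ : ∃ Z, Z = fH0 a * (conj (fH p) * fH b).im - fH0 b * (conj (fH p) * fH a).im :=
    ⟨_, rfl⟩
  have hr : (1 / 2) * (fH0 p * (conj (fH a) * fH b).im - fH0 a * (conj (fH p) * fH b).im
      + fH0 b * (conj (fH p) * fH a).im) = (1 / 2) * (fH0 p * X - Z) := by
    rw [hX, hZ]
    ring
  rw [hr, ← hX, ← hZ]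
  rw [← hX, ← hZ] at hk
  have hee : e * e = 1 := by rw [← sq]; exact he
  rw [hee]
  have hne := h0.ne'
  obtain ⟨t, ht⟩ : ∃ t, t = fH0 p := ⟨_, rfl⟩
  rw [← ht] at hk hne ⊢
  have h1 : e = 1 ∨ e = -1 := by
    have h2 : (e - 1) * (e + 1) = 0 := by linear_combination he
    rcases mul_eq_zero.1 h2 with h | h
    · exact Or.inl (by linarith)
    · exact Or.inr (by linarith)
  have h3 : ∀ A B : ℝ, A * (2 * (1 + e * t) ^ 2) = B * (2 * (1 + e * t) ^ 2) → A = B := by
    intro A B h
    exact mul_right_cancel₀ (mul_ne_zero two_ne_zero (pow_ne_zero 2 hne)) h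
  apply h3
  have h4 : (-(1 / (2 * (1 + e * t) ^ 2)) * Z + e / (1 + e * t) * X) * (2 * (1 + e * t) ^ 2) =
      -Z + 2 * e * (1 + e * t) * X := by
    field_simp
  rw [h4]
  rcases h1 with rfl | rfl
  · linear_combination (t + 2) * hk
  · linear_combination (t - 2) * hk

theorem dd_Ab {La : ℝ} {p a b : FP} (hp : p ∈ FPS La) (h0 : fH0 p < 1)
    (ha : IsTangent (FPS La) p a) (hb : IsTangent (FPS La) p b) :
    dd Ab p a b = areaF p a b := by
  refine SA2_both hp (-1) (by norm_num) Ab ?_ (by linarith) ha hb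
  funext p
  show (-(1 / (2 * (1 - fH0 p)))) • imF pH p = (-1 / (2 * (1 + -1 * fH0 p))) • imF pH p
  congr 1
  rw [show (1 : ℝ) + -1 * fH0 p = 1 - fH0 p by ring, neg_div]

theorem dd_Abe {La : ℝ} {p a b : FP} (hp : p ∈ FPS La) (h0 : -1 < fH0 p)
    (ha : IsTangent (FPS La) p a) (hb : IsTangent (FPS La) p b) :
    dd Abe p a b = areaF p a b := by
  refine SA2_both hp 1 (by norm_num) Abe ?_ (by linarith) ha hb
  funext p
  show (1 / (2 * (1 + fH0 p))) • imF pH p = (1 / (2 * (1 + 1 * fH0 p))) • imF pH p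
  rw [one_mul]

theorem contDiff_areaF : ContDiff ℝ ∞ areaF := by
  have h1 : ContDiff ℝ ∞ (fun p : FP => fH0 p) := pH0.contDiff
  have h2 : ContDiff ℝ ∞ (dd (imF pH)) := by
    rw [← contDiffOn_univ]
    exact contDiffOn_dd isOpen_univ (contDiff_imF pH).contDiffOn
  exact SA2_cd (fun p : FP => fH0 p) (dd (imF pH)) pH0 (imF pH) h1 h2 (contDiff_imF pH)

theorem areaF_closed (La : ℝ) : IsClosedForm (FPS La) areaF := by
  have hsm : ∀ e c : ℝ, ∀ U : Set FP, (∀ p ∈ U, 1 + e * fH0 p ≠ 0) →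
      ContDiffOn ℝ ∞ (fun p : FP => (c / (2 * (1 + e * fH0 p))) • imF pH p) U := by
    intro e c U hU
    have h1 : ContDiffOn ℝ ∞ (fun p : FP => fH0 p) U := pH0.contDiff.contDiffOn
    have h2 : ContDiffOn ℝ ∞ (fun p : FP => 2 * (1 + e * fH0 p)) U :=
      contDiffOn_const.mul (contDiffOn_const.add (contDiffOn_const.mul h1))
    exact (contDiffOn_const.div h2 (fun p hp => mul_ne_zero two_ne_zero (hU p hp))).smul
      (contDiff_imF pH).contDiffOn
  have hcont : Continuous (fun p : FP => fH0 p) := pH0.continuous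
  intro z hz
  by_cases h0 : fH0 z < 1
  · have hU : IsOpen {p : FP | fH0 p < 1} := isOpen_lt hcont continuous_const
    have hA : Ab = fun p : FP => ((-1) / (2 * (1 + (-1) * fH0 p))) • imF pH p := by
      funext p
      show (-(1 / (2 * (1 - fH0 p)))) • imF pH p = (-1 / (2 * (1 + -1 * fH0 p))) • imF pH p
      congr 1
      rw [show (1 : ℝ) + -1 * fH0 p = 1 - fH0 p by ring, neg_div]
    have hAs : ContDiffOn ℝ ∞ Ab {p : FP | fH0 p < 1} := by
      rw [hA]
      apply hsm
      intro p hp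
      have hp' : fH0 p < 1 := hp
      have : 0 < 1 + (-1) * fH0 p := by linarith
      exact this.ne'
    refine ⟨{p : FP | fH0 p < 1}, hU, h0, dd Ab, contDiffOn_dd hU hAs, fun y _ a => dd_self _ _ _,
      fun y hy a b c => extD_dd (CC_at hU hAs hy) a b c, ?_⟩
    intro y hy a b ha hb
    exact (dd_Ab hy.1 hy.2 ha hb).symm
  · have h1 : -1 < fH0 z := by
      have := not_lt.1 h0
      linarith
    have hU : IsOpen {p : FP | -1 < fH0 p} := isOpen_lt continuous_const hcont
    have hA : Abe = fun p : FP => (1 / (2 * (1 + 1 * fH0 p))) • imF pH p := by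
      funext p
      show (1 / (2 * (1 + fH0 p))) • imF pH p = (1 / (2 * (1 + 1 * fH0 p))) • imF pH p
      rw [one_mul]
    have hAs : ContDiffOn ℝ ∞ Abe {p : FP | -1 < fH0 p} := by
      rw [hA]
      apply hsm
      intro p hp
      have hp' : -1 < fH0 p := hp
      have : 0 < 1 + 1 * fH0 p := by linarith
      exact this.ne'
    refine ⟨{p : FP | -1 < fH0 p}, hU, h1, dd Abe, contDiffOn_dd hU hAs, fun y _ a => dd_self _ _ _,
      fun y hy a b c => extD_dd (CC_at hU hAs hy) a b c, ?_⟩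
    intro y hy a b ha hb
    exact (dd_Abe hy.1 hy.2 ha hb).symm

end Pool.Agent.H34.SY
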