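import Pool.Agent.H34.SY.Forms

/-!
# Row SA1 (parts 1, 2, 3 and `FPS_hopf`, `areaF_apply`): tangent vectors of `FPS La` and the key identity `d α = areaF`

(1) `tangent_FPS`: differentiate the four equations of `FPS La` along a curve.

(2) `dd_imF`: `imF c p b = Im (conj (c p) (c b))`, so `dd (imF c) p a b = 2 Im (conj (c a) (c b))`
(`D_a (imF c)(b) = Im (conj (c a) (c b))`, antisymmetric).

(3) `star`: for `p ∈ FPS La`, `q = (ζ, z) ≠ 0`, `r = |q|²`, tangent vectors `a`, `b` with components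
`ζa, za, ha, h0a`, ...:
`dd alq p a b = (2/r) (Im (conj ζa ζb) + Im (conj za zb)) - (2/r²) (ra * β b - rb * β a)`, where
`ra = Re (conj ζ ζa + conj z za)` and `β b = Im (conj ζ ζb + conj z zb)` (product rule `dd_smul`,
`fderiv (1/r) a = - 2 ra / r²`), and
`areaF p a b = ½ (h0 Im (conj ha hb) - h0a Im (conj h hb) + h0b Im (conj h ha))`.
On `FPS`, off `q = 0`: `h0 = (|ζ|²-|z|²)/r`, `h = 2 conj ζ z / r` (from the equations); the same formulas hold
along curves, so `h0a`, `ha` are the derivatives of these two functions of `(ζ, z)` in the direction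
`(ζa, za)`: prove first `h0a = d/da`, `ha = d/da` (apply `IsTangent.map`/the curve: the functions
`h0 - (|ζ|²-|z|²)/r` and `h - 2 conj ζ z / r` vanish on `FPS` near `p`).  Then both sides are explicit
rational functions of the real and imaginary parts of `ζ, z, ζa, za, ζb, zb`: `field_simp; ring` (or first
multiply by `r³`).  If the real computation is too big: both sides are invariant under `(ζ,z) ↦ (ζ,z) e^{iφ}`
..., but a direct `ring` after clearing denominators works (degree 8 in 12 variables).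

(4) `dd_Ab`, `dd_Abe`: same with `A = -½ Im (conj h dh)/(1-h0)` on the sphere `h0² + |h|² = 1`,
tangent: `h0 h0a + Re (conj h ha) = 0`.  `dd Ab p a b = -Im(conj ha hb)/(1-h0) - ½ (h0a Im(conj h hb) -
h0b Im (conj h ha))/(1-h0)²`.  To prove: this equals `areaF`.  Multiply by `2(1-h0)²`; with
`X = Im (conj ha hb)`, `Y = Im (conj h hb)`, `Y' = Im (conj h ha)`, one uses
`|h|² X = Re(conj h ha) Y - Re (conj h hb) Y' = h0 (h0b Y' - h0a Y)` and `|h|² = (1-h0)(1+h0)`; treat the case
`h = 0` (i.e. `h0 = -1`, since `h0 < 1`; then `h0a = h0b = 0`) separately.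

(5) `areaF` is closed on `FPS`: near a point with `h0 < 1` it is `dd Ab` on tangent vectors, near a point with
`h0 > -1` it is `dd Abe`.  Uses rows CA, CB, CC (add the imports).
-/

open Set Topology
open scoped ContDiff ComplexConjugate

namespace Pool.Agent.H34.SY

/-! ### auxiliary algebra -/

section alg

variable {Z W H Za Wa Ha Zb Wb Hb : ℂ} {k ka kb : ℝ}

/-- derivative of `h r = 2 conj ζ z`. -/
theorem SA1_F1 (e1 : ((1 + k : ℝ) : ℂ) * W = H * Z) (e2' : ((1 - k : ℝ) : ℂ) * conj Z = H * conj W)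
    (t2 : (ka : ℂ) * W + ((1 + k : ℝ) : ℂ) * Wa = Ha * Z + H * Za)
    (t3' : -(ka : ℂ) * conj Z + ((1 - k : ℝ) : ℂ) * conj Za = Ha * conj W + H * conj Wa) :
    (Z * conj Z + W * conj W) * Ha = 2 * (conj Za * W + conj Z * Wa) -
      H * (conj Z * Za + Z * conj Za + conj W * Wa + W * conj Wa) := by
  push_cast at *
  linear_combination (-conj Z) * t2 - W * t3' - conj Za * e1 - Wa * e2'

theorem SA1_F1' (e1' : ((1 + k : ℝ) : ℂ) * conj W = conj H * conj Z)
    (e2 : ((1 - k : ℝ) : ℂ) * Z = conj H * W)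
    (t2' : (ka : ℂ) * conj W + ((1 + k : ℝ) : ℂ) * conj Wa = conj Ha * conj Z + conj H * conj Za)
    (t3 : -(ka : ℂ) * Z + ((1 - k : ℝ) : ℂ) * Za = conj Ha * W + conj H * Wa) :
    (Z * conj Z + W * conj W) * conj Ha = 2 * (Za * conj W + Z * conj Wa) -
      conj H * (conj Z * Za + Z * conj Za + conj W * Wa + W * conj Wa) := by
  push_cast at *
  linear_combination (-Z) * t2' - conj W * t3 - Za * e1' - conj Wa * e2

theorem SA1_F0 (e1 : ((1 + k : ℝ) : ℂ) * W = H * Z) (e2 : ((1 - k : ℝ) : ℂ) * Z = conj H * W)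
    (e1' : ((1 + k : ℝ) : ℂ) * conj W = conj H * conj Z)
    (e2' : ((1 - k : ℝ) : ℂ) * conj Z = H * conj W)
    (t2 : (ka : ℂ) * W + ((1 + k : ℝ) : ℂ) * Wa = Ha * Z + H * Za)
    (t3 : -(ka : ℂ) * Z + ((1 - k : ℝ) : ℂ) * Za = conj Ha * W + conj H * Wa)
    (t2' : (ka : ℂ) * conj W + ((1 + k : ℝ) : ℂ) * conj Wa = conj Ha * conj Z + conj H * conj Za)
    (t3' : -(ka : ℂ) * conj Z + ((1 - k : ℝ) : ℂ) * conj Za = Ha * conj W + H * conj Wa) :
    2 * (Z * conj Z + W * conj W) * (ka : ℂ) =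
      2 * ((1 - k) * (conj Z * Za + Z * conj Za) - (1 + k) * (conj W * Wa + W * conj Wa)) := by
  push_cast at *
  linear_combination conj W * t2 + W * t2' - conj Z * t3 - Z * t3' + Wa * e1' + conj Wa * e1
    - Za * e2' - conj Za * e2

theorem SA1_FW (e1 : ((1 + k : ℝ) : ℂ) * W = H * Z) (e2 : ((1 - k : ℝ) : ℂ) * Z = conj H * W)
    (e1' : ((1 + k : ℝ) : ℂ) * conj W = conj H * conj Z)
    (e2' : ((1 - k : ℝ) : ℂ) * conj Z = H * conj W)
    (F : (Z * conj Z + W * conj W) * Hb = 2 * (conj Zb * W + conj Z * Wb) -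
      H * (conj Z * Zb + Z * conj Zb + conj W * Wb + W * conj Wb))
    (F' : (Z * conj Z + W * conj W) * conj Hb = 2 * (Zb * conj W + Z * conj Wb) -
      conj H * (conj Z * Zb + Z * conj Zb + conj W * Wb + W * conj Wb)) :
    (Z * conj Z + W * conj W) * (conj H * Hb - H * conj Hb) =
      2 * (1 - k) * (Z * conj Zb - conj Z * Zb) + 2 * (1 + k) * (conj W * Wb - W * conj Wb) := by
  push_cast at *
  linear_combination conj H * F - H * F' - 2 * conj Zb * e2 - 2 * Wb * e1' + 2 * Zb * e2'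
    + 2 * conj Wb * e1

theorem SA1_FH (e1 : ((1 + k : ℝ) : ℂ) * W = H * Z) (e2 : ((1 - k : ℝ) : ℂ) * Z = conj H * W)
    (e1' : ((1 + k : ℝ) : ℂ) * conj W = conj H * conj Z)
    (e2' : ((1 - k : ℝ) : ℂ) * conj Z = H * conj W)
    (Fa : (Z * conj Z + W * conj W) * Ha = 2 * (conj Za * W + conj Z * Wa) -
      H * (conj Z * Za + Z * conj Za + conj W * Wa + W * conj Wa))
    (Fa' : (Z * conj Z + W * conj W) * conj Ha = 2 * (Za * conj W + Z * conj Wa) -
      conj H * (conj Z * Za + Z * conj Za + conj W * Wa + W * conj Wa))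
    (Fb : (Z * conj Z + W * conj W) * Hb = 2 * (conj Zb * W + conj Z * Wb) -
      H * (conj Z * Zb + Z * conj Zb + conj W * Wb + W * conj Wb))
    (Fb' : (Z * conj Z + W * conj W) * conj Hb = 2 * (Zb * conj W + Z * conj Wb) -
      conj H * (conj Z * Zb + Z * conj Zb + conj W * Wb + W * conj Wb)) :
    (Z * conj Z + W * conj W) ^ 2 * (conj Ha * Hb - Ha * conj Hb) =
      4 * (-(W * conj W) * (conj Za * Zb - Za * conj Zb) + (Z * conj Z) * (conj Wa * Wb - Wa * conj Wb)
        + (conj Z * Za * (conj W * Wb) - Z * conj Za * (W * conj Wb))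
        + (Z * conj Zb * (conj Wa * W) - conj Z * Zb * (Wa * conj W)))
      + 2 * ((conj Z * Za + Z * conj Za + conj W * Wa + W * conj Wa) *
          ((1 - k) * (conj Z * Zb - Z * conj Zb) - (1 + k) * (conj W * Wb - W * conj Wb))
        - (conj Z * Zb + Z * conj Zb + conj W * Wb + W * conj Wb) *
          ((1 - k) * (conj Z * Za - Z * conj Za) - (1 + k) * (conj W * Wa - W * conj Wa))) := by
  push_cast at *
  linear_combination (Z * conj Z + W * conj W) * Hb * Fa'
    + (2 * (Za * conj W + Z * conj Wa) -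
      conj H * (conj Z * Za + Z * conj Za + conj W * Wa + W * conj Wa)) * Fb
    - (Z * conj Z + W * conj W) * conj Hb * Fa
    - (2 * (conj Za * W + conj Z * Wa) -
      H * (conj Z * Za + Z * conj Za + conj W * Wa + W * conj Wa)) * Fb'
    - (conj Z * Za + Z * conj Za + conj W * Wa + W * conj Wa) *
      (-2 * conj Zb * e2 - 2 * Wb * e1' + 2 * Zb * e2' + 2 * conj Wb * e1)
    + (conj Z * Zb + Z * conj Zb + conj W * Wb + W * conj Wb) *
      (-2 * conj Za * e2 - 2 * Wa * e1' + 2 * Za * e2' + 2 * conj Wa * e1)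

theorem SA1_real (r z w k ka kb A B S Pa Pb Qa Qb Xa Xb Ya Yb Va Vb : ℝ) (hr : r ≠ 0)
    (N1 : 2 * z = r * (1 + k)) (N2 : 2 * w = r * (1 - k))
    (E0a : r * ka = 2 * (1 - k) * Pa - 2 * (1 + k) * Qa)
    (E0b : r * kb = 2 * (1 - k) * Pb - 2 * (1 + k) * Qb)
    (EWa : r * Va = -2 * (1 - k) * Xa + 2 * (1 + k) * Ya)
    (EWb : r * Vb = -2 * (1 - k) * Xb + 2 * (1 + k) * Yb)
    (EA : z * A = Pa * Xb - Xa * Pb) (EB : w * B = Qa * Yb - Ya * Qb)
    (EH : r ^ 2 * S = 4 * (-w * A + z * B + (Pa * Yb + Xa * Qb) - (Pb * Ya + Xb * Qa)) +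
      4 * ((Pa + Qa) * ((1 - k) * Xb - (1 + k) * Yb) - (Pb + Qb) * ((1 - k) * Xa - (1 + k) * Ya))) :
    2 / r * (A + B) - 2 / r ^ 2 * ((Pa + Qa) * (Xb + Yb) - (Pb + Qb) * (Xa + Ya)) =
      1 / 2 * (k * S - ka * Vb + kb * Va) := by
  field_simp
  linear_combination (-k) * EH + (r * Vb) * E0a + (2 * (1 - k) * Pa - 2 * (1 + k) * Qa) * EWb
    - (r * Va) * E0b - (2 * (1 - k) * Pb - 2 * (1 + k) * Qb) * EWa + 4 * (2 - k) * EA
    + 4 * (2 + k) * EB + (2 * A * k - 2 * B * (2 + k)) * N2 + (-2 * A * (2 - k) - 2 * B * k) * N1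

theorem SA1_star (e1 : ((1 + k : ℝ) : ℂ) * W = H * Z) (e2 : ((1 - k : ℝ) : ℂ) * Z = conj H * W)
    (t2a : (ka : ℂ) * W + ((1 + k : ℝ) : ℂ) * Wa = Ha * Z + H * Za)
    (t3a : -(ka : ℂ) * Z + ((1 - k : ℝ) : ℂ) * Za = conj Ha * W + conj H * Wa)
    (t2b : (kb : ℂ) * W + ((1 + k : ℝ) : ℂ) * Wb = Hb * Z + H * Zb)
    (t3b : -(kb : ℂ) * Z + ((1 - k : ℝ) : ℂ) * Zb = conj Hb * W + conj H * Wb)
    (hr : Complex.normSq Z + Complex.normSq W ≠ 0) :
    2 / (Complex.normSq Z + Complex.normSq W) * ((conj Za * Zb).im + (conj Wa * Wb).im) -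
      2 / (Complex.normSq Z + Complex.normSq W) ^ 2 *
        (((conj Z * Za).re + (conj W * Wa).re) * ((conj Z * Zb).im + (conj W * Wb).im) -
          ((conj Z * Zb).re + (conj W * Wb).re) * ((conj Z * Za).im + (conj W * Wa).im)) =
      1 / 2 * (k * (conj Ha * Hb).im - ka * (conj H * Hb).im + kb * (conj H * Ha).im) := by
  have cc : ∀ {x y : ℂ}, x = y → conj x = conj y := fun h => by rw [h]
  have e1' : ((1 + k : ℝ) : ℂ) * conj W = conj H * conj Z := by
    have := cc e1
    simpa only [map_mul, Complex.conj_ofReal] using this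
  have e2' : ((1 - k : ℝ) : ℂ) * conj Z = H * conj W := by
    have := cc e2
    simpa only [map_mul, Complex.conj_ofReal, Complex.conj_conj] using this
  have t2a' : (ka : ℂ) * conj W + ((1 + k : ℝ) : ℂ) * conj Wa = conj Ha * conj Z + conj H * conj Za := by
    have := cc t2a
    simpa only [map_mul, map_add, Complex.conj_ofReal] using this
  have t2b' : (kb : ℂ) * conj W + ((1 + k : ℝ) : ℂ) * conj Wb = conj Hb * conj Z + conj H * conj Zb := by
    have := cc t2b
    simpa only [map_mul, map_add, Complex.conj_ofReal] using this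
  have t3a' : -(ka : ℂ) * conj Z + ((1 - k : ℝ) : ℂ) * conj Za = Ha * conj W + H * conj Wa := by
    have := cc t3a
    simpa only [map_mul, map_add, map_neg, Complex.conj_ofReal, Complex.conj_conj] using this
  have t3b' : -(kb : ℂ) * conj Z + ((1 - k : ℝ) : ℂ) * conj Zb = Hb * conj W + H * conj Wb := by
    have := cc t3b
    simpa only [map_mul, map_add, map_neg, Complex.conj_ofReal, Complex.conj_conj] using this
  have Fa := SA1_F1 e1 e2' t2a t3a'
  have Fa' := SA1_F1' e1' e2 t2a' t3a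
  have Fb := SA1_F1 e1 e2' t2b t3b'
  have Fb' := SA1_F1' e1' e2 t2b' t3b
  have F0a := SA1_F0 e1 e2 e1' e2' t2a t3a t2a' t3a'
  have F0b := SA1_F0 e1 e2 e1' e2' t2b t3b t2b' t3b'
  have FWa := SA1_FW e1 e2 e1' e2' Fa Fa'
  have FWb := SA1_FW e1 e2 e1' e2' Fb Fb'
  have FH := SA1_FH e1 e2 e1' e2' Fa Fa' Fb Fb'
  have hrr : Z * conj Z + W * conj W = ((Complex.normSq Z + Complex.normSq W : ℝ) : ℂ) := by
    rw [Complex.mul_conj, Complex.mul_conj]
    push_cast
    ring
  have N0 : (1 - k) * Complex.normSq Z = (1 + k) * Complex.normSq W := by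
    apply Complex.ofReal_injective
    push_cast
    rw [← Complex.mul_conj, ← Complex.mul_conj]
    push_cast at e2 e1'
    linear_combination conj Z * e2 - W * e1'
  rw [hrr] at F0a F0b FWa FWb FH
  refine SA1_real _ (Complex.normSq Z) (Complex.normSq W) k ka kb _ _ _ _ _ _ _ _ _ _ _ _ _ hr
    (by linarith) (by linarith) ?_ ?_ ?_ ?_ ?_ ?_ ?_
  · have := congrArg Complex.re F0a
    simp [Complex.mul_re, Complex.mul_im, Complex.normSq_apply] at this ⊢
    linear_combination this / 2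
  · have := congrArg Complex.re F0b
    simp [Complex.mul_re, Complex.mul_im, Complex.normSq_apply] at this ⊢
    linear_combination this / 2
  · have := congrArg Complex.im FWa
    simp [Complex.mul_re, Complex.mul_im, Complex.normSq_apply] at this ⊢
    linear_combination this / 2
  · have := congrArg Complex.im FWb
    simp [Complex.mul_re, Complex.mul_im, Complex.normSq_apply] at this ⊢
    linear_combination this / 2
  · simp [Complex.mul_re, Complex.mul_im, Complex.normSq_apply]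
    ring
  · simp [Complex.mul_re, Complex.mul_im, Complex.normSq_apply]
    ring
  · have := congrArg Complex.im FH
    rw [← Complex.ofReal_pow, Complex.im_ofReal_mul, Complex.mul_conj, Complex.mul_conj] at this
    simp [Complex.mul_re, Complex.mul_im] at this ⊢
    linear_combination this / 2

end alg

/-! ### tangent vectors -/

theorem tangent_FPS {La : ℝ} {p a : FP} (ha : IsTangent (FPS La) p a) :
    fH0 p * fH0 a + (conj (fH p) * fH a).re = 0 ∧
    (fH0 a : ℂ) * fZ p + ((1 + fH0 p : ℝ) : ℂ) * fZ a = fH a * fZe p + fH p * fZe a ∧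
    -(fH0 a : ℂ) * fZe p + ((1 - fH0 p : ℝ) : ℂ) * fZe a = conj (fH a) * fZ p + conj (fH p) * fZ a ∧
    (conj (fZe p) * fZe a + conj (fZ p) * fZ a).re + fS p * fS a = 0 := by
  obtain ⟨γ, hγ0, hγX, -, hγ⟩ := ha
  have h0 : HasDerivAt (fun t => fH0 (γ t)) (fH0 a) 0 := (pH0.hasFDerivAt).comp_hasDerivAt 0 hγ
  have hs : HasDerivAt (fun t => fS (γ t)) (fS a) 0 := (pS.hasFDerivAt).comp_hasDerivAt 0 hγ
  have hh : HasDerivAt (fun t => fH (γ t)) (fH a) 0 := (pH.hasFDerivAt).comp_hasDerivAt 0 hγ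
  have hz : HasDerivAt (fun t => fZ (γ t)) (fZ a) 0 := (pZ.hasFDerivAt).comp_hasDerivAt 0 hγ
  have hze : HasDerivAt (fun t => fZe (γ t)) (fZe a) 0 := (pZe.hasFDerivAt).comp_hasDerivAt 0 hγ
  have hre : ∀ {f : ℝ → ℂ} {f' : ℂ}, HasDerivAt f f' 0 → HasDerivAt (fun t => (f t).re) f'.re 0 :=
    fun h => (Complex.reCLM.hasFDerivAt).comp_hasDerivAt 0 h
  have him : ∀ {f : ℝ → ℂ} {f' : ℂ}, HasDerivAt f f' 0 → HasDerivAt (fun t => (f t).im) f'.im 0 :=
    fun h => (Complex.imCLM.hasFDerivAt).comp_hasDerivAt 0 h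
  have hof : ∀ {f : ℝ → ℝ} {f' : ℝ}, HasDerivAt f f' 0 →
      HasDerivAt (fun t => ((f t : ℝ) : ℂ)) ((f' : ℝ) : ℂ) 0 :=
    fun h => (Complex.ofRealCLM.hasFDerivAt).comp_hasDerivAt 0 h
  have hcj : ∀ {f : ℝ → ℂ} {f' : ℂ}, HasDerivAt f f' 0 →
      HasDerivAt (fun t => conj (f t)) (conj f') 0 := fun h =>
    ((Complex.conjCLE : ℂ →L[ℝ] ℂ).hasFDerivAt).comp_hasDerivAt 0 h
  refine ⟨?_, ?_, ?_, ?_⟩
  · have d1 := (h0.mul h0).add (((hre hh).mul (hre hh)).add ((him hh).mul (him hh)))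
    have d2 : HasDerivAt (fun t => fH0 (γ t) * fH0 (γ t) + ((fH (γ t)).re * (fH (γ t)).re +
        (fH (γ t)).im * (fH (γ t)).im)) 0 0 := by
      refine (hasDerivAt_const (0 : ℝ) (1 : ℝ)).congr_of_eventuallyEq ?_
      filter_upwards [hγX] with t ht
      have := ht.1
      rw [Complex.normSq_apply] at this
      linarith
    have := d1.unique d2
    rw [hγ0] at this
    simp only [Complex.mul_re, Complex.conj_re, Complex.conj_im]
    linarith
  · have d1 := ((hof (h0.const_add 1)).mul hz).sub (hh.mul hze)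
    have d2 : HasDerivAt (fun t => ((1 + fH0 (γ t) : ℝ) : ℂ) * fZ (γ t) - fH (γ t) * fZe (γ t)) 0 0 := by
      refine (hasDerivAt_const (0 : ℝ) (0 : ℂ)).congr_of_eventuallyEq ?_
      filter_upwards [hγX] with t ht
      exact sub_eq_zero.2 ht.2.1
    have := d1.unique d2
    rw [hγ0] at this
    linear_combination this
  · have d1 := ((hof (h0.const_sub 1)).mul hze).sub ((hcj hh).mul hz)
    have d2 : HasDerivAt (fun t => ((1 - fH0 (γ t) : ℝ) : ℂ) * fZe (γ t) - conj (fH (γ t)) * fZ (γ t))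
        0 0 := by
      refine (hasDerivAt_const (0 : ℝ) (0 : ℂ)).congr_of_eventuallyEq ?_
      filter_upwards [hγX] with t ht
      exact sub_eq_zero.2 ht.2.2.1
    have := d1.unique d2
    rw [hγ0] at this
    push_cast at this ⊢
    linear_combination this
  · have d1 := ((((hre hze).mul (hre hze)).add ((him hze).mul (him hze))).add
      (((hre hz).mul (hre hz)).add ((him hz).mul (him hz)))).add (hs.mul hs)
    have d2 : HasDerivAt (fun t => (fZe (γ t)).re * (fZe (γ t)).re + (fZe (γ t)).im * (fZe (γ t)).im +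
        ((fZ (γ t)).re * (fZ (γ t)).re + (fZ (γ t)).im * (fZ (γ t)).im) + fS (γ t) * fS (γ t)) 0 0 := by
      refine (hasDerivAt_const (0 : ℝ) (La ^ 2)).congr_of_eventuallyEq ?_
      filter_upwards [hγX] with t ht
      have := ht.2.2.2
      rw [Complex.normSq_apply, Complex.normSq_apply] at this
      linarith
    have := d1.unique d2
    rw [hγ0] at this
    simp only [Complex.add_re, Complex.mul_re, Complex.conj_re, Complex.conj_im]
    linarith

theorem imF_apply {E : Type} [NormedAddCommGroup E] [NormedSpace ℝ E] (c : E →L[ℝ] ℂ) (p b : E) :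
    imF c p b = (conj (c p) * c b).im := by
  simp [imF]

theorem contDiff_imF {E : Type} [NormedAddCommGroup E] [NormedSpace ℝ E] (c : E →L[ℝ] ℂ) :
    ContDiff ℝ ∞ (imF c) := by
  unfold imF
  have h1 : ContDiff ℝ ∞ (fun p : E => conj (c p)) :=
    (Complex.conjCLE : ℂ →L[ℝ] ℂ).contDiff.comp c.contDiff
  exact contDiff_const.clm_comp (h1.smul contDiff_const)

theorem dd_imF {E : Type} [NormedAddCommGroup E] [NormedSpace ℝ E] (c : E →L[ℝ] ℂ) (p a b : E) :
    dd (imF c) p a b = 2 * (conj (c a) * c b).im := by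
  have hd : Differentiable ℝ (imF c) := (contDiff_imF c).differentiable (by simp)
  have key : ∀ a b : E, fderiv ℝ (imF c) p a b = (conj (c a) * c b).im := by
    intro a b
    have h1 : HasFDerivAt (fun q => imF c q b)
        ((ContinuousLinearMap.apply ℝ ℝ b).comp (fderiv ℝ (imF c) p)) p :=
      (ContinuousLinearMap.apply ℝ ℝ b).hasFDerivAt.comp p (hd p).hasFDerivAt
    let L : E →L[ℝ] ℝ := Complex.imCLM.comp ((ContinuousLinearMap.mul ℝ ℂ (c b)).comp
      ((Complex.conjCLE : ℂ →L[ℝ] ℂ).comp c))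
    have h2 : (fun q => imF c q b) = L := by
      funext q
      rw [imF_apply]
      simp [L, mul_comm]
    rw [h2] at h1
    have h3 := h1.unique L.hasFDerivAt
    have h4 := congrArg (fun M : E →L[ℝ] ℝ => M a) h3
    simp only [ContinuousLinearMap.comp_apply, ContinuousLinearMap.apply_apply] at h4
    rw [h4]
    simp [L, mul_comm]
  unfold dd
  rw [sub_apply, sub_apply, ContinuousLinearMap.flip_apply,
    key, key]
  simp only [Complex.mul_im, Complex.conj_re, Complex.conj_im]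
  ring

theorem areaF_apply (p a b : FP) :
    areaF p a b = (1 / 2) * (fH0 p * (conj (fH a) * fH b).im - fH0 a * (conj (fH p) * fH b).im
      + fH0 b * (conj (fH p) * fH a).im) := by
  have h1 : dd (imF pH) p a b = 2 * (conj (fH a) * fH b).im := dd_imF pH p a b
  have h2 : ∀ b, imF pH p b = (conj (fH p) * fH b).im := fun b => imF_apply pH p b
  have h3 : ∀ b, pH0 b = fH0 b := fun b => rfl
  unfold areaF wdg
  simp only [smul_apply, sub_apply,
    ContinuousLinearMap.smulRight_apply, smul_eq_mul, h1, h2, h3]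
  ring

theorem SA1_qpos {p : FP} (hq : fZe p ≠ 0 ∨ fZ p ≠ 0) : 0 < qsq (fZe p) (fZ p) := by
  unfold qsq
  rcases hq with h | h
  · have := Complex.normSq_pos.2 h
    have := Complex.normSq_nonneg (fZ p)
    linarith
  · have := Complex.normSq_pos.2 h
    have := Complex.normSq_nonneg (fZe p)
    linarith

/-- On `FPS La`, off `q = 0`. -/
theorem FPS_hopf {La : ℝ} {p : FP} (hp : p ∈ FPS La) (hq : fZe p ≠ 0 ∨ fZ p ≠ 0) :
    fH0 p = (Complex.normSq (fZe p) - Complex.normSq (fZ p)) / qsq (fZe p) (fZ p) ∧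
    fH p = ((2 / qsq (fZe p) (fZ p) : ℝ) : ℂ) * (conj (fZe p) * fZ p) ∧
    Complex.normSq (fZ p) / qsq (fZe p) (fZ p) = (1 - fH0 p) / 2 := by
  obtain ⟨-, e1, e2, -⟩ := hp
  have hr := SA1_qpos hq
  have e1' : ((1 + fH0 p : ℝ) : ℂ) * conj (fZ p) = conj (fH p) * conj (fZe p) := by
    have : conj (((1 + fH0 p : ℝ) : ℂ) * fZ p) = conj (fH p * fZe p) := by rw [e1]
    simpa only [map_mul, Complex.conj_ofReal] using this
  have e2' : ((1 - fH0 p : ℝ) : ℂ) * conj (fZe p) = fH p * conj (fZ p) := by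
    have : conj (((1 - fH0 p : ℝ) : ℂ) * fZe p) = conj (conj (fH p) * fZ p) := by rw [e2]
    simpa only [map_mul, Complex.conj_ofReal, Complex.conj_conj] using this
  have N0 : (1 - fH0 p) * Complex.normSq (fZe p) = (1 + fH0 p) * Complex.normSq (fZ p) := by
    apply Complex.ofReal_injective
    push_cast
    rw [← Complex.mul_conj, ← Complex.mul_conj]
    push_cast at e2 e1'
    linear_combination conj (fZe p) * e2 - fZ p * e1'
  refine ⟨?_, ?_, ?_⟩
  · rw [eq_div_iff hr.ne']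
    unfold qsq
    linarith
  · have hc : ((qsq (fZe p) (fZ p) : ℝ) : ℂ) ≠ 0 := Complex.ofReal_ne_zero.2 hr.ne'
    have h1 : ((qsq (fZe p) (fZ p) : ℝ) : ℂ) = fZe p * conj (fZe p) + fZ p * conj (fZ p) := by
      unfold qsq
      rw [Complex.mul_conj, Complex.mul_conj]
      push_cast
      ring
    have h2 : fH p * ((qsq (fZe p) (fZ p) : ℝ) : ℂ) = 2 * (conj (fZe p) * fZ p) := by
      rw [h1]
      push_cast at e1 e2'
      linear_combination (-conj (fZe p)) * e1 - fZ p * e2'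
    rw [Complex.ofReal_div, div_mul_eq_mul_div, eq_div_iff hc, h2]
    push_cast
    ring
  · rw [div_eq_div_iff hr.ne' (by norm_num)]
    unfold qsq
    linarith

theorem SA1_qsq_deriv (p : FP) : HasFDerivAt (fun p : FP => qsq (fZe p) (fZ p))
    ((2 * (fZe p).re) • Complex.reCLM.comp pZe + (2 * (fZe p).im) • Complex.imCLM.comp pZe
      + ((2 * (fZ p).re) • Complex.reCLM.comp pZ + (2 * (fZ p).im) • Complex.imCLM.comp pZ)) p := by
  have h1 : HasFDerivAt (fun p : FP => (fZe p).re) (Complex.reCLM.comp pZe) p :=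
    (Complex.reCLM.comp pZe).hasFDerivAt
  have h2 : HasFDerivAt (fun p : FP => (fZe p).im) (Complex.imCLM.comp pZe) p :=
    (Complex.imCLM.comp pZe).hasFDerivAt
  have h3 : HasFDerivAt (fun p : FP => (fZ p).re) (Complex.reCLM.comp pZ) p :=
    (Complex.reCLM.comp pZ).hasFDerivAt
  have h4 : HasFDerivAt (fun p : FP => (fZ p).im) (Complex.imCLM.comp pZ) p :=
    (Complex.imCLM.comp pZ).hasFDerivAt
  have h := ((h1.mul h1).add (h2.mul h2)).add ((h3.mul h3).add (h4.mul h4))
  have e : (fun p : FP => qsq (fZe p) (fZ p)) = fun p => ((fZe p).re * (fZe p).re +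
      (fZe p).im * (fZe p).im) + ((fZ p).re * (fZ p).re + (fZ p).im * (fZ p).im) := by
    funext p
    simp only [qsq, Complex.normSq_apply]
  refine (h.congr_of_eventuallyEq (Filter.Eventually.of_forall fun q => congrFun e q)).congr_fderiv ?_
  ext v
  all_goals
    simp only [ContinuousLinearMap.add_comp, ContinuousLinearMap.smul_comp, add_apply, smul_apply,
      ContinuousLinearMap.comp_apply, smul_eq_mul]
    ring

theorem star {La : ℝ} {p a b : FP} (hp : p ∈ FPS La) (hq : fZe p ≠ 0 ∨ fZ p ≠ 0)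
    (ha : IsTangent (FPS La) p a) (hb : IsTangent (FPS La) p b) :
    dd alq p a b = areaF p a b := by
  have hr := SA1_qpos hq
  obtain ⟨-, t2a, t3a, -⟩ := tangent_FPS ha
  obtain ⟨-, t2b, t3b, -⟩ := tangent_FPS hb
  have hst := SA1_star hp.2.1 hp.2.2.1 t2a t3a t2b t3b hr.ne'
  rw [areaF_apply, ← hst]
  have hdi : HasFDerivAt (fun p : FP => (qsq (fZe p) (fZ p))⁻¹) _ p :=
    (hasDerivAt_inv hr.ne').comp_hasFDerivAt p (SA1_qsq_deriv p)
  have hd1 : Differentiable ℝ (imF pZe) := (contDiff_imF pZe).differentiable (by simp)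
  have hd2 : Differentiable ℝ (imF pZ) := (contDiff_imF pZ).differentiable (by simp)
  have hd : HasFDerivAt (fun p => imF pZe p + imF pZ p) (fderiv ℝ (imF pZe) p + fderiv ℝ (imF pZ) p) p :=
    (hd1 p).hasFDerivAt.add (hd2 p).hasFDerivAt
  have hal : HasFDerivAt alq _ p := hdi.smul hd
  have k1 : dd (imF pZe) p a b = 2 * (conj (fZe a) * fZe b).im := dd_imF pZe p a b
  have k2 : dd (imF pZ) p a b = 2 * (conj (fZ a) * fZ b).im := dd_imF pZ p a b
  unfold dd at k1 k2 ⊢
  rw [hal.fderiv]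
  simp only [sub_apply, ContinuousLinearMap.flip_apply,
    add_apply, smul_apply,
    ContinuousLinearMap.smulRight_apply, imF_apply, smul_eq_mul] at k1 k2 ⊢
  have c1 : ∀ v : FP, (Complex.reCLM.comp pZe) v = (fZe v).re := fun v => rfl
  have c2 : ∀ v : FP, (Complex.imCLM.comp pZe) v = (fZe v).im := fun v => rfl
  have c3 : ∀ v : FP, (Complex.reCLM.comp pZ) v = (fZ v).re := fun v => rfl
  have c4 : ∀ v : FP, (Complex.imCLM.comp pZ) v = (fZ v).im := fun v => rfl
  have c5 : ∀ v : FP, pZe v = fZe v := fun v => rfl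
  have c6 : ∀ v : FP, pZ v = fZ v := fun v => rfl
  have hq' : Complex.normSq (fZe p) + Complex.normSq (fZ p) = qsq (fZe p) (fZ p) := rfl
  rw [hq', c1, c1, c2, c2, c3, c3, c4, c4, c5, c5, c5, c6, c6, c6]
  simp only [Complex.mul_re, Complex.mul_im, Complex.conj_re, Complex.conj_im] at k1 k2 ⊢
  linear_combination (qsq (fZe p) (fZ p))⁻¹ * k1 + (qsq (fZe p) (fZ p))⁻¹ * k2

end Pool.Agent.H34.SY
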