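import Pool.Agent.H34.SY.FD6
import Pool.Agent.H34.SY.SA1
import Pool.Agent.H34.SY.CB
import Pool.Agent.H34.SY.CB

/-!
# Row SF: nondegeneracy off the exceptional divisors

Notation at a point `v = (u, Q)`, `Q = (Q₁,Q₂) ≠ 0`, `r = |Q|²`, `s = |u|²`, `H = |Q₂|²/r`, `g = G(r)/r`;
`θ(du) = Im (ū du)`, `a = ka(s) θ`.  For a vector `(u', Q')` put `∇Q' = (Q'₁, Q'₂ + i Q₂ a(u'))`,
`⟨Q, w⟩ = Re (conj Q₁ w₁ + conj Q₂ w₂)`, `⟨iQ, w⟩ = Im (conj Q₁ w₁ + conj Q₂ w₂)`, and for two complex numbers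
`x ∧ y = Im (conj x y)` (so `dd (imF c) x y = 2 x ∧ y`).  Note `⟨Q, ∇Q'⟩ = ⟨Q, Q'⟩`.  Then
`dd lamQ v (u',Q') (u'',Q'') = C (u' ∧ u'') + F(∇Q', ∇Q'') + 2 ch'(r) (⟨Q,Q'⟩ e(u'') - ⟨Q,Q''⟩ e(u'))`
where `e = ke(s) θ`,
`C = (kr + s kr') + 2 (ka + s ka') G(r) H + 2 ch(r) (ke + s ke')`,
`F(w, w'') = 2 g (w₁ ∧ w₁'' + w₂ ∧ w₂'') + 2 g'(r)·(⟨Q,w⟩⟨iQ,w''⟩ - ⟨Q,w''⟩⟨iQ,w⟩)`.
(Computation: `dd_smul`, `dd_add`, `dd_imF`; `d(k(|u|²) θ) = 2 (k + s k') du₁∧du₂`.)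

`r g' + g = G'`; `|w|² r = ⟨Q,w⟩² + ⟨iQ,w⟩² + |w_h|² r` with `|w_h|² r = |Q₁ w₂ - Q₂ w₁|²`; hence
`F(w, i w) = 2 g |w|² + 2 g' (⟨Q,w⟩² + ⟨iQ,w⟩²) = 2 g |w_h|² + 2 (G'/r) (⟨Q,w⟩²+⟨iQ,w⟩²) > 0` for `w ≠ 0`
(note `⟨Q, i w⟩ = -⟨iQ,w⟩`, `⟨iQ, i w⟩ = ⟨Q,w⟩`), and `F(w, iQ) = 2 G'(r) ⟨Q, w⟩`, `⟨Q, iQ⟩ = 0`.

Given `(u',Q') ≠ 0`: if `u' = 0` take `(0, i Q')`: value `F(Q', iQ') > 0`.  If `u' ≠ 0` take `u'' = i u'` and
`∇Q'' = - (ch'(r)/G'(r)) e(i u') · iQ`, i.e. `Q''₁ = (∇Q'')₁`, `Q''₂ = (∇Q'')₂ - i Q₂ a(i u')`: value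
`C |u'|² + 0 ≠ 0` because `F(∇Q', ∇Q'') = -2 ch' e(iu') ⟨Q,Q'⟩` cancels the cross term and `⟨Q,Q''⟩ = 0`.
-/

open Set Topology
open scoped ContDiff ComplexConjugate

namespace Pool.Agent.H34.SY

/-- derivative of `|c|²` for a complex coordinate `c` -/
noncomputable def SF_nD {E : Type} [NormedAddCommGroup E] [NormedSpace ℝ E] (c : E →L[ℝ] ℂ) (p : E) :
    E →L[ℝ] ℝ :=
  (2 * (c p).re) • (Complex.reCLM.comp c) + (2 * (c p).im) • (Complex.imCLM.comp c)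

theorem SF_nD_apply {E : Type} [NormedAddCommGroup E] [NormedSpace ℝ E] (c : E →L[ℝ] ℂ) (p a : E) :
    SF_nD c p a = 2 * (c p).re * (c a).re + 2 * (c p).im * (c a).im := by
  simp [SF_nD]

theorem SF_normSq {E : Type} [NormedAddCommGroup E] [NormedSpace ℝ E] (c : E →L[ℝ] ℂ) (p : E) :
    HasFDerivAt (fun p => Complex.normSq (c p)) (SF_nD c p) p := by
  have h1 : HasFDerivAt (fun p => (Complex.reCLM.comp c) p) (Complex.reCLM.comp c) p :=
    (Complex.reCLM.comp c).hasFDerivAt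
  have h2 : HasFDerivAt (fun p => (Complex.imCLM.comp c) p) (Complex.imCLM.comp c) p :=
    (Complex.imCLM.comp c).hasFDerivAt
  have h3 := (h1.mul h1).add (h2.mul h2)
  have e : (fun p => Complex.normSq (c p)) =
      (fun p => (Complex.reCLM.comp c) p * (Complex.reCLM.comp c) p) +
        fun p => (Complex.imCLM.comp c) p * (Complex.imCLM.comp c) p := by
    funext q
    simp [Complex.normSq_apply]
  rw [e]
  refine HasFDerivAt.congr_fderiv h3 ?_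
  ext q
  simp [SF_nD]
  ring

theorem SF_dd_smul {f : H6 → ℝ} {f' : H6 →L[ℝ] ℝ} {l : Form1 H6} {z : H6}
    (hf : HasFDerivAt f f' z) (hl : DifferentiableAt ℝ l z) (a b : H6) :
    dd (fun y => f y • l y) z a b = (f' a * l z b - l z a * f' b) + f z * dd l z a b := by
  rw [dd_smul hf.differentiableAt hl, hf.fderiv]
  show wdg f' (l z) a b + f z • dd l z a b = _
  rw [wdg_apply, smul_eq_mul]

theorem SF_dd_add {l m : Form1 H6} {z : H6} (hl : DifferentiableAt ℝ l z)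
    (hm : DifferentiableAt ℝ m z) (a b : H6) :
    dd (fun y => l y + m y) z a b = dd l z a b + dd m z a b := by
  rw [dd_add hl hm]
  rfl

theorem SF_diff_imF (c : H6 →L[ℝ] ℂ) (z : H6) : DifferentiableAt ℝ (imF c) z :=
  (contDiff_imF c).contDiffAt.differentiableAt (by simp)

theorem SF_general (f1 f2 f3 f4 : H6 → ℝ) (f1' f2' f3' f4' : H6 →L[ℝ] ℝ) (v : H6)
    (h1 : HasFDerivAt f1 f1' v) (h2 : HasFDerivAt f2 f2' v) (h3 : HasFDerivAt f3 f3' v)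
    (h4 : HasFDerivAt f4 f4' v) (a b : H6) :
    dd (fun v => f1 v • (imF hA v + imF hB v + f2 v • imF hU v) + f3 v • imF hU v
      + f4 v • imF hU v) v a b =
    (f1' a * (imF hA v b + imF hB v b + f2 v * imF hU v b)
        - (imF hA v a + imF hB v a + f2 v * imF hU v a) * f1' b)
      + f1 v * (2 * (conj (hA a) * hA b).im + 2 * (conj (hB a) * hB b).im
        + ((f2' a * imF hU v b - imF hU v a * f2' b) + f2 v * (2 * (conj (hU a) * hU b).im)))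
      + ((f3' a * imF hU v b - imF hU v a * f3' b) + f3 v * (2 * (conj (hU a) * hU b).im))
      + ((f4' a * imF hU v b - imF hU v a * f4' b) + f4 v * (2 * (conj (hU a) * hU b).im)) := by
  have dU := SF_diff_imF hU v
  have dA := SF_diff_imF hA v
  have dB := SF_diff_imF hB v
  have d2 : DifferentiableAt ℝ (fun v => f2 v • imF hU v) v := h2.differentiableAt.smul dU
  have d3 : DifferentiableAt ℝ (fun v => f3 v • imF hU v) v := h3.differentiableAt.smul dU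
  have d4 : DifferentiableAt ℝ (fun v => f4 v • imF hU v) v := h4.differentiableAt.smul dU
  have dAB : DifferentiableAt ℝ (fun v => imF hA v + imF hB v) v := dA.add dB
  have dL : DifferentiableAt ℝ (fun v => imF hA v + imF hB v + f2 v • imF hU v) v := dAB.add d2
  have d1 : DifferentiableAt ℝ
      (fun v => f1 v • (imF hA v + imF hB v + f2 v • imF hU v)) v := h1.differentiableAt.smul dL
  have d13 : DifferentiableAt ℝ
      (fun v => f1 v • (imF hA v + imF hB v + f2 v • imF hU v) + f3 v • imF hU v) v := d1.add d3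
  have e1 := SF_dd_add d13 d4 a b
  have e2 := SF_dd_add d1 d3 a b
  have e3 := SF_dd_smul h1 dL a b
  have e4 := SF_dd_add dAB d2 a b
  have e5 := SF_dd_add dA dB a b
  have e6 := SF_dd_smul h2 dU a b
  have e7 := SF_dd_smul h3 dU a b
  have e8 := SF_dd_smul h4 dU a b
  rw [dd_imF] at e6 e7 e8
  rw [dd_imF, dd_imF] at e5
  rw [e1, e2, e3, e4, e5, e6, e7, e8]
  rfl

theorem SF_formula (G ka kr ch ke : ℝ → ℝ) (v : H6) (r s : ℝ)
    (hr : r = qsq v.2.1 v.2.2) (hs : s = Complex.normSq v.1) (hr0 : r ≠ 0)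
    (hG : DifferentiableAt ℝ G r) (hka : DifferentiableAt ℝ ka s) (hkr : DifferentiableAt ℝ kr s)
    (hch : DifferentiableAt ℝ ch r) (hke : DifferentiableAt ℝ ke s) (a b : H6) :
    dd (lamQ G ka kr ch ke) v a b =
    (((deriv G r * r - G r) / r ^ 2 * (SF_nD hA v a + SF_nD hB v a)) *
        (imF hA v b + imF hB v b + Complex.normSq v.2.2 * ka s * imF hU v b)
      - (imF hA v a + imF hB v a + Complex.normSq v.2.2 * ka s * imF hU v a) *
        ((deriv G r * r - G r) / r ^ 2 * (SF_nD hA v b + SF_nD hB v b)))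
      + G r / r * (2 * (conj (hA a) * hA b).im + 2 * (conj (hB a) * hB b).im
        + (((Complex.normSq v.2.2 * (deriv ka s * SF_nD hU v a) + ka s * SF_nD hB v a)
              * imF hU v b
            - imF hU v a *
              (Complex.normSq v.2.2 * (deriv ka s * SF_nD hU v b) + ka s * SF_nD hB v b))
            + Complex.normSq v.2.2 * ka s * (2 * (conj (hU a) * hU b).im)))
      + ((deriv kr s / 2 * SF_nD hU v a * imF hU v b - imF hU v a * (deriv kr s / 2 * SF_nD hU v b))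
          + kr s / 2 * (2 * (conj (hU a) * hU b).im))
      + (((ch r * (deriv ke s * SF_nD hU v a) + ke s * (deriv ch r * (SF_nD hA v a + SF_nD hB v a)))
            * imF hU v b
          - imF hU v a * (ch r * (deriv ke s * SF_nD hU v b)
            + ke s * (deriv ch r * (SF_nD hA v b + SF_nD hB v b))))
          + ch r * ke s * (2 * (conj (hU a) * hU b).im)) := by
  have Hr : HasFDerivAt (fun v : H6 => qsq v.2.1 v.2.2) (SF_nD hA v + SF_nD hB v) v :=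
    (SF_normSq hA v).add (SF_normSq hB v)
  have Hs : HasFDerivAt (fun v : H6 => Complex.normSq v.1) (SF_nD hU v) v := SF_normSq hU v
  have HB : HasFDerivAt (fun v : H6 => Complex.normSq v.2.2) (SF_nD hB v) v := SF_normSq hB v
  have hG' : HasDerivAt (fun t => G t / t) ((deriv G r * r - G r * 1) / r ^ 2) r :=
    hG.hasDerivAt.div (hasDerivAt_id r) hr0
  have hka' : HasDerivAt ka (deriv ka s) s := hka.hasDerivAt
  have hkr' : HasDerivAt (fun t => kr t / 2) (deriv kr s / 2) s := hkr.hasDerivAt.div_const 2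
  have hch' : HasDerivAt ch (deriv ch r) r := hch.hasDerivAt
  have hke' : HasDerivAt ke (deriv ke s) s := hke.hasDerivAt
  subst hr hs
  have H1 := hG'.comp_hasFDerivAt v Hr
  have Hka := hka'.comp_hasFDerivAt v Hs
  have H2 := HB.mul Hka
  have H3 := hkr'.comp_hasFDerivAt v Hs
  have Hch := hch'.comp_hasFDerivAt v Hr
  have Hke := hke'.comp_hasFDerivAt v Hs
  have H4 := Hch.mul Hke
  have key := SF_general _ _ _ _ _ _ _ _ v H1 H2 H3 H4 a b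
  refine Eq.trans (Eq.trans ?_ key) ?_
  · rfl
  · simp only [FunLike.coe_add, FunLike.coe_smul, Pi.add_apply, Pi.smul_apply, smul_eq_mul,
      mul_one, Function.comp_apply, Pi.mul_apply]

/-- the complex Cauchy-Schwarz (Lagrange) identity and positivity -/
theorem SF_pos {G1 G0 r x1 y1 x2 y2 a1 b1 a2 b2 : ℝ} (hG0 : 0 < G0) (hG1 : 0 < G1)
    (hr : r = x1 * x1 + y1 * y1 + (x2 * x2 + y2 * y2)) (hr0 : 0 < r)
    (ha : 0 < a1 ^ 2 + b1 ^ 2 + a2 ^ 2 + b2 ^ 2) :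
    0 < 2 * (G1 / r) * ((x1 * a1 + y1 * b1 + x2 * a2 + y2 * b2) ^ 2
        + (x1 * b1 - y1 * a1 + x2 * b2 - y2 * a2) ^ 2)
      + 2 * (G0 / r ^ 2) * ((x1 * a2 - y1 * b2 - x2 * a1 + y2 * b1) ^ 2
        + (x1 * b2 + y1 * a2 - x2 * b1 - y2 * a1) ^ 2) := by
  obtain ⟨P, hP⟩ : ∃ P : ℝ, P = (x1 * a1 + y1 * b1 + x2 * a2 + y2 * b2) ^ 2
        + (x1 * b1 - y1 * a1 + x2 * b2 - y2 * a2) ^ 2 := ⟨_, rfl⟩
  obtain ⟨N, hN⟩ : ∃ N : ℝ, N = (x1 * a2 - y1 * b2 - x2 * a1 + y2 * b1) ^ 2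
        + (x1 * b2 + y1 * a2 - x2 * b1 - y2 * a1) ^ 2 := ⟨_, rfl⟩
  rw [← hP, ← hN]
  have hsum : P + N = r * (a1 ^ 2 + b1 ^ 2 + a2 ^ 2 + b2 ^ 2) := by
    rw [hP, hN, hr]
    ring
  have hP0 : 0 ≤ P := by rw [hP]; positivity
  have hN0 : 0 ≤ N := by rw [hN]; positivity
  have hpos : 0 < P + N := by rw [hsum]; positivity
  have c1 : 0 < 2 * (G1 / r) := by positivity
  have c2 : 0 < 2 * (G0 / r ^ 2) := by positivity
  rcases hP0.eq_or_lt with h | h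
  · rw [← h] at hpos ⊢
    have h' : 0 < N := by linarith
    have := mul_pos c2 h'
    linarith
  · have h5 := mul_pos c1 h
    have h6 := mul_nonneg c2.le hN0
    linarith

theorem lamQ_nondeg (G ka kr ch ke : ℝ → ℝ) (v : H6) (hv : v.2.1 ≠ 0 ∨ v.2.2 ≠ 0)
    (hG : ContDiffAt ℝ ∞ G (qsq v.2.1 v.2.2)) (hka : ContDiff ℝ ∞ ka) (hkr : ContDiff ℝ ∞ kr)
    (hch : ContDiffAt ℝ ∞ ch (qsq v.2.1 v.2.2)) (hke : ContDiffAt ℝ ∞ ke (Complex.normSq v.1))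
    (h1 : 0 < G (qsq v.2.1 v.2.2)) (h2 : 0 < deriv G (qsq v.2.1 v.2.2))
    (h3 : (kr (Complex.normSq v.1) + Complex.normSq v.1 * deriv kr (Complex.normSq v.1))
      + 2 * (ka (Complex.normSq v.1) + Complex.normSq v.1 * deriv ka (Complex.normSq v.1))
        * G (qsq v.2.1 v.2.2) * (Complex.normSq v.2.2 / qsq v.2.1 v.2.2)
      + 2 * ch (qsq v.2.1 v.2.2)
        * (ke (Complex.normSq v.1) + Complex.normSq v.1 * deriv ke (Complex.normSq v.1)) ≠ 0)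
    (a : H6) (ha : a ≠ 0) : ∃ b : H6, dd (lamQ G ka kr ch ke) v a b ≠ 0 := by
  obtain ⟨r, hr⟩ : ∃ r, r = qsq v.2.1 v.2.2 := ⟨_, rfl⟩
  obtain ⟨s, hs⟩ : ∃ s, s = Complex.normSq v.1 := ⟨_, rfl⟩
  have hr0 : 0 < r := by
    rw [hr]
    unfold qsq
    rcases hv with h | h
    · exact add_pos_of_pos_of_nonneg (Complex.normSq_pos.2 h) (Complex.normSq_nonneg _)
    · exact add_pos_of_nonneg_of_pos (Complex.normSq_nonneg _) (Complex.normSq_pos.2 h)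
  rw [← hr] at hG hch h1 h2 h3
  rw [← hs] at hke h3
  have hF := SF_formula G ka kr ch ke v r s hr hs hr0.ne' (hG.differentiableAt (by simp))
    (hka.contDiffAt.differentiableAt (by simp)) (hkr.contDiffAt.differentiableAt (by simp))
    (hch.differentiableAt (by simp)) (hke.differentiableAt (by simp)) a
  obtain ⟨g0, hg0⟩ : ∃ x, x = G r := ⟨_, rfl⟩
  obtain ⟨g1, hg1⟩ : ∃ x, x = deriv G r := ⟨_, rfl⟩
  obtain ⟨k0, hk0⟩ : ∃ x, x = ka s := ⟨_, rfl⟩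
  obtain ⟨k1, hk1⟩ : ∃ x, x = deriv ka s := ⟨_, rfl⟩
  obtain ⟨l0, hl0⟩ : ∃ x, x = kr s := ⟨_, rfl⟩
  obtain ⟨l1, hl1⟩ : ∃ x, x = deriv kr s := ⟨_, rfl⟩
  obtain ⟨c0, hc0⟩ : ∃ x, x = ch r := ⟨_, rfl⟩
  obtain ⟨c1, hc1⟩ : ∃ x, x = deriv ch r := ⟨_, rfl⟩
  obtain ⟨e0, he0⟩ : ∃ x, x = ke s := ⟨_, rfl⟩
  obtain ⟨e1, he1⟩ : ∃ x, x = deriv ke s := ⟨_, rfl⟩
  rw [← hg0] at h1
  rw [← hg1] at h2
  rw [← hl0, ← hl1, ← hk0, ← hk1, ← hg0, ← hc0, ← he0, ← he1] at h3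
  rw [← hl0, ← hl1, ← hk0, ← hk1, ← hg0, ← hg1, ← hc0, ← hc1, ← he0, ← he1] at hF
  clear hg0 hg1 hk0 hk1 hl0 hl1 hc0 hc1 he0 he1 hG hch hke
  obtain ⟨u, q1, q2⟩ := v
  obtain ⟨a0, a1, a2⟩ := a
  obtain ⟨u0, u1⟩ := u
  obtain ⟨x1, y1⟩ := q1
  obtain ⟨x2, y2⟩ := q2
  obtain ⟨a00, a01⟩ := a0
  obtain ⟨a10, a11⟩ := a1
  obtain ⟨a20, a21⟩ := a2
  simp only [qsq, Complex.normSq_apply] at hr hs
  simp only [Complex.normSq_apply] at h3
  by_cases h0 : a00 = 0 ∧ a01 = 0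
  · obtain ⟨rfl, rfl⟩ := h0
    have ha2 : 0 < a10 ^ 2 + a11 ^ 2 + a20 ^ 2 + a21 ^ 2 := by
      by_contra hc
      apply ha
      have e1 : a10 = 0 := by nlinarith [sq_nonneg a10, sq_nonneg a11, sq_nonneg a20, sq_nonneg a21]
      have e2 : a11 = 0 := by nlinarith [sq_nonneg a10, sq_nonneg a11, sq_nonneg a20, sq_nonneg a21]
      have e3 : a20 = 0 := by nlinarith [sq_nonneg a10, sq_nonneg a11, sq_nonneg a20, sq_nonneg a21]
      have e4 : a21 = 0 := by nlinarith [sq_nonneg a10, sq_nonneg a11, sq_nonneg a20, sq_nonneg a21]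
      subst e1 e2 e3 e4
      rfl
    have hpos := SF_pos (x1 := x1) (y1 := y1) (x2 := x2) (y2 := y2) h1 h2 hr hr0 ha2
    have hval := hF (⟨0, 0⟩, ⟨-a11, a10⟩, ⟨-a21, a20⟩)
    simp only [SF_nD_apply, imF_apply] at hval
    simp only [hA, hB, hU, ContinuousLinearMap.coe_comp, Function.comp_apply,
      ContinuousLinearMap.coe_fst', ContinuousLinearMap.coe_snd', Complex.mul_im, Complex.conj_re,
      Complex.conj_im, Complex.normSq_apply] at hval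
    refine ⟨(⟨0, 0⟩, ⟨-a11, a10⟩, ⟨-a21, a20⟩), ?_⟩
    rw [hval]
    refine (lt_of_lt_of_eq hpos ?_).ne'
    field_simp
    rw [hr]
    ring
  · have hu : 0 < a00 ^ 2 + a01 ^ 2 := by
      by_contra hc
      apply h0
      constructor
      · nlinarith [sq_nonneg a00, sq_nonneg a01]
      · nlinarith [sq_nonneg a00, sq_nonneg a01]
    obtain ⟨rho, hrho⟩ : ∃ x, x = u0 * a00 + u1 * a01 := ⟨_, rfl⟩
    obtain ⟨kap, hkap⟩ : ∃ x, g1 * x = -(c1 * e0 * rho) := by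
      refine ⟨-(c1 * e0 * rho) / g1, ?_⟩
      field_simp
    have hval := hF (⟨-a01, a00⟩, ⟨-(kap * y1), kap * x1⟩,
      ⟨-((kap - k0 * rho) * y2), (kap - k0 * rho) * x2⟩)
    simp only [SF_nD_apply, imF_apply] at hval
    simp only [hA, hB, hU, ContinuousLinearMap.coe_comp, Function.comp_apply,
      ContinuousLinearMap.coe_fst', ContinuousLinearMap.coe_snd', Complex.mul_im, Complex.conj_re,
      Complex.conj_im, Complex.normSq_apply] at hval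
    refine ⟨(⟨-a01, a00⟩, ⟨-(kap * y1), kap * x1⟩,
      ⟨-((kap - k0 * rho) * y2), (kap - k0 * rho) * x2⟩), ?_⟩
    rw [hval]
    have hne := mul_ne_zero h3 hu.ne'
    refine fun hz => hne (Eq.trans ?_ hz)
    have hr1 : r ≠ 0 := hr0.ne'
    field_simp
    subst hr hs hrho
    linear_combination (-((x1 * x1 + y1 * y1 + (x2 * x2 + y2 * y2)) ^ 2 *
      (2 * (x1 * a10 + y1 * a11 + x2 * a20 + y2 * a21)))) * hkap

end Pool.Agent.H34.SY
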