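import Pool.Agent.H34.SY.FD6
import Pool.Agent.H34.SY.SA1

/-!
# Row SG: nondegeneracy on the exceptional divisors

At `v = (u, b, 0)`, `s = |u|²`, `θ(du) = Im (ū du)`, `a = ka(s) θ`, `x ∧ y = Im (conj x y)`:
`dd (lamB ..) v (u',b',y') (u'',b'',y'') = k1 (1+|b|²) (y' ∧ y'') + (2 k2/(1+|b|²)²) (∇b' ∧ ∇b'')
   + (kr + s kr' + 2 k2 (ka + s ka')/(1+|b|²)) (u' ∧ u'')`, with `∇b' = b' - i b a(u')`
(the derivative of `(1+|b|²) imF hB` at `y = 0` in the direction of `b` multiplies `imF hB v = 0`; the term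
`|y|² mu` has zero derivative at `y = 0`).
Check of the middle term: `d[(Im(b̄ db) + a)/(1+|b|²)] = 2 (b' ∧ b'')/(1+|b|²)
  - (2/(1+|b|²)²) (Re(b̄b') (Im(b̄b'')+a'') - Re(b̄b'')(Im(b̄b') + a')) + 2(ka+ska')/(1+|b|²) (u' ∧ u'')`, and
`Re(b̄b')Im(b̄b'') - Re(b̄b'')Im(b̄b') = |b|² (b' ∧ b'')`, so the first two give
`(2/(1+|b|²)²)(b' ∧ b'' - Re(b̄b') a'' + Re(b̄b'') a')`, which is `∇b' ∧ ∇b''`.
For `lamA`: `∇b' = b' + i b a(u')` and the coefficient of `u' ∧ u''` is
`kr + s kr' + 2 k2 |b|² (ka + s ka')/(1+|b|²)` (because `d(|b|²/(1+|b|²)) = 2 Re(b̄ db)/(1+|b|²)²`).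
All three coefficients are nonzero, so for `(u',b',y') ≠ 0`: if `u' ≠ 0` take `u'' = i u'`, `∇b'' = 0`, `y'' = 0`; if
`u' = 0`, `b' ≠ 0` (then `∇b' = b'`): `(0, i b', 0)`; else `(0, 0, i y')`.
-/

set_option autoImplicit false

open Set Topology
open scoped ContDiff ComplexConjugate

namespace Pool.Agent.H34.SY

section SGaux

variable {E : Type} [NormedAddCommGroup E] [NormedSpace ℝ E]

theorem SG_dd_smul (f : E → ℝ) (l : Form1 E) (z : E) (L : E →L[ℝ] ℝ) (hf : HasFDerivAt f L z)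
    (hl : DifferentiableAt ℝ l z) (a b : E) :
    dd (fun z => f z • l z) z a b = L a * l z b - L b * l z a + f z * dd l z a b := by
  have h := (hf.smul hl.hasFDerivAt).fderiv
  change (fderiv ℝ (fun z => f z • l z) z - (fderiv ℝ (fun z => f z • l z) z).flip) a b = _
  have e : fderiv ℝ (fun z => f z • l z) z = f z • fderiv ℝ l z + L.smulRight (l z) := h
  rw [e]
  change (f z • fderiv ℝ l z + L.smulRight (l z)) a b - (f z • fderiv ℝ l z + L.smulRight (l z)) b a
    = L a * l z b - L b * l z a + f z * (fderiv ℝ l z a b - fderiv ℝ l z b a)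
  simp only [add_apply, smul_apply,
    ContinuousLinearMap.smulRight_apply, smul_eq_mul]
  ring

theorem SG_dd_add (l l' : Form1 E) (z : E) (hl : DifferentiableAt ℝ l z)
    (hl' : DifferentiableAt ℝ l' z) (a b : E) :
    dd (fun z => l z + l' z) z a b = dd l z a b + dd l' z a b := by
  change (fderiv ℝ (fun z => l z + l' z) z - (fderiv ℝ (fun z => l z + l' z) z).flip) a b = _
  have e : fderiv ℝ (fun z => l z + l' z) z = fderiv ℝ l z + fderiv ℝ l' z := fderiv_add hl hl'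
  rw [e]
  change (fderiv ℝ l z + fderiv ℝ l' z) a b - (fderiv ℝ l z + fderiv ℝ l' z) b a =
    (fderiv ℝ l z a b - fderiv ℝ l z b a) + (fderiv ℝ l' z a b - fderiv ℝ l' z b a)
  simp only [add_apply]
  ring

/-- derivative of the square of the absolute value. -/
noncomputable def SG_L (c : E →L[ℝ] ℂ) (v : E) : E →L[ℝ] ℝ :=
  (2 * (c v).re) • (Complex.reCLM.comp c) + (2 * (c v).im) • (Complex.imCLM.comp c)

theorem SG_L_apply (c : E →L[ℝ] ℂ) (v a : E) : SG_L c v a = 2 * (conj (c v) * c a).re := by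
  rw [Complex.mul_re, Complex.conj_re, Complex.conj_im]
  change 2 * (c v).re * (c a).re + 2 * (c v).im * (c a).im = _
  ring

theorem SG_ns (c : E →L[ℝ] ℂ) (v : E) :
    HasFDerivAt (fun v => Complex.normSq (c v)) (SG_L c v) v := by
  have h1 : HasFDerivAt (fun v => (c v).re) (Complex.reCLM.comp c) v :=
    (Complex.reCLM.comp c).hasFDerivAt
  have h2 : HasFDerivAt (fun v => (c v).im) (Complex.imCLM.comp c) v :=
    (Complex.imCLM.comp c).hasFDerivAt
  have h3 := (h1.mul h1).add (h2.mul h2)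
  have e1 : (fun v => Complex.normSq (c v)) =
      (fun v => (c v).re) * (fun v => (c v).re) + (fun v => (c v).im) * (fun v => (c v).im) := by
    funext v
    exact Complex.normSq_apply _
  rw [e1]
  refine h3.congr_fderiv ?_
  ext a
  change (c v).re * (c a).re + (c v).re * (c a).re + ((c v).im * (c a).im + (c v).im * (c a).im) =
    2 * (c v).re * (c a).re + 2 * (c v).im * (c a).im
  ring

end SGaux

theorem SG_gen (f1 f2 f3 f4 : H6 → ℝ) (L1 L2 L3 L4 : H6 →L[ℝ] ℝ) (mu : Form1 H6) (v : H6)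
    (h1 : HasFDerivAt f1 L1 v) (h2 : HasFDerivAt f2 L2 v) (h3 : HasFDerivAt f3 L3 v)
    (h4 : HasFDerivAt f4 L4 v) (hmu : DifferentiableAt ℝ mu v) (hf2 : f2 v = 0)
    (hL2 : ∀ a, L2 a = 0) (hv : v.2.2 = 0) (a c : H6) :
    dd (fun v => f1 v • imF hB v + f2 v • mu v + f3 v • imF hA v + f4 v • imF hU v) v a c =
      2 * f1 v * (conj a.2.2 * c.2.2).im +
      (L3 a * (conj v.2.1 * c.2.1).im - L3 c * (conj v.2.1 * a.2.1).im +
        2 * f3 v * (conj a.2.1 * c.2.1).im) +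
      (L4 a * (conj v.1 * c.1).im - L4 c * (conj v.1 * a.1).im +
        2 * f4 v * (conj a.1 * c.1).im) := by
  have d : ∀ cc : H6 →L[ℝ] ℂ, DifferentiableAt ℝ (imF cc) v := fun cc =>
    (contDiff_imF cc).differentiable (by simp) v
  have s1 : DifferentiableAt ℝ (fun v => f1 v • imF hB v) v := h1.differentiableAt.smul (d hB)
  have s2 : DifferentiableAt ℝ (fun v => f2 v • mu v) v := h2.differentiableAt.smul hmu
  have s3 : DifferentiableAt ℝ (fun v => f3 v • imF hA v) v := h3.differentiableAt.smul (d hA)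
  have s4 : DifferentiableAt ℝ (fun v => f4 v • imF hU v) v := h4.differentiableAt.smul (d hU)
  have s12 : DifferentiableAt ℝ (fun v => f1 v • imF hB v + f2 v • mu v) v := s1.add s2
  have s123 : DifferentiableAt ℝ (fun v => f1 v • imF hB v + f2 v • mu v + f3 v • imF hA v) v :=
    s12.add s3
  rw [SG_dd_add (fun v => f1 v • imF hB v + f2 v • mu v + f3 v • imF hA v)
      (fun v => f4 v • imF hU v) v s123 s4,
    SG_dd_add (fun v => f1 v • imF hB v + f2 v • mu v) (fun v => f3 v • imF hA v) v s12 s3,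
    SG_dd_add (fun v => f1 v • imF hB v) (fun v => f2 v • mu v) v s1 s2,
    SG_dd_smul f1 _ v L1 h1 (d hB), SG_dd_smul f2 _ v L2 h2 hmu, SG_dd_smul f3 _ v L3 h3 (d hA),
    SG_dd_smul f4 _ v L4 h4 (d hU), dd_imF, dd_imF, dd_imF, hf2, hL2, hL2]
  rw [imF_apply, imF_apply, imF_apply, imF_apply, imF_apply, imF_apply]
  have e : hB v = 0 := hv
  rw [e]
  change L1 a * (conj (0 : ℂ) * c.2.2).im - L1 c * (conj (0 : ℂ) * a.2.2).im +
    f1 v * (2 * (conj a.2.2 * c.2.2).im) + (0 * mu v c - 0 * mu v a + 0 * dd mu v a c) +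
    (L3 a * (conj v.2.1 * c.2.1).im - L3 c * (conj v.2.1 * a.2.1).im +
      f3 v * (2 * (conj a.2.1 * c.2.1).im)) +
    (L4 a * (conj v.1 * c.1).im - L4 c * (conj v.1 * a.1).im + f4 v * (2 * (conj a.1 * c.1).im)) = _
  rw [map_zero, zero_mul, zero_mul, Complex.zero_im]
  ring

/-- the final step. -/
theorem SG_fin (Om : H6 → H6 → ℝ) (K1 K2 K3 t : ℝ) (u b e : ℂ) (h1 : K1 ≠ 0) (h2 : K2 ≠ 0)
    (h3 : K3 ≠ 0)
    (h : ∀ a c : H6, Om a c = K1 * (conj a.2.2 * c.2.2).im +
      K2 * (conj (a.2.1 + e * ((t * (conj u * a.1).im : ℝ) : ℂ)) *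
        (c.2.1 + e * ((t * (conj u * c.1).im : ℝ) : ℂ))).im + K3 * (conj a.1 * c.1).im)
    (a : H6) (ha : a ≠ 0) : ∃ c : H6, Om a c ≠ 0 := by
  have key : ∀ x : ℂ, (conj x * (Complex.I * x)).im = Complex.normSq x := by
    intro x
    rw [Complex.normSq_apply]
    simp [Complex.mul_im, Complex.mul_re]
  by_cases hu : a.1 = 0
  · by_cases hb : a.2.1 = 0
    · have hy : a.2.2 ≠ 0 := fun hy => ha (Prod.ext hu (Prod.ext hb hy))
      refine ⟨(0, 0, Complex.I * a.2.2), ?_⟩
      rw [h, hu, hb, key]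
      have := Complex.normSq_pos.2 hy
      simp [h1, this.ne']
    · refine ⟨(0, Complex.I * a.2.1, 0), ?_⟩
      rw [h, hu]
      have := Complex.normSq_pos.2 hb
      have e1 : (conj (a.2.1 + e * ((t * (conj u * (0 : ℂ)).im : ℝ) : ℂ)) *
        ((Complex.I * a.2.1) + e * ((t * (conj u * (0 : ℂ)).im : ℝ) : ℂ))).im =
          Complex.normSq a.2.1 := by
        rw [mul_zero, Complex.zero_im, mul_zero, Complex.ofReal_zero, mul_zero, add_zero, add_zero,
          key]
      change K1 * (conj a.2.2 * 0).im + K2 * (conj (a.2.1 + e * ((t * (conj u * (0 : ℂ)).im : ℝ) : ℂ)) *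
        ((Complex.I * a.2.1) + e * ((t * (conj u * (0 : ℂ)).im : ℝ) : ℂ))).im +
        K3 * (conj (0 : ℂ) * 0).im ≠ 0
      rw [e1, mul_zero, mul_zero, Complex.zero_im, mul_zero, mul_zero, zero_add, add_zero]
      exact mul_ne_zero h2 this.ne'
  · refine ⟨(Complex.I * a.1, -(e * ((t * (conj u * (Complex.I * a.1)).im : ℝ) : ℂ)), 0), ?_⟩
    rw [h]
    have := Complex.normSq_pos.2 hu
    change K1 * (conj a.2.2 * 0).im + K2 * (conj (a.2.1 + e * ((t * (conj u * a.1).im : ℝ) : ℂ)) *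
        (-(e * ((t * (conj u * (Complex.I * a.1)).im : ℝ) : ℂ)) +
        e * ((t * (conj u * (Complex.I * a.1)).im : ℝ) : ℂ))).im +
        K3 * (conj a.1 * (Complex.I * a.1)).im ≠ 0
    rw [key, neg_add_cancel, mul_zero, mul_zero, Complex.zero_im, mul_zero, mul_zero, zero_add,
      zero_add]
    exact mul_ne_zero h3 this.ne'

theorem SG_f1 (k1 : ℝ) (v : H6) :
    HasFDerivAt (fun v : H6 => k1 / 2 * (1 + Complex.normSq v.2.1)) ((k1 / 2) • SG_L hA v) v :=
  ((SG_ns hA v).const_add 1).const_mul (k1 / 2)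

theorem SG_f2 (v : H6) : HasFDerivAt (fun v : H6 => Complex.normSq v.2.2) (SG_L hB v) v :=
  SG_ns hB v

theorem SG_f3 (k2 : ℝ) (v : H6) :
    HasFDerivAt (fun v : H6 => k2 / (1 + Complex.normSq v.2.1))
      ((-(k2 / (1 + Complex.normSq v.2.1) ^ 2)) • SG_L hA v) v := by
  have hN : 1 + Complex.normSq v.2.1 ≠ 0 := by
    have := Complex.normSq_nonneg v.2.1
    positivity
  have h1 : HasFDerivAt (fun v : H6 => 1 + Complex.normSq v.2.1) (SG_L hA v) v :=
    (SG_ns hA v).const_add 1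
  have h2 := (hasDerivAt_inv hN).comp_hasFDerivAt v h1
  have h3 := h2.const_mul k2
  refine (h3.congr_fderiv ?_)
  rw [smul_smul]
  congr 1
  field_simp

theorem SG_fk (g : ℝ → ℝ) (hg : ContDiff ℝ ∞ g) (v : H6) :
    HasFDerivAt (fun v : H6 => g (Complex.normSq v.1))
      ((deriv g (Complex.normSq v.1)) • SG_L hU v) v := by
  have h1 : HasDerivAt g (deriv g (Complex.normSq v.1)) (Complex.normSq v.1) :=
    (hg.differentiable (by simp) _).hasDerivAt
  exact h1.comp_hasFDerivAt (f := fun v : H6 => Complex.normSq v.1) v (SG_ns hU v)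

theorem lamB_nondeg (k1 k2 : ℝ) (ka kr : ℝ → ℝ) (mu : Form1 H6) (hk1 : k1 ≠ 0) (hk2 : k2 ≠ 0)
    (hka : ContDiff ℝ ∞ ka) (hkr : ContDiff ℝ ∞ kr) (v : H6) (hmu : ContDiffAt ℝ ∞ mu v)
    (hv : v.2.2 = 0)
    (h3 : (kr (Complex.normSq v.1) + Complex.normSq v.1 * deriv kr (Complex.normSq v.1))
      + 2 * k2 * (ka (Complex.normSq v.1) + Complex.normSq v.1 * deriv ka (Complex.normSq v.1))
        / (1 + Complex.normSq v.2.1) ≠ 0)
    (a : H6) (ha : a ≠ 0) : ∃ b : H6, dd (lamB k1 k2 ka kr mu) v a b ≠ 0 := by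
  have hN : 0 < 1 + Complex.normSq v.2.1 := by
    have := Complex.normSq_nonneg v.2.1
    positivity
  have e0 : lamB k1 k2 ka kr mu = fun v => (k1 / 2 * (1 + Complex.normSq v.2.1)) • imF hB v +
      Complex.normSq v.2.2 • mu v + (k2 / (1 + Complex.normSq v.2.1)) • imF hA v +
      (k2 / (1 + Complex.normSq v.2.1) * ka (Complex.normSq v.1) +
        kr (Complex.normSq v.1) / 2) • imF hU v := by
    funext v
    simp only [lamB, smul_add, smul_smul, add_smul]
    abel
  have h4 : HasFDerivAt (fun v : H6 => k2 / (1 + Complex.normSq v.2.1) * ka (Complex.normSq v.1) +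
      kr (Complex.normSq v.1) / 2)
      (((k2 / (1 + Complex.normSq v.2.1)) • ((deriv ka (Complex.normSq v.1)) • SG_L hU v) +
        (ka (Complex.normSq v.1)) • ((-(k2 / (1 + Complex.normSq v.2.1) ^ 2)) • SG_L hA v)) +
        (2 : ℝ)⁻¹ • ((deriv kr (Complex.normSq v.1)) • SG_L hU v)) v := by
    have h5 := ((SG_f3 k2 v).mul (SG_fk ka hka v)).add ((SG_fk kr hkr v).mul_const ((2 : ℝ)⁻¹))
    simp only [div_eq_mul_inv (kr _)]
    exact h5
  have hL2 : ∀ a, SG_L hB v a = 0 := by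
    intro a
    rw [SG_L_apply]
    have : hB v = 0 := hv
    rw [this, map_zero, zero_mul, Complex.zero_re, mul_zero]
  refine SG_fin (fun a b => dd (lamB k1 k2 ka kr mu) v a b)
    (k1 * (1 + Complex.normSq v.2.1)) (2 * k2 / (1 + Complex.normSq v.2.1) ^ 2) _
    (ka (Complex.normSq v.1)) v.1 v.2.1 (-(Complex.I * v.2.1)) (mul_ne_zero hk1 hN.ne')
    (div_ne_zero (mul_ne_zero two_ne_zero hk2) (pow_ne_zero 2 hN.ne')) h3 ?_ a ha
  intro a c
  change dd (lamB k1 k2 ka kr mu) v a c = _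
  rw [e0, SG_gen (fun v => k1 / 2 * (1 + Complex.normSq v.2.1)) (fun v => Complex.normSq v.2.2)
    (fun v => k2 / (1 + Complex.normSq v.2.1)) (fun v => k2 / (1 + Complex.normSq v.2.1) *
      ka (Complex.normSq v.1) + kr (Complex.normSq v.1) / 2) _ _ _ _ mu v (SG_f1 k1 v) (SG_f2 v)
    (SG_f3 k2 v) h4 (hmu.differentiableAt (by simp)) (by simp [hv]) hL2 hv a c]
  simp only [add_apply, smul_apply, smul_eq_mul,
    SG_L_apply]
  generalize ka (Complex.normSq v.1) = x1
  generalize kr (Complex.normSq v.1) = x2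
  generalize deriv ka (Complex.normSq v.1) = x3
  generalize deriv kr (Complex.normSq v.1) = x4
  have q1 : hU v = v.1 := rfl
  have q2 : hA v = v.2.1 := rfl
  have q3 : hU a = a.1 := rfl
  have q4 : hA a = a.2.1 := rfl
  have q5 : hU c = c.1 := rfl
  have q6 : hA c = c.2.1 := rfl
  rw [q1, q2, q3, q4, q5, q6]
  have hN' := hN.ne'
  rw [Complex.normSq_apply] at hN'
  simp only [Complex.normSq_apply, Complex.mul_re, Complex.mul_im, Complex.add_re, Complex.add_im,
    Complex.conj_re, Complex.conj_im, Complex.neg_re, Complex.neg_im, Complex.I_re, Complex.I_im,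
    Complex.ofReal_re, Complex.ofReal_im, map_add, map_neg, map_mul, Complex.conj_I,
    Complex.conj_ofReal]
  field_simp
  ring

theorem lamA_nondeg (k1 k2 : ℝ) (ka kr : ℝ → ℝ) (mu : Form1 H6) (hk1 : k1 ≠ 0) (hk2 : k2 ≠ 0)
    (hka : ContDiff ℝ ∞ ka) (hkr : ContDiff ℝ ∞ kr) (v : H6) (hmu : ContDiffAt ℝ ∞ mu v)
    (hv : v.2.2 = 0)
    (h3 : (kr (Complex.normSq v.1) + Complex.normSq v.1 * deriv kr (Complex.normSq v.1))
      + 2 * k2 * (ka (Complex.normSq v.1) + Complex.normSq v.1 * deriv ka (Complex.normSq v.1))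
        * Complex.normSq v.2.1 / (1 + Complex.normSq v.2.1) ≠ 0)
    (a : H6) (ha : a ≠ 0) : ∃ b : H6, dd (lamA k1 k2 ka kr mu) v a b ≠ 0 := by
  have hN : 0 < 1 + Complex.normSq v.2.1 := by
    have := Complex.normSq_nonneg v.2.1
    positivity
  have e0 : lamA k1 k2 ka kr mu = fun v => (k1 / 2 * (1 + Complex.normSq v.2.1)) • imF hB v +
      Complex.normSq v.2.2 • mu v + (k2 / (1 + Complex.normSq v.2.1)) • imF hA v +
      (k2 / (1 + Complex.normSq v.2.1) * (Complex.normSq v.2.1 * ka (Complex.normSq v.1)) +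
        kr (Complex.normSq v.1) / 2) • imF hU v := by
    funext v
    simp only [lamA, smul_add, smul_smul, add_smul]
    abel
  have h4 : HasFDerivAt (fun v : H6 => k2 / (1 + Complex.normSq v.2.1) *
      (Complex.normSq v.2.1 * ka (Complex.normSq v.1)) + kr (Complex.normSq v.1) / 2)
      (((k2 / (1 + Complex.normSq v.2.1)) •
        (Complex.normSq v.2.1 • ((deriv ka (Complex.normSq v.1)) • SG_L hU v) +
          ka (Complex.normSq v.1) • SG_L hA v) +
        (Complex.normSq v.2.1 * ka (Complex.normSq v.1)) •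
          ((-(k2 / (1 + Complex.normSq v.2.1) ^ 2)) • SG_L hA v)) +
        (2 : ℝ)⁻¹ • ((deriv kr (Complex.normSq v.1)) • SG_L hU v)) v := by
    have h5 := ((SG_f3 k2 v).mul ((SG_ns hA v).mul (SG_fk ka hka v))).add
      ((SG_fk kr hkr v).mul_const ((2 : ℝ)⁻¹))
    simp only [div_eq_mul_inv (kr _)]
    exact h5
  have hL2 : ∀ a, SG_L hB v a = 0 := by
    intro a
    rw [SG_L_apply]
    have : hB v = 0 := hv
    rw [this, map_zero, zero_mul, Complex.zero_re, mul_zero]
  refine SG_fin (fun a b => dd (lamA k1 k2 ka kr mu) v a b)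
    (k1 * (1 + Complex.normSq v.2.1)) (2 * k2 / (1 + Complex.normSq v.2.1) ^ 2) _
    (ka (Complex.normSq v.1)) v.1 v.2.1 (Complex.I * v.2.1) (mul_ne_zero hk1 hN.ne')
    (div_ne_zero (mul_ne_zero two_ne_zero hk2) (pow_ne_zero 2 hN.ne')) h3 ?_ a ha
  intro a c
  change dd (lamA k1 k2 ka kr mu) v a c = _
  rw [e0, SG_gen (fun v => k1 / 2 * (1 + Complex.normSq v.2.1)) (fun v => Complex.normSq v.2.2)
    (fun v => k2 / (1 + Complex.normSq v.2.1)) (fun v => k2 / (1 + Complex.normSq v.2.1) *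
      (Complex.normSq v.2.1 * ka (Complex.normSq v.1)) + kr (Complex.normSq v.1) / 2) _ _ _ _ mu v
    (SG_f1 k1 v) (SG_f2 v)
    (SG_f3 k2 v) h4 (hmu.differentiableAt (by simp)) (by simp [hv]) hL2 hv a c]
  simp only [add_apply, smul_apply, smul_eq_mul,
    SG_L_apply]
  generalize ka (Complex.normSq v.1) = x1
  generalize kr (Complex.normSq v.1) = x2
  generalize deriv ka (Complex.normSq v.1) = x3
  generalize deriv kr (Complex.normSq v.1) = x4
  have q1 : hU v = v.1 := rfl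
  have q2 : hA v = v.2.1 := rfl
  have q3 : hU a = a.1 := rfl
  have q4 : hA a = a.2.1 := rfl
  have q5 : hU c = c.1 := rfl
  have q6 : hA c = c.2.1 := rfl
  rw [q1, q2, q3, q4, q5, q6]
  have hN' := hN.ne'
  rw [Complex.normSq_apply] at hN'
  simp only [Complex.normSq_apply, Complex.mul_re, Complex.mul_im, Complex.add_re, Complex.add_im,
    Complex.conj_re, Complex.conj_im, Complex.neg_re, Complex.neg_im, Complex.I_re, Complex.I_im,
    Complex.ofReal_re, Complex.ofReal_im, map_add, map_neg, map_mul, Complex.conj_I,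
    Complex.conj_ofReal]
  field_simp
  ring

end Pool.Agent.H34.SY
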