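import Pool.Agent.H34.SY.WB
import Pool.Agent.H34.SY.WC
import Pool.Agent.H34.SY.CA

/-!
# Row SX: tangent vectors under the projections to the sides

All from `IsTangent.map` and the definition by curves.  For the last one: along a curve `γ` of `X ⊆ WS La` through `z`,
`rhoS (γ t) = trans (rhoN (γ t))` for small `t` (`rhoS_eq`), differentiate at `0` (`trans` is smooth at `rhoN z`,
whose `u` is nonzero).
-/

open Set Topology
open scoped ContDiff ComplexConjugate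

namespace Pool.Agent.H34.SY

theorem IsTangent.mono' {E : Type} [NormedAddCommGroup E] [NormedSpace ℝ E] {X Y : Set E} {z a : E}
    (h : X ⊆ Y) (ha : IsTangent X z a) : IsTangent Y z a := by
  obtain ⟨γ, h0, hX, hs, hd⟩ := ha
  exact ⟨γ, h0, hX.mono fun t ht => h ht, hs, hd⟩

private theorem SX_openN : IsOpen {z : EA | -1 < eW1 z} := isOpen_lt continuous_const WB_cont_W1

private theorem SX_openS : IsOpen {z : EA | eW1 z < 1} := isOpen_lt WB_cont_W1 continuous_const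

theorem rhoN_tangent {La : ℝ} {X : Set EA} (hX : X ⊆ WS La) {z a : EA} (hz : z ∈ X)
    (h1 : -1 < eW1 z) (ha : IsTangent X z a) :
    IsTangent (FPS La) (rhoN z) (fderiv ℝ rhoN z a) := by
  have _ := hz
  exact ha.map SX_openN h1 contDiffOn_rhoN fun y hy => (rhoN_mem (hX hy.1) hy.2).1

theorem rhoS_tangent {La : ℝ} {X : Set EA} (hX : X ⊆ WS La) {z a : EA} (hz : z ∈ X)
    (h1 : eW1 z < 1) (ha : IsTangent X z a) :
    IsTangent (FPS La) (rhoS z) (fderiv ℝ rhoS z a) := by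
  have _ := hz
  exact ha.map SX_openS h1 contDiffOn_rhoS fun y hy => (rhoS_mem (hX hy.1) hy.2).1

theorem contDiffAt_trans {p : FP} (hu : fU p ≠ 0) : ContDiffAt ℝ ∞ trans p := by
  have cT : ContDiff ℝ ∞ fT := contDiff_fst
  have c1 : ContDiff ℝ ∞ (fun p : FP => p.2) := contDiff_snd
  have cU : ContDiff ℝ ∞ fU := contDiff_fst.comp c1
  have c2 : ContDiff ℝ ∞ (fun p : FP => p.2.2) := contDiff_snd.comp c1
  have cH0 : ContDiff ℝ ∞ fH0 := contDiff_fst.comp c2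
  have c3 : ContDiff ℝ ∞ (fun p : FP => p.2.2.2) := contDiff_snd.comp c2
  have cH : ContDiff ℝ ∞ fH := contDiff_fst.comp c3
  have c4 : ContDiff ℝ ∞ (fun p : FP => p.2.2.2.2) := contDiff_snd.comp c3
  have cZe : ContDiff ℝ ∞ fZe := contDiff_fst.comp c4
  have c5 : ContDiff ℝ ∞ (fun p : FP => p.2.2.2.2.2) := contDiff_snd.comp c4
  have cZ : ContDiff ℝ ∞ fZ := contDiff_fst.comp c5
  have cS : ContDiff ℝ ∞ fS := contDiff_snd.comp c5
  have hn : Complex.normSq (fU p) ≠ 0 := (map_ne_zero Complex.normSq).2 hu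
  have ca : ContDiffAt ℝ ∞ (fun p : FP => (((Complex.normSq (fU p))⁻¹ : ℝ) : ℂ)) p :=
    Complex.ofRealCLM.contDiff.contDiffAt.comp p
      ((WB_cd_normSq.comp cU).contDiffAt.inv hn)
  have cb0 : ContDiffAt ℝ ∞ (fun p : FP => ‖fU p‖) p := cU.contDiffAt.norm ℝ hu
  have cb : ContDiffAt ℝ ∞ (fun p : FP => (((‖fU p‖)⁻¹ : ℝ) : ℂ)) p :=
    Complex.ofRealCLM.contDiff.contDiffAt.comp p (cb0.inv (norm_ne_zero_iff.2 hu))
  exact cT.contDiffAt.prodMk ((ca.mul cU.contDiffAt).prodMk (cH0.contDiffAt.prodMk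
    ((cb.mul (cH.mul cU).contDiffAt).prodMk (cZe.contDiffAt.prodMk
      ((cb.mul (cZ.mul cU).contDiffAt).prodMk cS.contDiffAt)))))

theorem rhoS_trans_tangent {La : ℝ} {X : Set EA} (hX : X ⊆ WS La) {z a : EA} (hz : z ∈ X)
    (h1 : -1 < eW1 z) (h2 : eW1 z < 1) (ha : IsTangent X z a) :
    fderiv ℝ rhoS z a = fderiv ℝ trans (rhoN z) (fderiv ℝ rhoN z a) := by
  obtain ⟨γ, h0, hXe, hs, hd⟩ := ha
  have hN : ContDiffAt ℝ ∞ rhoN z := contDiffOn_rhoN.contDiffAt (SX_openN.mem_nhds h1)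
  have hS : ContDiffAt ℝ ∞ rhoS z := contDiffOn_rhoS.contDiffAt (SX_openS.mem_nhds h2)
  have hT : ContDiffAt ℝ ∞ trans (rhoN z) := contDiffAt_trans (rhoS_eq (hX hz) h1 h2).1
  have d1 := CA_comp h0 (CA_fd hS) hd
  have d2 := CA_comp h0 (CA_fd hN) hd
  have d3 := CA_comp (F := trans) (γ := fun t => rhoN (γ t)) (z := rhoN z) (by simp only [h0])
    (CA_fd hT) d2
  have hev : (fun t => rhoS (γ t)) =ᶠ[𝓝 0] fun t => trans (rhoN (γ t)) := by
    filter_upwards [hXe, CA_ev h0 SX_openN h1 hs.continuousAt, CA_ev h0 SX_openS h2 hs.continuousAt]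
      with t ht1 ht2 ht3
    exact (rhoS_eq (hX ht1) ht2 ht3).2
  exact d1.unique (d3.congr_of_eventuallyEq hev)

/-- `normSq` of the two base coordinates. -/
theorem normSq_U {La : ℝ} {z : EA} (hz : z ∈ WS La) (h1 : -1 < eW1 z) (h2 : eW1 z < 1) :
    Complex.normSq (fU (rhoS z)) = (Complex.normSq (fU (rhoN z)))⁻¹ ∧
      0 < Complex.normSq (fU (rhoN z)) := by
  obtain ⟨h3, h4⟩ := rhoS_eq hz h1 h2
  refine ⟨?_, Complex.normSq_pos.2 h3⟩
  rw [h4]
  exact WC_ns _ h3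

/-- The coordinates common to the two sides. -/
theorem rhoS_same {La : ℝ} {z : EA} (hz : z ∈ WS La) (h1 : -1 < eW1 z) (h2 : eW1 z < 1) :
    fT (rhoS z) = fT (rhoN z) ∧ fH0 (rhoS z) = fH0 (rhoN z) ∧ fZe (rhoS z) = fZe (rhoN z) ∧
    fS (rhoS z) = fS (rhoN z) ∧ Complex.normSq (fZ (rhoS z)) = Complex.normSq (fZ (rhoN z)) := by
  obtain ⟨h3, h4⟩ := rhoS_eq hz h1 h2
  refine ⟨rfl, rfl, rfl, rfl, ?_⟩
  rw [h4]
  change Complex.normSq (((‖fU (rhoN z)‖⁻¹ : ℝ) : ℂ) * (fZ (rhoN z) * fU (rhoN z))) = _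
  have h5 : Complex.normSq (fU (rhoN z)) ≠ 0 := (Complex.normSq_pos.2 h3).ne'
  rw [map_mul, map_mul, Complex.normSq_ofReal, ← mul_inv, WC_nsq]
  field_simp

end Pool.Agent.H34.SY
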