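import Pool.Agent.H34.SY.TCH
import Pool.Agent.H34.SY.SI
import Pool.Agent.H34.SY.SF
import Pool.Agent.H34.SY.SG
import Pool.Agent.H34.SY.SX
import Pool.Agent.H34.SY.SA2
import Pool.Agent.H34.SY.CE

/-!
# Row SJ: nondegeneracy of the local forms on graphs over `M_amb`

`X ⊆ WS La` is, near `z`, a graph `t = τ(rest)` over `M_amb` (hypothesis `hX`).  The charts of `X` are given by
`TChart.graphN/graphS` (restricted to the open set `W`, row GR), and `nonDegAt_of_chart` (row CE) reduces the claim to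
the nondegeneracy of `pb2 ψ (pb2 rhoN om) = pb2 (c (τ.., ·)) om` (because `rhoN (psiN p) = p`).
* off `q = 0`: chart `cQ`, `pb2 c (dd lN0) = dd (pb1 c lN0) = dd (lamQ ..)` (`pb_cQ_N`, holds near the point),
  `lamQ_nondeg` with `ch = 0`, `ke = 0`, `GM_props`, the base coefficient is
  `(kr + s kr') + 2 (ka + s ka') GM H > 0` (rows SB: first term `> 0`, second `≥ 0`).
* on `q = 0`: chart `cB` if `h0 < 1`, else `cA` (`-1 < h0`).  The forms are `omNm = dd (primN 1 eps 0) + eps areaF` etc.;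
  on tangent vectors of `FPS` (the image of the derivative of the chart) `areaF = dd Ab` (row SA2), so
  `pb2 c om = dd (pb1 c (primN k1 k2 Ab)) = dd (lamB k1 k2 ..)`; `lamB_nondeg`.  At these points `y = 0`.
Side `S`: same with `ka = 0`, `kr = -1`.
-/

open Set Topology
open scoped ContDiff ComplexConjugate

namespace Pool.Agent.H34.SY

namespace FPar

/-- `X` is near `z` (over the side `N`, on the open set `W` of side coordinates, independent of `t`) a graph. -/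
def GraphN (La : ℝ) (X : Set EA) (W : Set FP) (τ : FP → ℝ) : Prop :=
  X ⊆ WS La ∧ IsOpen W ∧ (∀ p : FP, ∀ t : ℝ, p ∈ W → (t, p.2) ∈ W) ∧ ContDiffOn ℝ ∞ τ W ∧
    (∀ p : FP, ∀ t : ℝ, τ (t, p.2) = τ p) ∧
    ∀ z ∈ WS La, -1 < eW1 z → rhoN z ∈ W → (z ∈ X ↔ eT z = τ (rhoN z))

def GraphS (La : ℝ) (X : Set EA) (W : Set FP) (τ : FP → ℝ) : Prop :=
  X ⊆ WS La ∧ IsOpen W ∧ (∀ p : FP, ∀ t : ℝ, p ∈ W → (t, p.2) ∈ W) ∧ ContDiffOn ℝ ∞ τ W ∧
    (∀ p : FP, ∀ t : ℝ, τ (t, p.2) = τ p) ∧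
    ∀ z ∈ WS La, eW1 z < 1 → rhoS z ∈ W → (z ∈ X ↔ eT z = τ (rhoS z))

/-- The data of a graph in a `TChart`. -/
structure SJD (La : ℝ) (V : Set H7) (c : H7 → FP) (p : FP) (T : H6 → ℝ) (V6 : Set H6)
    (w0 : H6) : Prop where
  op : IsOpen V6
  mem : w0 ∈ V6
  smT : ContDiffOn ℝ ∞ T V6
  smc : ContDiffOn ℝ ∞ (fun w => c (T w, w)) V6
  inV : ∀ w ∈ V6, ((T w, w) : H7) ∈ V
  fps : ∀ w ∈ V6, c (T w, w) ∈ FPS La
  val : c (T w0, w0) = p

theorem SJ_data {La : ℝ} {U : Set FP} {V : Set H7} {ρ : FP → H7} {c : H7 → FP}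
    (hc : TChart La U V ρ c) (τ : FP → ℝ) (hτ : ContDiffOn ℝ ∞ τ U)
    (hτt : ∀ p : FP, ∀ t : ℝ, τ (t, p.2) = τ p) {p : FP} (hp : p ∈ FPS La) (hU : p ∈ U)
    (hτp : fT p = τ p) :
    SJD La V c p (fun w => τ (c (0, w))) {w : H6 | ((0, w) : H7) ∈ V} (ρ p).2 := by
  have hlin : ContDiff ℝ ∞ (fun w : H6 => ((0, w) : H7)) := contDiff_const.prodMk contDiff_id
  have hcU : ∀ w : H6, ((0, w) : H7) ∈ V → c (0, w) ∈ U := fun w h => (hc.chart.maps_ψ _ h).2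
  have hs1 : ContDiffOn ℝ ∞ (fun w : H6 => c (0, w)) {w : H6 | ((0, w) : H7) ∈ V} :=
    hc.chart.smooth_ψ.comp hlin.contDiffOn (fun w h => h)
  have hs2 : ContDiffOn ℝ ∞ (fun w : H6 => τ (c (0, w))) {w : H6 | ((0, w) : H7) ∈ V} :=
    hτ.comp hs1 (fun w h => hcU w h)
  have hs3 : ContDiffOn ℝ ∞ (fun w : H6 => ((τ (c (0, w)), w) : H7))
      {w : H6 | ((0, w) : H7) ∈ V} := hs2.prodMk contDiffOn_id
  have hV : ∀ w : H6, ((0, w) : H7) ∈ V → ∀ t : ℝ, ((t, w) : H7) ∈ V := fun w h t =>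
    hc.V_t (0, w) t h
  have h2 : c (ρ p) = p := hc.chart.left_inv _ ⟨hp, hU⟩
  exact {
    op := hc.chart.isOpen_V.preimage hlin.continuous
    mem := hc.V_t _ 0 (hc.chart.maps_ρ p ⟨hp, hU⟩)
    smT := hs2
    smc := hc.chart.smooth_ψ.comp hs3 (fun w h => hV w h _)
    inV := fun w h => hV w h _
    fps := fun w h => (hc.chart.maps_ψ _ (hV w h _)).1
    val := by
      have h4 : c (0, (ρ p).2) = (0, p.2) := by
        have h5 := hc.c_t (ρ p) 0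
        rw [h2] at h5
        exact h5
      have h6 : τ (c (0, (ρ p).2)) = p.1 := by
        rw [h4, hτt p 0, ← hτp]
      show c (τ (c (0, (ρ p).2)), (ρ p).2) = p
      rw [h6]
      have h7 := hc.c_t (ρ p) p.1
      rw [h2] at h7
      rw [h7] }

theorem SJ_N {La : ℝ} {X : Set EA} {W : Set FP} {τ : FP → ℝ} (hX : GraphN La X W τ) {z : EA}
    (hz : z ∈ X) (h1 : -1 < eW1 z) (hW : rhoN z ∈ W) {U : Set FP} {V : Set H7} {ρ : FP → H7}
    {c : H7 → FP} (hc : TChart La U V ρ c) (hU : rhoN z ∈ U) (Om : Form FP)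
    (h : ∀ (T : H6 → ℝ) (V6 : Set H6) (w0 : H6), SJD La V c (rhoN z) T V6 w0 →
      ∀ a : H6, a ≠ 0 → ∃ b : H6, pb2 (fun w => c (T w, w)) Om w0 a b ≠ 0) :
    NonDegAt X (pb2 rhoN Om) z := by
  obtain ⟨hXW, hWo, hWt, hτ, hτt, hg⟩ := hX
  have hc' := hc.restrict hWo hWt
  have hch := hc'.graphN τ (hτ.mono inter_subset_right) hτt X hXW
    (fun y hy h1 h2 => hg y hy h1 h2.2)
  have hzW : z ∈ WS La := hXW hz
  have hp := (rhoN_mem hzW h1).1
  have hd := SJ_data hc' τ (hτ.mono inter_subset_right) hτt hp ⟨hU, hW⟩ ((hg z hzW h1 hW).1 hz)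
  have hzU : z ∈ X ∩ ({z | -1 < eW1 z} ∩ rhoN ⁻¹' (U ∩ W)) := ⟨hz, h1, hU, hW⟩
  have hl := hch.left_inv z hzU
  have hd' : SJD La V c (rhoN z) (fun w => τ (c (0, w)))
      {w : H6 | ((0, w) : H7) ∈ V ∩ c ⁻¹' W} (ρ (rhoN z)).2 :=
    ⟨hd.op, hd.mem, hd.smT, hd.smc, fun w hw => (hd.inV w hw).1, hd.fps, hd.val⟩
  have key := nonDegAt_of_chart hch (v := (ρ (rhoN z)).2) hd.mem (om := pb2 rhoN Om) (by
    intro a ha
    obtain ⟨b, hb⟩ := h _ _ _ hd' a ha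
    refine ⟨b, ?_⟩
    have hdf : DifferentiableAt ℝ (fun w : H6 => psiN (c (τ (c (0, w)), w))) (ρ (rhoN z)).2 :=
      CC_diff hch.isOpen_V hch.smooth_ψ hd.mem
    have hdg : DifferentiableAt ℝ rhoN (psiN (c (τ (c (0, (ρ (rhoN z)).2)), (ρ (rhoN z)).2))) := by
      have e1 : psiN (c (τ (c (0, (ρ (rhoN z)).2)), (ρ (rhoN z)).2)) = z := hl
      rw [e1]
      exact CC_diff (isOpen_lt continuous_const WB_cont_W1) contDiffOn_rhoN h1
    rw [pb2_comp hdf hdg]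
    simp only [rhoN_psiN]
    exact hb)
  have e1 : psiN (c (τ (c (0, (ρ (rhoN z)).2)), (ρ (rhoN z)).2)) = z := hl
  rw [e1] at key
  exact key

theorem SJ_S {La : ℝ} {X : Set EA} {W : Set FP} {τ : FP → ℝ} (hX : GraphS La X W τ) {z : EA}
    (hz : z ∈ X) (h1 : eW1 z < 1) (hW : rhoS z ∈ W) {U : Set FP} {V : Set H7} {ρ : FP → H7}
    {c : H7 → FP} (hc : TChart La U V ρ c) (hU : rhoS z ∈ U) (Om : Form FP)
    (h : ∀ (T : H6 → ℝ) (V6 : Set H6) (w0 : H6), SJD La V c (rhoS z) T V6 w0 →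
      ∀ a : H6, a ≠ 0 → ∃ b : H6, pb2 (fun w => c (T w, w)) Om w0 a b ≠ 0) :
    NonDegAt X (pb2 rhoS Om) z := by
  obtain ⟨hXW, hWo, hWt, hτ, hτt, hg⟩ := hX
  have hc' := hc.restrict hWo hWt
  have hch := hc'.graphS τ (hτ.mono inter_subset_right) hτt X hXW
    (fun y hy h1 h2 => hg y hy h1 h2.2)
  have hzW : z ∈ WS La := hXW hz
  have hp := (rhoS_mem hzW h1).1
  have hd := SJ_data hc' τ (hτ.mono inter_subset_right) hτt hp ⟨hU, hW⟩ ((hg z hzW h1 hW).1 hz)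
  have hzU : z ∈ X ∩ ({z | eW1 z < 1} ∩ rhoS ⁻¹' (U ∩ W)) := ⟨hz, h1, hU, hW⟩
  have hl := hch.left_inv z hzU
  have hd' : SJD La V c (rhoS z) (fun w => τ (c (0, w)))
      {w : H6 | ((0, w) : H7) ∈ V ∩ c ⁻¹' W} (ρ (rhoS z)).2 :=
    ⟨hd.op, hd.mem, hd.smT, hd.smc, fun w hw => (hd.inV w hw).1, hd.fps, hd.val⟩
  have key := nonDegAt_of_chart hch (v := (ρ (rhoS z)).2) hd.mem (om := pb2 rhoS Om) (by
    intro a ha
    obtain ⟨b, hb⟩ := h _ _ _ hd' a ha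
    refine ⟨b, ?_⟩
    have hdf : DifferentiableAt ℝ (fun w : H6 => psiS (c (τ (c (0, w)), w))) (ρ (rhoS z)).2 :=
      CC_diff hch.isOpen_V hch.smooth_ψ hd.mem
    have hdg : DifferentiableAt ℝ rhoS (psiS (c (τ (c (0, (ρ (rhoS z)).2)), (ρ (rhoS z)).2))) := by
      have e1 : psiS (c (τ (c (0, (ρ (rhoS z)).2)), (ρ (rhoS z)).2)) = z := hl
      rw [e1]
      exact CC_diff (isOpen_lt WB_cont_W1 continuous_const) contDiffOn_rhoS h1
    rw [pb2_comp hdf hdg]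
    simp only [rhoS_psiS]
    exact hb)
  have e1 : psiS (c (τ (c (0, (ρ (rhoS z)).2)), (ρ (rhoS z)).2)) = z := hl
  rw [e1] at key
  exact key

/-- The general argument in a chart. -/
theorem SJ_core {La : ℝ} {V : Set H7} {c : H7 → FP} {p : FP} {T : H6 → ℝ} {V6 : Set H6} {w0 : H6}
    (hd : SJD La V c p T V6 w0) {om : Form FP} {l : Form1 FP} {m : Form1 H6}
    (hl : DifferentiableAt ℝ l p)
    (hom : ∀ a b, IsTangent (FPS La) p a → IsTangent (FPS La) p b → om p a b = dd l p a b)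
    (hpb : ∀ w ∈ V6, pb1 (fun w => c (T w, w)) l w = m w)
    (hm : ∀ a : H6, a ≠ 0 → ∃ b : H6, dd m w0 a b ≠ 0) :
    ∀ a : H6, a ≠ 0 → ∃ b : H6, pb2 (fun w => c (T w, w)) om w0 a b ≠ 0 := by
  intro a ha
  obtain ⟨b, hb⟩ := hm a ha
  refine ⟨b, ?_⟩
  have ht : ∀ a : H6, IsTangent (FPS La) p (fderiv ℝ (fun w => c (T w, w)) w0 a) := by
    intro a
    have h1 := IsTangent.map (X := (Set.univ : Set H6)) (Y := FPS La) (W := V6) (z := w0) (a := a)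
      (F := fun w => c (T w, w)) hd.op hd.mem hd.smc (fun y hy => hd.fps y hy.2)
      ⟨fun t : ℝ => w0 + t • a, by simp, Filter.Eventually.of_forall fun _ => mem_univ _, by
        fun_prop, CA_line w0 a⟩
    have h2 : c (T w0, w0) = p := hd.val
    rw [h2] at h1
    exact h1
  have e1 : pb2 (fun w => c (T w, w)) om w0 a b = dd m w0 a b := by
    have h3 : dd (pb1 (fun w => c (T w, w)) l) w0 = dd m w0 :=
      dd_congr (Filter.eventually_of_mem (hd.op.mem_nhds hd.mem) hpb)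
    have hv : c (T w0, w0) = p := hd.val
    have h4 := dd_pb1 (f := fun w => c (T w, w)) (l := l) (z := w0) (CC_at hd.op hd.smc hd.mem)
      (by rw [hv]; exact hl)
    rw [← h3, h4, pb2_apply, pb2_apply, hv]
    exact hom _ _ (ht a) (ht b)
  rw [e1]
  exact hb

theorem SJ_T {La : ℝ} {V : Set H7} {c : H7 → FP} {p : FP} {T : H6 → ℝ} {V6 : Set H6} {w0 : H6}
    (hd : SJD La V c p T V6 w0) {w : H6} (hw : w ∈ V6) : DifferentiableAt ℝ T w :=
  CC_diff hd.op hd.smT hw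

theorem SJ_q0 {w : H6} (h : w.2.1 ≠ 0 ∨ w.2.2 ≠ 0) : 0 < qsq w.2.1 w.2.2 := by
  unfold qsq
  rcases h with h | h
  · have h1 := Complex.normSq_pos.2 h
    have h2 := Complex.normSq_nonneg w.2.2
    linarith
  · have h1 := Complex.normSq_pos.2 h
    have h2 := Complex.normSq_nonneg w.2.1
    linarith

theorem SJ_QN (P : FPar) (h : P.Ok1) {p : FP} (hp : p ∈ FPS P.La) (hq : fZe p ≠ 0 ∨ fZ p ≠ 0)
    {T : H6 → ℝ} {V6 : Set H6} {w0 : H6}
    (hd : SJD P.La {v : H7 | v.2.2.1 ≠ 0 ∨ v.2.2.2 ≠ 0} (cQ P.La) p T V6 w0) :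
    ∀ a : H6, a ≠ 0 → ∃ b : H6, pb2 (fun w => cQ P.La (T w, w)) P.omN0 w0 a b ≠ 0 := by
  have hv : w0.2.1 ≠ 0 ∨ w0.2.2 ≠ 0 := hd.inV w0 hd.mem
  have hr := SJ_q0 hv
  obtain ⟨g1, g2, g3⟩ := P.GM_props h _ hr
  have hka := P.ka_props h.Ta
  have hkr := P.kr_props h.Ta
  have hs := Complex.normSq_nonneg w0.1
  refine SJ_core hd (l := P.lN0) (m := lamQ P.GM P.ka P.kr 0 0)
    (CC_diff P.isOpen_Dq (P.smooth_lN0 h.toOk0) (P.Dq_of h.toOk0 hp hq)) (fun a b _ _ => rfl)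
    (fun w hw => P.pb_cQ_N h.toOk0 T w (hd.inV w hw) (SJ_T hd hw)) ?_
  refine lamQ_nondeg P.GM P.ka P.kr 0 0 w0 hv g1 hka.1 hkr.1 contDiffAt_const contDiffAt_const
    g2 g3 ?_
  have h1 := hkr.2.2.2 _ hs
  have h2 := hka.2.2.2.1 _ hs
  have h3 : 0 ≤ Complex.normSq w0.2.2 / qsq w0.2.1 w0.2.2 :=
    div_nonneg (Complex.normSq_nonneg _) hr.le
  have h4 : 0 ≤ 2 * (P.ka (Complex.normSq w0.1) +
      Complex.normSq w0.1 * deriv P.ka (Complex.normSq w0.1)) * P.GM (qsq w0.2.1 w0.2.2) *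
      (Complex.normSq w0.2.2 / qsq w0.2.1 w0.2.2) :=
    mul_nonneg (mul_nonneg (mul_nonneg zero_le_two h2) g2.le) h3
  have h5 : 2 * (0 : ℝ → ℝ) (qsq w0.2.1 w0.2.2) * ((0 : ℝ → ℝ) (Complex.normSq w0.1) +
      Complex.normSq w0.1 * deriv (0 : ℝ → ℝ) (Complex.normSq w0.1)) = 0 := by
    simp
  rw [h5, add_zero]
  exact (add_pos_of_pos_of_nonneg h1 h4).ne'

theorem SJ_QS (P : FPar) (h : P.Ok1) {p : FP} (hp : p ∈ FPS P.La) (hq : fZe p ≠ 0 ∨ fZ p ≠ 0)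
    {T : H6 → ℝ} {V6 : Set H6} {w0 : H6}
    (hd : SJD P.La {v : H7 | v.2.2.1 ≠ 0 ∨ v.2.2.2 ≠ 0} (cQ P.La) p T V6 w0) :
    ∀ a : H6, a ≠ 0 → ∃ b : H6, pb2 (fun w => cQ P.La (T w, w)) P.omS0 w0 a b ≠ 0 := by
  have hv : w0.2.1 ≠ 0 ∨ w0.2.2 ≠ 0 := hd.inV w0 hd.mem
  have hr := SJ_q0 hv
  obtain ⟨g1, g2, g3⟩ := P.GM_props h _ hr
  refine SJ_core hd (l := P.lS0) (m := lamQ P.GM 0 (fun _ => -1) 0 0)
    (CC_diff P.isOpen_Dq (P.smooth_lS0 h.toOk0) (P.Dq_of h.toOk0 hp hq)) (fun a b _ _ => rfl)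
    (fun w hw => P.pb_cQ_S h.toOk0 T w (hd.inV w hw) (SJ_T hd hw)) ?_
  refine lamQ_nondeg P.GM 0 (fun _ => -1) 0 0 w0 hv g1 contDiff_const contDiff_const
    contDiffAt_const contDiffAt_const g2 g3 ?_
  simp

/-! ### on `q = 0` -/

theorem SJ_Ab {p : FP} (h0 : fH0 p < 1) : DifferentiableAt ℝ Ab p := by
  have h1 : (1 : ℝ) + -1 * fH0 p ≠ 0 := by
    have : 0 < 1 - fH0 p := by linarith
    linarith
  have h2 := (SA2_fderiv (-1) (-1) p h1).differentiableAt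
  have h3 : DifferentiableAt ℝ (imF pH) p := ((contDiff_imF pH).differentiable (by simp)).differentiableAt
  have e : Ab = fun p => (-1 / (2 * (1 + -1 * fH0 p))) • imF pH p := by
    funext p
    show (-(1 / (2 * (1 - fH0 p)))) • imF pH p = (-1 / (2 * (1 + -1 * fH0 p))) • imF pH p
    congr 1
    rw [show (1 : ℝ) + -1 * fH0 p = 1 - fH0 p by ring, neg_div]
  rw [e]
  exact h2.smul h3

theorem SJ_Abe {p : FP} (h0 : -1 < fH0 p) : DifferentiableAt ℝ Abe p := by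
  have h1 : (1 : ℝ) + 1 * fH0 p ≠ 0 := by
    have : 0 < 1 + fH0 p := by linarith
    linarith
  have h2 := (SA2_fderiv 1 1 p h1).differentiableAt
  have h3 : DifferentiableAt ℝ (imF pH) p := ((contDiff_imF pH).differentiable (by simp)).differentiableAt
  have e : Abe = fun p => (1 / (2 * (1 + 1 * fH0 p))) • imF pH p := by
    funext p
    show (1 / (2 * (1 + fH0 p))) • imF pH p = (1 / (2 * (1 + 1 * fH0 p))) • imF pH p
    rw [one_mul]
  rw [e]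
  exact h2.smul h3

/-- The part without `A`. -/
theorem SJ_pN (P : FPar) (h : P.Ok0) (k1 k2 : ℝ) : ContDiff ℝ ∞ (fun p : FP =>
    k1 • P.q2N p + P.bN p + (k2 * ((1 - fH0 p) / 2)) • P.aN p) :=
  (((SD1_q2N P h).const_smul k1).add (SD1_bN P h)).add
      ((contDiff_const.mul ((contDiff_const.sub SD1_H0).div_const 2)).smul (SD1_aN P h))

theorem SJ_pS (k1 : ℝ) : ContDiff ℝ ∞ (fun p : FP => k1 • q2S p + bS p) :=
  (SD1_q2S.const_smul k1).add SD1_bS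

theorem SJ_cd {l : Form1 FP} (h : ContDiff ℝ ∞ l) (p : FP) : DifferentiableAt ℝ l p :=
  (h.differentiable (by simp)).differentiableAt

theorem SJ_dN (P : FPar) (h : P.Ok0) (k1 k2 : ℝ) {A : Form1 FP} {p : FP}
    (hA : DifferentiableAt ℝ A p) : DifferentiableAt ℝ (P.primN k1 k2 A) p :=
  (SJ_cd (SJ_pN P h k1 k2) p).add (hA.const_smul k2)

theorem SJ_dS (k1 k2 : ℝ) {A : Form1 FP} {p : FP}
    (hA : DifferentiableAt ℝ A p) : DifferentiableAt ℝ (primS k1 k2 A) p :=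
  (SJ_cd (SJ_pS k1) p).add (hA.const_smul k2)

theorem SJ_omN (P : FPar) (h : P.Ok0) (k1 k2 : ℝ) {A : Form1 FP} {p : FP}
    (hA : DifferentiableAt ℝ A p)
    (hAa : ∀ a b, IsTangent (FPS P.La) p a → IsTangent (FPS P.La) p b →
      dd A p a b = areaF p a b) (om : Form FP)
    (hom : om p = dd (fun p : FP =>
      k1 • P.q2N p + P.bN p + (k2 * ((1 - fH0 p) / 2)) • P.aN p) p + k2 • areaF p) :
    ∀ a b, IsTangent (FPS P.La) p a → IsTangent (FPS P.La) p b →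
      om p a b = dd (P.primN k1 k2 A) p a b := by
  intro a b ha hb
  have h1 : dd (P.primN k1 k2 A) p = dd (fun p : FP =>
      k1 • P.q2N p + P.bN p + (k2 * ((1 - fH0 p) / 2)) • P.aN p) p + k2 • dd A p := by
    rw [← dd_const_smul k2 hA]
    exact dd_add (SJ_cd (SJ_pN P h k1 k2) p) (hA.const_smul k2)
  rw [hom, h1]
  show _ + k2 * areaF p a b = _ + k2 * dd A p a b
  rw [hAa a b ha hb]

theorem SJ_omS {La : ℝ} (k1 k2 : ℝ) {A : Form1 FP} {p : FP}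
    (hA : DifferentiableAt ℝ A p)
    (hAa : ∀ a b, IsTangent (FPS La) p a → IsTangent (FPS La) p b →
      dd A p a b = areaF p a b) (om : Form FP)
    (hom : om p = dd (fun p : FP => k1 • q2S p + bS p) p + k2 • areaF p) :
    ∀ a b, IsTangent (FPS La) p a → IsTangent (FPS La) p b →
      om p a b = dd (primS k1 k2 A) p a b := by
  intro a b ha hb
  have h1 : dd (primS k1 k2 A) p = dd (fun p : FP => k1 • q2S p + bS p) p + k2 • dd A p := by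
    rw [← dd_const_smul k2 hA]
    exact dd_add (SJ_cd (SJ_pS k1) p) (hA.const_smul k2)
  rw [hom, h1]
  show _ + k2 * areaF p a b = _ + k2 * dd A p a b
  rw [hAa a b ha hb]

theorem SJ_ka0 (P : FPar) (h : P.Ok0) (k2 : ℝ) (hk2 : 0 < k2) (s y : ℝ) (hs : 0 ≤ s)
    (hy : 0 ≤ y) : (P.kr s + s * deriv P.kr s) + 2 * k2 * (P.ka s + s * deriv P.ka s) * y ≠ 0 := by
  have h1 := (P.kr_props h.Ta).2.2.2 _ hs
  have h2 := (P.ka_props h.Ta).2.2.2.1 _ hs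
  have h3 : 0 ≤ 2 * k2 * (P.ka s + s * deriv P.ka s) * y :=
    mul_nonneg (mul_nonneg (by linarith) h2) hy
  exact (add_pos_of_pos_of_nonneg h1 h3).ne'

theorem SJ_muN (P : FPar) (h : P.Ok0) (k1 : ℝ) : ContDiff ℝ ∞ (fun v : H6 =>
    (k1 / 2) • (imF hA v + P.ka (Complex.normSq v.1) • imF hU v)) := by
  have hk := (P.ka_props h.Ta).1
  have h1 : ContDiff ℝ ∞ (fun v : H6 => Complex.normSq v.1) := SD1_normSq.comp contDiff_fst
  exact ((contDiff_imF hA).add ((hk.comp h1).smul (contDiff_imF hU))).const_smul (k1 / 2)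

theorem SJ_muN' (P : FPar) (h : P.Ok0) (k1 : ℝ) : ContDiff ℝ ∞ (fun v : H6 =>
    (k1 / 2) • (imF hA v + (Complex.normSq v.2.1 * P.ka (Complex.normSq v.1)) • imF hU v)) := by
  have hk := (P.ka_props h.Ta).1
  have h1 : ContDiff ℝ ∞ (fun v : H6 => Complex.normSq v.1) := SD1_normSq.comp contDiff_fst
  have h2 : ContDiff ℝ ∞ (fun v : H6 => Complex.normSq v.2.1) :=
    SD1_normSq.comp (contDiff_fst.comp contDiff_snd)
  exact ((contDiff_imF hA).add ((h2.mul (hk.comp h1)).smul (contDiff_imF hU))).const_smul (k1 / 2)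

theorem SJ_muS (k1 : ℝ) : ContDiff ℝ ∞ (fun v : H6 => (k1 / 2) • imF hA v) :=
  (contDiff_imF hA).const_smul (k1 / 2)

/-- The chart at a point with `q = 0`. -/
theorem SJ_sg {La : ℝ} (hLa : 0 < La) {p : FP} (hp : p ∈ FPS La)
    (hq : fZe p = 0 ∧ fZ p = 0) : ∃ sg : ℝ, (sg = 1 ∨ sg = -1) ∧ 0 < sg * fS p := by
  obtain ⟨_, _, _, h4⟩ := hp
  rw [hq.1, hq.2, map_zero, zero_add, zero_add] at h4
  rcases sq_eq_sq_iff_eq_or_eq_neg.1 h4 with h3 | h3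
  · exact ⟨1, Or.inl rfl, by rw [h3]; linarith⟩
  · exact ⟨-1, Or.inr rfl, by rw [h3]; linarith⟩

theorem SJ_zN (P : FPar) (h : P.Ok1) {X : Set EA} {W : Set FP} {τ : FP → ℝ}
    (hX : GraphN P.La X W τ) {z : EA} (hz : z ∈ X) (h1 : -1 < eW1 z) (hW : rhoN z ∈ W)
    (hq : fZe (rhoN z) = 0 ∧ fZ (rhoN z) = 0) (k1 k2 : ℝ) (hk1 : k1 ≠ 0) (hk2 : 0 < k2)
    (om : Form FP)
    (hom : ∀ p, om p = dd (fun p : FP =>
      k1 • P.q2N p + P.bN p + (k2 * ((1 - fH0 p) / 2)) • P.aN p) p + k2 • areaF p) :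
    NonDegAt X (pb2 rhoN om) z := by
  have hLa : 0 < P.La := by linarith [h.La]
  have hp := (rhoN_mem (hX.1 hz) h1).1
  obtain ⟨sg, hsg, hsp⟩ := SJ_sg hLa hp hq
  have hbd := (FPS_bounds hLa hp).2.2
  rcases lt_or_ge (fH0 (rhoN z)) 1 with h0 | h0
  · have hUz : rhoN z ∈ {p : FP | fH0 p < 1 ∧ 0 < sg * fS p} := ⟨h0, hsp⟩
    refine SJ_N hX hz h1 hW (tchart_B P.La hLa sg hsg) hUz om ?_
    intro T V6 w0 hd
    have hin : ∀ w ∈ V6, Complex.normSq w.2.2 * (1 + Complex.normSq w.2.1) < P.La ^ 2 :=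
      fun w hw => hd.inV w hw
    refine SJ_core hd (l := P.primN k1 k2 Ab) (m := lamB k1 k2 P.ka P.kr
        (fun v => (k1 / 2) • (imF hA v + P.ka (Complex.normSq v.1) • imF hU v)))
      (SJ_dN P h.toOk0 k1 k2 (SJ_Ab h0))
      (SJ_omN P h.toOk0 k1 k2 (SJ_Ab h0) (fun a b ha hb => dd_Ab hp h0 ha hb) om (hom _))
      (fun w hw => P.pb_cB_N h.toOk0 sg k1 k2 T w (hin w hw) (SJ_T hd hw)) ?_
    have hv : w0.2.2 = 0 := by
      have e1 : fZ (cB P.La sg (T w0, w0)) = fZ (rhoN z) := by rw [hd.val]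
      rw [hq.2] at e1
      exact e1
    refine lamB_nondeg k1 k2 P.ka P.kr _ hk1 hk2.ne' (P.ka_props h.Ta).1 (P.kr_props h.Ta).1 w0
      (SJ_muN P h.toOk0 k1).contDiffAt hv ?_
    have h5 := SJ_ka0 P h.toOk0 k2 hk2 (Complex.normSq w0.1) (1 + Complex.normSq w0.2.1)⁻¹
      (Complex.normSq_nonneg _) (by have := Complex.normSq_nonneg w0.2.1; positivity)
    rw [div_eq_mul_inv]
    exact h5
  · have h0' : -1 < fH0 (rhoN z) := by linarith
    have hUz : rhoN z ∈ {p : FP | -1 < fH0 p ∧ 0 < sg * fS p} := ⟨h0', hsp⟩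
    refine SJ_N hX hz h1 hW (tchart_A P.La hLa sg hsg) hUz om ?_
    intro T V6 w0 hd
    have hin : ∀ w ∈ V6, Complex.normSq w.2.2 * (1 + Complex.normSq w.2.1) < P.La ^ 2 :=
      fun w hw => hd.inV w hw
    refine SJ_core hd (l := P.primN k1 k2 Abe) (m := lamA k1 k2 P.ka P.kr
        (fun v => (k1 / 2) •
          (imF hA v + (Complex.normSq v.2.1 * P.ka (Complex.normSq v.1)) • imF hU v)))
      (SJ_dN P h.toOk0 k1 k2 (SJ_Abe h0'))
      (SJ_omN P h.toOk0 k1 k2 (SJ_Abe h0') (fun a b ha hb => dd_Abe hp h0' ha hb) om (hom _))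
      (fun w hw => P.pb_cA_N h.toOk0 sg k1 k2 T w (hin w hw) (SJ_T hd hw)) ?_
    have hv : w0.2.2 = 0 := by
      have e1 : fZe (cA P.La sg (T w0, w0)) = fZe (rhoN z) := by rw [hd.val]
      rw [hq.1] at e1
      exact e1
    refine lamA_nondeg k1 k2 P.ka P.kr _ hk1 hk2.ne' (P.ka_props h.Ta).1 (P.kr_props h.Ta).1 w0
      (SJ_muN' P h.toOk0 k1).contDiffAt hv ?_
    have h5 := SJ_ka0 P h.toOk0 k2 hk2 (Complex.normSq w0.1)
      (Complex.normSq w0.2.1 * (1 + Complex.normSq w0.2.1)⁻¹)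
      (Complex.normSq_nonneg _) (by have := Complex.normSq_nonneg w0.2.1; positivity)
    rw [div_eq_mul_inv, mul_assoc (2 * k2 * _)]
    exact h5

theorem SJ_zS (P : FPar) (h : P.Ok1) {X : Set EA} {W : Set FP} {τ : FP → ℝ}
    (hX : GraphS P.La X W τ) {z : EA} (hz : z ∈ X) (h1 : eW1 z < 1) (hW : rhoS z ∈ W)
    (hq : fZe (rhoS z) = 0 ∧ fZ (rhoS z) = 0) (k1 k2 : ℝ) (hk1 : k1 ≠ 0) (hk2 : 0 < k2)
    (om : Form FP)
    (hom : ∀ p, om p = dd (fun p : FP => k1 • q2S p + bS p) p + k2 • areaF p) :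
    NonDegAt X (pb2 rhoS om) z := by
  have hLa : 0 < P.La := by linarith [h.La]
  have hp := (rhoS_mem (hX.1 hz) h1).1
  obtain ⟨sg, hsg, hsp⟩ := SJ_sg hLa hp hq
  rcases lt_or_ge (fH0 (rhoS z)) 1 with h0 | h0
  · have hUz : rhoS z ∈ {p : FP | fH0 p < 1 ∧ 0 < sg * fS p} := ⟨h0, hsp⟩
    refine SJ_S hX hz h1 hW (tchart_B P.La hLa sg hsg) hUz om ?_
    intro T V6 w0 hd
    have hin : ∀ w ∈ V6, Complex.normSq w.2.2 * (1 + Complex.normSq w.2.1) < P.La ^ 2 :=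
      fun w hw => hd.inV w hw
    refine SJ_core hd (l := primS k1 k2 Ab) (m := lamB k1 k2 0 (fun _ => -1)
        (fun v => (k1 / 2) • imF hA v))
      (SJ_dS k1 k2 (SJ_Ab h0))
      (SJ_omS k1 k2 (SJ_Ab h0) (fun a b ha hb => dd_Ab hp h0 ha hb) om (hom _))
      (fun w hw => P.pb_cB_S h.toOk0 sg k1 k2 T w (hin w hw) (SJ_T hd hw)) ?_
    have hv : w0.2.2 = 0 := by
      have e1 : fZ (cB P.La sg (T w0, w0)) = fZ (rhoS z) := by rw [hd.val]
      rw [hq.2] at e1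
      exact e1
    refine lamB_nondeg k1 k2 0 (fun _ => -1) _ hk1 hk2.ne' contDiff_const contDiff_const w0
      (SJ_muS k1).contDiffAt hv ?_
    simp
  · have h0' : -1 < fH0 (rhoS z) := by linarith
    have hUz : rhoS z ∈ {p : FP | -1 < fH0 p ∧ 0 < sg * fS p} := ⟨h0', hsp⟩
    refine SJ_S hX hz h1 hW (tchart_A P.La hLa sg hsg) hUz om ?_
    intro T V6 w0 hd
    have hin : ∀ w ∈ V6, Complex.normSq w.2.2 * (1 + Complex.normSq w.2.1) < P.La ^ 2 :=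
      fun w hw => hd.inV w hw
    refine SJ_core hd (l := primS k1 k2 Abe) (m := lamA k1 k2 0 (fun _ => -1)
        (fun v => (k1 / 2) • imF hA v))
      (SJ_dS k1 k2 (SJ_Abe h0'))
      (SJ_omS k1 k2 (SJ_Abe h0') (fun a b ha hb => dd_Abe hp h0' ha hb) om (hom _))
      (fun w hw => P.pb_cA_S h.toOk0 sg k1 k2 T w (hin w hw) (SJ_T hd hw)) ?_
    have hv : w0.2.2 = 0 := by
      have e1 : fZe (cA P.La sg (T w0, w0)) = fZe (rhoS z) := by rw [hd.val]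
      rw [hq.1] at e1
      exact e1
    refine lamA_nondeg k1 k2 0 (fun _ => -1) _ hk1 hk2.ne' contDiff_const contDiff_const w0
      (SJ_muS k1).contDiffAt hv ?_
    simp

theorem nd_N0 (P : FPar) (h : P.Ok1) {X : Set EA} {W : Set FP} {τ : FP → ℝ}
    (hX : GraphN P.La X W τ) {z : EA} (hz : z ∈ X) (h1 : -1 < eW1 z) (hW : rhoN z ∈ W)
    (hq : fZe (rhoN z) ≠ 0 ∨ fZ (rhoN z) ≠ 0) : NonDegAt X (pb2 rhoN P.omN0) z := by
  have hLa : 0 < P.La := by linarith [h.La]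
  have hp := (rhoN_mem (hX.1 hz) h1).1
  have hU : rhoN z ∈ {p : FP | (fZe p ≠ 0 ∨ fZ p ≠ 0) ∧ fS p < P.La} := by
    rcases FPS_cases hLa hp with h2 | h2
    · exact h2
    · rcases hq with h3 | h3
      · exact absurd h2.1 h3
      · exact absurd h2.2.1 h3
  exact SJ_N hX hz h1 hW (tchart_Q P.La hLa) hU P.omN0 fun T V6 w0 hd => SJ_QN P h hp hq hd

theorem nd_Nm (P : FPar) (h : P.Ok1) {X : Set EA} {W : Set FP} {τ : FP → ℝ}
    (hX : GraphN P.La X W τ) {z : EA} (hz : z ∈ X) (h1 : -1 < eW1 z) (hW : rhoN z ∈ W)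
    (hq : fZe (rhoN z) = 0 ∧ fZ (rhoN z) = 0) : NonDegAt X (pb2 rhoN P.omNm) z := by
  refine SJ_zN P h hX hz h1 hW hq 1 P.eps one_ne_zero h.eps P.omNm fun p => ?_
  simp only [one_smul]
  rfl

theorem nd_Np (P : FPar) (h : P.Ok1) {X : Set EA} {W : Set FP} {τ : FP → ℝ}
    (hX : GraphN P.La X W τ) {z : EA} (hz : z ∈ X) (h1 : -1 < eW1 z) (hW : rhoN z ∈ W)
    (hq : fZe (rhoN z) = 0 ∧ fZ (rhoN z) = 0) : NonDegAt X (pb2 rhoN P.omNp) z := by
  refine SJ_zN P h hX hz h1 hW hq (-1) (P.La ^ 2 + 1) (by norm_num) (by positivity) P.omNp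
    fun p => ?_
  have e : (fun p : FP => (-1 : ℝ) • P.q2N p + P.bN p +
      ((P.La ^ 2 + 1) * ((1 - fH0 p) / 2)) • P.aN p) = fun p : FP => -P.q2N p + P.bN p +
      ((P.La ^ 2 + 1) * ((1 - fH0 p) / 2)) • P.aN p := by
    funext p
    refine ContinuousLinearMap.ext fun a => ?_
    show (-1 : ℝ) * P.q2N p a + P.bN p a + ((P.La ^ 2 + 1) * ((1 - fH0 p) / 2)) * P.aN p a =
      -P.q2N p a + P.bN p a + ((P.La ^ 2 + 1) * ((1 - fH0 p) / 2)) * P.aN p a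
    ring
  rw [e]
  rfl

theorem nd_S0 (P : FPar) (h : P.Ok1) {X : Set EA} {W : Set FP} {τ : FP → ℝ}
    (hX : GraphS P.La X W τ) {z : EA} (hz : z ∈ X) (h1 : eW1 z < 1) (hW : rhoS z ∈ W)
    (hq : fZe (rhoS z) ≠ 0 ∨ fZ (rhoS z) ≠ 0) : NonDegAt X (pb2 rhoS P.omS0) z := by
  have hLa : 0 < P.La := by linarith [h.La]
  have hp := (rhoS_mem (hX.1 hz) h1).1
  have hU : rhoS z ∈ {p : FP | (fZe p ≠ 0 ∨ fZ p ≠ 0) ∧ fS p < P.La} := by
    rcases FPS_cases hLa hp with h2 | h2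
    · exact h2
    · rcases hq with h3 | h3
      · exact absurd h2.1 h3
      · exact absurd h2.2.1 h3
  exact SJ_S hX hz h1 hW (tchart_Q P.La hLa) hU P.omS0 fun T V6 w0 hd => SJ_QS P h hp hq hd

theorem nd_Sm (P : FPar) (h : P.Ok1) {X : Set EA} {W : Set FP} {τ : FP → ℝ}
    (hX : GraphS P.La X W τ) {z : EA} (hz : z ∈ X) (h1 : eW1 z < 1) (hW : rhoS z ∈ W)
    (hq : fZe (rhoS z) = 0 ∧ fZ (rhoS z) = 0) : NonDegAt X (pb2 rhoS P.omSm) z := by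
  refine SJ_zS P h hX hz h1 hW hq 1 P.eps one_ne_zero h.eps P.omSm fun p => ?_
  simp only [one_smul]
  rfl

theorem nd_Sp (P : FPar) (h : P.Ok1) {X : Set EA} {W : Set FP} {τ : FP → ℝ}
    (hX : GraphS P.La X W τ) {z : EA} (hz : z ∈ X) (h1 : eW1 z < 1) (hW : rhoS z ∈ W)
    (hq : fZe (rhoS z) = 0 ∧ fZ (rhoS z) = 0) : NonDegAt X (pb2 rhoS P.omSp) z := by
  refine SJ_zS P h hX hz h1 hW hq (-1) (P.La ^ 2 + 1) (by norm_num) (by positivity) P.omSp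
    fun p => ?_
  have e : (fun p : FP => (-1 : ℝ) • q2S p + bS p) = fun p : FP => -q2S p + bS p := by
    funext p
    refine ContinuousLinearMap.ext fun a => ?_
    show (-1 : ℝ) * q2S p a + bS p a = -q2S p a + bS p a
    ring
  rw [e]
  rfl

end FPar

end Pool.Agent.H34.SY
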