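import Pool.Agent.H34.SY.Forms
import Pool.Agent.H34.SY.SI
import Pool.Agent.H34.SY.SX
import Pool.Agent.H34.SY.SJ

/-!
# Row MA: the manifold `M'` outside the core is a graph

`P.M' = {z ∈ WS La | FD 1 z = 0}`.  `B = hd.B`, `|x|² = t² + |u|²`.  Definitions: `tauN`, `tauS` below do not involve `t`.

(1) `mem_N`: side `N` (`-1 < w₁`), `p = rhoN z`.  `FD` is `FN` there by definition; if `s < 0`: `FNm`, else `t = Re ζ`.
(2) `FNm_far`: if `B² ≤ |u|²` then `c(x) = t` (`c_far`), so `FNm = t - y₀`, where `y₀ = (qgbar ζ z (mixq l g)).1`,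
  `l = lamb(|q|²)`, `g = (0, 0, Re w, Im w)`, `w = u/|u|` (`g_far`), so `nsq4 (mixq l g) = (1-l)² + l²`,
  `gC = 1 - l`, `gJ = l conj w`, `y₀ = ((1-l) Re ζ + l Re (conj z conj w))/n`.
(3) `FNm_big`: if `Q² + 1 ≤ |q|²` then `chi_q = 0`, `lamb = 0` (`rb < 1`), so `FNm = t - Re ζ`.
(4) `M'` near `w₁ = -1`: on the overlap, `|u_S|² ≤ 1/B²` means `|u_N|² ≥ B²`, and `FS 1 (rhoS z) = FN 1 (rhoN z)` by (2) since
  `z_S = z_N w`: `Re (conj z_N conj w) = Re (conj (z_S)) = Re z_S`; at `w₁ = -1` `FD` is `FS` by definition.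
(5) smoothness of `tauN` on `{B² < |u|²} ∩ {s ≠ 0 ∨ 1 < |q|²}`: for `s < 0` smooth formula; for `s > 0` it is `Re ζ`; where
  `1 < |q|²` both are `Re ζ` (`rb < 1`).  On `WS La` the second condition always holds (`s = 0 ⇒ |q|² = La²`).
(6) `graph_mid`: for `-3La/4 < s`: either `s < 0` and `|q|² = La² - s² ≥ 7La²/16 ≥ Q² + 1`, or `s ≥ 0`: in both cases
  `M'` is `t = Re ζ`.
-/

open Set Topology
open scoped ContDiff ComplexConjugate

namespace Pool.Agent.H34.SY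

noncomputable section

namespace FPar

/-- All conditions on the parameters used for `M'`. -/
structure Ok2 (P : FPar) : Prop extends P.Ok1 where
  T : 1 ≤ P.T
  rb0 : 0 < P.rb
  rb1 : P.rb < 1
  r0rb : P.r0 ≤ P.rb / 2
  T2 : 0 < P.T2
  slope1 : ∀ x, ∀ s, 0 ≤ s → 4 * (deriv P.psi2 s) ^ 2 * s * nsq3 (P.hd.ga x) < 1
  slope2 : ∀ s, 0 ≤ s →
    4 * (deriv (cut (P.hd.B ^ 2) P.Ta) s) ^ 2 * s * (P.hd.B ^ 2 + P.T2 + 2) < 1
  La2 : 4 * (P.Q ^ 2 + P.hd.B ^ 2 + P.T2 + 4) ≤ P.La ^ 2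

/-- `(1-l) Re ζ + l Re (z̄ w̄)`, normalised, for `s < 0` and `B² < |u|²`, else `Re ζ`. -/
def tauN (P : FPar) (p : FP) : ℝ :=
  if fS p < 0 ∧ P.hd.B ^ 2 < Complex.normSq (fU p) then
    ((1 - P.toPar.lamb (qsq (fZe p) (fZ p))) * (fZe p).re
      + P.toPar.lamb (qsq (fZe p) (fZ p)) * (conj (fZ p) * conj (fU p)).re / ‖fU p‖)
      / Real.sqrt ((1 - P.toPar.lamb (qsq (fZe p) (fZ p))) ^ 2
        + P.toPar.lamb (qsq (fZe p) (fZ p)) ^ 2)
  else (fZe p).re

def tauS (P : FPar) (p : FP) : ℝ :=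
  if fS p < 0 then
    ((1 - P.toPar.lamb (qsq (fZe p) (fZ p))) * (fZe p).re
      + P.toPar.lamb (qsq (fZe p) (fZ p)) * (fZ p).re)
      / Real.sqrt ((1 - P.toPar.lamb (qsq (fZe p) (fZ p))) ^ 2
        + P.toPar.lamb (qsq (fZe p) (fZ p)) ^ 2)
  else (fZe p).re

theorem mem_N (P : FPar) {z : EA} (hz : z ∈ WS P.La) (h1 : -1 < eW1 z) :
    (fS (rhoN z) < 0 → (z ∈ P.toPar.M' ↔ P.toPar.FNm 1 (fT (rhoN z)) (fU (rhoN z)) (fZe (rhoN z))
      (fZ (rhoN z)) = 0)) ∧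
    (0 ≤ fS (rhoN z) → (z ∈ P.toPar.M' ↔ fT (rhoN z) = (fZe (rhoN z)).re)) := by
  have e : P.toPar.FD 1 z = P.toPar.FN 1 (rhoN z) := by
    unfold Par.FD
    rw [if_pos h1]
  constructor
  · intro hs
    show (z ∈ WS P.toPar.La ∧ P.toPar.FD 1 z = 0) ↔ _
    rw [e]
    unfold Par.FN
    rw [if_pos hs]
    exact and_iff_right hz
  · intro hs
    show (z ∈ WS P.toPar.La ∧ P.toPar.FD 1 z = 0) ↔ _
    rw [e]
    unfold Par.FN
    rw [if_neg (not_lt.2 hs)]
    exact ⟨fun h => sub_eq_zero.1 h.2, fun h => ⟨hz, sub_eq_zero.2 h⟩⟩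

/-- `λ_b` is smooth with values in `[0, 1]`. -/
theorem MA_lamb_cd (P : Par) : ContDiff ℝ ∞ P.lamb := by
  have h : ContDiff ℝ ∞ (fun s : ℝ => s / P.rb ^ 2) := contDiff_id.div_const _
  exact (SB_cut_smooth (1 / 4) (3 / 4)).comp h

theorem MA_lamb_bd (P : Par) (r : ℝ) : 0 ≤ P.lamb r ∧ P.lamb r ≤ 1 :=
  (cut_props (1 / 4) (3 / 4) (by norm_num)).2.2.2.1 _

theorem MA_lamb_zero (P : Par) (h : 0 < P.rb) {r : ℝ} (hr : P.rb ^ 2 ≤ r) : P.lamb r = 0 := by
  unfold Par.lamb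
  refine (cut_props (1 / 4) (3 / 4) (by norm_num)).2.2.1 _ ?_
  rw [le_div_iff₀ (by positivity)]
  linarith

theorem MA_norm (u : ℂ) : Real.sqrt (u.re ^ 2 + u.im ^ 2) = ‖u‖ := by
  rw [Complex.norm_def, Complex.normSq_apply]
  congr 1
  ring

theorem FNm_far (P : FPar) (t : ℝ) (u ze z : ℂ) (hu : P.hd.B ^ 2 ≤ Complex.normSq u) :
    P.toPar.yy 1 t u ze z =
      (((1 - P.toPar.lamb (qsq ze z)) * ze.re
          + P.toPar.lamb (qsq ze z) * (conj z * conj u).re / ‖u‖)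
          / Real.sqrt ((1 - P.toPar.lamb (qsq ze z)) ^ 2 + P.toPar.lamb (qsq ze z) ^ 2),
        ((1 - P.toPar.lamb (qsq ze z)) * ze.im
          + P.toPar.lamb (qsq ze z) * (conj z * conj u).im / ‖u‖)
          / Real.sqrt ((1 - P.toPar.lamb (qsq ze z)) ^ 2 + P.toPar.lamb (qsq ze z) ^ 2),
        ((1 - P.toPar.lamb (qsq ze z)) * z.re
          - P.toPar.lamb (qsq ze z) * (conj ze * conj u).re / ‖u‖)
          / Real.sqrt ((1 - P.toPar.lamb (qsq ze z)) ^ 2 + P.toPar.lamb (qsq ze z) ^ 2),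
        -((1 - P.toPar.lamb (qsq ze z)) * z.im
          - P.toPar.lamb (qsq ze z) * (conj ze * conj u).im / ‖u‖)
          / Real.sqrt ((1 - P.toPar.lamb (qsq ze z)) ^ 2 + P.toPar.lamb (qsq ze z) ^ 2)) ∧
    P.toPar.FNm 1 t u ze z = t - (P.toPar.yy 1 t u ze z).1 := by
  have hB : 1 < P.hd.B := lt_of_le_of_lt P.hd.hL P.hd.hLB
  have hn0 : 0 < Complex.normSq u := by nlinarith
  have hu0 : u ≠ 0 := Complex.normSq_pos.1 hn0
  have hnu : ‖u‖ ≠ 0 := norm_ne_zero_iff.2 hu0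
  have hns : u.re ^ 2 + u.im ^ 2 = Complex.normSq u := by
    rw [Complex.normSq_apply]
    ring
  have hnn : ‖u‖ ^ 2 = u.re ^ 2 + u.im ^ 2 := by
    rw [hns, Complex.normSq_eq_norm_sq]
  constructor
  · have hg := P.hd.g_far (xpt t u) (by
      show P.hd.B ^ 2 ≤ u.re ^ 2 + u.im ^ 2
      rw [hns]
      exact hu)
    have hg' : P.hd.g (xpt t u) = (0, 0, u.re / ‖u‖, u.im / ‖u‖) := by
      rw [hg]
      show ((0 : ℝ), (0 : ℝ), u.re / Real.sqrt (u.re ^ 2 + u.im ^ 2),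
        u.im / Real.sqrt (u.re ^ 2 + u.im ^ 2)) = _
      rw [MA_norm]
    unfold Par.yy
    rw [hg', one_mul]
    generalize P.toPar.lamb (qsq ze z) = l
    have hn4 : nsq4 (mixq l (0, 0, u.re / ‖u‖, u.im / ‖u‖)) = (1 - l) ^ 2 + l ^ 2 := by
      simp only [nsq4, mixq]
      field_simp
      rw [hnn]
      ring
    unfold qgbar
    rw [hn4]
    simp only [mixq, mul_zero, add_zero]
    refine Prod.ext ?_ (Prod.ext ?_ (Prod.ext ?_ ?_))
    · simp only [Complex.add_re, Complex.mul_re, Complex.conj_re, Complex.conj_im]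
      congr 1
      field_simp
      ring
    · simp only [Complex.add_im, Complex.mul_im, Complex.conj_re, Complex.conj_im]
      congr 1
      field_simp
      ring
    · simp only [Complex.sub_re, Complex.mul_re, Complex.conj_re, Complex.conj_im]
      congr 1
      field_simp
      ring
    · simp only [Complex.sub_im, Complex.mul_im, Complex.conj_re, Complex.conj_im]
      congr 1
      field_simp
      ring
  · unfold Par.FNm
    have hc : P.hd.c (xpt t u) = t := P.hd.c_far (xpt t u) (by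
      show P.hd.B ^ 2 ≤ t ^ 2 + u.re ^ 2 + u.im ^ 2
      nlinarith)
    simp only [hc, sub_self, mul_zero, add_zero]

theorem yy_big (P : FPar) (hrb : 0 < P.rb) (τ t : ℝ) (u ze z : ℂ) (h : P.rb ^ 2 ≤ qsq ze z) :
    P.toPar.yy τ t u ze z = (ze.re, ze.im, z.re, -z.im) := by
  unfold Par.yy
  rw [MA_lamb_zero P.toPar hrb h, mul_zero]
  unfold qgbar mixq nsq4
  simp

/-- The norm of `q ḡ`. -/
theorem yy_norm (P : FPar) (τ t : ℝ) (u ze z : ℂ)
    (h : mixq (τ * P.toPar.lamb (qsq ze z)) (P.hd.g (xpt t u)) ≠ 0) :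
    nsq4 (P.toPar.yy τ t u ze z) = qsq ze z := by
  unfold Par.yy
  revert h
  generalize mixq (τ * P.toPar.lamb (qsq ze z)) (P.hd.g (xpt t u)) = g
  intro h
  obtain ⟨g0, g1, g2, g3⟩ := g
  have hpos : 0 < nsq4 (g0, g1, g2, g3) := by
    unfold nsq4
    by_contra hc
    push Not at hc
    have q0 := sq_nonneg g0
    have q1 := sq_nonneg g1
    have q2 := sq_nonneg g2
    have q3 := sq_nonneg g3
    simp only at hc
    have z0 : g0 = 0 := by
      have : g0 ^ 2 = 0 := by linarith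
      simpa using this
    have z1 : g1 = 0 := by
      have : g1 ^ 2 = 0 := by linarith
      simpa using this
    have z2 : g2 = 0 := by
      have : g2 ^ 2 = 0 := by linarith
      simpa using this
    have z3 : g3 = 0 := by
      have : g3 ^ 2 = 0 := by linarith
      simpa using this
    apply h
    rw [z0, z1, z2, z3]
    rfl
  unfold qgbar
  set n := Real.sqrt (nsq4 (g0, g1, g2, g3)) with hn
  have hn0 : n ≠ 0 := (Real.sqrt_pos.2 hpos).ne'
  have hn2 : n ^ 2 = g0 ^ 2 + g1 ^ 2 + g2 ^ 2 + g3 ^ 2 := Real.sq_sqrt hpos.le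
  simp only [nsq4, qsq, Complex.add_re, Complex.add_im, Complex.sub_re, Complex.sub_im,
    Complex.mul_re, Complex.mul_im, Complex.conj_re, Complex.conj_im, Complex.normSq_apply]
  simp only [div_pow]
  rw [← add_div, ← add_div, ← add_div, div_eq_iff (pow_ne_zero 2 hn0), hn2]
  ring

/-- The interpolated quaternion never vanishes (`g ≠ -1`). -/
theorem mixq_ne (P : FPar) {τ : ℝ} (h0 : 0 ≤ τ) (h1 : τ ≤ 1) (r : ℝ) (x : V3) :
    mixq (τ * P.toPar.lamb r) (P.hd.g x) ≠ 0 := by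
  obtain ⟨l0, l1⟩ := MA_lamb_bd P.toPar r
  have hl0 : 0 ≤ τ * P.toPar.lamb r := mul_nonneg h0 l0
  have hl1 : τ * P.toPar.lamb r ≤ 1 := mul_le_one₀ h1 l0 l1
  have hu := P.hd.g_unit x
  have hne := P.hd.g_ne x
  revert hu hne hl0 hl1
  generalize τ * P.toPar.lamb r = l
  generalize P.hd.g x = g
  intro hl0 hl1 hu hne h
  obtain ⟨g0, g1, g2, g3⟩ := g
  simp only [nsq4] at hu
  have e0 : 1 - l + l * g0 = 0 := congrArg (fun v : V4 => v.1) h
  have e1 : l * g1 = 0 := congrArg (fun v : V4 => v.2.1) h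
  have e2 : l * g2 = 0 := congrArg (fun v : V4 => v.2.2.1) h
  have e3 : l * g3 = 0 := congrArg (fun v : V4 => v.2.2.2) h
  have hl : l ≠ 0 := by
    rintro rfl
    simp at e0
  have z1 : g1 = 0 := (mul_eq_zero.1 e1).resolve_left hl
  have z2 : g2 = 0 := (mul_eq_zero.1 e2).resolve_left hl
  have z3 : g3 = 0 := (mul_eq_zero.1 e3).resolve_left hl
  subst z1 z2 z3
  have h4 : (g0 - 1) * (g0 + 1) = 0 := by nlinarith
  rcases mul_eq_zero.1 h4 with h5 | h5
  · have h6 : g0 = 1 := by linarith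
    rw [h6] at e0
    linarith
  · apply hne
    have h6 : g0 = -1 := by linarith
    rw [h6]

theorem FNm_big (P : FPar) (h : P.Ok2) (t : ℝ) (u ze z : ℂ) (hq : P.Q ^ 2 + 1 ≤ qsq ze z) :
    P.toPar.FNm 1 t u ze z = t - ze.re := by
  have hrb := h.rb0
  have hrb1 := h.rb1
  have hy := P.yy_big hrb 1 t u ze z (by nlinarith [sq_nonneg P.Q])
  have hc : P.toPar.chiq (qsq ze z) = 0 :=
    (cut_props (P.Q ^ 2) 1 one_pos).2.2.1 _ hq
  unfold Par.FNm
  simp only [hy, hc, mul_zero, zero_mul, add_zero]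

/-- The smooth formula. -/
theorem MA_formula (P : FPar) (h : P.Ok2) {l : ℝ → ℝ} (a b : ℝ) (hl : l = P.toPar.lamb)
    {ze z : ℂ} (hq : P.rb ^ 2 ≤ qsq ze z) :
    ((1 - l (qsq ze z)) * a + l (qsq ze z) * b) / Real.sqrt ((1 - l (qsq ze z)) ^ 2
      + l (qsq ze z) ^ 2) = a := by
  rw [hl, MA_lamb_zero P.toPar h.rb0 hq]
  simp

theorem MA_cdU : ContDiff ℝ ∞ fU := pU.contDiff
theorem MA_cdZe : ContDiff ℝ ∞ fZe := pZe.contDiff
theorem MA_cdZ : ContDiff ℝ ∞ fZ := pZ.contDiff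
theorem MA_cdS : ContDiff ℝ ∞ fS := pS.contDiff

theorem MA_cdq : ContDiff ℝ ∞ (fun p : FP => qsq (fZe p) (fZ p)) :=
  (contDiff_normSq.comp MA_cdZe).add (contDiff_normSq.comp MA_cdZ)

theorem MA_cdl (P : FPar) : ContDiff ℝ ∞ (fun p : FP => P.toPar.lamb (qsq (fZe p) (fZ p))) :=
  (MA_lamb_cd P.toPar).comp MA_cdq

theorem MA_cdsq (P : FPar) : ContDiff ℝ ∞ (fun p : FP =>
    Real.sqrt ((1 - P.toPar.lamb (qsq (fZe p) (fZ p))) ^ 2
      + P.toPar.lamb (qsq (fZe p) (fZ p)) ^ 2)) := by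
  refine ContDiff.sqrt (((contDiff_const.sub P.MA_cdl).pow 2).add (P.MA_cdl.pow 2)) fun p => ?_
  generalize P.toPar.lamb (qsq (fZe p) (fZ p)) = l
  nlinarith [sq_nonneg (1 - 2 * l)]

theorem MA_sq_ne (l : ℝ) : Real.sqrt ((1 - l) ^ 2 + l ^ 2) ≠ 0 :=
  (Real.sqrt_pos.2 (by nlinarith [sq_nonneg (1 - 2 * l)])).ne'

theorem MA_cdre : ContDiff ℝ ∞ (fun p : FP => (fZe p).re) :=
  Complex.reCLM.contDiff.comp MA_cdZe

theorem MA_open (f : FP → Prop) (hf : IsOpen {p | f p}) :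
    IsOpen {p : FP | f p ∧ (fS p ≠ 0 ∨ 1 < qsq (fZe p) (fZ p))} := by
  refine hf.inter (IsOpen.union ?_ ?_)
  · exact isOpen_ne_fun MA_cdS.continuous continuous_const
  · exact isOpen_lt continuous_const MA_cdq.continuous

theorem MA_smoothN (P : FPar) (h : P.Ok2) : ContDiffOn ℝ ∞ P.tauN
    {p | P.hd.B ^ 2 < Complex.normSq (fU p) ∧ (fS p ≠ 0 ∨ 1 < qsq (fZe p) (fZ p))} := by
  have hopU : IsOpen {p : FP | P.hd.B ^ 2 < Complex.normSq (fU p)} :=
    isOpen_lt continuous_const (contDiff_normSq.comp MA_cdU).continuous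
  intro p hp
  refine ContDiffAt.contDiffWithinAt ?_
  obtain ⟨hu, hs⟩ := hp
  by_cases hq : 1 < qsq (fZe p) (fZ p)
  · have hopq : IsOpen {p : FP | 1 < qsq (fZe p) (fZ p)} :=
      isOpen_lt continuous_const MA_cdq.continuous
    have he : P.tauN =ᶠ[𝓝 p] fun p => (fZe p).re := by
      filter_upwards [hopq.mem_nhds hq] with y hy
      have hy1 : 1 < qsq (fZe y) (fZ y) := hy
      have hr : P.rb ^ 2 ≤ qsq (fZe y) (fZ y) := by
        have h1 := h.rb0
        have h2 := h.rb1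
        nlinarith
      unfold tauN
      split_ifs
      · rw [mul_div_assoc]
        exact P.MA_formula h _ _ rfl hr
      · rfl
    exact MA_cdre.contDiffAt.congr_of_eventuallyEq he
  · have hs0 : fS p ≠ 0 := hs.resolve_right hq
    rcases lt_or_gt_of_ne hs0 with hs1 | hs1
    · have hopS : IsOpen {p : FP | fS p < 0} := isOpen_lt MA_cdS.continuous continuous_const
      have he : P.tauN =ᶠ[𝓝 p] fun p => ((1 - P.toPar.lamb (qsq (fZe p) (fZ p))) * (fZe p).re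
      + P.toPar.lamb (qsq (fZe p) (fZ p)) * (conj (fZ p) * conj (fU p)).re / ‖fU p‖)
      / Real.sqrt ((1 - P.toPar.lamb (qsq (fZe p) (fZ p))) ^ 2
        + P.toPar.lamb (qsq (fZe p) (fZ p)) ^ 2) := by
        filter_upwards [hopS.mem_nhds hs1, hopU.mem_nhds hu] with y hy1 hy2
        unfold tauN
        rw [if_pos ⟨hy1, hy2⟩]
      refine ContDiffAt.congr_of_eventuallyEq ?_ he
      have hu0 : fU p ≠ 0 := by
        have : 0 < Complex.normSq (fU p) := lt_of_le_of_lt (sq_nonneg _) hu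
        exact Complex.normSq_pos.1 this
      have hn : ContDiffAt ℝ ∞ (fun p : FP => ‖fU p‖) p := MA_cdU.contDiffAt.norm ℝ hu0
      have hcj : ContDiff ℝ ∞ (fun z : ℂ => conj z) := Complex.conjCLE.contDiff
      have hre : ContDiff ℝ ∞ (fun p : FP => (conj (fZ p) * conj (fU p)).re) :=
        Complex.reCLM.contDiff.comp ((hcj.comp MA_cdZ).mul (hcj.comp MA_cdU))
      refine ContDiffAt.div ?_ (P.MA_cdsq).contDiffAt (MA_sq_ne _)
      exact (((contDiff_const.sub P.MA_cdl).mul MA_cdre).contDiffAt).add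
        (((P.MA_cdl.mul hre).contDiffAt).div hn (norm_ne_zero_iff.2 hu0))
    · have hopS : IsOpen {p : FP | 0 < fS p} := isOpen_lt continuous_const MA_cdS.continuous
      have he : P.tauN =ᶠ[𝓝 p] fun p => (fZe p).re := by
        filter_upwards [hopS.mem_nhds hs1] with y hy
        unfold tauN
        rw [if_neg (fun h' => absurd h'.1 (not_lt.2 (le_of_lt hy)))]
      exact MA_cdre.contDiffAt.congr_of_eventuallyEq he

theorem MA_smoothS (P : FPar) (h : P.Ok2) (f : FP → Prop) : ContDiffOn ℝ ∞ P.tauS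
    {p | f p ∧ (fS p ≠ 0 ∨ 1 < qsq (fZe p) (fZ p))} := by
  intro p hp
  refine ContDiffAt.contDiffWithinAt ?_
  obtain ⟨-, hs⟩ := hp
  by_cases hq : 1 < qsq (fZe p) (fZ p)
  · have hopq : IsOpen {p : FP | 1 < qsq (fZe p) (fZ p)} :=
      isOpen_lt continuous_const MA_cdq.continuous
    have he : P.tauS =ᶠ[𝓝 p] fun p => (fZe p).re := by
      filter_upwards [hopq.mem_nhds hq] with y hy
      have hy1 : 1 < qsq (fZe y) (fZ y) := hy
      have hr : P.rb ^ 2 ≤ qsq (fZe y) (fZ y) := by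
        have h1 := h.rb0
        have h2 := h.rb1
        nlinarith
      unfold tauS
      split_ifs
      · exact P.MA_formula h _ _ rfl hr
      · rfl
    exact MA_cdre.contDiffAt.congr_of_eventuallyEq he
  · have hs0 : fS p ≠ 0 := hs.resolve_right hq
    rcases lt_or_gt_of_ne hs0 with hs1 | hs1
    · have hopS : IsOpen {p : FP | fS p < 0} := isOpen_lt MA_cdS.continuous continuous_const
      have he : P.tauS =ᶠ[𝓝 p] fun p => ((1 - P.toPar.lamb (qsq (fZe p) (fZ p))) * (fZe p).re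
      + P.toPar.lamb (qsq (fZe p) (fZ p)) * (fZ p).re)
      / Real.sqrt ((1 - P.toPar.lamb (qsq (fZe p) (fZ p))) ^ 2
        + P.toPar.lamb (qsq (fZe p) (fZ p)) ^ 2) := by
        filter_upwards [hopS.mem_nhds hs1] with y hy1
        unfold tauS
        rw [if_pos hy1]
      refine ContDiffAt.congr_of_eventuallyEq ?_ he
      have hre : ContDiff ℝ ∞ (fun p : FP => (fZ p).re) :=
        Complex.reCLM.contDiff.comp MA_cdZ
      refine ContDiffAt.div ?_ (P.MA_cdsq).contDiffAt (MA_sq_ne _)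
      exact (((contDiff_const.sub P.MA_cdl).mul MA_cdre).contDiffAt).add
        (P.MA_cdl.mul hre).contDiffAt
    · have hopS : IsOpen {p : FP | 0 < fS p} := isOpen_lt continuous_const MA_cdS.continuous
      have he : P.tauS =ᶠ[𝓝 p] fun p => (fZe p).re := by
        filter_upwards [hopS.mem_nhds hs1] with y hy
        unfold tauS
        rw [if_neg (not_lt.2 (le_of_lt hy))]
      exact MA_cdre.contDiffAt.congr_of_eventuallyEq he

theorem graph_N (P : FPar) (h : P.Ok2) :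
    GraphN P.La P.toPar.M' {p | P.hd.B ^ 2 < Complex.normSq (fU p) ∧
      (fS p ≠ 0 ∨ 1 < qsq (fZe p) (fZ p))} P.tauN := by
  have hopU : IsOpen {p : FP | P.hd.B ^ 2 < Complex.normSq (fU p)} :=
    isOpen_lt continuous_const (contDiff_normSq.comp MA_cdU).continuous
  refine ⟨fun z hz => hz.1, MA_open _ hopU, fun p t hp => hp, P.MA_smoothN h, fun p t => rfl, ?_⟩
  intro z hz h1 hW
  obtain ⟨m1, m2⟩ := P.mem_N hz h1
  rcases lt_or_ge (fS (rhoN z)) 0 with hs | hs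
  · rw [m1 hs]
    obtain ⟨f1, f2⟩ := P.FNm_far (fT (rhoN z)) (fU (rhoN z)) (fZe (rhoN z)) (fZ (rhoN z)) hW.1.le
    rw [f2, f1]
    unfold tauN
    rw [if_pos ⟨hs, hW.1⟩]
    exact sub_eq_zero
  · rw [m2 hs]
    unfold tauN
    rw [if_neg (fun h' => absurd h'.1 (not_lt.2 hs))]
    exact Iff.rfl

theorem graph_mid (P : FPar) (h : P.Ok2) :
    GraphN P.La P.toPar.M' {p | -(3 / 4) * P.La < fS p} (fun p => (fZe p).re) := by
  refine ⟨fun z hz => hz.1, isOpen_lt continuous_const MA_cdS.continuous, fun p t hp => hp,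
    MA_cdre.contDiffOn, fun p t => rfl, ?_⟩
  intro z hz h1 hW
  obtain ⟨m1, m2⟩ := P.mem_N hz h1
  rcases lt_or_ge (fS (rhoN z)) 0 with hs | hs
  · rw [m1 hs, P.FNm_big h]
    · exact sub_eq_zero
    · obtain ⟨-, -, -, h4⟩ := (rhoN_mem hz h1).1
      have hW' : -(3 / 4) * P.La < fS (rhoN z) := hW
      have hLa := h.La2
      have hT2 := h.T2
      have h5 : qsq (fZe (rhoN z)) (fZ (rhoN z)) = P.La ^ 2 - fS (rhoN z) ^ 2 := by
        unfold qsq
        linarith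
      rw [h5]
      have h6 : fS (rhoN z) ^ 2 ≤ 9 / 16 * P.La ^ 2 := by nlinarith
      have h7 := sq_nonneg P.Q
      have h8 := sq_nonneg P.hd.B
      linarith
  · rw [m2 hs]
    exact Iff.rfl

theorem graph_S (P : FPar) (h : P.Ok2) :
    GraphS P.La P.toPar.M' {p | Complex.normSq (fU p) * P.hd.B ^ 2 < 1 ∧
      (fS p ≠ 0 ∨ 1 < qsq (fZe p) (fZ p))} P.tauS := by
  have hopU : IsOpen {p : FP | Complex.normSq (fU p) * P.hd.B ^ 2 < 1} :=
    isOpen_lt ((contDiff_normSq.comp MA_cdU).continuous.mul continuous_const) continuous_const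
  refine ⟨fun z hz => hz.1, MA_open _ hopU, fun p t hp => hp, P.MA_smoothS h _, fun p t => rfl, ?_⟩
  intro z hz h2 hW
  rcases lt_or_ge (-1) (eW1 z) with h1 | h1
  · obtain ⟨m1, m2⟩ := P.mem_N hz h1
    obtain ⟨n1, n2⟩ := normSq_U hz h1 h2
    obtain ⟨r1, r2, r3, r4, r5⟩ := rhoS_same hz h1 h2
    obtain ⟨hu, htr⟩ := rhoS_eq hz h1 h2
    have hB : P.hd.B ^ 2 < Complex.normSq (fU (rhoN z)) := by
      have h3 : Complex.normSq (fU (rhoS z)) * P.hd.B ^ 2 < 1 := hW.1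
      rw [n1, inv_mul_lt_iff₀ n2, mul_one] at h3
      exact h3
    have hq : qsq (fZe (rhoS z)) (fZ (rhoS z)) = qsq (fZe (rhoN z)) (fZ (rhoN z)) := by
      unfold qsq
      rw [r3, r5]
    rcases lt_or_ge (fS (rhoN z)) 0 with hs | hs
    · rw [m1 hs]
      obtain ⟨f1, f2⟩ := P.FNm_far (fT (rhoN z)) (fU (rhoN z)) (fZe (rhoN z)) (fZ (rhoN z)) hB.le
      rw [f2, f1]
      unfold tauS
      rw [if_pos (by rw [r4]; exact hs), hq, r3]
      have hz2 : (fZ (rhoS z)).re =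
          (conj (fZ (rhoN z)) * conj (fU (rhoN z))).re / ‖fU (rhoN z)‖ := by
        rw [htr]
        show ((((‖fU (rhoN z)‖⁻¹ : ℝ)) : ℂ) * (fZ (rhoN z) * fU (rhoN z))).re = _
        rw [Complex.re_ofReal_mul, ← map_mul, Complex.conj_re]
        field_simp
      rw [hz2, mul_div_assoc]
      exact sub_eq_zero
    · rw [m2 hs]
      unfold tauS
      rw [if_neg (by rw [r4]; exact not_lt.2 hs), r3]
      exact Iff.rfl
  · have e : P.toPar.FD 1 z = P.toPar.FS 1 (rhoS z) := by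
      unfold Par.FD
      rw [if_neg (not_lt.2 h1)]
    show (z ∈ WS P.toPar.La ∧ P.toPar.FD 1 z = 0) ↔ _
    rw [e]
    unfold Par.FS tauS
    split_ifs with hs
    · unfold Par.FSm
      simp only [one_mul]
      rw [and_iff_right hz]
      exact sub_eq_zero
    · rw [and_iff_right hz]
      exact sub_eq_zero

end FPar

end

end Pool.Agent.H34.SY
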