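import Pool.Agent.H34.SY.MA

/-!
# Row MB: the chart `(x, y)` of `M'` off the exceptional divisor (side `N`, `s < 0`)

`V3 × V3 ∋ (x, y)`; `chat(x, y) = x₁ + ψ_c(|y|²) (c(x) - x₁)`, `W = (chat, y) ∈ ℍ = ℝ⁴`, `r = |W|² = chat² + |y|²`; the
quaternion `q = W · 𝔤`, `𝔤 = mixq (lamb r) (g x)` normalised.  With `A = W₀ + i W₁`, `Bq = W₂ - i W₃`,
`gC = 𝔤₀ + i 𝔤₁`, `gJ = 𝔤₂ - i 𝔤₃`: `ζ = A gC - conj Bq gJ`, `z = conj A gJ + Bq gC` (this is `q = ζ + j z`, and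
`qgbar ζ z g = W` because `ζ conj gC + conj z gJ = A (|gC|²+|gJ|²)`, `z conj gC - conj ζ gJ = Bq (..)`), `|q|² = r`.
Then `h0`, `h` are the Hopf coordinates of `(ζ, z)`, `s = -√(La² - r)`.

`chart_I`: the chart of `M' ∩ {-1 < w₁, s < 0, q ≠ 0}`; `ρ z = PiN (rhoN z)`.
* `ψ v ∈ M'`: `FNm 1` at this point is `t + ψ_c χ_q (c - t) - W₀`; it vanishes because `χ_q(r) = 1` wherever
  `ψ_c(|y|²) (c(x) - t) ≠ 0`: then `|x| < B`, `|y|² < 1 + T²`, `|chat| ≤ |t| + |c - t| ≤ B + Sb`, so `r ≤ (B+Sb)² + 1 + T² ≤ Q²`.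
* conversely at a point of `M'`: `y₀ = t + ψ_c χ_q (c - t)` and the same estimate gives `y₀ = chat(x, y)`, so
  `W = (y₀, y) = yy` and `q` is recovered; `(h0, h)` by `FPS_hopf`, `s` by the last equation of `FPS`.
* smoothness: `lamb`, `ψ_c` smooth, `𝔤 ≠ 0` (`mixq_ne`), `0 < r < La²` on `VI`; the formula for `ρ` is smooth on the
  ambient open set `{-1 < w₁, s < 0, (ζ,z) ≠ 0}` (no condition needed: `yy` is smooth everywhere).
-/

open Set Topology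
open scoped ContDiff ComplexConjugate

namespace Pool.Agent.H34.SY

noncomputable section

namespace FPar

/-- `chat`. -/
def chat (P : FPar) (v : V3 × V3) : ℝ :=
  v.1.1 + P.toPar.psic (nsq3 v.2) * (P.hd.c v.1 - v.1.1)

/-- `|q|²` in the chart. -/
def rI (P : FPar) (v : V3 × V3) : ℝ := P.chat v ^ 2 + nsq3 v.2

/-- The point of `FP` with coordinates `(x, y)`. -/
def qI (P : FPar) (v : V3 × V3) : FP :=
  let g := mixq (P.toPar.lamb (P.rI v)) (P.hd.g v.1)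
  let n := Real.sqrt (nsq4 g)
  let gC : ℂ := ⟨g.1 / n, g.2.1 / n⟩
  let gJ : ℂ := ⟨g.2.2.1 / n, -g.2.2.2 / n⟩
  let A : ℂ := ⟨P.chat v, v.2.1⟩
  let Bq : ℂ := ⟨v.2.2.1, -v.2.2.2⟩
  let ze : ℂ := A * gC - conj Bq * gJ
  let z : ℂ := conj A * gJ + Bq * gC
  (v.1.1, ⟨v.1.2.1, v.1.2.2⟩, (Complex.normSq ze - Complex.normSq z) / P.rI v,
    ((2 / P.rI v : ℝ) : ℂ) * (conj ze * z), ze, z, -Real.sqrt (P.La ^ 2 - P.rI v))

theorem MB_unit (g : V4) (hg : 0 < nsq4 g) : ∃ n a b c d : ℝ, 0 < n ∧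
    Real.sqrt (nsq4 g) = n ∧ g = (n * a, n * b, n * c, n * d) ∧
    a ^ 2 + b ^ 2 + c ^ 2 + d ^ 2 = 1 := by
  obtain ⟨g1, g2, g3, g4⟩ := g
  have hn : 0 < Real.sqrt (nsq4 (g1, g2, g3, g4)) := Real.sqrt_pos.2 hg
  have hn2 : Real.sqrt (nsq4 (g1, g2, g3, g4)) ^ 2 = nsq4 (g1, g2, g3, g4) :=
    Real.sq_sqrt hg.le
  obtain ⟨n, hnd⟩ : ∃ n, n = Real.sqrt (nsq4 (g1, g2, g3, g4)) := ⟨_, rfl⟩
  rw [← hnd] at hn hn2
  simp only [nsq4] at hn2
  refine ⟨n, g1 / n, g2 / n, g3 / n, g4 / n, hn, hnd.symm, ?_, ?_⟩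
  · rw [mul_div_cancel₀ _ hn.ne', mul_div_cancel₀ _ hn.ne', mul_div_cancel₀ _ hn.ne',
      mul_div_cancel₀ _ hn.ne']
  · rw [div_pow, div_pow, div_pow, div_pow, ← add_div, ← add_div, ← add_div, ← hn2]
    exact div_self (pow_ne_zero 2 hn.ne')

/-- the first complex component of `W g / |g|` -/
def MB_ze (g W : V4) : ℂ :=
  let n := Real.sqrt (nsq4 g)
  let gC : ℂ := ⟨g.1 / n, g.2.1 / n⟩
  let gJ : ℂ := ⟨g.2.2.1 / n, -g.2.2.2 / n⟩
  let A : ℂ := ⟨W.1, W.2.1⟩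
  let Bq : ℂ := ⟨W.2.2.1, -W.2.2.2⟩
  A * gC - conj Bq * gJ

/-- the second complex component of `W g / |g|` -/
def MB_z (g W : V4) : ℂ :=
  let n := Real.sqrt (nsq4 g)
  let gC : ℂ := ⟨g.1 / n, g.2.1 / n⟩
  let gJ : ℂ := ⟨g.2.2.1 / n, -g.2.2.2 / n⟩
  let A : ℂ := ⟨W.1, W.2.1⟩
  let Bq : ℂ := ⟨W.2.2.1, -W.2.2.2⟩
  conj A * gJ + Bq * gC

theorem MB_q1 (g W : V4) (hg : 0 < nsq4 g) : qgbar (MB_ze g W) (MB_z g W) g = W ∧
    qsq (MB_ze g W) (MB_z g W) = nsq4 W := by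
  obtain ⟨n, a, b, c, d, hn, hs, hgd, h1⟩ := MB_unit g hg
  obtain ⟨w1, w2, w3, w4⟩ := W
  unfold MB_ze MB_z qgbar
  simp only [hs]
  subst hgd
  have hn0 := hn.ne'
  constructor
  · simp only [Prod.mk.injEq, Complex.mul_re, Complex.mul_im, Complex.add_re, Complex.add_im,
      Complex.sub_re, Complex.sub_im, Complex.conj_re, Complex.conj_im]
    refine ⟨?_, ?_, ?_, ?_⟩
    · field_simp
      linear_combination (w1) * h1
    · field_simp
      linear_combination (w2) * h1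
    · field_simp
      linear_combination (w3) * h1
    · field_simp
      linear_combination (w4) * h1
  · unfold qsq nsq4
    simp only [Complex.normSq_apply, Complex.mul_re, Complex.mul_im, Complex.add_re, Complex.add_im,
      Complex.sub_re, Complex.sub_im, Complex.conj_re, Complex.conj_im]
    field_simp
    linear_combination (w1 ^ 2 + w2 ^ 2 + w3 ^ 2 + w4 ^ 2) * h1

theorem MB_q2 (g : V4) (ze z : ℂ) (hg : 0 < nsq4 g) : MB_ze g (qgbar ze z g) = ze ∧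
    MB_z g (qgbar ze z g) = z := by
  obtain ⟨n, a, b, c, d, hn, hs, hgd, h1⟩ := MB_unit g hg
  unfold MB_ze MB_z qgbar
  simp only [hs]
  subst hgd
  have hn0 := hn.ne'
  constructor
  · apply Complex.ext
    · simp only [Complex.mul_re, Complex.mul_im, Complex.add_re, Complex.add_im,
        Complex.sub_re, Complex.sub_im, Complex.conj_re, Complex.conj_im]
      field_simp
      linear_combination (ze.re) * h1
    · simp only [Complex.mul_re, Complex.mul_im, Complex.add_re, Complex.add_im,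
        Complex.sub_re, Complex.sub_im, Complex.conj_re, Complex.conj_im]
      field_simp
      linear_combination (ze.im) * h1
  · apply Complex.ext
    · simp only [Complex.mul_re, Complex.mul_im, Complex.add_re, Complex.add_im,
        Complex.sub_re, Complex.sub_im, Complex.conj_re, Complex.conj_im]
      field_simp
      linear_combination (z.re) * h1
    · simp only [Complex.mul_re, Complex.mul_im, Complex.add_re, Complex.add_im,
        Complex.sub_re, Complex.sub_im, Complex.conj_re, Complex.conj_im]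
      field_simp
      linear_combination (z.im) * h1

theorem MB_fps {La t : ℝ} {u ze z : ℂ} {r : ℝ} (hr : qsq ze z = r) (h0 : 0 < r) (h1 : r < La ^ 2) :
    ((t, u, (Complex.normSq ze - Complex.normSq z) / r, ((2 / r : ℝ) : ℂ) * (conj ze * z), ze, z,
      -Real.sqrt (La ^ 2 - r)) : FP) ∈ FPS La := by
  unfold qsq at hr
  have hr0 := h0.ne'
  simp only [FPS, mem_ofPred_eq, fH0, fH, fZe, fZ, fS]
  have hz1 : conj ze * ze = (Complex.normSq ze : ℂ) := by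
    rw [mul_comm, Complex.mul_conj]
  have hz2 : conj z * z = (Complex.normSq z : ℂ) := by
    rw [mul_comm, Complex.mul_conj]
  have e1 : (1 : ℝ) + (Complex.normSq ze - Complex.normSq z) / r = 2 / r * Complex.normSq ze := by
    field_simp
    linarith
  have e2 : (1 : ℝ) - (Complex.normSq ze - Complex.normSq z) / r = 2 / r * Complex.normSq z := by
    field_simp
    linarith
  refine ⟨?_, ?_, ?_, ?_⟩
  · rw [Complex.normSq_mul, Complex.normSq_mul, Complex.normSq_conj, Complex.normSq_ofReal]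
    field_simp
    rw [← hr]
    ring
  · rw [e1, Complex.ofReal_mul, ← hz1]
    ring
  · rw [e2, Complex.ofReal_mul, ← hz2, map_mul, map_mul, Complex.conj_ofReal, Complex.conj_conj]
    ring
  · rw [neg_sq, Real.sq_sqrt (by linarith)]
    linarith


theorem MB_mk {E : Type} [NormedAddCommGroup E] [NormedSpace ℝ E] {U : Set E} {f g : E → ℝ}
    (hf : ContDiffOn ℝ ∞ f U) (hg : ContDiffOn ℝ ∞ g U) :
    ContDiffOn ℝ ∞ (fun p => (⟨f p, g p⟩ : ℂ)) U := by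
  have h := (Complex.equivRealProdCLM.symm.contDiff (n := ∞)).comp_contDiffOn (hf.prodMk hg)
  exact h.congr (fun p _ => rfl)

theorem MB_re {E : Type} [NormedAddCommGroup E] [NormedSpace ℝ E] {U : Set E} {f : E → ℂ}
    (hf : ContDiffOn ℝ ∞ f U) : ContDiffOn ℝ ∞ (fun p => (f p).re) U :=
  (Complex.reCLM.contDiff (n := ∞)).comp_contDiffOn hf

theorem MB_im {E : Type} [NormedAddCommGroup E] [NormedSpace ℝ E] {U : Set E} {f : E → ℂ}
    (hf : ContDiffOn ℝ ∞ f U) : ContDiffOn ℝ ∞ (fun p => (f p).im) U :=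
  (Complex.imCLM.contDiff (n := ∞)).comp_contDiffOn hf

theorem MB_conj {E : Type} [NormedAddCommGroup E] [NormedSpace ℝ E] {U : Set E} {f : E → ℂ}
    (hf : ContDiffOn ℝ ∞ f U) : ContDiffOn ℝ ∞ (fun p => conj (f p)) U :=
  (Complex.conjCLE.contDiff (n := ∞)).comp_contDiffOn hf

theorem MB_ofReal {E : Type} [NormedAddCommGroup E] [NormedSpace ℝ E] {U : Set E} {f : E → ℝ}
    (hf : ContDiffOn ℝ ∞ f U) : ContDiffOn ℝ ∞ (fun p => ((f p : ℝ) : ℂ)) U :=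
  (Complex.ofRealCLM.contDiff (n := ∞)).comp_contDiffOn hf

theorem MB_normSq {E : Type} [NormedAddCommGroup E] [NormedSpace ℝ E] {U : Set E} {f : E → ℂ}
    (hf : ContDiffOn ℝ ∞ f U) : ContDiffOn ℝ ∞ (fun p => Complex.normSq (f p)) U :=
  WB_cd_normSq.comp_contDiffOn hf

theorem MB_nsq4 {E : Type} [NormedAddCommGroup E] [NormedSpace ℝ E] {U : Set E} {g : E → V4}
    (hg : ContDiffOn ℝ ∞ g U) : ContDiffOn ℝ ∞ (fun p => nsq4 (g p)) U := by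
  unfold nsq4
  exact (((hg.fst.pow 2).add (hg.snd.fst.pow 2)).add (hg.snd.snd.fst.pow 2)).add
    (hg.snd.snd.snd.pow 2)

theorem MB_nsq3 {E : Type} [NormedAddCommGroup E] [NormedSpace ℝ E] {U : Set E} {g : E → V3}
    (hg : ContDiffOn ℝ ∞ g U) : ContDiffOn ℝ ∞ (fun p => nsq3 (g p)) U := by
  unfold nsq3
  exact ((hg.fst.pow 2).add (hg.snd.fst.pow 2)).add (hg.snd.snd.pow 2)

theorem MB_mixq {E : Type} [NormedAddCommGroup E] [NormedSpace ℝ E] {U : Set E} {l : E → ℝ}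
    {g : E → V4} (hl : ContDiffOn ℝ ∞ l U) (hg : ContDiffOn ℝ ∞ g U) :
    ContDiffOn ℝ ∞ (fun p => mixq (l p) (g p)) U := by
  unfold mixq
  exact ((contDiffOn_const.sub hl).add (hl.mul hg.fst)).prodMk
    ((hl.mul hg.snd.fst).prodMk ((hl.mul hg.snd.snd.fst).prodMk (hl.mul hg.snd.snd.snd)))

theorem MB_sqrt {E : Type} [NormedAddCommGroup E] [NormedSpace ℝ E] {U : Set E} {f : E → ℝ}
    (hf : ContDiffOn ℝ ∞ f U) (h : ∀ p ∈ U, f p ≠ 0) :
    ContDiffOn ℝ ∞ (fun p => Real.sqrt (f p)) U :=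
  hf.sqrt h

theorem MB_qgbar {E : Type} [NormedAddCommGroup E] [NormedSpace ℝ E] {U : Set E} {ze z : E → ℂ}
    {g : E → V4} (hze : ContDiffOn ℝ ∞ ze U) (hz : ContDiffOn ℝ ∞ z U) (hg : ContDiffOn ℝ ∞ g U)
    (h : ∀ p ∈ U, 0 < nsq4 (g p)) : ContDiffOn ℝ ∞ (fun p => qgbar (ze p) (z p) (g p)) U := by
  have hn : ContDiffOn ℝ ∞ (fun p => Real.sqrt (nsq4 (g p))) U :=
    MB_sqrt (MB_nsq4 hg) (fun p hp => (h p hp).ne')
  have hn0 : ∀ p ∈ U, Real.sqrt (nsq4 (g p)) ≠ 0 := fun p hp => (Real.sqrt_pos.2 (h p hp)).ne'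
  have hC : ContDiffOn ℝ ∞ (fun p => (⟨(g p).1, (g p).2.1⟩ : ℂ)) U := MB_mk hg.fst hg.snd.fst
  have hJ : ContDiffOn ℝ ∞ (fun p => (⟨(g p).2.2.1, -(g p).2.2.2⟩ : ℂ)) U :=
    MB_mk hg.snd.snd.fst hg.snd.snd.snd.neg
  have hA := (hze.mul (MB_conj hC)).add ((MB_conj hz).mul hJ)
  have hB := (hz.mul (MB_conj hC)).sub ((MB_conj hze).mul hJ)
  exact ((MB_re hA).div hn hn0).prodMk (((MB_im hA).div hn hn0).prodMk
    (((MB_re hB).div hn hn0).prodMk ((MB_im hB).neg.div hn hn0)))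

theorem MB_zes {E : Type} [NormedAddCommGroup E] [NormedSpace ℝ E] {U : Set E} {g W : E → V4}
    (hg : ContDiffOn ℝ ∞ g U) (hW : ContDiffOn ℝ ∞ W U) (h : ∀ p ∈ U, 0 < nsq4 (g p)) :
    ContDiffOn ℝ ∞ (fun p => MB_ze (g p) (W p)) U ∧
    ContDiffOn ℝ ∞ (fun p => MB_z (g p) (W p)) U := by
  have hn : ContDiffOn ℝ ∞ (fun p => Real.sqrt (nsq4 (g p))) U :=
    MB_sqrt (MB_nsq4 hg) (fun p hp => (h p hp).ne')
  have hn0 : ∀ p ∈ U, Real.sqrt (nsq4 (g p)) ≠ 0 := fun p hp => (Real.sqrt_pos.2 (h p hp)).ne'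
  have hC : ContDiffOn ℝ ∞ (fun p => (⟨(g p).1 / Real.sqrt (nsq4 (g p)),
      (g p).2.1 / Real.sqrt (nsq4 (g p))⟩ : ℂ)) U :=
    MB_mk (hg.fst.div hn hn0) (hg.snd.fst.div hn hn0)
  have hJ : ContDiffOn ℝ ∞ (fun p => (⟨(g p).2.2.1 / Real.sqrt (nsq4 (g p)),
      -(g p).2.2.2 / Real.sqrt (nsq4 (g p))⟩ : ℂ)) U :=
    MB_mk (hg.snd.snd.fst.div hn hn0) (hg.snd.snd.snd.neg.div hn hn0)
  have hA : ContDiffOn ℝ ∞ (fun p => (⟨(W p).1, (W p).2.1⟩ : ℂ)) U := MB_mk hW.fst hW.snd.fst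
  have hB : ContDiffOn ℝ ∞ (fun p => (⟨(W p).2.2.1, -(W p).2.2.2⟩ : ℂ)) U :=
    MB_mk hW.snd.snd.fst hW.snd.snd.snd.neg
  exact ⟨(hA.mul hC).sub ((MB_conj hB).mul hJ), ((MB_conj hA).mul hJ).add (hB.mul hC)⟩

theorem MB_cuts (P : FPar) : ContDiff ℝ ∞ P.toPar.psic ∧ ContDiff ℝ ∞ P.toPar.lamb := by
  constructor
  · exact SB_cut_smooth _ _
  · exact (SB_cut_smooth _ _).comp (contDiff_id.div_const _)

theorem MB_npos (P : FPar) (r : ℝ) (x : V3) : 0 < nsq4 (mixq (P.toPar.lamb r) (P.hd.g x)) := by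
  have h := P.mixq_ne (τ := 1) zero_le_one le_rfl r x
  rw [one_mul] at h
  obtain ⟨⟨a, b, c, d⟩, hg⟩ : ∃ g : V4, g = mixq (P.toPar.lamb r) (P.hd.g x) := ⟨_, rfl⟩
  rw [← hg] at h ⊢
  by_contra hcon
  apply h
  unfold nsq4 at hcon
  simp only at hcon
  have h1 : a ^ 2 = 0 := by nlinarith [sq_nonneg a, sq_nonneg b, sq_nonneg c, sq_nonneg d]
  have h2 : b ^ 2 = 0 := by nlinarith [sq_nonneg a, sq_nonneg b, sq_nonneg c, sq_nonneg d]
  have h3 : c ^ 2 = 0 := by nlinarith [sq_nonneg a, sq_nonneg b, sq_nonneg c, sq_nonneg d]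
  have h4 : d ^ 2 = 0 := by nlinarith [sq_nonneg a, sq_nonneg b, sq_nonneg c, sq_nonneg d]
  rw [pow_eq_zero_iff two_ne_zero] at h1 h2 h3 h4
  rw [h1, h2, h3, h4]
  rfl

theorem MB_est (P : FPar) (h : P.Ok2) (x : V3) (y2 c1 : ℝ) (hc0 : 0 ≤ c1)
    (hc1 : c1 ≤ 1) (r : ℝ)
    (hr : r = (x.1 + P.toPar.psic y2 * c1 * (P.hd.c x - x.1)) ^ 2 + y2) :
    P.toPar.psic y2 * P.toPar.chiq r * (P.hd.c x - x.1) =
      P.toPar.psic y2 * (P.hd.c x - x.1) := by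
  have hT := h.T
  by_cases hp : P.toPar.psic y2 = 0
  · rw [hp]; ring
  by_cases hc : P.hd.c x = x.1
  · rw [hc]; ring
  have hT2 : 0 < P.T ^ 2 := by positivity
  have hcp := cut_props 1 (P.T ^ 2) hT2
  have hy2 : y2 < 1 + P.T ^ 2 := by
    by_contra hcon
    exact hp (hcp.2.2.1 y2 (not_lt.1 hcon))
  have hx : nsq3 x < P.hd.B ^ 2 := by
    by_contra hcon
    exact hc (P.hd.c_far x (not_lt.1 hcon))
  have hB : 0 < P.hd.B := by
    have h1 := P.hd.hL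
    have h2 := P.hd.hLB
    linarith
  have hx1 : |x.1| ≤ P.hd.B := by
    apply abs_le_of_sq_le_sq _ hB.le
    have : x.1 ^ 2 ≤ nsq3 x := by
      unfold nsq3
      nlinarith [sq_nonneg x.2.1, sq_nonneg x.2.2]
    linarith
  have hS := P.hd.c_bound x
  have hS0 : 0 ≤ P.hd.Sb := le_trans (abs_nonneg _) hS
  have hp01 := hcp.2.2.2.1 y2
  have hp01' : 0 ≤ P.toPar.psic y2 ∧ P.toPar.psic y2 ≤ 1 := hp01
  have hpc0 : 0 ≤ P.toPar.psic y2 * c1 := mul_nonneg hp01'.1 hc0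
  have hpc : P.toPar.psic y2 * c1 ≤ 1 := mul_le_one₀ hp01'.2 hc0 hc1
  have hb : |x.1 + P.toPar.psic y2 * c1 * (P.hd.c x - x.1)| ≤ P.hd.B + P.hd.Sb := by
    refine (abs_add_le _ _).trans ?_
    apply add_le_add hx1
    rw [abs_mul, abs_of_nonneg hpc0]
    calc P.toPar.psic y2 * c1 * |P.hd.c x - x.1| ≤ 1 * P.hd.Sb :=
          mul_le_mul hpc hS (abs_nonneg _) zero_le_one
      _ = P.hd.Sb := one_mul _
  have hb2 : (x.1 + P.toPar.psic y2 * c1 * (P.hd.c x - x.1)) ^ 2 ≤ (P.hd.B + P.hd.Sb) ^ 2 :=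
    sq_le_sq' (by linarith [(abs_le.1 hb).1]) (abs_le.1 hb).2
  have hrQ : r ≤ P.toPar.Q ^ 2 := by
    have hQ : P.toPar.Q = P.hd.B + P.hd.Sb + P.T + 2 := rfl
    rw [hQ, hr]
    nlinarith [mul_nonneg (add_nonneg hB.le hS0) (by linarith : (0 : ℝ) ≤ P.T)]
  have hchi : P.toPar.chiq r = 1 := (cut_props (P.toPar.Q ^ 2) 1 one_pos).2.1 r hrQ
  rw [hchi, mul_one]


theorem MB_cd_chat (P : FPar) : ContDiff ℝ ∞ P.chat := by
  have h1 : ContDiff ℝ ∞ (fun v : V3 × V3 => v.1.1) := contDiff_fst.fst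
  have h2 : ContDiff ℝ ∞ (fun v : V3 × V3 => nsq3 v.2) := by
    rw [← contDiffOn_univ]
    exact MB_nsq3 contDiff_snd.contDiffOn
  have h3 : ContDiff ℝ ∞ (fun v : V3 × V3 => P.hd.c v.1) := P.hd.c_smooth.comp contDiff_fst
  unfold chat
  exact h1.add ((P.MB_cuts.1.comp h2).mul (h3.sub h1))

theorem MB_cd_rI (P : FPar) : ContDiff ℝ ∞ P.rI := by
  have h2 : ContDiff ℝ ∞ (fun v : V3 × V3 => nsq3 v.2) := by
    rw [← contDiffOn_univ]
    exact MB_nsq3 contDiff_snd.contDiffOn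
  unfold rI
  exact (P.MB_cd_chat.pow 2).add h2

theorem MB_qI_eq (P : FPar) (v : V3 × V3) : P.qI v =
    (v.1.1, ⟨v.1.2.1, v.1.2.2⟩,
      (Complex.normSq (MB_ze (mixq (P.toPar.lamb (P.rI v)) (P.hd.g v.1)) (P.chat v, v.2)) -
        Complex.normSq (MB_z (mixq (P.toPar.lamb (P.rI v)) (P.hd.g v.1)) (P.chat v, v.2))) /
        P.rI v,
      ((2 / P.rI v : ℝ) : ℂ) *
        (conj (MB_ze (mixq (P.toPar.lamb (P.rI v)) (P.hd.g v.1)) (P.chat v, v.2)) *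
          MB_z (mixq (P.toPar.lamb (P.rI v)) (P.hd.g v.1)) (P.chat v, v.2)),
      MB_ze (mixq (P.toPar.lamb (P.rI v)) (P.hd.g v.1)) (P.chat v, v.2),
      MB_z (mixq (P.toPar.lamb (P.rI v)) (P.hd.g v.1)) (P.chat v, v.2),
      -Real.sqrt (P.La ^ 2 - P.rI v)) := rfl

theorem MB_cd_qI (P : FPar) :
    ContDiffOn ℝ ∞ P.qI {v : V3 × V3 | 0 < P.rI v ∧ P.rI v < P.La ^ 2} := by
  obtain ⟨U, hU⟩ : ∃ U : Set (V3 × V3), U = {v : V3 × V3 | 0 < P.rI v ∧ P.rI v < P.La ^ 2} :=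
    ⟨_, rfl⟩
  rw [← hU]
  have hr : ContDiffOn ℝ ∞ P.rI U := P.MB_cd_rI.contDiffOn
  have hr0 : ∀ v ∈ U, P.rI v ≠ 0 := fun v hv => by
    rw [hU] at hv
    exact hv.1.ne'
  have hr1 : ∀ v ∈ U, P.La ^ 2 - P.rI v ≠ 0 := fun v hv => by
    rw [hU] at hv
    exact (sub_pos.2 hv.2).ne'
  have hc : ContDiffOn ℝ ∞ P.chat U := P.MB_cd_chat.contDiffOn
  have hfst : ContDiffOn ℝ ∞ (fun v : V3 × V3 => v.1) U := contDiff_fst.contDiffOn
  have hsnd : ContDiffOn ℝ ∞ (fun v : V3 × V3 => v.2) U := contDiff_snd.contDiffOn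
  have hg : ContDiffOn ℝ ∞ (fun v : V3 × V3 => mixq (P.toPar.lamb (P.rI v)) (P.hd.g v.1)) U :=
    MB_mixq (P.MB_cuts.2.comp_contDiffOn hr) (P.hd.g_smooth.comp_contDiffOn hfst)
  have hW : ContDiffOn ℝ ∞ (fun v : V3 × V3 => ((P.chat v, v.2) : V4)) U := hc.prodMk hsnd
  obtain ⟨h1, h2⟩ := MB_zes hg hW (fun v _ => P.MB_npos _ _)
  have h3 : ContDiffOn ℝ ∞ (fun v : V3 × V3 => (⟨v.1.2.1, v.1.2.2⟩ : ℂ)) U :=
    MB_mk hfst.snd.fst hfst.snd.snd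
  refine ContDiffOn.congr ?_ (fun v _ => P.MB_qI_eq v)
  exact hfst.fst.prodMk (h3.prodMk ((((MB_normSq h1).sub (MB_normSq h2)).div hr hr0).prodMk
    (((MB_ofReal (contDiffOn_const.div hr hr0)).mul ((MB_conj h1).mul h2)).prodMk
      (h1.prodMk (h2.prodMk (MB_sqrt (contDiffOn_const.sub hr) hr1).neg)))))

/-- the main algebraic fact -/
theorem MB_yy (P : FPar) (v : V3 × V3) :
    qsq (fZe (P.qI v)) (fZ (P.qI v)) = P.rI v ∧
    P.toPar.yy 1 (fT (P.qI v)) (fU (P.qI v)) (fZe (P.qI v)) (fZ (P.qI v)) = (P.chat v, v.2) ∧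
    xpt (fT (P.qI v)) (fU (P.qI v)) = v.1 := by
  have hq := MB_q1 (mixq (P.toPar.lamb (P.rI v)) (P.hd.g v.1)) (P.chat v, v.2) (P.MB_npos _ _)
  have h1 : qsq (fZe (P.qI v)) (fZ (P.qI v)) = P.rI v := by
    have h2 : nsq4 (P.chat v, v.2) = P.rI v := by
      unfold nsq4 rI nsq3
      ring
    rw [← h2]
    exact hq.2
  have h3 : xpt (fT (P.qI v)) (fU (P.qI v)) = v.1 := rfl
  refine ⟨h1, ?_, h3⟩
  unfold Par.yy
  rw [h1, h3, one_mul]
  exact hq.1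

theorem PiN_qI (P : FPar) (h : P.Ok2) {v : V3 × V3} (hv : 0 < P.rI v ∧ P.rI v < P.La ^ 2) :
    P.PiN (P.qI v) = v ∧ P.qI v ∈ FPS P.La ∧ qsq (fZe (P.qI v)) (fZ (P.qI v)) = P.rI v := by
  obtain ⟨hy1, hy2, hy3⟩ := P.MB_yy v
  refine ⟨?_, ?_, hy1⟩
  · unfold PiN
    rw [hy2, hy3]
  · exact MB_fps hy1 hv.1 hv.2

/-- `PiN` is smooth. -/
theorem contDiff_PiN (P : FPar) (h : P.Ok2) : ContDiff ℝ ∞ P.PiN := by
  rw [← contDiffOn_univ]
  have cT : ContDiffOn ℝ ∞ (fun p : FP => fT p) univ := pT.contDiff.contDiffOn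
  have cU : ContDiffOn ℝ ∞ (fun p : FP => fU p) univ := pU.contDiff.contDiffOn
  have cZe : ContDiffOn ℝ ∞ (fun p : FP => fZe p) univ := pZe.contDiff.contDiffOn
  have cZ : ContDiffOn ℝ ∞ (fun p : FP => fZ p) univ := pZ.contDiff.contDiffOn
  have cx : ContDiffOn ℝ ∞ (fun p : FP => xpt (fT p) (fU p)) univ :=
    cT.prodMk ((MB_re cU).prodMk (MB_im cU))
  have cq : ContDiffOn ℝ ∞ (fun p : FP => qsq (fZe p) (fZ p)) univ := by
    unfold qsq
    exact (MB_normSq cZe).add (MB_normSq cZ)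
  have cg : ContDiffOn ℝ ∞ (fun p : FP => mixq (1 * P.toPar.lamb (qsq (fZe p) (fZ p)))
      (P.hd.g (xpt (fT p) (fU p)))) univ :=
    MB_mixq (contDiffOn_const.mul (P.MB_cuts.2.comp_contDiffOn cq))
      (P.hd.g_smooth.comp_contDiffOn cx)
  have cy := MB_qgbar cZe cZ cg (fun p _ => by rw [one_mul]; exact P.MB_npos _ _)
  exact cx.prodMk cy.snd


theorem MB_back (P : FPar) (h : P.Ok2) {z : EA} (hz : z ∈ P.toPar.M' ∩
    {z | -1 < eW1 z ∧ eS z < 0 ∧ (fZe (rhoN z) ≠ 0 ∨ fZ (rhoN z) ≠ 0)}) :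
    (0 < P.rI (P.PiN (rhoN z)) ∧ P.rI (P.PiN (rhoN z)) < P.La ^ 2) ∧
      psiN (P.qI (P.PiN (rhoN z))) = z := by
  obtain ⟨hM, h1, h2, h3⟩ := hz
  obtain ⟨hF, hback⟩ := rhoN_mem hM.1 h1
  have hs : fS (rhoN z) < 0 := h2
  have hF0 := ((P.mem_N hM.1 h1).1 hs).1 hM
  obtain ⟨p, hp⟩ : ∃ p, p = rhoN z := ⟨_, rfl⟩
  rw [← hp] at h3 hF hback hs hF0 ⊢
  obtain ⟨y, hy⟩ : ∃ y, y = P.toPar.yy 1 (fT p) (fU p) (fZe p) (fZ p) := ⟨_, rfl⟩
  have hnorm : nsq4 y = qsq (fZe p) (fZ p) := by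
    rw [hy]
    exact P.yy_norm 1 _ _ _ _ (P.mixq_ne zero_le_one le_rfl _ _)
  have hPi : P.PiN p = (xpt (fT p) (fU p), y.2) := by
    rw [hy]
    rfl
  have hF1 : fT p + P.toPar.psic (nsq3 y.2) * P.toPar.chiq (qsq (fZe p) (fZ p))
      * (P.hd.c (xpt (fT p) (fU p)) - fT p) - y.1 = 0 := by
    rw [hy]
    exact hF0
  have hx1 : (xpt (fT p) (fU p)).1 = fT p := rfl
  have hy4 : nsq4 y = y.1 ^ 2 + nsq3 y.2 := by
    unfold nsq4 nsq3
    ring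
  have hchi := (cut_props (P.toPar.Q ^ 2) 1 one_pos).2.2.2.1 (qsq (fZe p) (fZ p))
  have hest := P.MB_est h (xpt (fT p) (fU p)) (nsq3 y.2) (P.toPar.chiq (qsq (fZe p) (fZ p)))
    hchi.1 hchi.2 (qsq (fZe p) (fZ p)) (by
      have e1 : y.1 = fT p + P.toPar.psic (nsq3 y.2) * P.toPar.chiq (qsq (fZe p) (fZ p))
          * (P.hd.c (xpt (fT p) (fU p)) - fT p) := by linarith
      rw [hx1, ← e1, ← hy4]
      exact hnorm.symm)
  have hchat : P.chat (P.PiN p) = y.1 := by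
    rw [hPi]
    show fT p + P.toPar.psic (nsq3 y.2) * (P.hd.c (xpt (fT p) (fU p)) - fT p) = y.1
    rw [hx1] at hest
    rw [← hest]
    linarith
  have hr : P.rI (P.PiN p) = qsq (fZe p) (fZ p) := by
    unfold rI
    rw [hchat, ← hnorm, hy4, hPi]
  have hq0 : 0 < qsq (fZe p) (fZ p) := by
    unfold qsq
    rcases h3 with h3 | h3
    · have := Complex.normSq_pos.2 h3
      have := Complex.normSq_nonneg (fZ p)
      linarith
    · have := Complex.normSq_pos.2 h3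
      have := Complex.normSq_nonneg (fZe p)
      linarith
  have hsum : qsq (fZe p) (fZ p) + fS p ^ 2 = P.La ^ 2 := hF.2.2.2
  have hs2 : 0 < fS p ^ 2 := by
    have := hs.ne
    positivity
  refine ⟨⟨by rw [hr]; exact hq0, by rw [hr]; linarith⟩, ?_⟩
  have hqI : P.qI (P.PiN p) = p := by
    have hg : mixq (P.toPar.lamb (P.rI (P.PiN p))) (P.hd.g (P.PiN p).1) =
        mixq (1 * P.toPar.lamb (qsq (fZe p) (fZ p))) (P.hd.g (xpt (fT p) (fU p))) := by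
      rw [hr, hPi, one_mul]
    have hW : ((P.chat (P.PiN p), (P.PiN p).2) : V4) = qgbar (fZe p) (fZ p)
        (mixq (1 * P.toPar.lamb (qsq (fZe p) (fZ p))) (P.hd.g (xpt (fT p) (fU p)))) := by
      rw [hchat, hPi]
      show (y.1, y.2) = _
      rw [hy]
      rfl
    have hpos : 0 < nsq4 (mixq (1 * P.toPar.lamb (qsq (fZe p) (fZ p)))
        (P.hd.g (xpt (fT p) (fU p)))) := by
      rw [one_mul]
      exact P.MB_npos _ _
    have hq2 := MB_q2 _ (fZe p) (fZ p) hpos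
    obtain ⟨hh1, hh2, -⟩ := FPS_hopf hF h3
    rw [MB_qI_eq, hg, hW, hq2.1, hq2.2, hr, ← hh1, ← hh2]
    have hsq : -Real.sqrt (P.La ^ 2 - qsq (fZe p) (fZ p)) = fS p := by
      have e1 : P.La ^ 2 - qsq (fZe p) (fZ p) = (-fS p) ^ 2 := by
        rw [neg_sq]
        linarith
      rw [e1, Real.sqrt_sq (by linarith), neg_neg]
    rw [hsq, hPi]
    rfl
  rw [hqI]
  exact hback

theorem MB_forth (P : FPar) (h : P.Ok2) {v : V3 × V3}
    (hv : v ∈ {v : V3 × V3 | 0 < P.rI v ∧ P.rI v < P.La ^ 2}) :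
    psiN (P.qI v) ∈ P.toPar.M' ∩
      {z | -1 < eW1 z ∧ eS z < 0 ∧ (fZe (rhoN z) ≠ 0 ∨ fZ (rhoN z) ≠ 0)} := by
  obtain ⟨hv0, hv1⟩ := hv
  obtain ⟨hPi, hF, hq⟩ := P.PiN_qI h ⟨hv0, hv1⟩
  obtain ⟨hW, h1⟩ := psiN_mem hF
  have hs : fS (P.qI v) < 0 := by
    show -Real.sqrt (P.La ^ 2 - P.rI v) < 0
    have := Real.sqrt_pos.2 (sub_pos.2 hv1)
    linarith
  refine ⟨?_, h1, hs, ?_⟩
  · refine ((P.mem_N hW h1).1 (by rw [rhoN_psiN]; exact hs)).2 ?_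
    rw [rhoN_psiN]
    obtain ⟨hy1, hy2, hy3⟩ := P.MB_yy v
    have e1 : P.toPar.FNm 1 (fT (P.qI v)) (fU (P.qI v)) (fZe (P.qI v)) (fZ (P.qI v)) =
        v.1.1 + P.toPar.psic (nsq3 v.2) * P.toPar.chiq (P.rI v) * (P.hd.c v.1 - v.1.1) -
          P.chat v := by
      unfold Par.FNm
      simp only [hy1, hy2, hy3]
      rfl
    rw [e1]
    have hest := P.MB_est h v.1 (nsq3 v.2) 1 zero_le_one le_rfl (P.rI v) (by
      unfold rI chat
      rw [mul_one])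
    rw [hest]
    unfold chat
    ring
  · rw [rhoN_psiN]
    by_contra hcon
    push Not at hcon
    rw [hcon.1, hcon.2] at hq
    unfold qsq at hq
    rw [map_zero, add_zero] at hq
    exact hv0.ne' hq.symm

theorem chart_I (P : FPar) (h : P.Ok2) :
    IsChart P.toPar.M' {z | -1 < eW1 z ∧ eS z < 0 ∧ (fZe (rhoN z) ≠ 0 ∨ fZ (rhoN z) ≠ 0)}
      {v : V3 × V3 | 0 < P.rI v ∧ P.rI v < P.La ^ 2} (fun z => P.PiN (rhoN z))
      (fun v => psiN (P.qI v)) where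
  isOpen_U := by
    have h1 : IsOpen ({z : EA | -1 < eW1 z} ∩ rhoN ⁻¹' {p : FP | fZe p ≠ 0 ∨ fZ p ≠ 0}) := by
      apply contDiffOn_rhoN.continuousOn.isOpen_inter_preimage
        (isOpen_lt continuous_const WB_cont_W1)
      have c1 : Continuous (fun p : FP => fZe p) := pZe.continuous
      have c2 : Continuous (fun p : FP => fZ p) := pZ.continuous
      exact (isOpen_ne_fun c1 continuous_const).union (isOpen_ne_fun c2 continuous_const)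
    have h2 : IsOpen {z : EA | eS z < 0} :=
      isOpen_lt (continuous_fst.comp (continuous_snd.comp (continuous_snd.comp continuous_snd)))
        continuous_const
    have h3 : {z : EA | -1 < eW1 z ∧ eS z < 0 ∧ (fZe (rhoN z) ≠ 0 ∨ fZ (rhoN z) ≠ 0)} =
        ({z : EA | -1 < eW1 z} ∩ rhoN ⁻¹' {p : FP | fZe p ≠ 0 ∨ fZ p ≠ 0}) ∩
          {z : EA | eS z < 0} := by
      ext z
      constructor
      · rintro ⟨a, b, c⟩
        exact ⟨⟨a, c⟩, b⟩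
      · rintro ⟨⟨a, c⟩, b⟩
        exact ⟨a, b, c⟩
    rw [h3]
    exact h1.inter h2
  isOpen_V := (isOpen_lt continuous_const P.MB_cd_rI.continuous).inter
    (isOpen_lt P.MB_cd_rI.continuous continuous_const)
  smooth_ρ := (P.contDiff_PiN h).comp_contDiffOn (contDiffOn_rhoN.mono (fun z hz => hz.1))
  smooth_ψ := contDiff_psiN.comp_contDiffOn P.MB_cd_qI
  maps_ρ := fun z hz => (P.MB_back h hz).1
  maps_ψ := fun v hv => P.MB_forth h hv
  left_inv := fun z hz => (P.MB_back h hz).2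
  right_inv := fun v hv => by
    show P.PiN (rhoN (psiN (P.qI v))) = v
    rw [rhoN_psiN]
    exact (P.PiN_qI h hv).1

end FPar

end

end Pool.Agent.H34.SY
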