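import Pool.Agent.H34.SY.MA

/-!
# Row MC: the form `dd l6` on `V3 × V3`

`lX` has constant `dd`: `dd lX (a, a')(b, b') = (a₂b₃ - a₃b₂) + (a₁ b'₁ - b₁ a'₁) - (a'₂ b'₃ - a'₃ b'₂)`
(`a, b` the `x`-parts, primes the `y`-parts): `dx₂∧dx₃ + dx₁∧dy₁ - dy₂∧dy₃`.

(1) `l6 = shear^* lX + psi2(|y|²) γ(x)·dx`, `dd l6 = pb2 shear (dd lX) + dd(second)`.
(2) Where `psi2(|y|²) γ(x) = 0` near the point (or at points where only the first term counts): nondegenerate, because the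
  derivative of `shear` is invertible: `shear (x,y) = (x + psh (0,-y₃,y₂), y)`, its derivative in `(x', y')` is
  `(x' + dpsh(x',y') (0,-y₃,y₂) + psh (0,-y₃',y₂'), y')`; injective since `y' = 0` forces `x' = -dpsh(x',0) (0,-y₃,y₂)`, so
  `x'` is a multiple `c (0,-y₃,y₂)` with `c (1 + dpsh((0,-y₃,y₂),0)) = 0`, and
  `|dpsh((0,-y₃,y₂),0)| = |2 cut'(|u|²) cut(..) (u·(-y₃,y₂))| ≤ 2 |cut'| √(|u|²) √(y₂²+y₃²) < 1` by `slope2` (where the
  second factor of `psh` is nonzero `|y|² ≤ B² + T2 + 2`); and `dd lX` is nondegenerate.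
(3) On `{|x| ≤ B.., |y|² ≤ 1 + T2}` (an open neighbourhood of the support of `psi2 γ`): there `psh = 1` near the point
  (`|u|² < B²`.. : on the support of `γ`, `|x|² < B²` or `γ = 0` near; precisely `γ(x) ≠ 0` implies `|x|² < B²`, hence
  `cut(B²)(Ta)(|u|²) = 1` near, and `x₁² + |y|² < B² + T2 + 1` implies the second factor `= 1` near; `psi2 ≠ 0` or its
  derivative `≠ 0` implies `|y|² ≤ 1 + T2`).  With `psh = 1`: `pb2 shear (dd lX) = Σ dx_i∧dy_i + dx₂∧dx₃`.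
  So there `dd l6 (a,a')(b,b') = (a·b' - b·a') + V̂·(a × b) + (∇psi2·a')(γ·b) - (∇psi2·b')(γ·a)`, with
  `V̂ = e₁ + psi2 curl γ`, `∇psi2 = 2 psi2'(|y|²) y`: the mixed block is `a·b' - (∇psi2·b')(γ·a)`, i.e. the bilinear form with
  matrix `1 - γ ⊗ ∇psi2`, invertible since `|∇psi2·γ| < 1` (`slope1`, Cauchy-Schwarz).  Given `(a,a') ≠ 0`: if `a ≠ 0` take
  `(0, b')` with `a·b' - (∇psi2·b')(γ·a) ≠ 0` (possible: the vector `a - (γ·a)∇psi2 ≠ 0`, else `a = (γ·a)∇psi2`, so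
  `γ·a = (γ·a)(γ·∇psi2)`, `γ·a = 0`, `a = 0`); if `a = 0`, `a' ≠ 0`: `(b, 0)` with `- b·a' + (∇psi2·a')(γ·b) ≠ 0` (same).
(4) `dd_l6_zero`: the value at `y = 0`: `psi2 = 1` near, `psh(x, y)` is constant in `y` to first order? not needed: the shear
  term is `psh·(0,-y₃,y₂)`, whose derivative at `y = 0` is `psh(x,0) (0,-y₃',y₂')`.
-/

open Set Topology
open scoped ContDiff ComplexConjugate

namespace Pool.Agent.H34.SY

noncomputable section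

namespace FPar

/-- `lX` as a linear map. -/
def MC_L : V3 × V3 →L[ℝ] (V3 × V3 →L[ℝ] ℝ) :=
  (1 / 2 : ℝ) • ((cX 1).smulRight (cX 2) - (cX 2).smulRight (cX 1) + (cX 0).smulRight (cY 0)
    - (cY 0).smulRight (cX 0) - (cY 1).smulRight (cY 2) + (cY 2).smulRight (cY 1))

theorem MC_lX : lX = fun p => MC_L p := by
  funext p
  rfl

theorem MC_lX_smooth : ContDiff ℝ ∞ lX := by
  rw [MC_lX]
  exact MC_L.contDiff

theorem dd_lX (p a b : V3 × V3) :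
    dd lX p a b = (a.1.2.1 * b.1.2.2 - a.1.2.2 * b.1.2.1) + (a.1.1 * b.2.1 - b.1.1 * a.2.1)
      - (a.2.2.1 * b.2.2.2 - a.2.2.2 * b.2.2.1) := by
  have h : fderiv ℝ lX p = MC_L := by
    rw [MC_lX]
    exact MC_L.fderiv
  rw [dd_apply, h]
  show (1 / 2 : ℝ) * (a.1.2.1 * b.1.2.2 - a.1.2.2 * b.1.2.1 + a.1.1 * b.2.1
    - a.2.1 * b.1.1 - a.2.2.1 * b.2.2.2 + a.2.2.2 * b.2.2.1) -
    (1 / 2 : ℝ) * (b.1.2.1 * a.1.2.2 - b.1.2.2 * a.1.2.1 + b.1.1 * a.2.1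
    - b.2.1 * a.1.1 - b.2.2.1 * a.2.2.2 + b.2.2.2 * a.2.2.1) = _
  ring

theorem MC_q1 (v : V3 × V3) : HasFDerivAt (fun p : V3 × V3 => p.1.2.1 ^ 2 + p.1.2.2 ^ 2)
    ((2 * v.1.2.1) • cX 1 + (2 * v.1.2.2) • cX 2) v := by
  have h1 := ((cX 1).hasFDerivAt (x := v)).pow 2
  have h2 := ((cX 2).hasFDerivAt (x := v)).pow 2
  refine (h1.add h2).congr_fderiv ?_
  ext <;> simp [cX]

theorem MC_q3 (v : V3 × V3) : HasFDerivAt (fun p : V3 × V3 => nsq3 p.2)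
    ((2 * v.2.1) • cY 0 + (2 * v.2.2.1) • cY 1 + (2 * v.2.2.2) • cY 2) v := by
  have h1 := ((cY 0).hasFDerivAt (x := v)).pow 2
  have h2 := ((cY 1).hasFDerivAt (x := v)).pow 2
  have h3 := ((cY 2).hasFDerivAt (x := v)).pow 2
  refine ((h1.add h2).add h3).congr_fderiv ?_
  ext <;> simp [cY]

theorem MC_q2 (v : V3 × V3) : HasFDerivAt (fun p : V3 × V3 => p.1.1 ^ 2 + nsq3 p.2)
    ((2 * v.1.1) • cX 0 + ((2 * v.2.1) • cY 0 + (2 * v.2.2.1) • cY 1 + (2 * v.2.2.2) • cY 2)) v := by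
  have h1 := ((cX 0).hasFDerivAt (x := v)).pow 2
  refine (h1.add (MC_q3 v)).congr_fderiv ?_
  ext <;> simp [cX]

theorem MC_s1 : ContDiff ℝ ∞ (fun p : V3 × V3 => p.1.2.1 ^ 2 + p.1.2.2 ^ 2) :=
  ((cX 1).contDiff.pow 2).add ((cX 2).contDiff.pow 2)

theorem MC_s3 : ContDiff ℝ ∞ (fun p : V3 × V3 => nsq3 p.2) :=
  (((cY 0).contDiff.pow 2).add ((cY 1).contDiff.pow 2)).add ((cY 2).contDiff.pow 2)

theorem MC_s2 : ContDiff ℝ ∞ (fun p : V3 × V3 => p.1.1 ^ 2 + nsq3 p.2) :=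
  ((cX 0).contDiff.pow 2).add MC_s3

/-- `psh` as a function on `V3 × V3`. -/
def MC_ps (P : FPar) (p : V3 × V3) : ℝ := P.psh p.1 p.2

theorem MC_ps_smooth (P : FPar) : ContDiff ℝ ∞ P.MC_ps :=
  ((SB_cut_smooth (P.hd.B ^ 2) P.Ta).comp MC_s1).mul
    ((SB_cut_smooth (P.hd.B ^ 2 + P.T2 + 1) 1).comp MC_s2)

theorem MC_cut (a T s : ℝ) : HasDerivAt (cut a T) (deriv (cut a T) s) s :=
  (SB_cut_has a T s).differentiableAt.hasDerivAt

theorem MC_ps_fd (P : FPar) (v : V3 × V3) : HasFDerivAt P.MC_ps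
    (cut (P.hd.B ^ 2) P.Ta (v.1.2.1 ^ 2 + v.1.2.2 ^ 2) •
      (deriv (cut (P.hd.B ^ 2 + P.T2 + 1) 1) (v.1.1 ^ 2 + nsq3 v.2) • ((2 * v.1.1) • cX 0 +
        ((2 * v.2.1) • cY 0 + (2 * v.2.2.1) • cY 1 + (2 * v.2.2.2) • cY 2))) +
      cut (P.hd.B ^ 2 + P.T2 + 1) 1 (v.1.1 ^ 2 + nsq3 v.2) •
        (deriv (cut (P.hd.B ^ 2) P.Ta) (v.1.2.1 ^ 2 + v.1.2.2 ^ 2) •
          ((2 * v.1.2.1) • cX 1 + (2 * v.1.2.2) • cX 2))) v := by
  have h1 := (MC_cut (P.hd.B ^ 2) P.Ta (v.1.2.1 ^ 2 + v.1.2.2 ^ 2)).comp_hasFDerivAt v (MC_q1 v)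
  have h2 := (MC_cut (P.hd.B ^ 2 + P.T2 + 1) 1 (v.1.1 ^ 2 + nsq3 v.2)).comp_hasFDerivAt v (MC_q2 v)
  exact h1.mul h2

/-- the derivative of `shear`. -/
theorem MC_shear_fd (P : FPar) (v : V3 × V3) : HasFDerivAt P.shear
    (((cX 0).prod ((cX 1 - (P.MC_ps v • cY 2 + v.2.2.2 • fderiv ℝ P.MC_ps v)).prod
      (cX 2 + (P.MC_ps v • cY 1 + v.2.2.1 • fderiv ℝ P.MC_ps v)))).prod
        (ContinuousLinearMap.snd ℝ V3 V3)) v := by
  have hp : HasFDerivAt P.MC_ps (fderiv ℝ P.MC_ps v) v :=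
    (P.MC_ps_smooth.differentiable (by norm_num) v).hasFDerivAt
  have h1 := ((cX 1).hasFDerivAt (x := v)).sub (hp.mul ((cY 2).hasFDerivAt (x := v)))
  have h2 := ((cX 2).hasFDerivAt (x := v)).add (hp.mul ((cY 1).hasFDerivAt (x := v)))
  exact (((cX 0).hasFDerivAt (x := v)).prodMk (h1.prodMk h2)).prodMk
    ((ContinuousLinearMap.snd ℝ V3 V3).hasFDerivAt (x := v))

theorem MC_S (P : FPar) (v a : V3 × V3) : fderiv ℝ P.shear v a =
    ((a.1.1, a.1.2.1 - (P.MC_ps v * a.2.2.2 + v.2.2.2 * fderiv ℝ P.MC_ps v a),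
      a.1.2.2 + (P.MC_ps v * a.2.2.1 + v.2.2.1 * fderiv ℝ P.MC_ps v a)), a.2) := by
  rw [(P.MC_shear_fd v).fderiv]
  rfl

theorem MC_shear_smooth (P : FPar) : ContDiff ℝ ∞ P.shear := by
  have hp := P.MC_ps_smooth
  have h1 : ContDiff ℝ ∞ (fun p : V3 × V3 => p.1.2.1 - P.MC_ps p * p.2.2.2) :=
    (cX 1).contDiff.sub (hp.mul (cY 2).contDiff)
  have h2 : ContDiff ℝ ∞ (fun p : V3 × V3 => p.1.2.2 + P.MC_ps p * p.2.2.1) :=
    (cX 2).contDiff.add (hp.mul (cY 1).contDiff)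
  exact ((cX 0).contDiff.prodMk (h1.prodMk h2)).prodMk contDiff_snd

/-- the second form. -/
def MC_G (P : FPar) : Form1 (V3 × V3) := fun p =>
  (P.hd.ga p.1).1 • cX 0 + (P.hd.ga p.1).2.1 • cX 1 + (P.hd.ga p.1).2.2 • cX 2

theorem MC_ga_fd (P : FPar) (v : V3 × V3) : HasFDerivAt (fun p : V3 × V3 => P.hd.ga p.1)
    ((fderiv ℝ P.hd.ga v.1).comp (ContinuousLinearMap.fst ℝ V3 V3)) v :=
  ((P.hd.ga_smooth.differentiable (by norm_num) v.1).hasFDerivAt).comp v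
    ((ContinuousLinearMap.fst ℝ V3 V3).hasFDerivAt (x := v))

theorem MC_ga_smooth (P : FPar) : ContDiff ℝ ∞ (fun p : V3 × V3 => P.hd.ga p.1) :=
  P.hd.ga_smooth.comp contDiff_fst

theorem MC_g1 (P : FPar) : ContDiff ℝ ∞ (fun p : V3 × V3 => (P.hd.ga p.1).1) :=
  contDiff_fst.comp P.MC_ga_smooth
theorem MC_g2 (P : FPar) : ContDiff ℝ ∞ (fun p : V3 × V3 => (P.hd.ga p.1).2.1) :=
  contDiff_fst.comp (contDiff_snd.comp P.MC_ga_smooth)
theorem MC_g3 (P : FPar) : ContDiff ℝ ∞ (fun p : V3 × V3 => (P.hd.ga p.1).2.2) :=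
  contDiff_snd.comp (contDiff_snd.comp P.MC_ga_smooth)

theorem MC_G_smooth (P : FPar) : ContDiff ℝ ∞ P.MC_G :=
  ((P.MC_g1.smul contDiff_const).add (P.MC_g2.smul contDiff_const)).add
    (P.MC_g3.smul contDiff_const)

theorem MC_psi_smooth (P : FPar) : ContDiff ℝ ∞ (fun p : V3 × V3 => P.psi2 (nsq3 p.2)) :=
  (SB_cut_smooth 1 P.T2).comp MC_s3

theorem MC_l6 (P : FPar) : P.l6 = fun p => pb1 P.shear lX p + P.psi2 (nsq3 p.2) • P.MC_G p := rfl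

theorem MC_pb_smooth (P : FPar) : ContDiff ℝ ∞ (pb1 P.shear lX) := by
  have h := contDiffOn_pb1 isOpen_univ P.MC_shear_smooth.contDiffOn
    (MC_lX_smooth.contDiffOn (s := Set.univ)) (Set.mapsTo_univ _ _)
  exact contDiffOn_univ.1 h

theorem contDiff_l6 (P : FPar) (hT2 : 0 < P.T2) (hTa : 0 < P.Ta) : ContDiff ℝ ∞ P.l6 := by
  rw [P.MC_l6]
  exact P.MC_pb_smooth.add (P.MC_psi_smooth.smul P.MC_G_smooth)

/-- `dd` of a function times a constant form. -/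
theorem MC_dd1 {f : V3 × V3 → ℝ} {f' : V3 × V3 →L[ℝ] ℝ} {v : V3 × V3} (hf : HasFDerivAt f f' v)
    (c : V3 × V3 →L[ℝ] ℝ) (a b : V3 × V3) :
    dd (fun p => f p • c) v a b = f' a * c b - c a * f' b := by
  rw [dd_smul hf.differentiableAt (differentiableAt_const c), dd_const]
  show wdg (fderiv ℝ f v) c a b + f v * (0 : ℝ) = _
  rw [mul_zero, add_zero, wdg_apply, hf.fderiv]

theorem MC_ddG (P : FPar) (v a b : V3 × V3) :
    dd P.MC_G v a b = dot3 (curl3 P.hd.ga v.1) (cross3 a.1 b.1) := by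
  have e1 : HasFDerivAt (fun p : V3 × V3 => (P.hd.ga p.1).1)
      ((ContinuousLinearMap.fst ℝ ℝ (ℝ × ℝ)).comp
        ((fderiv ℝ P.hd.ga v.1).comp (ContinuousLinearMap.fst ℝ V3 V3))) v :=
    (ContinuousLinearMap.fst ℝ ℝ (ℝ × ℝ)).hasFDerivAt.comp v (P.MC_ga_fd v)
  have e2 : HasFDerivAt (fun p : V3 × V3 => (P.hd.ga p.1).2.1)
      (((ContinuousLinearMap.fst ℝ ℝ ℝ).comp (ContinuousLinearMap.snd ℝ ℝ (ℝ × ℝ))).comp
        ((fderiv ℝ P.hd.ga v.1).comp (ContinuousLinearMap.fst ℝ V3 V3))) v :=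
    ((ContinuousLinearMap.fst ℝ ℝ ℝ).comp (ContinuousLinearMap.snd ℝ ℝ (ℝ × ℝ))).hasFDerivAt.comp v
      (P.MC_ga_fd v)
  have e3 : HasFDerivAt (fun p : V3 × V3 => (P.hd.ga p.1).2.2)
      (((ContinuousLinearMap.snd ℝ ℝ ℝ).comp (ContinuousLinearMap.snd ℝ ℝ (ℝ × ℝ))).comp
        ((fderiv ℝ P.hd.ga v.1).comp (ContinuousLinearMap.fst ℝ V3 V3))) v :=
    ((ContinuousLinearMap.snd ℝ ℝ ℝ).comp (ContinuousLinearMap.snd ℝ ℝ (ℝ × ℝ))).hasFDerivAt.comp v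
      (P.MC_ga_fd v)
  have d1 : DifferentiableAt ℝ (fun p : V3 × V3 => (P.hd.ga p.1).1 • cX 0) v :=
    e1.differentiableAt.smul (differentiableAt_const _)
  have d2 : DifferentiableAt ℝ (fun p : V3 × V3 => (P.hd.ga p.1).2.1 • cX 1) v :=
    e2.differentiableAt.smul (differentiableAt_const _)
  have d3 : DifferentiableAt ℝ (fun p : V3 × V3 => (P.hd.ga p.1).2.2 • cX 2) v :=
    e3.differentiableAt.smul (differentiableAt_const _)
  have h : dd P.MC_G v = dd (fun p => (P.hd.ga p.1).1 • cX 0) v +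
      dd (fun p => (P.hd.ga p.1).2.1 • cX 1) v + dd (fun p => (P.hd.ga p.1).2.2 • cX 2) v := by
    have g1 := dd_add (l := fun q : V3 × V3 => (P.hd.ga q.1).1 • cX 0 + (P.hd.ga q.1).2.1 • cX 1)
      (m := fun p : V3 × V3 => (P.hd.ga p.1).2.2 • cX 2) (z := v) (d1.add d2) d3
    have g2 := dd_add (l := fun q : V3 × V3 => (P.hd.ga q.1).1 • cX 0)
      (m := fun q : V3 × V3 => (P.hd.ga q.1).2.1 • cX 1) (z := v) d1 d2
    rw [← g2, ← g1]
    rfl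
  rw [h]
  show dd (fun p => (P.hd.ga p.1).1 • cX 0) v a b +
      dd (fun p => (P.hd.ga p.1).2.1 • cX 1) v a b + dd (fun p => (P.hd.ga p.1).2.2 • cX 2) v a b = _
  rw [MC_dd1 e1, MC_dd1 e2, MC_dd1 e3]
  have hx : ∀ w : V3, fderiv ℝ P.hd.ga v.1 w = w.1 • fderiv ℝ P.hd.ga v.1 (1, 0, 0) +
      w.2.1 • fderiv ℝ P.hd.ga v.1 (0, 1, 0) + w.2.2 • fderiv ℝ P.hd.ga v.1 (0, 0, 1) := by
    intro w
    rw [← map_smul, ← map_smul, ← map_smul, ← map_add, ← map_add]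
    congr 1
    ext <;> simp
  show (fderiv ℝ P.hd.ga v.1 a.1).1 * b.1.1 - a.1.1 * (fderiv ℝ P.hd.ga v.1 b.1).1 +
    ((fderiv ℝ P.hd.ga v.1 a.1).2.1 * b.1.2.1 - a.1.2.1 * (fderiv ℝ P.hd.ga v.1 b.1).2.1) +
    ((fderiv ℝ P.hd.ga v.1 a.1).2.2 * b.1.2.2 - a.1.2.2 * (fderiv ℝ P.hd.ga v.1 b.1).2.2) = _
  rw [hx a.1, hx b.1]
  simp only [Prod.fst_add, Prod.snd_add, Prod.smul_fst, Prod.smul_snd, smul_eq_mul, dot3, curl3,
    cross3]
  ring

/-- the form `dd l6`. -/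
theorem MC_dd (P : FPar) (v a b : V3 × V3) : dd P.l6 v a b =
    dd lX (P.shear v) (fderiv ℝ P.shear v a) (fderiv ℝ P.shear v b) +
    (deriv P.psi2 (nsq3 v.2) * (2 * dot3 v.2 a.2) * dot3 (P.hd.ga v.1) b.1 -
      dot3 (P.hd.ga v.1) a.1 * (deriv P.psi2 (nsq3 v.2) * (2 * dot3 v.2 b.2)) +
      P.psi2 (nsq3 v.2) * dot3 (curl3 P.hd.ga v.1) (cross3 a.1 b.1)) := by
  have hs2 : ContDiffAt ℝ 2 P.shear v := P.MC_shear_smooth.contDiffAt.of_le CC_two_le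
  have hf : HasFDerivAt (fun p : V3 × V3 => P.psi2 (nsq3 p.2))
      (deriv P.psi2 (nsq3 v.2) •
        ((2 * v.2.1) • cY 0 + (2 * v.2.2.1) • cY 1 + (2 * v.2.2.2) • cY 2)) v :=
    (MC_cut 1 P.T2 (nsq3 v.2)).comp_hasFDerivAt v (MC_q3 v)
  have hG : DifferentiableAt ℝ P.MC_G v := P.MC_G_smooth.differentiable (by norm_num) v
  have hb : DifferentiableAt ℝ (pb1 P.shear lX) v := P.MC_pb_smooth.differentiable (by norm_num) v
  have hx : DifferentiableAt ℝ lX (P.shear v) := MC_lX_smooth.differentiable (by norm_num) _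
  rw [P.MC_l6, dd_add (m := fun p : V3 × V3 => P.psi2 (nsq3 p.2) • P.MC_G p) hb
    (hf.differentiableAt.smul hG), dd_pb1 hs2 hx]
  show pb2 P.shear (dd lX) v a b + dd (fun y : V3 × V3 => P.psi2 (nsq3 y.2) • P.MC_G y) v a b = _
  rw [dd_smul hf.differentiableAt hG, hf.fderiv]
  show pb2 P.shear (dd lX) v a b + (wdg _ (P.MC_G v) a b + P.psi2 (nsq3 v.2) * dd P.MC_G v a b) = _
  rw [wdg_apply, MC_ddG, pb2_apply]
  have h1 : ∀ w : V3 × V3, P.MC_G v w = dot3 (P.hd.ga v.1) w.1 := fun w => rfl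
  have h2 : ∀ w : V3 × V3, (deriv P.psi2 (nsq3 v.2) •
        ((2 * v.2.1) • cY 0 + (2 * v.2.2.1) • cY 1 + (2 * v.2.2.2) • cY 2)) w =
        deriv P.psi2 (nsq3 v.2) * (2 * dot3 v.2 w.2) := by
    intro w
    show deriv P.psi2 (nsq3 v.2) * ((2 * v.2.1) * w.2.1 + (2 * v.2.2.1) * w.2.2.1 +
      (2 * v.2.2.2) * w.2.2.2) = _
    unfold dot3
    ring
  rw [h1, h1, h2, h2]

theorem MC_nsq_nonneg (x : V3) : 0 ≤ nsq3 x := by
  unfold nsq3; positivity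

theorem MC_nsq_pos {x : V3} (hx : x ≠ 0) : 0 < nsq3 x := by
  rcases (MC_nsq_nonneg x).lt_or_eq with h | h
  · exact h
  · exfalso
    apply hx
    unfold nsq3 at h
    have h1 : x.1 = 0 := by nlinarith [sq_nonneg x.1, sq_nonneg x.2.1, sq_nonneg x.2.2]
    have h2 : x.2.1 = 0 := by nlinarith [sq_nonneg x.1, sq_nonneg x.2.1, sq_nonneg x.2.2]
    have h3 : x.2.2 = 0 := by nlinarith [sq_nonneg x.1, sq_nonneg x.2.1, sq_nonneg x.2.2]
    exact Prod.ext h1 (Prod.ext h2 h3)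

theorem MC_cs (x y : V3) : dot3 x y ^ 2 ≤ nsq3 x * nsq3 y := by
  unfold dot3 nsq3
  nlinarith [sq_nonneg (x.1 * y.2.1 - x.2.1 * y.1), sq_nonneg (x.1 * y.2.2 - x.2.2 * y.1),
    sq_nonneg (x.2.1 * y.2.2 - x.2.2 * y.2.1)]

/-- nondegeneracy of the constant form. -/
theorem MC_lX_nd (p a : V3 × V3) (ha : a ≠ 0) : ∃ b, dd lX p a b ≠ 0 := by
  refine ⟨((-a.2.1, -a.1.2.2, a.1.2.1), (a.1.1, a.2.2.2, -a.2.2.1)), ?_⟩
  rw [dd_lX]
  have h : 0 < nsq3 a.1 + nsq3 a.2 := by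
    by_cases h1 : a.1 = 0
    · have h2 : a.2 ≠ 0 := fun h2 => ha (Prod.ext h1 h2)
      have := MC_nsq_pos h2
      have := MC_nsq_nonneg a.1
      linarith
    · have := MC_nsq_pos h1
      have := MC_nsq_nonneg a.2
      linarith
  unfold nsq3 at h
  simp only
  nlinarith

/-- Outside the core the form is the pull-back of the constant form by `shear`. -/
theorem MC_case1 (P : FPar) (h : P.Ok2) (v : V3 × V3) (a : V3 × V3) (ha : a ≠ 0) :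
    ∃ b, dd lX (P.shear v) (fderiv ℝ P.shear v a) (fderiv ℝ P.shear v b) ≠ 0 := by
  have hinj : ∀ a : V3 × V3, fderiv ℝ P.shear v a = 0 → a = 0 := by
    intro a h0
    rw [P.MC_S] at h0
    have h2 : a.2 = 0 := congrArg Prod.snd h0
    have h1 := congrArg Prod.fst h0
    have k1 : a.1.1 = 0 := congrArg Prod.fst h1
    have k2 : a.1.2.1 - (P.MC_ps v * a.2.2.2 + v.2.2.2 * fderiv ℝ P.MC_ps v a) = 0 :=
      congrArg (fun x : V3 => x.2.1) h1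
    have k3 : a.1.2.2 + (P.MC_ps v * a.2.2.1 + v.2.2.1 * fderiv ℝ P.MC_ps v a) = 0 :=
      congrArg (fun x : V3 => x.2.2) h1
    have e1 : a.2.2.1 = 0 := by rw [h2]; rfl
    have e2 : a.2.2.2 = 0 := by rw [h2]; rfl
    have e0 : a.2.1 = 0 := by rw [h2]; rfl
    obtain ⟨δ, hδ⟩ : ∃ δ, δ = fderiv ℝ P.MC_ps v a := ⟨_, rfl⟩
    rw [← hδ] at k2 k3
    rw [e2, mul_zero, zero_add] at k2
    rw [e1, mul_zero, zero_add] at k3
    have k2' : a.1.2.1 = v.2.2.2 * δ := by linarith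
    have k3' : a.1.2.2 = -(v.2.2.1 * δ) := by linarith
    set cA := cut (P.hd.B ^ 2) P.Ta (v.1.2.1 ^ 2 + v.1.2.2 ^ 2) with hcA
    set cB := cut (P.hd.B ^ 2 + P.T2 + 1) 1 (v.1.1 ^ 2 + nsq3 v.2) with hcB
    set dA := deriv (cut (P.hd.B ^ 2) P.Ta) (v.1.2.1 ^ 2 + v.1.2.2 ^ 2) with hdA
    set dB := deriv (cut (P.hd.B ^ 2 + P.T2 + 1) 1) (v.1.1 ^ 2 + nsq3 v.2) with hdB
    have hd : δ = cA * (dB * ((2 * v.1.1) * a.1.1 + ((2 * v.2.1) * a.2.1 + (2 * v.2.2.1) * a.2.2.1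
        + (2 * v.2.2.2) * a.2.2.2))) +
        cB * (dA * ((2 * v.1.2.1) * a.1.2.1 + (2 * v.1.2.2) * a.1.2.2)) := by
      rw [hδ, (P.MC_ps_fd v).fderiv]
      rfl
    rw [k1, e0, e1, e2, k2', k3'] at hd
    have hd' : δ * (1 - 2 * cB * dA * (v.1.2.1 * v.2.2.2 - v.1.2.2 * v.2.2.1)) = 0 := by
      linear_combination hd
    have hD : (2 * cB * dA * (v.1.2.1 * v.2.2.2 - v.1.2.2 * v.2.2.1)) ^ 2 < 1 := by
      by_cases hB : P.hd.B ^ 2 + P.T2 + 1 + 1 ≤ v.1.1 ^ 2 + nsq3 v.2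
      · have := (cut_props (P.hd.B ^ 2 + P.T2 + 1) 1 one_pos).2.2.1 _ hB
        rw [← hcB] at this
        rw [this]
        norm_num
      · push Not at hB
        have h3 := h.slope2 (v.1.2.1 ^ 2 + v.1.2.2 ^ 2) (by positivity)
        rw [← hdA] at h3
        obtain ⟨h4, h5⟩ := (cut_props (P.hd.B ^ 2 + P.T2 + 1) 1 one_pos).2.2.2.1
          (v.1.1 ^ 2 + nsq3 v.2)
        rw [← hcB] at h4 h5
        have h6 : v.2.2.1 ^ 2 + v.2.2.2 ^ 2 ≤ P.hd.B ^ 2 + P.T2 + 2 := by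
          unfold nsq3 at hB
          nlinarith [sq_nonneg v.1.1, sq_nonneg v.2.1]
        have h7 : (v.1.2.1 * v.2.2.2 - v.1.2.2 * v.2.2.1) ^ 2 ≤
            (v.1.2.1 ^ 2 + v.1.2.2 ^ 2) * (v.2.2.1 ^ 2 + v.2.2.2 ^ 2) := by
          nlinarith [sq_nonneg (v.1.2.1 * v.2.2.1 + v.1.2.2 * v.2.2.2)]
        have h8 : (v.1.2.1 * v.2.2.2 - v.1.2.2 * v.2.2.1) ^ 2 ≤
            (v.1.2.1 ^ 2 + v.1.2.2 ^ 2) * (P.hd.B ^ 2 + P.T2 + 2) :=
          h7.trans (mul_le_mul_of_nonneg_left h6 (by positivity))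
        have h9 : cB ^ 2 ≤ 1 := by nlinarith
        have h10 : (2 * cB * dA * (v.1.2.1 * v.2.2.2 - v.1.2.2 * v.2.2.1)) ^ 2 =
            cB ^ 2 * (4 * dA ^ 2 * (v.1.2.1 * v.2.2.2 - v.1.2.2 * v.2.2.1) ^ 2) := by ring
        have h11 : 4 * dA ^ 2 * (v.1.2.1 * v.2.2.2 - v.1.2.2 * v.2.2.1) ^ 2 ≤
            4 * dA ^ 2 * ((v.1.2.1 ^ 2 + v.1.2.2 ^ 2) * (P.hd.B ^ 2 + P.T2 + 2)) :=
          mul_le_mul_of_nonneg_left h8 (by positivity)
        have h12 : 0 ≤ 4 * dA ^ 2 * (v.1.2.1 * v.2.2.2 - v.1.2.2 * v.2.2.1) ^ 2 := by positivity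
        rw [h10]
        calc cB ^ 2 * (4 * dA ^ 2 * (v.1.2.1 * v.2.2.2 - v.1.2.2 * v.2.2.1) ^ 2)
            ≤ 1 * (4 * dA ^ 2 * (v.1.2.1 * v.2.2.2 - v.1.2.2 * v.2.2.1) ^ 2) :=
              mul_le_mul_of_nonneg_right h9 h12
          _ < 1 := by
              rw [one_mul]
              refine h11.trans_lt ?_
              have : 4 * dA ^ 2 * ((v.1.2.1 ^ 2 + v.1.2.2 ^ 2) * (P.hd.B ^ 2 + P.T2 + 2)) =
                4 * dA ^ 2 * (v.1.2.1 ^ 2 + v.1.2.2 ^ 2) * (P.hd.B ^ 2 + P.T2 + 2) := by ring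
              rw [this]
              exact h3
    have hδ0 : δ = 0 := by
      rcases mul_eq_zero.1 hd' with h4 | h4
      · exact h4
      · exfalso
        have h5 : 2 * cB * dA * (v.1.2.1 * v.2.2.2 - v.1.2.2 * v.2.2.1) = 1 := by linarith
        rw [h5] at hD
        norm_num at hD
    rw [hδ0, mul_zero] at k2'
    rw [hδ0, mul_zero, neg_zero] at k3'
    exact Prod.ext (Prod.ext k1 (Prod.ext k2' k3')) h2
  have hI : Function.Injective (fderiv ℝ P.shear v : V3 × V3 →ₗ[ℝ] V3 × V3) := by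
    rw [injective_iff_map_eq_zero]
    exact hinj
  have hS : Function.Surjective (fderiv ℝ P.shear v : V3 × V3 →ₗ[ℝ] V3 × V3) :=
    LinearMap.injective_iff_surjective.1 hI
  obtain ⟨b', hb'⟩ := MC_lX_nd (P.shear v) (fderiv ℝ P.shear v a) (fun h0 => ha (hinj a h0))
  obtain ⟨b, hb⟩ := hS b'
  refine ⟨b, ?_⟩
  have hb2 : fderiv ℝ P.shear v b = b' := hb
  rw [hb2]
  exact hb'

theorem MC_psi_zero (P : FPar) (hT2 : 0 < P.T2) {s : ℝ} (hs : 1 + P.T2 ≤ s) :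
    P.psi2 s = 0 ∧ deriv P.psi2 s = 0 := by
  refine ⟨(cut_props 1 P.T2 hT2).2.2.1 s hs, ?_⟩
  have h1 : deriv P.psi2 s = -(deriv Real.smoothTransition ((s - 1) / P.T2) / P.T2) :=
    (SB_cut_has 1 P.T2 s).deriv
  rw [h1, SB_st_z1 ((le_div_iff₀ hT2).2 (by linarith)), zero_div, neg_zero]

theorem MC_nsq_cont : Continuous nsq3 := by
  unfold nsq3
  fun_prop

theorem MC_ga_zero (P : FPar) {x : V3} (hx : P.hd.B ^ 2 ≤ nsq3 x) :
    P.hd.ga x = 0 ∧ fderiv ℝ P.hd.ga x = 0 := by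
  refine ⟨P.hd.ga_far x hx, ?_⟩
  have hB : 0 < P.hd.B := by linarith [P.hd.hL, P.hd.hLB]
  have hc : Continuous (fderiv ℝ P.hd.ga) := P.hd.ga_smooth.continuous_fderiv (by norm_num)
  have hcl : IsClosed {y : V3 | fderiv ℝ P.hd.ga y = 0} := isClosed_eq hc continuous_const
  have hin : {y : V3 | P.hd.B ^ 2 < nsq3 y} ⊆ {y : V3 | fderiv ℝ P.hd.ga y = 0} := by
    intro y hy
    have hev : P.hd.ga =ᶠ[𝓝 y] fun _ => (0 : V3) := by
      filter_upwards [(isOpen_lt continuous_const MC_nsq_cont).mem_nhds hy] with w hw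
      exact P.hd.ga_far w (le_of_lt hw)
    show fderiv ℝ P.hd.ga y = 0
    rw [hev.fderiv_eq]
    exact fderiv_const_apply 0
  have ht : Filter.Tendsto (fun n : ℕ => (1 + 1 / ((n : ℝ) + 1)) • x) Filter.atTop (𝓝 x) := by
    have h1 : Filter.Tendsto (fun n : ℕ => 1 + 1 / ((n : ℝ) + 1)) Filter.atTop (𝓝 (1 + 0)) :=
      tendsto_const_nhds.add tendsto_one_div_add_atTop_nhds_zero_nat
    have h2 := h1.smul_const x
    rw [add_zero, one_smul] at h2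
    exact h2
  refine hcl.mem_of_tendsto ht (Filter.Eventually.of_forall fun n => hin ?_)
  show P.hd.B ^ 2 < nsq3 ((1 + 1 / ((n : ℝ) + 1)) • x)
  have h3 : nsq3 ((1 + 1 / ((n : ℝ) + 1)) • x) = (1 + 1 / ((n : ℝ) + 1)) ^ 2 * nsq3 x := by
    unfold nsq3
    simp only [Prod.smul_fst, Prod.smul_snd, smul_eq_mul]
    ring
  rw [h3]
  have h4 : 0 < 1 / ((n : ℝ) + 1) := by positivity
  have h5 : 0 < P.hd.B ^ 2 := by positivity
  have h6 : 1 < (1 + 1 / ((n : ℝ) + 1)) ^ 2 := by nlinarith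
  have h7 : 0 < nsq3 x := lt_of_lt_of_le h5 hx
  nlinarith [mul_lt_mul_of_pos_right h6 h7]

/-- Nondegeneracy of the form in the coordinates `(x, y)`. -/
theorem l6_nondeg (P : FPar) (h : P.Ok2) (v a : V3 × V3) (ha : a ≠ 0) :
    ∃ b, dd P.l6 v a b ≠ 0 := by
  by_cases hc : P.hd.B ^ 2 ≤ nsq3 v.1 ∨ 1 + P.T2 ≤ nsq3 v.2
  · obtain ⟨b, hb⟩ := P.MC_case1 h v a ha
    refine ⟨b, ?_⟩
    rw [P.MC_dd]
    rcases hc with hc | hc
    · obtain ⟨h1, h2⟩ := P.MC_ga_zero hc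
      have h3 : curl3 P.hd.ga v.1 = 0 := by
        unfold curl3
        rw [h2]
        simp
      rw [h1, h3]
      simpa [dot3] using hb
    · obtain ⟨h1, h2⟩ := P.MC_psi_zero h.T2 hc
      rw [h1, h2]
      simpa using hb
  · push Not at hc
    obtain ⟨hc1, hc2⟩ := hc
    have hT2 := h.T2
    have hev : P.MC_ps =ᶠ[𝓝 v] fun _ => (1 : ℝ) := by
      have o1 : IsOpen {w : V3 × V3 | nsq3 w.1 < P.hd.B ^ 2} :=
        isOpen_lt (MC_nsq_cont.comp continuous_fst) continuous_const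
      have o2 : IsOpen {w : V3 × V3 | nsq3 w.2 < 1 + P.T2} :=
        isOpen_lt (MC_nsq_cont.comp continuous_snd) continuous_const
      filter_upwards [o1.mem_nhds hc1, o2.mem_nhds hc2] with w hw1 hw2
      have hw1' : nsq3 w.1 < P.hd.B ^ 2 := hw1
      have hw2' : nsq3 w.2 < 1 + P.T2 := hw2
      unfold nsq3 at hw1'
      show cut (P.hd.B ^ 2) P.Ta (w.1.2.1 ^ 2 + w.1.2.2 ^ 2) *
        cut (P.hd.B ^ 2 + P.T2 + 1) 1 (w.1.1 ^ 2 + nsq3 w.2) = 1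
      rw [(cut_props (P.hd.B ^ 2) P.Ta h.Ta).2.1 _ (by nlinarith [sq_nonneg w.1.1]),
        (cut_props (P.hd.B ^ 2 + P.T2 + 1) 1 one_pos).2.1 _
          (by nlinarith [sq_nonneg w.1.2.1, sq_nonneg w.1.2.2]), one_mul]
    have hp1 : P.MC_ps v = 1 := hev.eq_of_nhds
    have hp2 : fderiv ℝ P.MC_ps v = 0 := by
      rw [hev.fderiv_eq]
      exact fderiv_const_apply 1
    set d := deriv P.psi2 (nsq3 v.2) with hd
    set g := P.hd.ga v.1 with hg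
    have hsl := h.slope1 v.1 (nsq3 v.2) (MC_nsq_nonneg _)
    rw [← hd, ← hg] at hsl
    -- the vector `∇ psi2`
    have hng : (2 * d * dot3 g v.2) ^ 2 < 1 := by
      have h1 := MC_cs g v.2
      have h2 : (2 * d * dot3 g v.2) ^ 2 = 4 * d ^ 2 * (dot3 g v.2) ^ 2 := by ring
      rw [h2]
      refine lt_of_le_of_lt (mul_le_mul_of_nonneg_left h1 (by positivity)) ?_
      have h3 : 4 * d ^ 2 * (nsq3 g * nsq3 v.2) = 4 * d ^ 2 * nsq3 v.2 * nsq3 g := by ring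
      rw [h3]
      exact hsl
    by_cases ha1 : a.1 = 0
    · have ha2 : a.2 ≠ 0 := fun h2 => ha (Prod.ext ha1 h2)
      -- `w = a' - (∇·a') γ`
      set c := 2 * d * dot3 v.2 a.2 with hcdef
      set w : V3 := (a.2.1 - c * g.1, a.2.2.1 - c * g.2.1, a.2.2.2 - c * g.2.2) with hw
      have hw0 : w ≠ 0 := by
        intro h0
        have w1 : a.2.1 - c * g.1 = 0 := congrArg Prod.fst h0
        have w2 : a.2.2.1 - c * g.2.1 = 0 := congrArg (fun x : V3 => x.2.1) h0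
        have w3 : a.2.2.2 - c * g.2.2 = 0 := congrArg (fun x : V3 => x.2.2) h0
        have hcc : c * (1 - 2 * d * dot3 g v.2) = 0 := by
          have : c = 2 * d * (v.2.1 * a.2.1 + v.2.2.1 * a.2.2.1 + v.2.2.2 * a.2.2.2) := hcdef
          unfold dot3
          linear_combination this + 2 * d * v.2.1 * w1 + 2 * d * v.2.2.1 * w2 +
            2 * d * v.2.2.2 * w3
        have hc0 : c = 0 := by
          rcases mul_eq_zero.1 hcc with h4 | h4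
          · exact h4
          · exfalso
            have h5 : 2 * d * dot3 g v.2 = 1 := by linarith
            rw [h5] at hng
            norm_num at hng
        rw [hc0] at w1 w2 w3
        exact ha2 (Prod.ext (by simpa using w1) (Prod.ext (by simpa using w2) (by simpa using w3)))
      refine ⟨(w, 0), ?_⟩
      have hval : dd P.l6 v a (w, 0) = -nsq3 w := by
        rw [P.MC_dd, dd_lX, P.MC_S, P.MC_S, hp1, hp2, ← hd, ← hg, ha1]
        have hc' : c = 2 * d * (v.2.1 * a.2.1 + v.2.2.1 * a.2.2.1 + v.2.2.2 * a.2.2.2) := hcdef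
        simp only [zero_apply, Prod.fst_zero, Prod.snd_zero, dot3, cross3,
          nsq3, hw]
        linear_combination (-(g.1 * (a.2.1 - c * g.1) + g.2.1 * (a.2.2.1 - c * g.2.1) +
          g.2.2 * (a.2.2.2 - c * g.2.2))) * hc'
      rw [hval]
      have := MC_nsq_pos hw0
      linarith
    · -- `w = a - (γ·a) ∇`
      set c := dot3 g a.1 with hcdef
      set w : V3 := (a.1.1 - c * (2 * d * v.2.1), a.1.2.1 - c * (2 * d * v.2.2.1),
        a.1.2.2 - c * (2 * d * v.2.2.2)) with hw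
      have hw0 : w ≠ 0 := by
        intro h0
        have w1 : a.1.1 - c * (2 * d * v.2.1) = 0 := congrArg Prod.fst h0
        have w2 : a.1.2.1 - c * (2 * d * v.2.2.1) = 0 := congrArg (fun x : V3 => x.2.1) h0
        have w3 : a.1.2.2 - c * (2 * d * v.2.2.2) = 0 := congrArg (fun x : V3 => x.2.2) h0
        have hcc : c * (1 - 2 * d * dot3 g v.2) = 0 := by
          have : c = g.1 * a.1.1 + g.2.1 * a.1.2.1 + g.2.2 * a.1.2.2 := hcdef
          unfold dot3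
          linear_combination this + g.1 * w1 + g.2.1 * w2 + g.2.2 * w3
        have hc0 : c = 0 := by
          rcases mul_eq_zero.1 hcc with h4 | h4
          · exact h4
          · exfalso
            have h5 : 2 * d * dot3 g v.2 = 1 := by linarith
            rw [h5] at hng
            norm_num at hng
        rw [hc0] at w1 w2 w3
        exact ha1 (Prod.ext (by simpa using w1) (Prod.ext (by simpa using w2) (by simpa using w3)))
      refine ⟨(0, w), ?_⟩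
      have hval : dd P.l6 v a (0, w) = nsq3 w := by
        rw [P.MC_dd, dd_lX, P.MC_S, P.MC_S, hp1, hp2, ← hd, ← hg, ← hcdef]
        simp only [zero_apply, Prod.fst_zero, Prod.snd_zero, dot3, cross3,
          nsq3, hw]
        ring
      rw [hval]
      exact (MC_nsq_pos hw0).ne'

/-- Value at `y = 0`, with `ψ = psh(x, 0)` and `V = e₁ + curl γ`. -/
theorem dd_l6_zero (P : FPar) (hT2 : 0 < P.T2) (hTa : 0 < P.Ta) (x : V3) (a b : V3 × V3) :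
    dd P.l6 (x, 0) a b =
      dot3 ((1, 0, 0) + curl3 P.hd.ga x) (cross3 a.1 b.1) + (a.1.1 * b.2.1 - b.1.1 * a.2.1)
      + P.psh x 0 * ((a.1.2.1 * b.2.2.1 - b.1.2.1 * a.2.2.1)
        + (a.1.2.2 * b.2.2.2 - b.1.2.2 * a.2.2.2))
      + (P.psh x 0 ^ 2 - 1) * (a.2.2.1 * b.2.2.2 - a.2.2.2 * b.2.2.1) := by
  have e1 : P.psi2 (nsq3 ((x, 0) : V3 × V3).2) = 1 := by
    refine (cut_props 1 P.T2 hT2).2.1 _ ?_
    show nsq3 (0 : V3) ≤ 1
    simp [nsq3]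
  rw [P.MC_dd, dd_lX, P.MC_S, P.MC_S, e1]
  have e2 : P.MC_ps ((x, 0) : V3 × V3) = P.psh x 0 := rfl
  rw [e2]
  simp only [Prod.fst_zero, Prod.snd_zero, dot3, cross3, Prod.fst_add, Prod.snd_add]
  ring

/-- `psh x 0 = 1` where `|x| ≤ B`. -/
theorem psh_zero (P : FPar) (hT2 : 0 < P.T2) (hTa : 0 < P.Ta) (x : V3) (hx : nsq3 x ≤ P.hd.B ^ 2) : P.psh x 0 = 1 := by
  have hB := sq_nonneg P.hd.B
  unfold nsq3 at hx
  have h0 : nsq3 (0 : V3) = 0 := by simp [nsq3]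
  show cut (P.hd.B ^ 2) P.Ta (x.2.1 ^ 2 + x.2.2 ^ 2) *
        cut (P.hd.B ^ 2 + P.T2 + 1) 1 (x.1 ^ 2 + nsq3 (0 : V3)) = 1
  rw [(cut_props (P.hd.B ^ 2) P.Ta hTa).2.1 _ (by nlinarith [sq_nonneg x.1]), h0,
    (cut_props (P.hd.B ^ 2 + P.T2 + 1) 1 one_pos).2.1 _
      (by nlinarith [sq_nonneg x.2.1, sq_nonneg x.2.2]), one_mul]

/-- Outside the modifications, `l6 = lX` near the point. -/
theorem l6_far (P : FPar) (hT2 : 0 < P.T2) (hTa : 0 < P.Ta) (v : V3 × V3)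
    (hv : P.hd.B ^ 2 + P.Ta < v.1.2.1 ^ 2 + v.1.2.2 ^ 2 ∨
      P.hd.B ^ 2 + P.T2 + 2 < v.1.1 ^ 2 + nsq3 v.2) : ∀ᶠ w in 𝓝 v, P.l6 w = lX w := by
  have hev : ∀ᶠ w in 𝓝 v, (P.hd.B ^ 2 + P.Ta < w.1.2.1 ^ 2 + w.1.2.2 ^ 2 ∨
      P.hd.B ^ 2 + P.T2 + 2 < w.1.1 ^ 2 + nsq3 w.2) := by
    have o1 : IsOpen {w : V3 × V3 | P.hd.B ^ 2 + P.Ta < w.1.2.1 ^ 2 + w.1.2.2 ^ 2} :=
      isOpen_lt continuous_const MC_s1.continuous
    have o2 : IsOpen {w : V3 × V3 | P.hd.B ^ 2 + P.T2 + 2 < w.1.1 ^ 2 + nsq3 w.2} :=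
      isOpen_lt continuous_const MC_s2.continuous
    exact (o1.union o2).mem_nhds hv
  have hps : ∀ᶠ w in 𝓝 v, P.MC_ps w = 0 := by
    filter_upwards [hev] with w hw
    show cut (P.hd.B ^ 2) P.Ta (w.1.2.1 ^ 2 + w.1.2.2 ^ 2) *
        cut (P.hd.B ^ 2 + P.T2 + 1) 1 (w.1.1 ^ 2 + nsq3 w.2) = 0
    rcases hw with hw | hw
    · rw [(cut_props (P.hd.B ^ 2) P.Ta hTa).2.2.1 _ hw.le, zero_mul]
    · rw [(cut_props (P.hd.B ^ 2 + P.T2 + 1) 1 one_pos).2.2.1 _ (by linarith), mul_zero]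
  filter_upwards [hev, hps.eventually_nhds] with w hw hw2
  have hp1 : P.MC_ps w = 0 := hw2.self_of_nhds
  have hp2 : fderiv ℝ P.MC_ps w = 0 := by
    have : P.MC_ps =ᶠ[𝓝 w] fun _ => (0 : ℝ) := hw2
    rw [this.fderiv_eq]
    exact fderiv_const_apply 0
  have hG : P.psi2 (nsq3 w.2) • P.MC_G w = 0 := by
    have hz : P.hd.B ^ 2 ≤ nsq3 w.1 ∨ 1 + P.T2 ≤ nsq3 w.2 := by
      rcases hw with hw | hw
      · left
        unfold nsq3
        nlinarith [sq_nonneg w.1.1]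
      · by_cases h1 : P.hd.B ^ 2 ≤ w.1.1 ^ 2
        · left
          unfold nsq3
          nlinarith [sq_nonneg w.1.2.1, sq_nonneg w.1.2.2]
        · right
          push Not at h1
          linarith
    rcases hz with hz | hz
    · have : P.MC_G w = 0 := by
        unfold MC_G
        rw [(P.MC_ga_zero hz).1]
        simp
      rw [this, smul_zero]
    · rw [(P.MC_psi_zero hT2 hz).1, zero_smul]
  rw [P.MC_l6]
  show pb1 P.shear lX w + P.psi2 (nsq3 w.2) • P.MC_G w = lX w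
  rw [hG, add_zero]
  have hsh : P.shear w = w := by
    show ((w.1.1, w.1.2.1 - P.MC_ps w * w.2.2.2, w.1.2.2 + P.MC_ps w * w.2.2.1), w.2) = w
    rw [hp1]
    simp
  refine ContinuousLinearMap.ext fun b => ?_
  have hb : fderiv ℝ P.shear w b = b := by
    rw [P.MC_S, hp1, hp2]
    simp
  show lX (P.shear w) (fderiv ℝ P.shear w b) = lX w b
  rw [hb, hsh]

end FPar

end

end Pool.Agent.H34.SY
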