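import Pool.Agent.H34.SY.CA
import Pool.Agent.H34.SY.CG
import Pool.Agent.H34.SY.WB
import Pool.Agent.H34.SY.SA1
import Pool.Agent.H34.SY.CE

/-!
# Row MG: tangent vectors of level sets; the chart `(x, q)` of `WS La`

(1) `tangent_level`: `Y = {z ∈ X | F z = 0}` (only needed near the point), `φ = F ∘ ψ` smooth near `v`, `Dφ(v) ≠ 0`.
`⊇`: let `h` with `Dφ(v) h = 0`; by the implicit function theorem there is a smooth curve `γ` in the level set of `φ` with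
`γ(0) = v`, `γ'(0) = h`: choose `e` with `Dφ(v) e = 1` and solve `φ(v + t h + τ(t) e) = 0`, `τ(0) = 0`; differentiating,
`τ'(0) = 0` (inverse function theorem for `(t, τ) ↦ (t, φ(v + t h + τ e))` on `ℝ²`).  Then `ψ ∘ γ`.
`⊆`: a tangent vector `a` of `Y` is tangent to `X`, so `a = Dψ (Dρ a)`; and `φ(ρ(γ t)) = F(γ t) = 0`, differentiate.
(2) `nonDeg_level`: the resulting criterion for nondegeneracy.
(3) `chart_R7`: `x = (t, Re u, Im u)`; `(h0, h)` are the Hopf coordinates of `(ζ, z)` (`FPS_hopf`), `s = -√(La² - |q|²)`.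
-/

open Set Topology
open scoped ContDiff ComplexConjugate

namespace Pool.Agent.H34.SY

noncomputable section

section
variable {E : Type} [NormedAddCommGroup E] [NormedSpace ℝ E]
variable {H : Type} [NormedAddCommGroup H] [NormedSpace ℝ H]

/-- a smooth curve in a regular level set with given tangent vector. -/
theorem MG_curve {V : Set H} (hV : IsOpen V) {v : H} (hv : v ∈ V) (φ : H → ℝ)
    (hφ : ContDiffOn ℝ ∞ φ V) (h0 : φ v = 0) (hd : fderiv ℝ φ v ≠ 0) (h : H)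
    (hh : fderiv ℝ φ v h = 0) :
    ∃ γ : ℝ → H, γ 0 = v ∧ ContDiffAt ℝ ∞ γ 0 ∧ HasDerivAt γ h 0 ∧
      ∀ᶠ t in 𝓝 (0 : ℝ), φ (γ t) = 0 := by
  obtain ⟨u0, hu0⟩ : ∃ u0, fderiv ℝ φ v u0 ≠ 0 := by
    by_contra hc
    push Not at hc
    exact hd (ContinuousLinearMap.ext hc)
  obtain ⟨e, he⟩ : ∃ e, fderiv ℝ φ v e = 1 := by
    refine ⟨(fderiv ℝ φ v u0)⁻¹ • u0, ?_⟩
    rw [map_smul, smul_eq_mul, inv_mul_cancel₀ hu0]
  have hφv : ContDiffAt ℝ ∞ φ v := hφ.contDiffAt (hV.mem_nhds hv)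
  obtain ⟨A, hA⟩ : ∃ A : ℝ × ℝ → H, A = fun p => v + (p.1 • h + p.2 • e) := ⟨_, rfl⟩
  have hA0 : A (0, 0) = v := by rw [hA]; simp
  have hAs : ContDiff ℝ ∞ A := by rw [hA]; fun_prop
  have hAd : HasFDerivAt A ((ContinuousLinearMap.fst ℝ ℝ ℝ).smulRight h +
      (ContinuousLinearMap.snd ℝ ℝ ℝ).smulRight e) (0, 0) := by
    rw [hA]
    have h1 : HasFDerivAt (fun p : ℝ × ℝ => p.1 • h)
        ((ContinuousLinearMap.fst ℝ ℝ ℝ).smulRight h) (0, 0) :=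
      ((ContinuousLinearMap.fst ℝ ℝ ℝ).smulRight h).hasFDerivAt
    have h2 : HasFDerivAt (fun p : ℝ × ℝ => p.2 • e)
        ((ContinuousLinearMap.snd ℝ ℝ ℝ).smulRight e) (0, 0) :=
      ((ContinuousLinearMap.snd ℝ ℝ ℝ).smulRight e).hasFDerivAt
    exact (h1.add h2).const_add v
  obtain ⟨G, hG⟩ : ∃ G : ℝ × ℝ → ℝ × ℝ, G = fun p => (p.1, φ (A p)) := ⟨_, rfl⟩
  have hφA : ContDiffAt ℝ ∞ (fun p : ℝ × ℝ => φ (A p)) (0, 0) := by
    refine ContDiffAt.comp ((0 : ℝ), (0 : ℝ)) (g := φ) (f := A) ?_ hAs.contDiffAt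
    rw [hA0]; exact hφv
  have hGs : ContDiffAt ℝ ∞ G (0, 0) := by
    rw [hG]
    exact contDiffAt_fst.prodMk hφA
  have hGd : HasFDerivAt G ((ContinuousLinearEquiv.refl ℝ (ℝ × ℝ) : (ℝ × ℝ) ≃L[ℝ] (ℝ × ℝ)) :
      (ℝ × ℝ) →L[ℝ] (ℝ × ℝ)) (0, 0) := by
    have h1 : HasFDerivAt φ (fderiv ℝ φ v) (A (0, 0)) := by
      rw [hA0]; exact CA_fd hφv
    have h2 : HasFDerivAt (fun p : ℝ × ℝ => φ (A p)) _ (0, 0) := h1.comp (0, 0) hAd
    have h3 : HasFDerivAt (fun p : ℝ × ℝ => (p.1, φ (A p))) _ (0, 0) :=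
      (hasFDerivAt_fst (𝕜 := ℝ) (E := ℝ) (F := ℝ) (p := ((0 : ℝ), (0 : ℝ)))).prodMk h2
    rw [hG]
    refine h3.congr_fderiv ?_
    refine ContinuousLinearMap.ext fun p => ?_
    show (p.1, fderiv ℝ φ v (p.1 • h + p.2 • e)) = p
    rw [map_add, map_smul, map_smul, hh, he]
    refine Prod.ext rfl ?_
    show p.1 • (0 : ℝ) + p.2 • (1 : ℝ) = p.2
    simp
  have hG0 : G (0, 0) = (0, 0) := by
    rw [hG]
    show ((0 : ℝ), φ (A (0, 0))) = (0, 0)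
    rw [hA0, h0]
  obtain ⟨Θ, hΘ⟩ : ∃ Θ : OpenPartialHomeomorph (ℝ × ℝ) (ℝ × ℝ), Θ =
    hGs.toOpenPartialHomeomorph G hGd (by simp) := ⟨_, rfl⟩
  have hΘc : ∀ p, Θ p = G p := by
    intro p
    rw [hΘ]
    rfl
  have hΘs : ((0 : ℝ), (0 : ℝ)) ∈ Θ.source := by
    rw [hΘ]
    exact ContDiffAt.mem_toOpenPartialHomeomorph_source hGs hGd (by simp)
  have hΘt : ((0 : ℝ), (0 : ℝ)) ∈ Θ.target := by
    have := Θ.map_source hΘs
    rw [hΘc, hG0] at this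
    exact this
  have hΘi : Θ.symm (0, 0) = (0, 0) := by
    have := Θ.left_inv hΘs
    rw [hΘc, hG0] at this
    exact this
  have hsymm : ContDiffAt ℝ ∞ Θ.symm (0, 0) := by
    refine Θ.contDiffAt_symm (f₀' := ContinuousLinearEquiv.refl ℝ (ℝ × ℝ)) hΘt ?_ ?_
    · rw [hΘi]
      have : (Θ : ℝ × ℝ → ℝ × ℝ) = G := funext hΘc
      rw [this]; exact hGd
    · rw [hΘi]
      have : (Θ : ℝ × ℝ → ℝ × ℝ) = G := funext hΘc
      rw [this]; exact hGs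
  obtain ⟨c, hc⟩ : ∃ c : ℝ → ℝ × ℝ, c = fun t => Θ.symm (t, 0) := ⟨_, rfl⟩
  have hc0 : c 0 = (0, 0) := by rw [hc]; exact hΘi
  have hline : ContDiff ℝ ∞ (fun t : ℝ => (t, (0 : ℝ))) := by fun_prop
  have hcs : ContDiffAt ℝ ∞ c 0 := by
    rw [hc]
    exact ContDiffAt.comp (0 : ℝ) (g := Θ.symm) (f := fun t : ℝ => (t, (0 : ℝ))) hsymm
      hline.contDiffAt
  have hct : ∀ᶠ t in 𝓝 (0 : ℝ), G (c t) = (t, 0) := by
    have h1 : ∀ᶠ t in 𝓝 (0 : ℝ), ((t, (0 : ℝ)) : ℝ × ℝ) ∈ Θ.target :=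
      hline.continuous.continuousAt.eventually (Θ.open_target.mem_nhds hΘt)
    filter_upwards [h1] with t ht
    rw [hc]
    show G (Θ.symm (t, 0)) = (t, 0)
    rw [← hΘc]
    exact Θ.right_inv ht
  obtain ⟨c', hc'⟩ : ∃ c' : ℝ × ℝ, HasDerivAt c c' 0 :=
    ⟨_, (hcs.differentiableAt (by simp)).hasDerivAt⟩
  have hc'1 : c' = (1, 0) := by
    have h1 : HasFDerivAt G ((ContinuousLinearEquiv.refl ℝ (ℝ × ℝ) : (ℝ × ℝ) ≃L[ℝ] (ℝ × ℝ)) :
      (ℝ × ℝ) →L[ℝ] (ℝ × ℝ)) (c 0) := by rw [hc0]; exact hGd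
    have h2 : HasDerivAt (fun t => G (c t)) c' 0 := h1.comp_hasDerivAt (0 : ℝ) hc'
    have h3 : HasDerivAt (fun t : ℝ => ((t, (0 : ℝ)) : ℝ × ℝ)) (1, 0) 0 :=
      (hasDerivAt_id (0 : ℝ)).prodMk (hasDerivAt_const (0 : ℝ) (0 : ℝ))
    exact h2.unique (h3.congr_of_eventuallyEq hct)
  refine ⟨fun t => A (c t), by simp only [hc0, hA0], ?_, ?_, ?_⟩
  · refine ContDiffAt.comp (0 : ℝ) (g := A) (f := c) hAs.contDiffAt hcs
  · have h1 : HasFDerivAt A ((ContinuousLinearMap.fst ℝ ℝ ℝ).smulRight h +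
      (ContinuousLinearMap.snd ℝ ℝ ℝ).smulRight e) (c 0) := by rw [hc0]; exact hAd
    have h2 : HasDerivAt (fun t => A (c t)) _ 0 := h1.comp_hasDerivAt (0 : ℝ) hc'
    refine h2.congr_deriv ?_
    rw [hc'1]
    show (1 : ℝ) • h + (0 : ℝ) • e = h
    simp
  · filter_upwards [hct] with t ht
    rw [hG] at ht
    obtain ⟨h1, h2⟩ := Prod.mk.inj ht
    exact h2

theorem tangent_level {X Y U W : Set E} {V : Set H} {ρ : E → H} {ψ : H → E}
    (hc : IsChart X U V ρ ψ) (hW : IsOpen W) {v : H} (hv : v ∈ V) (hvW : ψ v ∈ W) (φ : H → ℝ)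
    (hφ : ContDiffOn ℝ ∞ φ V) (hY : ∀ z ∈ X ∩ U ∩ W, (z ∈ Y ↔ φ (ρ z) = 0)) (hYX : Y ⊆ X)
    (h0 : φ v = 0) (hd : fderiv ℝ φ v ≠ 0) (a : E) :
    IsTangent Y (ψ v) a ↔ ∃ h : H, fderiv ℝ φ v h = 0 ∧ a = fderiv ℝ ψ v h := by
  have hψv := hc.maps_ψ v hv
  have hφv : ContDiffAt ℝ ∞ φ v := hφ.contDiffAt (hc.isOpen_V.mem_nhds hv)
  constructor
  · rintro ⟨γ, hγ0, hγY, hγs, hγd⟩
    have hX : IsTangent X (ψ v) a :=
      ⟨γ, hγ0, hγY.mono fun t ht => hYX ht, hγs, hγd⟩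
    have h1 := hc.tangent_eq hψv hX
    rw [hc.right_inv v hv] at h1
    refine ⟨fderiv ℝ ρ (ψ v) a, ?_, h1⟩
    have h2 := CA_comp (F := ρ) hγ0 (CA_fd (CA_rho hc hψv.2)) hγd
    have h3 := CA_comp (F := φ) (γ := fun t => ρ (γ t)) (z := v)
      (by simp only [hγ0, hc.right_inv v hv]) (CA_fd hφv) h2
    have h4 : (fun t => φ (ρ (γ t))) =ᶠ[𝓝 0] fun _ : ℝ => (0 : ℝ) := by
      filter_upwards [hγY, CA_ev hγ0 hc.isOpen_U hψv.2 hγs.continuousAt,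
        CA_ev hγ0 hW hvW hγs.continuousAt] with t ht1 ht2 ht3
      exact (hY _ ⟨⟨hYX ht1, ht2⟩, ht3⟩).1 ht1
    exact h3.unique ((hasDerivAt_const (0 : ℝ) (0 : ℝ)).congr_of_eventuallyEq h4)
  · rintro ⟨h, hh, rfl⟩
    obtain ⟨γ, hγ0, hγs, hγd, hγφ⟩ := MG_curve hc.isOpen_V hv φ hφ h0 hd h hh
    have hψs : ContDiffAt ℝ ∞ ψ (γ 0) := by rw [hγ0]; exact CA_psi hc hv
    have hcomp : ContDiffAt ℝ ∞ (fun t => ψ (γ t)) 0 :=
      ContDiffAt.comp (0 : ℝ) (g := ψ) (f := γ) hψs hγs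
    refine ⟨fun t => ψ (γ t), by simp only [hγ0], ?_, hcomp,
      CA_comp hγ0 (CA_fd (CA_psi hc hv)) hγd⟩
    filter_upwards [hγφ, CA_ev hγ0 hc.isOpen_V hv hγs.continuousAt,
      CA_ev (γ := fun t => ψ (γ t)) (z := ψ v) (by simp only [hγ0]) hW hvW hcomp.continuousAt]
      with t ht1 ht2 ht3
    refine (hY _ ⟨hc.maps_ψ _ ht2, ht3⟩).2 ?_
    rw [hc.right_inv _ ht2]
    exact ht1

theorem nonDeg_level {X Y U W : Set E} {V : Set H} {ρ : E → H} {ψ : H → E}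
    (hc : IsChart X U V ρ ψ) (hW : IsOpen W) {v : H} (hv : v ∈ V) (hvW : ψ v ∈ W) (φ : H → ℝ)
    (hφ : ContDiffOn ℝ ∞ φ V) (hY : ∀ z ∈ X ∩ U ∩ W, (z ∈ Y ↔ φ (ρ z) = 0)) (hYX : Y ⊆ X)
    (h0 : φ v = 0) (hd : fderiv ℝ φ v ≠ 0) (om : Form E)
    (hnd : ∀ a : H, fderiv ℝ φ v a = 0 → a ≠ 0 →
      ∃ b : H, fderiv ℝ φ v b = 0 ∧ pb2 ψ om v a b ≠ 0) : NonDegAt Y om (ψ v) := by
  intro a ha ha0
  obtain ⟨h, hh, rfl⟩ := (tangent_level hc hW hv hvW φ hφ hY hYX h0 hd a).1 ha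
  have hh0 : h ≠ 0 := by
    rintro rfl
    exact ha0 (map_zero _)
  obtain ⟨b, hb, hab⟩ := hnd h hh hh0
  exact ⟨fderiv ℝ ψ v b, (tangent_level hc hW hv hvW φ hφ hY hYX h0 hd _).2 ⟨b, hb, rfl⟩, hab⟩

end

/-- `(x, ζ, z)`. -/
abbrev R7 : Type := V3 × ℂ × ℂ

/-- The point of `FP` with coordinates `(x, ζ, z)`, `(ζ, z) ≠ 0`, `s < 0`. -/
def p7 (La : ℝ) (v : R7) : FP :=
  (v.1.1, ⟨v.1.2.1, v.1.2.2⟩,
    (Complex.normSq v.2.1 - Complex.normSq v.2.2) / qsq v.2.1 v.2.2,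
    ((2 / qsq v.2.1 v.2.2 : ℝ) : ℂ) * (conj v.2.1 * v.2.2), v.2.1, v.2.2,
    -Real.sqrt (La ^ 2 - qsq v.2.1 v.2.2))

theorem p7_mem {La : ℝ} {v : R7} (h0 : 0 < qsq v.2.1 v.2.2) (h1 : qsq v.2.1 v.2.2 < La ^ 2) :
    p7 La v ∈ FPS La := by
  obtain ⟨x, ze, z⟩ := v
  simp only at h0 h1
  have hq : qsq ze z = Complex.normSq ze + Complex.normSq z := rfl
  have hq0 : qsq ze z ≠ 0 := h0.ne'
  simp only [p7, FPS, mem_ofPred_eq, fH0, fH, fZe, fZ, fS]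
  refine ⟨?_, ?_, ?_, ?_⟩
  · rw [Complex.normSq_mul, Complex.normSq_ofReal, Complex.normSq_mul, Complex.normSq_conj]
    field_simp
    rw [hq]; ring
  · have e1 : (1 + (Complex.normSq ze - Complex.normSq z) / qsq ze z) =
        2 / qsq ze z * Complex.normSq ze := by
      field_simp
      rw [hq]; ring
    rw [e1, Complex.ofReal_mul, ← Complex.mul_conj]
    ring
  · have e1 : (1 - (Complex.normSq ze - Complex.normSq z) / qsq ze z) =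
        2 / qsq ze z * Complex.normSq z := by
      field_simp
      rw [hq]; ring
    rw [e1, Complex.ofReal_mul, ← Complex.mul_conj, map_mul, map_mul, Complex.conj_conj,
      Complex.conj_ofReal]
    ring
  · rw [neg_sq, Real.sq_sqrt (by linarith), hq]
    ring

theorem MG_qpos {ze z : ℂ} : 0 < qsq ze z ↔ (ze ≠ 0 ∨ z ≠ 0) := by
  constructor
  · intro h
    by_contra hc
    push Not at hc
    rw [hc.1, hc.2] at h
    simp [qsq] at h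
  · rintro (h | h)
    · exact add_pos_of_pos_of_nonneg (Complex.normSq_pos.2 h) (Complex.normSq_nonneg _)
    · exact add_pos_of_nonneg_of_pos (Complex.normSq_nonneg _) (Complex.normSq_pos.2 h)

theorem MG_p7_eq {La : ℝ} {p : FP} (hp : p ∈ FPS La) (hs : fS p < 0)
    (hq : fZe p ≠ 0 ∨ fZ p ≠ 0) : p7 La (xpt (fT p) (fU p), fZe p, fZ p) = p := by
  obtain ⟨h1, h2, -⟩ := FPS_hopf hp hq
  have h4 := hp.2.2.2
  have h5 : Real.sqrt (La ^ 2 - qsq (fZe p) (fZ p)) = -fS p := by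
    have : La ^ 2 - qsq (fZe p) (fZ p) = (-fS p) ^ 2 := by
      unfold qsq
      linarith
    rw [this]
    exact Real.sqrt_sq (by linarith)
  obtain ⟨t, u, h0, h, ze, z, s⟩ := p
  simp only [fT, fU, fH0, fH, fZe, fZ, fS] at h1 h2 h5 ⊢
  simp only [p7, xpt]
  rw [h5, ← h1, ← h2, neg_neg]

theorem chart_R7 (La : ℝ) (hLa : 0 < La) :
    IsChart (WS La) {z | -1 < eW1 z ∧ eS z < 0 ∧ (fZe (rhoN z) ≠ 0 ∨ fZ (rhoN z) ≠ 0)}
      {v : R7 | 0 < qsq v.2.1 v.2.2 ∧ qsq v.2.1 v.2.2 < La ^ 2}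
      (fun z => (xpt (fT (rhoN z)) (fU (rhoN z)), fZe (rhoN z), fZ (rhoN z)))
      (fun v => psiN (p7 La v)) := by
  have cq : ContDiff ℝ ∞ (fun v : R7 => qsq v.2.1 v.2.2) := by
    have c1 : ContDiff ℝ ∞ (fun v : R7 => v.2.1) := contDiff_fst.comp contDiff_snd
    have c2 : ContDiff ℝ ∞ (fun v : R7 => v.2.2) := contDiff_snd.comp contDiff_snd
    exact (WB_cd_normSq.comp c1).add (WB_cd_normSq.comp c2)
  have hrs : ContDiffOn ℝ ∞ (fun z => (xpt (fT (rhoN z)) (fU (rhoN z)), fZe (rhoN z), fZ (rhoN z)))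
      {z : EA | -1 < eW1 z} := by
    have c1 : ContDiff ℝ ∞ (fun p : FP => ((xpt (fT p) (fU p), fZe p, fZ p) : R7)) := by
      have cT : ContDiff ℝ ∞ fT := contDiff_fst
      have c1 : ContDiff ℝ ∞ (fun p : FP => p.2) := contDiff_snd
      have cU : ContDiff ℝ ∞ fU := contDiff_fst.comp c1
      have c2 : ContDiff ℝ ∞ (fun p : FP => p.2.2) := contDiff_snd.comp c1
      have c3 : ContDiff ℝ ∞ (fun p : FP => p.2.2.2) := contDiff_snd.comp c2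
      have c4 : ContDiff ℝ ∞ (fun p : FP => p.2.2.2.2) := contDiff_snd.comp c3
      have cZe : ContDiff ℝ ∞ fZe := contDiff_fst.comp c4
      have c5 : ContDiff ℝ ∞ (fun p : FP => p.2.2.2.2.2) := contDiff_snd.comp c4
      have cZ : ContDiff ℝ ∞ fZ := contDiff_fst.comp c5
      have cre : ContDiff ℝ ∞ (fun p : FP => (fU p).re) := Complex.reCLM.contDiff.comp cU
      have cim : ContDiff ℝ ∞ (fun p : FP => (fU p).im) := Complex.imCLM.contDiff.comp cU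
      exact (cT.prodMk (cre.prodMk cim)).prodMk (cZe.prodMk cZ)
    exact c1.comp_contDiffOn contDiffOn_rhoN
  have hp7 : ContDiffOn ℝ ∞ (p7 La) {v : R7 | 0 < qsq v.2.1 v.2.2 ∧ qsq v.2.1 v.2.2 < La ^ 2} := by
    have c1 : ContDiff ℝ ∞ (fun v : R7 => v.1) := contDiff_fst
    have c11 : ContDiff ℝ ∞ (fun v : R7 => v.1.1) := contDiff_fst.comp c1
    have c12 : ContDiff ℝ ∞ (fun v : R7 => v.1.2) := contDiff_snd.comp c1
    have c121 : ContDiff ℝ ∞ (fun v : R7 => v.1.2.1) := contDiff_fst.comp c12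
    have c122 : ContDiff ℝ ∞ (fun v : R7 => v.1.2.2) := contDiff_snd.comp c12
    have cze : ContDiff ℝ ∞ (fun v : R7 => v.2.1) := contDiff_fst.comp contDiff_snd
    have cz : ContDiff ℝ ∞ (fun v : R7 => v.2.2) := contDiff_snd.comp contDiff_snd
    have cu : ContDiff ℝ ∞ (fun v : R7 => ((⟨v.1.2.1, v.1.2.2⟩ : ℂ))) := by
      have : (fun v : R7 => ((⟨v.1.2.1, v.1.2.2⟩ : ℂ))) =
          fun v : R7 => ((v.1.2.1 : ℝ) : ℂ) + ((v.1.2.2 : ℝ) : ℂ) * Complex.I := by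
        funext v
        apply Complex.ext <;> simp
      rw [this]
      exact (Complex.ofRealCLM.contDiff.comp c121).add
        ((Complex.ofRealCLM.contDiff.comp c122).mul contDiff_const)
    have hne : ∀ v ∈ {v : R7 | 0 < qsq v.2.1 v.2.2 ∧ qsq v.2.1 v.2.2 < La ^ 2},
        qsq v.2.1 v.2.2 ≠ 0 := fun v hv => hv.1.ne'
    have ch0 : ContDiffOn ℝ ∞ (fun v : R7 => (Complex.normSq v.2.1 - Complex.normSq v.2.2) /
        qsq v.2.1 v.2.2) {v : R7 | 0 < qsq v.2.1 v.2.2 ∧ qsq v.2.1 v.2.2 < La ^ 2} :=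
      ((WB_cd_normSq.comp cze).sub (WB_cd_normSq.comp cz)).contDiffOn.div cq.contDiffOn hne
    have ch1 : ContDiffOn ℝ ∞ (fun v : R7 => ((2 / qsq v.2.1 v.2.2 : ℝ) : ℂ))
        {v : R7 | 0 < qsq v.2.1 v.2.2 ∧ qsq v.2.1 v.2.2 < La ^ 2} :=
      Complex.ofRealCLM.contDiff.comp_contDiffOn (contDiffOn_const.div cq.contDiffOn hne)
    have ch2 : ContDiff ℝ ∞ (fun v : R7 => conj v.2.1 * v.2.2) := (WB_cd_conj.comp cze).mul cz
    have cs : ContDiffOn ℝ ∞ (fun v : R7 => -Real.sqrt (La ^ 2 - qsq v.2.1 v.2.2))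
        {v : R7 | 0 < qsq v.2.1 v.2.2 ∧ qsq v.2.1 v.2.2 < La ^ 2} := by
      refine ContDiffOn.neg (ContDiffOn.sqrt (contDiff_const.sub cq).contDiffOn ?_)
      intro v hv
      have := hv.2
      exact (sub_pos.2 this).ne'
    exact c11.contDiffOn.prodMk (cu.contDiffOn.prodMk (ch0.prodMk ((ch1.mul ch2.contDiffOn).prodMk
      (cze.contDiffOn.prodMk (cz.contDiffOn.prodMk cs)))))
  have hopenW : IsOpen {z : EA | -1 < eW1 z} := isOpen_lt continuous_const WB_cont_W1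
  constructor
  · have hS : IsOpen {z : EA | eS z < 0} := by
      have c1 : Continuous (fun z : EA => z.2) := continuous_snd
      have c2 : Continuous (fun z : EA => z.2.2) := continuous_snd.comp c1
      have c3 : Continuous (fun z : EA => z.2.2.2) := continuous_snd.comp c2
      have c4 : Continuous (fun z : EA => eS z) := continuous_fst.comp c3
      exact isOpen_lt c4 continuous_const
    have hV0 : IsOpen {v : R7 | 0 < qsq v.2.1 v.2.2} := isOpen_lt continuous_const cq.continuous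
    have h1 := hrs.continuousOn.isOpen_inter_preimage hopenW hV0
    have h2 := h1.inter hS
    have h3 : {z : EA | -1 < eW1 z ∧ eS z < 0 ∧ (fZe (rhoN z) ≠ 0 ∨ fZ (rhoN z) ≠ 0)} =
        ({z : EA | -1 < eW1 z} ∩ (fun z => ((xpt (fT (rhoN z)) (fU (rhoN z)), fZe (rhoN z),
          fZ (rhoN z)) : R7)) ⁻¹' {v : R7 | 0 < qsq v.2.1 v.2.2}) ∩ {z : EA | eS z < 0} := by
      ext z
      constructor
      · rintro ⟨h4, h5, h6⟩
        exact ⟨⟨h4, MG_qpos.2 h6⟩, h5⟩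
      · rintro ⟨⟨h4, h6⟩, h5⟩
        exact ⟨h4, h5, MG_qpos.1 h6⟩
    rw [h3]
    exact h2
  · exact (isOpen_lt continuous_const cq.continuous).inter
      (isOpen_lt cq.continuous continuous_const)
  · exact hrs.mono fun z hz => hz.1
  · exact contDiff_psiN.comp_contDiffOn hp7
  · rintro z ⟨hz, h1, h2, h3⟩
    have h4 := (rhoN_mem hz h1).1.2.2.2
    have h5 : fS (rhoN z) = eS z := rfl
    refine ⟨MG_qpos.2 h3, ?_⟩
    show Complex.normSq (fZe (rhoN z)) + Complex.normSq (fZ (rhoN z)) < La ^ 2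
    rw [h5] at h4
    have h6 : 0 < eS z ^ 2 := by
      have : eS z ≠ 0 := h2.ne
      positivity
    linarith
  · rintro v ⟨h0, h1⟩
    have h2 := p7_mem h0 h1
    have h3 := psiN_mem h2
    refine ⟨h3.1, h3.2, ?_, ?_⟩
    · show -Real.sqrt (La ^ 2 - qsq v.2.1 v.2.2) < 0
      have := Real.sqrt_pos.2 (sub_pos.2 h1)
      linarith
    · rw [rhoN_psiN]
      exact MG_qpos.1 h0
  · rintro z ⟨hz, h1, h2, h3⟩
    have h4 := rhoN_mem hz h1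
    have h5 : fS (rhoN z) < 0 := h2
    show psiN (p7 La (xpt (fT (rhoN z)) (fU (rhoN z)), fZe (rhoN z), fZ (rhoN z))) = z
    rw [MG_p7_eq h4.1 h5 h3, h4.2]
  · rintro v ⟨h0, h1⟩
    show (xpt (fT (rhoN (psiN (p7 La v)))) (fU (rhoN (psiN (p7 La v)))),
      fZe (rhoN (psiN (p7 La v))), fZ (rhoN (psiN (p7 La v)))) = v
    rw [rhoN_psiN]
    rfl

end

end Pool.Agent.H34.SY
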