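import Pool.Agent.H34.SY.MC
import Pool.Agent.H34.SY.MG

/-!
# Row MD (definitions, derivatives, `qg_rot`, `qg_norm`, `grad_ne` is in MD2): the core near the exceptional divisor, pointwise algebra at `q = 0`

`F7 (x, q) = c(x) - Re (q ḡ(x))`, `Pi7 (x, q) = (x, Im (q ḡ(x)))`, `Om7 = dd (pb1 Pi7 l6) = pb2 Pi7 (dd l6)`.
At `q = 0` (`a` a vector of `ℂ² = ℍ`, `a ḡ = η₀ + η`, i.e. `qgbar a₁ a₂ g = (η₀, η)`, linear in `a`):
`D F7 (ξ, a) = N·ξ - η₀` with `N = grad c`, `D Pi7 (ξ, a) = (ξ, η)` (the derivative of `g` is multiplied by `q = 0`).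
So `Om7 ((ξ,a),(ξ',a')) = dd l6 (x,0) ((ξ,η),(ξ',η'))`, formula `dd_l6_zero`.  Put `V = e₁ + curl γ`, `n = nrm (g x)`
(unit vector), `n = - g i ḡ`.  Multiplication by `-i` on `ℂ²` is right multiplication of `q` by `-i`, and
`(a (-i)) ḡ = (a ḡ)(g (-i) ḡ) = (η₀ + η) n`: real part `-η·n`, imaginary part `η₀ n + η × n` (`qg_rot`, a polynomial identity with
`|g| = 1`).

CASE A: `|x| ≤ B`, `psh = 1`: `dd l6 = V·(ξ×ξ') + ξ·η' - ξ'·η`.
 (1) `D = {(ξ,0): N·ξ = 0}`: for `ξ ≠ 0` take `ξ' = N × ξ`: `V·(ξ × (N×ξ)) = V·(N|ξ|² - ξ (ξ·N)) = (V·N)|ξ|²`.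
   `V·N > 0`: with `δ = V - N`, `vn = V·n > 0`, `Nn = N·n`, tame: `|δ|² - (δ·n)² < 4 vn Nn`; so `Nn > 0`;
   `4 V·N = |V+N|² - |V-N|² ≥ (vn+Nn)² - |δ|² = 4 vn Nn + (vn - Nn)² - |δ|² > 0` (`δ·n = vn - Nn`).
 (2) if `Om7((ξ,a), (ξ',0)) = 0` for all `ξ'` with `N·ξ' = 0` and `N·ξ = η₀`: then `V × ξ - η = μ N`,.. `ξ = (η₀ V + η × N)/(V·N)`
   (unique solution).  For any `(ξ'', a(-i))` with `N·ξ'' = -η·n`:
   `Om7 = (1/(V·N)) [η₀²(V·n) + |η|²(N·n) + η₀ δ·(η×n) + (η·n)(δ·η)]`, `δ = V - N`.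
   Positive for `(η₀,η) ≠ 0`: write `η = η_n n + η_T`, `δ = δ_n n + δ_T`: the bracket is
   `vn(η₀²+η_n²) + Nn|η_T|² + δ_T·(η_n η_T + η₀ (η_T × n))`, and the last vector has norm `|η_T| √(η_n²+η₀²)`; discriminant
   `|δ_T|² < 4 vn Nn`.
CASE B: `|x| > B`: `c = x₁` near `x`, so `x₁ = 0`, `N = e₁`, `γ = 0` near, `V = e₁`; put `ψ = psh x 0`.
 (1) `ξ = (0, ξ₂, ξ₃)`, take `ξ' = (0, -ξ₃, ξ₂)`: value `ξ₂² + ξ₃²`.  (2) orthogonality to `D`: `ξ₂ = ψ η₃`, `ξ₃ = -ψ η₂`, and `ξ₁ = η₀`; then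
   for every `(ξ'', η'')`, `ξ''₁ = η₀''`: value `η₀η₁'' - η₀''η₁ - (η₂η₃'' - η₃η₂'')`, which for
   `η₀'' = -η·n`, `η'' = η₀ n + η × n` is `(η₀² + |η|²) n₁`; `n₁ = V·n > 0` (`tame_pos`).
-/

open Set Topology
open scoped ContDiff ComplexConjugate

namespace Pool.Agent.H34.SY

noncomputable section

def F7 (hd : Handle) (v : R7) : ℝ := hd.c v.1 - (qgbar v.2.1 v.2.2 (hd.g v.1)).1

def Pi7 (hd : Handle) (v : R7) : V3 × V3 := (v.1, (qgbar v.2.1 v.2.2 (hd.g v.1)).2)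

/-- `q ḡ` for a unit quaternion `g`, in real coordinates. -/
def qb (ze z : ℂ) (g : V4) : V4 :=
  (ze.re * g.1 + ze.im * g.2.1 + z.re * g.2.2.1 - z.im * g.2.2.2,
    ze.im * g.1 - ze.re * g.2.1 - z.re * g.2.2.2 - z.im * g.2.2.1,
    z.re * g.1 + z.im * g.2.1 - ze.re * g.2.2.1 + ze.im * g.2.2.2,
    z.re * g.2.1 - z.im * g.1 - ze.re * g.2.2.2 - ze.im * g.2.2.1)

theorem qgbar_qb (ze z : ℂ) (g : V4) (hg : nsq4 g = 1) : qgbar ze z g = qb ze z g := by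
  unfold qgbar qb
  rw [hg, Real.sqrt_one]
  simp only [div_one, Complex.add_re, Complex.add_im, Complex.sub_re, Complex.sub_im,
    Complex.mul_re, Complex.mul_im, Complex.conj_re, Complex.conj_im]
  ext <;> ring

theorem qb_add_smul (ze z a1 a2 : ℂ) (t : ℝ) (g : V4) :
    qb (ze + t • a1) (z + t • a2) g = qb ze z g + t • qb a1 a2 g := by
  unfold qb
  ext <;> simp <;> ring

theorem qb_smul (a1 a2 : ℂ) (t : ℝ) (g : V4) :
    qb (t • a1) (t • a2) g = t • qb a1 a2 g := by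
  unfold qb
  ext <;> simp <;> ring

theorem contDiff_qb (hd : Handle) :
    ContDiff ℝ ∞ (fun v : R7 => qb v.2.1 v.2.2 (hd.g v.1)) := by
  have h1 : ContDiff ℝ ∞ (fun v : R7 => v.2.1.re) :=
    Complex.reCLM.contDiff.comp (contDiff_fst.comp contDiff_snd)
  have h2 : ContDiff ℝ ∞ (fun v : R7 => v.2.1.im) :=
    Complex.imCLM.contDiff.comp (contDiff_fst.comp contDiff_snd)
  have h3 : ContDiff ℝ ∞ (fun v : R7 => v.2.2.re) :=
    Complex.reCLM.contDiff.comp (contDiff_snd.comp contDiff_snd)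
  have h4 : ContDiff ℝ ∞ (fun v : R7 => v.2.2.im) :=
    Complex.imCLM.contDiff.comp (contDiff_snd.comp contDiff_snd)
  have hg : ContDiff ℝ ∞ (fun v : R7 => hd.g v.1) := hd.g_smooth.comp contDiff_fst
  have g0 : ContDiff ℝ ∞ (fun v : R7 => (hd.g v.1).1) := contDiff_fst.comp hg
  have g1 : ContDiff ℝ ∞ (fun v : R7 => (hd.g v.1).2.1) :=
    contDiff_fst.comp (contDiff_snd.comp hg)
  have g2 : ContDiff ℝ ∞ (fun v : R7 => (hd.g v.1).2.2.1) :=
    contDiff_fst.comp (contDiff_snd.comp (contDiff_snd.comp hg))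
  have g3 : ContDiff ℝ ∞ (fun v : R7 => (hd.g v.1).2.2.2) :=
    contDiff_snd.comp (contDiff_snd.comp (contDiff_snd.comp hg))
  unfold qb
  exact ((((h1.mul g0).add (h2.mul g1)).add (h3.mul g2)).sub (h4.mul g3)).prodMk
    (((((h2.mul g0).sub (h1.mul g1)).sub (h3.mul g3)).sub (h4.mul g2)).prodMk
    (((((h3.mul g0).add (h4.mul g1)).sub (h1.mul g2)).add (h2.mul g3)).prodMk
    ((((h3.mul g1).sub (h4.mul g0)).sub (h1.mul g3)).sub (h2.mul g2))))

theorem F7_eq (hd : Handle) : F7 hd = fun v => hd.c v.1 - (qb v.2.1 v.2.2 (hd.g v.1)).1 := by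
  funext v
  unfold F7
  rw [qgbar_qb _ _ _ (hd.g_unit _)]

theorem Pi7_eq (hd : Handle) : Pi7 hd = fun v => (v.1, (qb v.2.1 v.2.2 (hd.g v.1)).2) := by
  funext v
  unfold Pi7
  rw [qgbar_qb _ _ _ (hd.g_unit _)]

theorem contDiff_F7 (hd : Handle) : ContDiff ℝ ∞ (F7 hd) := by
  rw [F7_eq]
  exact (hd.c_smooth.comp contDiff_fst).sub (contDiff_fst.comp (contDiff_qb hd))

theorem contDiff_Pi7 (hd : Handle) : ContDiff ℝ ∞ (Pi7 hd) := by
  rw [Pi7_eq]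
  exact contDiff_fst.prodMk (contDiff_snd.comp (contDiff_qb hd))

/-- derivative along a line. -/
theorem fderiv_line {E' : Type} [NormedAddCommGroup E'] [NormedSpace ℝ E'] (f : R7 → E')
    (hf : ContDiff ℝ ∞ f) (v a : R7) (b : E')
    (h : HasDerivAt (fun t : ℝ => f (v + t • a)) b 0) : fderiv ℝ f v a = b := by
  have h1 : HasFDerivAt f (fderiv ℝ f v) v :=
    (hf.differentiable (by simp)).differentiableAt.hasFDerivAt
  have h2 : HasDerivAt (fun t : ℝ => v + t • a) a 0 := by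
    simpa using ((hasDerivAt_id (0 : ℝ)).smul_const a).const_add v
  have h3 : HasFDerivAt f (fderiv ℝ f v) (v + (0 : ℝ) • a) := by simpa using h1
  exact (h3.comp_hasDerivAt (0 : ℝ) h2).unique h

/-- Derivative of `F7` at any point in the direction of `q` is linear: `- Re (a ḡ)`. -/
theorem fderiv_F7 (hd : Handle) (v : R7) (xi : V3) (a1 a2 : ℂ) :
    fderiv ℝ (F7 hd) v (xi, a1, a2) =
      fderiv ℝ (F7 hd) v (xi, 0, 0) - (qgbar a1 a2 (hd.g v.1)).1 := by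
  have e : ((xi, a1, a2) : R7) = (xi, 0, 0) + (0, a1, a2) := by simp
  rw [e, map_add]
  have h : fderiv ℝ (F7 hd) v (0, a1, a2) = -(qgbar a1 a2 (hd.g v.1)).1 := by
    apply fderiv_line _ (contDiff_F7 hd)
    rw [qgbar_qb _ _ _ (hd.g_unit _)]
    have e2 : (fun t : ℝ => F7 hd (v + t • ((0, a1, a2) : R7))) =
        fun t : ℝ => (hd.c v.1 - (qb v.2.1 v.2.2 (hd.g v.1)).1) +
          t * (-(qb a1 a2 (hd.g v.1)).1) := by
      funext t
      rw [F7_eq]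
      have e3 : (v + t • ((0, a1, a2) : R7)) = (v.1, v.2.1 + t • a1, v.2.2 + t • a2) := by
        ext <;> simp
      rw [e3]
      dsimp only
      rw [qb_add_smul]
      simp only [Prod.fst_add, Prod.smul_fst, smul_eq_mul]
      ring
    rw [e2]
    simpa using ((hasDerivAt_id (0 : ℝ)).mul_const (-(qb a1 a2 (hd.g v.1)).1)).const_add
      (hd.c v.1 - (qb v.2.1 v.2.2 (hd.g v.1)).1)
  rw [h]
  ring

theorem fderiv_grad3 (c : V3 → ℝ) (x xi : V3) :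
    fderiv ℝ c x xi = dot3 (grad3 c x) xi := by
  have e : xi = xi.1 • ((1, 0, 0) : V3) + xi.2.1 • ((0, 1, 0) : V3) + xi.2.2 • ((0, 0, 1) : V3) := by
    ext <;> simp
  conv_lhs => rw [e]
  rw [map_add, map_add, map_smul, map_smul, map_smul]
  unfold dot3 grad3
  simp only [smul_eq_mul]
  ring

theorem fderiv_F7_zero (hd : Handle) (x xi : V3) (a1 a2 : ℂ) :
    fderiv ℝ (F7 hd) (x, 0, 0) (xi, a1, a2) =
      dot3 (grad3 hd.c x) xi - (qgbar a1 a2 (hd.g x)).1 := by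
  rw [fderiv_F7]
  have h : fderiv ℝ (F7 hd) (x, 0, 0) (xi, 0, 0) = dot3 (grad3 hd.c x) xi := by
    apply fderiv_line _ (contDiff_F7 hd)
    have e2 : (fun t : ℝ => F7 hd ((x, 0, 0) + t • ((xi, 0, 0) : R7))) =
        fun t : ℝ => hd.c (x + t • xi) := by
      funext t
      rw [F7_eq]
      have e3 : (((x, 0, 0) : R7) + t • ((xi, 0, 0) : R7)) = (x + t • xi, 0, 0) := by
        ext <;> simp
      rw [e3]
      simp [qb]
    rw [e2, ← fderiv_grad3]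
    have h1 : HasFDerivAt hd.c (fderiv ℝ hd.c x) (x + (0 : ℝ) • xi) := by
      have : HasFDerivAt hd.c (fderiv ℝ hd.c x) x :=
        (hd.c_smooth.differentiable (by simp)).differentiableAt.hasFDerivAt
      simpa using this
    have h2 : HasDerivAt (fun t : ℝ => x + t • xi) xi 0 := by
      simpa using ((hasDerivAt_id (0 : ℝ)).smul_const xi).const_add x
    exact h1.comp_hasDerivAt (0 : ℝ) h2
  rw [h]

theorem fderiv_Pi7_zero (hd : Handle) (x xi : V3) (a1 a2 : ℂ) :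
    fderiv ℝ (Pi7 hd) (x, 0, 0) (xi, a1, a2) = (xi, (qgbar a1 a2 (hd.g x)).2) := by
  apply fderiv_line _ (contDiff_Pi7 hd)
  rw [qgbar_qb _ _ _ (hd.g_unit _)]
  have e2 : (fun t : ℝ => Pi7 hd ((x, 0, 0) + t • ((xi, a1, a2) : R7))) =
      fun t : ℝ => (x + t • xi, t • (qb a1 a2 (hd.g (x + t • xi))).2) := by
    funext t
    rw [Pi7_eq]
    have e3 : (((x, 0, 0) : R7) + t • ((xi, a1, a2) : R7)) = (x + t • xi, t • a1, t • a2) := by
      ext <;> simp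
    rw [e3]
    dsimp only
    rw [qb_smul]
    rfl
  rw [e2]
  have h2 : HasDerivAt (fun t : ℝ => x + t • xi) xi 0 := by
    simpa using ((hasDerivAt_id (0 : ℝ)).smul_const xi).const_add x
  have hq : ContDiff ℝ ∞ (fun t : ℝ => (qb a1 a2 (hd.g (x + t • xi))).2) := by
    have h3 : ContDiff ℝ ∞ (fun t : ℝ => ((x + t • xi, a1, a2) : R7)) :=
      (contDiff_const.add (contDiff_id.smul contDiff_const)).prodMk contDiff_const
    exact contDiff_snd.comp ((contDiff_qb hd).comp h3)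
  have h4 : HasDerivAt (fun t : ℝ => (qb a1 a2 (hd.g (x + t • xi))).2)
      (deriv (fun t : ℝ => (qb a1 a2 (hd.g (x + t • xi))).2) 0) 0 :=
    (hq.differentiable (by simp)).differentiableAt.hasDerivAt
  have h5 := (hasDerivAt_id (0 : ℝ)).smul h4
  have h6 : HasDerivAt (fun t : ℝ => t • (qb a1 a2 (hd.g (x + t • xi))).2)
      (qb a1 a2 (hd.g x)).2 0 := by
    have e5 : id (0 : ℝ) • deriv (fun t : ℝ => (qb a1 a2 (hd.g (x + t • xi))).2) 0 +
        (1 : ℝ) • (qb a1 a2 (hd.g (x + (0 : ℝ) • xi))).2 = (qb a1 a2 (hd.g x)).2 := by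
      simp
    rw [e5] at h5
    exact h5
  exact h2.prodMk h6

/-- Right multiplication by `-i` and the normal vector. -/
theorem qg_rot (g : V4) (hg : nsq4 g = 1) (a1 a2 : ℂ) :
    qgbar (-Complex.I * a1) (-Complex.I * a2) g =
      (-(dot3 (qgbar a1 a2 g).2 (nrm g)),
        (qgbar a1 a2 g).1 • nrm g + cross3 (qgbar a1 a2 g).2 (nrm g)) := by
  rw [qgbar_qb _ _ _ hg, qgbar_qb _ _ _ hg]
  obtain ⟨g0, g1, g2, g3⟩ := g
  obtain ⟨a, b⟩ := a1
  obtain ⟨c, d⟩ := a2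
  unfold nsq4 at hg
  dsimp only at hg
  have r1 : (-Complex.I * (⟨a, b⟩ : ℂ)).re = b := by simp
  have r2 : (-Complex.I * (⟨a, b⟩ : ℂ)).im = -a := by simp
  have r3 : (-Complex.I * (⟨c, d⟩ : ℂ)).re = d := by simp
  have r4 : (-Complex.I * (⟨c, d⟩ : ℂ)).im = -c := by simp
  unfold qb nrm dot3 cross3
  rw [r1, r2, r3, r4]
  simp only [Prod.smul_mk, Prod.mk_add_mk, smul_eq_mul, Prod.mk.injEq]
  refine ⟨?_, ?_, ?_, ?_⟩
  · linear_combination (-(b * g0 + -a * g1 + d * g2 - -c * g3)) * hg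
  · linear_combination (-(-a * g0 - b * g1 - d * g3 - -c * g2)) * hg
  · linear_combination (-(d * g0 + -c * g1 - b * g2 + -a * g3)) * hg
  · linear_combination (-(d * g1 - -c * g0 - b * g3 - -a * g2)) * hg

theorem qg_norm (g : V4) (hg : nsq4 g = 1) (a1 a2 : ℂ) : nsq4 (qgbar a1 a2 g) = qsq a1 a2 := by
  rw [qgbar_qb _ _ _ hg]
  obtain ⟨g0, g1, g2, g3⟩ := g
  obtain ⟨a, b⟩ := a1
  obtain ⟨c, d⟩ := a2
  unfold nsq4 at hg ⊢
  dsimp only at hg
  unfold qb qsq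
  simp only [Complex.normSq_mk]
  linear_combination (a * a + b * b + (c * c + d * d)) * hg

namespace FPar

def Om7 (P : FPar) : Form R7 := dd (pb1 (Pi7 P.hd) P.l6)

end FPar

end

end Pool.Agent.H34.SY
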