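import Pool.Agent.H34.SY.MD
import Pool.Agent.H34.SY.CB

/-!
# Row MD2 (`core_D`, `core_J`, `core_line`, `grad_ne`): the core near the exceptional divisor, pointwise algebra at `q = 0`

`F7 (x, q) = c(x) - Re (q ḡ(x))`, `Pi7 (x, q) = (x, Im (q ḡ(x)))`, `Om7 = dd (pb1 Pi7 l6) = pb2 Pi7 (dd l6)`.
At `q = 0` (`a` a vector of `ℂ² = ℍ`, `a ḡ = η₀ + η`, i.e. `qgbar a₁ a₂ g = (η₀, η)`, linear in `a`):
`D F7 (ξ, a) = N·ξ - η₀` with `N = grad c`, `D Pi7 (ξ, a) = (ξ, η)` (the derivative of `g` is multiplied by `q = 0`).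
So `Om7 ((ξ,a),(ξ',a')) = dd l6 (x,0) ((ξ,η),(ξ',η'))`, formula `dd_l6_zero`.  Put `V = e₁ + curl γ`, `n = nrm (g x)`
(unit vector), `n = - g i ḡ`.  Multiplication by `-i` on `ℂ²` is right multiplication of `q` by `-i`, and
`(a (-i)) ḡ = (a ḡ)(g (-i) ḡ) = (η₀ + η) n`: real part `-η·n`, imaginary part `η₀ n + η × n` (`qg_rot`, a polynomial identity with
`|g| = 1`).

CASE A: `|x| ≤ B`, `psh = 1`: `dd l6 = V·(ξ×ξ') + ξ·η' - ξ'·η`.
 (1) `D = {(ξ,0): N·ξ = 0}`: for `ξ ≠ 0` take `ξ' = N × ξ`: `V·(ξ × (N×ξ)) = V·(N|ξ|² - ξ (ξ·N)) = (V·N)|ξ|²`.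
   `V·N > 0`: with `δ = V - N`, `vn = V·n > 0`, `Nn = N·n`, tame: `|δ|² - (δ·n)² < 4 vn Nn`; so `Nn > 0`;
   `4 V·N = |V+N|² - |V-N|² ≥ (vn+Nn)² - |δ|² = 4 vn Nn + (vn - Nn)² - |δ|² > 0` (`δ·n = vn - Nn`).
 (2) if `Om7((ξ,a), (ξ',0)) = 0` for all `ξ'` with `N·ξ' = 0` and `N·ξ = η₀`: then `V × ξ - η = μ N`,.. `ξ = (η₀ V + η × N)/(V·N)`
   (unique solution).  For any `(ξ'', a(-i))` with `N·ξ'' = -η·n`:
   `Om7 = (1/(V·N)) [η₀²(V·n) + |η|²(N·n) + η₀ δ·(η×n) + (η·n)(δ·η)]`, `δ = V - N`.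
   Positive for `(η₀,η) ≠ 0`: write `η = η_n n + η_T`, `δ = δ_n n + δ_T`: the bracket is
   `vn(η₀²+η_n²) + Nn|η_T|² + δ_T·(η_n η_T + η₀ (η_T × n))`, and the last vector has norm `|η_T| √(η_n²+η₀²)`; discriminant
   `|δ_T|² < 4 vn Nn`.
CASE B: `|x| > B`: `c = x₁` near `x`, so `x₁ = 0`, `N = e₁`, `γ = 0` near, `V = e₁`; put `ψ = psh x 0`.
 (1) `ξ = (0, ξ₂, ξ₃)`, take `ξ' = (0, -ξ₃, ξ₂)`: value `ξ₂² + ξ₃²`.  (2) orthogonality to `D`: `ξ₂ = ψ η₃`, `ξ₃ = -ψ η₂`, and `ξ₁ = η₀`; then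
   for every `(ξ'', η'')`, `ξ''₁ = η₀''`: value `η₀η₁'' - η₀''η₁ - (η₂η₃'' - η₃η₂'')`, which for
   `η₀'' = -η·n`, `η'' = η₀ n + η × n` is `(η₀² + |η|²) n₁`; `n₁ = V·n > 0` (`tame_pos`).
-/

open Set Topology
open scoped ContDiff ComplexConjugate

namespace Pool.Agent.H34.SY

noncomputable section

namespace FPar

theorem MD2_sq3 (a b c : ℝ) (h : ¬ 0 < a ^ 2 + b ^ 2 + c ^ 2) : a = 0 ∧ b = 0 ∧ c = 0 := by
  have h1 := sq_nonneg a
  have h2 := sq_nonneg b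
  have h3 := sq_nonneg c
  refine ⟨pow_eq_zero_iff (two_ne_zero) |>.1 ?_, pow_eq_zero_iff (two_ne_zero) |>.1 ?_,
    pow_eq_zero_iff (two_ne_zero) |>.1 ?_⟩ <;> linarith

theorem MD2_sq2 (a b : ℝ) (h : a ^ 2 + b ^ 2 = 0) : a = 0 ∧ b = 0 := by
  have h1 := sq_nonneg a
  have h2 := sq_nonneg b
  refine ⟨pow_eq_zero_iff (two_ne_zero) |>.1 ?_, pow_eq_zero_iff (two_ne_zero) |>.1 ?_⟩ <;>
    linarith

theorem MD2_unit (g : V4) (hg : nsq4 g = 1) : nsq3 (nrm g) = 1 := by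
  have h : nsq3 (nrm g) = nsq4 g ^ 2 := by
    simp only [nsq3, nrm, nsq4]
    ring
  rw [h, hg]
  norm_num

theorem MD2_VN (V N n : V3) (hn : nsq3 n = 1)
    (h2 : nsq3 (V - N) - (dot3 (V - N) n) ^ 2 < 4 * dot3 V n * dot3 N n) : 0 < dot3 V N := by
  obtain ⟨V1, V2, V3'⟩ := V
  obtain ⟨N1, N2, N3⟩ := N
  obtain ⟨n1, n2, n3⟩ := n
  simp only [nsq3, dot3, Prod.mk_sub_mk] at *
  have key : 4 * (V1 * N1 + V2 * N2 + V3' * N3) =
      ((V2 + N2) * n3 - (V3' + N3) * n2) ^ 2 + ((V3' + N3) * n1 - (V1 + N1) * n3) ^ 2 +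
      ((V1 + N1) * n2 - (V2 + N2) * n1) ^ 2 +
      (4 * (V1 * n1 + V2 * n2 + V3' * n3) * (N1 * n1 + N2 * n2 + N3 * n3) -
        ((V1 - N1) ^ 2 + (V2 - N2) ^ 2 + (V3' - N3) ^ 2 -
          ((V1 - N1) * n1 + (V2 - N2) * n2 + (V3' - N3) * n3) ^ 2)) := by
    linear_combination (-((V1 + N1) ^ 2 + (V2 + N2) ^ 2 + (V3' + N3) ^ 2)) * hn
  have s1 := sq_nonneg ((V2 + N2) * n3 - (V3' + N3) * n2)
  have s2 := sq_nonneg ((V3' + N3) * n1 - (V1 + N1) * n3)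
  have s3 := sq_nonneg ((V1 + N1) * n2 - (V2 + N2) * n1)
  linarith

theorem MD2_D1 (n1 n2 n3 e1 e2 e3 en : ℝ) (hn : n1 ^ 2 + n2 ^ 2 + n3 ^ 2 = 1)
    (hen : e1 * n1 + e2 * n2 + e3 * n3 = en) :
    (e1 - en * n1) ^ 2 + (e2 - en * n2) ^ 2 + (e3 - en * n3) ^ 2 =
      e1 ^ 2 + e2 ^ 2 + e3 ^ 2 - en ^ 2 := by
  linear_combination (-2 * en) * hen + en ^ 2 * hn

theorem MD2_D2 (n1 n2 n3 e1 e2 e3 en d1 d2 d3 dn e0 : ℝ) (hn : n1 ^ 2 + n2 ^ 2 + n3 ^ 2 = 1)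
    (hen : e1 * n1 + e2 * n2 + e3 * n3 = en) (hdn : d1 * n1 + d2 * n2 + d3 * n3 = dn) :
    (e1 - en * n1) * (en * (d1 - dn * n1) + e0 * (n2 * d3 - n3 * d2)) +
      (e2 - en * n2) * (en * (d2 - dn * n2) + e0 * (n3 * d1 - n1 * d3)) +
      (e3 - en * n3) * (en * (d3 - dn * n3) + e0 * (n1 * d2 - n2 * d1)) =
    en * (d1 * e1 + d2 * e2 + d3 * e3) - en ^ 2 * dn +
      e0 * (d1 * (e2 * n3 - e3 * n2) + d2 * (e3 * n1 - e1 * n3) + d3 * (e1 * n2 - e2 * n1)) := by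
  linear_combination (-en * dn) * hen - en ^ 2 * hdn + (en ^ 2 * dn) * hn

theorem MD2_D3 (n1 n2 n3 en d1 d2 d3 dn e0 : ℝ) (hn : n1 ^ 2 + n2 ^ 2 + n3 ^ 2 = 1)
    (hdn : d1 * n1 + d2 * n2 + d3 * n3 = dn) :
    (en * (d1 - dn * n1) + e0 * (n2 * d3 - n3 * d2)) ^ 2 +
      (en * (d2 - dn * n2) + e0 * (n3 * d1 - n1 * d3)) ^ 2 +
      (en * (d3 - dn * n3) + e0 * (n1 * d2 - n2 * d1)) ^ 2 =
    (e0 ^ 2 + en ^ 2) * (d1 ^ 2 + d2 ^ 2 + d3 ^ 2 - dn ^ 2) := by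
  linear_combination (-2 * en ^ 2 * dn - e0 ^ 2 * (d1 * n1 + d2 * n2 + d3 * n3 + dn)) * hdn +
    (en ^ 2 * dn ^ 2 + e0 ^ 2 * (d1 ^ 2 + d2 ^ 2 + d3 ^ 2)) * hn

theorem MD2_D4 (ET1 ET2 ET3 w1 w2 w3 Nn : ℝ) :
    (2 * Nn * ET1 + w1) ^ 2 + (2 * Nn * ET2 + w2) ^ 2 + (2 * Nn * ET3 + w3) ^ 2 =
      4 * Nn ^ 2 * (ET1 ^ 2 + ET2 ^ 2 + ET3 ^ 2) + 4 * Nn * (ET1 * w1 + ET2 * w2 + ET3 * w3) +
        (w1 ^ 2 + w2 ^ 2 + w3 ^ 2) := by
  ring

theorem MD2_D (d n e : V3) (e0 Nn : ℝ) (hn : nsq3 n = 1) (hv : 0 < dot3 d n + Nn)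
    (hT : nsq3 d - (dot3 d n) ^ 2 < 4 * (dot3 d n + Nn) * Nn) (hne : e0 ≠ 0 ∨ e ≠ 0) :
    0 < e0 ^ 2 * (dot3 d n + Nn) + nsq3 e * Nn + e0 * dot3 d (cross3 e n) + dot3 e n * dot3 d e := by
  obtain ⟨d1, d2, d3⟩ := d
  obtain ⟨n1, n2, n3⟩ := n
  obtain ⟨e1, e2, e3⟩ := e
  simp only [nsq3, dot3, cross3] at *
  have hT0 : 0 ≤ (d1 ^ 2 + d2 ^ 2 + d3 ^ 2) - (d1 * n1 + d2 * n2 + d3 * n3) ^ 2 := by
    have h : (d1 ^ 2 + d2 ^ 2 + d3 ^ 2) - (d1 * n1 + d2 * n2 + d3 * n3) ^ 2 =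
        (d2 * n3 - d3 * n2) ^ 2 + (d3 * n1 - d1 * n3) ^ 2 + (d1 * n2 - d2 * n1) ^ 2 := by
      linear_combination (-(d1 ^ 2 + d2 ^ 2 + d3 ^ 2)) * hn
    rw [h]
    positivity
  have hNn : 0 < Nn := by
    by_contra hc
    push Not at hc
    nlinarith [mul_nonneg hv.le (neg_nonneg.2 hc)]
  generalize hdn : d1 * n1 + d2 * n2 + d3 * n3 = dn at *
  generalize hen : e1 * n1 + e2 * n2 + e3 * n3 = en at *
  have k1 := MD2_D1 n1 n2 n3 e1 e2 e3 en hn hen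
  have k2 := MD2_D2 n1 n2 n3 e1 e2 e3 en d1 d2 d3 dn e0 hn hen hdn
  have k3 := MD2_D3 n1 n2 n3 en d1 d2 d3 dn e0 hn hdn
  have k4 := MD2_D4 (e1 - en * n1) (e2 - en * n2) (e3 - en * n3)
    (en * (d1 - dn * n1) + e0 * (n2 * d3 - n3 * d2))
    (en * (d2 - dn * n2) + e0 * (n3 * d1 - n1 * d3))
    (en * (d3 - dn * n3) + e0 * (n1 * d2 - n2 * d1)) Nn
  have k5 : 0 ≤ (2 * Nn * (e1 - en * n1) + (en * (d1 - dn * n1) + e0 * (n2 * d3 - n3 * d2))) ^ 2 +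
      (2 * Nn * (e2 - en * n2) + (en * (d2 - dn * n2) + e0 * (n3 * d1 - n1 * d3))) ^ 2 +
      (2 * Nn * (e3 - en * n3) + (en * (d3 - dn * n3) + e0 * (n1 * d2 - n2 * d1))) ^ 2 := by
    positivity
  rw [k4, k1, k2, k3] at k5
  generalize d1 * (e2 * n3 - e3 * n2) + d2 * (e3 * n1 - e1 * n3) + d3 * (e1 * n2 - e2 * n1) = X at *
  generalize d1 * e1 + d2 * e2 + d3 * e3 = Y at *
  by_cases ha : e0 ^ 2 + en ^ 2 = 0
  · obtain ⟨h0, h1⟩ := MD2_sq2 e0 en ha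
    rcases hne with h | h
    · exact absurd h0 h
    · rw [h0, h1]
      have h2 : 0 < e1 ^ 2 + e2 ^ 2 + e3 ^ 2 := by
        by_contra hc
        apply h
        obtain ⟨e1', e2', e3'⟩ := MD2_sq3 e1 e2 e3 hc
        rw [e1', e2', e3']
        rfl
      have h3 := mul_pos h2 hNn
      linarith
  · have ha' : 0 < e0 ^ 2 + en ^ 2 := lt_of_le_of_ne (by positivity) (Ne.symm ha)
    have h1 : 0 < (e0 ^ 2 + en ^ 2) * (4 * (dn + Nn) * Nn - (d1 ^ 2 + d2 ^ 2 + d3 ^ 2 - dn ^ 2)) :=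
      mul_pos ha' (by linarith)
    have h2 : 0 < (4 * Nn) * (e0 ^ 2 * (dn + Nn) + (e1 ^ 2 + e2 ^ 2 + e3 ^ 2) * Nn +
      e0 * X + en * Y) := by
      have h3 : (4 * Nn) * (e0 ^ 2 * (dn + Nn) + (e1 ^ 2 + e2 ^ 2 + e3 ^ 2) * Nn +
        e0 * X + en * Y) = (e0 ^ 2 + en ^ 2) * (4 * (dn + Nn) * Nn - (d1 ^ 2 + d2 ^ 2 + d3 ^ 2 - dn ^ 2)) +
        (4 * Nn ^ 2 * (e1 ^ 2 + e2 ^ 2 + e3 ^ 2 - en ^ 2) + 4 * Nn * (en * Y - en ^ 2 * dn + e0 * X) +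
        (e0 ^ 2 + en ^ 2) * (d1 ^ 2 + d2 ^ 2 + d3 ^ 2 - dn ^ 2)) := by ring
      rw [h3]
      exact add_pos_of_pos_of_nonneg h1 k5
    exact pos_of_mul_pos_right h2 (by positivity)

theorem MD2_A (V N n e xi xi'' : V3) (e0 : ℝ) (hn : nsq3 n = 1) (h1 : 0 < dot3 V n)
    (h2 : nsq3 (V - N) - (dot3 (V - N) n) ^ 2 < 4 * dot3 V n * dot3 N n)
    (hk : dot3 N xi = e0)
    (horth : ∀ xi' : V3, dot3 N xi' = 0 → dot3 V (cross3 xi xi') - dot3 xi' e = 0)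
    (hk'' : dot3 N xi'' = -(dot3 e n)) (hne : e0 ≠ 0 ∨ e ≠ 0) :
    0 < dot3 V (cross3 xi xi'') + dot3 xi (e0 • n + cross3 e n) - dot3 xi'' e := by
  have hm := MD2_VN V N n hn h2
  have hdn : dot3 (V - N) n + dot3 N n = dot3 V n := by
    simp only [dot3, Prod.fst_sub, Prod.snd_sub]
    ring
  have hD := MD2_D (V - N) n e e0 (dot3 N n) hn (by rw [hdn]; exact h1) (by rw [hdn]; exact h2) hne
  rw [hdn] at hD
  have o1 := horth (cross3 N (1, 0, 0)) (by simp only [dot3, cross3]; ring)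
  have o2 := horth (cross3 N (0, 1, 0)) (by simp only [dot3, cross3]; ring)
  have o3 := horth (cross3 N (0, 0, 1)) (by simp only [dot3, cross3]; ring)
  obtain ⟨V1, V2, V3'⟩ := V
  obtain ⟨N1, N2, N3⟩ := N
  obtain ⟨n1, n2, n3⟩ := n
  obtain ⟨e1, e2, e3⟩ := e
  obtain ⟨x1, x2, x3⟩ := xi
  obtain ⟨y1, y2, y3⟩ := xi''
  simp only [nsq3, dot3, cross3, Prod.mk_sub_mk, Prod.smul_mk, Prod.mk_add_mk, smul_eq_mul] at *
  have p1 : (V1 * N1 + V2 * N2 + V3' * N3) * x1 = e0 * V1 + (e2 * N3 - e3 * N2) := by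
    linear_combination o1 + V1 * hk
  have p2 : (V1 * N1 + V2 * N2 + V3' * N3) * x2 = e0 * V2 + (e3 * N1 - e1 * N3) := by
    linear_combination o2 + V2 * hk
  have p3 : (V1 * N1 + V2 * N2 + V3' * N3) * x3 = e0 * V3' + (e1 * N2 - e2 * N1) := by
    linear_combination o3 + V3' * hk
  apply pos_of_mul_pos_right _ hm.le
  refine lt_of_lt_of_eq hD ?_
  linear_combination (-((y2 * V3' - y3 * V2) + (e0 * n1 + (e2 * n3 - e3 * n2)))) * p1 -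
    ((y3 * V1 - y1 * V3') + (e0 * n2 + (e3 * n1 - e1 * n3))) * p2 -
    ((y1 * V2 - y2 * V1) + (e0 * n3 + (e1 * n2 - e2 * n1))) * p3 +
    (V1 * e1 + V2 * e2 + V3' * e3) * hk''

theorem MD2_B (n e xi xi'' : V3) (e0 s : ℝ) (h1 : 0 < n.1) (hk : xi.1 = e0)
    (horth : ∀ xi' : V3, xi'.1 = 0 → (xi.2.1 * xi'.2.2 - xi.2.2 * xi'.2.1) -
      s * (xi'.2.1 * e.2.1 + xi'.2.2 * e.2.2) = 0)
    (hk'' : xi''.1 = -(dot3 e n)) (hne : e0 ≠ 0 ∨ e ≠ 0) :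
    0 < (xi.2.1 * xi''.2.2 - xi.2.2 * xi''.2.1) +
      (xi.1 * (e0 * n.1 + (e.2.1 * n.2.2 - e.2.2 * n.2.1)) - xi''.1 * e.1) +
      s * ((xi.2.1 * (e0 * n.2.1 + (e.2.2 * n.1 - e.1 * n.2.2)) - xi''.2.1 * e.2.1) +
        (xi.2.2 * (e0 * n.2.2 + (e.1 * n.2.1 - e.2.1 * n.1)) - xi''.2.2 * e.2.2)) +
      (s ^ 2 - 1) * (e.2.1 * (e0 * n.2.2 + (e.1 * n.2.1 - e.2.1 * n.1)) -
        e.2.2 * (e0 * n.2.1 + (e.2.2 * n.1 - e.1 * n.2.2))) := by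
  have o1 := horth (0, 1, 0) rfl
  have o2 := horth (0, 0, 1) rfl
  obtain ⟨n1, n2, n3⟩ := n
  obtain ⟨e1, e2, e3⟩ := e
  obtain ⟨x1, x2, x3⟩ := xi
  obtain ⟨y1, y2, y3⟩ := xi''
  simp only [dot3] at *
  have p1 : x3 = -(s * e2) := by linarith
  have p2 : x2 = s * e3 := by linarith
  subst p1 p2 hk hk''
  have h2 : 0 < (x1 ^ 2 + (e1 ^ 2 + e2 ^ 2 + e3 ^ 2)) := by
    by_contra hc
    have q0 := sq_nonneg x1
    have q1 := sq_nonneg e1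
    have q2 := sq_nonneg e2
    have q3 := sq_nonneg e3
    obtain ⟨e1', e2', e3'⟩ := MD2_sq3 e1 e2 e3 (by linarith)
    have e0' : x1 = 0 := pow_eq_zero_iff (two_ne_zero) |>.1 (by linarith)
    rcases hne with h | h
    · exact h e0'
    · apply h
      rw [e1', e2', e3']
      rfl
  refine lt_of_lt_of_eq (mul_pos h2 h1) ?_
  ring

theorem MD2_qz (g : V4) : qgbar 0 0 g = 0 := by
  simp [qgbar]

theorem MD2_Om7 (P : FPar) (hT2 : 0 < P.T2) (hTa : 0 < P.Ta) (x xi xi' : V3) (a1 a2 b1 b2 : ℂ) :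
    P.Om7 (x, 0, 0) (xi, a1, a2) (xi', b1, b2) =
      dd P.l6 (x, 0) (xi, (qgbar a1 a2 (P.hd.g x)).2) (xi', (qgbar b1 b2 (P.hd.g x)).2) := by
  unfold Om7
  rw [dd_pb1 ((contDiff_Pi7 P.hd).contDiffAt.of_le (WithTop.coe_le_coe.2 le_top))
    ((contDiff_l6 P hT2 hTa).differentiable (by simp)).differentiableAt, pb2_apply,
    fderiv_Pi7_zero, fderiv_Pi7_zero]
  have h : Pi7 P.hd (x, 0, 0) = (x, 0) := by
    unfold Pi7
    simp only [MD2_qz]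
    rfl
  rw [h]

theorem MD2_tame (hd : Handle) (x : V3) (hx : hd.c x = 0) :
    0 < dot3 ((1, 0, 0) + curl3 hd.ga x) (grad3 hd.c x) :=
  MD2_VN _ _ (nrm (hd.g x)) (MD2_unit _ (hd.g_unit x)) (hd.tame x hx)

/-- (1): the horizontal plane is symplectic. -/
theorem core_D (P : FPar) (hT2 : 0 < P.T2) (hTa : 0 < P.Ta) (x : V3) (hx : P.hd.c x = 0)
    (xi : V3) (hxi : xi ≠ 0) (h : dot3 (grad3 P.hd.c x) xi = 0) :
    ∃ xi' : V3, dot3 (grad3 P.hd.c x) xi' = 0 ∧ P.Om7 (x, 0, 0) (xi, 0, 0) (xi', 0, 0) ≠ 0 := by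
  have hm := MD2_tame P.hd x hx
  refine ⟨cross3 (grad3 P.hd.c x) xi, by simp only [dot3, cross3]; ring, ?_⟩
  rw [MD2_Om7 P hT2 hTa, dd_l6_zero P hT2 hTa, MD2_qz]
  generalize (1, 0, 0) + curl3 P.hd.ga x = V at *
  generalize grad3 P.hd.c x = N at *
  have h2 : 0 < nsq3 xi := by
    obtain ⟨x1, x2, x3⟩ := xi
    simp only [nsq3]
    by_contra hc
    apply hxi
    obtain ⟨e1', e2', e3'⟩ := MD2_sq3 x1 x2 x3 hc
    rw [e1', e2', e3']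
    rfl
  have h3 : dot3 V (cross3 xi (cross3 N xi)) = dot3 V N * nsq3 xi := by
    simp only [dot3, cross3, nsq3] at h ⊢
    linear_combination (-(V.1 * xi.1 + V.2.1 * xi.2.1 + V.2.2 * xi.2.2)) * h
  simp only [Prod.snd_zero, Prod.fst_zero]
  rw [h3]
  have h4 := mul_pos hm h2
  simp
  exact ⟨hm.ne', h2.ne'⟩

theorem MD2_far (hd : Handle) (x : V3) (hx : hd.B ^ 2 < nsq3 x) :
    grad3 hd.c x = (1, 0, 0) ∧ curl3 hd.ga x = 0 := by
  have hcont : Continuous nsq3 := by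
    unfold nsq3
    fun_prop
  have hU : {y : V3 | hd.B ^ 2 < nsq3 y} ∈ 𝓝 x := (isOpen_lt continuous_const hcont).mem_nhds hx
  have h1 : hd.c =ᶠ[𝓝 x] fun y => y.1 := by
    filter_upwards [hU] with y hy
    exact hd.c_far y (le_of_lt hy)
  have h2 : hd.ga =ᶠ[𝓝 x] fun _ => 0 := by
    filter_upwards [hU] with y hy
    exact hd.ga_far y (le_of_lt hy)
  constructor
  · unfold grad3
    rw [h1.fderiv_eq]
    have h3 : fderiv ℝ (fun y : V3 => y.1) x = ContinuousLinearMap.fst ℝ ℝ (ℝ × ℝ) :=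
      (ContinuousLinearMap.fst ℝ ℝ (ℝ × ℝ)).fderiv
    rw [h3]
    simp
  · unfold curl3
    rw [h2.fderiv_eq]
    simp

/-- (2): on the orthogonal complement the form tames the complex structure. -/
theorem core_J (P : FPar) (hT2 : 0 < P.T2) (hTa : 0 < P.Ta) (x : V3) (hx : P.hd.c x = 0)
    (xi : V3) (a1 a2 : ℂ) (ha : a1 ≠ 0 ∨ a2 ≠ 0)
    (hk : fderiv ℝ (F7 P.hd) (x, 0, 0) (xi, a1, a2) = 0)
    (horth : ∀ xi' : V3, dot3 (grad3 P.hd.c x) xi' = 0 →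
      P.Om7 (x, 0, 0) (xi, a1, a2) (xi', 0, 0) = 0)
    (xi'' : V3)
    (hk'' : fderiv ℝ (F7 P.hd) (x, 0, 0) (xi'', -Complex.I * a1, -Complex.I * a2) = 0) :
    0 < P.Om7 (x, 0, 0) (xi, a1, a2) (xi'', -Complex.I * a1, -Complex.I * a2) := by
  have hg := P.hd.g_unit x
  have hn := MD2_unit _ hg
  have hpos := P.hd.tame_pos x hx
  have htame := P.hd.tame x hx
  rw [fderiv_F7_zero] at hk hk''
  rw [qg_rot _ hg] at hk''
  have hq := qg_norm (P.hd.g x) hg a1 a2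
  have hq0 : 0 < qsq a1 a2 := by
    unfold qsq
    rcases ha with h | h
    · have := Complex.normSq_pos.2 h
      have := Complex.normSq_nonneg a2
      linarith
    · have := Complex.normSq_pos.2 h
      have := Complex.normSq_nonneg a1
      linarith
  have horth' : ∀ xi' : V3, dot3 (grad3 P.hd.c x) xi' = 0 →
      dot3 ((1, 0, 0) + curl3 P.hd.ga x) (cross3 xi xi') -
        xi'.1 * (qgbar a1 a2 (P.hd.g x)).2.1 - P.psh x 0 *
          (xi'.2.1 * (qgbar a1 a2 (P.hd.g x)).2.2.1 + xi'.2.2 * (qgbar a1 a2 (P.hd.g x)).2.2.2) = 0 := by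
    intro xi' h
    have h1 := horth xi' h
    rw [MD2_Om7 P hT2 hTa, dd_l6_zero P hT2 hTa, MD2_qz] at h1
    simp only [Prod.snd_zero, Prod.fst_zero] at h1
    linarith
  rw [MD2_Om7 P hT2 hTa, dd_l6_zero P hT2 hTa, qg_rot _ hg]
  generalize hQ : qgbar a1 a2 (P.hd.g x) = Q at *
  obtain ⟨e0, e⟩ := Q
  have hne : e0 ≠ 0 ∨ e ≠ 0 := by
    by_contra hc
    push Not at hc
    obtain ⟨rfl, rfl⟩ := hc
    rw [← hq] at hq0
    simp [nsq4] at hq0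
  generalize hnn : nrm (P.hd.g x) = n at *
  rcases le_or_gt (nsq3 x) (P.hd.B ^ 2) with hb | hb
  · rw [psh_zero P hT2 hTa x hb] at horth' ⊢
    have h1 := MD2_A ((1, 0, 0) + curl3 P.hd.ga x) (grad3 P.hd.c x) n e xi xi'' e0 hn hpos htame
      (by simp only at hk; linarith) (by
        intro xi' h
        have h2 := horth' xi' h
        simp only [dot3] at h2 ⊢
        linarith) (by simp only at hk''; linarith) hne
    refine lt_of_lt_of_eq h1 ?_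
    simp only [dot3]
    ring
  · obtain ⟨h3, h4⟩ := MD2_far P.hd x hb
    rw [h3] at hk hk'' horth'
    rw [h4] at hpos horth' ⊢
    have h1 := MD2_B n e xi xi'' e0 (P.psh x 0) (by
        simp only [dot3, add_zero] at hpos
        linarith) (by simp only [dot3] at hk; linarith) (by
        intro xi' h
        have h2 := horth' xi' (by simp only [dot3]; linarith)
        simp only [dot3, cross3, add_zero] at h2
        rw [h] at h2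
        linarith) (by simp only [dot3] at hk'' ⊢; linarith) hne
    refine lt_of_lt_of_eq h1 ?_
    simp only [dot3, cross3, add_zero, Prod.fst_add, Prod.snd_add, Prod.smul_fst, Prod.smul_snd,
      smul_eq_mul]
    ring

/-- `grad c ≠ 0` on `c = 0`. -/
theorem grad_ne (hd : Handle) (x : V3) (hx : hd.c x = 0) : grad3 hd.c x ≠ 0 := by
  intro h
  have h1 := MD2_tame hd x hx
  rw [h] at h1
  simp [dot3] at h1

/-- Nondegeneracy on every complex line `ℓ = ℂ e`. -/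
theorem core_line (P : FPar) (hT2 : 0 < P.T2) (hTa : 0 < P.Ta) (x : V3) (hx : P.hd.c x = 0)
    (e1 e2 : ℂ) (he : e1 ≠ 0 ∨ e2 ≠ 0) (xi : V3) (l : ℂ) (hne : xi ≠ 0 ∨ l ≠ 0)
    (hk : fderiv ℝ (F7 P.hd) (x, 0, 0) (xi, l * e1, l * e2) = 0) :
    ∃ (xi' : V3) (l' : ℂ), fderiv ℝ (F7 P.hd) (x, 0, 0) (xi', l' * e1, l' * e2) = 0 ∧
      P.Om7 (x, 0, 0) (xi, l * e1, l * e2) (xi', l' * e1, l' * e2) ≠ 0 := by
  by_cases hl : l = 0
  · subst hl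
    have hxi : xi ≠ 0 := by
      rcases hne with h | h
      · exact h
      · exact absurd rfl h
    simp only [zero_mul] at hk ⊢
    have hk1 := hk
    rw [fderiv_F7_zero, MD2_qz] at hk1
    simp only [Prod.fst_zero, sub_zero] at hk1
    obtain ⟨xi', h1, h2⟩ := core_D P hT2 hTa x hx xi hxi hk1
    refine ⟨xi', 0, ?_, ?_⟩
    · simp only [zero_mul]
      rw [fderiv_F7_zero, MD2_qz, h1]
      simp
    · simp only [zero_mul]
      exact h2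
  · by_cases horth : ∀ xi' : V3, dot3 (grad3 P.hd.c x) xi' = 0 →
      P.Om7 (x, 0, 0) (xi, l * e1, l * e2) (xi', 0, 0) = 0
    · have hN : 0 < nsq3 (grad3 P.hd.c x) := by
        have h0 := grad_ne P.hd x hx
        generalize grad3 P.hd.c x = N at *
        obtain ⟨x1, x2, x3⟩ := N
        simp only [nsq3]
        by_contra hc
        apply h0
        obtain ⟨e1', e2', e3'⟩ := MD2_sq3 x1 x2 x3 hc
        rw [e1', e2', e3']
        rfl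
      have hk'' : fderiv ℝ (F7 P.hd) (x, 0, 0)
          (((qgbar (-Complex.I * (l * e1)) (-Complex.I * (l * e2)) (P.hd.g x)).1 /
            nsq3 (grad3 P.hd.c x)) • grad3 P.hd.c x, -Complex.I * (l * e1), -Complex.I * (l * e2)) = 0 := by
        rw [fderiv_F7_zero]
        generalize (qgbar (-Complex.I * (l * e1)) (-Complex.I * (l * e2)) (P.hd.g x)).1 = r
        generalize grad3 P.hd.c x = N at *
        have h1 : dot3 N ((r / nsq3 N) • N) = r := by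
          have h2 : dot3 N ((r / nsq3 N) • N) = r / nsq3 N * nsq3 N := by
            simp only [dot3, nsq3, Prod.smul_fst, Prod.smul_snd, smul_eq_mul]
            ring
          rw [h2]
          field_simp
        rw [h1, sub_self]
      have h1 := core_J P hT2 hTa x hx xi (l * e1) (l * e2) (by
        rcases he with h | h
        · exact Or.inl (mul_ne_zero hl h)
        · exact Or.inr (mul_ne_zero hl h)) hk horth _ hk''
      refine ⟨((qgbar (-Complex.I * (l * e1)) (-Complex.I * (l * e2)) (P.hd.g x)).1 /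
            nsq3 (grad3 P.hd.c x)) • grad3 P.hd.c x, -Complex.I * l, ?_, ?_⟩
      · rw [mul_assoc, mul_assoc]
        exact hk''
      · rw [mul_assoc (-Complex.I), mul_assoc (-Complex.I)]
        exact h1.ne'
    · push Not at horth
      obtain ⟨xi', h1, h2⟩ := horth
      refine ⟨xi', 0, ?_, ?_⟩
      · simp only [zero_mul]
        rw [fderiv_F7_zero, MD2_qz, h1]
        simp
      · simp only [zero_mul]
        exact h2

end FPar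

end

end Pool.Agent.H34.SY
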