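import Pool.Agent.H34.SY.MD2
import Pool.Agent.H34.SY.SI

/-!
# Row ME: a neighbourhood of the exceptional divisor (compactness)

`NearE P κ`: nondegeneracy of `Om7 + E` on `ker D F7` for all `|q| < r0`, `|u|² ≤ s1 + 1`, `F7 = 0`, and all bilinear forms `E` on the
`q`-directions with `E(a, -i a) ≥ -κ |a|²`.

`exists_nearE` (everything depends only on `hd`, `T2`, `Ta`): by contradiction and compactness.  For `v = (x,q)` let
`N_v = (D F7 v (e_k, 0, 0))_k`.  Suppose that for every `j` there are `v_j` with `|q_j| < 1/j`, `F7 v_j = 0`, `|u|² ≤ s1+1`, a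
bilinear form `E_j` with `E_j(a,-ia) ≥ -|a|²/j` and `w_j = (ξ_j, a_j) ∈ ker D F7 v_j`, `‖w_j‖ = 1`, with
`Om7 v_j w_j w' + E_j a_j a' = 0` for all `w' = (ξ', a') ∈ ker D F7 v_j`.  `x_j` is bounded (`|c(x_j)| ≤ |q_j| ≤ 1` and `c(x) = x₁` for
`|x| ≥ B`), so a subsequence converges: `v_j → (x, 0)`, `w_j → w = (ξ, a)`, `‖w‖ = 1`, `c(x) = 0`, `w ∈ ker`.  Test vectors:
`(N_{v_j} × e, 0) ∈ ker` for every vector `e`: `Om7 v_j w_j (N_{v_j}×e, 0) = 0`, in the limit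
`Om7 (x,0) w (N × e, 0) = 0` for all `e`, and every `ξ' ⊥ N` is of the form `N × e` (`N ≠ 0`).  Second test vector:
`(ξ'_j, -i a_j)` with `ξ'_j = λ_j N_{v_j}`, `λ_j = Re((-i a_j) ḡ)/|N_{v_j}|²`: `Om7 v_j w_j (ξ'_j, -i a_j) = -E_j(a_j,-i a_j) ≤ |a_j|²/j → 0`,
so in the limit `Om7 (x,0) w (ξ', -i a) ≤ 0`; by `core_J` this forces `a = 0`; then `w = (ξ, 0)`, `N·ξ = 0`, `ξ ≠ 0`,
contradiction with `core_D`.  Continuity: `Om7` is continuous in `v` (`contDiff_l6`, `contDiff_Pi7`, `contDiffOn_dd`).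
(Alternatively an argument with open covers.)  The quantifier over all `P` with the given `hd, T2, Ta`: `Om7` and `s1` depend only on
these; fix one such `P`.

`Ef_bound`: for `q ≠ 0`, with `alq2 q a = Im (conj q₁ a₁ + conj q₂ a₂)/|q|²` and a function `ch(|q|²)` with values `≥ 0`:
`E = - eps dd (ch(|q|²) alq2)` satisfies `E(a, -i a) ≥ - 2 eps |ch'| |a|²`:
`dd (ch alq2)(a, i a) = 2 ch |a_h|²/|q|² + 2 ch' (⟨q,a⟩² + ⟨iq,a⟩²)/|q|²`, `|a_h|² = |q₁a₂ - q₂a₁|²/|q|² ≥ 0`.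
-/

open Set Topology
open scoped ContDiff ComplexConjugate

namespace Pool.Agent.H34.SY

noncomputable section

/-- `ℂ²`. -/
abbrev C2 : Type := ℂ × ℂ

def alq2 : Form1 C2 := fun q =>
  (qsq q.1 q.2)⁻¹ • (imF (ContinuousLinearMap.fst ℝ ℂ ℂ) q + imF (ContinuousLinearMap.snd ℝ ℂ ℂ) q)

def ME_be : Form1 C2 := fun q =>
  imF (ContinuousLinearMap.fst ℝ ℂ ℂ) q + imF (ContinuousLinearMap.snd ℝ ℂ ℂ) q

def ME_L (q : C2) : C2 →L[ℝ] ℝ :=
  (2 * q.1.re) • Complex.reCLM.comp (ContinuousLinearMap.fst ℝ ℂ ℂ) +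
    (2 * q.1.im) • Complex.imCLM.comp (ContinuousLinearMap.fst ℝ ℂ ℂ) +
    ((2 * q.2.re) • Complex.reCLM.comp (ContinuousLinearMap.snd ℝ ℂ ℂ) +
      (2 * q.2.im) • Complex.imCLM.comp (ContinuousLinearMap.snd ℝ ℂ ℂ))

theorem ME_qsq_deriv (q : C2) : HasFDerivAt (fun q : C2 => qsq q.1 q.2) (ME_L q) q := by
  have h1 : HasFDerivAt (fun p : C2 => p.1.re)
      (Complex.reCLM.comp (ContinuousLinearMap.fst ℝ ℂ ℂ)) q :=
    (Complex.reCLM.comp (ContinuousLinearMap.fst ℝ ℂ ℂ)).hasFDerivAt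
  have h2 : HasFDerivAt (fun p : C2 => p.1.im)
      (Complex.imCLM.comp (ContinuousLinearMap.fst ℝ ℂ ℂ)) q :=
    (Complex.imCLM.comp (ContinuousLinearMap.fst ℝ ℂ ℂ)).hasFDerivAt
  have h3 : HasFDerivAt (fun p : C2 => p.2.re)
      (Complex.reCLM.comp (ContinuousLinearMap.snd ℝ ℂ ℂ)) q :=
    (Complex.reCLM.comp (ContinuousLinearMap.snd ℝ ℂ ℂ)).hasFDerivAt
  have h4 : HasFDerivAt (fun p : C2 => p.2.im)
      (Complex.imCLM.comp (ContinuousLinearMap.snd ℝ ℂ ℂ)) q :=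
    (Complex.imCLM.comp (ContinuousLinearMap.snd ℝ ℂ ℂ)).hasFDerivAt
  have h := ((h1.mul h1).add (h2.mul h2)).add ((h3.mul h3).add (h4.mul h4))
  have e : (fun p : C2 => qsq p.1 p.2) = fun p => (p.1.re * p.1.re +
      p.1.im * p.1.im) + (p.2.re * p.2.re + p.2.im * p.2.im) := by
    funext p
    simp only [qsq, Complex.normSq_apply]
  refine (h.congr_of_eventuallyEq (Filter.Eventually.of_forall fun q => congrFun e q)).congr_fderiv ?_
  unfold ME_L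
  ext v
  all_goals
    simp only [ContinuousLinearMap.add_comp, ContinuousLinearMap.smul_comp, add_apply, smul_apply,
      ContinuousLinearMap.comp_apply, smul_eq_mul]
    ring

theorem ME_be_apply (q a : C2) : ME_be q a = (conj q.1 * a.1).im + (conj q.2 * a.2).im := by
  unfold ME_be
  rw [add_apply, imF_apply, imF_apply]
  rfl

theorem ME_be_diff (q : C2) : DifferentiableAt ℝ ME_be q :=
  ((contDiff_imF (ContinuousLinearMap.fst ℝ ℂ ℂ)).differentiable (by simp) q).add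
    ((contDiff_imF (ContinuousLinearMap.snd ℝ ℂ ℂ)).differentiable (by simp) q)

theorem ME_dd_be (q a b : C2) : dd ME_be q a b =
    2 * (conj a.1 * b.1).im + 2 * (conj a.2 * b.2).im := by
  have h := dd_add (l := imF (ContinuousLinearMap.fst ℝ ℂ ℂ))
    (m := imF (ContinuousLinearMap.snd ℝ ℂ ℂ)) (z := q)
    ((contDiff_imF (ContinuousLinearMap.fst ℝ ℂ ℂ)).differentiable (by simp) q)
    ((contDiff_imF (ContinuousLinearMap.snd ℝ ℂ ℂ)).differentiable (by simp) q)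
  have h2 : dd ME_be q = dd (fun y => imF (ContinuousLinearMap.fst ℝ ℂ ℂ) y +
    imF (ContinuousLinearMap.snd ℝ ℂ ℂ) y) q := rfl
  rw [h2, h, add_apply, add_apply, dd_imF, dd_imF]
  rfl

theorem ME_alg (r x y A c' c : ℝ) (hr : 0 < r) (hc : 0 ≤ c)
    (hCS : x ^ 2 + y ^ 2 ≤ r * A) :
    -(2 * |c'|) * A ≤ -((c' * r⁻¹ + c * (-(r ^ 2)⁻¹)) * (2 * x) * (-x) -
      y * ((c' * r⁻¹ + c * (-(r ^ 2)⁻¹)) * (2 * y)) + c * r⁻¹ * (-(2 * A))) := by
  have e : -((c' * r⁻¹ + c * (-(r ^ 2)⁻¹)) * (2 * x) * (-x) -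
      y * ((c' * r⁻¹ + c * (-(r ^ 2)⁻¹)) * (2 * y)) + c * r⁻¹ * (-(2 * A))) =
      2 * c' * ((x ^ 2 + y ^ 2) / r) + 2 * (c / r ^ 2) * (r * A - (x ^ 2 + y ^ 2)) := by
    field_simp
    ring
  rw [e]
  have h1 : (x ^ 2 + y ^ 2) / r ≤ A := by
    rw [div_le_iff₀ hr]
    linarith
  have h2 : 0 ≤ (x ^ 2 + y ^ 2) / r := by positivity
  have h3 : 0 ≤ 2 * (c / r ^ 2) * (r * A - (x ^ 2 + y ^ 2)) := by
    apply mul_nonneg
    · positivity
    · linarith
  have h4 : -|c'| ≤ c' := neg_abs_le c'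
  have h5 : 0 ≤ |c'| := abs_nonneg c'
  nlinarith [mul_nonneg h5 (sub_nonneg.2 h1), mul_nonneg (by linarith : 0 ≤ c' + |c'|) h2]

theorem Ef_bound (ch : ℝ → ℝ) (q a : C2) (hq : q.1 ≠ 0 ∨ q.2 ≠ 0)
    (hch : ContDiffAt ℝ ∞ ch (qsq q.1 q.2)) (h0 : 0 ≤ ch (qsq q.1 q.2)) :
    -(2 * |deriv ch (qsq q.1 q.2)|) * qsq a.1 a.2 ≤
      -(dd (fun q : C2 => ch (qsq q.1 q.2) • alq2 q) q a (-Complex.I • a)) := by
  have hr : 0 < qsq q.1 q.2 := by
    unfold qsq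
    rcases hq with h | h
    · have := Complex.normSq_pos.2 h
      have := Complex.normSq_nonneg q.2
      linarith
    · have := Complex.normSq_pos.2 h
      have := Complex.normSq_nonneg q.1
      linarith
  have e1 : (fun q : C2 => ch (qsq q.1 q.2) • alq2 q) =
      fun q : C2 => (ch (qsq q.1 q.2) * (qsq q.1 q.2)⁻¹) • ME_be q := by
    funext q
    unfold alq2 ME_be
    rw [smul_smul]
  have hG : HasDerivAt (fun s : ℝ => ch s * s⁻¹)
      (deriv ch (qsq q.1 q.2) * (qsq q.1 q.2)⁻¹ +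
        ch (qsq q.1 q.2) * (-((qsq q.1 q.2) ^ 2)⁻¹)) (qsq q.1 q.2) :=
    (hch.differentiableAt (by simp)).hasDerivAt.mul (hasDerivAt_inv hr.ne')
  have hf0 := HasDerivAt.comp_hasFDerivAt (f := fun q : C2 => qsq q.1 q.2) q hG (ME_qsq_deriv q)
  have hf : HasFDerivAt (fun q : C2 => ch (qsq q.1 q.2) * (qsq q.1 q.2)⁻¹)
      ((deriv ch (qsq q.1 q.2) * (qsq q.1 q.2)⁻¹ +
        ch (qsq q.1 q.2) * (-((qsq q.1 q.2) ^ 2)⁻¹)) • ME_L q) q := hf0
  rw [e1, dd_smul hf.differentiableAt (ME_be_diff q), add_apply, add_apply, wdg_apply, hf.fderiv,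
    smul_apply, smul_apply, smul_apply, smul_apply, ME_be_apply, ME_be_apply, ME_dd_be]
  have ea : ME_L q a = 2 * ((q.1.re * a.1.re + q.1.im * a.1.im) +
      (q.2.re * a.2.re + q.2.im * a.2.im)) := by
    show (2 * q.1.re) * a.1.re + (2 * q.1.im) * a.1.im + ((2 * q.2.re) * a.2.re +
      (2 * q.2.im) * a.2.im) = _
    ring
  have eb : ME_L q (-Complex.I • a) = 2 * ((q.1.re * a.1.im - q.1.im * a.1.re) +
      (q.2.re * a.2.im - q.2.im * a.2.re)) := by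
    show (2 * q.1.re) * (-Complex.I * a.1).re + (2 * q.1.im) * (-Complex.I * a.1).im +
      ((2 * q.2.re) * (-Complex.I * a.2).re + (2 * q.2.im) * (-Complex.I * a.2).im) = _
    simp only [Complex.mul_re, Complex.mul_im, Complex.neg_re, Complex.neg_im, Complex.I_re,
      Complex.I_im]
    ring
  have ba : (conj q.1 * a.1).im + (conj q.2 * a.2).im =
      (q.1.re * a.1.im - q.1.im * a.1.re) + (q.2.re * a.2.im - q.2.im * a.2.re) := by
    simp only [Complex.mul_im, Complex.conj_re, Complex.conj_im]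
    ring
  have bb : (conj q.1 * (-Complex.I • a).1).im + (conj q.2 * (-Complex.I • a).2).im =
      -((q.1.re * a.1.re + q.1.im * a.1.im) + (q.2.re * a.2.re + q.2.im * a.2.im)) := by
    show (conj q.1 * (-Complex.I * a.1)).im + (conj q.2 * (-Complex.I * a.2)).im = _
    simp only [Complex.mul_re, Complex.mul_im, Complex.neg_re, Complex.neg_im, Complex.I_re,
      Complex.I_im, Complex.conj_re, Complex.conj_im]
    ring
  have bd : 2 * (conj a.1 * (-Complex.I • a).1).im + 2 * (conj a.2 * (-Complex.I • a).2).im =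
      -(2 * qsq a.1 a.2) := by
    show 2 * (conj a.1 * (-Complex.I * a.1)).im + 2 * (conj a.2 * (-Complex.I * a.2)).im = _
    simp only [Complex.mul_re, Complex.mul_im, Complex.neg_re, Complex.neg_im, Complex.I_re,
      Complex.I_im, Complex.conj_re, Complex.conj_im, qsq, Complex.normSq_apply]
    ring
  rw [ea, eb, ba, bb, bd]
  have key := ME_alg (qsq q.1 q.2) ((q.1.re * a.1.re + q.1.im * a.1.im) +
    (q.2.re * a.2.re + q.2.im * a.2.im)) ((q.1.re * a.1.im - q.1.im * a.1.re) +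
    (q.2.re * a.2.im - q.2.im * a.2.re)) (qsq a.1 a.2) (deriv ch (qsq q.1 q.2))
    (ch (qsq q.1 q.2)) hr h0 (by
      simp only [qsq, Complex.normSq_apply]
      nlinarith [sq_nonneg (q.1.re * a.2.re - q.2.re * a.1.re - (q.1.im * a.2.im - q.2.im * a.1.im)),
        sq_nonneg (q.1.re * a.2.im - q.2.re * a.1.im + (q.1.im * a.2.re - q.2.im * a.1.re))])
  simp only [smul_eq_mul]
  exact key

/-! ### Auxiliary: the normal vector and the test vectors -/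

def ME_N (hd : Handle) (v : R7) : V3 :=
  (fderiv ℝ (F7 hd) v ((1, 0, 0), 0, 0), fderiv ℝ (F7 hd) v ((0, 1, 0), 0, 0),
    fderiv ℝ (F7 hd) v ((0, 0, 1), 0, 0))

theorem ME_ker (hd : Handle) (v : R7) (xi : V3) :
    fderiv ℝ (F7 hd) v (xi, 0, 0) = dot3 (ME_N hd v) xi := by
  have e : ((xi, 0, 0) : R7) = xi.1 • (((1, 0, 0), 0, 0) : R7) +
      (xi.2.1 • (((0, 1, 0), 0, 0) : R7) + xi.2.2 • (((0, 0, 1), 0, 0) : R7)) := by
    refine Prod.ext (Prod.ext ?_ (Prod.ext ?_ ?_)) (Prod.ext ?_ ?_) <;> simp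
  rw [e, map_add, map_add, map_smul, map_smul, map_smul]
  simp only [ME_N, dot3, smul_eq_mul]
  ring

/-- First test vectors. -/
def ME_T (hd : Handle) (e : V3) (v : R7) : R7 := (cross3 (ME_N hd v) e, 0, 0)

theorem ME_T_ker (hd : Handle) (e : V3) (v : R7) : fderiv ℝ (F7 hd) v (ME_T hd e v) = 0 := by
  unfold ME_T
  rw [ME_ker]
  simp only [dot3, cross3]
  ring

/-- The vector `(0, -i a)`. -/
def ME_I (w : R7) : R7 := (0, -Complex.I • w.2)

def ME_mu (hd : Handle) (v w : R7) : ℝ := -fderiv ℝ (F7 hd) v (ME_I w)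

/-- Second test vector. -/
def ME_T2 (hd : Handle) (v w : R7) : R7 :=
  ME_mu hd v w • ((ME_N hd v, 0, 0) : R7) + nsq3 (ME_N hd v) • ME_I w

theorem ME_T2_ker (hd : Handle) (v w : R7) : fderiv ℝ (F7 hd) v (ME_T2 hd v w) = 0 := by
  unfold ME_T2
  rw [map_add, map_smul, map_smul, ME_ker]
  simp only [ME_mu, dot3, nsq3, smul_eq_mul]
  ring

theorem ME_T2_snd (hd : Handle) (v w : R7) :
    (ME_T2 hd v w).2 = nsq3 (ME_N hd v) • (-Complex.I • w.2) := by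
  unfold ME_T2 ME_I
  simp

theorem ME_qg0 (g : V4) : qgbar 0 0 g = 0 := by
  simp [qgbar]

theorem ME_N0 (hd : Handle) (x : V3) : ME_N hd (x, 0, 0) = grad3 hd.c x := by
  unfold ME_N
  rw [fderiv_F7_zero, fderiv_F7_zero, fderiv_F7_zero, ME_qg0]
  simp [dot3, grad3]

theorem ME_F0 (hd : Handle) (x : V3) : F7 hd (x, 0, 0) = hd.c x := by
  unfold F7
  rw [ME_qg0]
  simp

theorem ME_nsq_pos {N : V3} (h : N ≠ 0) : 0 < nsq3 N := by
  by_contra hc
  apply h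
  have h1 : N.1 ^ 2 + N.2.1 ^ 2 + N.2.2 ^ 2 ≤ 0 := not_lt.1 hc
  have a1 : N.1 = 0 := by nlinarith [sq_nonneg N.1, sq_nonneg N.2.1, sq_nonneg N.2.2]
  have a2 : N.2.1 = 0 := by nlinarith [sq_nonneg N.1, sq_nonneg N.2.1, sq_nonneg N.2.2]
  have a3 : N.2.2 = 0 := by nlinarith [sq_nonneg N.1, sq_nonneg N.2.1, sq_nonneg N.2.2]
  exact Prod.ext a1 (Prod.ext a2 a3)

theorem ME_nsq_nonneg (N : V3) : 0 ≤ nsq3 N := by
  unfold nsq3
  positivity

theorem ME_qsq_nonneg (a b : ℂ) : 0 ≤ qsq a b :=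
  add_nonneg (Complex.normSq_nonneg _) (Complex.normSq_nonneg _)

/-- Every vector orthogonal to `N` is `N × e`. -/
theorem ME_cross (N xi : V3) (hN : N ≠ 0) (h : dot3 N xi = 0) :
    xi = cross3 N ((nsq3 N)⁻¹ • cross3 xi N) := by
  have hp := ME_nsq_pos hN
  have hp' : N.1 ^ 2 + N.2.1 ^ 2 + N.2.2 ^ 2 ≠ 0 := hp.ne'
  have h' : N.1 * xi.1 + N.2.1 * xi.2.1 + N.2.2 * xi.2.2 = 0 := h
  refine Prod.ext ?_ (Prod.ext ?_ ?_)
  · show xi.1 = N.2.1 * ((nsq3 N)⁻¹ * (xi.1 * N.2.1 - xi.2.1 * N.1)) -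
      N.2.2 * ((nsq3 N)⁻¹ * (xi.2.2 * N.1 - xi.1 * N.2.2))
    unfold nsq3
    field_simp
    linear_combination N.1 * h'
  · show xi.2.1 = N.2.2 * ((nsq3 N)⁻¹ * (xi.2.1 * N.2.2 - xi.2.2 * N.2.1)) -
      N.1 * ((nsq3 N)⁻¹ * (xi.1 * N.2.1 - xi.2.1 * N.1))
    unfold nsq3
    field_simp
    linear_combination N.2.1 * h'
  · show xi.2.2 = N.1 * ((nsq3 N)⁻¹ * (xi.2.2 * N.1 - xi.1 * N.2.2)) -
      N.2.1 * ((nsq3 N)⁻¹ * (xi.2.1 * N.2.2 - xi.2.2 * N.2.1))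
    unfold nsq3
    field_simp
    linear_combination N.2.2 * h'

/-- `N × e` in terms of the three basis vectors. -/
theorem ME_T_lin (hd : Handle) (e : V3) (v : R7) :
    ME_T hd e v = e.1 • ME_T hd (1, 0, 0) v +
      (e.2.1 • ME_T hd (0, 1, 0) v + e.2.2 • ME_T hd (0, 0, 1) v) := by
  unfold ME_T cross3
  refine Prod.ext (Prod.ext ?_ (Prod.ext ?_ ?_)) (Prod.ext ?_ ?_) <;>
  simp <;> ring

/-! ### Continuity -/

theorem ME_cphi (hd : Handle) : Continuous (fderiv ℝ (F7 hd)) :=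
  (contDiff_F7 hd).continuous_fderiv (by simp)

theorem ME_cN (hd : Handle) : Continuous (ME_N hd) := by
  unfold ME_N
  exact ((ME_cphi hd).clm_apply continuous_const).prodMk
    (((ME_cphi hd).clm_apply continuous_const).prodMk
      ((ME_cphi hd).clm_apply continuous_const))

theorem ME_cnsq : Continuous nsq3 := by
  unfold nsq3
  fun_prop

theorem ME_cqsq : Continuous (fun a : C2 => qsq a.1 a.2) := by
  unfold qsq
  exact (Complex.continuous_normSq.comp continuous_fst).add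
    (Complex.continuous_normSq.comp continuous_snd)

theorem ME_cT (hd : Handle) (e : V3) : Continuous (ME_T hd e) := by
  unfold ME_T cross3
  have h := ME_cN hd
  have h1 : Continuous fun v => (ME_N hd v).1 := h.fst
  have h2 : Continuous fun v => (ME_N hd v).2.1 := h.snd.fst
  have h3 : Continuous fun v => (ME_N hd v).2.2 := h.snd.snd
  fun_prop

theorem ME_cI : Continuous ME_I := by
  unfold ME_I
  fun_prop

theorem ME_cT2 (hd : Handle) : Continuous (fun p : R7 × R7 => ME_T2 hd p.1 p.2) := by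
  unfold ME_T2
  have h0 : Continuous fun p : R7 × R7 => ME_I p.2 := ME_cI.comp continuous_snd
  have h1 : Continuous fun p : R7 × R7 => ME_mu hd p.1 p.2 := by
    unfold ME_mu
    exact (((ME_cphi hd).comp continuous_fst).clm_apply h0).neg
  have h2 : Continuous fun p : R7 × R7 => ME_N hd p.1 := (ME_cN hd).comp continuous_fst
  exact (h1.smul (h2.prodMk continuous_const)).add ((ME_cnsq.comp h2).smul h0)

theorem ME_cOm (P : FPar) (hT2 : 0 < P.T2) (hTa : 0 < P.Ta) : Continuous P.Om7 := by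
  have h1 : ContDiffOn ℝ ∞ (pb1 (Pi7 P.hd) P.l6) Set.univ :=
    contDiffOn_pb1 isOpen_univ (contDiff_Pi7 P.hd).contDiffOn
      (P.contDiff_l6 hT2 hTa).contDiffOn (Set.mapsTo_univ _ _)
  have h2 := contDiffOn_dd isOpen_univ h1
  exact (contDiffOn_univ.1 h2).continuous

/-! ### The compact sets -/

def ME_K (P : FPar) : Set R7 :=
  {v | v.1.2.1 ^ 2 + v.1.2.2 ^ 2 ≤ P.s1 + 1 ∧ qsq v.2.1 v.2.2 ≤ 1 ∧ F7 P.hd v = 0}

theorem ME_sq_le {t S : ℝ} (hS : 0 ≤ S) (h : t ^ 2 ≤ S) : ‖t‖ ≤ S + 1 := by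
  rw [Real.norm_eq_abs, abs_le]
  constructor <;> nlinarith

theorem ME_norm_le {a : ℂ} (h : Complex.normSq a ≤ 1) : ‖a‖ ≤ 1 := by
  rw [Complex.normSq_eq_norm_sq] at h
  nlinarith [norm_nonneg a]

theorem ME_K_compact (P : FPar) (hTa : 0 < P.Ta) : IsCompact (ME_K P) := by
  have hs1 : 0 ≤ P.s1 := by
    unfold FPar.s1
    nlinarith [sq_nonneg P.hd.B]
  apply Metric.isCompact_of_isClosed_isBounded
  · have h1 : IsClosed {v : R7 | v.1.2.1 ^ 2 + v.1.2.2 ^ 2 ≤ P.s1 + 1} :=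
      isClosed_le (by fun_prop) continuous_const
    have h2 : IsClosed {v : R7 | qsq v.2.1 v.2.2 ≤ 1} :=
      isClosed_le (ME_cqsq.comp continuous_snd) continuous_const
    have h3 : IsClosed {v : R7 | F7 P.hd v = 0} :=
      isClosed_eq (contDiff_F7 P.hd).continuous continuous_const
    exact h1.inter (h2.inter h3)
  · rw [Metric.isBounded_iff_subset_closedBall (0 : R7)]
    refine ⟨P.s1 + 3 + |P.hd.Sb|, ?_⟩
    rintro v ⟨h1, h2, h3⟩
    rw [mem_closedBall_zero_iff]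
    have q1 : Complex.normSq v.2.1 ≤ 1 := by
      have := Complex.normSq_nonneg v.2.2
      unfold qsq at h2
      linarith
    have q2 : Complex.normSq v.2.2 ≤ 1 := by
      have := Complex.normSq_nonneg v.2.1
      unfold qsq at h2
      linarith
    have n1 := ME_norm_le q1
    have n2 := ME_norm_le q2
    have x2 : ‖v.1.2.1‖ ≤ (P.s1 + 1) + 1 := ME_sq_le (by linarith) (by nlinarith [sq_nonneg v.1.2.2])
    have x3 : ‖v.1.2.2‖ ≤ (P.s1 + 1) + 1 := ME_sq_le (by linarith) (by nlinarith [sq_nonneg v.1.2.1])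
    have hn := qg_norm (P.hd.g v.1) (P.hd.g_unit v.1) v.2.1 v.2.2
    have hc : P.hd.c v.1 = (qgbar v.2.1 v.2.2 (P.hd.g v.1)).1 := by
      unfold F7 at h3
      linarith
    have hcc : |P.hd.c v.1| ≤ 1 := by
      rw [hc, abs_le]
      unfold nsq4 at hn
      constructor <;> nlinarith [sq_nonneg (qgbar v.2.1 v.2.2 (P.hd.g v.1)).2.1,
        sq_nonneg (qgbar v.2.1 v.2.2 (P.hd.g v.1)).2.2.1,
        sq_nonneg (qgbar v.2.1 v.2.2 (P.hd.g v.1)).2.2.2]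
    have hb := P.hd.c_bound v.1
    have x1 : ‖v.1.1‖ ≤ 1 + |P.hd.Sb| := by
      rw [Real.norm_eq_abs]
      have := le_abs_self P.hd.Sb
      rw [abs_le] at hcc hb ⊢
      constructor <;> linarith [hcc.1, hcc.2, hb.1, hb.2]
    have hS := abs_nonneg P.hd.Sb
    rw [norm_prod_le_iff, norm_prod_le_iff, norm_prod_le_iff, norm_prod_le_iff]
    refine ⟨⟨?_, ?_, ?_⟩, ?_, ?_⟩ <;> linarith

def ME_K2 (P : FPar) : Set (R7 × R7) :=
  {p | p.1 ∈ ME_K P ∧ ‖p.2‖ = 1 ∧ fderiv ℝ (F7 P.hd) p.1 p.2 = 0}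

theorem ME_K2_compact (P : FPar) (hTa : 0 < P.Ta) : IsCompact (ME_K2 P) := by
  have hK := ME_K_compact P hTa
  have hB : IsCompact (Metric.closedBall (0 : R7) 1) := isCompact_closedBall 0 1
  refine (hK.prod hB).of_isClosed_subset ?_ ?_
  · have h1 : IsClosed {p : R7 × R7 | p.1 ∈ ME_K P} := hK.isClosed.preimage continuous_fst
    have h2 : IsClosed {p : R7 × R7 | ‖p.2‖ = 1} :=
      isClosed_eq continuous_snd.norm continuous_const
    have h3 : IsClosed {p : R7 × R7 | fderiv ℝ (F7 P.hd) p.1 p.2 = 0} :=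
      isClosed_eq (((ME_cphi P.hd).comp continuous_fst).clm_apply continuous_snd)
        continuous_const
    exact h1.inter (h2.inter h3)
  · rintro p ⟨h1, h2, -⟩
    exact ⟨h1, by rw [mem_closedBall_zero_iff]; exact h2.le⟩

/-! ### The test function -/

def ME_H (P : FPar) (p : R7 × R7) : ℝ :=
  |P.Om7 p.1 p.2 (ME_T P.hd (1, 0, 0) p.1)| + |P.Om7 p.1 p.2 (ME_T P.hd (0, 1, 0) p.1)| +
    |P.Om7 p.1 p.2 (ME_T P.hd (0, 0, 1) p.1)| + qsq p.1.2.1 p.1.2.2 +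
    max 0 (P.Om7 p.1 p.2 (ME_T2 P.hd p.1 p.2))

theorem ME_H_cont (P : FPar) (hT2 : 0 < P.T2) (hTa : 0 < P.Ta) : Continuous (ME_H P) := by
  have h1 : Continuous fun p : R7 × R7 => P.Om7 p.1 p.2 :=
    ((ME_cOm P hT2 hTa).comp continuous_fst).clm_apply continuous_snd
  have hT : ∀ e : V3, Continuous fun p : R7 × R7 => |P.Om7 p.1 p.2 (ME_T P.hd e p.1)| :=
    fun e => (h1.clm_apply ((ME_cT P.hd e).comp continuous_fst)).abs
  have hq : Continuous fun p : R7 × R7 => qsq p.1.2.1 p.1.2.2 :=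
    ME_cqsq.comp (continuous_snd.comp continuous_fst)
  unfold ME_H
  exact ((((hT _).add (hT _)).add (hT _)).add hq).add
    (continuous_const.max (h1.clm_apply (ME_cT2 P.hd)))

theorem ME_H_pos (P : FPar) (hT2 : 0 < P.T2) (hTa : 0 < P.Ta) (p : R7 × R7)
    (hp : p ∈ ME_K2 P) : 0 < ME_H P p := by
  by_contra hneg
  obtain ⟨⟨-, -, hF⟩, hn, hk⟩ := hp
  obtain ⟨⟨x, q1, q2⟩, ⟨xi, a1, a2⟩⟩ := p
  unfold ME_H at hneg
  have b1 := abs_nonneg (P.Om7 (x, q1, q2) (xi, a1, a2) (ME_T P.hd (1, 0, 0) (x, q1, q2)))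
  have b2 := abs_nonneg (P.Om7 (x, q1, q2) (xi, a1, a2) (ME_T P.hd (0, 1, 0) (x, q1, q2)))
  have b3 := abs_nonneg (P.Om7 (x, q1, q2) (xi, a1, a2) (ME_T P.hd (0, 0, 1) (x, q1, q2)))
  have b4 := ME_qsq_nonneg q1 q2
  have b5 := le_max_left 0 (P.Om7 (x, q1, q2) (xi, a1, a2)
    (ME_T2 P.hd (x, q1, q2) (xi, a1, a2)))
  have b6 := le_max_right 0 (P.Om7 (x, q1, q2) (xi, a1, a2)
    (ME_T2 P.hd (x, q1, q2) (xi, a1, a2)))
  simp only [not_lt] at hneg
  have z1 : P.Om7 (x, q1, q2) (xi, a1, a2) (ME_T P.hd (1, 0, 0) (x, q1, q2)) = 0 :=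
    abs_eq_zero.1 (le_antisymm (by linarith) b1)
  have z2 : P.Om7 (x, q1, q2) (xi, a1, a2) (ME_T P.hd (0, 1, 0) (x, q1, q2)) = 0 :=
    abs_eq_zero.1 (le_antisymm (by linarith) b2)
  have z3 : P.Om7 (x, q1, q2) (xi, a1, a2) (ME_T P.hd (0, 0, 1) (x, q1, q2)) = 0 :=
    abs_eq_zero.1 (le_antisymm (by linarith) b3)
  have z4 : qsq q1 q2 = 0 := le_antisymm (by linarith) b4
  have z5 : P.Om7 (x, q1, q2) (xi, a1, a2) (ME_T2 P.hd (x, q1, q2) (xi, a1, a2)) ≤ 0 := by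
    linarith
  have hq1 : q1 = 0 := by
    have := Complex.normSq_nonneg q1
    have := Complex.normSq_nonneg q2
    unfold qsq at z4
    exact Complex.normSq_eq_zero.1 (by linarith)
  have hq2 : q2 = 0 := by
    have := Complex.normSq_nonneg q1
    have := Complex.normSq_nonneg q2
    unfold qsq at z4
    exact Complex.normSq_eq_zero.1 (by linarith)
  subst hq1 hq2
  have hx : P.hd.c x = 0 := by
    rw [← ME_F0]
    exact hF
  have hN := FPar.grad_ne P.hd x hx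
  have eN := ME_N0 P.hd x
  have hN' : ME_N P.hd (x, 0, 0) ≠ 0 := by
    rw [eN]
    exact hN
  have hort : ∀ xi' : V3, dot3 (grad3 P.hd.c x) xi' = 0 →
      P.Om7 (x, 0, 0) (xi, a1, a2) (xi', 0, 0) = 0 := by
    intro xi' h
    have h' : dot3 (ME_N P.hd (x, 0, 0)) xi' = 0 := by
      rw [eN]
      exact h
    have e1 := ME_cross _ _ hN' h'
    have e2 : ((xi', 0, 0) : R7) = ME_T P.hd ((nsq3 (ME_N P.hd (x, 0, 0)))⁻¹ •
        cross3 xi' (ME_N P.hd (x, 0, 0))) (x, 0, 0) := by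
      unfold ME_T
      rw [← e1]
    rw [e2, ME_T_lin, map_add, map_add, map_smul, map_smul, map_smul, z1, z2, z3]
    simp
  by_cases ha : a1 ≠ 0 ∨ a2 ≠ 0
  · have hp := ME_nsq_pos hN'
    have e3 : ((nsq3 (ME_N P.hd (x, 0, 0)))⁻¹ • ME_T2 P.hd (x, 0, 0) (xi, a1, a2) : R7) =
        (((nsq3 (ME_N P.hd (x, 0, 0)))⁻¹ * ME_mu P.hd (x, 0, 0) (xi, a1, a2)) •
          ME_N P.hd (x, 0, 0), -Complex.I * a1, -Complex.I * a2) := by
      unfold ME_T2
      rw [smul_add, smul_smul, smul_smul, inv_mul_cancel₀ hp.ne', one_smul]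
      simp [ME_I]
    have hk'' : fderiv ℝ (F7 P.hd) (x, 0, 0)
        (((nsq3 (ME_N P.hd (x, 0, 0)))⁻¹ * ME_mu P.hd (x, 0, 0) (xi, a1, a2)) •
          ME_N P.hd (x, 0, 0), -Complex.I * a1, -Complex.I * a2) = 0 := by
      rw [← e3, map_smul, ME_T2_ker, smul_zero]
    have h := P.core_J hT2 hTa x hx xi a1 a2 ha hk hort _ hk''
    rw [← e3, map_smul, smul_eq_mul] at h
    have h6 : 0 < (nsq3 (ME_N P.hd (x, 0, 0)))⁻¹ := inv_pos.2 hp
    nlinarith
  · push Not at ha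
    obtain ⟨rfl, rfl⟩ := ha
    have hxi : xi ≠ 0 := by
      rintro rfl
      have h0 : ((0, 0, 0) : R7) = 0 := rfl
      rw [show ((((0 : V3), (0 : ℂ), (0 : ℂ)), ((0 : V3), (0 : ℂ), (0 : ℂ))) : R7 × R7).2 = 0 from rfl,
        norm_zero] at hn
      norm_num at hn
    have hd0 : dot3 (grad3 P.hd.c x) xi = 0 := by
      rw [← eN, ← ME_ker]
      exact hk
    obtain ⟨xi', h1, h2⟩ := P.core_D hT2 hTa x hx xi hxi hd0
    exact h2 (hort xi' h1)

namespace FPar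

def NearE (P : FPar) (r kap : ℝ) : Prop :=
  ∀ v : R7, v.1.2.1 ^ 2 + v.1.2.2 ^ 2 ≤ P.s1 + 1 → qsq v.2.1 v.2.2 < r ^ 2 → F7 P.hd v = 0 →
    ∀ Ef : C2 →L[ℝ] C2 →L[ℝ] ℝ, (∀ a, -kap * qsq a.1 a.2 ≤ Ef a (-Complex.I • a)) →
      ∀ w : R7, fderiv ℝ (F7 P.hd) v w = 0 → w ≠ 0 →
        ∃ w' : R7, fderiv ℝ (F7 P.hd) v w' = 0 ∧ P.Om7 v w w' + Ef w.2 w'.2 ≠ 0

end FPar

theorem ME_one (P : FPar) (hT2 : 0 < P.T2) (hTa : 0 < P.Ta) :
    ∃ r1 kap : ℝ, 0 < r1 ∧ r1 < 1 ∧ 0 < kap ∧ P.NearE r1 kap ∧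
        ∀ v : R7, v.1.2.1 ^ 2 + v.1.2.2 ^ 2 ≤ P.s1 + 1 → qsq v.2.1 v.2.2 < r1 ^ 2 →
          F7 P.hd v = 0 → fderiv ℝ (F7 P.hd) v ≠ 0 := by
  obtain ⟨m, hm0, hm⟩ := (ME_K2_compact P hTa).exists_forall_le'
    (ME_H_cont P hT2 hTa).continuousOn (a := 0) (ME_H_pos P hT2 hTa)
  obtain ⟨m2, hm20, hm2⟩ := (ME_K_compact P hTa).exists_forall_le'
    (f := fun v : R7 => ‖fderiv ℝ (F7 P.hd) v‖ + qsq v.2.1 v.2.2)
    ((ME_cphi P.hd).norm.add (ME_cqsq.comp continuous_snd)).continuousOn (a := 0) (by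
      rintro ⟨x, q1, q2⟩ ⟨-, -, hF⟩
      by_contra hneg
      have hneg' : ‖fderiv ℝ (F7 P.hd) (x, q1, q2)‖ + qsq q1 q2 ≤ 0 := not_lt.1 hneg
      have b1 := norm_nonneg (fderiv ℝ (F7 P.hd) (x, q1, q2))
      have b4 := ME_qsq_nonneg q1 q2
      have z1 : fderiv ℝ (F7 P.hd) (x, q1, q2) = 0 :=
        norm_eq_zero.1 (le_antisymm (by linarith) b1)
      have z4 : qsq q1 q2 = 0 := le_antisymm (by linarith) b4
      have hq1 : q1 = 0 := by
        have := Complex.normSq_nonneg q1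
        have := Complex.normSq_nonneg q2
        unfold qsq at z4
        exact Complex.normSq_eq_zero.1 (by linarith)
      have hq2 : q2 = 0 := by
        have := Complex.normSq_nonneg q1
        have := Complex.normSq_nonneg q2
        unfold qsq at z4
        exact Complex.normSq_eq_zero.1 (by linarith)
      subst hq1 hq2
      have hx : P.hd.c x = 0 := by
        rw [← ME_F0]
        exact hF
      apply FPar.grad_ne P.hd x hx
      rw [← ME_N0]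
      unfold ME_N
      rw [z1]
      rfl)
  obtain ⟨C, hC⟩ := (ME_K2_compact P hTa).exists_bound_of_continuousOn
    (f := fun p : R7 × R7 => nsq3 (ME_N P.hd p.1) * qsq p.2.2.1 p.2.2.2)
    ((ME_cnsq.comp ((ME_cN P.hd).comp continuous_fst)).mul
      (ME_cqsq.comp (continuous_snd.comp continuous_snd))).continuousOn
  have hC1 : 0 < |C| + 1 := by positivity
  have hr : 0 < min (1 / 2) (min (m / 3) m2) :=
    lt_min (by norm_num) (lt_min (by positivity) hm20)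
  have hr2 : min (1 / 2) (min (m / 3) m2) ≤ 1 / 2 := min_le_left _ _
  have hr3 : min (1 / 2) (min (m / 3) m2) ≤ m / 3 := (min_le_right _ _).trans (min_le_left _ _)
  have hr4 : min (1 / 2) (min (m / 3) m2) ≤ m2 := (min_le_right _ _).trans (min_le_right _ _)
  generalize min (1 / 2) (min (m / 3) m2) = r at hr hr2 hr3 hr4
  have hrr : r ^ 2 < r := by nlinarith
  refine ⟨r, m / (3 * (|C| + 1)), hr, by linarith, by positivity, ?_, ?_⟩
  · intro v hv1 hv2 hv3 Ef hEf w hw hw0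
    by_contra hcon
    push Not at hcon
    have hvK : v ∈ ME_K P := ⟨hv1, by nlinarith, hv3⟩
    have hwn : 0 < ‖w‖ := norm_pos_iff.2 hw0
    have hn : ‖(‖w‖⁻¹ • w : R7)‖ = 1 := by
      rw [norm_smul, norm_inv, norm_norm, inv_mul_cancel₀ hwn.ne']
    have hk : fderiv ℝ (F7 P.hd) v (‖w‖⁻¹ • w) = 0 := by
      rw [map_smul, hw, smul_zero]
    have hmem : (v, (‖w‖⁻¹ • w : R7)) ∈ ME_K2 P := ⟨hvK, hn, hk⟩
    have hcon2 : ∀ w' : R7, fderiv ℝ (F7 P.hd) v w' = 0 →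
        P.Om7 v (‖w‖⁻¹ • w) w' + Ef (‖w‖⁻¹ • w : R7).2 w'.2 = 0 := by
      intro w' hw'
      have h := hcon w' hw'
      rw [Prod.smul_snd, map_smul, map_smul, smul_apply, smul_apply, smul_eq_mul, smul_eq_mul,
        ← mul_add, h, mul_zero]
    generalize (‖w‖⁻¹ • w : R7) = w0 at hn hk hmem hcon2
    have hH := hm _ hmem
    have hz : ∀ e : V3, P.Om7 v w0 (ME_T P.hd e v) = 0 := by
      intro e
      have h := hcon2 _ (ME_T_ker P.hd e v)
      have h2 : (ME_T P.hd e v).2 = 0 := rfl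
      rw [h2, map_zero, add_zero] at h
      exact h
    have hT := hcon2 _ (ME_T2_ker P.hd v w0)
    rw [ME_T2_snd, map_smul, smul_eq_mul] at hT
    have hE := hEf w0.2
    have hCp := hC _ hmem
    rw [Real.norm_eq_abs] at hCp
    have hCp2 : nsq3 (ME_N P.hd v) * qsq w0.2.1 w0.2.2 ≤ |C| + 1 :=
      (le_abs_self _).trans (hCp.trans ((le_abs_self C).trans (by linarith)))
    have hN0 := ME_nsq_nonneg (ME_N P.hd v)
    have hO : P.Om7 v w0 (ME_T2 P.hd v w0) ≤ m / 3 := by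
      have h1 : P.Om7 v w0 (ME_T2 P.hd v w0) =
          -(nsq3 (ME_N P.hd v) * Ef w0.2 (-Complex.I • w0.2)) := by linarith
      have h2 : nsq3 (ME_N P.hd v) * (-(m / (3 * (|C| + 1))) * qsq w0.2.1 w0.2.2) ≤
          nsq3 (ME_N P.hd v) * Ef w0.2 (-Complex.I • w0.2) :=
        mul_le_mul_of_nonneg_left hE hN0
      have h3 : m / (3 * (|C| + 1)) * (nsq3 (ME_N P.hd v) * qsq w0.2.1 w0.2.2) ≤
          m / (3 * (|C| + 1)) * (|C| + 1) :=
        mul_le_mul_of_nonneg_left hCp2 (by positivity)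
      have h4 : m / (3 * (|C| + 1)) * (|C| + 1) = m / 3 := by
        field_simp
      rw [h1]
      linarith
    have hH2 : ME_H P (v, w0) ≤ 0 + 0 + 0 + qsq v.2.1 v.2.2 + m / 3 := by
      unfold ME_H
      simp only [hz, abs_zero]
      gcongr
      exact max_le (by positivity) hO
    linarith
  · intro v hv1 hv2 hv3 h0
    have hvK : v ∈ ME_K P := ⟨hv1, by nlinarith, hv3⟩
    have h := hm2 v hvK
    simp only [h0, norm_zero] at h
    linarith

namespace FPar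

theorem exists_nearE (hd : Handle) (T2 Ta : ℝ) (hT2 : 0 < T2) (hTa : 0 < Ta) :
    ∃ r1 kap : ℝ, 0 < r1 ∧ r1 < 1 ∧ 0 < kap ∧
      ∀ P : FPar, P.hd = hd → P.T2 = T2 → P.Ta = Ta → P.NearE r1 kap ∧
        ∀ v : R7, v.1.2.1 ^ 2 + v.1.2.2 ^ 2 ≤ P.s1 + 1 → qsq v.2.1 v.2.2 < r1 ^ 2 →
          F7 P.hd v = 0 → fderiv ℝ (F7 P.hd) v ≠ 0 := by
  obtain ⟨r1, kap, h1, h2, h3, h4, h5⟩ := ME_one ⟨⟨hd, 0, 0, 0⟩, T2, Ta, 0, 0⟩ hT2 hTa
  refine ⟨r1, kap, h1, h2, h3, ?_⟩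
  rintro ⟨⟨hd', T', La', rb'⟩, T2', Ta', eps', r0'⟩ e1 e2 e3
  simp only at e1 e2 e3
  subst e1 e2 e3
  exact ⟨h4, h5⟩

end FPar

end

end Pool.Agent.H34.SY
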