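import Pool.Agent.H34.SY.ME
import Pool.Agent.H34.SY.MB

/-!
# Row MF1: nondegeneracy of the inner form off `q = 0`

`z ∈ M'`, side `N`, `q ≠ 0`, `s < -La/2`, `|u|² < s1`.  `omI0 = dd (pb1 PiN l6) - dd ((eps chip) alq)`.

Case `r0² ≤ |q|²`: `dd ((eps chip) • alq) = wdg (eps d chip) alq + eps chip dd alq = 0` at `p` (`chi` and `chi'` vanish at `r ≥ r0²`;
`chip` near `p` is `chi(|q|²)` since `s < 0`).  With the chart `ψ = psiN ∘ qI` of `chart_I`:
`pb2 ψ (pb2 rhoN (pb2 PiN (dd l6))) = pb2 (PiN ∘ rhoN ∘ ψ) (dd l6) = dd l6` (`rhoN_psiN`, `PiN_qI` near the point),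
`l6_nondeg`, `nonDegAt_of_chart`.

Case `|q|² < r0²`: chart `chart_R7`, `ψ = psiN ∘ p7 La`, and `nonDeg_level` with `φ = F7 hd` and `W = {z | |q(rhoN z)|² < rb²/4}`
(intersected with `-1 < w₁`, so that it is open): there `lamb = 1` and `mixq 1 g = g`, `psic = chiq = 1` (`|y|² ≤ |q|² < 1 ≤ Q²`), so
`FNm 1 = F7 (xpt t u, ζ, z)`.  The pull-back of `pb2 rhoN omI0` by `ψ` is `pb2 (p7 La) omI0 = dd (pb1 (p7 La) (..))`, near `v`:
`PiN (p7 La v) = Pi7 hd v`, `chip = chi(|q|²)`, `pb1 (p7 La) alq (ξ, a) = alq2 q a`; so it is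
`Om7 v w w' + Ef w.2 w'.2` with `Ef = -eps dd (chi(|·|²) alq2) q`; `Ef_bound` (multiplied by `eps`) and `small3`, `nearE`.
-/

open Set Topology
open scoped ContDiff ComplexConjugate

namespace Pool.Agent.H34.SY

namespace FPar

/-- Conditions including the neighbourhood of the exceptional divisor. -/
structure Ok3 (P : FPar) : Prop extends P.Ok2 where
  near : ∃ kap : ℝ, 0 < kap ∧ P.NearE P.r0 kap ∧ ∀ r, 2 * P.eps * |deriv P.chi r| ≤ kap
  reg : ∀ v : R7, v.1.2.1 ^ 2 + v.1.2.2 ^ 2 ≤ P.s1 + 1 → qsq v.2.1 v.2.2 < P.r0 ^ 2 →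
    F7 P.hd v = 0 → fderiv ℝ (F7 P.hd) v ≠ 0

theorem MF1_open : IsOpen {z : EA | -1 < eW1 z} :=
  isOpen_lt continuous_const (continuous_fst.comp continuous_snd)

/-- Near `q = 0` the defining function is `F7`. -/
theorem FNm_core (P : FPar) (h : P.Ok2) (t : ℝ) (u ze z : ℂ) (hq : qsq ze z < P.rb ^ 2 / 4) :
    P.toPar.FNm 1 t u ze z = F7 P.hd (xpt t u, ze, z) ∧
      (P.toPar.yy 1 t u ze z).2 = (Pi7 P.hd (xpt t u, ze, z)).2 := by
  have hrb := h.rb0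
  have hrb1 := h.rb1
  have hrb2 : 0 < P.rb ^ 2 := by positivity
  have hrb3 : P.rb ^ 2 < 1 := by nlinarith
  have hT := h.T
  have hlam : P.toPar.lamb (qsq ze z) = 1 := by
    unfold Par.lamb
    refine (cut_props (1 / 4) (3 / 4) (by norm_num)).2.1 _ ?_
    rw [div_le_iff₀ hrb2]
    linarith
  have hmix : mixq (1 * P.toPar.lamb (qsq ze z)) (P.hd.g (xpt t u)) = P.hd.g (xpt t u) := by
    rw [hlam]
    unfold mixq
    ext <;> simp
  have hyy : P.toPar.yy 1 t u ze z = qgbar ze z (P.hd.g (xpt t u)) := by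
    unfold Par.yy
    rw [hmix]
  refine ⟨?_, ?_⟩
  · have hne : mixq (1 * P.toPar.lamb (qsq ze z)) (P.hd.g (xpt t u)) ≠ 0 :=
      P.mixq_ne zero_le_one le_rfl _ _
    have hn := P.yy_norm 1 t u ze z hne
    have hns : nsq4 (P.toPar.yy 1 t u ze z) = (P.toPar.yy 1 t u ze z).1 ^ 2 +
      (P.toPar.yy 1 t u ze z).2.1 ^ 2 + (P.toPar.yy 1 t u ze z).2.2.1 ^ 2 +
      (P.toPar.yy 1 t u ze z).2.2.2 ^ 2 := rfl
    have hps : P.toPar.psic ((P.toPar.yy 1 t u ze z).2.1 ^ 2 +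
        (P.toPar.yy 1 t u ze z).2.2.1 ^ 2 + (P.toPar.yy 1 t u ze z).2.2.2 ^ 2) = 1 := by
      unfold Par.psic
      refine (cut_props 1 (P.T ^ 2) (by positivity)).2.1 _ ?_
      have := sq_nonneg (P.toPar.yy 1 t u ze z).1
      linarith
    have hSb : 0 ≤ P.hd.Sb := le_trans (abs_nonneg _) (P.hd.c_bound 0)
    have hB : 1 < P.hd.B := lt_of_le_of_lt P.hd.hL P.hd.hLB
    have hQ : 1 ≤ P.toPar.Q := by
      unfold Par.Q
      linarith
    have hch : P.toPar.chiq (qsq ze z) = 1 := by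
      unfold Par.chiq
      refine (cut_props (P.toPar.Q ^ 2) 1 one_pos).2.1 _ ?_
      nlinarith
    have e : P.toPar.FNm 1 t u ze z = t + P.toPar.psic ((P.toPar.yy 1 t u ze z).2.1 ^ 2 +
        (P.toPar.yy 1 t u ze z).2.2.1 ^ 2 + (P.toPar.yy 1 t u ze z).2.2.2 ^ 2) *
        P.toPar.chiq (qsq ze z) * (P.hd.c (xpt t u) - t) - (P.toPar.yy 1 t u ze z).1 := rfl
    rw [e, hps, hch, hyy]
    unfold F7
    ring
  · rw [hyy]
    rfl

theorem MF1_chi0 (P : FPar) (h : P.Ok3) {p : FP} (hs : fS p < 0)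
    (hq : P.r0 ^ 2 ≤ qsq (fZe p) (fZ p)) :
    P.eps * P.chip p = 0 ∧ HasFDerivAt (fun p => P.eps * P.chip p) (0 : FP →L[ℝ] ℝ) p := by
  obtain ⟨hc, _, hc0, hcp, _⟩ := P.chi_props h.r0
  have e0 : P.chip p = 0 := by
    unfold chip
    rw [if_pos hs, hc0 _ hq]
  have hev : P.chip =ᶠ[𝓝 p] fun p => P.chi (qsq (fZe p) (fZ p)) := by
    have ho : IsOpen {p : FP | fS p < 0} := isOpen_lt SD1_S.continuous continuous_const
    filter_upwards [ho.mem_nhds hs] with y hy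
    unfold chip
    rw [if_pos hy]
  have hsm : ContDiff ℝ ∞ (fun p : FP => P.chi (qsq (fZe p) (fZ p))) := hc.comp SD1_qsq
  have hd : HasFDerivAt (fun p : FP => P.chi (qsq (fZe p) (fZ p))) (0 : FP →L[ℝ] ℝ) p := by
    have h1 : HasFDerivAt (fun p : FP => P.chi (qsq (fZe p) (fZ p)))
        (fderiv ℝ (fun p : FP => P.chi (qsq (fZe p) (fZ p))) p) p :=
      (hsm.differentiable (by simp) p).hasFDerivAt
    have hmin : IsLocalMin (fun p : FP => P.chi (qsq (fZe p) (fZ p))) p := by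
      refine Filter.Eventually.of_forall fun y => ?_
      show P.chi (qsq (fZe p) (fZ p)) ≤ P.chi (qsq (fZe y) (fZ y))
      rw [hc0 _ hq]
      exact (hcp _).1
    have := hmin.fderiv_eq_zero
    rw [this] at h1
    exact h1
  refine ⟨by rw [e0, mul_zero], ?_⟩
  have h2 := (hd.congr_of_eventuallyEq hev).const_mul P.eps
  rw [smul_zero] at h2
  exact h2

theorem MF1_omI0 (P : FPar) (h : P.Ok3) {p : FP} (hp : p ∈ FPS P.La)
    (hq0 : fZe p ≠ 0 ∨ fZ p ≠ 0) (hs : fS p < 0) (hq : P.r0 ^ 2 ≤ qsq (fZe p) (fZ p)) :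
    P.omI0 p = dd (pb1 P.PiN P.l6) p := by
  obtain ⟨h0, hd⟩ := P.MF1_chi0 h hs hq
  have hDq : p ∈ P.Dq := P.Dq_of h.toOk0 hp hq0
  have ha : DifferentiableAt ℝ alq p := CC_diff P.isOpen_Dq (SD1_alq P) hDq
  have hl : ContDiffOn ℝ ∞ (pb1 P.PiN P.l6) Set.univ :=
    contDiffOn_pb1 isOpen_univ (P.contDiff_PiN h.toOk2).contDiffOn
      (P.contDiff_l6 h.T2 h.Ta).contDiffOn (mapsTo_univ _ _)
  have hl' : DifferentiableAt ℝ (pb1 P.PiN P.l6) p := CC_diff isOpen_univ hl (mem_univ _)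
  unfold omI0
  rw [dd_sub hl' (hd.differentiableAt.fun_smul ha), dd_smul hd.differentiableAt ha, hd.fderiv, h0]
  refine ContinuousLinearMap.ext fun a => ContinuousLinearMap.ext fun b => ?_
  show dd (pb1 P.PiN P.l6) p a b - (wdg 0 (alq p) a b + (0 : ℝ) * dd alq p a b) = _
  rw [wdg_apply]
  show dd (pb1 P.PiN P.l6) p a b - ((0 : ℝ) * alq p b - alq p a * (0 : ℝ) +
    (0 : ℝ) * dd alq p a b) = _
  ring

theorem MF1_far (P : FPar) (h : P.Ok3) {z : EA} (hz : z ∈ P.toPar.M') (h1 : -1 < eW1 z)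
    (hq : fZe (rhoN z) ≠ 0 ∨ fZ (rhoN z) ≠ 0) (hs : fS (rhoN z) < 0)
    (hr : P.r0 ^ 2 ≤ qsq (fZe (rhoN z)) (fZ (rhoN z))) :
    NonDegAt P.toPar.M' (pb2 rhoN P.omI0) z := by
  have hc := P.chart_I h.toOk2
  have hzU : z ∈ P.toPar.M' ∩
      {z | -1 < eW1 z ∧ eS z < 0 ∧ (fZe (rhoN z) ≠ 0 ∨ fZ (rhoN z) ≠ 0)} := ⟨hz, h1, hs, hq⟩
  have hv := hc.maps_ρ z hzU
  have hl := hc.left_inv z hzU
  obtain ⟨v, hvd⟩ : ∃ v, v = P.PiN (rhoN z) := ⟨_, rfl⟩
  have hv' : 0 < P.rI v ∧ P.rI v < P.La ^ 2 := by rw [hvd]; exact hv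
  have hl' : psiN (P.qI v) = z := by rw [hvd]; exact hl
  have hqz : P.qI v = rhoN z := by rw [← hl', rhoN_psiN]
  have hpsi : ContDiffAt ℝ ∞ (fun v => psiN (P.qI v)) v := CA_psi hc hv'
  have hrho : ContDiffAt ℝ ∞ rhoN (psiN (P.qI v)) := by
    rw [hl']
    exact contDiffOn_rhoN.contDiffAt (MF1_open.mem_nhds h1)
  have hqI : ContDiffAt ℝ ∞ P.qI v := by
    have := ContDiffAt.comp (g := rhoN) (f := fun v => psiN (P.qI v)) v hrho hpsi
    refine this.congr_of_eventuallyEq (Filter.Eventually.of_forall fun w => ?_)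
    show P.qI w = rhoN (psiN (P.qI w))
    rw [rhoN_psiN]
  have hnd : NonDegAt P.toPar.M' (pb2 rhoN P.omI0) (psiN (P.qI v)) := by
    refine nonDegAt_of_chart hc hv' fun a ha => ?_
    obtain ⟨b, hb⟩ := P.l6_nondeg h.toOk2 v a ha
    refine ⟨b, ?_⟩
    have e1 : pb2 (fun v => psiN (P.qI v)) (pb2 rhoN P.omI0) v = pb2 P.qI P.omI0 v := by
      rw [pb2_comp (hpsi.differentiableAt (by simp)) (hrho.differentiableAt (by simp))]
      have : (fun y => rhoN (psiN (P.qI y))) = P.qI := by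
        funext y; rw [rhoN_psiN]
      rw [this]
    have hzM : z ∈ WS P.La := hz.1
    have e2 : P.omI0 (P.qI v) = dd (pb1 P.PiN P.l6) (P.qI v) := by
      rw [hqz]
      exact P.MF1_omI0 h (rhoN_mem hzM h1).1 hq hs hr
    have hPi := P.contDiff_PiN h.toOk2
    have hl6 := P.contDiff_l6 h.T2 h.Ta
    have e3 : dd (pb1 P.PiN P.l6) (P.qI v) = pb2 P.PiN (dd P.l6) (P.qI v) :=
      dd_pb1 (hPi.contDiffAt.of_le CC_two_le) (hl6.differentiable (by simp) _)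
    have e4 : pb2 P.qI P.omI0 v = pb2 P.qI (pb2 P.PiN (dd P.l6)) v := by
      refine ContinuousLinearMap.ext fun a => ContinuousLinearMap.ext fun b => ?_
      rw [pb2_apply, pb2_apply, e2, e3]
    have e5 : pb2 P.qI (pb2 P.PiN (dd P.l6)) v = pb2 (fun y => P.PiN (P.qI y)) (dd P.l6) v :=
      pb2_comp (hqI.differentiableAt (by simp)) (hPi.differentiable (by simp) _)
    have e6 : (fun y => P.PiN (P.qI y)) =ᶠ[𝓝 v] fun y => y := by
      filter_upwards [hc.isOpen_V.mem_nhds hv'] with y hy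
      exact (P.PiN_qI h.toOk2 hy).1
    have e7 : fderiv ℝ (fun y => P.PiN (P.qI y)) v = ContinuousLinearMap.id ℝ (V3 × V3) := by
      rw [e6.fderiv_eq]
      exact fderiv_fun_id
    rw [e1, e4, e5, pb2_apply, e7, (P.PiN_qI h.toOk2 hv').1]
    exact hb
  rw [hl'] at hnd
  exact hnd

/-- The form in the chart `(x, q)`. -/
theorem MF1_p7 {La : ℝ} (hLa : 0 < La) {v : R7} (h0 : 0 < qsq v.2.1 v.2.2)
    (h1 : qsq v.2.1 v.2.2 < La ^ 2) : ContDiffAt ℝ ∞ (p7 La) v := by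
  have hc := chart_R7 La hLa
  have hpsi : ContDiffAt ℝ ∞ (fun v => psiN (p7 La v)) v := CA_psi hc ⟨h0, h1⟩
  have hrho : ContDiffAt ℝ ∞ rhoN (psiN (p7 La v)) :=
    contDiffOn_rhoN.contDiffAt (MF1_open.mem_nhds (psiN_mem (p7_mem h0 h1)).2)
  have := ContDiffAt.comp (g := rhoN) (f := fun v => psiN (p7 La v)) v hrho hpsi
  refine this.congr_of_eventuallyEq (Filter.Eventually.of_forall fun w => ?_)
  show p7 La w = rhoN (psiN (p7 La w))
  rw [rhoN_psiN]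

theorem MF1_Vopen (r : ℝ) : IsOpen {v : R7 | 0 < qsq v.2.1 v.2.2 ∧ qsq v.2.1 v.2.2 < r} := by
  have hc : Continuous fun v : R7 => qsq v.2.1 v.2.2 := by
    unfold qsq
    exact (Complex.continuous_normSq.comp (continuous_fst.comp continuous_snd)).add
      (Complex.continuous_normSq.comp (continuous_snd.comp continuous_snd))
  exact (isOpen_lt continuous_const hc).inter (isOpen_lt hc continuous_const)

theorem MF1_alq {La : ℝ} (hLa : 0 < La) {w : R7} (h0 : 0 < qsq w.2.1 w.2.2)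
    (h1 : qsq w.2.1 w.2.2 < La ^ 2) (a : R7) :
    alq (p7 La w) (fderiv ℝ (p7 La) w a) = alq2 w.2 a.2 := by
  have hd : HasFDerivAt (p7 La) (fderiv ℝ (p7 La) w) w :=
    ((MF1_p7 hLa h0 h1).differentiableAt (by simp)).hasFDerivAt
  have hZe : pZe (fderiv ℝ (p7 La) w a) = a.2.1 := by
    have h2 : HasFDerivAt (fun w => pZe (p7 La w)) (pZe.comp (fderiv ℝ (p7 La) w)) w :=
      pZe.hasFDerivAt.comp w hd
    have h3 : HasFDerivAt (fun w : R7 => w.2.1) ((ContinuousLinearMap.fst ℝ ℂ ℂ).comp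
        (ContinuousLinearMap.snd ℝ V3 (ℂ × ℂ))) w :=
      ((ContinuousLinearMap.fst ℝ ℂ ℂ).comp (ContinuousLinearMap.snd ℝ V3 (ℂ × ℂ))).hasFDerivAt
    have h4 : (pZe.comp (fderiv ℝ (p7 La) w)) = (ContinuousLinearMap.fst ℝ ℂ ℂ).comp
        (ContinuousLinearMap.snd ℝ V3 (ℂ × ℂ)) := h2.unique h3
    have h5 := DFunLike.congr_fun h4 a
    exact h5
  have hZ : pZ (fderiv ℝ (p7 La) w a) = a.2.2 := by
    have h2 : HasFDerivAt (fun w => pZ (p7 La w)) (pZ.comp (fderiv ℝ (p7 La) w)) w :=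
      pZ.hasFDerivAt.comp w hd
    have h3 : HasFDerivAt (fun w : R7 => w.2.2) ((ContinuousLinearMap.snd ℝ ℂ ℂ).comp
        (ContinuousLinearMap.snd ℝ V3 (ℂ × ℂ))) w :=
      ((ContinuousLinearMap.snd ℝ ℂ ℂ).comp (ContinuousLinearMap.snd ℝ V3 (ℂ × ℂ))).hasFDerivAt
    have h4 : (pZ.comp (fderiv ℝ (p7 La) w)) = (ContinuousLinearMap.snd ℝ ℂ ℂ).comp
        (ContinuousLinearMap.snd ℝ V3 (ℂ × ℂ)) := h2.unique h3
    have h5 := DFunLike.congr_fun h4 a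
    exact h5
  show (qsq (fZe (p7 La w)) (fZ (p7 La w)))⁻¹ *
    (imF pZe (p7 La w) (fderiv ℝ (p7 La) w a) + imF pZ (p7 La w) (fderiv ℝ (p7 La) w a)) =
    (qsq w.2.1 w.2.2)⁻¹ * (imF (ContinuousLinearMap.fst ℝ ℂ ℂ) w.2 a.2 +
      imF (ContinuousLinearMap.snd ℝ ℂ ℂ) w.2 a.2)
  rw [imF_apply, imF_apply, imF_apply, imF_apply, hZe, hZ]
  rfl

/-- The function of the blow-up term. -/
noncomputable def MF1_G (P : FPar) : Form1 C2 := fun q => (P.eps * P.chi (qsq q.1 q.2)) • alq2 q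

theorem MF1_near (P : FPar) (h : P.Ok3) {z : EA} (hz : z ∈ P.toPar.M') (h1 : -1 < eW1 z)
    (hq : fZe (rhoN z) ≠ 0 ∨ fZ (rhoN z) ≠ 0) (hs : fS (rhoN z) < 0)
    (hu : Complex.normSq (fU (rhoN z)) < P.s1)
    (hr : qsq (fZe (rhoN z)) (fZ (rhoN z)) < P.r0 ^ 2) :
    NonDegAt P.toPar.M' (pb2 rhoN P.omI0) z := by
  have hLa : 0 < P.La := by linarith [h.La]
  have hr0 := h.r0
  have hrb := h.rb0
  have hrr := h.r0rb
  have hr0rb : P.r0 ^ 2 ≤ P.rb ^ 2 / 4 := by nlinarith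
  have hr0La : P.r0 ^ 2 < P.La ^ 2 := by nlinarith [h.La, h.r1]
  have hzM : z ∈ WS P.La := hz.1
  have hc := chart_R7 P.La hLa
  obtain ⟨v, hvd⟩ : ∃ v : R7, v = (xpt (fT (rhoN z)) (fU (rhoN z)), fZe (rhoN z), fZ (rhoN z)) :=
    ⟨_, rfl⟩
  have hzU : z ∈ WS P.La ∩
      {z | -1 < eW1 z ∧ eS z < 0 ∧ (fZe (rhoN z) ≠ 0 ∨ fZ (rhoN z) ≠ 0)} := ⟨hzM, h1, hs, hq⟩
  have hv : 0 < qsq v.2.1 v.2.2 ∧ qsq v.2.1 v.2.2 < P.La ^ 2 := by
    rw [hvd]; exact hc.maps_ρ z hzU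
  have hl : psiN (p7 P.La v) = z := by rw [hvd]; exact hc.left_inv z hzU
  have hpz : p7 P.La v = rhoN z := by rw [← hl, rhoN_psiN]
  have hqv : qsq v.2.1 v.2.2 < P.r0 ^ 2 := by rw [hvd]; exact hr
  have huv : v.1.2.1 ^ 2 + v.1.2.2 ^ 2 < P.s1 := by
    rw [hvd]
    rw [Complex.normSq_apply] at hu
    show (fU (rhoN z)).re ^ 2 + (fU (rhoN z)).im ^ 2 < P.s1
    nlinarith
  -- the open set
  have hWo : IsOpen {z : EA | -1 < eW1 z ∧ qsq (fZe (rhoN z)) (fZ (rhoN z)) < P.rb ^ 2 / 4} := by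
    have hcont : ContinuousOn (fun z : EA => qsq (fZe (rhoN z)) (fZ (rhoN z)))
        {z : EA | -1 < eW1 z} :=
      (SD1_qsq.continuous.comp_continuousOn contDiffOn_rhoN.continuousOn)
    have := hcont.isOpen_inter_preimage MF1_open (isOpen_Iio (a := P.rb ^ 2 / 4))
    exact this
  have hmemM : ∀ y ∈ WS P.La ∩
      {z | -1 < eW1 z ∧ eS z < 0 ∧ (fZe (rhoN z) ≠ 0 ∨ fZ (rhoN z) ≠ 0)} ∩
      {z : EA | -1 < eW1 z ∧ qsq (fZe (rhoN z)) (fZ (rhoN z)) < P.rb ^ 2 / 4},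
      (y ∈ P.toPar.M' ↔ F7 P.hd (xpt (fT (rhoN y)) (fU (rhoN y)), fZe (rhoN y),
        fZ (rhoN y)) = 0) := by
    rintro y ⟨⟨hy1, hy2, hy3, hy4⟩, hy5, hy6⟩
    rw [(P.mem_N hy1 hy2).1 hy3, (P.FNm_core h.toOk2 _ _ _ _ hy6).1]
  have hzW : z ∈ WS P.La ∩
      {z | -1 < eW1 z ∧ eS z < 0 ∧ (fZe (rhoN z) ≠ 0 ∨ fZ (rhoN z) ≠ 0)} ∩
      {z : EA | -1 < eW1 z ∧ qsq (fZe (rhoN z)) (fZ (rhoN z)) < P.rb ^ 2 / 4} :=
    ⟨hzU, h1, lt_of_lt_of_le hr hr0rb⟩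
  have hF0 : F7 P.hd v = 0 := by
    rw [hvd]
    exact (hmemM z hzW).1 hz
  obtain ⟨kap, hkap, hnear, hkb⟩ := h.near
  have hnd : NonDegAt P.toPar.M' (pb2 rhoN P.omI0) (psiN (p7 P.La v)) := by
    refine nonDeg_level hc hWo (v := v) hv ?_ (F7 P.hd) (contDiff_F7 P.hd).contDiffOn hmemM
      (fun y hy => hy.1) hF0 (h.reg v (by linarith) hqv hF0) _ ?_
    · rw [hl]; exact hzW.2
    intro a ha ha0
    -- the pull-back
    have hpsi : ContDiffAt ℝ ∞ (fun v => psiN (p7 P.La v)) v := CA_psi hc hv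
    have hrho : ContDiffAt ℝ ∞ rhoN (psiN (p7 P.La v)) := by
      rw [hl]
      exact contDiffOn_rhoN.contDiffAt (MF1_open.mem_nhds h1)
    have hp7 : ContDiffAt ℝ ∞ (p7 P.La) v := MF1_p7 hLa hv.1 hv.2
    have e1 : pb2 (fun v => psiN (p7 P.La v)) (pb2 rhoN P.omI0) v = pb2 (p7 P.La) P.omI0 v := by
      rw [pb2_comp (hpsi.differentiableAt (by simp)) (hrho.differentiableAt (by simp))]
      have : (fun y => rhoN (psiN (p7 P.La y))) = p7 P.La := by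
        funext y; rw [rhoN_psiN]
      rw [this]
    obtain ⟨L, hL⟩ : ∃ L : Form1 FP,
      L = fun p => pb1 P.PiN P.l6 p - (P.eps * P.chip p) • alq p := ⟨_, rfl⟩
    have hom : P.omI0 = dd L := by rw [hL]; rfl
    have hPi := P.contDiff_PiN h.toOk2
    have hl6 := P.contDiff_l6 h.T2 h.Ta
    have hpDq : p7 P.La v ∈ P.Dq := by
      rw [hpz]
      exact P.Dq_of h.toOk0 (rhoN_mem hzM h1).1 hq
    have hlC : ContDiffOn ℝ ∞ (pb1 P.PiN P.l6) Set.univ :=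
      contDiffOn_pb1 isOpen_univ hPi.contDiffOn hl6.contDiffOn (mapsTo_univ _ _)
    have hLd : DifferentiableAt ℝ L (p7 P.La v) := by
      rw [hL]
      exact (CC_diff isOpen_univ hlC (mem_univ _)).fun_sub
        (((CC_diff P.isOpen_Dq (SD1_chip P h.toOk0) hpDq).const_mul P.eps).fun_smul
          (CC_diff P.isOpen_Dq (SD1_alq P) hpDq))
    have e2 : pb2 (p7 P.La) (dd L) v = dd (pb1 (p7 P.La) L) v :=
      (dd_pb1 (hp7.of_le CC_two_le) hLd).symm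
    -- the eventual formula
    have hVn : {v : R7 | 0 < qsq v.2.1 v.2.2 ∧ qsq v.2.1 v.2.2 < P.r0 ^ 2} ∈ 𝓝 v :=
      (MF1_Vopen _).mem_nhds ⟨hv.1, hqv⟩
    have hPiEq : ∀ w ∈ {v : R7 | 0 < qsq v.2.1 v.2.2 ∧ qsq v.2.1 v.2.2 < P.r0 ^ 2},
        P.PiN (p7 P.La w) = Pi7 P.hd w := by
      rintro w ⟨hw1, hw2⟩
      have := (P.FNm_core h.toOk2 w.1.1 ⟨w.1.2.1, w.1.2.2⟩ w.2.1 w.2.2
        (lt_of_lt_of_le hw2 hr0rb)).2
      exact Prod.ext rfl this
    have e3 : pb1 (p7 P.La) L =ᶠ[𝓝 v] fun w => pb1 (Pi7 P.hd) P.l6 w -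
        pb1 (fun w : R7 => w.2) P.MF1_G w := by
      filter_upwards [hVn] with w hw
      have hw2 : qsq w.2.1 w.2.2 < P.La ^ 2 := lt_trans hw.2 hr0La
      have hp7w : ContDiffAt ℝ ∞ (p7 P.La) w := MF1_p7 hLa hw.1 hw2
      have e4 : pb1 (p7 P.La) (pb1 P.PiN P.l6) w = pb1 (Pi7 P.hd) P.l6 w := by
        rw [pb1_comp (hp7w.differentiableAt (by simp)) (hPi.differentiable (by simp) _)]
        have hev : (fun y => P.PiN (p7 P.La y)) =ᶠ[𝓝 w] Pi7 P.hd := by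
          filter_upwards [(MF1_Vopen _).mem_nhds hw] with y hy
          exact hPiEq y hy
        unfold pb1
        rw [hev.fderiv_eq]
        show P.l6 (P.PiN (p7 P.La w)) ∘SL _ = _
        rw [hPiEq w hw]
      have hsn : fderiv ℝ (fun w : R7 => w.2) w = ContinuousLinearMap.snd ℝ V3 (ℂ × ℂ) :=
        (ContinuousLinearMap.snd ℝ V3 (ℂ × ℂ)).hasFDerivAt.fderiv
      have hchip : P.chip (p7 P.La w) = P.chi (qsq w.2.1 w.2.2) := by
        unfold chip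
        have : fS (p7 P.La w) < 0 := by
          show -Real.sqrt (P.La ^ 2 - qsq w.2.1 w.2.2) < 0
          have := Real.sqrt_pos.2 (show 0 < P.La ^ 2 - qsq w.2.1 w.2.2 by linarith)
          linarith
        rw [if_pos this]
        rfl
      refine ContinuousLinearMap.ext fun b => ?_
      have e5 : pb1 (p7 P.La) L w b = pb1 (p7 P.La) (pb1 P.PiN P.l6) w b -
          (P.eps * P.chip (p7 P.La w)) * alq (p7 P.La w) (fderiv ℝ (p7 P.La) w b) := by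
        rw [hL]
        rfl
      rw [e5, e4, MF1_alq hLa hw.1 hw2, hchip]
      have e6 : pb1 (fun w : R7 => w.2) P.MF1_G w b =
          (P.eps * P.chi (qsq w.2.1 w.2.2)) * alq2 w.2 b.2 := by
        unfold pb1
        rw [hsn]
        rfl
      show _ = pb1 (Pi7 P.hd) P.l6 w b - pb1 (fun w : R7 => w.2) P.MF1_G w b
      rw [e6]
    -- differentiability of G
    have hchis := (P.chi_props h.r0)
    have hq2 : ContDiff ℝ ∞ (fun q : C2 => qsq q.1 q.2) := by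
      unfold qsq
      exact (SD1_normSq.comp contDiff_fst).add (SD1_normSq.comp contDiff_snd)
    have hal2 : ContDiffAt ℝ ∞ alq2 v.2 := by
      unfold alq2
      exact (hq2.contDiffAt.inv hv.1.ne').smul
        (((contDiff_imF _).add (contDiff_imF _)).contDiffAt)
    have hG : ContDiffAt ℝ ∞ P.MF1_G v.2 := by
      unfold MF1_G
      exact (contDiffAt_const.mul ((hchis.1.comp hq2).contDiffAt)).smul hal2
    have hGd : DifferentiableAt ℝ P.MF1_G v.2 := hG.differentiableAt (by simp)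
    have hsnd : ContDiff ℝ ∞ (fun w : R7 => w.2) := contDiff_snd
    have hl7 : ContDiffOn ℝ ∞ (pb1 (Pi7 P.hd) P.l6) Set.univ :=
      contDiffOn_pb1 isOpen_univ (contDiff_Pi7 P.hd).contDiffOn hl6.contDiffOn (mapsTo_univ _ _)
    have hpG : DifferentiableAt ℝ (pb1 (fun w : R7 => w.2) P.MF1_G) v := by
      have hsn : ∀ w : R7, fderiv ℝ (fun w : R7 => w.2) w = ContinuousLinearMap.snd ℝ V3 (ℂ × ℂ) :=
        fun w => (ContinuousLinearMap.snd ℝ V3 (ℂ × ℂ)).hasFDerivAt.fderiv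
      have : pb1 (fun w : R7 => w.2) P.MF1_G =
          fun w => (P.MF1_G w.2).comp (ContinuousLinearMap.snd ℝ V3 (ℂ × ℂ)) := by
        funext w
        unfold pb1
        rw [hsn]
      rw [this]
      exact (hGd.comp v (hsnd.differentiable (by simp) v)).clm_comp (differentiableAt_const _)
    have e7 : dd (pb1 (p7 P.La) L) v = P.Om7 v - pb2 (fun w : R7 => w.2) (dd P.MF1_G) v := by
      rw [dd_congr e3, dd_sub (CC_diff isOpen_univ hl7 (mem_univ _)) hpG,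
        dd_pb1 (hsnd.contDiffAt.of_le CC_two_le) hGd]
      rfl
    obtain ⟨w', hw', hne⟩ := hnear v (by linarith) hqv hF0 (-(dd P.MF1_G v.2)) (by
      intro b
      have hch : ContDiffAt ℝ ∞ (fun r => P.eps * P.chi r) (qsq v.2.1 v.2.2) :=
        (contDiff_const.mul hchis.1).contDiffAt
      have hvq : v.2.1 ≠ 0 ∨ v.2.2 ≠ 0 := by rw [hvd]; exact hq
      have hb := Ef_bound (fun r => P.eps * P.chi r) v.2 b hvq hch
        (mul_nonneg h.eps.le (hchis.2.2.2.1 _).1)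
      have hder : deriv (fun r => P.eps * P.chi r) (qsq v.2.1 v.2.2) =
          P.eps * deriv P.chi (qsq v.2.1 v.2.2) := by
        rw [deriv_const_mul_field]
      rw [hder, abs_mul, abs_of_pos h.eps] at hb
      have hk := hkb (qsq v.2.1 v.2.2)
      have hbn : 0 ≤ qsq b.1 b.2 := by
        unfold qsq
        exact add_nonneg (Complex.normSq_nonneg _) (Complex.normSq_nonneg _)
      have h9 : -kap * qsq b.1 b.2 ≤
          -(2 * (P.eps * |deriv P.chi (qsq v.2.1 v.2.2)|)) * qsq b.1 b.2 := by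
        apply mul_le_mul_of_nonneg_right _ hbn
        linarith
      refine h9.trans (hb.trans (le_of_eq ?_))
      rfl) a ha ha0
    refine ⟨w', hw', ?_⟩
    have hsn : fderiv ℝ (fun w : R7 => w.2) v = ContinuousLinearMap.snd ℝ V3 (ℂ × ℂ) :=
      (ContinuousLinearMap.snd ℝ V3 (ℂ × ℂ)).hasFDerivAt.fderiv
    rw [e1, hom, e2, e7]
    show P.Om7 v a w' - pb2 (fun w : R7 => w.2) (dd P.MF1_G) v a w' ≠ 0
    rw [pb2_apply, hsn]
    show P.Om7 v a w' - dd P.MF1_G v.2 a.2 w'.2 ≠ 0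
    have e8 : P.Om7 v a w' - dd P.MF1_G v.2 a.2 w'.2 =
        P.Om7 v a w' + (-(dd P.MF1_G v.2)) a.2 w'.2 := by
      show _ = P.Om7 v a w' + -(dd P.MF1_G v.2 a.2 w'.2)
      ring
    rw [e8]
    exact hne
  rw [hl] at hnd
  exact hnd

theorem nd_I0 (P : FPar) (h : P.Ok3) {z : EA} (hz : z ∈ P.toPar.M') (h1 : -1 < eW1 z)
    (hq : fZe (rhoN z) ≠ 0 ∨ fZ (rhoN z) ≠ 0) (hs : fS (rhoN z) < -(P.La / 2))
    (hu : Complex.normSq (fU (rhoN z)) < P.s1) : NonDegAt P.toPar.M' (pb2 rhoN P.omI0) z := by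
  have hLa := h.La
  have hs' : fS (rhoN z) < 0 := by linarith
  rcases le_or_gt (P.r0 ^ 2) (qsq (fZe (rhoN z)) (fZ (rhoN z))) with hr | hr
  · exact P.MF1_far h hz h1 hq hs' hr
  · exact P.MF1_near h hz h1 hq hs' hu hr

end FPar

end Pool.Agent.H34.SY
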