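import Pool.Agent.H34.SY.Geo

/-!
# Row WA1: the charts of `FPS La`

One of three elementary statements of the same kind (rows WA1, WA2, WA3): the two maps are explicit rational functions
(and one square root), smooth where they are used, and inverse to each other.

Useful identities on `FPS La`: with `h0 ^ 2 + |h| ^ 2 = 1` and `h0 < 1`, put `b = conj h / (1 - h0)`;
then `|b| ^ 2 = (1 + h0) / (1 - h0)`, `1 + |b| ^ 2 = 2 / (1 - h0)`, `ζ = b z` (third equation of
`FPS`), so `|ζ|^2 + |z|^2 = |z| ^ 2 (1 + |b| ^ 2)` and `s ^ 2 = La ^ 2 - |z| ^ 2 (1 + |b| ^ 2)`; since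
`sg * s > 0` and `sg = ±1`, `s = sg * √(s ^ 2)`.  In the other direction: `h0 = (|b|^2-1)/(|b|^2+1)`,
`h = 2 conj b / (1 + |b|^2)` satisfy `conj h / (1 - h0) = b`.
For the second chart `β = h / (1 + h0)`, `|β| ^ 2 = (1 - h0)/(1 + h0)`, `z = β ζ`.
For the third: `Q = (ζ, z) / (La - s)`, `|Q|^2 = (La ^ 2 - s ^ 2)/(La - s)^2 = (La + s)/(La - s)`,
`1 + |Q|^2 = 2 La / (La - s)`, `s = La (|Q|^2 - 1)/(|Q|^2 + 1)`; on `FPS La` off `ζ = z = 0` one has
`h0 = (|ζ|^2 - |z|^2)/(|ζ|^2+|z|^2)` and `h = 2 conj ζ z/(|ζ|^2+|z|^2)`: from `(1+h0) z = h ζ` and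
`(1-h0) ζ = conj h z` get `(1+h0)|z|^2 = Re(conj z h ζ) = (1-h0)|ζ|^2` and
`h |ζ|^2 + conj(conj h z) ... `: `h |ζ|^2 = (1+h0) conj ζ z`, `h |z|^2 = (1-h0) conj ζ z` (conjugate of the
third equation times `z`), add: `h |q|^2 = 2 conj ζ z`.

Smoothness: `Complex.normSq` is smooth (`Complex.normSq_apply`, or write it as `re^2+im^2`);
`Real.sqrt` at positive argument (`Real.contDiffAt_sqrt`/`ContDiffAt.sqrt`); `conj` is
`Complex.conjCLE`.  You may split the file in several lemmas and add helper lemmas; do not change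
the three statements.
-/

open Set Topology
open scoped ContDiff ComplexConjugate

namespace Pool.Agent.H34.SY

theorem contDiff_normSq : ContDiff ℝ ∞ (fun z : ℂ => Complex.normSq z) := by
  have h : (fun z : ℂ => Complex.normSq z) = fun z : ℂ => z.re * z.re + z.im * z.im := by
    funext z
    exact Complex.normSq_apply z
  rw [h]
  exact (Complex.reCLM.contDiff.mul Complex.reCLM.contDiff).add
    (Complex.imCLM.contDiff.mul Complex.imCLM.contDiff)

theorem WA1_conj : ContDiff ℝ ∞ (fun z : ℂ => conj z) := Complex.conjCLE.contDiff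

theorem WA1_ofReal : ContDiff ℝ ∞ (fun x : ℝ => (x : ℂ)) := Complex.ofRealCLM.contDiff

theorem WA1_sg {sg : ℝ} (hsg : sg = 1 ∨ sg = -1) : sg * sg = 1 := by
  rcases hsg with rfl | rfl <;> norm_num

theorem WA1_sqrt {sg : ℝ} (hsg : sg = 1 ∨ sg = -1) {s : ℝ} (h : 0 < sg * s) :
    sg * Real.sqrt (s ^ 2) = s := by
  rw [Real.sqrt_sq_eq_abs]
  rcases hsg with rfl | rfl
  · rw [one_mul] at h ⊢
    exact abs_of_pos h
  · have h1 : s < 0 := by linarith
    rw [abs_of_neg h1]
    ring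

/-- `|b|²` for `b = conj h / (1 - h₀)`. -/
theorem WA1_nb {h0 : ℝ} {h : ℂ} (h1 : h0 ^ 2 + Complex.normSq h = 1) (h2 : h0 < 1) :
    Complex.normSq (((1 - h0)⁻¹ : ℝ) * conj h) = (1 + h0) / (1 - h0) := by
  have h3 : 1 - h0 ≠ 0 := by linarith
  rw [map_mul, Complex.normSq_ofReal, Complex.normSq_conj]
  have h4 : Complex.normSq h = (1 - h0) * (1 + h0) := by linarith [h1, sq h0]
  rw [h4]
  field_simp

theorem WA1_ze {h0 : ℝ} {h ze z : ℂ} (h2 : h0 < 1)
    (h3 : ((1 - h0 : ℝ) : ℂ) * ze = conj h * z) :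
    (((1 - h0)⁻¹ : ℝ) : ℂ) * conj h * z = ze := by
  have h4 : ((1 - h0 : ℝ) : ℂ) ≠ 0 := by
    rw [Complex.ofReal_ne_zero]
    linarith
  rw [mul_assoc, ← h3, Complex.ofReal_inv, ← mul_assoc, inv_mul_cancel₀ h4, one_mul]

theorem chart_cB (La : ℝ) (hLa : 0 < La) (sg : ℝ) (hsg : sg = 1 ∨ sg = -1) :
    IsChart (FPS La) {p | fH0 p < 1 ∧ 0 < sg * fS p}
      {v : H7 | Complex.normSq v.2.2.2 * (1 + Complex.normSq v.2.2.1) < La ^ 2}
      (fun p => (fT p, fU p, ((1 - fH0 p)⁻¹ : ℝ) * conj (fH p), fZ p)) (cB La sg) := by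
  have hnb0 : ∀ b : ℂ, 0 < 1 + Complex.normSq b := fun b => by
    have := Complex.normSq_nonneg b
    linarith
  have cN1 : ContDiff ℝ ∞ (fun v : H7 => Complex.normSq v.2.2.1) :=
    contDiff_normSq.comp (by fun_prop : ContDiff ℝ ∞ (fun v : H7 => v.2.2.1))
  have cN2 : ContDiff ℝ ∞ (fun v : H7 => Complex.normSq v.2.2.2) :=
    contDiff_normSq.comp (by fun_prop : ContDiff ℝ ∞ (fun v : H7 => v.2.2.2))
  have cR : ContDiff ℝ ∞ (fun v : H7 =>
      Complex.normSq v.2.2.2 * (1 + Complex.normSq v.2.2.1)) :=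
    cN2.mul (contDiff_const.add cN1)
  -- the main identity
  have key : ∀ p ∈ FPS La, fH0 p < 1 →
      Complex.normSq (fZ p) * (1 + Complex.normSq (((1 - fH0 p)⁻¹ : ℝ) * conj (fH p))) =
        La ^ 2 - fS p ^ 2 := by
    rintro ⟨t, u, h0, h, ze, z, s⟩ ⟨e1, e2, e3, e4⟩ h5
    have e6 := WA1_ze h5 e3
    show Complex.normSq z * (1 + Complex.normSq (((1 - h0)⁻¹ : ℝ) * conj h)) = La ^ 2 - s ^ 2
    have e7 : Complex.normSq ze = Complex.normSq (((1 - h0)⁻¹ : ℝ) * conj h) * Complex.normSq z := by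
      rw [← map_mul, e6]
    have e4' : Complex.normSq ze + Complex.normSq z + s ^ 2 = La ^ 2 := e4
    rw [e7] at e4'
    linarith
  refine ⟨?_, ?_, ?_, ?_, ?_, ?_, ?_, ?_⟩
  · have c1 : Continuous (fun p : FP => fH0 p) := by fun_prop
    have c2 : Continuous (fun p : FP => sg * fS p) := by fun_prop
    exact (isOpen_lt c1 continuous_const).inter (isOpen_lt continuous_const c2)
  · exact isOpen_lt cR.continuous continuous_const
  · have c1 : ContDiffOn ℝ ∞ (fun p : FP => (1 - fH0 p)⁻¹) {p | fH0 p < 1 ∧ 0 < sg * fS p} := by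
      refine ContDiffOn.inv (by fun_prop) ?_
      intro p hp
      have := hp.1
      intro h0
      linarith
    have c2 : ContDiff ℝ ∞ (fun p : FP => conj (fH p)) :=
      WA1_conj.comp (by fun_prop : ContDiff ℝ ∞ (fun p : FP => fH p))
    have c3 : ContDiffOn ℝ ∞ (fun p : FP => (((1 - fH0 p)⁻¹ : ℝ) : ℂ) * conj (fH p))
        {p | fH0 p < 1 ∧ 0 < sg * fS p} :=
      (WA1_ofReal.comp_contDiffOn c1).mul c2.contDiffOn
    exact ContDiffOn.prodMk (by fun_prop) (ContDiffOn.prodMk (by fun_prop)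
      (ContDiffOn.prodMk c3 (by fun_prop)))
  · have d0 : ∀ v : H7, Complex.normSq v.2.2.1 + 1 ≠ 0 := fun v => by
      have := hnb0 v.2.2.1
      linarith
    have d1 : ∀ v : H7, 1 + Complex.normSq v.2.2.1 ≠ 0 := fun v => (hnb0 v.2.2.1).ne'
    have c1 : ContDiff ℝ ∞ (fun v : H7 =>
        (Complex.normSq v.2.2.1 - 1) / (Complex.normSq v.2.2.1 + 1)) :=
      (cN1.sub contDiff_const).div (cN1.add contDiff_const) d0
    have c2 : ContDiff ℝ ∞ (fun v : H7 => (2 / (1 + Complex.normSq v.2.2.1) : ℝ)) :=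
      contDiff_const.div (contDiff_const.add cN1) d1
    have c3 : ContDiff ℝ ∞ (fun v : H7 => conj v.2.2.1) :=
      WA1_conj.comp (by fun_prop : ContDiff ℝ ∞ (fun v : H7 => v.2.2.1))
    have c4 : ContDiff ℝ ∞ (fun v : H7 =>
        ((2 / (1 + Complex.normSq v.2.2.1) : ℝ) : ℂ) * conj v.2.2.1) :=
      (WA1_ofReal.comp c2).mul c3
    have c5 : ContDiff ℝ ∞ (fun v : H7 => v.2.2.1 * v.2.2.2) :=
      (by fun_prop : ContDiff ℝ ∞ (fun v : H7 => v.2.2.1)).mul
        (by fun_prop : ContDiff ℝ ∞ (fun v : H7 => v.2.2.2))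
    have c6 : ContDiffOn ℝ ∞ (fun v : H7 =>
        sg * Real.sqrt (La ^ 2 - Complex.normSq v.2.2.2 * (1 + Complex.normSq v.2.2.1)))
        {v : H7 | Complex.normSq v.2.2.2 * (1 + Complex.normSq v.2.2.1) < La ^ 2} := by
      refine contDiffOn_const.mul (ContDiffOn.sqrt (contDiff_const.sub cR).contDiffOn ?_)
      intro v hv
      have hv' : Complex.normSq v.2.2.2 * (1 + Complex.normSq v.2.2.1) < La ^ 2 := hv
      intro h0
      linarith
    exact ContDiffOn.prodMk (by fun_prop) (ContDiffOn.prodMk (by fun_prop)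
      (ContDiffOn.prodMk c1.contDiffOn (ContDiffOn.prodMk c4.contDiffOn
        (ContDiffOn.prodMk c5.contDiffOn (ContDiffOn.prodMk (by fun_prop) c6)))))
  · rintro p ⟨hp, h5, h6⟩
    show Complex.normSq (fZ p) *
      (1 + Complex.normSq (((1 - fH0 p)⁻¹ : ℝ) * conj (fH p))) < La ^ 2
    rw [key p hp h5]
    have h7 : fS p ≠ 0 := by
      intro h8
      rw [h8, mul_zero] at h6
      exact lt_irrefl _ h6
    have := sq_pos_of_ne_zero h7
    linarith
  · rintro ⟨t, u, b, y⟩ hv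
    have hv' : Complex.normSq y * (1 + Complex.normSq b) < La ^ 2 := hv
    have hb := hnb0 b
    have hb1 : Complex.normSq b + 1 ≠ 0 := by linarith
    have hb2 : 1 + Complex.normSq b ≠ 0 := hb.ne'
    have hb3 : ((Complex.normSq b : ℝ) : ℂ) + 1 ≠ 0 := by
      rw [← Complex.ofReal_one, ← Complex.ofReal_add, Complex.ofReal_ne_zero]
      exact hb1
    have hb4 : 1 + ((Complex.normSq b : ℝ) : ℂ) ≠ 0 := by
      rw [add_comm]
      exact hb3
    have hbb : conj b * b = ((Complex.normSq b : ℝ) : ℂ) := Complex.normSq_eq_conj_mul_self.symm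
    refine ⟨⟨?_, ?_, ?_, ?_⟩, ?_, ?_⟩
    · show ((Complex.normSq b - 1) / (Complex.normSq b + 1)) ^ 2 +
        Complex.normSq (((2 / (1 + Complex.normSq b) : ℝ) : ℂ) * conj b) = 1
      rw [map_mul, Complex.normSq_ofReal, Complex.normSq_conj]
      field_simp
      ring
    · show ((1 + (Complex.normSq b - 1) / (Complex.normSq b + 1) : ℝ) : ℂ) * y =
        ((2 / (1 + Complex.normSq b) : ℝ) : ℂ) * conj b * (b * y)
      have e1 : ((2 / (1 + Complex.normSq b) : ℝ) : ℂ) * conj b * (b * y) =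
          ((2 / (1 + Complex.normSq b) : ℝ) : ℂ) * (conj b * b) * y := by ring
      rw [e1, hbb, ← Complex.ofReal_mul]
      congr 2
      field_simp
      ring
    · show ((1 - (Complex.normSq b - 1) / (Complex.normSq b + 1) : ℝ) : ℂ) * (b * y) =
        conj (((2 / (1 + Complex.normSq b) : ℝ) : ℂ) * conj b) * y
      rw [map_mul, Complex.conj_ofReal, Complex.conj_conj, mul_assoc]
      congr 2
      field_simp
      ring
    · show Complex.normSq (b * y) + Complex.normSq y +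
        (sg * Real.sqrt (La ^ 2 - Complex.normSq y * (1 + Complex.normSq b))) ^ 2 = La ^ 2
      have e1 : (sg * Real.sqrt (La ^ 2 - Complex.normSq y * (1 + Complex.normSq b))) ^ 2 =
          La ^ 2 - Complex.normSq y * (1 + Complex.normSq b) := by
        rw [mul_pow, Real.sq_sqrt (by linarith), sq, WA1_sg hsg, one_mul]
      rw [e1, map_mul]
      ring
    · show (Complex.normSq b - 1) / (Complex.normSq b + 1) < 1
      rw [div_lt_one (by linarith)]
      linarith
    · show 0 < sg * (sg * Real.sqrt (La ^ 2 - Complex.normSq y * (1 + Complex.normSq b)))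
      rw [← mul_assoc, WA1_sg hsg, one_mul]
      exact Real.sqrt_pos.mpr (by linarith)
  · rintro p ⟨hp, h5, h6⟩
    have hk := key p hp h5
    obtain ⟨t, u, h0, h, ze, z, s⟩ := p
    obtain ⟨e1, e2, e3, e4⟩ := hp
    have e1' : h0 ^ 2 + Complex.normSq h = 1 := e1
    have h5' : h0 < 1 := h5
    have h6' : 0 < sg * s := h6
    have hk' : Complex.normSq z * (1 + Complex.normSq (((1 - h0)⁻¹ : ℝ) * conj h)) =
        La ^ 2 - s ^ 2 := hk
    have h8 : 1 - h0 ≠ 0 := by linarith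
    have hnb := WA1_nb e1' h5'
    show (t, u, (Complex.normSq (((1 - h0)⁻¹ : ℝ) * conj h) - 1) /
        (Complex.normSq (((1 - h0)⁻¹ : ℝ) * conj h) + 1),
      ((2 / (1 + Complex.normSq (((1 - h0)⁻¹ : ℝ) * conj h)) : ℝ) : ℂ) *
        conj (((1 - h0)⁻¹ : ℝ) * conj h),
      ((1 - h0)⁻¹ : ℝ) * conj h * z, z,
      sg * Real.sqrt (La ^ 2 - Complex.normSq z *
        (1 + Complex.normSq (((1 - h0)⁻¹ : ℝ) * conj h)))) = (t, u, h0, h, ze, z, s)
    have f1 : (Complex.normSq (((1 - h0)⁻¹ : ℝ) * conj h) - 1) /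
        (Complex.normSq (((1 - h0)⁻¹ : ℝ) * conj h) + 1) = h0 := by
      rw [hnb]
      have h9 : (1 + h0) / (1 - h0) + 1 = 2 / (1 - h0) := by
        field_simp
        ring
      have h10 : (1 + h0) / (1 - h0) - 1 = 2 * h0 / (1 - h0) := by
        field_simp
        ring
      rw [h9, h10]
      field_simp
    have f2 : ((2 / (1 + Complex.normSq (((1 - h0)⁻¹ : ℝ) * conj h)) : ℝ) : ℂ) *
        conj (((1 - h0)⁻¹ : ℝ) * conj h) = h := by
      have h9 : 2 / (1 + Complex.normSq (((1 - h0)⁻¹ : ℝ) * conj h)) = 1 - h0 := by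
        rw [hnb]
        have h10 : 1 + (1 + h0) / (1 - h0) = 2 / (1 - h0) := by
          field_simp
          ring
        rw [h10]
        field_simp
      rw [h9, map_mul, Complex.conj_ofReal, Complex.conj_conj, ← mul_assoc, ← Complex.ofReal_mul,
        mul_inv_cancel₀ h8, Complex.ofReal_one, one_mul]
    have f3 : (((1 - h0)⁻¹ : ℝ) : ℂ) * conj h * z = ze := WA1_ze h5' e3
    have f4 : sg * Real.sqrt (La ^ 2 - Complex.normSq z *
        (1 + Complex.normSq (((1 - h0)⁻¹ : ℝ) * conj h))) = s := by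
      rw [hk']
      have h9 : La ^ 2 - (La ^ 2 - s ^ 2) = s ^ 2 := by ring
      rw [h9]
      exact WA1_sqrt hsg h6'
    rw [f1, f2, f3, f4]
  · rintro ⟨t, u, b, y⟩ hv
    have hb := hnb0 b
    have hb1 : Complex.normSq b + 1 ≠ 0 := by linarith
    have hb2 : 1 + Complex.normSq b ≠ 0 := hb.ne'
    show (t, u, (((1 - (Complex.normSq b - 1) / (Complex.normSq b + 1))⁻¹ : ℝ) : ℂ) *
      conj (((2 / (1 + Complex.normSq b) : ℝ) : ℂ) * conj b), y) = (t, u, b, y)
    have e1 : (((1 - (Complex.normSq b - 1) / (Complex.normSq b + 1))⁻¹ : ℝ) : ℂ) *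
      conj (((2 / (1 + Complex.normSq b) : ℝ) : ℂ) * conj b) = b := by
      rw [map_mul, Complex.conj_ofReal, Complex.conj_conj, ← mul_assoc, ← Complex.ofReal_mul]
      have e2 : (1 - (Complex.normSq b - 1) / (Complex.normSq b + 1))⁻¹ *
          (2 / (1 + Complex.normSq b)) = 1 := by
        have e3 : 1 - (Complex.normSq b - 1) / (Complex.normSq b + 1) =
            2 / (1 + Complex.normSq b) := by
          field_simp
          ring
        rw [e3]
        exact inv_mul_cancel₀ (div_ne_zero two_ne_zero hb2)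
      rw [e2, Complex.ofReal_one, one_mul]
    rw [e1]

end Pool.Agent.H34.SY
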