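import Pool.Agent.H34.SY.Geo

/-!
# Row WA2: the charts of `FPS La`

One of three elementary statements of the same kind (rows WA1, WA2, WA3): the two maps are explicit rational functions
(and one square root), smooth where they are used, and inverse to each other.

Useful identities on `FPS La`: with `h0 ^ 2 + |h| ^ 2 = 1` and `h0 < 1`, put `b = conj h / (1 - h0)`;
then `|b| ^ 2 = (1 + h0) / (1 - h0)`, `1 + |b| ^ 2 = 2 / (1 - h0)`, `ζ = b z` (third equation of
`FPS`), so `|ζ|^2 + |z|^2 = |z| ^ 2 (1 + |b| ^ 2)` and `s ^ 2 = La ^ 2 - |z| ^ 2 (1 + |b| ^ 2)`; since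
`sg * s > 0` and `sg = ±1`, `s = sg * √(s ^ 2)`.  In the other direction: `h0 = (|b|^2-1)/(|b|^2+1)`,
`h = 2 conj b / (1 + |b|^2)` satisfy `conj h / (1 - h0) = b`.
For the second chart `β = h / (1 + h0)`, `|β| ^ 2 = (1 - h0)/(1 + h0)`, `z = β ζ`.
For the third: `Q = (ζ, z) / (La - s)`, `|Q|^2 = (La ^ 2 - s ^ 2)/(La - s)^2 = (La + s)/(La - s)`,
`1 + |Q|^2 = 2 La / (La - s)`, `s = La (|Q|^2 - 1)/(|Q|^2 + 1)`; on `FPS La` off `ζ = z = 0` one has
`h0 = (|ζ|^2 - |z|^2)/(|ζ|^2+|z|^2)` and `h = 2 conj ζ z/(|ζ|^2+|z|^2)`: from `(1+h0) z = h ζ` and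
`(1-h0) ζ = conj h z` get `(1+h0)|z|^2 = Re(conj z h ζ) = (1-h0)|ζ|^2` and
`h |ζ|^2 + conj(conj h z) ... `: `h |ζ|^2 = (1+h0) conj ζ z`, `h |z|^2 = (1-h0) conj ζ z` (conjugate of the
third equation times `z`), add: `h |q|^2 = 2 conj ζ z`.

Smoothness: `Complex.normSq` is smooth (`Complex.normSq_apply`, or write it as `re^2+im^2`);
`Real.sqrt` at positive argument (`Real.contDiffAt_sqrt`/`ContDiffAt.sqrt`); `conj` is
`Complex.conjCLE`.  You may split the file in several lemmas and add helper lemmas; do not change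
the three statements.
-/

open Set Topology
open scoped ContDiff ComplexConjugate

namespace Pool.Agent.H34.SY

private theorem contDiff_normSq' : ContDiff ℝ ∞ (fun z : ℂ => Complex.normSq z) := by
  have h1 : (fun z : ℂ => Complex.normSq z) = fun z : ℂ => ‖z‖ ^ 2 := by
    funext z
    rw [Complex.normSq_eq_norm_sq]
  rw [h1]
  exact contDiff_norm_sq ℝ

private theorem WA2_N (h0 : ℝ) (h : ℂ) (h1 : -1 < h0) (h2 : h0 ^ 2 + Complex.normSq h = 1) :
    Complex.normSq (((1 + h0)⁻¹ : ℝ) * h) = (1 - h0) / (1 + h0) := by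
  have h3 : 0 < 1 + h0 := by linarith
  rw [Complex.normSq_mul, Complex.normSq_ofReal]
  have h4 : Complex.normSq h = (1 - h0) * (1 + h0) := by linarith
  rw [h4]
  field_simp

private theorem WA2_sum (La : ℝ) (p : FP) (hp : p ∈ FPS La) (h1 : -1 < fH0 p) :
    Complex.normSq (fZe p) * (1 + Complex.normSq (((1 + fH0 p)⁻¹ : ℝ) * fH p)) =
      La ^ 2 - fS p ^ 2 ∧ ((1 + fH0 p)⁻¹ : ℝ) * fH p * fZe p = fZ p := by
  obtain ⟨e1, e2, e3, e4⟩ := hp
  have h3 : (1 + fH0 p) ≠ 0 := by linarith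
  have h4 : ((1 + fH0 p : ℝ) : ℂ) ≠ 0 := by exact_mod_cast h3
  have hz : ((1 + fH0 p)⁻¹ : ℝ) * fH p * fZe p = fZ p := by
    rw [mul_assoc, ← e2, Complex.ofReal_inv, inv_mul_cancel_left₀ h4]
  refine ⟨?_, hz⟩
  have h5 : Complex.normSq (fZ p) =
      Complex.normSq (((1 + fH0 p)⁻¹ : ℝ) * fH p) * Complex.normSq (fZe p) := by
    rw [← hz, Complex.normSq_mul]
  rw [mul_add, mul_one, mul_comm (Complex.normSq (fZe p)) (Complex.normSq _), ← h5]
  linarith

theorem chart_cA (La : ℝ) (hLa : 0 < La) (sg : ℝ) (hsg : sg = 1 ∨ sg = -1) :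
    IsChart (FPS La) {p | -1 < fH0 p ∧ 0 < sg * fS p}
      {v : H7 | Complex.normSq v.2.2.2 * (1 + Complex.normSq v.2.2.1) < La ^ 2}
      (fun p => (fT p, fU p, ((1 + fH0 p)⁻¹ : ℝ) * fH p, fZe p)) (cA La sg) := by
  have hsq : sg ^ 2 = 1 := by rcases hsg with h | h <;> rw [h] <;> norm_num
  have hns := contDiff_normSq'
  have hnc : Continuous (fun z : ℂ => Complex.normSq z) := Complex.continuous_normSq
  have hof : ContDiff ℝ ∞ (fun x : ℝ => (x : ℂ)) := Complex.ofRealCLM.contDiff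
  refine ⟨?_, ?_, ?_, ?_, ?_, ?_, ?_, ?_⟩
  · -- U is open
    have c1 : Continuous (fun p : FP => fH0 p) := by unfold fH0; fun_prop
    have c2 : Continuous (fun p : FP => sg * fS p) := by unfold fS; fun_prop
    exact (isOpen_lt continuous_const c1).inter (isOpen_lt continuous_const c2)
  · -- V is open
    refine isOpen_lt ?_ continuous_const
    exact (hnc.comp (by fun_prop)).mul (continuous_const.add (hnc.comp (by fun_prop)))
  · -- rho is smooth
    intro p hp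
    have h1 : (1 + fH0 p) ≠ 0 := by
      have := hp.1
      linarith
    have c1 : ContDiffAt ℝ ∞ (fun p : FP => fH0 p) p := by
      unfold fH0
      exact (by fun_prop : ContDiff ℝ ∞ (fun p : FP => p.2.2.1)).contDiffAt
    have c2 : ContDiffAt ℝ ∞ (fun p : FP => fH p) p := by
      unfold fH
      exact (by fun_prop : ContDiff ℝ ∞ (fun p : FP => p.2.2.2.1)).contDiffAt
    have c3 : ContDiffAt ℝ ∞ (fun p : FP => fT p) p := by
      unfold fT
      exact (by fun_prop : ContDiff ℝ ∞ (fun p : FP => p.1)).contDiffAt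
    have c4 : ContDiffAt ℝ ∞ (fun p : FP => fU p) p := by
      unfold fU
      exact (by fun_prop : ContDiff ℝ ∞ (fun p : FP => p.2.1)).contDiffAt
    have c5 : ContDiffAt ℝ ∞ (fun p : FP => fZe p) p := by
      unfold fZe
      exact (by fun_prop : ContDiff ℝ ∞ (fun p : FP => p.2.2.2.2.1)).contDiffAt
    have c6 : ContDiffAt ℝ ∞ (fun p : FP => (((1 + fH0 p)⁻¹ : ℝ) : ℂ)) p :=
      hof.contDiffAt.comp p ((contDiffAt_const.add c1).inv h1)
    exact (c3.prodMk (c4.prodMk ((c6.mul c2).prodMk c5))).contDiffWithinAt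
  · -- psi is smooth
    intro v hv
    have hv' : 0 < La ^ 2 - Complex.normSq v.2.2.2 * (1 + Complex.normSq v.2.2.1) := by
      have : Complex.normSq v.2.2.2 * (1 + Complex.normSq v.2.2.1) < La ^ 2 := hv
      linarith
    have hN : (1 + Complex.normSq v.2.2.1) ≠ 0 := by
      have := Complex.normSq_nonneg v.2.2.1
      linarith
    have b1 : ContDiffAt ℝ ∞ (fun v : H7 => v.1) v :=
      (by fun_prop : ContDiff ℝ ∞ (fun v : H7 => v.1)).contDiffAt
    have b2 : ContDiffAt ℝ ∞ (fun v : H7 => v.2.1) v :=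
      (by fun_prop : ContDiff ℝ ∞ (fun v : H7 => v.2.1)).contDiffAt
    have b3 : ContDiffAt ℝ ∞ (fun v : H7 => v.2.2.1) v :=
      (by fun_prop : ContDiff ℝ ∞ (fun v : H7 => v.2.2.1)).contDiffAt
    have b4 : ContDiffAt ℝ ∞ (fun v : H7 => v.2.2.2) v :=
      (by fun_prop : ContDiff ℝ ∞ (fun v : H7 => v.2.2.2)).contDiffAt
    have n3 : ContDiffAt ℝ ∞ (fun v : H7 => Complex.normSq v.2.2.1) v := hns.contDiffAt.comp v b3
    have n4 : ContDiffAt ℝ ∞ (fun v : H7 => Complex.normSq v.2.2.2) v := hns.contDiffAt.comp v b4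
    have d1 : ContDiffAt ℝ ∞ (fun v : H7 => 1 + Complex.normSq v.2.2.1) v := contDiffAt_const.add n3
    have d2 : ContDiffAt ℝ ∞ (fun v : H7 => (1 - Complex.normSq v.2.2.1) /
        (1 + Complex.normSq v.2.2.1)) v := (contDiffAt_const.sub n3).div d1 hN
    have d3 : ContDiffAt ℝ ∞ (fun v : H7 => ((2 / (1 + Complex.normSq v.2.2.1) : ℝ) : ℂ) * v.2.2.1) v :=
      (hof.contDiffAt.comp v (contDiffAt_const.div d1 hN)).mul b3
    have d4 : ContDiffAt ℝ ∞ (fun v : H7 => sg *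
        Real.sqrt (La ^ 2 - Complex.normSq v.2.2.2 * (1 + Complex.normSq v.2.2.1))) v :=
      contDiffAt_const.mul ((contDiffAt_const.sub (n4.mul d1)).sqrt hv'.ne')
    exact (b1.prodMk (b2.prodMk (d2.prodMk (d3.prodMk (b4.prodMk ((b3.mul b4).prodMk
      d4)))))).contDiffWithinAt
  · -- rho maps into V
    rintro p ⟨hp, hp1, hp2⟩
    show Complex.normSq (fZe p) * (1 + Complex.normSq (((1 + fH0 p)⁻¹ : ℝ) * fH p)) < La ^ 2
    rw [(WA2_sum La p hp hp1).1]
    have : fS p ≠ 0 := by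
      intro h
      rw [h, mul_zero] at hp2
      exact lt_irrefl _ hp2
    have := sq_pos_of_ne_zero this
    linarith
  · -- psi maps into FPS and U
    intro v hv
    have hv' : 0 < La ^ 2 - Complex.normSq v.2.2.2 * (1 + Complex.normSq v.2.2.1) := by
      have : Complex.normSq v.2.2.2 * (1 + Complex.normSq v.2.2.1) < La ^ 2 := hv
      linarith
    have hN0 := Complex.normSq_nonneg v.2.2.1
    have hN : (1 + Complex.normSq v.2.2.1) ≠ 0 := by linarith
    have hNc : ((1 + Complex.normSq v.2.2.1 : ℝ) : ℂ) ≠ 0 := by exact_mod_cast hN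
    have e5 : 1 + (1 - Complex.normSq v.2.2.1) / (1 + Complex.normSq v.2.2.1) =
        2 / (1 + Complex.normSq v.2.2.1) := by
      field_simp
      ring
    refine ⟨⟨?_, ?_, ?_, ?_⟩, ?_, ?_⟩
    · show ((1 - Complex.normSq v.2.2.1) / (1 + Complex.normSq v.2.2.1)) ^ 2 +
        Complex.normSq (((2 / (1 + Complex.normSq v.2.2.1) : ℝ) : ℂ) * v.2.2.1) = 1
      rw [Complex.normSq_mul, Complex.normSq_ofReal]
      field_simp
      ring
    · show ((1 + (1 - Complex.normSq v.2.2.1) / (1 + Complex.normSq v.2.2.1) : ℝ) : ℂ) *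
        (v.2.2.1 * v.2.2.2) = ((2 / (1 + Complex.normSq v.2.2.1) : ℝ) : ℂ) * v.2.2.1 * v.2.2.2
      rw [e5]
      ring
    · show ((1 - (1 - Complex.normSq v.2.2.1) / (1 + Complex.normSq v.2.2.1) : ℝ) : ℂ) * v.2.2.2 =
        conj (((2 / (1 + Complex.normSq v.2.2.1) : ℝ) : ℂ) * v.2.2.1) * (v.2.2.1 * v.2.2.2)
      have e6 : 1 - (1 - Complex.normSq v.2.2.1) / (1 + Complex.normSq v.2.2.1) =
          2 / (1 + Complex.normSq v.2.2.1) * Complex.normSq v.2.2.1 := by
        field_simp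
        ring
      rw [e6, Complex.ofReal_mul, Complex.normSq_eq_conj_mul_self, map_mul, Complex.conj_ofReal]
      ring
    · show Complex.normSq v.2.2.2 + Complex.normSq (v.2.2.1 * v.2.2.2) + (sg *
        Real.sqrt (La ^ 2 - Complex.normSq v.2.2.2 * (1 + Complex.normSq v.2.2.1))) ^ 2 = La ^ 2
      rw [mul_pow, hsq, Real.sq_sqrt hv'.le, Complex.normSq_mul]
      ring
    · show -1 < (1 - Complex.normSq v.2.2.1) / (1 + Complex.normSq v.2.2.1)
      rw [lt_div_iff₀ (by linarith)]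
      linarith
    · show 0 < sg * (sg *
        Real.sqrt (La ^ 2 - Complex.normSq v.2.2.2 * (1 + Complex.normSq v.2.2.1)))
      rw [← mul_assoc, ← pow_two, hsq, one_mul]
      exact Real.sqrt_pos.2 hv'
  · -- left inverse
    rintro p ⟨hp, hp1, hp2⟩
    have hN := WA2_N (fH0 p) (fH p) hp1 hp.1
    obtain ⟨hs, hz⟩ := WA2_sum La p hp hp1
    have h3 : (1 + fH0 p) ≠ 0 := by linarith
    have h4 : ((1 + fH0 p : ℝ) : ℂ) ≠ 0 := by exact_mod_cast h3
    have hN1 : 1 + (1 - fH0 p) / (1 + fH0 p) = 2 / (1 + fH0 p) := by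
      field_simp
      ring
    have k1 : (1 - Complex.normSq (((1 + fH0 p)⁻¹ : ℝ) * fH p)) /
        (1 + Complex.normSq (((1 + fH0 p)⁻¹ : ℝ) * fH p)) = fH0 p := by
      rw [hN, hN1]
      field_simp
      ring
    have k2 : ((2 / (1 + Complex.normSq (((1 + fH0 p)⁻¹ : ℝ) * fH p)) : ℝ) : ℂ) *
        (((1 + fH0 p)⁻¹ : ℝ) * fH p) = fH p := by
      rw [hN, hN1]
      have : (2 / (2 / (1 + fH0 p)) : ℝ) = 1 + fH0 p := by field_simp
      rw [this, Complex.ofReal_inv, mul_inv_cancel_left₀ h4]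
    have k3 : sg * Real.sqrt (La ^ 2 - Complex.normSq (fZe p) *
        (1 + Complex.normSq (((1 + fH0 p)⁻¹ : ℝ) * fH p))) = fS p := by
      rw [hs]
      have e7 : La ^ 2 - (La ^ 2 - fS p ^ 2) = (sg * fS p) ^ 2 := by
        rw [mul_pow, hsq]
        ring
      rw [e7, Real.sqrt_sq hp2.le, ← mul_assoc, ← pow_two, hsq, one_mul]
    show (fT p, fU p, (1 - Complex.normSq (((1 + fH0 p)⁻¹ : ℝ) * fH p)) /
        (1 + Complex.normSq (((1 + fH0 p)⁻¹ : ℝ) * fH p)),
        ((2 / (1 + Complex.normSq (((1 + fH0 p)⁻¹ : ℝ) * fH p)) : ℝ) : ℂ) *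
        (((1 + fH0 p)⁻¹ : ℝ) * fH p), fZe p, ((1 + fH0 p)⁻¹ : ℝ) * fH p * fZe p,
        sg * Real.sqrt (La ^ 2 - Complex.normSq (fZe p) *
        (1 + Complex.normSq (((1 + fH0 p)⁻¹ : ℝ) * fH p)))) = p
    rw [k1, k2, k3, hz]
  · -- right inverse
    intro v hv
    have hN0 := Complex.normSq_nonneg v.2.2.1
    have hN : (1 + Complex.normSq v.2.2.1) ≠ 0 := by linarith
    have hNc : ((1 + Complex.normSq v.2.2.1 : ℝ) : ℂ) ≠ 0 := by exact_mod_cast hN
    have e5 : 1 + (1 - Complex.normSq v.2.2.1) / (1 + Complex.normSq v.2.2.1) =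
        2 / (1 + Complex.normSq v.2.2.1) := by
      field_simp
      ring
    have k1 : (((1 + (1 - Complex.normSq v.2.2.1) / (1 + Complex.normSq v.2.2.1))⁻¹ : ℝ) : ℂ) *
        (((2 / (1 + Complex.normSq v.2.2.1) : ℝ) : ℂ) * v.2.2.1) = v.2.2.1 := by
      rw [e5, ← mul_assoc, ← Complex.ofReal_mul]
      have : (2 / (1 + Complex.normSq v.2.2.1))⁻¹ * (2 / (1 + Complex.normSq v.2.2.1)) = 1 :=
        inv_mul_cancel₀ (div_ne_zero two_ne_zero hN)
      rw [this, Complex.ofReal_one, one_mul]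
    show (v.1, v.2.1, (((1 + (1 - Complex.normSq v.2.2.1) /
        (1 + Complex.normSq v.2.2.1))⁻¹ : ℝ) : ℂ) *
        (((2 / (1 + Complex.normSq v.2.2.1) : ℝ) : ℂ) * v.2.2.1), v.2.2.2) = v
    rw [k1]

end Pool.Agent.H34.SY
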