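import Pool.Agent.H34.SY.Geo

/-!
# Row WA3: the charts of `FPS La`

One of three elementary statements of the same kind (rows WA1, WA2, WA3): the two maps are explicit rational functions
(and one square root), smooth where they are used, and inverse to each other.

Useful identities on `FPS La`: with `h0 ^ 2 + |h| ^ 2 = 1` and `h0 < 1`, put `b = conj h / (1 - h0)`;
then `|b| ^ 2 = (1 + h0) / (1 - h0)`, `1 + |b| ^ 2 = 2 / (1 - h0)`, `ζ = b z` (third equation of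
`FPS`), so `|ζ|^2 + |z|^2 = |z| ^ 2 (1 + |b| ^ 2)` and `s ^ 2 = La ^ 2 - |z| ^ 2 (1 + |b| ^ 2)`; since
`sg * s > 0` and `sg = ±1`, `s = sg * √(s ^ 2)`.  In the other direction: `h0 = (|b|^2-1)/(|b|^2+1)`,
`h = 2 conj b / (1 + |b|^2)` satisfy `conj h / (1 - h0) = b`.
For the second chart `β = h / (1 + h0)`, `|β| ^ 2 = (1 - h0)/(1 + h0)`, `z = β ζ`.
For the third: `Q = (ζ, z) / (La - s)`, `|Q|^2 = (La ^ 2 - s ^ 2)/(La - s)^2 = (La + s)/(La - s)`,
`1 + |Q|^2 = 2 La / (La - s)`, `s = La (|Q|^2 - 1)/(|Q|^2 + 1)`; on `FPS La` off `ζ = z = 0` one has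
`h0 = (|ζ|^2 - |z|^2)/(|ζ|^2+|z|^2)` and `h = 2 conj ζ z/(|ζ|^2+|z|^2)`: from `(1+h0) z = h ζ` and
`(1-h0) ζ = conj h z` get `(1+h0)|z|^2 = Re(conj z h ζ) = (1-h0)|ζ|^2` and
`h |ζ|^2 + conj(conj h z) ... `: `h |ζ|^2 = (1+h0) conj ζ z`, `h |z|^2 = (1-h0) conj ζ z` (conjugate of the
third equation times `z`), add: `h |q|^2 = 2 conj ζ z`.

Smoothness: `Complex.normSq` is smooth (`Complex.normSq_apply`, or write it as `re^2+im^2`);
`Real.sqrt` at positive argument (`Real.contDiffAt_sqrt`/`ContDiffAt.sqrt`); `conj` is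
`Complex.conjCLE`.  You may split the file in several lemmas and add helper lemmas; do not change
the three statements.
-/

open Set Topology
open scoped ContDiff ComplexConjugate

namespace Pool.Agent.H34.SY

private theorem contDiff_normSq'' : ContDiff ℝ ∞ (fun z : ℂ => Complex.normSq z) := by
  have h : (fun z : ℂ => Complex.normSq z) = fun z : ℂ => z.re * z.re + z.im * z.im := by
    funext z
    exact Complex.normSq_apply z
  rw [h]
  have h1 : ContDiff ℝ ∞ (fun z : ℂ => z.re) := Complex.reCLM.contDiff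
  have h2 : ContDiff ℝ ∞ (fun z : ℂ => z.im) := Complex.imCLM.contDiff
  exact (h1.mul h1).add (h2.mul h2)

private theorem wa3_pos (v : H7) (hv : v.2.2.1 ≠ 0 ∨ v.2.2.2 ≠ 0) :
    0 < Complex.normSq v.2.2.1 + Complex.normSq v.2.2.2 := by
  rcases hv with h | h
  · have h1 := Complex.normSq_pos.2 h
    have h2 := Complex.normSq_nonneg v.2.2.2
    linarith
  · have h1 := Complex.normSq_pos.2 h
    have h2 := Complex.normSq_nonneg v.2.2.1
    linarith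

private theorem wa3_smooth_rho (La : ℝ) :
    ContDiffOn ℝ ∞ (fun p : FP => ((fT p, fU p, (((La - fS p)⁻¹ : ℝ) : ℂ) * fZe p,
      (((La - fS p)⁻¹ : ℝ) : ℂ) * fZ p) : H7)) {p | (fZe p ≠ 0 ∨ fZ p ≠ 0) ∧ fS p < La} := by
  have hT : ContDiff ℝ ∞ (fun p : FP => fT p) := contDiff_fst
  have hU : ContDiff ℝ ∞ (fun p : FP => fU p) := contDiff_fst.comp contDiff_snd
  have hZe : ContDiff ℝ ∞ (fun p : FP => fZe p) :=
    contDiff_fst.comp (contDiff_snd.comp (contDiff_snd.comp (contDiff_snd.comp contDiff_snd)))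
  have hZ : ContDiff ℝ ∞ (fun p : FP => fZ p) :=
    contDiff_fst.comp (contDiff_snd.comp (contDiff_snd.comp (contDiff_snd.comp
      (contDiff_snd.comp contDiff_snd))))
  have hS : ContDiff ℝ ∞ (fun p : FP => fS p) :=
    contDiff_snd.comp (contDiff_snd.comp (contDiff_snd.comp (contDiff_snd.comp
      (contDiff_snd.comp contDiff_snd))))
  have hk : ContDiffOn ℝ ∞ (fun p : FP => (((La - fS p)⁻¹ : ℝ) : ℂ))
      {p | (fZe p ≠ 0 ∨ fZ p ≠ 0) ∧ fS p < La} := by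
    have h1 : ContDiffOn ℝ ∞ (fun p : FP => (La - fS p)⁻¹)
        {p | (fZe p ≠ 0 ∨ fZ p ≠ 0) ∧ fS p < La} := by
      apply ContDiffOn.inv
      · exact (contDiff_const.sub hS).contDiffOn
      · intro p hp
        exact (sub_pos.2 hp.2).ne'
    exact Complex.ofRealCLM.contDiff.comp_contDiffOn h1
  exact hT.contDiffOn.prodMk (hU.contDiffOn.prodMk ((hk.mul hZe.contDiffOn).prodMk
    (hk.mul hZ.contDiffOn)))

private theorem wa3_smooth_psi (La : ℝ) :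
    ContDiffOn ℝ ∞ (cQ La) {v : H7 | v.2.2.1 ≠ 0 ∨ v.2.2.2 ≠ 0} := by
  have hT : ContDiff ℝ ∞ (fun p : H7 => p.1) := contDiff_fst
  have hU : ContDiff ℝ ∞ (fun p : H7 => p.2.1) := contDiff_fst.comp contDiff_snd
  have hb : ContDiff ℝ ∞ (fun p : H7 => p.2.2.1) :=
    contDiff_fst.comp (contDiff_snd.comp contDiff_snd)
  have hc : ContDiff ℝ ∞ (fun p : H7 => p.2.2.2) :=
    contDiff_snd.comp (contDiff_snd.comp contDiff_snd)
  have hnb : ContDiff ℝ ∞ (fun p : H7 => Complex.normSq p.2.2.1) := contDiff_normSq''.comp hb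
  have hnc : ContDiff ℝ ∞ (fun p : H7 => Complex.normSq p.2.2.2) := contDiff_normSq''.comp hc
  have hr : ContDiff ℝ ∞ (fun p : H7 => Complex.normSq p.2.2.1 + Complex.normSq p.2.2.2) :=
    hnb.add hnc
  obtain ⟨V, hV⟩ : ∃ V : Set H7, V = {v : H7 | v.2.2.1 ≠ 0 ∨ v.2.2.2 ≠ 0} := ⟨_, rfl⟩
  rw [← hV]
  have hr0 : ∀ p ∈ V, Complex.normSq p.2.2.1 + Complex.normSq p.2.2.2 ≠ 0 := by
    intro p hp
    rw [hV] at hp
    exact (wa3_pos p hp).ne'
  have hr1 : ∀ p ∈ V, 1 + (Complex.normSq p.2.2.1 + Complex.normSq p.2.2.2) ≠ 0 := by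
    intro p hp
    rw [hV] at hp
    have := wa3_pos p hp
    positivity
  have hr2 : ∀ p ∈ V, (Complex.normSq p.2.2.1 + Complex.normSq p.2.2.2) + 1 ≠ 0 := by
    intro p hp
    rw [add_comm]
    exact hr1 p hp
  have k1 : ContDiffOn ℝ ∞ (fun p : H7 => (Complex.normSq p.2.2.1 - Complex.normSq p.2.2.2) /
      (Complex.normSq p.2.2.1 + Complex.normSq p.2.2.2)) V :=
    (hnb.sub hnc).contDiffOn.div hr.contDiffOn hr0
  have k2 : ContDiffOn ℝ ∞ (fun p : H7 =>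
      ((2 / (Complex.normSq p.2.2.1 + Complex.normSq p.2.2.2) : ℝ) : ℂ)) V :=
    Complex.ofRealCLM.contDiff.comp_contDiffOn (contDiffOn_const.div hr.contDiffOn hr0)
  have k3 : ContDiffOn ℝ ∞ (fun p : H7 =>
      ((2 * La / (1 + (Complex.normSq p.2.2.1 + Complex.normSq p.2.2.2)) : ℝ) : ℂ)) V :=
    Complex.ofRealCLM.contDiff.comp_contDiffOn
      (contDiffOn_const.div (contDiff_const.add hr).contDiffOn hr1)
  have k4 : ContDiffOn ℝ ∞ (fun p : H7 =>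
      La * ((Complex.normSq p.2.2.1 + Complex.normSq p.2.2.2) - 1) /
        ((Complex.normSq p.2.2.1 + Complex.normSq p.2.2.2) + 1)) V :=
    (contDiff_const.mul (hr.sub contDiff_const)).contDiffOn.div (hr.add contDiff_const).contDiffOn hr2
  have hcb : ContDiff ℝ ∞ (fun p : H7 => conj p.2.2.1) := Complex.conjCLE.contDiff.comp hb
  exact hT.contDiffOn.prodMk (hU.contDiffOn.prodMk (k1.prodMk
    ((k2.mul (hcb.mul hc).contDiffOn).prodMk ((k3.mul hb.contDiffOn).prodMk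
      ((k3.mul hc.contDiffOn).prodMk k4)))))

private theorem wa3_maps_psi (La : ℝ) (hLa : 0 < La) (v : H7) (hv : v.2.2.1 ≠ 0 ∨ v.2.2.2 ≠ 0) :
    cQ La v ∈ FPS La ∩ {p | (fZe p ≠ 0 ∨ fZ p ≠ 0) ∧ fS p < La} := by
  have hr := wa3_pos v hv
  obtain ⟨t, u, b, c⟩ := v
  simp only at hv hr
  obtain ⟨B, hB⟩ : ∃ B : ℝ, B = Complex.normSq b := ⟨_, rfl⟩
  obtain ⟨D, hD⟩ : ∃ D : ℝ, D = Complex.normSq c := ⟨_, rfl⟩
  have hBc : (B : ℂ) = conj b * b := by rw [hB, Complex.normSq_eq_conj_mul_self]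
  have hDc : (D : ℂ) = conj c * c := by rw [hD, Complex.normSq_eq_conj_mul_self]
  rw [← hB, ← hD] at hr
  have hr1 : (1 + (B + D)) ≠ 0 := by positivity
  have hr0 : B + D ≠ 0 := hr.ne'
  have hrC : ((B : ℂ) + D) ≠ 0 := by exact_mod_cast hr0
  have e : cQ La (t, u, b, c) = (t, u, (B - D) / (B + D), ((2 / (B + D) : ℝ) : ℂ) * (conj b * c),
      ((2 * La / (1 + (B + D)) : ℝ) : ℂ) * b, ((2 * La / (1 + (B + D)) : ℝ) : ℂ) * c,
      La * ((B + D) - 1) / ((B + D) + 1)) := by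
    rw [hB, hD]
    rfl
  rw [e]
  have hk0 : ((2 * La / (1 + (B + D)) : ℝ) : ℂ) ≠ 0 := by
    have h2 : (2 * La / (1 + (B + D)) : ℝ) ≠ 0 := by positivity
    exact_mod_cast h2
  refine ⟨⟨?_, ?_, ?_, ?_⟩, ?_, ?_⟩
  · show ((B - D) / (B + D)) ^ 2 + Complex.normSq (((2 / (B + D) : ℝ) : ℂ) * (conj b * c)) = 1
    rw [Complex.normSq_mul, Complex.normSq_mul, Complex.normSq_conj, Complex.normSq_ofReal, ← hB, ← hD]
    field_simp
    ring
  · show ((1 + (B - D) / (B + D) : ℝ) : ℂ) * (((2 * La / (1 + (B + D)) : ℝ) : ℂ) * c) =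
      ((2 / (B + D) : ℝ) : ℂ) * (conj b * c) * (((2 * La / (1 + (B + D)) : ℝ) : ℂ) * b)
    have h2 : ((1 + (B - D) / (B + D) : ℝ) : ℂ) = ((2 / (B + D) : ℝ) : ℂ) * (B : ℂ) := by
      rw [← Complex.ofReal_mul]
      congr 1
      field_simp
      ring
    rw [h2, hBc]
    ring
  · show ((1 - (B - D) / (B + D) : ℝ) : ℂ) * (((2 * La / (1 + (B + D)) : ℝ) : ℂ) * b) =
      conj (((2 / (B + D) : ℝ) : ℂ) * (conj b * c)) * (((2 * La / (1 + (B + D)) : ℝ) : ℂ) * c)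
    have h2 : ((1 - (B - D) / (B + D) : ℝ) : ℂ) = ((2 / (B + D) : ℝ) : ℂ) * (D : ℂ) := by
      rw [← Complex.ofReal_mul]
      congr 1
      field_simp
      ring
    rw [h2, hDc, map_mul, map_mul, Complex.conj_ofReal, Complex.conj_conj]
    ring
  · show Complex.normSq (((2 * La / (1 + (B + D)) : ℝ) : ℂ) * b) +
      Complex.normSq (((2 * La / (1 + (B + D)) : ℝ) : ℂ) * c) +
      (La * ((B + D) - 1) / ((B + D) + 1)) ^ 2 = La ^ 2
    rw [Complex.normSq_mul, Complex.normSq_mul, Complex.normSq_ofReal, ← hB, ← hD]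
    have h2 : (B + D) + 1 ≠ 0 := by positivity
    field_simp
    ring
  · show ((2 * La / (1 + (B + D)) : ℝ) : ℂ) * b ≠ 0 ∨ ((2 * La / (1 + (B + D)) : ℝ) : ℂ) * c ≠ 0
    rcases hv with h | h
    · exact Or.inl (mul_ne_zero hk0 h)
    · exact Or.inr (mul_ne_zero hk0 h)
  · show La * ((B + D) - 1) / ((B + D) + 1) < La
    rw [div_lt_iff₀ (by positivity)]
    nlinarith

private theorem wa3_right (La : ℝ) (hLa : 0 < La) (v : H7) (hv : v.2.2.1 ≠ 0 ∨ v.2.2.2 ≠ 0) :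
    ((fT (cQ La v), fU (cQ La v), (((La - fS (cQ La v))⁻¹ : ℝ) : ℂ) * fZe (cQ La v),
      (((La - fS (cQ La v))⁻¹ : ℝ) : ℂ) * fZ (cQ La v)) : H7) = v := by
  have hr := wa3_pos v hv
  obtain ⟨t, u, b, c⟩ := v
  simp only at hv hr
  obtain ⟨r, hrr⟩ : ∃ r : ℝ, r = Complex.normSq b + Complex.normSq c := ⟨_, rfl⟩
  rw [← hrr] at hr
  have e : cQ La (t, u, b, c) = (t, u, (Complex.normSq b - Complex.normSq c) / r,
      ((2 / r : ℝ) : ℂ) * (conj b * c), ((2 * La / (1 + r) : ℝ) : ℂ) * b,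
      ((2 * La / (1 + r) : ℝ) : ℂ) * c, La * (r - 1) / (r + 1)) := by
    rw [hrr]
    rfl
  rw [e]
  have h1 : (((La - La * (r - 1) / (r + 1))⁻¹ : ℝ) : ℂ) * ((2 * La / (1 + r) : ℝ) : ℂ) = 1 := by
    rw [← Complex.ofReal_mul]
    have h2 : (La - La * (r - 1) / (r + 1))⁻¹ * (2 * La / (1 + r)) = 1 := by
      have h3 : La - La * (r - 1) / (r + 1) = 2 * La / (1 + r) := by
        field_simp
        ring
      rw [h3]
      exact inv_mul_cancel₀ (by positivity)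
    rw [h2]
    simp
  show ((t, u, (((La - La * (r - 1) / (r + 1))⁻¹ : ℝ) : ℂ) * (((2 * La / (1 + r) : ℝ) : ℂ) * b),
    (((La - La * (r - 1) / (r + 1))⁻¹ : ℝ) : ℂ) * (((2 * La / (1 + r) : ℝ) : ℂ) * c)) : H7) =
      (t, u, b, c)
  rw [← mul_assoc, ← mul_assoc, h1, one_mul, one_mul]

private theorem wa3_left (La : ℝ) (hLa : 0 < La) (p : FP) (hp : p ∈ FPS La)
    (h0 : fZe p ≠ 0 ∨ fZ p ≠ 0) (hs : fS p < La) :
    cQ La (fT p, fU p, (((La - fS p)⁻¹ : ℝ) : ℂ) * fZe p, (((La - fS p)⁻¹ : ℝ) : ℂ) * fZ p) = p := by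
  obtain ⟨t, u, a, h, x, z, s⟩ := p
  obtain ⟨e1, e2, e3, e4⟩ := hp
  simp only [fT, fU, fH0, fH, fZe, fZ, fS] at e1 e2 e3 e4 h0 hs ⊢
  have hd : 0 < La - s := sub_pos.2 hs
  obtain ⟨d, hdd⟩ : ∃ d : ℝ, d = La - s := ⟨_, rfl⟩
  obtain ⟨B, hB⟩ : ∃ B : ℝ, B = Complex.normSq x := ⟨_, rfl⟩
  obtain ⟨D, hD⟩ : ∃ D : ℝ, D = Complex.normSq z := ⟨_, rfl⟩
  have hBc : (B : ℂ) = conj x * x := by rw [hB, Complex.normSq_eq_conj_mul_self]
  have hDc : (D : ℂ) = conj z * z := by rw [hD, Complex.normSq_eq_conj_mul_self]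
  have hBD : 0 < B + D := by
    rw [hB, hD]
    exact wa3_pos (t, u, x, z) h0
  rw [← hB, ← hD] at e4
  rw [← hdd] at hd ⊢
  have hsd : s = La - d := by rw [hdd]; ring
  have hn1 : Complex.normSq (((d⁻¹ : ℝ) : ℂ) * x) = B / d ^ 2 := by
    rw [Complex.normSq_mul, Complex.normSq_ofReal, ← hB]
    field_simp
  have hn2 : Complex.normSq (((d⁻¹ : ℝ) : ℂ) * z) = D / d ^ 2 := by
    rw [Complex.normSq_mul, Complex.normSq_ofReal, ← hD]
    field_simp
  -- the conjugate of the third equation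
  have e3' : ((1 - a : ℝ) : ℂ) * conj x = h * conj z := by
    have h5 := congrArg (starRingEnd ℂ) e3
    rw [map_mul, map_mul, Complex.conj_ofReal, Complex.conj_conj] at h5
    exact h5
  have f1 : (1 + a) * D = (1 - a) * B := by
    have h5 : (((1 + a) * D : ℝ) : ℂ) = (((1 - a) * B : ℝ) : ℂ) := by
      rw [Complex.ofReal_mul, Complex.ofReal_mul, hBc, hDc]
      linear_combination conj z * e2 - x * e3'
    exact_mod_cast h5
  have f2 : h * ((B + D : ℝ) : ℂ) = 2 * (conj x * z) := by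
    rw [Complex.ofReal_add, hBc, hDc]
    have h6 : ((1 + a : ℝ) : ℂ) = 1 + a := by push_cast; ring
    have h7 : ((1 - a : ℝ) : ℂ) = 1 - a := by push_cast; ring
    rw [h6] at e2
    rw [h7] at e3'
    linear_combination -conj x * e2 - z * e3'
  have g0 : B / d ^ 2 + D / d ^ 2 = (2 * La - d) / d := by
    have h8 : B + D = (2 * La - d) * d := by
      have h9 : B + D = La ^ 2 - s ^ 2 := by linarith
      rw [h9, hsd]
      ring
    rw [← add_div, h8]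
    field_simp
  have g1 : (1 : ℝ) + (B / d ^ 2 + D / d ^ 2) = 2 * La / d := by
    rw [g0]
    field_simp
    ring
  have e : cQ La (t, u, ((d⁻¹ : ℝ) : ℂ) * x, ((d⁻¹ : ℝ) : ℂ) * z) =
      (t, u, (B / d ^ 2 - D / d ^ 2) / (B / d ^ 2 + D / d ^ 2),
        ((2 / (B / d ^ 2 + D / d ^ 2) : ℝ) : ℂ) *
          (conj (((d⁻¹ : ℝ) : ℂ) * x) * (((d⁻¹ : ℝ) : ℂ) * z)),
        ((2 * La / (1 + (B / d ^ 2 + D / d ^ 2)) : ℝ) : ℂ) * (((d⁻¹ : ℝ) : ℂ) * x),
        ((2 * La / (1 + (B / d ^ 2 + D / d ^ 2)) : ℝ) : ℂ) * (((d⁻¹ : ℝ) : ℂ) * z),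
        La * ((B / d ^ 2 + D / d ^ 2) - 1) / ((B / d ^ 2 + D / d ^ 2) + 1)) := by
    rw [← hn1, ← hn2]
    rfl
  rw [e]
  have c1 : (B / d ^ 2 - D / d ^ 2) / (B / d ^ 2 + D / d ^ 2) = a := by
    have h10 : B / d ^ 2 + D / d ^ 2 = (B + D) / d ^ 2 := by ring
    rw [h10, div_eq_iff (by positivity)]
    field_simp
    linarith
  have c2 : ((2 / (B / d ^ 2 + D / d ^ 2) : ℝ) : ℂ) *
      (conj (((d⁻¹ : ℝ) : ℂ) * x) * (((d⁻¹ : ℝ) : ℂ) * z)) = h := by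
    rw [map_mul, Complex.conj_ofReal]
    have h11 : (2 / (B / d ^ 2 + D / d ^ 2) : ℝ) * d⁻¹ * d⁻¹ = 2 / (B + D) := by
      field_simp
    have h12 : ((2 / (B / d ^ 2 + D / d ^ 2) : ℝ) : ℂ) *
        (((d⁻¹ : ℝ) : ℂ) * conj x * (((d⁻¹ : ℝ) : ℂ) * z)) =
        (((2 / (B / d ^ 2 + D / d ^ 2) : ℝ) * d⁻¹ * d⁻¹ : ℝ) : ℂ) * (conj x * z) := by
      push_cast
      ring
    rw [h12, h11]
    have h13 : ((B + D : ℝ) : ℂ) ≠ 0 := by exact_mod_cast hBD.ne'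
    have h14 : ((2 / (B + D) : ℝ) : ℂ) = 2 / ((B + D : ℝ) : ℂ) := by push_cast; ring
    rw [h14, div_mul_eq_mul_div, ← f2]
    field_simp
  have c3 : ((2 * La / (1 + (B / d ^ 2 + D / d ^ 2)) : ℝ) : ℂ) * ((d⁻¹ : ℝ) : ℂ) = 1 := by
    rw [← Complex.ofReal_mul, g1]
    have h15 : 2 * La / (2 * La / d) * d⁻¹ = 1 := by
      field_simp
    rw [h15]
    simp
  have c4 : La * ((B / d ^ 2 + D / d ^ 2) - 1) / ((B / d ^ 2 + D / d ^ 2) + 1) = s := by
    rw [add_comm (B / d ^ 2 + D / d ^ 2) 1, g1, g0, hsd]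
    field_simp
    ring
  rw [c1, c2, c4, ← mul_assoc, ← mul_assoc, c3, one_mul, one_mul]

theorem chart_cQ (La : ℝ) (hLa : 0 < La) :
    IsChart (FPS La) {p | (fZe p ≠ 0 ∨ fZ p ≠ 0) ∧ fS p < La}
      {v : H7 | v.2.2.1 ≠ 0 ∨ v.2.2.2 ≠ 0}
      (fun p => (fT p, fU p, ((La - fS p)⁻¹ : ℝ) * fZe p, ((La - fS p)⁻¹ : ℝ) * fZ p))
      (cQ La) where
  isOpen_U := by
    apply IsOpen.inter
    · apply IsOpen.union
      · exact isOpen_ne_fun (by fun_prop) continuous_const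
      · exact isOpen_ne_fun (by fun_prop) continuous_const
    · exact isOpen_lt (show Continuous (fun p : FP => fS p) by fun_prop) continuous_const
  isOpen_V := by
    apply IsOpen.union
    · exact isOpen_ne_fun (by fun_prop) continuous_const
    · exact isOpen_ne_fun (by fun_prop) continuous_const
  smooth_ρ := wa3_smooth_rho La
  smooth_ψ := wa3_smooth_psi La
  maps_ρ := by
    rintro p ⟨_, h0, hs⟩
    have hk : (((La - fS p)⁻¹ : ℝ) : ℂ) ≠ 0 := by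
      have h1 : ((La - fS p)⁻¹ : ℝ) ≠ 0 := inv_ne_zero (sub_pos.2 hs).ne'
      exact_mod_cast h1
    rcases h0 with h | h
    · exact Or.inl (mul_ne_zero hk h)
    · exact Or.inr (mul_ne_zero hk h)
  maps_ψ := fun v hv => wa3_maps_psi La hLa v hv
  left_inv := fun p hp => wa3_left La hLa p hp.1 hp.2.1 hp.2.2
  right_inv := fun v hv => wa3_right La hLa v hv

end Pool.Agent.H34.SY
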