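import Pool.Agent.H34.SY.GR
import Pool.Agent.H34.SY.WA1
import Pool.Agent.H34.SY.WA2
import Pool.Agent.H34.SY.WA3

/-!
# Row TCH: the three kinds of charts are `TChart`s; coverings

The charts of rows WA1, WA2, WA3 satisfy the formal conditions of `TChart` (`rfl`/`simp`).  Every point of
`FPS La` with `s < 0` or `q = 0`... is covered: if `q = 0` then `s = ±La ≠ 0` and `h0 < 1` or `-1 < h0`.
-/

open Set Topology
open scoped ContDiff ComplexConjugate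

namespace Pool.Agent.H34.SY

noncomputable section

def rB (p : FP) : H7 := (fT p, fU p, ((1 - fH0 p)⁻¹ : ℝ) * conj (fH p), fZ p)
def rA (p : FP) : H7 := (fT p, fU p, ((1 + fH0 p)⁻¹ : ℝ) * fH p, fZe p)
def rQ (La : ℝ) (p : FP) : H7 :=
  (fT p, fU p, ((La - fS p)⁻¹ : ℝ) * fZe p, ((La - fS p)⁻¹ : ℝ) * fZ p)

theorem tchart_B (La : ℝ) (hLa : 0 < La) (sg : ℝ) (hsg : sg = 1 ∨ sg = -1) :
    TChart La {p | fH0 p < 1 ∧ 0 < sg * fS p}
      {v : H7 | Complex.normSq v.2.2.2 * (1 + Complex.normSq v.2.2.1) < La ^ 2} rB (cB La sg) where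
  chart := chart_cB La hLa sg hsg
  c_t _ _ := rfl
  ρ_t _ _ := rfl
  U_t _ _ h := h
  V_t _ _ h := h

theorem tchart_A (La : ℝ) (hLa : 0 < La) (sg : ℝ) (hsg : sg = 1 ∨ sg = -1) :
    TChart La {p | -1 < fH0 p ∧ 0 < sg * fS p}
      {v : H7 | Complex.normSq v.2.2.2 * (1 + Complex.normSq v.2.2.1) < La ^ 2} rA (cA La sg) where
  chart := chart_cA La hLa sg hsg
  c_t _ _ := rfl
  ρ_t _ _ := rfl
  U_t _ _ h := h
  V_t _ _ h := h

theorem tchart_Q (La : ℝ) (hLa : 0 < La) :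
    TChart La {p | (fZe p ≠ 0 ∨ fZ p ≠ 0) ∧ fS p < La} {v : H7 | v.2.2.1 ≠ 0 ∨ v.2.2.2 ≠ 0}
      (rQ La) (cQ La) where
  chart := chart_cQ La hLa
  c_t _ _ := rfl
  ρ_t _ _ := rfl
  U_t _ _ h := h
  V_t _ _ h := h

theorem FPS_cases {La : ℝ} (hLa : 0 < La) {p : FP} (hp : p ∈ FPS La) :
    ((fZe p ≠ 0 ∨ fZ p ≠ 0) ∧ fS p < La) ∨
    (fZe p = 0 ∧ fZ p = 0 ∧ (fS p = La ∨ fS p = -La) ∧ (fH0 p < 1 ∨ -1 < fH0 p)) := by
  obtain ⟨_, _, _, h4⟩ := hp
  have h1 := Complex.normSq_nonneg (fZe p)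
  have h2 := Complex.normSq_nonneg (fZ p)
  by_cases hz : fZe p = 0 ∧ fZ p = 0
  · right
    refine ⟨hz.1, hz.2, ?_, ?_⟩
    · rw [hz.1, hz.2, map_zero, zero_add, zero_add] at h4
      exact sq_eq_sq_iff_eq_or_eq_neg.1 h4
    · rcases lt_or_ge (fH0 p) 1 with h | h
      · exact Or.inl h
      · right
        linarith
  · left
    have hor : fZe p ≠ 0 ∨ fZ p ≠ 0 := by
      by_contra hcon
      push Not at hcon
      exact hz hcon
    refine ⟨hor, ?_⟩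
    have hpos : 0 < Complex.normSq (fZe p) + Complex.normSq (fZ p) := by
      rcases hor with h | h
      · have := Complex.normSq_pos.2 h
        linarith
      · have := Complex.normSq_pos.2 h
        linarith
    have hlt : fS p ^ 2 < La ^ 2 := by linarith
    exact lt_of_pow_lt_pow_left₀ 2 hLa.le hlt

theorem FPS_bounds {La : ℝ} (hLa : 0 < La) {p : FP} (hp : p ∈ FPS La) :
    qsq (fZe p) (fZ p) = La ^ 2 - fS p ^ 2 ∧ |fS p| ≤ La ∧ |fH0 p| ≤ 1 := by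
  obtain ⟨h1, _, _, h4⟩ := hp
  have hze := Complex.normSq_nonneg (fZe p)
  have hz := Complex.normSq_nonneg (fZ p)
  have hh := Complex.normSq_nonneg (fH p)
  refine ⟨?_, ?_, ?_⟩
  · unfold qsq
    linarith
  · refine abs_le_of_sq_le_sq ?_ hLa.le
    linarith
  · refine abs_le_of_sq_le_sq ?_ zero_le_one
    linarith

/-- Every point of `FPS La` is in the domain of a `TChart`. -/
theorem exists_tchart {La : ℝ} (hLa : 0 < La) {p : FP} (hp : p ∈ FPS La) :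
    ∃ (U : Set FP) (V : Set H7) (ρ : FP → H7) (c : H7 → FP), p ∈ U ∧ TChart La U V ρ c := by
  rcases FPS_cases hLa hp with h | ⟨_, _, h3, h4⟩
  · exact ⟨_, _, _, _, h, tchart_Q La hLa⟩
  · obtain ⟨sg, hsg, hpos⟩ : ∃ sg : ℝ, (sg = 1 ∨ sg = -1) ∧ 0 < sg * fS p := by
      rcases h3 with h3 | h3
      · refine ⟨1, Or.inl rfl, ?_⟩
        rw [h3]
        linarith
      · refine ⟨-1, Or.inr rfl, ?_⟩
        rw [h3]
        linarith
    rcases h4 with h4 | h4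
    · have hB : p ∈ {p : FP | fH0 p < 1 ∧ 0 < sg * fS p} := ⟨h4, hpos⟩
      exact ⟨_, _, _, _, hB, tchart_B La hLa sg hsg⟩
    · have hA : p ∈ {p : FP | -1 < fH0 p ∧ 0 < sg * fS p} := ⟨h4, hpos⟩
      exact ⟨_, _, _, _, hA, tchart_A La hLa sg hsg⟩

end

end Pool.Agent.H34.SY
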