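import Pool.Agent.H34.SY.MF1
import Pool.Agent.H34.SY.TCH
import Pool.Agent.H34.SY.SA2

/-!
# Row MF2: nondegeneracy of the inner form on the exceptional divisor

`z ∈ M'`, side `N`, `q = 0`, `s < 0` (so `s = -La`), `|u|² < s1`; `p = rhoN z`, `x = xpt t u`, `c(x) = 0` (by `FNm_core`).
If `h0 < 1`: chart `ψ = psiN ∘ cB La (-1)` of `WS La` (`chart_cB`, `chart_N`), `v = (t, u, b, 0)`.  `nonDeg_level` with
`φ (t,u,b,y) = F7 (xpt t u, b y, y)` (equal to `FNm 1` for `|q|² < rb²/4`).  At `y = 0`: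
`Dφ (t',u',b',y') = D F7 (x,0,0) (ξ, b y', y')`, `ξ = xpt t' u'` (no `b'`); nonzero because `grad c ≠ 0` (`grad_ne`).
`omIm = dd (pb1 PiN l6) - eps areaF`; its pull-back at `v`: `Om7 (x,0,0) (ξ, b y', y') (ξ'', b y'', y'') - eps (2/(1+|b|²)²) Im (conj b' b'')`:
the first term because `PiN (cB ..) = Pi7 (xpt t u, b y, y)` near `v`, and the second because `areaF = dd Ab` on tangent vectors of
`FPS` and `Ab` pulls back to `Im (b̄ db)/(1+|b|²)` (or directly: `h0 = (|b|²-1)/(|b|²+1)`, `h = 2 b̄/(1+|b|²)` and `areaF_apply`).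
Given a nonzero `(t',u',b',y')` in `ker Dφ`: if `b' ≠ 0` take `(0,0,i b',0)`: the value is
`Om7 (x,0,0) (ξ,..) (0,0,0) - eps 2|b'|²/(1+|b|²)² ≠ 0`; if `b' = 0` use `core_line` with `e = (b, 1)`, `l = y'`: partner
`(ξ', 0, l')`.
If `h0 = 1`: the chart `cA La (-1)`, `(ζ, z) = (y, β y)`, `e = (1, β)`, `Abe`.
-/

open Set Topology
open scoped ContDiff ComplexConjugate

namespace Pool.Agent.H34.SY

/-! ### the map to the coordinates `(x, q)` -/

/-- coordinates `(x, q)` of a chart. -/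
noncomputable def MF2_m (e1 e2 : ℂ → ℂ) (v : H7) : R7 :=
  (xpt v.1 v.2.1, e1 v.2.2.1 * v.2.2.2, e2 v.2.2.1 * v.2.2.2)

theorem MF2_contDiff {e1 e2 : ℂ → ℂ} (h1 : ContDiff ℝ ∞ e1) (h2 : ContDiff ℝ ∞ e2) :
    ContDiff ℝ ∞ (MF2_m e1 e2) := by
  have c1 : ContDiff ℝ ∞ (fun v : H7 => v.1) := contDiff_fst
  have c2 : ContDiff ℝ ∞ (fun v : H7 => v.2.1) := contDiff_fst.comp contDiff_snd
  have c3 : ContDiff ℝ ∞ (fun v : H7 => v.2.2.1) :=
    contDiff_fst.comp (contDiff_snd.comp contDiff_snd)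
  have c4 : ContDiff ℝ ∞ (fun v : H7 => v.2.2.2) :=
    contDiff_snd.comp (contDiff_snd.comp contDiff_snd)
  refine ContDiff.prodMk ?_ (ContDiff.prodMk ((h1.comp c3).mul c4) ((h2.comp c3).mul c4))
  exact c1.prodMk ((Complex.reCLM.contDiff.comp c2).prodMk (Complex.imCLM.contDiff.comp c2))

theorem MF2_diff {e1 e2 : ℂ → ℂ} (h1 : ContDiff ℝ ∞ e1) (h2 : ContDiff ℝ ∞ e2) (v : H7) :
    DifferentiableAt ℝ (MF2_m e1 e2) v := ((MF2_contDiff h1 h2).differentiable (by simp)) v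

theorem MF2_mul {e : ℂ → ℂ} (h : ContDiff ℝ ∞ e) {v : H7} (hy : v.2.2.2 = 0) (a : H7) :
    HasDerivAt (fun t : ℝ => e (v + t • a).2.2.1 * (v + t • a).2.2.2)
      (e v.2.2.1 * a.2.2.2) 0 := by
  have hl : HasDerivAt (fun t : ℝ => v + t • a) a 0 := CA_line v a
  have hb : HasDerivAt (fun t : ℝ => (v + t • a).2.2.1) a.2.2.1 0 := hl.snd.snd.fst
  have hyy : HasDerivAt (fun t : ℝ => (v + t • a).2.2.2) a.2.2.2 0 := hl.snd.snd.snd
  have he : HasDerivAt (fun t : ℝ => e (v + t • a).2.2.1) (fderiv ℝ e v.2.2.1 a.2.2.1) 0 :=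
    CA_comp (γ := fun t : ℝ => (v + t • a).2.2.1) (by simp)
      ((h.differentiable (by simp)) v.2.2.1).hasFDerivAt hb
  have hm := he.mul hyy
  have e0 : v + (0 : ℝ) • a = v := by rw [zero_smul, add_zero]
  simp only [e0] at hm
  rw [hy, mul_zero, zero_add] at hm
  exact hm

theorem MF2_fd {e1 e2 : ℂ → ℂ} (h1 : ContDiff ℝ ∞ e1) (h2 : ContDiff ℝ ∞ e2) {v : H7}
    (hy : v.2.2.2 = 0) (a : H7) :
    fderiv ℝ (MF2_m e1 e2) v a =
      (xpt a.1 a.2.1, e1 v.2.2.1 * a.2.2.2, e2 v.2.2.1 * a.2.2.2) := by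
  have hl : HasDerivAt (fun t : ℝ => v + t • a) a 0 := CA_line v a
  have hc : HasDerivAt (fun t : ℝ => MF2_m e1 e2 (v + t • a)) (fderiv ℝ (MF2_m e1 e2) v a) 0 :=
    CA_comp (γ := fun t : ℝ => v + t • a) (by simp) (MF2_diff h1 h2 v).hasFDerivAt hl
  have hu : HasDerivAt (fun t : ℝ => (v + t • a).2.1) a.2.1 0 := hl.snd.fst
  have hx : HasDerivAt (fun t : ℝ => MF2_m e1 e2 (v + t • a))
      (xpt a.1 a.2.1, e1 v.2.2.1 * a.2.2.2, e2 v.2.2.1 * a.2.2.2) 0 := by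
    refine HasDerivAt.prodMk ?_ (HasDerivAt.prodMk (MF2_mul h1 hy a) (MF2_mul h2 hy a))
    refine HasDerivAt.prodMk hl.fst (HasDerivAt.prodMk ?_ ?_)
    · exact Complex.reCLM.hasFDerivAt.comp_hasDerivAt 0 hu
    · exact Complex.imCLM.hasFDerivAt.comp_hasDerivAt 0 hu
  exact hc.unique hx

theorem MF2_qg (g : V4) : qgbar 0 0 g = 0 := by
  unfold qgbar
  simp

theorem MF2_xpt (x : V3) : xpt x.1 ⟨x.2.1, x.2.2⟩ = x := rfl

theorem MF2_at {v : H7} (e1 e2 : ℂ → ℂ) (hy : v.2.2.2 = 0) :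
    MF2_m e1 e2 v = (xpt v.1 v.2.1, 0, 0) := by
  unfold MF2_m
  rw [hy, mul_zero, mul_zero]

namespace FPar

theorem MF2_pb (P : FPar) (h : P.Ok3) {U : Set FP} {V : Set H7} {ρ : FP → H7} {c : H7 → FP}
    (hc : IsChart (FPS P.La) U V ρ c) {e1 e2 : ℂ → ℂ} (he1 : ContDiff ℝ ∞ e1)
    (he2 : ContDiff ℝ ∞ e2)
    (hcf : ∀ w, fT (c w) = w.1 ∧ fU (c w) = w.2.1 ∧ fZe (c w) = e1 w.2.2.1 * w.2.2.2 ∧
      fZ (c w) = e2 w.2.2.1 * w.2.2.2) {v : H7} (hv : v ∈ V) (hy : v.2.2.2 = 0) (a a' : H7) :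
    pb2 (fun w => psiN (c w)) (pb2 rhoN P.omIm) v a a' =
      P.Om7 (MF2_m e1 e2 v) (fderiv ℝ (MF2_m e1 e2) v a) (fderiv ℝ (MF2_m e1 e2) v a') -
        P.eps * areaF (c v) (fderiv ℝ c v a) (fderiv ℝ c v a') := by
  have hcd : ContDiffAt ℝ ∞ c v := CA_psi hc hv
  have hcv := hc.maps_ψ v hv
  have hcdd : DifferentiableAt ℝ c v := hcd.differentiableAt (by simp)
  have h1 := psiN_mem hcv.1
  have hρd : DifferentiableAt ℝ rhoN (psiN (c v)) :=
    CC_diff (isOpen_lt continuous_const WB_cont_W1) contDiffOn_rhoN h1.2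
  have hψd : DifferentiableAt ℝ (fun w => psiN (c w)) v :=
    ((contDiff_psiN.differentiable (by simp)) (c v)).comp v hcdd
  have hcomp : (fun w => rhoN (psiN (c w))) = c := funext fun w => rhoN_psiN (c w)
  have hl6 := contDiff_l6 P h.T2 h.Ta
  have hPi := contDiff_PiN P h.toOk2
  have hP7 := contDiff_Pi7 P.hd
  rw [pb2_comp hψd hρd, hcomp, pb2_apply]
  have e1' : dd (pb1 P.PiN P.l6) (c v) = pb2 P.PiN (dd P.l6) (c v) :=
    dd_pb1 (hPi.contDiffAt.of_le CC_two_le) ((hl6.differentiable (by simp)) _)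
  have e4 : (fun w => P.PiN (c w)) =ᶠ[𝓝 v] (fun w => Pi7 P.hd (MF2_m e1 e2 w)) := by
    have hcont : ContinuousAt (fun w : H7 => qsq (fZe (c w)) (fZ (c w))) v := by
      have c1 : ContinuousAt (fun w : H7 => fZe (c w)) v :=
        (pZe.continuous.continuousAt).comp hcdd.continuousAt
      have c2 : ContinuousAt (fun w : H7 => fZ (c w)) v :=
        (pZ.continuous.continuousAt).comp hcdd.continuousAt
      exact (Complex.continuous_normSq.continuousAt.comp c1).add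
        (Complex.continuous_normSq.continuousAt.comp c2)
    have h0 : qsq (fZe (c v)) (fZ (c v)) < P.rb ^ 2 / 4 := by
      rw [(hcf v).2.2.1, (hcf v).2.2.2, hy, mul_zero, mul_zero]
      have := h.rb0
      unfold qsq
      rw [map_zero, add_zero]
      positivity
    filter_upwards [hcont.eventually (gt_mem_nhds h0)] with w hw
    have hf := (FNm_core P h.toOk2 (fT (c w)) (fU (c w)) (fZe (c w)) (fZ (c w)) hw).2
    have e : (xpt (fT (c w)) (fU (c w)), fZe (c w), fZ (c w)) = MF2_m e1 e2 w := by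
      unfold MF2_m
      rw [(hcf w).1, (hcf w).2.1, (hcf w).2.2.1, (hcf w).2.2.2]
    rw [e] at hf
    show (xpt (fT (c w)) (fU (c w)),
      (P.toPar.yy 1 (fT (c w)) (fU (c w)) (fZe (c w)) (fZ (c w))).2) = _
    rw [hf, (hcf w).1, (hcf w).2.1]
    rfl
  have e5 : pb2 (fun w => P.PiN (c w)) (dd P.l6) v =
      pb2 (fun w => Pi7 P.hd (MF2_m e1 e2 w)) (dd P.l6) v := by
    have h5 := e4.eq_of_nhds
    have h6 : (fun w => P.PiN (c w)) v = (fun w => Pi7 P.hd (MF2_m e1 e2 w)) v := h5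
    unfold pb2
    rw [e4.fderiv_eq, h6]
  have e3 : pb2 c (pb2 P.PiN (dd P.l6)) v = pb2 (fun w => P.PiN (c w)) (dd P.l6) v :=
    pb2_comp hcdd ((hPi.differentiable (by simp)) _)
  have e6 : pb2 (MF2_m e1 e2) (pb2 (Pi7 P.hd) (dd P.l6)) v =
      pb2 (fun w => Pi7 P.hd (MF2_m e1 e2 w)) (dd P.l6) v :=
    pb2_comp (MF2_diff he1 he2 v) ((hP7.differentiable (by simp)) _)
  have e7 : P.Om7 (MF2_m e1 e2 v) = pb2 (Pi7 P.hd) (dd P.l6) (MF2_m e1 e2 v) :=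
    dd_pb1 (hP7.contDiffAt.of_le CC_two_le) ((hl6.differentiable (by simp)) _)
  have e8 : dd (pb1 P.PiN P.l6) (c v) (fderiv ℝ c v a) (fderiv ℝ c v a') =
      P.Om7 (MF2_m e1 e2 v) (fderiv ℝ (MF2_m e1 e2) v a) (fderiv ℝ (MF2_m e1 e2) v a') := by
    rw [e1', ← pb2_apply, e3, e5, ← e6, pb2_apply, e7]
  have e9 : P.omIm (c v) (fderiv ℝ c v a) (fderiv ℝ c v a') =
      dd (pb1 P.PiN P.l6) (c v) (fderiv ℝ c v a) (fderiv ℝ c v a') -
        P.eps * areaF (c v) (fderiv ℝ c v a) (fderiv ℝ c v a') := rfl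
  rw [e9, e8]

theorem MF2_main (P : FPar) (h : P.Ok3) {U : Set FP} {V : Set H7} {ρ : FP → H7} {c : H7 → FP}
    (hc : IsChart (FPS P.La) U V ρ c) (hU : ∀ p ∈ U, fS p < 0) {e1 e2 : ℂ → ℂ}
    (he1 : ContDiff ℝ ∞ e1) (he2 : ContDiff ℝ ∞ e2) (hne : ∀ b, e1 b ≠ 0 ∨ e2 b ≠ 0)
    (hcf : ∀ w, fT (c w) = w.1 ∧ fU (c w) = w.2.1 ∧ fZe (c w) = e1 w.2.2.1 * w.2.2.2 ∧
      fZ (c w) = e2 w.2.2.1 * w.2.2.2) {v : H7} (hv : v ∈ V) (hy : v.2.2.2 = 0) (kap : ℝ)
    (hk : 0 < kap) (harea : ∀ a a', areaF (c v) (fderiv ℝ c v a) (fderiv ℝ c v a') =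
      kap * (conj a.2.2.1 * a'.2.2.1).im) (hM : psiN (c v) ∈ P.toPar.M') :
    NonDegAt P.toPar.M' (pb2 rhoN P.omIm) (psiN (c v)) := by
  have hcN := chart_N hc
  have hcv := hc.maps_ψ v hv
  have h1 := psiN_mem hcv.1
  have hq0 : IsOpen {p : FP | qsq (fZe p) (fZ p) < P.rb ^ 2 / 4} := by
    refine isOpen_lt ?_ continuous_const
    exact (Complex.continuous_normSq.comp pZe.continuous).add
      (Complex.continuous_normSq.comp pZ.continuous)
  have hW : IsOpen ({z : EA | -1 < eW1 z} ∩ rhoN ⁻¹' {p : FP | qsq (fZe p) (fZ p) < P.rb ^ 2 / 4}) :=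
    contDiffOn_rhoN.continuousOn.isOpen_inter_preimage
      (isOpen_lt continuous_const WB_cont_W1) hq0
  have hvW : psiN (c v) ∈
      ({z : EA | -1 < eW1 z} ∩ rhoN ⁻¹' {p : FP | qsq (fZe p) (fZ p) < P.rb ^ 2 / 4}) := by
    refine ⟨h1.2, ?_⟩
    show qsq (fZe (rhoN (psiN (c v)))) (fZ (rhoN (psiN (c v)))) < P.rb ^ 2 / 4
    rw [rhoN_psiN, (hcf v).2.2.1, (hcf v).2.2.2, hy, mul_zero, mul_zero]
    have := h.rb0
    unfold qsq
    rw [map_zero, add_zero]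
    positivity
  have hφ : ContDiffOn ℝ ∞ (fun w => F7 P.hd (MF2_m e1 e2 w)) V :=
    ((contDiff_F7 P.hd).comp (MF2_contDiff he1 he2)).contDiffOn
  have hY : ∀ z ∈ WS P.La ∩ ({z | -1 < eW1 z} ∩ rhoN ⁻¹' U) ∩
      ({z : EA | -1 < eW1 z} ∩ rhoN ⁻¹' {p : FP | qsq (fZe p) (fZ p) < P.rb ^ 2 / 4}),
      (z ∈ P.toPar.M' ↔ F7 P.hd (MF2_m e1 e2 (ρ (rhoN z))) = 0) := by
    rintro z ⟨⟨hz, hzU⟩, hzW⟩
    have hp := hc.left_inv (rhoN z) ⟨(rhoN_mem hz hzU.1).1, hzU.2⟩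
    rw [(mem_N P hz hzU.1).1 (hU _ hzU.2),
      (FNm_core P h.toOk2 (fT (rhoN z)) (fU (rhoN z)) (fZe (rhoN z)) (fZ (rhoN z)) hzW.2).1]
    have e : (xpt (fT (rhoN z)) (fU (rhoN z)), fZe (rhoN z), fZ (rhoN z)) =
        MF2_m e1 e2 (ρ (rhoN z)) := by
      obtain ⟨q1, q2, q3, q4⟩ := hcf (ρ (rhoN z))
      rw [hp] at q1 q2 q3 q4
      unfold MF2_m
      rw [q1, q2, q3, q4]
    rw [e]
  have hvU : psiN (c v) ∈ WS P.La ∩ ({z | -1 < eW1 z} ∩ rhoN ⁻¹' U) := hcN.maps_ψ v hv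
  have hr : ρ (rhoN (psiN (c v))) = v := hcN.right_inv v hv
  have h0 : F7 P.hd (MF2_m e1 e2 v) = 0 := by
    have := (hY _ ⟨hvU, hvW⟩).1 hM
    rw [hr] at this
    exact this
  have hx : P.hd.c (xpt v.1 v.2.1) = 0 := by
    rw [MF2_at e1 e2 hy] at h0
    unfold F7 at h0
    simp only [MF2_qg] at h0
    have e : ((0 : V4)).1 = 0 := rfl
    rw [e, sub_zero] at h0
    exact h0
  have hfφ : ∀ a, fderiv ℝ (fun w => F7 P.hd (MF2_m e1 e2 w)) v a =
      fderiv ℝ (F7 P.hd) (xpt v.1 v.2.1, 0, 0)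
        (xpt a.1 a.2.1, e1 v.2.2.1 * a.2.2.2, e2 v.2.2.1 * a.2.2.2) := by
    intro a
    have hd1 : DifferentiableAt ℝ (F7 P.hd) (MF2_m e1 e2 v) :=
      ((contDiff_F7 P.hd).differentiable (by simp)) _
    have e := fderiv_comp v hd1 (MF2_diff he1 he2 v)
    have e' : fderiv ℝ (fun w => F7 P.hd (MF2_m e1 e2 w)) v =
        (fderiv ℝ (F7 P.hd) (MF2_m e1 e2 v)).comp (fderiv ℝ (MF2_m e1 e2) v) := e
    rw [e', ContinuousLinearMap.comp_apply, MF2_fd he1 he2 hy, MF2_at e1 e2 hy]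
  have hN := grad_ne P.hd (xpt v.1 v.2.1) hx
  have hd : fderiv ℝ (fun w => F7 P.hd (MF2_m e1 e2 w)) v ≠ 0 := by
    intro hz
    apply hN
    obtain ⟨N, hNe⟩ : ∃ N, N = grad3 P.hd.c (xpt v.1 v.2.1) := ⟨_, rfl⟩
    have e := hfφ (N.1, ⟨N.2.1, N.2.2⟩, 0, 0)
    rw [hz] at e
    have e2' : fderiv ℝ (F7 P.hd) (xpt v.1 v.2.1, 0, 0)
        (xpt N.1 ⟨N.2.1, N.2.2⟩, e1 v.2.2.1 * 0, e2 v.2.2.1 * 0) = dot3 N N := by
      rw [fderiv_F7_zero, mul_zero, mul_zero, MF2_qg, ← hNe]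
      show dot3 N N - 0 = _
      rw [sub_zero]
    have e3 : (0 : ℝ) = dot3 N N := by
      rw [← e2']
      exact e
    rw [← hNe]
    unfold dot3 at e3
    have a1 : N.1 = 0 := by nlinarith [sq_nonneg N.1, sq_nonneg N.2.1, sq_nonneg N.2.2]
    have a2 : N.2.1 = 0 := by nlinarith [sq_nonneg N.1, sq_nonneg N.2.1, sq_nonneg N.2.2]
    have a3 : N.2.2 = 0 := by nlinarith [sq_nonneg N.1, sq_nonneg N.2.1, sq_nonneg N.2.2]
    exact Prod.ext a1 (Prod.ext a2 a3)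
  refine nonDeg_level hcN hW hv hvW (fun w => F7 P.hd (MF2_m e1 e2 w)) hφ hY
    (fun z hz => hz.1) h0 hd (pb2 rhoN P.omIm) ?_
  intro a ha hane
  have hpb := MF2_pb P h hc he1 he2 hcf hv hy
  rw [hfφ] at ha
  by_cases hb : a.2.2.1 = 0
  · -- the line
    have hne2 : xpt a.1 a.2.1 ≠ 0 ∨ a.2.2.2 ≠ 0 := by
      by_contra hcon
      push Not at hcon
      apply hane
      obtain ⟨q1, q2⟩ := hcon
      have r1 : a.1 = 0 := congrArg (fun x : V3 => x.1) q1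
      have r2 : a.2.1.re = 0 := congrArg (fun x : V3 => x.2.1) q1
      have r3 : a.2.1.im = 0 := congrArg (fun x : V3 => x.2.2) q1
      exact Prod.ext r1 (Prod.ext (Complex.ext r2 r3) (Prod.ext hb q2))
    have ha' : fderiv ℝ (F7 P.hd) (xpt v.1 v.2.1, 0, 0)
        (xpt a.1 a.2.1, a.2.2.2 * e1 v.2.2.1, a.2.2.2 * e2 v.2.2.1) = 0 := by
      rw [mul_comm a.2.2.2, mul_comm a.2.2.2]
      exact ha
    obtain ⟨xi', l', hk', ho'⟩ := core_line P h.T2 h.Ta (xpt v.1 v.2.1) hx (e1 v.2.2.1)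
      (e2 v.2.2.1) (hne _) (xpt a.1 a.2.1) a.2.2.2 hne2 ha'
    refine ⟨(xi'.1, ⟨xi'.2.1, xi'.2.2⟩, 0, l'), ?_, ?_⟩
    · rw [hfφ]
      show fderiv ℝ (F7 P.hd) (xpt v.1 v.2.1, 0, 0)
        (xi', e1 v.2.2.1 * l', e2 v.2.2.1 * l') = 0
      rw [mul_comm _ l', mul_comm _ l']
      exact hk'
    · rw [hpb, harea, hb, map_zero, zero_mul, Complex.zero_im, mul_zero, mul_zero, sub_zero,
        MF2_fd he1 he2 hy, MF2_fd he1 he2 hy, MF2_at e1 e2 hy]
      show P.Om7 (xpt v.1 v.2.1, 0, 0) (xpt a.1 a.2.1, e1 v.2.2.1 * a.2.2.2, e2 v.2.2.1 * a.2.2.2)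
        (xi', e1 v.2.2.1 * l', e2 v.2.2.1 * l') ≠ 0
      rw [mul_comm _ l', mul_comm _ l', mul_comm _ a.2.2.2, mul_comm _ a.2.2.2]
      exact ho'
  · refine ⟨(0, 0, Complex.I * a.2.2.1, 0), ?_, ?_⟩
    · rw [hfφ]
      show fderiv ℝ (F7 P.hd) (xpt v.1 v.2.1, 0, 0)
        (xpt 0 0, e1 v.2.2.1 * 0, e2 v.2.2.1 * 0) = 0
      rw [mul_zero, mul_zero]
      exact map_zero _
    · rw [hpb, harea]
      have e0 : fderiv ℝ (MF2_m e1 e2) v ((0, 0, Complex.I * a.2.2.1, 0) : H7) = 0 := by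
        rw [MF2_fd he1 he2 hy]
        show (xpt 0 0, e1 v.2.2.1 * 0, e2 v.2.2.1 * 0) = (0 : R7)
        rw [mul_zero, mul_zero]
        rfl
      rw [e0, map_zero, zero_sub, neg_ne_zero]
      have e1' : (conj a.2.2.1 * ((0, 0, Complex.I * a.2.2.1, 0) : H7).2.2.1).im =
          Complex.normSq a.2.2.1 := by
        show (conj a.2.2.1 * (Complex.I * a.2.2.1)).im = _
        rw [Complex.normSq_apply]
        simp only [Complex.mul_im, Complex.mul_re, Complex.conj_re, Complex.conj_im,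
          Complex.I_re, Complex.I_im]
        ring
      rw [e1']
      have hn : 0 < Complex.normSq a.2.2.1 := Complex.normSq_pos.2 hb
      have he := h.eps
      positivity

end FPar

/-! ### the area form in the two charts -/

theorem MF2_algB (h0 k b1 b2 a0 a1 a2 c0 c1 c2 : ℝ) (hk : k = 1 - h0)
    (hN : k * (b1 ^ 2 + b2 ^ 2) = 1 + h0) (ha : a0 = k ^ 2 * (b1 * a1 + b2 * a2))
    (hc : c0 = k ^ 2 * (b1 * c1 + b2 * c2)) :
    (1 / 2) * (h0 * ((k * a1 - a0 * b1) * (-(k * c2 - c0 * b2)) -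
        (-(k * a2 - a0 * b2)) * (k * c1 - c0 * b1)) -
      a0 * ((k * b1) * (-(k * c2 - c0 * b2)) - (-(k * b2)) * (k * c1 - c0 * b1)) +
      c0 * ((k * b1) * (-(k * a2 - a0 * b2)) - (-(k * b2)) * (k * a1 - a0 * b1))) =
      (1 / 2) * k ^ 2 * (a1 * c2 - a2 * c1) := by
  subst ha hc hk
  linear_combination (1 / 2) * (1 - h0) ^ 2 * (a1 * c2 - a2 * c1) * hN

theorem MF2_algA (h0 k b1 b2 a0 a1 a2 c0 c1 c2 : ℝ) (hk : k = 1 + h0)
    (hN : k * (b1 ^ 2 + b2 ^ 2) = 1 - h0) (ha : a0 = -(k ^ 2 * (b1 * a1 + b2 * a2)))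
    (hc : c0 = -(k ^ 2 * (b1 * c1 + b2 * c2))) :
    (1 / 2) * (h0 * ((k * a1 + a0 * b1) * (k * c2 + c0 * b2) -
        (k * a2 + a0 * b2) * (k * c1 + c0 * b1)) -
      a0 * ((k * b1) * (k * c2 + c0 * b2) - (k * b2) * (k * c1 + c0 * b1)) +
      c0 * ((k * b1) * (k * a2 + a0 * b2) - (k * b2) * (k * a1 + a0 * b1))) =
      (1 / 2) * k ^ 2 * (a1 * c2 - a2 * c1) := by
  subst ha hc hk
  linear_combination (1 / 2) * (1 + h0) ^ 2 * (a1 * c2 - a2 * c1) * hN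

/-- derivatives of the Hopf coordinates along the chart, `sg' = 1` for `cB` and `-1` for `cA`. -/
theorem MF2_areaB {La : ℝ} {U : Set FP} {V : Set H7} {ρ : FP → H7} {c : H7 → FP}
    (hc : IsChart (FPS La) U V ρ c) {v : H7} (hv : v ∈ V)
    (hid : ∀ w, conj (fH (c w)) = ((1 - fH0 (c w) : ℝ) : ℂ) * w.2.2.1)
    (hlt : fH0 (c v) < 1) (a a' : H7) :
    areaF (c v) (fderiv ℝ c v a) (fderiv ℝ c v a') =
      (1 / 2) * (1 - fH0 (c v)) ^ 2 * (conj a.2.2.1 * a'.2.2.1).im := by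
  have hcdd : HasFDerivAt c (fderiv ℝ c v) v := CA_fd (CA_psi hc hv)
  have hcv := hc.maps_ψ v hv
  -- the derivative of the relation
  have hder : ∀ a : H7, conj (fH (fderiv ℝ c v a)) =
      ((1 - fH0 (c v) : ℝ) : ℂ) * a.2.2.1 - (fH0 (fderiv ℝ c v a) : ℂ) * v.2.2.1 := by
    intro a
    have hl : HasDerivAt (fun t : ℝ => v + t • a) a 0 := CA_line v a
    have hg : HasDerivAt (fun t : ℝ => c (v + t • a)) (fderiv ℝ c v a) 0 :=
      CA_comp (γ := fun t : ℝ => v + t • a) (by simp) hcdd hl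
    have hH : HasDerivAt (fun t : ℝ => fH (c (v + t • a))) (fH (fderiv ℝ c v a)) 0 :=
      pH.hasFDerivAt.comp_hasDerivAt 0 hg
    have hH0 : HasDerivAt (fun t : ℝ => fH0 (c (v + t • a))) (fH0 (fderiv ℝ c v a)) 0 :=
      pH0.hasFDerivAt.comp_hasDerivAt 0 hg
    have hcj : HasDerivAt (fun t : ℝ => conj (fH (c (v + t • a)))) (conj (fH (fderiv ℝ c v a))) 0 :=
      (Complex.conjCLE.toContinuousLinearMap.hasFDerivAt).comp_hasDerivAt 0 hH
    have hb : HasDerivAt (fun t : ℝ => (v + t • a).2.2.1) a.2.2.1 0 := hl.snd.snd.fst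
    have h1 : HasDerivAt (fun t : ℝ => ((1 - fH0 (c (v + t • a)) : ℝ) : ℂ))
        ((-(fH0 (fderiv ℝ c v a)) : ℝ) : ℂ) 0 := (hH0.const_sub 1).ofReal_comp
    have hm := h1.mul hb
    have hm' : HasDerivAt (fun t : ℝ => conj (fH (c (v + t • a)))) _ 0 :=
      hm.congr_of_eventuallyEq (Filter.Eventually.of_forall fun t => hid (v + t • a))
    have := hcj.unique hm'
    rw [this]
    simp only [zero_smul, add_zero]
    push_cast
    ring
  have hsph : fH0 (c v) ^ 2 + Complex.normSq (fH (c v)) = 1 := hcv.1.1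
  have htan := fun a => (tangent_FPS (hc.tangent_psi hv a)).1
  have hiv := hid v
  obtain ⟨h0, hh0⟩ : ∃ h0, h0 = fH0 (c v) := ⟨_, rfl⟩
  obtain ⟨k, hk⟩ : ∃ k, k = 1 - h0 := ⟨_, rfl⟩
  have hkpos : 0 < k := by
    rw [hk, hh0]
    linarith
  have r1 : (fH (c v)).re = k * v.2.2.1.re := by
    have := congrArg Complex.re hiv
    rw [← hh0, ← hk] at this
    simpa using this
  have r2 : (fH (c v)).im = -(k * v.2.2.1.im) := by
    have := congrArg Complex.im hiv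
    rw [← hh0, ← hk] at this
    simp at this
    linarith
  have s1 : ∀ a : H7, (fH (fderiv ℝ c v a)).re =
      k * a.2.2.1.re - fH0 (fderiv ℝ c v a) * v.2.2.1.re := by
    intro a
    have := congrArg Complex.re (hder a)
    rw [← hh0, ← hk] at this
    simpa using this
  have s2 : ∀ a : H7, (fH (fderiv ℝ c v a)).im =
      -(k * a.2.2.1.im - fH0 (fderiv ℝ c v a) * v.2.2.1.im) := by
    intro a
    have := congrArg Complex.im (hder a)
    rw [← hh0, ← hk] at this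
    simp at this
    linarith
  have hN : k * (v.2.2.1.re ^ 2 + v.2.2.1.im ^ 2) = 1 + h0 := by
    rw [Complex.normSq_apply, r1, r2, ← hh0] at hsph
    have : k * (k * (v.2.2.1.re ^ 2 + v.2.2.1.im ^ 2)) = k * (1 + h0) := by
      rw [hk] at hsph ⊢
      linear_combination hsph
    exact mul_left_cancel₀ hkpos.ne' this
  have t1 : ∀ a : H7, fH0 (fderiv ℝ c v a) =
      k ^ 2 * (v.2.2.1.re * a.2.2.1.re + v.2.2.1.im * a.2.2.1.im) := by
    intro a
    have := htan a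
    simp only [Complex.mul_re, Complex.conj_re, Complex.conj_im] at this
    rw [r1, r2, s1, s2, ← hh0] at this
    linear_combination -this + (-(fH0 (fderiv ℝ c v a))) * hN
  rw [areaF_apply]
  simp only [Complex.mul_im, Complex.conj_re, Complex.conj_im]
  rw [r1, r2, s1, s2, s1, s2, ← hh0]
  have := MF2_algB h0 k v.2.2.1.re v.2.2.1.im (fH0 (fderiv ℝ c v a)) a.2.2.1.re a.2.2.1.im
    (fH0 (fderiv ℝ c v a')) a'.2.2.1.re a'.2.2.1.im hk hN (t1 a) (t1 a')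
  rw [← hk]
  linear_combination this

theorem MF2_areaA {La : ℝ} {U : Set FP} {V : Set H7} {ρ : FP → H7} {c : H7 → FP}
    (hc : IsChart (FPS La) U V ρ c) {v : H7} (hv : v ∈ V)
    (hid : ∀ w, fH (c w) = ((1 + fH0 (c w) : ℝ) : ℂ) * w.2.2.1)
    (hlt : -1 < fH0 (c v)) (a a' : H7) :
    areaF (c v) (fderiv ℝ c v a) (fderiv ℝ c v a') =
      (1 / 2) * (1 + fH0 (c v)) ^ 2 * (conj a.2.2.1 * a'.2.2.1).im := by
  have hcdd : HasFDerivAt c (fderiv ℝ c v) v := CA_fd (CA_psi hc hv)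
  have hcv := hc.maps_ψ v hv
  have hder : ∀ a : H7, fH (fderiv ℝ c v a) =
      ((1 + fH0 (c v) : ℝ) : ℂ) * a.2.2.1 + (fH0 (fderiv ℝ c v a) : ℂ) * v.2.2.1 := by
    intro a
    have hl : HasDerivAt (fun t : ℝ => v + t • a) a 0 := CA_line v a
    have hg : HasDerivAt (fun t : ℝ => c (v + t • a)) (fderiv ℝ c v a) 0 :=
      CA_comp (γ := fun t : ℝ => v + t • a) (by simp) hcdd hl
    have hH : HasDerivAt (fun t : ℝ => fH (c (v + t • a))) (fH (fderiv ℝ c v a)) 0 :=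
      pH.hasFDerivAt.comp_hasDerivAt 0 hg
    have hH0 : HasDerivAt (fun t : ℝ => fH0 (c (v + t • a))) (fH0 (fderiv ℝ c v a)) 0 :=
      pH0.hasFDerivAt.comp_hasDerivAt 0 hg
    have hb : HasDerivAt (fun t : ℝ => (v + t • a).2.2.1) a.2.2.1 0 := hl.snd.snd.fst
    have h1 : HasDerivAt (fun t : ℝ => ((1 + fH0 (c (v + t • a)) : ℝ) : ℂ))
        ((fH0 (fderiv ℝ c v a) : ℝ) : ℂ) 0 := (hH0.const_add 1).ofReal_comp
    have hm := h1.mul hb
    have hm' : HasDerivAt (fun t : ℝ => fH (c (v + t • a))) _ 0 :=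
      hm.congr_of_eventuallyEq (Filter.Eventually.of_forall fun t => hid (v + t • a))
    have := hH.unique hm'
    rw [this]
    simp only [zero_smul, add_zero]
    push_cast
    ring
  have hsph : fH0 (c v) ^ 2 + Complex.normSq (fH (c v)) = 1 := hcv.1.1
  have htan := fun a => (tangent_FPS (hc.tangent_psi hv a)).1
  have hiv := hid v
  obtain ⟨h0, hh0⟩ : ∃ h0, h0 = fH0 (c v) := ⟨_, rfl⟩
  obtain ⟨k, hk⟩ : ∃ k, k = 1 + h0 := ⟨_, rfl⟩
  have hkpos : 0 < k := by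
    rw [hk, hh0]
    linarith
  have r1 : (fH (c v)).re = k * v.2.2.1.re := by
    have := congrArg Complex.re hiv
    rw [← hh0, ← hk] at this
    simpa using this
  have r2 : (fH (c v)).im = k * v.2.2.1.im := by
    have := congrArg Complex.im hiv
    rw [← hh0, ← hk] at this
    simpa using this
  have s1 : ∀ a : H7, (fH (fderiv ℝ c v a)).re =
      k * a.2.2.1.re + fH0 (fderiv ℝ c v a) * v.2.2.1.re := by
    intro a
    have := congrArg Complex.re (hder a)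
    rw [← hh0, ← hk] at this
    simpa using this
  have s2 : ∀ a : H7, (fH (fderiv ℝ c v a)).im =
      k * a.2.2.1.im + fH0 (fderiv ℝ c v a) * v.2.2.1.im := by
    intro a
    have := congrArg Complex.im (hder a)
    rw [← hh0, ← hk] at this
    simpa using this
  have hN : k * (v.2.2.1.re ^ 2 + v.2.2.1.im ^ 2) = 1 - h0 := by
    rw [Complex.normSq_apply, r1, r2, ← hh0] at hsph
    have : k * (k * (v.2.2.1.re ^ 2 + v.2.2.1.im ^ 2)) = k * (1 - h0) := by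
      rw [hk] at hsph ⊢
      linear_combination hsph
    exact mul_left_cancel₀ hkpos.ne' this
  have t1 : ∀ a : H7, fH0 (fderiv ℝ c v a) =
      -(k ^ 2 * (v.2.2.1.re * a.2.2.1.re + v.2.2.1.im * a.2.2.1.im)) := by
    intro a
    have := htan a
    simp only [Complex.mul_re, Complex.conj_re, Complex.conj_im] at this
    rw [r1, r2, s1, s2, ← hh0] at this
    linear_combination this - (fH0 (fderiv ℝ c v a)) * hN
  rw [areaF_apply]
  simp only [Complex.mul_im, Complex.conj_re, Complex.conj_im]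
  rw [r1, r2, s1, s2, s1, s2, ← hh0]
  have := MF2_algA h0 k v.2.2.1.re v.2.2.1.im (fH0 (fderiv ℝ c v a)) a.2.2.1.re a.2.2.1.im
    (fH0 (fderiv ℝ c v a')) a'.2.2.1.re a'.2.2.1.im hk hN (t1 a) (t1 a')
  rw [← hk]
  linear_combination this

theorem MF2_idB (La sg : ℝ) (w : H7) :
    conj (fH (cB La sg w)) = ((1 - fH0 (cB La sg w) : ℝ) : ℂ) * w.2.2.1 := by
  show conj (((2 / (1 + Complex.normSq w.2.2.1) : ℝ) : ℂ) * conj w.2.2.1) =
    ((1 - (Complex.normSq w.2.2.1 - 1) / (Complex.normSq w.2.2.1 + 1) : ℝ) : ℂ) * w.2.2.1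
  rw [map_mul, Complex.conj_ofReal, Complex.conj_conj]
  have hn : Complex.normSq w.2.2.1 + 1 ≠ 0 := by
    have := Complex.normSq_nonneg w.2.2.1
    linarith
  have e : (2 / (1 + Complex.normSq w.2.2.1) : ℝ) =
      1 - (Complex.normSq w.2.2.1 - 1) / (Complex.normSq w.2.2.1 + 1) := by
    rw [add_comm 1]
    field_simp
    ring
  rw [e]

theorem MF2_idA (La sg : ℝ) (w : H7) :
    fH (cA La sg w) = ((1 + fH0 (cA La sg w) : ℝ) : ℂ) * w.2.2.1 := by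
  show ((2 / (1 + Complex.normSq w.2.2.1) : ℝ) : ℂ) * w.2.2.1 =
    ((1 + (1 - Complex.normSq w.2.2.1) / (1 + Complex.normSq w.2.2.1) : ℝ) : ℂ) * w.2.2.1
  have hn : 1 + Complex.normSq w.2.2.1 ≠ 0 := by
    have := Complex.normSq_nonneg w.2.2.1
    linarith
  have e : (2 / (1 + Complex.normSq w.2.2.1) : ℝ) =
      1 + (1 - Complex.normSq w.2.2.1) / (1 + Complex.normSq w.2.2.1) := by
    field_simp
    ring
  rw [e]

namespace FPar

theorem nd_Im (P : FPar) (h : P.Ok3) {z : EA} (hz : z ∈ P.toPar.M') (h1 : -1 < eW1 z)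
    (hq : fZe (rhoN z) = 0 ∧ fZ (rhoN z) = 0) (hs : fS (rhoN z) < 0)
    (hu : Complex.normSq (fU (rhoN z)) < P.s1) : NonDegAt P.toPar.M' (pb2 rhoN P.omIm) z := by
  have hLa : 0 < P.La := by
    have := h.La
    linarith
  obtain ⟨hp, hpz⟩ := rhoN_mem hz.1 h1
  have hsg : 0 < (-1 : ℝ) * fS (rhoN z) := by linarith
  by_cases h0 : fH0 (rhoN z) < 1
  · have hc := chart_cB P.La hLa (-1) (Or.inr rfl)
    have hpU : rhoN z ∈ FPS P.La ∩ {p | fH0 p < 1 ∧ 0 < (-1 : ℝ) * fS p} := ⟨hp, h0, hsg⟩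
    have hv := hc.maps_ρ _ hpU
    have hl := hc.left_inv _ hpU
    obtain ⟨v, hve⟩ : ∃ v : H7, v = (fT (rhoN z), fU (rhoN z),
      ((1 - fH0 (rhoN z))⁻¹ : ℝ) * conj (fH (rhoN z)), fZ (rhoN z)) := ⟨_, rfl⟩
    simp only [← hve] at hv hl
    have hy : v.2.2.2 = 0 := by
      rw [hve]
      exact hq.2
    have hM : psiN (cB P.La (-1) v) ∈ P.toPar.M' := by
      rw [hl, hpz]
      exact hz
    have hlt : fH0 (cB P.La (-1) v) < 1 := by
      rw [hl]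
      exact h0
    have key := MF2_main P h hc (fun p hp => by
        have : 0 < (-1 : ℝ) * fS p := hp.2
        linarith) (e1 := fun b => b) (e2 := fun _ => 1) contDiff_id contDiff_const
      (fun b => Or.inr one_ne_zero)
      (fun w => ⟨rfl, rfl, rfl, (one_mul _).symm⟩) hv hy
      ((1 / 2) * (1 - fH0 (cB P.La (-1) v)) ^ 2) (by
        have : 0 < 1 - fH0 (cB P.La (-1) v) := by linarith
        positivity)
      (fun a a' => MF2_areaB hc hv (MF2_idB P.La (-1)) hlt a a') hM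
    rw [hl, hpz] at key
    exact key
  · have h0' : -1 < fH0 (rhoN z) := by linarith
    have hc := chart_cA P.La hLa (-1) (Or.inr rfl)
    have hpU : rhoN z ∈ FPS P.La ∩ {p | -1 < fH0 p ∧ 0 < (-1 : ℝ) * fS p} := ⟨hp, h0', hsg⟩
    have hv := hc.maps_ρ _ hpU
    have hl := hc.left_inv _ hpU
    obtain ⟨v, hve⟩ : ∃ v : H7, v = (fT (rhoN z), fU (rhoN z),
      ((1 + fH0 (rhoN z))⁻¹ : ℝ) * fH (rhoN z), fZe (rhoN z)) := ⟨_, rfl⟩
    simp only [← hve] at hv hl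
    have hy : v.2.2.2 = 0 := by
      rw [hve]
      exact hq.1
    have hM : psiN (cA P.La (-1) v) ∈ P.toPar.M' := by
      rw [hl, hpz]
      exact hz
    have hlt : -1 < fH0 (cA P.La (-1) v) := by
      rw [hl]
      exact h0'
    have key := MF2_main P h hc (fun p hp => by
        have : 0 < (-1 : ℝ) * fS p := hp.2
        linarith) (e1 := fun _ => 1) (e2 := fun b => b) contDiff_const contDiff_id
      (fun b => Or.inl one_ne_zero)
      (fun w => ⟨rfl, rfl, (one_mul _).symm, rfl⟩) hv hy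
      ((1 / 2) * (1 + fH0 (cA P.La (-1) v)) ^ 2) (by
        have : 0 < 1 + fH0 (cA P.La (-1) v) := by linarith
        positivity)
      (fun a a' => MF2_areaA hc hv (MF2_idA P.La (-1)) hlt a a') hM
    rw [hl, hpz] at key
    exact key

end FPar

end Pool.Agent.H34.SY
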