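import Pool.Agent.H34.SY.MA
import Pool.Agent.H34.SY.TCH

/-!
# Row MH1: twisted charts in the outer region

`xiX`, `twX` are the explicit versions (independent of `t`) of `q ↦ q ḡ` and of its inverse `q ↦ q g`, with
`g = ((1-l) + l j w̄)/n`, `w = u/|u|` on the side `N`, `w = 1` on the side `S` (`xiS`, `twS`); `l = lamb(|q|²)` for `s < 0`, else `0`.
`ζ' = ((1-l) ζ + l z̄ w̄)/n`, `z' = ((1-l) z - l ζ̄ w̄)/n`; inverse: `ζ = ((1-l) ζ' - l z̄' w̄)/n`, `z = (l ζ̄' w̄ + (1-l) z')/n`;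
`|ζ'|²+|z'|² = |ζ|²+|z|²` so `l` is the same.  `twX` recomputes the Hopf coordinates `(h0, h)`.
`tchart_X`: composition of `tchart_Q` with these maps (for `p ∈ FPS La`, `q ≠ 0`: `twX (xiX p) = p` by `FPS_hopf`; `xiX (twX p)` and `p`
have the same `t, u, ζ, z, s`).  Smoothness: the function `l` is smooth on `{s ≠ 0 ∨ 1 < |q|²}` (as `rb < 1`), and for
`cQ La v`: `s = 0` iff `|Q| = 1`, and then `|q|² = La² > 1`.
-/

open Set Topology
open scoped ContDiff ComplexConjugate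

namespace Pool.Agent.H34.SY

noncomputable section

namespace FPar

def ll (P : FPar) (p : FP) : ℝ := if fS p < 0 then P.toPar.lamb (qsq (fZe p) (fZ p)) else 0

def nn (P : FPar) (p : FP) : ℝ := Real.sqrt ((1 - P.ll p) ^ 2 + P.ll p ^ 2)

/-- `q ↦ q ḡ`. -/
def xiW (P : FPar) (w : ℂ) (p : FP) : FP :=
  (fT p, fU p, fH0 p, fH p,
    (((1 - P.ll p) / P.nn p : ℝ) : ℂ) * fZe p + ((P.ll p / P.nn p : ℝ) : ℂ) * (conj (fZ p) * conj w),
    (((1 - P.ll p) / P.nn p : ℝ) : ℂ) * fZ p - ((P.ll p / P.nn p : ℝ) : ℂ) * (conj (fZe p) * conj w),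
    fS p)

/-- `q ↦ q g`, with the Hopf coordinates recomputed. -/
def twW (P : FPar) (w : ℂ) (p : FP) : FP :=
  let ze : ℂ := (((1 - P.ll p) / P.nn p : ℝ) : ℂ) * fZe p
    - ((P.ll p / P.nn p : ℝ) : ℂ) * (conj (fZ p) * conj w)
  let z : ℂ := ((P.ll p / P.nn p : ℝ) : ℂ) * (conj (fZe p) * conj w)
    + (((1 - P.ll p) / P.nn p : ℝ) : ℂ) * fZ p
  (fT p, fU p, (Complex.normSq ze - Complex.normSq z) / qsq ze z,
    ((2 / qsq ze z : ℝ) : ℂ) * (conj ze * z), ze, z, fS p)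

/-- The unit complex number `u/|u|`. -/
def wu (p : FP) : ℂ := ((‖fU p‖)⁻¹ : ℝ) * fU p

def xiX (P : FPar) (p : FP) : FP := P.xiW (wu p) p
def twX (P : FPar) (p : FP) : FP := P.twW (wu p) p
def twS (P : FPar) (p : FP) : FP := P.twW 1 p

theorem MH1_nn_pos (P : FPar) (p : FP) : 0 < (1 - P.ll p) ^ 2 + P.ll p ^ 2 := by
  by_contra hcon
  have h1 := sq_nonneg (1 - P.ll p)
  have h2 := sq_nonneg (P.ll p)
  have h3 : P.ll p = 0 := by
    have : P.ll p ^ 2 = 0 := by linarith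
    exact pow_eq_zero_iff (two_ne_zero) |>.1 this
  have h4 : 1 - P.ll p = 0 := by
    have : (1 - P.ll p) ^ 2 = 0 := by linarith
    exact pow_eq_zero_iff (two_ne_zero) |>.1 this
  rw [h3] at h4
  norm_num at h4

theorem MH1_ab (P : FPar) (p : FP) :
    ((1 - P.ll p) / P.nn p) ^ 2 + (P.ll p / P.nn p) ^ 2 = 1 := by
  have h := MH1_nn_pos P p
  have h2 : P.nn p ^ 2 = (1 - P.ll p) ^ 2 + P.ll p ^ 2 := Real.sq_sqrt h.le
  rw [div_pow, div_pow, h2, ← add_div]
  exact div_self h.ne'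

/-- Algebra of the rotation. -/
theorem MH1_alg {a b : ℝ} (hab : a ^ 2 + b ^ 2 = 1) {w : ℂ} (hw : Complex.normSq w = 1) (ze z : ℂ) :
    (qsq ((a : ℂ) * ze + (b : ℂ) * (conj z * conj w)) ((a : ℂ) * z - (b : ℂ) * (conj ze * conj w))
      = qsq ze z) ∧
    (qsq ((a : ℂ) * ze - (b : ℂ) * (conj z * conj w)) ((b : ℂ) * (conj ze * conj w) + (a : ℂ) * z)
      = qsq ze z) ∧
    ((a : ℂ) * ((a : ℂ) * ze - (b : ℂ) * (conj z * conj w))
      + (b : ℂ) * (conj ((b : ℂ) * (conj ze * conj w) + (a : ℂ) * z) * conj w) = ze) ∧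
    ((a : ℂ) * ((b : ℂ) * (conj ze * conj w) + (a : ℂ) * z)
      - (b : ℂ) * (conj ((a : ℂ) * ze - (b : ℂ) * (conj z * conj w)) * conj w) = z) ∧
    ((a : ℂ) * ((a : ℂ) * ze + (b : ℂ) * (conj z * conj w))
      - (b : ℂ) * (conj ((a : ℂ) * z - (b : ℂ) * (conj ze * conj w)) * conj w) = ze) ∧
    ((b : ℂ) * (conj ((a : ℂ) * ze + (b : ℂ) * (conj z * conj w)) * conj w)
      + (a : ℂ) * ((a : ℂ) * z - (b : ℂ) * (conj ze * conj w)) = z) := by
  have hab' : (a : ℂ) ^ 2 + (b : ℂ) ^ 2 = 1 := by exact_mod_cast congrArg (fun x : ℝ => (x : ℂ)) hab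
  have hw' : w * conj w = 1 := by
    rw [Complex.mul_conj, hw]
    norm_num
  have key : ∀ x y : ℂ, ((qsq x y : ℝ) : ℂ) = x * conj x + y * conj y := by
    intro x y
    unfold qsq
    rw [Complex.mul_conj, Complex.mul_conj]
    push_cast
    ring
  refine ⟨?_, ?_, ?_, ?_, ?_, ?_⟩
  · apply Complex.ofReal_injective
    rw [key, key]
    simp only [map_mul, map_add, map_sub, Complex.conj_ofReal, Complex.conj_conj]
    linear_combination (ze * conj ze + z * conj z) * hab'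
      + (b : ℂ) ^ 2 * (ze * conj ze + z * conj z) * hw'
  · apply Complex.ofReal_injective
    rw [key, key]
    simp only [map_mul, map_add, map_sub, Complex.conj_ofReal, Complex.conj_conj]
    linear_combination (ze * conj ze + z * conj z) * hab'
      + (b : ℂ) ^ 2 * (ze * conj ze + z * conj z) * hw'
  · simp only [map_mul, map_add, map_sub, Complex.conj_ofReal, Complex.conj_conj]
    linear_combination ze * hab' + (b : ℂ) ^ 2 * ze * hw'
  · simp only [map_mul, map_add, map_sub, Complex.conj_ofReal, Complex.conj_conj]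
    linear_combination z * hab' + (b : ℂ) ^ 2 * z * hw'
  · simp only [map_mul, map_add, map_sub, Complex.conj_ofReal, Complex.conj_conj]
    linear_combination ze * hab' + (b : ℂ) ^ 2 * ze * hw'
  · simp only [map_mul, map_add, map_sub, Complex.conj_ofReal, Complex.conj_conj]
    linear_combination z * hab' + (b : ℂ) ^ 2 * z * hw'

theorem xiN_eq (P : FPar) {p : FP} (hu : P.hd.B ^ 2 ≤ Complex.normSq (fU p)) :
    P.xiN p = P.xiX p := by
  unfold xiN xiX xiW ll nn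
  by_cases hs : fS p < 0
  · have hy := (P.FNm_far (fT p) (fU p) (fZe p) (fZ p) hu).1
    have hll : P.ll p = P.toPar.lamb (qsq (fZe p) (fZ p)) := by
      unfold ll
      rw [if_pos hs]
    simp only [if_pos hs, hll]
    rw [hy]
    refine Prod.ext rfl (Prod.ext rfl (Prod.ext rfl (Prod.ext rfl (Prod.ext ?_ (Prod.ext ?_ rfl)))))
    · apply Complex.ext
      · simp only [wu, Complex.add_re, Complex.re_ofReal_mul, map_mul, Complex.conj_ofReal,
          Complex.mul_re, Complex.ofReal_re, Complex.ofReal_im, Complex.conj_re, Complex.conj_im,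
          Complex.mul_im]
        ring
      · simp only [wu, Complex.add_im, Complex.im_ofReal_mul, map_mul, Complex.conj_ofReal,
          Complex.mul_re, Complex.ofReal_re, Complex.ofReal_im, Complex.conj_re, Complex.conj_im,
          Complex.mul_im]
        ring
    · apply Complex.ext
      · simp only [wu, Complex.sub_re, Complex.re_ofReal_mul, map_mul, Complex.conj_ofReal,
          Complex.mul_re, Complex.ofReal_re, Complex.ofReal_im, Complex.conj_re, Complex.conj_im,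
          Complex.mul_im]
        ring
      · simp only [wu, Complex.sub_im, Complex.im_ofReal_mul, map_mul, Complex.conj_ofReal,
          Complex.mul_re, Complex.ofReal_re, Complex.ofReal_im, Complex.conj_re, Complex.conj_im,
          Complex.mul_im]
        ring
  · have hll : P.ll p = 0 := by
      unfold ll
      rw [if_neg hs]
    simp only [if_neg hs, hll]
    refine Prod.ext rfl (Prod.ext rfl (Prod.ext rfl (Prod.ext rfl (Prod.ext ?_ (Prod.ext ?_ rfl)))))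
    · apply Complex.ext
      · simp
      · simp
    · apply Complex.ext
      · simp
      · simp

theorem xiS_eq (P : FPar) (p : FP) : P.xiS p = P.xiW 1 p := by
  unfold xiS xiW nn ll
  simp only [map_one, mul_one]

theorem tauN_eq (P : FPar) {p : FP} (hu : P.hd.B ^ 2 < Complex.normSq (fU p)) :
    P.tauN p = (fZe (P.xiX p)).re := by
  have e : fZe (P.xiX p) = (((1 - P.ll p) / P.nn p : ℝ) : ℂ) * fZe p
    + ((P.ll p / P.nn p : ℝ) : ℂ) * (conj (fZ p) * conj (wu p)) := rfl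
  rw [e]
  unfold tauN
  by_cases hs : fS p < 0
  · have hll : P.ll p = P.toPar.lamb (qsq (fZe p) (fZ p)) := by
      unfold ll
      rw [if_pos hs]
    rw [if_pos ⟨hs, hu⟩]
    unfold nn
    simp only [hll]
    generalize Real.sqrt ((1 - P.toPar.lamb (qsq (fZe p) (fZ p))) ^ 2
        + P.toPar.lamb (qsq (fZe p) (fZ p)) ^ 2) = N
    generalize P.toPar.lamb (qsq (fZe p) (fZ p)) = l
    simp only [wu, Complex.add_re, map_mul, Complex.conj_ofReal,
          Complex.mul_re, Complex.ofReal_re, Complex.ofReal_im, Complex.conj_re, Complex.conj_im,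
          Complex.mul_im]
    ring
  · have hll : P.ll p = 0 := by
      unfold ll
      rw [if_neg hs]
    rw [if_neg (fun h => hs h.1)]
    unfold nn
    simp only [hll]
    simp

theorem tauS_eq (P : FPar) (p : FP) : P.tauS p = (fZe (P.xiS p)).re := by
  rw [xiS_eq]
  have e : fZe (P.xiW 1 p) = (((1 - P.ll p) / P.nn p : ℝ) : ℂ) * fZe p
    + ((P.ll p / P.nn p : ℝ) : ℂ) * (conj (fZ p) * conj 1) := rfl
  rw [e]
  unfold tauS
  by_cases hs : fS p < 0
  · have hll : P.ll p = P.toPar.lamb (qsq (fZe p) (fZ p)) := by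
      unfold ll
      rw [if_pos hs]
    rw [if_pos hs]
    unfold nn
    simp only [hll]
    simp only [map_one, mul_one, Complex.add_re, Complex.re_ofReal_mul, Complex.conj_re]
    ring
  · have hll : P.ll p = 0 := by
      unfold ll
      rw [if_neg hs]
    rw [if_neg hs]
    unfold nn
    simp only [hll]
    simp

theorem xiW_qsq (P : FPar) (w : ℂ) (hw : Complex.normSq w = 1) (p : FP) :
    qsq (fZe (P.xiW w p)) (fZ (P.xiW w p)) = qsq (fZe p) (fZ p) ∧
    qsq (fZe (P.twW w p)) (fZ (P.twW w p)) = qsq (fZe p) (fZ p) := by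
  have h := MH1_alg (P.MH1_ab p) hw (fZe p) (fZ p)
  exact ⟨h.1, h.2.1⟩

theorem MH1_ll_xi (P : FPar) (w : ℂ) (hw : Complex.normSq w = 1) (p : FP) :
    P.ll (P.xiW w p) = P.ll p ∧ P.ll (P.twW w p) = P.ll p := by
  obtain ⟨h1, h2⟩ := P.xiW_qsq w hw p
  constructor
  · unfold ll
    rw [h1]
    rfl
  · unfold ll
    rw [h2]
    rfl

theorem xiW_twW (P : FPar) (w : ℂ) (hw : Complex.normSq w = 1) (p : FP) :
    fZe (P.xiW w (P.twW w p)) = fZe p ∧ fZ (P.xiW w (P.twW w p)) = fZ p ∧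
    fZe (P.twW w (P.xiW w p)) = fZe p ∧ fZ (P.twW w (P.xiW w p)) = fZ p := by
  obtain ⟨h1, h2⟩ := P.MH1_ll_xi w hw p
  have n1 : P.nn (P.xiW w p) = P.nn p := by
    unfold nn
    rw [h1]
  have n2 : P.nn (P.twW w p) = P.nn p := by
    unfold nn
    rw [h2]
  obtain ⟨-, -, a1, a2, a3, a4⟩ := MH1_alg (P.MH1_ab p) hw (fZe p) (fZ p)
  refine ⟨?_, ?_, ?_, ?_⟩
  · show (((1 - P.ll (P.twW w p)) / P.nn (P.twW w p) : ℝ) : ℂ) * fZe (P.twW w p)
      + ((P.ll (P.twW w p) / P.nn (P.twW w p) : ℝ) : ℂ) * (conj (fZ (P.twW w p)) * conj w) = fZe p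
    rw [h2, n2]
    exact a1
  · show (((1 - P.ll (P.twW w p)) / P.nn (P.twW w p) : ℝ) : ℂ) * fZ (P.twW w p)
      - ((P.ll (P.twW w p) / P.nn (P.twW w p) : ℝ) : ℂ) * (conj (fZe (P.twW w p)) * conj w) = fZ p
    rw [h2, n2]
    exact a2
  · show (((1 - P.ll (P.xiW w p)) / P.nn (P.xiW w p) : ℝ) : ℂ) * fZe (P.xiW w p)
      - ((P.ll (P.xiW w p) / P.nn (P.xiW w p) : ℝ) : ℂ) * (conj (fZ (P.xiW w p)) * conj w) = fZe p
    rw [h1, n1]
    exact a3
  · show ((P.ll (P.xiW w p) / P.nn (P.xiW w p) : ℝ) : ℂ) * (conj (fZe (P.xiW w p)) * conj w)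
      + (((1 - P.ll (P.xiW w p)) / P.nn (P.xiW w p) : ℝ) : ℂ) * fZ (P.xiW w p) = fZ p
    rw [h1, n1]
    exact a4

/-- `twW` depends only on `t, u, ζ, z, s`. -/
theorem MH1_tw_congr (P : FPar) (w : ℂ) {p p' : FP} (h1 : fT p = fT p') (h2 : fU p = fU p')
    (h3 : fZe p = fZe p') (h4 : fZ p = fZ p') (h5 : fS p = fS p') : P.twW w p = P.twW w p' := by
  have hl : P.ll p = P.ll p' := by
    unfold ll
    rw [h3, h4, h5]
  unfold twW nn
  rw [hl, h1, h2, h3, h4, h5]

theorem MH1_rQ_congr (La : ℝ) {p p' : FP} (h1 : fT p = fT p') (h2 : fU p = fU p')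
    (h3 : fZe p = fZe p') (h4 : fZ p = fZ p') (h5 : fS p = fS p') : rQ La p = rQ La p' := by
  unfold rQ
  rw [h1, h2, h3, h4, h5]

theorem MH1_cQ_rQ {La : ℝ} (hLa : 0 < La) {p : FP} (hs : fS p < La)
    (hq : qsq (fZe p) (fZ p) + fS p ^ 2 = La ^ 2) (hq0 : 0 < qsq (fZe p) (fZ p)) :
    fT (cQ La (rQ La p)) = fT p ∧ fU (cQ La (rQ La p)) = fU p ∧ fZe (cQ La (rQ La p)) = fZe p ∧
      fZ (cQ La (rQ La p)) = fZ p ∧ fS (cQ La (rQ La p)) = fS p := by
  have hk : 0 < La - fS p := sub_pos.2 hs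
  have hr : Complex.normSq ((((La - fS p)⁻¹ : ℝ) : ℂ) * fZe p)
      + Complex.normSq ((((La - fS p)⁻¹ : ℝ) : ℂ) * fZ p) = (La + fS p) / (La - fS p) := by
    rw [map_mul, map_mul, Complex.normSq_ofReal, ← mul_add]
    have : Complex.normSq (fZe p) + Complex.normSq (fZ p) = (La + fS p) * (La - fS p) := by
      unfold qsq at hq
      linear_combination hq
    rw [this]
    field_simp
  have hne : La - fS p ≠ 0 := hk.ne'
  have hr1 : 2 * La / (1 + (La + fS p) / (La - fS p)) = La - fS p := by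
    have : 1 + (La + fS p) / (La - fS p) = 2 * La / (La - fS p) := by
      field_simp
      ring
    rw [this]
    field_simp
  have hmul : ∀ x : ℂ, ((La - fS p : ℝ) : ℂ) * ((((La - fS p)⁻¹ : ℝ) : ℂ) * x) = x := by
    intro x
    rw [← mul_assoc, ← Complex.ofReal_mul, mul_inv_cancel₀ hne, Complex.ofReal_one, one_mul]
  refine ⟨rfl, rfl, ?_, ?_, ?_⟩
  · show ((2 * La / (1 + (Complex.normSq ((((La - fS p)⁻¹ : ℝ) : ℂ) * fZe p)
      + Complex.normSq ((((La - fS p)⁻¹ : ℝ) : ℂ) * fZ p))) : ℝ) : ℂ)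
        * ((((La - fS p)⁻¹ : ℝ) : ℂ) * fZe p) = fZe p
    rw [hr, hr1]
    exact hmul _
  · show ((2 * La / (1 + (Complex.normSq ((((La - fS p)⁻¹ : ℝ) : ℂ) * fZe p)
      + Complex.normSq ((((La - fS p)⁻¹ : ℝ) : ℂ) * fZ p))) : ℝ) : ℂ)
        * ((((La - fS p)⁻¹ : ℝ) : ℂ) * fZ p) = fZ p
    rw [hr, hr1]
    exact hmul _
  · show La * ((Complex.normSq ((((La - fS p)⁻¹ : ℝ) : ℂ) * fZe p)
      + Complex.normSq ((((La - fS p)⁻¹ : ℝ) : ℂ) * fZ p)) - 1) /
      ((Complex.normSq ((((La - fS p)⁻¹ : ℝ) : ℂ) * fZe p)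
      + Complex.normSq ((((La - fS p)⁻¹ : ℝ) : ℂ) * fZ p)) + 1) = fS p
    rw [hr]
    have h1 : (La + fS p) / (La - fS p) + 1 = 2 * La / (La - fS p) := by
      field_simp
      ring
    have h2 : (La + fS p) / (La - fS p) - 1 = 2 * fS p / (La - fS p) := by
      field_simp
      ring
    rw [h1, h2]
    field_simp

/-- The Hopf coordinates. -/
theorem MH1_hopf (ze z : ℂ) (h : qsq ze z ≠ 0) :
    ((Complex.normSq ze - Complex.normSq z) / qsq ze z) ^ 2
      + Complex.normSq (((2 / qsq ze z : ℝ) : ℂ) * (conj ze * z)) = 1 ∧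
    ((1 + (Complex.normSq ze - Complex.normSq z) / qsq ze z : ℝ) : ℂ) * z
      = (((2 / qsq ze z : ℝ) : ℂ) * (conj ze * z)) * ze ∧
    ((1 - (Complex.normSq ze - Complex.normSq z) / qsq ze z : ℝ) : ℂ) * ze
      = conj (((2 / qsq ze z : ℝ) : ℂ) * (conj ze * z)) * z := by
  have h1 : 1 + (Complex.normSq ze - Complex.normSq z) / qsq ze z
      = 2 / qsq ze z * Complex.normSq ze := by
    field_simp
    unfold qsq
    ring
  have h2 : 1 - (Complex.normSq ze - Complex.normSq z) / qsq ze z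
      = 2 / qsq ze z * Complex.normSq z := by
    field_simp
    unfold qsq
    ring
  refine ⟨?_, ?_, ?_⟩
  · rw [map_mul, map_mul, Complex.normSq_ofReal, Complex.normSq_conj]
    field_simp
    unfold qsq
    ring
  · rw [h1, Complex.ofReal_mul, ← Complex.mul_conj]
    ring
  · rw [h2, Complex.ofReal_mul, ← Complex.mul_conj]
    simp only [map_mul, Complex.conj_ofReal, Complex.conj_conj]
    ring

theorem MH1_lamb_smooth (P : FPar) : ContDiff ℝ ∞ P.toPar.lamb := by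
  unfold Par.lamb cut
  have h1 : ContDiff ℝ ∞ (fun s : ℝ => (s / P.rb ^ 2 - 1 / 4) / (3 / 4)) := by
    exact ((contDiff_id.div_const _).sub contDiff_const).div_const _
  exact contDiff_const.sub (Real.smoothTransition.contDiff.comp h1)

theorem MH1_lamb_zero (P : FPar) (h : P.Ok2) {r : ℝ} (hr : 1 ≤ r) : P.toPar.lamb r = 0 := by
  unfold Par.lamb cut
  have h1 : 1 ≤ (r / P.rb ^ 2 - 1 / 4) / (3 / 4) := by
    have h2 : 1 ≤ r / P.rb ^ 2 := by
      rw [le_div_iff₀ (pow_pos h.rb0 2)]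
      have : P.rb ^ 2 ≤ 1 := pow_le_one₀ h.rb0.le h.rb1.le
      linarith
    rw [le_div_iff₀ (by norm_num)]
    linarith
  rw [Real.smoothTransition.one_of_one_le h1]
  ring

theorem MH1_qsq_smooth : ContDiff ℝ ∞ (fun p : FP => qsq (fZe p) (fZ p)) := by
  have c1 : ContDiff ℝ ∞ (fun p : FP => p.2) := contDiff_snd
  have c2 : ContDiff ℝ ∞ (fun p : FP => p.2.2) := contDiff_snd.comp c1
  have c3 : ContDiff ℝ ∞ (fun p : FP => p.2.2.2) := contDiff_snd.comp c2
  have c4 : ContDiff ℝ ∞ (fun p : FP => p.2.2.2.2) := contDiff_snd.comp c3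
  have cZe : ContDiff ℝ ∞ fZe := contDiff_fst.comp c4
  have c5 : ContDiff ℝ ∞ (fun p : FP => p.2.2.2.2.2) := contDiff_snd.comp c4
  have cZ : ContDiff ℝ ∞ fZ := contDiff_fst.comp c5
  exact (WB_cd_normSq.comp cZe).add (WB_cd_normSq.comp cZ)

theorem MH1_S_smooth : ContDiff ℝ ∞ fS := by
  have c1 : ContDiff ℝ ∞ (fun p : FP => p.2) := contDiff_snd
  have c2 : ContDiff ℝ ∞ (fun p : FP => p.2.2) := contDiff_snd.comp c1
  have c3 : ContDiff ℝ ∞ (fun p : FP => p.2.2.2) := contDiff_snd.comp c2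
  have c4 : ContDiff ℝ ∞ (fun p : FP => p.2.2.2.2) := contDiff_snd.comp c3
  have c5 : ContDiff ℝ ∞ (fun p : FP => p.2.2.2.2.2) := contDiff_snd.comp c4
  exact contDiff_snd.comp c5

theorem MH1_ll_smooth (P : FPar) (h : P.Ok2) {p : FP} (hp : fS p ≠ 0 ∨ 1 < qsq (fZe p) (fZ p)) :
    ContDiffAt ℝ ∞ P.ll p := by
  have hz : ∀ᶠ y in 𝓝 p, (fS y < 0 → P.toPar.lamb (qsq (fZe y) (fZ y)) = 0) →
      P.ll y = 0 := by
    filter_upwards with y hy
    unfold ll
    split_ifs with h1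
    · exact hy h1
    · rfl
  rcases hp with hp | hp
  · rcases lt_or_gt_of_ne hp with h1 | h1
    · have e : P.ll =ᶠ[𝓝 p] fun y => P.toPar.lamb (qsq (fZe y) (fZ y)) := by
        have : ∀ᶠ y in 𝓝 p, fS y < 0 :=
          MH1_S_smooth.continuous.continuousAt.eventually (Iio_mem_nhds h1)
        filter_upwards [this] with y hy
        unfold ll
        rw [if_pos hy]
      exact ((P.MH1_lamb_smooth.comp MH1_qsq_smooth).contDiffAt).congr_of_eventuallyEq e
    · have e : P.ll =ᶠ[𝓝 p] fun _ => (0 : ℝ) := by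
        have : ∀ᶠ y in 𝓝 p, 0 < fS y :=
          MH1_S_smooth.continuous.continuousAt.eventually (Ioi_mem_nhds h1)
        filter_upwards [this, hz] with y hy hzy
        exact hzy (fun h2 => absurd h2 (not_lt.2 hy.le))
      exact contDiffAt_const.congr_of_eventuallyEq e
  · have e : P.ll =ᶠ[𝓝 p] fun _ => (0 : ℝ) := by
      have : ∀ᶠ y in 𝓝 p, 1 < qsq (fZe y) (fZ y) :=
        MH1_qsq_smooth.continuous.continuousAt.eventually (Ioi_mem_nhds hp)
      filter_upwards [this, hz] with y hy hzy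
      exact hzy (fun _ => P.MH1_lamb_zero h hy.le)
    exact contDiffAt_const.congr_of_eventuallyEq e

/-- The general chart. -/
theorem MH1_tchart (P : FPar) (h : P.Ok2) (G : Set ℂ) (hG : IsOpen G) (w : ℂ → ℂ)
    (hw : ContDiffOn ℝ ∞ w G) (hw1 : ∀ u ∈ G, Complex.normSq (w u) = 1) :
    TChart P.La {p | ((fZe p ≠ 0 ∨ fZ p ≠ 0) ∧ fS p < P.La) ∧
        ((fS p ≠ 0 ∨ 1 < qsq (fZe p) (fZ p)) ∧ fU p ∈ G)}
      {v : H7 | (v.2.2.1 ≠ 0 ∨ v.2.2.2 ≠ 0) ∧ v.2.1 ∈ G}
      (fun p => rQ P.La (P.xiW (w (fU p)) p))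
      (fun v => P.twW (w (fU (cQ P.La v))) (cQ P.La v)) := by
  have hLa : 0 < P.La := by
    have := h.La
    linarith
  have hQ := tchart_Q P.La hLa
  have cT : ContDiff ℝ ∞ fT := contDiff_fst
  have c1 : ContDiff ℝ ∞ (fun p : FP => p.2) := contDiff_snd
  have cU : ContDiff ℝ ∞ fU := contDiff_fst.comp c1
  have c2 : ContDiff ℝ ∞ (fun p : FP => p.2.2) := contDiff_snd.comp c1
  have c3 : ContDiff ℝ ∞ (fun p : FP => p.2.2.2) := contDiff_snd.comp c2
  have c4 : ContDiff ℝ ∞ (fun p : FP => p.2.2.2.2) := contDiff_snd.comp c3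
  have cZe : ContDiff ℝ ∞ fZe := contDiff_fst.comp c4
  have c5 : ContDiff ℝ ∞ (fun p : FP => p.2.2.2.2.2) := contDiff_snd.comp c4
  have cZ : ContDiff ℝ ∞ fZ := contDiff_fst.comp c5
  have cS : ContDiff ℝ ∞ fS := contDiff_snd.comp c5
  have hq0 : ∀ ze z : ℂ, (ze ≠ 0 ∨ z ≠ 0) ↔ 0 < qsq ze z := by
    intro ze z
    unfold qsq
    have n1 := Complex.normSq_nonneg ze
    have n2 := Complex.normSq_nonneg z
    constructor
    · rintro (h1 | h1)
      · have := Complex.normSq_pos.2 h1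
        linarith
      · have := Complex.normSq_pos.2 h1
        linarith
    · intro h1
      by_contra hcon
      push Not at hcon
      rw [hcon.1, hcon.2] at h1
      simp at h1
  have hab : ∀ p : FP, (fS p ≠ 0 ∨ 1 < qsq (fZe p) (fZ p)) →
      ContDiffAt ℝ ∞ (fun p => (((1 - P.ll p) / P.nn p : ℝ) : ℂ)) p ∧
      ContDiffAt ℝ ∞ (fun p => ((P.ll p / P.nn p : ℝ) : ℂ)) p := by
    intro p hp
    have hl := P.MH1_ll_smooth h hp
    have hn : ContDiffAt ℝ ∞ P.nn p := by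
      unfold nn
      exact (((contDiffAt_const.sub hl).pow 2).add (hl.pow 2)).sqrt (P.MH1_nn_pos p).ne'
    have hn0 : P.nn p ≠ 0 := by
      unfold nn
      exact (Real.sqrt_pos.2 (P.MH1_nn_pos p)).ne'
    exact ⟨Complex.ofRealCLM.contDiff.contDiffAt.comp p ((contDiffAt_const.sub hl).div hn hn0),
      Complex.ofRealCLM.contDiff.contDiffAt.comp p (hl.div hn hn0)⟩
  have hwc : ∀ p : FP, fU p ∈ G → ContDiffAt ℝ ∞ (fun p : FP => conj (w (fU p))) p := by
    intro p hp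
    have h1 : ContDiffAt ℝ ∞ w (fU p) := hw.contDiffAt (hG.mem_nhds hp)
    exact WB_cd_conj.contDiffAt.comp p (h1.comp p cU.contDiffAt)
  have cZc : ContDiff ℝ ∞ (fun p : FP => conj (fZ p)) := WB_cd_conj.comp cZ
  have cZec : ContDiff ℝ ∞ (fun p : FP => conj (fZe p)) := WB_cd_conj.comp cZe
  have htw : ∀ p : FP, (fZe p ≠ 0 ∨ fZ p ≠ 0) → (fS p ≠ 0 ∨ 1 < qsq (fZe p) (fZ p)) → fU p ∈ G →
      ContDiffAt ℝ ∞ (fun p => P.twW (w (fU p)) p) p := by
    intro p hq hp hu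
    obtain ⟨ha, hb⟩ := hab p hp
    have hwc' := hwc p hu
    have e1 : ContDiffAt ℝ ∞ (fun p : FP => (((1 - P.ll p) / P.nn p : ℝ) : ℂ) * fZe p
        - ((P.ll p / P.nn p : ℝ) : ℂ) * (conj (fZ p) * conj (w (fU p)))) p :=
      (ha.mul cZe.contDiffAt).sub (hb.mul (cZc.contDiffAt.mul hwc'))
    have e2 : ContDiffAt ℝ ∞ (fun p : FP => ((P.ll p / P.nn p : ℝ) : ℂ)
        * (conj (fZe p) * conj (w (fU p))) + (((1 - P.ll p) / P.nn p : ℝ) : ℂ) * fZ p) p :=
      (hb.mul (cZec.contDiffAt.mul hwc')).add (ha.mul cZ.contDiffAt)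
    have hqq := (P.xiW_qsq (w (fU p)) (hw1 _ hu) p).2
    have e3 : ContDiffAt ℝ ∞ (fun p : FP => Complex.normSq ((((1 - P.ll p) / P.nn p : ℝ) : ℂ) * fZe p
        - ((P.ll p / P.nn p : ℝ) : ℂ) * (conj (fZ p) * conj (w (fU p))))) p :=
      WB_cd_normSq.contDiffAt.comp p e1
    have e4 : ContDiffAt ℝ ∞ (fun p : FP => Complex.normSq (((P.ll p / P.nn p : ℝ) : ℂ)
        * (conj (fZe p) * conj (w (fU p))) + (((1 - P.ll p) / P.nn p : ℝ) : ℂ) * fZ p)) p :=
      WB_cd_normSq.contDiffAt.comp p e2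
    have hne : qsq (fZe (P.twW (w (fU p)) p)) (fZ (P.twW (w (fU p)) p)) ≠ 0 := by
      rw [hqq]
      exact ((hq0 _ _).1 hq).ne'
    have e5 := (e3.sub e4).div (e3.add e4) hne
    have e6 : ContDiffAt ℝ ∞ (fun p : FP => ((2 / (Complex.normSq ((((1 - P.ll p) / P.nn p : ℝ) : ℂ)
        * fZe p - ((P.ll p / P.nn p : ℝ) : ℂ) * (conj (fZ p) * conj (w (fU p))))
        + Complex.normSq (((P.ll p / P.nn p : ℝ) : ℂ)
        * (conj (fZe p) * conj (w (fU p))) + (((1 - P.ll p) / P.nn p : ℝ) : ℂ) * fZ p)) : ℝ) : ℂ)) p :=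
      Complex.ofRealCLM.contDiff.contDiffAt.comp p (contDiffAt_const.div (e3.add e4) hne)
    have e7 : ContDiffAt ℝ ∞ (fun p : FP => conj ((((1 - P.ll p) / P.nn p : ℝ) : ℂ) * fZe p
        - ((P.ll p / P.nn p : ℝ) : ℂ) * (conj (fZ p) * conj (w (fU p))))) p :=
      WB_cd_conj.contDiffAt.comp p e1
    exact cT.contDiffAt.prodMk (cU.contDiffAt.prodMk (e5.prodMk ((e6.mul (e7.mul e2)).prodMk
      (e1.prodMk (e2.prodMk cS.contDiffAt)))))
  have hcQ : ∀ v : H7, (v.2.2.1 ≠ 0 ∨ v.2.2.2 ≠ 0) → cQ P.La v ∈ FPS P.La ∧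
      (fZe (cQ P.La v) ≠ 0 ∨ fZ (cQ P.La v) ≠ 0) ∧ fS (cQ P.La v) < P.La ∧
      (fS (cQ P.La v) ≠ 0 ∨ 1 < qsq (fZe (cQ P.La v)) (fZ (cQ P.La v))) := by
    intro v hv
    have h1 := hQ.chart.maps_ψ v hv
    refine ⟨h1.1, h1.2.1, h1.2.2, ?_⟩
    by_cases hs : fS (cQ P.La v) = 0
    · right
      have h2 := h1.1.2.2.2
      rw [hs] at h2
      have h3 : qsq (fZe (cQ P.La v)) (fZ (cQ P.La v)) = P.La ^ 2 := by
        unfold qsq
        linarith
      rw [h3]
      have := h.La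
      nlinarith
    · exact Or.inl hs
  exact {
    chart := {
      isOpen_U := by
        have o1 : IsOpen {p : FP | fZe p ≠ 0} := isOpen_ne_fun cZe.continuous continuous_const
        have o2 : IsOpen {p : FP | fZ p ≠ 0} := isOpen_ne_fun cZ.continuous continuous_const
        have o3 : IsOpen {p : FP | fS p < P.La} := isOpen_lt cS.continuous continuous_const
        have o4 : IsOpen {p : FP | fS p ≠ 0} := isOpen_ne_fun cS.continuous continuous_const
        have o5 : IsOpen {p : FP | 1 < qsq (fZe p) (fZ p)} :=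
          isOpen_lt continuous_const MH1_qsq_smooth.continuous
        have o6 : IsOpen {p : FP | fU p ∈ G} := hG.preimage cU.continuous
        exact ((o1.union o2).inter o3).inter ((o4.union o5).inter o6)
      isOpen_V := by
        have k1 : Continuous (fun v : H7 => v.2.2.1) := by fun_prop
        have k2 : Continuous (fun v : H7 => v.2.2.2) := by fun_prop
        have k3 : Continuous (fun v : H7 => v.2.1) := by fun_prop
        exact ((isOpen_ne_fun k1 continuous_const).union (isOpen_ne_fun k2 continuous_const)).inter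
          (hG.preimage k3)
      smooth_ρ := by
        intro p hp
        apply ContDiffAt.contDiffWithinAt
        obtain ⟨ha, hb⟩ := hab p hp.2.1
        have hwc' := hwc p hp.2.2
        have hk : ContDiffAt ℝ ∞ (fun p : FP => (((P.La - fS p)⁻¹ : ℝ) : ℂ)) p :=
          Complex.ofRealCLM.contDiff.contDiffAt.comp p
            ((contDiffAt_const.sub cS.contDiffAt).inv (sub_pos.2 hp.1.2).ne')
        exact cT.contDiffAt.prodMk (cU.contDiffAt.prodMk ((hk.mul
          ((ha.mul cZe.contDiffAt).add (hb.mul (cZc.contDiffAt.mul hwc')))).prodMk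
          (hk.mul ((ha.mul cZ.contDiffAt).sub (hb.mul (cZec.contDiffAt.mul hwc'))))))
      smooth_ψ := by
        intro v hv
        apply ContDiffAt.contDiffWithinAt
        have hc := hcQ v hv.1
        have h1 : ContDiffAt ℝ ∞ (cQ P.La) v :=
          hQ.chart.smooth_ψ.contDiffAt (hQ.chart.isOpen_V.mem_nhds hv.1)
        exact (htw (cQ P.La v) hc.2.1 hc.2.2.2 hv.2).comp v h1
      maps_ρ := by
        intro p hp
        have hqq := (P.xiW_qsq (w (fU p)) (hw1 _ hp.2.2.2) p).1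
        have h1 : 0 < qsq (fZe (P.xiW (w (fU p)) p)) (fZ (P.xiW (w (fU p)) p)) := by
          rw [hqq]
          exact (hq0 _ _).1 hp.2.1.1
        have hk : (((P.La - fS p)⁻¹ : ℝ) : ℂ) ≠ 0 := by
          rw [Complex.ofReal_ne_zero]
          exact inv_ne_zero (sub_pos.2 hp.2.1.2).ne'
        refine ⟨?_, hp.2.2.2⟩
        rcases (hq0 _ _).2 h1 with h2 | h2
        · exact Or.inl (mul_ne_zero hk h2)
        · exact Or.inr (mul_ne_zero hk h2)
      maps_ψ := by
        intro v hv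
        obtain ⟨m1, m2, m3, m4⟩ := hcQ v hv.1
        have hu : fU (cQ P.La v) ∈ G := hv.2
        have hqq := (P.xiW_qsq (w (fU (cQ P.La v))) (hw1 _ hu) (cQ P.La v)).2
        have hpos : 0 < qsq (fZe (P.twW (w (fU (cQ P.La v))) (cQ P.La v)))
            (fZ (P.twW (w (fU (cQ P.La v))) (cQ P.La v))) := by
          rw [hqq]
          exact (hq0 _ _).1 m2
        obtain ⟨g1, g2, g3⟩ := MH1_hopf _ _ hpos.ne'
        refine ⟨⟨g1, g2, g3, ?_⟩, ⟨(hq0 _ _).2 hpos, m3⟩, ?_, hu⟩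
        · have h5 := m1.2.2.2
          have h6 : qsq (fZe (P.twW (w (fU (cQ P.La v))) (cQ P.La v)))
            (fZ (P.twW (w (fU (cQ P.La v))) (cQ P.La v))) + fS (cQ P.La v) ^ 2 = P.La ^ 2 := by
            rw [hqq]
            exact h5
          exact h6
        · show fS (cQ P.La v) ≠ 0 ∨ 1 < qsq (fZe (P.twW (w (fU (cQ P.La v))) (cQ P.La v)))
            (fZ (P.twW (w (fU (cQ P.La v))) (cQ P.La v)))
          rw [hqq]
          exact m4
      left_inv := by
        intro p hp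
        obtain ⟨hF, ⟨hq, hs⟩, hD, hu⟩ := hp
        have hw' := hw1 _ hu
        have hqq := (P.xiW_qsq (w (fU p)) hw' p).1
        have hF4 : qsq (fZe p) (fZ p) + fS p ^ 2 = P.La ^ 2 := hF.2.2.2
        have hx := MH1_cQ_rQ (p := P.xiW (w (fU p)) p) hLa hs (by rw [hqq]; exact hF4)
          (by rw [hqq]; exact (hq0 _ _).1 hq)
        obtain ⟨x1, x2, x3, x4, x5⟩ := hx
        show P.twW (w (fU (cQ P.La (rQ P.La (P.xiW (w (fU p)) p)))))
          (cQ P.La (rQ P.La (P.xiW (w (fU p)) p))) = p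
        rw [x2, P.MH1_tw_congr _ x1 x2 x3 x4 x5]
        have h3 := (P.xiW_twW (w (fU p)) hw' p).2.2
        have hop := FPS_hopf hF hq
        show P.twW (w (fU p)) (P.xiW (w (fU p)) p) = p
        refine Prod.ext rfl (Prod.ext rfl (Prod.ext ?_ (Prod.ext ?_ (Prod.ext h3.1
          (Prod.ext h3.2 rfl)))))
        · show (Complex.normSq (fZe (P.twW (w (fU p)) (P.xiW (w (fU p)) p)))
            - Complex.normSq (fZ (P.twW (w (fU p)) (P.xiW (w (fU p)) p))))
            / qsq (fZe (P.twW (w (fU p)) (P.xiW (w (fU p)) p)))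
              (fZ (P.twW (w (fU p)) (P.xiW (w (fU p)) p))) = fH0 p
          rw [h3.1, h3.2, hop.1]
        · show ((2 / qsq (fZe (P.twW (w (fU p)) (P.xiW (w (fU p)) p)))
              (fZ (P.twW (w (fU p)) (P.xiW (w (fU p)) p))) : ℝ) : ℂ)
              * (conj (fZe (P.twW (w (fU p)) (P.xiW (w (fU p)) p)))
                * fZ (P.twW (w (fU p)) (P.xiW (w (fU p)) p))) = fH p
          rw [h3.1, h3.2, hop.2.1]
      right_inv := by
        intro v hv
        have hw' := hw1 (fU (cQ P.La v)) hv.2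
        have h3 := P.xiW_twW (w (fU (cQ P.La v))) hw' (cQ P.La v)
        show rQ P.La (P.xiW (w (fU (cQ P.La v))) (P.twW (w (fU (cQ P.La v))) (cQ P.La v))) = v
        have h4 : rQ P.La (P.xiW (w (fU (cQ P.La v))) (P.twW (w (fU (cQ P.La v))) (cQ P.La v)))
            = rQ P.La (cQ P.La v) :=
          MH1_rQ_congr P.La (p := P.xiW (w (fU (cQ P.La v))) (P.twW (w (fU (cQ P.La v))) (cQ P.La v)))
            (p' := cQ P.La v) rfl rfl h3.1 h3.2.1 rfl
        rw [h4]
        exact hQ.chart.right_inv v hv.1 }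
    c_t := fun _ _ => rfl
    ρ_t := fun _ _ => rfl
    U_t := fun _ _ hp => hp
    V_t := fun _ _ hv => hv }

theorem tchart_X (P : FPar) (h : P.Ok2) :
    TChart P.La {p | ((fZe p ≠ 0 ∨ fZ p ≠ 0) ∧ fS p < P.La) ∧
        ((fS p ≠ 0 ∨ 1 < qsq (fZe p) (fZ p)) ∧ P.hd.B ^ 2 < Complex.normSq (fU p))}
      {v : H7 | (v.2.2.1 ≠ 0 ∨ v.2.2.2 ≠ 0) ∧ P.hd.B ^ 2 < Complex.normSq v.2.1}
      (fun p => rQ P.La (P.xiX p)) (fun v => P.twX (cQ P.La v)) := by
  have hne : ∀ u : ℂ, P.hd.B ^ 2 < Complex.normSq u → u ≠ 0 := by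
    rintro u hu rfl
    rw [map_zero] at hu
    have := sq_nonneg P.hd.B
    linarith
  refine MH1_tchart P h {u | P.hd.B ^ 2 < Complex.normSq u}
    (isOpen_lt continuous_const WB_cd_normSq.continuous) (fun u => ((‖u‖)⁻¹ : ℝ) * u) ?_ ?_
  · intro u hu
    apply ContDiffAt.contDiffWithinAt
    have h1 : ContDiffAt ℝ ∞ (fun u : ℂ => ‖u‖) u := contDiffAt_id.norm ℝ (hne u hu)
    exact (Complex.ofRealCLM.contDiff.contDiffAt.comp u
      (h1.inv (norm_ne_zero_iff.2 (hne u hu)))).mul contDiffAt_id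
  · intro u hu
    have hu0 : ‖u‖ ≠ 0 := norm_ne_zero_iff.2 (hne u hu)
    show Complex.normSq (((‖u‖⁻¹ : ℝ) : ℂ) * u) = 1
    rw [map_mul, Complex.normSq_ofReal, Complex.normSq_eq_norm_sq]
    field_simp

theorem tchart_XS (P : FPar) (h : P.Ok2) :
    TChart P.La {p | ((fZe p ≠ 0 ∨ fZ p ≠ 0) ∧ fS p < P.La) ∧
        (fS p ≠ 0 ∨ 1 < qsq (fZe p) (fZ p))}
      {v : H7 | v.2.2.1 ≠ 0 ∨ v.2.2.2 ≠ 0}
      (fun p => rQ P.La (P.xiS p)) (fun v => P.twS (cQ P.La v)) := by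
  have hk := MH1_tchart P h univ isOpen_univ (fun _ => 1) contDiffOn_const (fun _ _ => by simp)
  have e1 : (fun p => rQ P.La (P.xiS p)) = fun p => rQ P.La (P.xiW 1 p) := by
    funext p
    rw [xiS_eq]
  have e2 : (fun v => P.twS (cQ P.La v)) = fun v => P.twW 1 (cQ P.La v) := rfl
  rw [e1, e2]
  simpa only [mem_univ, and_true] using hk

end FPar

end

end Pool.Agent.H34.SY
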