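import Pool.Agent.H34.SY.MH1
import Pool.Agent.H34.SY.SF

/-!
# Row MH2: nondegeneracy of the outer forms off `q = 0`

Side `N`: `z ∈ M'`, `B² < |u|²`, `q ≠ 0`.  Chart of `M'`: `TChart.graphN` applied to `tchart_X` (and `graph_N`, with
`τ = tauN`): `ψ w = psiN (twX (cQ La (τ.., w)))`.  The pull-back of `omO0` under `w ↦ twX (cQ La (τ w, w))` is `dd` of
`pb1 (xiN ∘ twX ∘ cQ(τ,·)) lN0 + eps chip etaN`; `xiN ∘ twX ∘ cQ` has the same `t,u,ζ,z,s` as `cQ` (`xiN_eq`, `xiW_twW`), and `lN0` uses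
only `u, ζ, z, s` (so its pull-back is unchanged when the `h`-coordinates differ: both the value and the derivative
components), so this is `lamQ GM ka kr ch ke` (row SH `pb_cQ_N`) with
`ch r = eps (if r < 1 then chi(4La²r/(1+r)²) else 0)`, `ke s = 1/s - ka s`.
`lamQ_nondeg`: the base coefficient is `(kr + s kr') + 2 (ka + s ka') G H + 2 ch (ke + s ke')`, where `ke + s ke' = -(ka + s ka')`
(`s ke = 1 - s ka`), so it is `(kr + s kr') + 2 (ka+ska')(G H - ch) ≥ (kr+skr') - 2 eps (ka+ska') > 0` (`small2`, `0 ≤ ch ≤ eps`, `G H ≥ 0`).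
`GM_props` for `G`.
Side `S`: same with `tchart_XS`, `graph_S`, `tauS`, `pb_cQ_S`, `ch = 0`, `kr = -1`, `ka = 0`.
`nd_mid`: at a point with `-3La/4 < s`, `|u|² ≤ B²`, `q ≠ 0`: near `p` one has `xiN` = identity on `t,u,ζ,z,s`... (`l = 0`: either `s > 0`, or
`|q|² > 1` near) and `chip = 0`, so `omO0 = omN0` near `p` up to this, and `nd_N0` with `graph_mid`.
-/

open Set Topology
open scoped ContDiff ComplexConjugate

namespace Pool.Agent.H34.SY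

namespace FPar

theorem MH2_nd_N {La : ℝ} {X : Set EA} {U : Set FP} {V : Set H7} {ρ : FP → H7} {c : H7 → FP}
    {τ : FP → ℝ} (hc : TChart La U V ρ c) (hτ : ContDiffOn ℝ ∞ τ U)
    (hτt : ∀ p : FP, ∀ t : ℝ, τ (t, p.2) = τ p) (hXW : X ⊆ WS La)
    (hX : ∀ z ∈ WS La, -1 < eW1 z → rhoN z ∈ U → (z ∈ X ↔ eT z = τ (rhoN z)))
    {l : Form1 FP} (hl : ContDiffOn ℝ ∞ l U) {m : Form1 H6}
    (hm : ∀ w : H6, ((0, w) : H7) ∈ V →
      DifferentiableAt ℝ (fun w : H6 => c (τ (c (0, w)), w)) w → c (τ (c (0, w)), w) ∈ U →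
      pb1 (fun w : H6 => c (τ (c (0, w)), w)) l w = m w)
    (hnd : ∀ w : H6, ((0, w) : H7) ∈ V → ∀ a : H6, a ≠ 0 → ∃ b : H6, dd m w a b ≠ 0)
    {z : EA} (hz : z ∈ X) (h1 : -1 < eW1 z) (hU : rhoN z ∈ U) :
    NonDegAt X (pb2 rhoN (dd l)) z := by
  have hch := hc.graphN τ hτ hτt X hXW hX
  have hzU : z ∈ X ∩ ({z | -1 < eW1 z} ∩ rhoN ⁻¹' U) := ⟨hz, h1, hU⟩
  obtain ⟨F, hF⟩ : ∃ F : H6 → FP, F = fun w : H6 => c (τ (c (0, w)), w) := ⟨_, rfl⟩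
  have hψ : (fun w : H6 => psiN (c (τ (c (0, w)), w))) = fun w => psiN (F w) := by rw [hF]
  have hrF : ∀ w, rhoN (psiN (F w)) = F w := fun w => rhoN_psiN _
  rw [hψ] at hch
  have hsF : ContDiffOn ℝ ∞ F {w : H6 | ((0, w) : H7) ∈ V} := by
    have h2 := contDiffOn_rhoN.comp hch.smooth_ψ (fun w hw => (hch.maps_ψ w hw).2.1)
    refine h2.congr ?_
    intro w _
    exact (hrF w).symm
  have hFU : ∀ w : H6, ((0, w) : H7) ∈ V → F w ∈ U := by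
    intro w hw
    have h2 := (hch.maps_ψ w hw).2.2
    rw [mem_preimage, hrF] at h2
    exact h2
  have hoV : IsOpen {w : H6 | ((0, w) : H7) ∈ V} := hch.isOpen_V
  have hoU : IsOpen U := hc.chart.isOpen_U
  have hv := hch.maps_ρ z hzU
  have hleft := hch.left_inv z hzU
  obtain ⟨v, hvd⟩ : ∃ v : H6, v = (ρ (rhoN z)).2 := ⟨_, rfl⟩
  rw [← hvd] at hv hleft
  have hcF : ContDiffAt ℝ ∞ F v := hsF.contDiffAt (hoV.mem_nhds hv)
  have key := nonDegAt_of_chart hch hv (om := pb2 rhoN (dd l)) ?_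
  · rw [hleft] at key
    exact key
  · intro a ha
    obtain ⟨b, hb⟩ := hnd v hv a ha
    refine ⟨b, ?_⟩
    have hdψ : DifferentiableAt ℝ (fun w => psiN (F w)) v :=
      (hch.smooth_ψ.contDiffAt (hoV.mem_nhds hv)).differentiableAt (by simp)
    have hdr : DifferentiableAt ℝ rhoN (psiN (F v)) := by
      have h3 : IsOpen {z : EA | -1 < eW1 z} := isOpen_lt continuous_const WB_cont_W1
      exact (contDiffOn_rhoN.contDiffAt (h3.mem_nhds (hch.maps_ψ v hv).2.1)).differentiableAt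
        (by simp)
    rw [pb2_comp hdψ hdr]
    have e1 : (fun y => rhoN (psiN (F y))) = F := funext hrF
    rw [e1]
    have hFv2 : ContDiffAt ℝ 2 F v := hcF.of_le (by norm_cast)
    have hdl : DifferentiableAt ℝ l (F v) :=
      (hl.contDiffAt (hoU.mem_nhds (hFU v hv))).differentiableAt (by simp)
    rw [← dd_pb1 hFv2 hdl]
    have e2 : pb1 F l =ᶠ[𝓝 v] m := by
      filter_upwards [hoV.mem_nhds hv] with w hw
      have h4 := hm w hw
      rw [← hF] at h4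
      refine h4 ((hsF.contDiffAt (hoV.mem_nhds hw)).differentiableAt (by simp)) ?_
      have h5 := hFU w hw
      rw [hF] at h5
      exact h5
    rw [dd_congr e2]
    exact hb

theorem MH2_nd_S {La : ℝ} {X : Set EA} {U : Set FP} {V : Set H7} {ρ : FP → H7} {c : H7 → FP}
    {τ : FP → ℝ} (hc : TChart La U V ρ c) (hτ : ContDiffOn ℝ ∞ τ U)
    (hτt : ∀ p : FP, ∀ t : ℝ, τ (t, p.2) = τ p) (hXW : X ⊆ WS La)
    (hX : ∀ z ∈ WS La, eW1 z < 1 → rhoS z ∈ U → (z ∈ X ↔ eT z = τ (rhoS z)))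
    {l : Form1 FP} (hl : ContDiffOn ℝ ∞ l U) {m : Form1 H6}
    (hm : ∀ w : H6, ((0, w) : H7) ∈ V →
      DifferentiableAt ℝ (fun w : H6 => c (τ (c (0, w)), w)) w → c (τ (c (0, w)), w) ∈ U →
      pb1 (fun w : H6 => c (τ (c (0, w)), w)) l w = m w)
    (hnd : ∀ w : H6, ((0, w) : H7) ∈ V → ∀ a : H6, a ≠ 0 → ∃ b : H6, dd m w a b ≠ 0)
    {z : EA} (hz : z ∈ X) (h1 : eW1 z < 1) (hU : rhoS z ∈ U) :
    NonDegAt X (pb2 rhoS (dd l)) z := by
  have hch := hc.graphS τ hτ hτt X hXW hX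
  have hzU : z ∈ X ∩ ({z | eW1 z < 1} ∩ rhoS ⁻¹' U) := ⟨hz, h1, hU⟩
  obtain ⟨F, hF⟩ : ∃ F : H6 → FP, F = fun w : H6 => c (τ (c (0, w)), w) := ⟨_, rfl⟩
  have hψ : (fun w : H6 => psiS (c (τ (c (0, w)), w))) = fun w => psiS (F w) := by rw [hF]
  have hrF : ∀ w, rhoS (psiS (F w)) = F w := fun w => rhoS_psiS _
  rw [hψ] at hch
  have hsF : ContDiffOn ℝ ∞ F {w : H6 | ((0, w) : H7) ∈ V} := by
    have h2 := contDiffOn_rhoS.comp hch.smooth_ψ (fun w hw => (hch.maps_ψ w hw).2.1)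
    refine h2.congr ?_
    intro w _
    exact (hrF w).symm
  have hFU : ∀ w : H6, ((0, w) : H7) ∈ V → F w ∈ U := by
    intro w hw
    have h2 := (hch.maps_ψ w hw).2.2
    rw [mem_preimage, hrF] at h2
    exact h2
  have hoV : IsOpen {w : H6 | ((0, w) : H7) ∈ V} := hch.isOpen_V
  have hoU : IsOpen U := hc.chart.isOpen_U
  have hv := hch.maps_ρ z hzU
  have hleft := hch.left_inv z hzU
  obtain ⟨v, hvd⟩ : ∃ v : H6, v = (ρ (rhoS z)).2 := ⟨_, rfl⟩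
  rw [← hvd] at hv hleft
  have hcF : ContDiffAt ℝ ∞ F v := hsF.contDiffAt (hoV.mem_nhds hv)
  have key := nonDegAt_of_chart hch hv (om := pb2 rhoS (dd l)) ?_
  · rw [hleft] at key
    exact key
  · intro a ha
    obtain ⟨b, hb⟩ := hnd v hv a ha
    refine ⟨b, ?_⟩
    have hdψ : DifferentiableAt ℝ (fun w => psiS (F w)) v :=
      (hch.smooth_ψ.contDiffAt (hoV.mem_nhds hv)).differentiableAt (by simp)
    have hdr : DifferentiableAt ℝ rhoS (psiS (F v)) := by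
      have h3 : IsOpen {z : EA | eW1 z < 1} := isOpen_lt WB_cont_W1 continuous_const
      exact (contDiffOn_rhoS.contDiffAt (h3.mem_nhds (hch.maps_ψ v hv).2.1)).differentiableAt
        (by simp)
    rw [pb2_comp hdψ hdr]
    have e1 : (fun y => rhoS (psiS (F y))) = F := funext hrF
    rw [e1]
    have hFv2 : ContDiffAt ℝ 2 F v := hcF.of_le (by norm_cast)
    have hdl : DifferentiableAt ℝ l (F v) :=
      (hl.contDiffAt (hoU.mem_nhds (hFU v hv))).differentiableAt (by simp)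
    rw [← dd_pb1 hFv2 hdl]
    have e2 : pb1 F l =ᶠ[𝓝 v] m := by
      filter_upwards [hoV.mem_nhds hv] with w hw
      have h4 := hm w hw
      rw [← hF] at h4
      refine h4 ((hsF.contDiffAt (hoV.mem_nhds hw)).differentiableAt (by simp)) ?_
      have h5 := hFU w hw
      rw [hF] at h5
      exact h5
    rw [dd_congr e2]
    exact hb

/-- `Im (c̄ dc)` pulled back depends only on the germ of the coordinate. -/
theorem MH2_imF {F G : H6 → FP} {w : H6} (c : FP →L[ℝ] ℂ) (hF : DifferentiableAt ℝ F w)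
    (hG : DifferentiableAt ℝ G w) (h : ∀ᶠ y in 𝓝 w, c (F y) = c (G y)) (a : H6) :
    imF c (F w) (fderiv ℝ F w a) = imF c (G w) (fderiv ℝ G w a) := by
  rw [SH_pb F c w a hF, SH_pb G c w a hG]
  unfold SH_I
  have h1 : (fun v => c (F v)) =ᶠ[𝓝 w] fun v => c (G v) := h
  have h2 : c (F w) = c (G w) := h.self_of_nhds
  rw [h1.fderiv_eq]
  show (conj (c (F w)) * _).im = (conj (c (G w)) * _).im
  rw [h2]

theorem MH2_lN0 (P : FPar) {F G : H6 → FP} {w : H6} (hF : DifferentiableAt ℝ F w)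
    (hG : DifferentiableAt ℝ G w) (hU : ∀ᶠ y in 𝓝 w, fU (F y) = fU (G y))
    (hZe : ∀ᶠ y in 𝓝 w, fZe (F y) = fZe (G y)) (hZ : ∀ᶠ y in 𝓝 w, fZ (F y) = fZ (G y))
    (hS : fS (F w) = fS (G w)) : pb1 F P.lN0 w = pb1 G P.lN0 w := by
  refine ContinuousLinearMap.ext fun a => ?_
  have e1 := MH2_imF pU hF hG hU a
  have e2 := MH2_imF pZe hF hG hZe a
  have e3 := MH2_imF pZ hF hG hZ a
  have f1 := hU.self_of_nhds
  have f2 := hZe.self_of_nhds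
  have f3 := hZ.self_of_nhds
  have f4 : P.F0 (F w) = P.F0 (G w) := by
    unfold F0 chip
    rw [f2, f3, hS]
  show P.F0 (F w) * ((qsq (fZe (F w)) (fZ (F w)))⁻¹ *
      (imF pZe (F w) (fderiv ℝ F w a) + imF pZ (F w) (fderiv ℝ F w a)) +
      Complex.normSq (fZ (F w)) / qsq (fZe (F w)) (fZ (F w)) *
      (P.ka (Complex.normSq (fU (F w))) * imF pU (F w) (fderiv ℝ F w a))) +
      P.kr (Complex.normSq (fU (F w))) / 2 * imF pU (F w) (fderiv ℝ F w a) =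
    P.F0 (G w) * ((qsq (fZe (G w)) (fZ (G w)))⁻¹ *
      (imF pZe (G w) (fderiv ℝ G w a) + imF pZ (G w) (fderiv ℝ G w a)) +
      Complex.normSq (fZ (G w)) / qsq (fZe (G w)) (fZ (G w)) *
      (P.ka (Complex.normSq (fU (G w))) * imF pU (G w) (fderiv ℝ G w a))) +
      P.kr (Complex.normSq (fU (G w))) / 2 * imF pU (G w) (fderiv ℝ G w a)
  rw [e1, e2, e3, f1, f2, f3, f4]

theorem MH2_lS0 (P : FPar) {F G : H6 → FP} {w : H6} (hF : DifferentiableAt ℝ F w)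
    (hG : DifferentiableAt ℝ G w) (hU : ∀ᶠ y in 𝓝 w, fU (F y) = fU (G y))
    (hZe : ∀ᶠ y in 𝓝 w, fZe (F y) = fZe (G y)) (hZ : ∀ᶠ y in 𝓝 w, fZ (F y) = fZ (G y))
    (hS : fS (F w) = fS (G w)) : pb1 F P.lS0 w = pb1 G P.lS0 w := by
  refine ContinuousLinearMap.ext fun a => ?_
  have e1 := MH2_imF pU hF hG hU a
  have e2 := MH2_imF pZe hF hG hZe a
  have e3 := MH2_imF pZ hF hG hZ a
  have f1 := hU.self_of_nhds
  have f2 := hZe.self_of_nhds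
  have f3 := hZ.self_of_nhds
  have f4 : P.F0 (F w) = P.F0 (G w) := by
    unfold F0 chip
    rw [f2, f3, hS]
  show P.F0 (F w) * ((qsq (fZe (F w)) (fZ (F w)))⁻¹ *
      (imF pZe (F w) (fderiv ℝ F w a) + imF pZ (F w) (fderiv ℝ F w a))) +
      (-(1 / 2)) * imF pU (F w) (fderiv ℝ F w a) =
    P.F0 (G w) * ((qsq (fZe (G w)) (fZ (G w)))⁻¹ *
      (imF pZe (G w) (fderiv ℝ G w a) + imF pZ (G w) (fderiv ℝ G w a))) +
      (-(1 / 2)) * imF pU (G w) (fderiv ℝ G w a)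
  rw [e1, e2, e3, f2, f3, f4]

theorem MH2_wu {p : FP} (h : fU p ≠ 0) : Complex.normSq (wu p) = 1 := by
  unfold wu
  rw [Complex.normSq_mul, Complex.normSq_ofReal, Complex.normSq_eq_norm_sq]
  have h1 : ‖fU p‖ ≠ 0 := norm_ne_zero_iff.2 h
  field_simp

/-- Recovering a map from the chart. -/
def MH2_rec (La : ℝ) (p : FP) (v : H7) : FP :=
  (fT p, fU p, fH0 p, fH p, ((La - fS p : ℝ) : ℂ) * v.2.2.1, ((La - fS p : ℝ) : ℂ) * v.2.2.2, fS p)

theorem MH2_rec_smooth {La : ℝ} {U : Set FP} {ρ : FP → H7} (hρ : ContDiffOn ℝ ∞ ρ U) :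
    ContDiffOn ℝ ∞ (fun p => MH2_rec La p (ρ p)) U := by
  have hT : ContDiff ℝ ∞ (fun p : FP => fT p) := contDiff_fst
  have hH : ContDiff ℝ ∞ (fun p : FP => fH p) :=
    contDiff_fst.comp (contDiff_snd.comp (contDiff_snd.comp contDiff_snd))
  have hs : ContDiff ℝ ∞ (fun p : FP => ((La - fS p : ℝ) : ℂ)) :=
    Complex.ofRealCLM.contDiff.comp (contDiff_const.sub SD1_S)
  have h2 : ContDiffOn ℝ ∞ (fun p => (ρ p).2.2.1) U :=
    (contDiff_fst.comp (contDiff_snd.comp contDiff_snd)).comp_contDiffOn hρ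
  have h3 : ContDiffOn ℝ ∞ (fun p => (ρ p).2.2.2) U :=
    (contDiff_snd.comp (contDiff_snd.comp contDiff_snd)).comp_contDiffOn hρ
  exact hT.contDiffOn.prodMk (SD1_U.contDiffOn.prodMk (SD1_H0.contDiffOn.prodMk
    (hH.contDiffOn.prodMk ((hs.contDiffOn.mul h2).prodMk ((hs.contDiffOn.mul h3).prodMk
      SD1_S.contDiffOn)))))

theorem MH2_rec_xi (P : FPar) (w : ℂ) {p : FP} (hs : fS p < P.La) :
    MH2_rec P.La p (rQ P.La (P.xiW w p)) = P.xiW w p := by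
  have h1 : ((P.La - fS p : ℝ) : ℂ) ≠ 0 := by
    rw [Ne, Complex.ofReal_eq_zero]
    exact sub_ne_zero.2 hs.ne'
  have h2 : ∀ x : ℂ, ((P.La - fS p : ℝ) : ℂ) * ((((P.La - fS p)⁻¹ : ℝ) : ℂ) * x) = x := by
    intro x
    rw [← mul_assoc, ← Complex.ofReal_mul, mul_inv_cancel₀ (sub_ne_zero.2 hs.ne'),
      Complex.ofReal_one, one_mul]
  show (fT p, fU p, fH0 p, fH p, ((P.La - fS p : ℝ) : ℂ) * ((((P.La - fS p)⁻¹ : ℝ) : ℂ) *
      fZe (P.xiW w p)), ((P.La - fS p : ℝ) : ℂ) * ((((P.La - fS p)⁻¹ : ℝ) : ℂ) *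
      fZ (P.xiW w p)), fS p) = P.xiW w p
  rw [h2, h2]
  rfl

/-- The coefficient of the blow-up term. -/
noncomputable def MH2_ch (P : FPar) (r : ℝ) : ℝ :=
  P.eps * (if r < 1 then P.chi (4 * P.La ^ 2 * r / (1 + r) ^ 2) else 0)

noncomputable def MH2_ke (P : FPar) (s : ℝ) : ℝ := 1 / s - P.ka s

theorem MH2_chip (P : FPar) (h : P.Ok0) (t : ℝ) (w : H6) (hw : w.2.1 ≠ 0 ∨ w.2.2 ≠ 0) :
    P.eps * P.chip (cQ P.La (t, w)) = P.MH2_ch (qsq w.2.1 w.2.2) := by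
  have h1 := P.SH_F0Q h t w hw
  have hS : fS (cQ P.La (t, w)) = P.La * (qsq w.2.1 w.2.2 - 1) / (qsq w.2.1 w.2.2 + 1) := rfl
  unfold F0 GM at h1
  rw [hS] at h1
  unfold MH2_ch
  linarith

theorem MH2_ch_smooth (P : FPar) (h : P.Ok1) {r : ℝ} (hr : 0 < r) :
    ContDiffAt ℝ ∞ P.MH2_ch r := by
  have hLa0 : 0 < P.La := by linarith [h.La]
  have h1 := (P.GM_props h r hr).1
  have h2 : ContDiffAt ℝ ∞ (fun y => P.f0 (P.SI_s y)) r :=
    ContDiffAt.comp r (P.f0_props hLa0).1.contDiffAt (P.SI_s_smooth hr)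
  have h3 : P.MH2_ch = fun y => P.GM y - P.f0 (P.SI_s y) := by
    funext y
    unfold MH2_ch GM SI_s
    ring
  rw [h3]
  exact h1.sub h2

theorem MH2_ch_bd (P : FPar) (h : P.Ok1) (r : ℝ) : 0 ≤ P.MH2_ch r ∧ P.MH2_ch r ≤ P.eps := by
  have h1 := (P.chi_props h.r0).2.2.2.1
  have h2 := h.eps
  unfold MH2_ch
  split_ifs
  · have h3 := h1 (4 * P.La ^ 2 * r / (1 + r) ^ 2)
    constructor
    · exact mul_nonneg h2.le h3.1
    · have := mul_le_mul_of_nonneg_left h3.2 h2.le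
      linarith
  · rw [mul_zero]
    exact ⟨le_refl _, h2.le⟩

theorem MH2_ke_smooth (P : FPar) (h : P.Ok1) {s : ℝ} (hs : s ≠ 0) :
    ContDiffAt ℝ ∞ P.MH2_ke s ∧ P.MH2_ke s + s * deriv P.MH2_ke s =
      -(P.ka s + s * deriv P.ka s) := by
  have h1 := (P.ka_props h.Ta).1
  have h2 : HasDerivAt P.ka (deriv P.ka s) s :=
    (h1.differentiable (by simp)).differentiableAt.hasDerivAt
  have h3 : HasDerivAt (fun s : ℝ => 1 / s) (-(s ^ 2)⁻¹) s := by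
    simpa [one_div] using hasDerivAt_inv hs
  have h4 : HasDerivAt P.MH2_ke (-(s ^ 2)⁻¹ - deriv P.ka s) s := h3.sub h2
  refine ⟨(contDiffAt_const.div contDiffAt_id hs).sub h1.contDiffAt, ?_⟩
  rw [h4.deriv]
  unfold MH2_ke
  field_simp
  ring

theorem MH2_coef (P : FPar) (h : P.Ok1) (w : H6) (hw : w.2.1 ≠ 0 ∨ w.2.2 ≠ 0)
    (hu : Complex.normSq w.1 ≠ 0) :
    (P.kr (Complex.normSq w.1) + Complex.normSq w.1 * deriv P.kr (Complex.normSq w.1))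
      + 2 * (P.ka (Complex.normSq w.1) + Complex.normSq w.1 * deriv P.ka (Complex.normSq w.1))
        * P.GM (qsq w.2.1 w.2.2) * (Complex.normSq w.2.2 / qsq w.2.1 w.2.2)
      + 2 * P.MH2_ch (qsq w.2.1 w.2.2)
        * (P.MH2_ke (Complex.normSq w.1)
          + Complex.normSq w.1 * deriv P.MH2_ke (Complex.normSq w.1)) ≠ 0 := by
  have hr : 0 < qsq w.2.1 w.2.2 := SH_rpos hw
  obtain ⟨c0, c1⟩ := P.MH2_ch_bd h (qsq w.2.1 w.2.2)
  have h1 := (P.GM_props h _ hr).2.1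
  have h2 := Complex.normSq_nonneg w.1
  have h3 := h.small2 _ h2
  have h4 := (P.ka_props h.Ta).2.2.2.1 _ h2
  rw [(P.MH2_ke_smooth h hu).2]
  have h5 : 0 ≤ P.GM (qsq w.2.1 w.2.2) * (Complex.normSq w.2.2 / qsq w.2.1 w.2.2) :=
    mul_nonneg h1.le (div_nonneg (Complex.normSq_nonneg _) hr.le)
  generalize P.ka (Complex.normSq w.1) + Complex.normSq w.1 * deriv P.ka (Complex.normSq w.1) = K
    at h3 h4 ⊢
  generalize P.kr (Complex.normSq w.1) + Complex.normSq w.1 * deriv P.kr (Complex.normSq w.1) = R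
    at h3 ⊢
  generalize P.MH2_ch (qsq w.2.1 w.2.2) = c at c0 c1 ⊢
  have h6 := mul_nonneg h4 h5
  have h7 := mul_le_mul_of_nonneg_right c1 h4
  have h8 : R + 2 * K * P.GM (qsq w.2.1 w.2.2) * (Complex.normSq w.2.2 / qsq w.2.1 w.2.2) +
      2 * c * -K = R - 2 * (c * K) + 2 * (K * (P.GM (qsq w.2.1 w.2.2) *
        (Complex.normSq w.2.2 / qsq w.2.1 w.2.2))) := by ring
  rw [h8]
  apply ne_of_gt
  linarith

theorem MH2_xiN_smooth (P : FPar) (h : P.Ok2) :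
    ContDiffOn ℝ ∞ P.xiN {p | ((fZe p ≠ 0 ∨ fZ p ≠ 0) ∧ fS p < P.La) ∧
        ((fS p ≠ 0 ∨ 1 < qsq (fZe p) (fZ p)) ∧ P.hd.B ^ 2 < Complex.normSq (fU p))} := by
  refine (MH2_rec_smooth (La := P.La) (P.tchart_X h).chart.smooth_ρ).congr ?_
  intro p hp
  have h1 := P.MH2_rec_xi (wu p) hp.1.2
  rw [P.xiN_eq hp.2.2.le]
  exact h1.symm

theorem MH2_B (P : FPar) : 0 < P.hd.B := by
  have h1 := P.hd.hL
  have h2 := P.hd.hLB
  linarith

theorem MH2_fU {P : FPar} {p : FP} (h : P.hd.B ^ 2 < Complex.normSq (fU p)) : fU p ≠ 0 := by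
  intro h0
  rw [h0, map_zero] at h
  have := sq_nonneg P.hd.B
  linarith

theorem MH2_xiN_q (P : FPar) {p : FP} (hu : P.hd.B ^ 2 < Complex.normSq (fU p)) :
    qsq (fZe (P.xiN p)) (fZ (P.xiN p)) = qsq (fZe p) (fZ p) := by
  rw [P.xiN_eq hu.le]
  exact (P.xiW_qsq (wu p) (MH2_wu (MH2_fU hu)) p).1

theorem MH2_q_iff {p : FP} : (fZe p ≠ 0 ∨ fZ p ≠ 0) ↔ 0 < qsq (fZe p) (fZ p) := by
  constructor
  · exact SD1_qsq_pos
  · intro h
    by_contra hc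
    push Not at hc
    rw [hc.1, hc.2] at h
    simp [qsq] at h

/-- The primitive of the outer form on the side `N`. -/
noncomputable def MH2_l (P : FPar) : Form1 FP :=
  fun p => pb1 P.xiN P.lN0 p + (P.eps * P.chip p) • P.etaN p

theorem MH2_l_smooth (P : FPar) (h : P.Ok2) :
    ContDiffOn ℝ ∞ P.MH2_l {p | ((fZe p ≠ 0 ∨ fZ p ≠ 0) ∧ fS p < P.La) ∧
        ((fS p ≠ 0 ∨ 1 < qsq (fZe p) (fZ p)) ∧ P.hd.B ^ 2 < Complex.normSq (fU p))} := by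
  have ho : IsOpen {p : FP | ((fZe p ≠ 0 ∨ fZ p ≠ 0) ∧ fS p < P.La) ∧
        ((fS p ≠ 0 ∨ 1 < qsq (fZe p) (fZ p)) ∧ P.hd.B ^ 2 < Complex.normSq (fU p))} :=
    (P.tchart_X h).chart.isOpen_U
  have h0 : P.Ok0 := h.toOk1.toOk0
  have hr1 : P.r0 ^ 2 ≤ 1 := by
    have := h.r0
    have := h.r1
    nlinarith
  have hsub : ∀ p : FP, p ∈ {p : FP | ((fZe p ≠ 0 ∨ fZ p ≠ 0) ∧ fS p < P.La) ∧
        ((fS p ≠ 0 ∨ 1 < qsq (fZe p) (fZ p)) ∧ P.hd.B ^ 2 < Complex.normSq (fU p))} →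
        p ∈ P.Dq := by
    intro p hp
    refine ⟨hp.1.1, ?_⟩
    rcases hp.2.1 with h2 | h2
    · exact Or.inl h2
    · exact Or.inr (by linarith)
  have hA : ContDiffOn ℝ ∞ (pb1 P.xiN P.lN0) {p : FP | ((fZe p ≠ 0 ∨ fZ p ≠ 0) ∧ fS p < P.La) ∧
        ((fS p ≠ 0 ∨ 1 < qsq (fZe p) (fZ p)) ∧ P.hd.B ^ 2 < Complex.normSq (fU p))} := by
    refine contDiffOn_pb1 ho (P.MH2_xiN_smooth h) (P.smooth_lN0 h0) ?_
    intro p hp
    have h2 := P.MH2_xiN_q hp.2.2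
    have h3 : fS (P.xiN p) = fS p := rfl
    refine ⟨?_, ?_⟩
    · rw [MH2_q_iff, h2, ← MH2_q_iff]
      exact hp.1.1
    · rw [h2, h3]
      exact (hsub p hp).2
  have hB : ContDiffOn ℝ ∞ (fun p => P.eps * P.chip p) {p : FP | ((fZe p ≠ 0 ∨ fZ p ≠ 0) ∧
        fS p < P.La) ∧ ((fS p ≠ 0 ∨ 1 < qsq (fZe p) (fZ p)) ∧
        P.hd.B ^ 2 < Complex.normSq (fU p))} :=
    contDiffOn_const.mul ((P.SD1_chip h0).mono hsub)
  have hC : ContDiffOn ℝ ∞ P.etaN {p : FP | ((fZe p ≠ 0 ∨ fZ p ≠ 0) ∧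
        fS p < P.La) ∧ ((fS p ≠ 0 ∨ 1 < qsq (fZe p) (fZ p)) ∧
        P.hd.B ^ 2 < Complex.normSq (fU p))} := by
    have h5 : ContDiffOn ℝ ∞ (fun p : FP => 1 / Complex.normSq (fU p)
        - P.ka (Complex.normSq (fU p))) {p : FP | ((fZe p ≠ 0 ∨ fZ p ≠ 0) ∧
        fS p < P.La) ∧ ((fS p ≠ 0 ∨ 1 < qsq (fZe p) (fZ p)) ∧
        P.hd.B ^ 2 < Complex.normSq (fU p))} := by
      refine ContDiffOn.sub (contDiffOn_const.div SD1_nU.contDiffOn ?_)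
        ((P.ka_props h.Ta).1.comp SD1_nU).contDiffOn
      intro p hp h6
      have h7 := hp.2.2
      rw [h6] at h7
      have := sq_nonneg P.hd.B
      linarith
    exact h5.smul (contDiff_imF pU).contDiffOn
  exact hA.add (hB.smul hC)

theorem MH2_hm (P : FPar) (h : P.Ok2) (τ : H6 → ℝ) (w : H6)
    (hw : (w.2.1 ≠ 0 ∨ w.2.2 ≠ 0) ∧ P.hd.B ^ 2 < Complex.normSq w.1)
    (hd : DifferentiableAt ℝ (fun w : H6 => P.twX (cQ P.La (τ w, w))) w)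
    (hUm : P.twX (cQ P.La (τ w, w)) ∈ {p : FP | ((fZe p ≠ 0 ∨ fZ p ≠ 0) ∧ fS p < P.La) ∧
        ((fS p ≠ 0 ∨ 1 < qsq (fZe p) (fZ p)) ∧ P.hd.B ^ 2 < Complex.normSq (fU p))}) :
    pb1 (fun w : H6 => P.twX (cQ P.La (τ w, w))) P.MH2_l w =
      lamQ P.GM P.ka P.kr P.MH2_ch P.MH2_ke w := by
  have ho : IsOpen {p : FP | ((fZe p ≠ 0 ∨ fZ p ≠ 0) ∧ fS p < P.La) ∧
        ((fS p ≠ 0 ∨ 1 < qsq (fZe p) (fZ p)) ∧ P.hd.B ^ 2 < Complex.normSq (fU p))} :=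
    (P.tchart_X h).chart.isOpen_U
  have h0 : P.Ok0 := h.toOk1.toOk0
  obtain ⟨F, hF⟩ : ∃ F : H6 → FP, F = fun w : H6 => P.twX (cQ P.La (τ w, w)) := ⟨_, rfl⟩
  rw [← hF] at hd ⊢
  have hFw : F w = P.twX (cQ P.La (τ w, w)) := by rw [hF]
  have hτ : DifferentiableAt ℝ τ w := by
    have h1 : τ = fun w => (F w).1 := by
      rw [hF]
      rfl
    rw [h1]
    exact hd.fst
  have hdx : DifferentiableAt ℝ P.xiN (F w) := by
    rw [hFw]
    exact ((P.MH2_xiN_smooth h).contDiffAt (ho.mem_nhds hUm)).differentiableAt (by simp)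
  have hdc : DifferentiableAt ℝ (fun w : H6 => cQ P.La (τ w, w)) w := SH_dQ P.La τ w hw.1 hτ
  have hdx2 : DifferentiableAt ℝ (fun y => P.xiN (F y)) w := hdx.comp w hd
  -- nearby points
  have hev : ∀ᶠ y : H6 in 𝓝 w, P.hd.B ^ 2 < Complex.normSq y.1 := by
    have h1 : Continuous fun y : H6 => Complex.normSq y.1 :=
      Complex.continuous_normSq.comp continuous_fst
    exact (isOpen_lt continuous_const h1).mem_nhds hw.2
  have hq : ∀ y : H6, P.hd.B ^ 2 < Complex.normSq y.1 →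
      fZe (P.xiN (F y)) = fZe (cQ P.La (τ y, y)) ∧ fZ (P.xiN (F y)) = fZ (cQ P.La (τ y, y)) := by
    intro y hy
    have h1 : P.hd.B ^ 2 < Complex.normSq (fU (cQ P.La (τ y, y))) := hy
    have h2 : P.hd.B ^ 2 ≤ Complex.normSq (fU (F y)) := by
      rw [hF]
      exact hy.le
    have h3 := P.xiW_twW (wu (cQ P.La (τ y, y))) (MH2_wu (MH2_fU h1)) (cQ P.La (τ y, y))
    rw [P.xiN_eq h2, hF]
    exact ⟨h3.1, h3.2.1⟩
  have e1 : pb1 F (pb1 P.xiN P.lN0) w = lamQ P.GM P.ka P.kr 0 0 w := by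
    rw [pb1_comp hd hdx, ← P.pb_cQ_N h0 τ w hw.1 hτ]
    refine P.MH2_lN0 hdx2 hdc ?_ ?_ ?_ ?_
    · refine Filter.Eventually.of_forall fun y => ?_
      rw [hF]
      rfl
    · filter_upwards [hev] with y hy
      exact (hq y hy).1
    · filter_upwards [hev] with y hy
      exact (hq y hy).2
    · rw [hF]
      rfl
  have e2 : P.eps * P.chip (F w) = P.MH2_ch (qsq w.2.1 w.2.2) := by
    rw [← P.MH2_chip h0 (τ w) w hw.1, hFw]
    have h1 : P.hd.B ^ 2 < Complex.normSq (fU (cQ P.La (τ w, w))) := hw.2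
    have h3 := (P.xiW_qsq (wu (cQ P.La (τ w, w))) (MH2_wu (MH2_fU h1)) (cQ P.La (τ w, w))).2
    congr 1
    unfold chip
    have h4 : fS (P.twX (cQ P.La (τ w, w))) = fS (cQ P.La (τ w, w)) := rfl
    have h5 : qsq (fZe (P.twX (cQ P.La (τ w, w)))) (fZ (P.twX (cQ P.La (τ w, w)))) =
      qsq (fZe (cQ P.La (τ w, w))) (fZ (cQ P.La (τ w, w))) := h3
    rw [h4, h5]
  have e3 : ∀ a, P.etaN (F w) (fderiv ℝ F w a) =
      P.MH2_ke (Complex.normSq w.1) * imF hU w a := by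
    intro a
    have h1 := MH2_imF pU hd hdc (Filter.Eventually.of_forall fun y => by rw [hF]; rfl) a
    have h2 : imF pU (cQ P.La (τ w, w)) (fderiv ℝ (fun w : H6 => cQ P.La (τ w, w)) w a) =
        imF hU w a := (SH_pb _ pU w a hdc).trans (SH_Q_U P.La τ w a)
    have h3 : fU (F w) = w.1 := by rw [hF]; rfl
    show (1 / Complex.normSq (fU (F w)) - P.ka (Complex.normSq (fU (F w)))) *
      imF pU (F w) (fderiv ℝ F w a) = _
    rw [h1, h2, h3]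
    rfl
  refine ContinuousLinearMap.ext fun a => ?_
  have e4 := congrArg (fun L : H6 →L[ℝ] ℝ => L a) e1
  have e5 : pb1 F P.MH2_l w a = pb1 F (pb1 P.xiN P.lN0) w a +
      P.eps * P.chip (F w) * P.etaN (F w) (fderiv ℝ F w a) := rfl
  rw [e5, e2, e3]
  have e6 : pb1 F (pb1 P.xiN P.lN0) w a = lamQ P.GM P.ka P.kr 0 0 w a := e4
  rw [e6]
  show (P.GM (qsq w.2.1 w.2.2) / qsq w.2.1 w.2.2) * (imF hA w a + imF hB w a +
      (Complex.normSq w.2.2 * P.ka (Complex.normSq w.1)) * imF hU w a)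
    + (P.kr (Complex.normSq w.1) / 2) * imF hU w a
    + (0 * 0) * imF hU w a + P.MH2_ch (qsq w.2.1 w.2.2) *
      (P.MH2_ke (Complex.normSq w.1) * imF hU w a) =
    (P.GM (qsq w.2.1 w.2.2) / qsq w.2.1 w.2.2) * (imF hA w a + imF hB w a +
      (Complex.normSq w.2.2 * P.ka (Complex.normSq w.1)) * imF hU w a)
    + (P.kr (Complex.normSq w.1) / 2) * imF hU w a
    + (P.MH2_ch (qsq w.2.1 w.2.2) * P.MH2_ke (Complex.normSq w.1)) * imF hU w a
  ring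

theorem nd_O0 (P : FPar) (h : P.Ok2) {z : EA} (hz : z ∈ P.toPar.M') (h1 : -1 < eW1 z)
    (hq : fZe (rhoN z) ≠ 0 ∨ fZ (rhoN z) ≠ 0)
    (hu : P.hd.B ^ 2 < Complex.normSq (fU (rhoN z))) : NonDegAt P.toPar.M' (pb2 rhoN P.omO0) z := by
  obtain ⟨g1, g2, g3, g4, g5, g6⟩ := P.graph_N h
  have hp := (rhoN_mem hz.1 h1).1
  have hb := FPS_bounds (by linarith [h.La]) hp
  have hsW : ∀ p : FP, p ∈ {p : FP | ((fZe p ≠ 0 ∨ fZ p ≠ 0) ∧ fS p < P.La) ∧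
        ((fS p ≠ 0 ∨ 1 < qsq (fZe p) (fZ p)) ∧ P.hd.B ^ 2 < Complex.normSq (fU p))} →
        p ∈ {p : FP | P.hd.B ^ 2 < Complex.normSq (fU p) ∧
          (fS p ≠ 0 ∨ 1 < qsq (fZe p) (fZ p))} := fun p hp => ⟨hp.2.2, hp.2.1⟩
  have hqp : 0 < qsq (fZe (rhoN z)) (fZ (rhoN z)) := SD1_qsq_pos hq
  have hU : rhoN z ∈ {p : FP | ((fZe p ≠ 0 ∨ fZ p ≠ 0) ∧ fS p < P.La) ∧
        ((fS p ≠ 0 ∨ 1 < qsq (fZe p) (fZ p)) ∧ P.hd.B ^ 2 < Complex.normSq (fU p))} := by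
    refine ⟨⟨hq, ?_⟩, ?_, hu⟩
    · have h2 : fS (rhoN z) ^ 2 < P.La ^ 2 := by linarith [hb.1]
      exact lt_of_pow_lt_pow_left₀ 2 (by linarith [h.La]) h2
    · by_cases h2 : fS (rhoN z) = 0
      · right
        rw [hb.1, h2]
        have := h.La
        nlinarith
      · exact Or.inl h2
  refine MH2_nd_N (τ := P.tauN) (P.tchart_X h) (g4.mono hsW) g5 g1
    (fun y hy hy1 hy2 => g6 y hy hy1 (hsW _ hy2)) (l := P.MH2_l) (P.MH2_l_smooth h)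
    (m := lamQ P.GM P.ka P.kr P.MH2_ch P.MH2_ke) ?_ ?_ hz h1 hU
  · intro w hw hd hFU
    exact P.MH2_hm h (fun w => P.tauN (P.twX (cQ P.La (0, w)))) w hw hd hFU
  · intro w hw a ha
    have hw1 : w.2.1 ≠ 0 ∨ w.2.2 ≠ 0 := hw.1
    have hw2 : P.hd.B ^ 2 < Complex.normSq w.1 := hw.2
    have hs : Complex.normSq w.1 ≠ 0 := by
      have := sq_nonneg P.hd.B
      linarith
    have hr : 0 < qsq w.2.1 w.2.2 := SH_rpos hw1
    exact lamQ_nondeg P.GM P.ka P.kr P.MH2_ch P.MH2_ke w hw1 (P.GM_props h.toOk1 _ hr).1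
      (P.ka_props h.Ta).1 (P.kr_props h.Ta).1 (P.MH2_ch_smooth h.toOk1 hr)
      (P.MH2_ke_smooth h.toOk1 hs).1 (P.GM_props h.toOk1 _ hr).2.1 (P.GM_props h.toOk1 _ hr).2.2
      (P.MH2_coef h.toOk1 w hw1 hs) a ha

theorem MH2_xiS_smooth (P : FPar) (h : P.Ok2) :
    ContDiffOn ℝ ∞ P.xiS {p | ((fZe p ≠ 0 ∨ fZ p ≠ 0) ∧ fS p < P.La) ∧
        (fS p ≠ 0 ∨ 1 < qsq (fZe p) (fZ p))} := by
  refine (MH2_rec_smooth (La := P.La) (P.tchart_XS h).chart.smooth_ρ).congr ?_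
  intro p hp
  have h1 := P.MH2_rec_xi 1 hp.1.2
  rw [← P.xiS_eq] at h1
  exact h1.symm

theorem MH2_lS_smooth (P : FPar) (h : P.Ok2) :
    ContDiffOn ℝ ∞ (pb1 P.xiS P.lS0) {p | ((fZe p ≠ 0 ∨ fZ p ≠ 0) ∧ fS p < P.La) ∧
        (fS p ≠ 0 ∨ 1 < qsq (fZe p) (fZ p))} := by
  have h0 : P.Ok0 := h.toOk1.toOk0
  have hr1 : P.r0 ^ 2 ≤ 1 := by
    have := h.r0
    have := h.r1
    nlinarith
  refine contDiffOn_pb1 (P.tchart_XS h).chart.isOpen_U (P.MH2_xiS_smooth h) (P.smooth_lS0 h0) ?_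
  intro p hp
  have h2 : qsq (fZe (P.xiS p)) (fZ (P.xiS p)) = qsq (fZe p) (fZ p) := by
    rw [P.xiS_eq]
    exact (P.xiW_qsq 1 (map_one _) p).1
  have h3 : fS (P.xiS p) = fS p := rfl
  refine ⟨?_, ?_⟩
  · rw [MH2_q_iff, h2, ← MH2_q_iff]
    exact hp.1.1
  · rw [h2, h3]
    rcases hp.2 with h4 | h4
    · exact Or.inl h4
    · exact Or.inr (by linarith)

theorem MH2_hmS (P : FPar) (h : P.Ok2) (τ : H6 → ℝ) (w : H6)
    (hw : w.2.1 ≠ 0 ∨ w.2.2 ≠ 0)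
    (hd : DifferentiableAt ℝ (fun w : H6 => P.twS (cQ P.La (τ w, w))) w)
    (hU : P.twS (cQ P.La (τ w, w)) ∈ {p : FP | ((fZe p ≠ 0 ∨ fZ p ≠ 0) ∧ fS p < P.La) ∧
        (fS p ≠ 0 ∨ 1 < qsq (fZe p) (fZ p))}) :
    pb1 (fun w : H6 => P.twS (cQ P.La (τ w, w))) (pb1 P.xiS P.lS0) w =
      lamQ P.GM 0 (fun _ => -1) 0 0 w := by
  have ho : IsOpen {p : FP | ((fZe p ≠ 0 ∨ fZ p ≠ 0) ∧ fS p < P.La) ∧
        (fS p ≠ 0 ∨ 1 < qsq (fZe p) (fZ p))} := (P.tchart_XS h).chart.isOpen_U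
  have h0 : P.Ok0 := h.toOk1.toOk0
  obtain ⟨F, hF⟩ : ∃ F : H6 → FP, F = fun w : H6 => P.twS (cQ P.La (τ w, w)) := ⟨_, rfl⟩
  rw [← hF] at hd ⊢
  have hFw : F w = P.twS (cQ P.La (τ w, w)) := by rw [hF]
  have hτ : DifferentiableAt ℝ τ w := by
    have h1 : τ = fun w => (F w).1 := by
      rw [hF]
      rfl
    rw [h1]
    exact hd.fst
  have hdx : DifferentiableAt ℝ P.xiS (F w) := by
    rw [hFw]
    exact ((P.MH2_xiS_smooth h).contDiffAt (ho.mem_nhds hU)).differentiableAt (by simp)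
  have hdc : DifferentiableAt ℝ (fun w : H6 => cQ P.La (τ w, w)) w := SH_dQ P.La τ w hw hτ
  have hdx2 : DifferentiableAt ℝ (fun y => P.xiS (F y)) w := hdx.comp w hd
  have hq : ∀ y : H6,
      fZe (P.xiS (F y)) = fZe (cQ P.La (τ y, y)) ∧ fZ (P.xiS (F y)) = fZ (cQ P.La (τ y, y)) := by
    intro y
    have h3 := P.xiW_twW 1 (map_one _) (cQ P.La (τ y, y))
    rw [P.xiS_eq, hF]
    exact ⟨h3.1, h3.2.1⟩
  rw [pb1_comp hd hdx, ← P.pb_cQ_S h0 τ w hw hτ]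
  refine P.MH2_lS0 hdx2 hdc ?_ ?_ ?_ ?_
  · refine Filter.Eventually.of_forall fun y => ?_
    rw [hF]
    rfl
  · exact Filter.Eventually.of_forall fun y => (hq y).1
  · exact Filter.Eventually.of_forall fun y => (hq y).2
  · rw [hF]
    rfl

theorem nd_OS0 (P : FPar) (h : P.Ok2) {z : EA} (hz : z ∈ P.toPar.M') (h1 : eW1 z < 1)
    (hq : fZe (rhoS z) ≠ 0 ∨ fZ (rhoS z) ≠ 0)
    (hu : Complex.normSq (fU (rhoS z)) * P.hd.B ^ 2 < 1) :
    NonDegAt P.toPar.M' (pb2 rhoS P.omOS0) z := by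
  obtain ⟨g1, g2, g3, g4, g5, g6⟩ := P.graph_S h
  have hp := (rhoS_mem hz.1 h1).1
  have hb := FPS_bounds (by linarith [h.La]) hp
  have hoW : IsOpen {p : FP | Complex.normSq (fU p) * P.hd.B ^ 2 < 1} :=
    isOpen_lt (SD1_nU.continuous.mul continuous_const) continuous_const
  have hc := (P.tchart_XS h).restrict hoW (fun p t hp => hp)
  have hsW : ∀ p : FP, p ∈ {p : FP | ((fZe p ≠ 0 ∨ fZ p ≠ 0) ∧ fS p < P.La) ∧
        (fS p ≠ 0 ∨ 1 < qsq (fZe p) (fZ p))} ∩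
        {p : FP | Complex.normSq (fU p) * P.hd.B ^ 2 < 1} →
        p ∈ {p : FP | Complex.normSq (fU p) * P.hd.B ^ 2 < 1 ∧
          (fS p ≠ 0 ∨ 1 < qsq (fZe p) (fZ p))} := fun p hp => ⟨hp.2, hp.1.2⟩
  have hqp : 0 < qsq (fZe (rhoS z)) (fZ (rhoS z)) := SD1_qsq_pos hq
  have hU : rhoS z ∈ {p : FP | ((fZe p ≠ 0 ∨ fZ p ≠ 0) ∧ fS p < P.La) ∧
        (fS p ≠ 0 ∨ 1 < qsq (fZe p) (fZ p))} ∩
        {p : FP | Complex.normSq (fU p) * P.hd.B ^ 2 < 1} := by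
    refine ⟨⟨⟨hq, ?_⟩, ?_⟩, hu⟩
    · have h2 : fS (rhoS z) ^ 2 < P.La ^ 2 := by linarith [hb.1]
      exact lt_of_pow_lt_pow_left₀ 2 (by linarith [h.La]) h2
    · by_cases h2 : fS (rhoS z) = 0
      · right
        rw [hb.1, h2]
        have := h.La
        nlinarith
      · exact Or.inl h2
  refine MH2_nd_S (τ := P.tauS) hc (g4.mono hsW) g5 g1
    (fun y hy hy1 hy2 => g6 y hy hy1 (hsW _ hy2)) (l := pb1 P.xiS P.lS0)
    ((P.MH2_lS_smooth h).mono inter_subset_left)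
    (m := lamQ P.GM 0 (fun _ => -1) 0 0) ?_ ?_ hz h1 hU
  · intro w hw hd hFU
    exact P.MH2_hmS h (fun w => P.tauS (P.twS (cQ P.La (0, w)))) w hw.1 hd hFU.1
  · intro w hw a ha
    have hw1 : w.2.1 ≠ 0 ∨ w.2.2 ≠ 0 := hw.1
    have hr : 0 < qsq w.2.1 w.2.2 := SH_rpos hw1
    refine lamQ_nondeg P.GM 0 (fun _ => -1) 0 0 w hw1 (P.GM_props h.toOk1 _ hr).1
      contDiff_const contDiff_const contDiffAt_const
      contDiffAt_const (P.GM_props h.toOk1 _ hr).2.1 (P.GM_props h.toOk1 _ hr).2.2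
      ?_ a ha
    simp

/-- In the middle region the outer form is the form of `M`. -/
theorem omO0_mid (P : FPar) (h : P.Ok2) {p : FP} (hq : fZe p ≠ 0 ∨ fZ p ≠ 0)
    (hs : 0 < fS p ∨ 1 < qsq (fZe p) (fZ p)) : P.omO0 p = P.omN0 p := by
  have hrb : 0 < P.rb := h.rb0
  have hr0 := h.r0
  have hev : ∀ᶠ y : FP in 𝓝 p, 0 < fS y ∨ 1 < qsq (fZe y) (fZ y) :=
    ((isOpen_lt continuous_const SD1_S.continuous).union
      (isOpen_lt continuous_const SD1_qsq.continuous)).mem_nhds hs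
  have hxi : ∀ y : FP, (0 < fS y ∨ 1 < qsq (fZe y) (fZ y)) → P.xiN y = y := by
    intro y hy
    have h1 : (if fS y < 0 then P.toPar.yy 1 (fT y) (fU y) (fZe y) (fZ y)
        else (((fZe y).re, (fZe y).im, (fZ y).re, -(fZ y).im) : V4)) =
        ((fZe y).re, (fZe y).im, (fZ y).re, -(fZ y).im) := by
      split_ifs with h2
      · refine P.yy_big hrb 1 _ _ _ _ ?_
        rcases hy with h3 | h3
        · linarith
        · have := h.rb1
          nlinarith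
      · rfl
    unfold xiN
    simp only [h1]
    refine Prod.ext rfl (Prod.ext rfl (Prod.ext rfl (Prod.ext rfl (Prod.ext ?_
      (Prod.ext ?_ rfl)))))
    · exact Complex.ext rfl rfl
    · refine Complex.ext rfl ?_
      show -(-(fZ y).im) = (fZ y).im
      rw [neg_neg]
  have hchi : ∀ y : FP, (0 < fS y ∨ 1 < qsq (fZe y) (fZ y)) → P.chip y = 0 := by
    intro y hy
    unfold chip
    split_ifs with h2
    · rcases hy with h3 | h3
      · linarith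
      · refine (P.chi_props hr0).2.2.1 _ ?_
        have := h.r1
        nlinarith
    · rfl
  unfold omO0 omN0
  refine dd_congr ?_
  filter_upwards [hev.eventually_nhds] with y hy
  have h1 : P.xiN =ᶠ[𝓝 y] fun x => x := hy.mono fun x hx => hxi x hx
  have h2 : pb1 P.xiN P.lN0 y = P.lN0 y := by
    unfold pb1
    rw [h1.fderiv_eq, h1.eq_of_nhds]
    have h3 : fderiv ℝ (fun x : FP => x) y = ContinuousLinearMap.id ℝ FP := fderiv_fun_id
    rw [h3, ContinuousLinearMap.comp_id]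
  rw [h2, hchi y hy.self_of_nhds, mul_zero, zero_smul, add_zero]

theorem nd_mid (P : FPar) (h : P.Ok2) {z : EA} (hz : z ∈ P.toPar.M') (h1 : -1 < eW1 z)
    (hq : fZe (rhoN z) ≠ 0 ∨ fZ (rhoN z) ≠ 0) (hs : -(3 / 4) * P.La < fS (rhoN z)) :
    NonDegAt P.toPar.M' (pb2 rhoN P.omO0) z := by
  have hp := (rhoN_mem hz.1 h1).1
  have hb := FPS_bounds (by linarith [h.La]) hp
  have hcase : 0 < fS (rhoN z) ∨ 1 < qsq (fZe (rhoN z)) (fZ (rhoN z)) := by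
    by_cases h2 : 0 < fS (rhoN z)
    · exact Or.inl h2
    · right
      rw [hb.1]
      push Not at h2
      have := h.La
      nlinarith
  have key := P.nd_N0 h.toOk1 (P.graph_mid h) hz h1 hs hq
  intro a ha ha0
  obtain ⟨b, hb1, hb2⟩ := key a ha ha0
  refine ⟨b, hb1, ?_⟩
  rw [pb2_apply] at hb2 ⊢
  rw [P.omO0_mid h hq hcase]
  exact hb2

end FPar

end Pool.Agent.H34.SY
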