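import Pool.Agent.H34.SY.Forms

/-!
# Row SB: the one-variable functions

`smoothTransition` is smooth, `0` for `x ≤ 0`, `1` for `1 ≤ x`, monotone, values in `[0,1]`.
* `f0`: with `x = smoothTransition ((s + La/2)/La)`: `s ≤ -La/2`: `x = 0`; `La/2 ≤ s`: `x = 1`.
  `f0' = s (2x - 1) + x' (La² + 1 - (La² - s²))`, `x' ≥ 0`, `x(s) + x(-s) = 1` (symmetry of
  smoothTransition: `expNegInvGlue`), so `s (2x-1) ≥ 0`, and `> 0` for `|s| ≥ La/2`; for `|s| < La/2`
  the derivative of smoothTransition at the interior point is positive (prove: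
  smoothTransition is strictly monotone on `[0,1]` with positive derivative in the interior; from
  `f = A/(A+B)`, `A = exp(-1/x)`, `B = exp(-1/(1-x))`, `f' = (A'B - AB')/(A+B)²`, `A' = A/x² > 0`,
  `B' = -B/(1-x)² < 0`).
* `kr`: for `s ≤ s2` it is `1`; `(s kr)' = 1 + (smoothTransition' )(c - 1/s - s) + st (1/s² - 1)` with
  `c = s2 + 3`; for `s ≤ s2` it is `1`, for `s ≥ s2 + 1`: `1/s²`; between: `(1 - st) + st/s² + st'(...)`,
  and `c - 1/s - s ≥ 1` there (`s ≤ s2+1`, `1/s ≤ 1`).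
-/

open Set Topology
open scoped ContDiff ComplexConjugate

namespace Pool.Agent.H34.SY

theorem SB_e_deriv (x : ℝ) : HasDerivAt expNegInvGlue ((x⁻¹) ^ 2 * expNegInvGlue x) x := by
  have h := expNegInvGlue.hasDerivAt_polynomial_eval_inv_mul 1 x
  simpa using h

/-- the derivative of smoothTransition. -/
theorem SB_st_deriv (x : ℝ) : HasDerivAt Real.smoothTransition
    (expNegInvGlue x * expNegInvGlue (1 - x) * ((x⁻¹) ^ 2 + ((1 - x)⁻¹) ^ 2) /
      (expNegInvGlue x + expNegInvGlue (1 - x)) ^ 2) x := by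
  have h1 := SB_e_deriv x
  have h2 : HasDerivAt (fun y : ℝ => expNegInvGlue (1 - y))
      ((((1 - x)⁻¹) ^ 2 * expNegInvGlue (1 - x)) * (-1)) x :=
    HasDerivAt.comp x (SB_e_deriv (1 - x)) ((hasDerivAt_id x).const_sub 1)
  have h3 := h1.div (h1.add h2) (Real.smoothTransition.pos_denom x).ne'
  have h4 := h3.congr_deriv (g' := expNegInvGlue x * expNegInvGlue (1 - x) *
    ((x⁻¹) ^ 2 + ((1 - x)⁻¹) ^ 2) / (expNegInvGlue x + expNegInvGlue (1 - x)) ^ 2) (by
      simp only [Pi.add_apply]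
      congr 1
      ring)
  exact h4

theorem SB_st_diff (x : ℝ) : DifferentiableAt ℝ Real.smoothTransition x :=
  (SB_st_deriv x).differentiableAt

theorem SB_st_has (x : ℝ) :
    HasDerivAt Real.smoothTransition (deriv Real.smoothTransition x) x :=
  (SB_st_diff x).hasDerivAt

theorem SB_st_z0 {x : ℝ} (h : x ≤ 0) : deriv Real.smoothTransition x = 0 := by
  rw [(SB_st_deriv x).deriv, expNegInvGlue.zero_of_nonpos h]
  simp

theorem SB_st_z1 {x : ℝ} (h : 1 ≤ x) : deriv Real.smoothTransition x = 0 := by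
  rw [(SB_st_deriv x).deriv, expNegInvGlue.zero_of_nonpos (show 1 - x ≤ 0 by linarith)]
  simp

theorem SB_st_smooth : ContDiff ℝ ∞ Real.smoothTransition := Real.smoothTransition.contDiff

theorem st_deriv_pos {x : ℝ} (h0 : 0 < x) (h1 : x < 1) : 0 < deriv Real.smoothTransition x := by
  rw [(SB_st_deriv x).deriv]
  have h2 := expNegInvGlue.pos_of_pos h0
  have h3 := expNegInvGlue.pos_of_pos (show 0 < 1 - x by linarith)
  have h4 : 0 < x⁻¹ := inv_pos.2 h0
  positivity

theorem st_deriv_nonneg (x : ℝ) : 0 ≤ deriv Real.smoothTransition x := by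
  rw [(SB_st_deriv x).deriv]
  have h2 := expNegInvGlue.nonneg x
  have h3 := expNegInvGlue.nonneg (1 - x)
  positivity

theorem st_symm (x : ℝ) : Real.smoothTransition (1 - x) = 1 - Real.smoothTransition x := by
  unfold Real.smoothTransition
  have h := Real.smoothTransition.pos_denom x
  rw [sub_sub_cancel, eq_sub_iff_add_eq, add_comm (expNegInvGlue (1 - x)) (expNegInvGlue x),
    ← add_div, add_comm (expNegInvGlue (1 - x)) (expNegInvGlue x), div_self h.ne']

theorem st_deriv_bound : ∃ C : ℝ, 0 < C ∧ ∀ x, |deriv Real.smoothTransition x| ≤ C := by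
  have hc : Continuous (deriv Real.smoothTransition) :=
    SB_st_smooth.continuous_deriv (by norm_num)
  obtain ⟨C, hC⟩ := (isCompact_Icc (a := (0 : ℝ)) (b := 1)).exists_bound_of_continuousOn
    hc.continuousOn
  refine ⟨|C| + 1, by positivity, fun x => ?_⟩
  rcases le_or_gt x 0 with h | h
  · rw [SB_st_z0 h, abs_zero]
    positivity
  rcases le_or_gt 1 x with h' | h'
  · rw [SB_st_z1 h', abs_zero]
    positivity
  have := hC x ⟨h.le, h'.le⟩
  rw [Real.norm_eq_abs] at this
  linarith [le_abs_self C]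

theorem SB_cut_has (a T s : ℝ) :
    HasDerivAt (cut a T) (-(deriv Real.smoothTransition ((s - a) / T) / T)) s := by
  have h1 : HasDerivAt (fun y : ℝ => (y - a) / T) (1 / T) s :=
    ((hasDerivAt_id s).sub_const a).div_const T
  have h2 : HasDerivAt (fun y : ℝ => Real.smoothTransition ((y - a) / T))
      (deriv Real.smoothTransition ((s - a) / T) * (1 / T)) s :=
    HasDerivAt.comp (h := fun y : ℝ => (y - a) / T) s (SB_st_has ((s - a) / T)) h1
  have h3 := h2.const_sub 1
  rw [show -(deriv Real.smoothTransition ((s - a) / T) / T) =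
    -(deriv Real.smoothTransition ((s - a) / T) * (1 / T)) by ring]
  exact h3

theorem SB_cut_smooth (a T : ℝ) : ContDiff ℝ ∞ (cut a T) := by
  have h1 : ContDiff ℝ ∞ (fun y : ℝ => (y - a) / T) := (contDiff_id.sub contDiff_const).div_const T
  exact contDiff_const.sub (SB_st_smooth.comp h1)

theorem cut_props (a T : ℝ) (hT : 0 < T) :
    ContDiff ℝ ∞ (cut a T) ∧ (∀ s, s ≤ a → cut a T s = 1) ∧ (∀ s, a + T ≤ s → cut a T s = 0) ∧
    (∀ s, 0 ≤ cut a T s ∧ cut a T s ≤ 1) ∧ (∀ s, deriv (cut a T) s ≤ 0) := by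
  refine ⟨SB_cut_smooth a T, fun s hs => ?_, fun s hs => ?_, fun s => ⟨?_, ?_⟩, fun s => ?_⟩
  · unfold cut
    rw [Real.smoothTransition.zero_of_nonpos (div_nonpos_of_nonpos_of_nonneg (by linarith) hT.le),
      sub_zero]
  · unfold cut
    rw [Real.smoothTransition.one_of_one_le ((le_div_iff₀ hT).2 (by linarith)), sub_self]
  · unfold cut
    linarith [Real.smoothTransition.le_one ((s - a) / T)]
  · unfold cut
    linarith [Real.smoothTransition.nonneg ((s - a) / T)]
  · rw [(SB_cut_has a T s).deriv]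
    have := div_nonneg (st_deriv_nonneg ((s - a) / T)) hT.le
    linarith

/-- The slope of the cut-off functions. -/
theorem cut_slope : ∃ C : ℝ, 0 < C ∧ ∀ a T : ℝ, 0 < T → ∀ s, |deriv (cut a T) s| ≤ C / T := by
  obtain ⟨C, hC, h⟩ := st_deriv_bound
  refine ⟨C, hC, fun a T hT s => ?_⟩
  rw [(SB_cut_has a T s).deriv, abs_neg, abs_div, abs_of_pos hT]
  exact div_le_div_of_nonneg_right (h _) hT.le

namespace FPar

theorem SB_st_half : Real.smoothTransition (1 / 2) = 1 / 2 := by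
  have h := st_symm (1 / 2)
  rw [show (1 : ℝ) - 1 / 2 = 1 / 2 by norm_num] at h
  linarith

theorem SB_f0_has (P : FPar) (hLa : 0 < P.La) (s : ℝ) : HasDerivAt P.f0
    (s * (2 * Real.smoothTransition ((s + P.La / 2) / P.La) - 1) +
      deriv Real.smoothTransition ((s + P.La / 2) / P.La) / P.La * (1 + s ^ 2)) s := by
  have h1 : HasDerivAt (fun y : ℝ => (y + P.La / 2) / P.La) (1 / P.La) s :=
    ((hasDerivAt_id s).add_const (P.La / 2)).div_const P.La
  have h2 : HasDerivAt (fun y : ℝ => Real.smoothTransition ((y + P.La / 2) / P.La))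
      (deriv Real.smoothTransition ((s + P.La / 2) / P.La) * (1 / P.La)) s :=
    HasDerivAt.comp (h := fun y : ℝ => (y + P.La / 2) / P.La) s
      (SB_st_has ((s + P.La / 2) / P.La)) h1
  have h3 : HasDerivAt (fun y : ℝ => (P.La ^ 2 - y ^ 2) / 2) (-s) s := by
    have := ((hasDerivAt_pow 2 s).const_sub (P.La ^ 2)).div_const 2
    refine this.congr_deriv ?_
    simp
    ring
  have h4 : HasDerivAt (fun y : ℝ => P.La ^ 2 + 1 - (P.La ^ 2 - y ^ 2) / 2) s s := by
    have := h3.const_sub (P.La ^ 2 + 1)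
    rw [neg_neg] at this
    exact this
  have h5 := ((h2.const_sub 1).mul h3).add (h2.mul h4)
  refine h5.congr_deriv ?_
  ring

theorem SB_f0_smooth (P : FPar) : ContDiff ℝ ∞ P.f0 := by
  have h1 : ContDiff ℝ ∞ (fun y : ℝ => (y + P.La / 2) / P.La) :=
    (contDiff_id.add contDiff_const).div_const P.La
  have h2 : ContDiff ℝ ∞ (fun y : ℝ => Real.smoothTransition ((y + P.La / 2) / P.La)) :=
    SB_st_smooth.comp h1
  have h3 : ContDiff ℝ ∞ (fun y : ℝ => (P.La ^ 2 - y ^ 2) / 2) :=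
    (contDiff_const.sub (contDiff_id.pow 2)).div_const 2
  have h4 : ContDiff ℝ ∞ (fun y : ℝ => P.La ^ 2 + 1 - (P.La ^ 2 - y ^ 2) / 2) :=
    contDiff_const.sub h3
  exact ((contDiff_const.sub h2).mul h3).add (h2.mul h4)

theorem SB_f0_pos (P : FPar) (hLa : 0 < P.La) (s : ℝ) : 0 < deriv P.f0 s := by
  rw [(SB_f0_has P hLa s).deriv]
  set y := (s + P.La / 2) / P.La with hy
  have hys : y * P.La = s + P.La / 2 := by
    rw [hy]; field_simp
  have hd := div_nonneg (st_deriv_nonneg y) hLa.le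
  have hd' : 0 ≤ deriv Real.smoothTransition y / P.La * (1 + s ^ 2) := by positivity
  rcases le_or_gt y 0 with h0 | h0
  · have h1 : s < 0 := by nlinarith
    rw [Real.smoothTransition.zero_of_nonpos h0]
    linarith
  rcases le_or_gt 1 y with h1 | h1
  · have h2 : 0 < s := by nlinarith
    rw [Real.smoothTransition.one_of_one_le h1]
    linarith
  have hp : 0 < deriv Real.smoothTransition y / P.La * (1 + s ^ 2) := by
    have := div_pos (st_deriv_pos h0 h1) hLa
    positivity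
  have hq : 0 ≤ s * (2 * Real.smoothTransition y - 1) := by
    rcases le_or_gt 0 s with h2 | h2
    · have h3 : 1 / 2 ≤ y := by
        by_contra h4
        push Not at h4
        nlinarith
      have h4 := Real.smoothTransition.monotone h3
      rw [SB_st_half] at h4
      exact mul_nonneg h2 (by linarith)
    · have h3 : y ≤ 1 / 2 := by
        by_contra h4
        push Not at h4
        nlinarith
      have h4 := Real.smoothTransition.monotone h3
      rw [SB_st_half] at h4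
      exact mul_nonneg_of_nonpos_of_nonpos h2.le (by linarith)
  linarith

theorem f0_props (P : FPar) (hLa : 0 < P.La) :
    ContDiff ℝ ∞ P.f0 ∧ (∀ s, s ≤ -P.La / 2 → P.f0 s = (P.La ^ 2 - s ^ 2) / 2) ∧
    (∀ s, P.La / 2 ≤ s → P.f0 s = P.La ^ 2 + 1 - (P.La ^ 2 - s ^ 2) / 2) ∧
    (∀ s, 0 < deriv P.f0 s) ∧ (∀ s, -P.La < s → 0 < P.f0 s) ∧ P.f0 (-P.La) = 0 := by
  have hA : ∀ s, s ≤ -P.La / 2 → P.f0 s = (P.La ^ 2 - s ^ 2) / 2 := by
    intro s hs
    unfold f0
    rw [Real.smoothTransition.zero_of_nonpos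
      (div_nonpos_of_nonpos_of_nonneg (by linarith) hLa.le)]
    ring
  have hz : P.f0 (-P.La) = 0 := by
    rw [hA _ (by linarith)]
    ring
  refine ⟨SB_f0_smooth P, hA, fun s hs => ?_, SB_f0_pos P hLa, fun s hs => ?_, hz⟩
  · unfold f0
    rw [Real.smoothTransition.one_of_one_le ((le_div_iff₀ hLa).2 (by linarith))]
    ring
  · have := strictMono_of_deriv_pos (SB_f0_pos P hLa) hs
    rwa [hz] at this

theorem s1_pos (P : FPar) (hTa : 0 < P.Ta) : 3 < P.s1 := by
  unfold s1
  have := sq_nonneg P.hd.B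
  linarith

theorem SB_s2_pos (P : FPar) (hTa : 0 < P.Ta) : 4 < P.s2 := by
  have := P.s1_pos hTa
  unfold s2
  linarith

theorem SB_kr_lo (P : FPar) {s : ℝ} (hs : s ≤ P.s2) : P.kr s = 1 := by
  unfold kr
  rw [Real.smoothTransition.zero_of_nonpos (by linarith)]
  simp

theorem SB_st_shift (b s : ℝ) : HasDerivAt (fun y : ℝ => Real.smoothTransition (y - b))
    (deriv Real.smoothTransition (s - b)) s := by
  have := HasDerivAt.comp s (SB_st_has (s - b)) ((hasDerivAt_id s).sub_const b)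
  rw [mul_one] at this
  exact this

theorem SB_kr_has (P : FPar) {s : ℝ} (hs : 0 < s) : HasDerivAt P.kr
    (((deriv Real.smoothTransition (s - P.s2) * (P.s2 + 3 - 1 / s - s) +
      Real.smoothTransition (s - P.s2) * (1 / s ^ 2 - 1)) * s -
      Real.smoothTransition (s - P.s2) * (P.s2 + 3 - 1 / s - s)) / s ^ 2) s := by
  have h1 := SB_st_shift P.s2 s
  have h2 : HasDerivAt (fun y : ℝ => P.s2 + 3 - 1 / y - y) (1 / s ^ 2 - 1) s := by
    have h3 : HasDerivAt (fun y : ℝ => 1 / y) (-(1 / s ^ 2)) s := by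
      have := hasDerivAt_inv hs.ne'
      simp only [one_div]
      exact this
    have h4 := (h3.const_sub (P.s2 + 3)).sub (hasDerivAt_id s)
    rw [neg_neg] at h4
    exact h4
  have h3 := ((h1.mul h2).div (hasDerivAt_id s) hs.ne').const_add 1
  refine h3.congr_deriv ?_
  simp

theorem SB_kr_id (P : FPar) {s : ℝ} (hs : 0 < s) : P.kr s + s * deriv P.kr s =
    1 + deriv Real.smoothTransition (s - P.s2) * (P.s2 + 3 - 1 / s - s) +
      Real.smoothTransition (s - P.s2) * (1 / s ^ 2 - 1) := by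
  rw [(SB_kr_has P hs).deriv]
  unfold kr
  field_simp
  ring

theorem SB_kr_pos (P : FPar) (hTa : 0 < P.Ta) {s : ℝ} (hs : 0 ≤ s) :
    0 < P.kr s + s * deriv P.kr s := by
  have h2 := SB_s2_pos P hTa
  rcases hs.eq_or_lt with h | h
  · rw [← h, SB_kr_lo P (by linarith)]
    norm_num
  rw [SB_kr_id P h]
  have h3 : 0 ≤ deriv Real.smoothTransition (s - P.s2) * (P.s2 + 3 - 1 / s - s) := by
    rcases le_or_gt (s - P.s2) 0 with h4 | h4
    · rw [SB_st_z0 h4, zero_mul]
    rcases le_or_gt 1 (s - P.s2) with h5 | h5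
    · rw [SB_st_z1 h5, zero_mul]
    · refine mul_nonneg (st_deriv_nonneg _) ?_
      have h6 : 1 / s ≤ 1 := by
        rw [div_le_one h]
        linarith
      linarith
  have h4 := Real.smoothTransition.nonneg (s - P.s2)
  have h5 := Real.smoothTransition.le_one (s - P.s2)
  have h6 : 0 < 1 / s ^ 2 := by positivity
  have h7 : 0 < 1 + Real.smoothTransition (s - P.s2) * (1 / s ^ 2 - 1) := by
    rcases h5.eq_or_lt with h8 | h8
    · rw [h8]
      linarith
    · nlinarith
  linarith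

theorem SB_kr_smooth (P : FPar) (hTa : 0 < P.Ta) : ContDiff ℝ ∞ P.kr := by
  have h2 := SB_s2_pos P hTa
  rw [contDiff_iff_contDiffAt]
  intro s
  rcases lt_or_ge s 1 with h | h
  · have h3 : P.kr =ᶠ[𝓝 s] fun _ => (1 : ℝ) := by
      filter_upwards [Iio_mem_nhds h] with y hy
      exact SB_kr_lo P (by linarith [show y < 1 from hy])
    exact contDiffAt_const.congr_of_eventuallyEq h3
  · have hs : s ≠ 0 := by linarith
    have h3 : ContDiffAt ℝ ∞ (fun y : ℝ => Real.smoothTransition (y - P.s2)) s :=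
      (SB_st_smooth.comp (contDiff_id.sub contDiff_const)).contDiffAt
    have h4 : ContDiffAt ℝ ∞ (fun y : ℝ => P.s2 + 3 - 1 / y - y) s :=
      (contDiffAt_const.sub (contDiffAt_const.div contDiffAt_id hs)).sub contDiffAt_id
    exact contDiffAt_const.add ((h3.mul h4).div contDiffAt_id hs)

theorem SB_ka_has (P : FPar) {s : ℝ} (hs : 0 < s) : HasDerivAt P.ka
    ((deriv Real.smoothTransition (s - P.s1) * s - Real.smoothTransition (s - P.s1)) / s ^ 2) s := by
  have h3 := (SB_st_shift P.s1 s).div (hasDerivAt_id s) hs.ne'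
  refine h3.congr_deriv ?_
  simp

theorem SB_ka_id (P : FPar) {s : ℝ} (hs : 0 < s) : P.ka s + s * deriv P.ka s =
    deriv Real.smoothTransition (s - P.s1) := by
  rw [(SB_ka_has P hs).deriv]
  unfold ka
  field_simp
  ring

theorem SB_ka_lo (P : FPar) {s : ℝ} (hs : s ≤ P.s1) : P.ka s = 0 := by
  unfold ka
  rw [Real.smoothTransition.zero_of_nonpos (by linarith)]
  simp

theorem SB_ka_smooth (P : FPar) (hTa : 0 < P.Ta) : ContDiff ℝ ∞ P.ka := by
  have h2 := P.s1_pos hTa
  rw [contDiff_iff_contDiffAt]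
  intro s
  rcases lt_or_ge s 1 with h | h
  · have h3 : P.ka =ᶠ[𝓝 s] fun _ => (0 : ℝ) := by
      filter_upwards [Iio_mem_nhds h] with y hy
      exact SB_ka_lo P (by linarith [show y < 1 from hy])
    exact contDiffAt_const.congr_of_eventuallyEq h3
  · have hs : s ≠ 0 := by linarith
    have h3 : ContDiffAt ℝ ∞ (fun y : ℝ => Real.smoothTransition (y - P.s1)) s :=
      (SB_st_smooth.comp (contDiff_id.sub contDiff_const)).contDiffAt
    exact h3.div contDiffAt_id hs

/-- `kr` is smooth, with the values on the two ends, and `(s kr)' > 0` on `s ≥ 0`. -/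
theorem kr_props (P : FPar) (hTa : 0 < P.Ta) :
    ContDiff ℝ ∞ P.kr ∧ (∀ s, s ≤ P.s2 → P.kr s = 1) ∧
    (∀ s, P.s2 + 1 ≤ s → P.kr s = (P.s2 + 3 - 1 / s) / s) ∧
    (∀ s, 0 ≤ s → 0 < P.kr s + s * deriv P.kr s) := by
  refine ⟨SB_kr_smooth P hTa, fun s hs => SB_kr_lo P hs, fun s hs => ?_,
    fun s hs => SB_kr_pos P hTa hs⟩
  have h2 := SB_s2_pos P hTa
  have h3 : s ≠ 0 := by linarith
  unfold kr
  rw [Real.smoothTransition.one_of_one_le (by linarith)]
  field_simp
  ring

theorem ka_props (P : FPar) (hTa : 0 < P.Ta) :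
    ContDiff ℝ ∞ P.ka ∧ (∀ s, s ≤ P.s1 → P.ka s = 0) ∧ (∀ s, P.s1 + 1 ≤ s → P.ka s = 1 / s) ∧
    (∀ s, 0 ≤ s → 0 ≤ P.ka s + s * deriv P.ka s) ∧ (∀ s, 0 ≤ s → 0 ≤ P.ka s) := by
  have h1 := P.s1_pos hTa
  refine ⟨SB_ka_smooth P hTa, fun s hs => SB_ka_lo P hs, fun s hs => ?_, fun s hs => ?_,
    fun s hs => ?_⟩
  · unfold ka
    rw [Real.smoothTransition.one_of_one_le (by linarith)]
  · rcases hs.eq_or_lt with h | h
    · rw [← h, SB_ka_lo P (by linarith)]
      norm_num
    · rw [SB_ka_id P h]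
      exact st_deriv_nonneg _
  · unfold ka
    exact div_nonneg (Real.smoothTransition.nonneg _) hs

/-- A bound on the curvature relative to the base area (both are functions of one variable, the
curvature is supported in `[s1, s1 + 1]`). -/
theorem ka_bound (P : FPar) (hTa : 0 < P.Ta) :
    ∃ C : ℝ, 0 < C ∧ ∀ s, 0 ≤ s → P.ka s + s * deriv P.ka s ≤ C * (P.kr s + s * deriv P.kr s) := by
  obtain ⟨C, hC, h⟩ := st_deriv_bound
  have h1 := P.s1_pos hTa
  have h2 := SB_s2_pos P hTa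
  refine ⟨C, hC, fun s hs => ?_⟩
  rcases hs.eq_or_lt with h0 | h0
  · rw [← h0, SB_ka_lo P (by linarith), SB_kr_lo P (by linarith)]
    simp only [zero_mul, add_zero, mul_one]
    exact hC.le
  rcases le_or_gt s P.s2 with h3 | h3
  · rw [SB_ka_id P h0, SB_kr_id P h0, SB_st_z0 (show s - P.s2 ≤ 0 by linarith),
      Real.smoothTransition.zero_of_nonpos (show s - P.s2 ≤ 0 by linarith)]
    simp only [zero_mul, add_zero, mul_one]
    exact (le_abs_self _).trans (h _)
  · rw [SB_ka_id P h0, SB_st_z1 (show 1 ≤ s - P.s1 by unfold s2 at h3; linarith)]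
    exact (mul_pos hC (SB_kr_pos P hTa hs)).le

theorem chi_props (P : FPar) (hr : 0 < P.r0) :
    ContDiff ℝ ∞ P.chi ∧ (∀ r, r ≤ P.r0 ^ 2 / 4 → P.chi r = 1) ∧
    (∀ r, P.r0 ^ 2 ≤ r → P.chi r = 0) ∧ (∀ r, 0 ≤ P.chi r ∧ P.chi r ≤ 1) ∧
    ∀ r, deriv P.chi r ≤ 0 := by
  obtain ⟨h1, h2, h3, h4, h5⟩ := cut_props (1 / 4) (3 / 4) (by norm_num)
  have hr2 : 0 < P.r0 ^ 2 := by positivity
  refine ⟨?_, fun r h => ?_, fun r h => ?_, fun r => h4 _, fun r => ?_⟩
  · exact h1.comp (contDiff_id.div_const _)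
  · exact h2 _ ((div_le_iff₀ hr2).2 (by linarith))
  · exact h3 _ ((le_div_iff₀ hr2).2 (by linarith))
  · have h6 : HasDerivAt (fun y : ℝ => y / P.r0 ^ 2) (1 / P.r0 ^ 2) r :=
      (hasDerivAt_id r).div_const _
    have h7 : HasDerivAt P.chi (deriv (cut (1 / 4) (3 / 4)) (r / P.r0 ^ 2) * (1 / P.r0 ^ 2)) r :=
      HasDerivAt.comp r (SB_cut_has (1 / 4) (3 / 4) (r / P.r0 ^ 2)).differentiableAt.hasDerivAt h6
    rw [h7.deriv]
    exact mul_nonpos_of_nonpos_of_nonneg (h5 _) (by positivity)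

end FPar

end Pool.Agent.H34.SY
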