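import Pool.Agent.H34.SY.SA2
import Pool.Agent.H34.SY.SB

/-!
# Row SD1 (open set, smoothness, closedness): agreement of the local forms of `M` near `q = 0`

Imports: rows CA, CB, CC, SA, SB, WA1-3 (charts of `FPS La`; add the imports).
At `p ∈ FPS La`, `q ≠ 0`, `s < 0`, `|q|² < r0²/4` (then `s < -La/2` because `|q|² = La² - s²` and
`r0 ≤ 1 ≤ La`): near `p` (open conditions) `F0 = (La² - s²)/2 + eps`, on `FPS`: `= |q|²/2 + eps`, and
`|z|²/|q|² = (1-h0)/2` on `FPS` (`FPS_hopf`).  So on tangent vectors of `FPS` at points of `FPS` near `p`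
`lN0 = q2N + bN + eps ((1-h0)/2) aN + eps alq`, by `dd_congr_tangent` the `dd`'s agree, and
`dd alq = areaF` (`star`).  For `s > 0` small `|q|`: `F0 = La² + 1 - |q|²/2`.  Side `S`: same with `a = 0`.
The closedness statements: `isClosedForm_dd` and `areaF_closed` (restricted to the open set).
-/

open Set Topology
open scoped ContDiff ComplexConjugate

namespace Pool.Agent.H34.SY

namespace FPar

/-- Standing assumptions on the parameters. -/
structure Ok0 (P : FPar) : Prop where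
  La : 2 ≤ P.La
  Ta : 0 < P.Ta
  r0 : 0 < P.r0
  r1 : P.r0 ≤ 1
  eps : 0 < P.eps

/-- The open set where the forms off `q = 0` are smooth. -/
def Dq (P : FPar) : Set FP :=
  {p | (fZe p ≠ 0 ∨ fZ p ≠ 0) ∧ (fS p ≠ 0 ∨ P.r0 ^ 2 < qsq (fZe p) (fZ p))}

theorem SD1_normSq : ContDiff ℝ ∞ (fun z : ℂ => Complex.normSq z) := by
  have h : (fun z : ℂ => Complex.normSq z) = fun z : ℂ => z.re * z.re + z.im * z.im := by
    funext z
    exact Complex.normSq_apply z
  rw [h]
  have h1 : ContDiff ℝ ∞ (fun z : ℂ => z.re) := Complex.reCLM.contDiff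
  have h2 : ContDiff ℝ ∞ (fun z : ℂ => z.im) := Complex.imCLM.contDiff
  exact (h1.mul h1).add (h2.mul h2)

theorem SD1_U : ContDiff ℝ ∞ (fun p : FP => fU p) := contDiff_fst.comp contDiff_snd

theorem SD1_H0 : ContDiff ℝ ∞ (fun p : FP => fH0 p) :=
  contDiff_fst.comp (contDiff_snd.comp contDiff_snd)

theorem SD1_Ze : ContDiff ℝ ∞ (fun p : FP => fZe p) :=
  contDiff_fst.comp (contDiff_snd.comp (contDiff_snd.comp (contDiff_snd.comp contDiff_snd)))

theorem SD1_Z : ContDiff ℝ ∞ (fun p : FP => fZ p) :=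
  contDiff_fst.comp (contDiff_snd.comp (contDiff_snd.comp (contDiff_snd.comp
    (contDiff_snd.comp contDiff_snd))))

theorem SD1_S : ContDiff ℝ ∞ (fun p : FP => fS p) :=
  contDiff_snd.comp (contDiff_snd.comp (contDiff_snd.comp (contDiff_snd.comp
    (contDiff_snd.comp contDiff_snd))))

theorem SD1_nU : ContDiff ℝ ∞ (fun p : FP => Complex.normSq (fU p)) := SD1_normSq.comp SD1_U

theorem SD1_nZ : ContDiff ℝ ∞ (fun p : FP => Complex.normSq (fZ p)) := SD1_normSq.comp SD1_Z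

theorem SD1_qsq : ContDiff ℝ ∞ (fun p : FP => qsq (fZe p) (fZ p)) :=
  (SD1_normSq.comp SD1_Ze).add (SD1_normSq.comp SD1_Z)

theorem SD1_qsq_pos {p : FP} (h : fZe p ≠ 0 ∨ fZ p ≠ 0) : 0 < qsq (fZe p) (fZ p) := by
  unfold qsq
  rcases h with h | h
  · have h1 := Complex.normSq_pos.2 h
    have h2 := Complex.normSq_nonneg (fZ p)
    linarith
  · have h1 := Complex.normSq_pos.2 h
    have h2 := Complex.normSq_nonneg (fZe p)
    linarith

theorem isOpen_Dq (P : FPar) : IsOpen P.Dq := by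
  apply IsOpen.inter
  · apply IsOpen.union
    · exact isOpen_ne_fun SD1_Ze.continuous continuous_const
    · exact isOpen_ne_fun SD1_Z.continuous continuous_const
  · apply IsOpen.union
    · exact isOpen_ne_fun SD1_S.continuous continuous_const
    · exact isOpen_lt continuous_const SD1_qsq.continuous

theorem Dq_of (P : FPar) (h : P.Ok0) {p : FP} (hp : p ∈ FPS P.La) (hq : fZe p ≠ 0 ∨ fZ p ≠ 0) :
    p ∈ P.Dq := by
  refine ⟨hq, ?_⟩
  by_cases hs : fS p = 0
  · right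
    have h4 := hp.2.2.2
    rw [hs] at h4
    have h5 : qsq (fZe p) (fZ p) = P.La ^ 2 := by
      unfold qsq
      linarith
    rw [h5]
    have h6 := h.La
    have h7 := h.r1
    have h8 := h.r0
    nlinarith
  · exact Or.inl hs

theorem SD1_chip (P : FPar) (h : P.Ok0) : ContDiffOn ℝ ∞ P.chip P.Dq := by
  obtain ⟨hc, _, hc0, _, _⟩ := P.chi_props h.r0
  have hcq : ContDiff ℝ ∞ (fun p : FP => P.chi (qsq (fZe p) (fZ p))) := hc.comp SD1_qsq
  intro p hp
  apply ContDiffAt.contDiffWithinAt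
  rcases lt_trichotomy (fS p) 0 with hs | hs | hs
  · refine hcq.contDiffAt.congr_of_eventuallyEq ?_
    have h1 : ∀ᶠ y in 𝓝 p, fS y < 0 := (isOpen_lt SD1_S.continuous continuous_const).mem_nhds hs
    filter_upwards [h1] with y hy
    exact if_pos hy
  · have h2 : P.r0 ^ 2 < qsq (fZe p) (fZ p) := by
      rcases hp.2 with h3 | h3
      · exact absurd hs h3
      · exact h3
    refine (contDiffAt_const (c := (0 : ℝ))).congr_of_eventuallyEq ?_
    have h1 : ∀ᶠ y in 𝓝 p, P.r0 ^ 2 < qsq (fZe y) (fZ y) :=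
      (isOpen_lt continuous_const SD1_qsq.continuous).mem_nhds h2
    filter_upwards [h1] with y hy
    unfold chip
    split_ifs
    · exact hc0 _ hy.le
    · rfl
  · refine (contDiffAt_const (c := (0 : ℝ))).congr_of_eventuallyEq ?_
    have h1 : ∀ᶠ y in 𝓝 p, 0 < fS y := (isOpen_lt continuous_const SD1_S.continuous).mem_nhds hs
    filter_upwards [h1] with y hy
    exact if_neg (not_lt.2 hy.le)

theorem SD1_F0 (P : FPar) (h : P.Ok0) : ContDiffOn ℝ ∞ P.F0 P.Dq := by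
  have hf := (P.f0_props (by linarith [h.La])).1
  exact (hf.comp SD1_S).contDiffOn.add (contDiffOn_const.mul (SD1_chip P h))

theorem SD1_alq (P : FPar) : ContDiffOn ℝ ∞ alq P.Dq := by
  have h1 : ContDiffOn ℝ ∞ (fun p : FP => (qsq (fZe p) (fZ p))⁻¹) P.Dq :=
    SD1_qsq.contDiffOn.inv fun p hp => (SD1_qsq_pos hp.1).ne'
  exact h1.smul (((contDiff_imF pZe).add (contDiff_imF pZ)).contDiffOn)

theorem SD1_aN (P : FPar) (h : P.Ok0) : ContDiff ℝ ∞ P.aN := by
  have hk := (P.ka_props h.Ta).1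
  exact (hk.comp SD1_nU).smul (contDiff_imF pU)

theorem SD1_bN (P : FPar) (h : P.Ok0) : ContDiff ℝ ∞ P.bN := by
  have hk := (P.kr_props h.Ta).1
  exact ((hk.comp SD1_nU).div_const 2).smul (contDiff_imF pU)

theorem SD1_bS : ContDiff ℝ ∞ bS := (contDiff_const (c := (-(1 / 2) : ℝ))).smul (contDiff_imF pU)

theorem SD1_q2N (P : FPar) (h : P.Ok0) : ContDiff ℝ ∞ P.q2N :=
  (contDiff_const (c := (1 / 2 : ℝ))).smul
    (((contDiff_imF pZe).add (contDiff_imF pZ)).add (SD1_nZ.smul (SD1_aN P h)))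

theorem SD1_q2S : ContDiff ℝ ∞ q2S :=
  (contDiff_const (c := (1 / 2 : ℝ))).smul ((contDiff_imF pZe).add (contDiff_imF pZ))

theorem smooth_lN0 (P : FPar) (h : P.Ok0) : ContDiffOn ℝ ∞ P.lN0 P.Dq := by
  have h1 : ContDiffOn ℝ ∞ (fun p : FP => Complex.normSq (fZ p) / qsq (fZe p) (fZ p)) P.Dq :=
    SD1_nZ.contDiffOn.div SD1_qsq.contDiffOn fun p hp => (SD1_qsq_pos hp.1).ne'
  exact ((SD1_F0 P h).smul ((SD1_alq P).add (h1.smul (SD1_aN P h).contDiffOn))).add
    (SD1_bN P h).contDiffOn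

theorem smooth_lS0 (P : FPar) (h : P.Ok0) : ContDiffOn ℝ ∞ P.lS0 P.Dq :=
  ((SD1_F0 P h).smul (SD1_alq P)).add SD1_bS.contDiffOn

theorem closed_N0 (P : FPar) (h : P.Ok0) : IsClosedForm (FPS P.La ∩ P.Dq) P.omN0 :=
  isClosedForm_dd P.isOpen_Dq (P.smooth_lN0 h)

theorem closed_S0 (P : FPar) (h : P.Ok0) : IsClosedForm (FPS P.La ∩ P.Dq) P.omS0 :=
  isClosedForm_dd P.isOpen_Dq (P.smooth_lS0 h)

theorem SD1_univ {X : Set FP} {l : Form1 FP} (hl : ContDiff ℝ ∞ l) : IsClosedForm X (dd l) := by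
  have h1 := isClosedForm_dd (X := X) isOpen_univ (hl.contDiffOn (s := Set.univ))
  rw [Set.inter_univ] at h1
  exact h1

theorem closed_Nm (P : FPar) (h : P.Ok0) : IsClosedForm (FPS P.La) P.omNm := by
  have h1 : ContDiff ℝ ∞ (fun p : FP => P.q2N p + P.bN p + (P.eps * ((1 - fH0 p) / 2)) • P.aN p) :=
    ((SD1_q2N P h).add (SD1_bN P h)).add
      ((contDiff_const.mul ((contDiff_const.sub SD1_H0).div_const 2)).smul (SD1_aN P h))
  exact (SD1_univ h1).add ((areaF_closed P.La).smul P.eps)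

theorem closed_Np (P : FPar) (h : P.Ok0) : IsClosedForm (FPS P.La) P.omNp := by
  have h1 : ContDiff ℝ ∞ (fun p : FP => -P.q2N p + P.bN p +
      ((P.La ^ 2 + 1) * ((1 - fH0 p) / 2)) • P.aN p) :=
    ((SD1_q2N P h).neg.add (SD1_bN P h)).add
      ((contDiff_const.mul ((contDiff_const.sub SD1_H0).div_const 2)).smul (SD1_aN P h))
  exact (SD1_univ h1).add ((areaF_closed P.La).smul (P.La ^ 2 + 1))

theorem closed_Sm (P : FPar) (h : P.Ok0) : IsClosedForm (FPS P.La) P.omSm := by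
  have h1 : ContDiff ℝ ∞ (fun p : FP => q2S p + bS p) := SD1_q2S.add SD1_bS
  exact (SD1_univ h1).add ((areaF_closed P.La).smul P.eps)

theorem closed_Sp (P : FPar) (h : P.Ok0) : IsClosedForm (FPS P.La) P.omSp := by
  have h1 : ContDiff ℝ ∞ (fun p : FP => -q2S p + bS p) := SD1_q2S.neg.add SD1_bS
  exact (SD1_univ h1).add ((areaF_closed P.La).smul (P.La ^ 2 + 1))

end FPar

end Pool.Agent.H34.SY
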