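import Pool.Agent.H34.SY.FD6
import Pool.Agent.H34.SY.SA1
import Pool.Agent.H34.SY.SB
import Pool.Agent.H34.SY.SD1
import Pool.Agent.H34.SY.CB

/-!
# Row SH: the local forms in the charts

Pull-backs of the primitives under `w ↦ c (τ w, w)`, where `c` is one of the charts `cQ`, `cB`, `cA` and `τ` is
any differentiable function (the 1-forms have no `dt` component).  All are identities between 1-forms at a point;
evaluate on a vector `a = (u', ·, ·)` and use the explicit derivative of the chart.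

* `cQ`: `ζ = ρ Q₁`, `z = ρ Q₂` with the real factor `ρ = 2La/(1+r)`, `r = |Q|²`: `Im (conj ζ dζ) = ρ² Im (conj Q₁ dQ₁)`
  (the derivative of the real factor does not contribute), `|q|² = ρ² r`, so `alq` pulls back to `Im (Q̄ dQ)/r`;
  `s = La (r-1)/(r+1)`, and `s < 0 ↔ r < 1`, `|q|² = 4 La² r/(1+r)²`.
* `cB`: `ζ = b y`, `z = y`: `Im (conj ζ dζ) = |b|² Im (ȳ dy) + |y|² Im (b̄ db)`; `(1-h0)/2 = 1/(1+|b|²)`; `h = f b̄` with the
  real factor `f = 2/(1+|b|²)`, `Im (conj h dh) = f² Im (b db̄) = -f² Im (b̄ db)`, so `Ab` pulls back to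
  `Im (b̄ db)/(1+|b|²)`.
* `cA`: `ζ = y`, `z = β y`; `(1-h0)/2 = |β|²/(1+|β|²)`; `h = f β`, `Abe` pulls back to `Im (β̄ dβ)/(1+|β|²)`.
The square root `√(La² - |y|²(1+|b|²))` enters only through the coordinate `s`, which the forms `q2N`, `bN`, `aN`, `Ab`
do not use (it must still be differentiable: `|y|²(1+|b|²) < La²`).
-/

open Set Topology
open scoped ContDiff ComplexConjugate

namespace Pool.Agent.H34.SY

noncomputable section

theorem FPar.SH_rpos {w : H6} (hw : w.2.1 ≠ 0 ∨ w.2.2 ≠ 0) :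
    0 < Complex.normSq w.2.1 + Complex.normSq w.2.2 := by
  rcases hw with h | h
  · have h1 := Complex.normSq_pos.2 h
    have h2 := Complex.normSq_nonneg w.2.2
    linarith
  · have h1 := Complex.normSq_pos.2 h
    have h2 := Complex.normSq_nonneg w.2.1
    linarith

/-! #### Helpers -/

/-- `Im (ḡ dg)` at `w`, evaluated on `a`. -/
def SH_I (g : H6 → ℂ) (w a : H6) : ℝ := (conj (g w) * fderiv ℝ g w a).im

theorem SH_pb (f : H6 → FP) (c : FP →L[ℝ] ℂ) (w a : H6) (hf : DifferentiableAt ℝ f w) :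
    imF c (f w) (fderiv ℝ f w a) = SH_I (fun v => c (f v)) w a := by
  have h : fderiv ℝ (fun v => c (f v)) w = c.comp (fderiv ℝ f w) :=
    (c.hasFDerivAt.comp w hf.hasFDerivAt).fderiv
  rw [imF_apply]
  unfold SH_I
  rw [h]
  rfl

theorem SH_lin (c : H6 →L[ℝ] ℂ) (w a : H6) : SH_I (fun v => c v) w a = imF c w a := by
  have h : fderiv ℝ (fun v => c v) w = c := c.fderiv
  rw [imF_apply]
  unfold SH_I
  rw [h]

theorem SH_mul {X Y : H6 → ℂ} {w : H6} (a : H6) (hX : DifferentiableAt ℝ X w)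
    (hY : DifferentiableAt ℝ Y w) :
    SH_I (fun v => X v * Y v) w a =
      Complex.normSq (X w) * SH_I Y w a + Complex.normSq (Y w) * SH_I X w a := by
  have h : fderiv ℝ (fun v => X v * Y v) w = X w • fderiv ℝ Y w + Y w • fderiv ℝ X w :=
    (hX.hasFDerivAt.mul hY.hasFDerivAt).fderiv
  unfold SH_I
  rw [h]
  show (conj (X w * Y w) * (X w * fderiv ℝ Y w a + Y w * fderiv ℝ X w a)).im = _
  simp only [Complex.normSq_apply, Complex.mul_im, Complex.mul_re, Complex.add_re, Complex.add_im,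
    Complex.conj_re, Complex.conj_im, map_mul]
  ring

theorem SH_real {k : H6 → ℝ} {w : H6} (a : H6) (hk : DifferentiableAt ℝ k w) :
    SH_I (fun v => ((k v : ℝ) : ℂ)) w a = 0 := by
  have h : fderiv ℝ (fun v => ((k v : ℝ) : ℂ)) w = Complex.ofRealCLM.comp (fderiv ℝ k w) :=
    (Complex.ofRealCLM.hasFDerivAt.comp w hk.hasFDerivAt).fderiv
  unfold SH_I
  rw [h]
  show (conj ((k w : ℝ) : ℂ) * ((fderiv ℝ k w a : ℝ) : ℂ)).im = 0
  simp

theorem SH_conj {X : H6 → ℂ} {w : H6} (a : H6) (hX : DifferentiableAt ℝ X w) :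
    SH_I (fun v => conj (X v)) w a = -SH_I X w a := by
  have h : fderiv ℝ (fun v => conj (X v)) w =
      (Complex.conjCLE : ℂ →L[ℝ] ℂ).comp (fderiv ℝ X w) :=
    ((Complex.conjCLE : ℂ →L[ℝ] ℂ).hasFDerivAt.comp w hX.hasFDerivAt).fderiv
  unfold SH_I
  rw [h]
  show (conj (conj (X w)) * conj (fderiv ℝ X w a)).im = -(conj (X w) * fderiv ℝ X w a).im
  simp only [Complex.mul_im, Complex.conj_re, Complex.conj_im]
  ring

theorem SH_dr {k : H6 → ℝ} {w : H6} (hk : DifferentiableAt ℝ k w) :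
    DifferentiableAt ℝ (fun v => ((k v : ℝ) : ℂ)) w :=
  (Complex.ofRealCLM.differentiableAt).comp w hk

theorem SH_dc {X : H6 → ℂ} {w : H6} (hX : DifferentiableAt ℝ X w) :
    DifferentiableAt ℝ (fun v => conj (X v)) w :=
  ((Complex.conjCLE : ℂ →L[ℝ] ℂ).differentiableAt).comp w hX

theorem SH_dn {X : H6 → ℂ} {w : H6} (hX : DifferentiableAt ℝ X w) :
    DifferentiableAt ℝ (fun v => Complex.normSq (X v)) w :=
  ((FPar.SD1_normSq.differentiable (by simp)) (X w)).comp w hX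

theorem SH_d1 (w : H6) : DifferentiableAt ℝ (fun v : H6 => v.1) w := hU.differentiableAt

theorem SH_d2 (w : H6) : DifferentiableAt ℝ (fun v : H6 => v.2.1) w := hA.differentiableAt

theorem SH_d3 (w : H6) : DifferentiableAt ℝ (fun v : H6 => v.2.2) w := hB.differentiableAt

theorem SH_gdiv {k m : H6 → ℝ} {w : H6} (hk : DifferentiableAt ℝ k w)
    (hm : DifferentiableAt ℝ m w) (h0 : m w ≠ 0) : DifferentiableAt ℝ (fun v => k v / m v) w := by
  have h1 : DifferentiableAt ℝ (fun v => (m v)⁻¹) w := hm.inv h0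
  simp only [div_eq_mul_inv]
  exact hk.fun_mul h1

theorem SH_rdiv (La : ℝ) {m : H6 → ℝ} {w : H6} (hm : DifferentiableAt ℝ m w)
    (h0 : 1 + m w ≠ 0) : DifferentiableAt ℝ (fun v => La / (1 + m v)) w :=
  SH_gdiv (k := fun _ => La) (m := fun v => 1 + m v) (differentiableAt_const _) (hm.const_add 1) h0

/-- the differential of `cQ`. -/
theorem SH_dQ (La : ℝ) (τ : H6 → ℝ) (w : H6) (hw : w.2.1 ≠ 0 ∨ w.2.2 ≠ 0)
    (hτ : DifferentiableAt ℝ τ w) :
    DifferentiableAt ℝ (fun w : H6 => cQ La (τ w, w)) w := by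
  have hr : DifferentiableAt ℝ
      (fun v : H6 => Complex.normSq v.2.1 + Complex.normSq v.2.2) w :=
    (SH_dn (SH_d2 w)).add (SH_dn (SH_d3 w))
  have hr0 : Complex.normSq w.2.1 + Complex.normSq w.2.2 ≠ 0 := (FPar.SH_rpos hw).ne'
  have hr1 : 1 + (Complex.normSq w.2.1 + Complex.normSq w.2.2) ≠ 0 := by
    have := FPar.SH_rpos hw
    positivity
  have hr2 : Complex.normSq w.2.1 + Complex.normSq w.2.2 + 1 ≠ 0 := by
    have := FPar.SH_rpos hw
    positivity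
  have hrho : DifferentiableAt ℝ
      (fun v : H6 => 2 * La / (1 + (Complex.normSq v.2.1 + Complex.normSq v.2.2))) w :=
    SH_rdiv (2 * La) hr hr1
  refine DifferentiableAt.prodMk hτ (DifferentiableAt.prodMk (SH_d1 w) (DifferentiableAt.prodMk
    ?_ (DifferentiableAt.prodMk ?_ (DifferentiableAt.prodMk ?_ (DifferentiableAt.prodMk ?_ ?_)))))
  · exact SH_gdiv ((SH_dn (SH_d2 w)).fun_sub (SH_dn (SH_d3 w))) hr hr0
  · exact (SH_dr (SH_gdiv (differentiableAt_const (2 : ℝ)) hr hr0)).fun_mul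
      ((SH_dc (SH_d2 w)).fun_mul (SH_d3 w))
  · exact (SH_dr hrho).fun_mul (SH_d2 w)
  · exact (SH_dr hrho).fun_mul (SH_d3 w)
  · exact SH_gdiv ((hr.sub_const 1).const_mul La) (hr.add_const 1) hr2

theorem SH_dsq (La sg : ℝ) (w : H6)
    (hw : Complex.normSq w.2.2 * (1 + Complex.normSq w.2.1) < La ^ 2) :
    DifferentiableAt ℝ (fun v : H6 => sg * Real.sqrt (La ^ 2 - Complex.normSq v.2.2 *
      (1 + Complex.normSq v.2.1))) w := by
  have h1 : DifferentiableAt ℝ (fun v : H6 => La ^ 2 - Complex.normSq v.2.2 *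
      (1 + Complex.normSq v.2.1)) w :=
    ((SH_dn (SH_d3 w)).fun_mul ((SH_dn (SH_d2 w)).const_add 1)).const_sub (La ^ 2)
  have h2 : La ^ 2 - Complex.normSq w.2.2 * (1 + Complex.normSq w.2.1) ≠ 0 := by linarith
  exact (h1.sqrt h2).const_mul sg

theorem SH_dB (La sg : ℝ) (τ : H6 → ℝ) (w : H6)
    (hw : Complex.normSq w.2.2 * (1 + Complex.normSq w.2.1) < La ^ 2)
    (hτ : DifferentiableAt ℝ τ w) :
    DifferentiableAt ℝ (fun w : H6 => cB La sg (τ w, w)) w := by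
  have h0 := Complex.normSq_nonneg w.2.1
  have hr1 : 1 + Complex.normSq w.2.1 ≠ 0 := by positivity
  have hr2 : Complex.normSq w.2.1 + 1 ≠ 0 := by positivity
  refine DifferentiableAt.prodMk hτ (DifferentiableAt.prodMk (SH_d1 w) (DifferentiableAt.prodMk
    ?_ (DifferentiableAt.prodMk ?_ (DifferentiableAt.prodMk ?_ (DifferentiableAt.prodMk ?_ ?_)))))
  · exact SH_gdiv ((SH_dn (SH_d2 w)).sub_const 1) ((SH_dn (SH_d2 w)).add_const 1) hr2
  · exact (SH_dr (SH_rdiv 2 (SH_dn (SH_d2 w)) hr1)).fun_mul (SH_dc (SH_d2 w))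
  · exact (SH_d2 w).fun_mul (SH_d3 w)
  · exact SH_d3 w
  · exact SH_dsq La sg w hw

theorem SH_dA (La sg : ℝ) (τ : H6 → ℝ) (w : H6)
    (hw : Complex.normSq w.2.2 * (1 + Complex.normSq w.2.1) < La ^ 2)
    (hτ : DifferentiableAt ℝ τ w) :
    DifferentiableAt ℝ (fun w : H6 => cA La sg (τ w, w)) w := by
  have h0 := Complex.normSq_nonneg w.2.1
  have hr1 : 1 + Complex.normSq w.2.1 ≠ 0 := by positivity
  refine DifferentiableAt.prodMk hτ (DifferentiableAt.prodMk (SH_d1 w) (DifferentiableAt.prodMk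
    ?_ (DifferentiableAt.prodMk ?_ (DifferentiableAt.prodMk ?_ (DifferentiableAt.prodMk ?_ ?_)))))
  · exact SH_gdiv ((SH_dn (SH_d2 w)).const_sub 1) ((SH_dn (SH_d2 w)).const_add 1) hr1
  · exact (SH_dr (SH_rdiv 2 (SH_dn (SH_d2 w)) hr1)).fun_mul (SH_d2 w)
  · exact SH_d3 w
  · exact (SH_d2 w).fun_mul (SH_d3 w)
  · exact SH_dsq La sg w hw

/-- the values of `Im (c̄ dc)` in the chart `cQ`. -/
theorem SH_Q_U (La : ℝ) (τ : H6 → ℝ) (w a : H6) :
    SH_I (fun v => pU (cQ La (τ v, v))) w a = imF hU w a := SH_lin hU w a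

theorem SH_Q_Ze (La : ℝ) (τ : H6 → ℝ) (w a : H6) (hw : w.2.1 ≠ 0 ∨ w.2.2 ≠ 0) :
    SH_I (fun v => pZe (cQ La (τ v, v))) w a =
      (2 * La / (1 + (Complex.normSq w.2.1 + Complex.normSq w.2.2))) ^ 2 * imF hA w a := by
  have hr : DifferentiableAt ℝ
      (fun v : H6 => Complex.normSq v.2.1 + Complex.normSq v.2.2) w :=
    (SH_dn (SH_d2 w)).add (SH_dn (SH_d3 w))
  have hr1 : 1 + (Complex.normSq w.2.1 + Complex.normSq w.2.2) ≠ 0 := by
    have := FPar.SH_rpos hw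
    positivity
  have hrho : DifferentiableAt ℝ
      (fun v : H6 => 2 * La / (1 + (Complex.normSq v.2.1 + Complex.normSq v.2.2))) w :=
    SH_rdiv (2 * La) hr hr1
  have h1 := SH_mul a (SH_dr hrho) (SH_d2 w)
  rw [SH_real a hrho, mul_zero, add_zero, Complex.normSq_ofReal] at h1
  have h2 : SH_I (fun v : H6 => v.2.1) w a = imF hA w a := SH_lin hA w a
  rw [h2] at h1
  rw [sq]
  exact h1

theorem SH_Q_Z (La : ℝ) (τ : H6 → ℝ) (w a : H6) (hw : w.2.1 ≠ 0 ∨ w.2.2 ≠ 0) :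
    SH_I (fun v => pZ (cQ La (τ v, v))) w a =
      (2 * La / (1 + (Complex.normSq w.2.1 + Complex.normSq w.2.2))) ^ 2 * imF hB w a := by
  have hr : DifferentiableAt ℝ
      (fun v : H6 => Complex.normSq v.2.1 + Complex.normSq v.2.2) w :=
    (SH_dn (SH_d2 w)).add (SH_dn (SH_d3 w))
  have hr1 : 1 + (Complex.normSq w.2.1 + Complex.normSq w.2.2) ≠ 0 := by
    have := FPar.SH_rpos hw
    positivity
  have hrho : DifferentiableAt ℝ
      (fun v : H6 => 2 * La / (1 + (Complex.normSq v.2.1 + Complex.normSq v.2.2))) w :=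
    SH_rdiv (2 * La) hr hr1
  have h1 := SH_mul a (SH_dr hrho) (SH_d3 w)
  rw [SH_real a hrho, mul_zero, add_zero, Complex.normSq_ofReal] at h1
  have h2 : SH_I (fun v : H6 => v.2.2) w a = imF hB w a := SH_lin hB w a
  rw [h2] at h1
  rw [sq]
  exact h1

namespace FPar

/-- `F0` as a function of `r = |Q|²`. -/
def GM (P : FPar) (r : ℝ) : ℝ :=
  P.f0 (P.La * (r - 1) / (r + 1)) +
    P.eps * (if r < 1 then P.chi (4 * P.La ^ 2 * r / (1 + r) ^ 2) else 0)

/-- Primitive near `q = 0` on the side `N`, with the local primitive `A` of `areaF`. -/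
def primN (P : FPar) (k1 k2 : ℝ) (A : Form1 FP) : Form1 FP := fun p =>
  k1 • P.q2N p + P.bN p + (k2 * ((1 - fH0 p) / 2)) • P.aN p + k2 • A p

/-- Primitive near `q = 0` on the side `S`. -/
def primS (k1 k2 : ℝ) (A : Form1 FP) : Form1 FP := fun p => k1 • q2S p + bS p + k2 • A p

theorem SH_F0Q (P : FPar) (h : P.Ok0) (t : ℝ) (w : H6) (hw : w.2.1 ≠ 0 ∨ w.2.2 ≠ 0) :
    P.F0 (cQ P.La (t, w)) = P.GM (qsq w.2.1 w.2.2) := by
  have hr := SH_rpos hw
  have hLa : 0 < P.La := by linarith [h.La]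
  have hS : fS (cQ P.La (t, w)) = P.La * (qsq w.2.1 w.2.2 - 1) / (qsq w.2.1 w.2.2 + 1) := rfl
  have hZe : fZe (cQ P.La (t, w)) = ((2 * P.La / (1 + qsq w.2.1 w.2.2) : ℝ) : ℂ) * w.2.1 := rfl
  have hZ : fZ (cQ P.La (t, w)) = ((2 * P.La / (1 + qsq w.2.1 w.2.2) : ℝ) : ℂ) * w.2.2 := rfl
  have hq : qsq (fZe (cQ P.La (t, w))) (fZ (cQ P.La (t, w))) =
      4 * P.La ^ 2 * qsq w.2.1 w.2.2 / (1 + qsq w.2.1 w.2.2) ^ 2 := by
    rw [hZe, hZ]
    have hr1 : 1 + qsq w.2.1 w.2.2 ≠ 0 := by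
      have : 0 < qsq w.2.1 w.2.2 := hr
      positivity
    show Complex.normSq _ + Complex.normSq _ = _
    rw [Complex.normSq_mul, Complex.normSq_mul, Complex.normSq_ofReal]
    have h1 : qsq w.2.1 w.2.2 = Complex.normSq w.2.1 + Complex.normSq w.2.2 := rfl
    field_simp
    rw [h1]
    ring
  unfold F0 GM chip
  rw [hq, hS]
  have hiff : P.La * (qsq w.2.1 w.2.2 - 1) / (qsq w.2.1 w.2.2 + 1) < 0 ↔ qsq w.2.1 w.2.2 < 1 := by
    have h0 : 0 < qsq w.2.1 w.2.2 + 1 := by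
      have : 0 < qsq w.2.1 w.2.2 := hr
      positivity
    rw [div_lt_iff₀ h0, zero_mul]
    constructor
    · intro h1
      by_contra h2
      have : 0 ≤ P.La * (qsq w.2.1 w.2.2 - 1) := mul_nonneg hLa.le (by linarith)
      linarith
    · intro h1
      exact mul_neg_of_pos_of_neg hLa (by linarith)
  by_cases hc : qsq w.2.1 w.2.2 < 1
  · rw [if_pos hc, if_pos (hiff.2 hc)]
  · rw [if_neg hc, if_neg (fun h1 => hc (hiff.1 h1))]

theorem pb_cQ_N (P : FPar) (h : P.Ok0) (τ : H6 → ℝ) (w : H6) (hw : w.2.1 ≠ 0 ∨ w.2.2 ≠ 0)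
    (hτ : DifferentiableAt ℝ τ w) :
    pb1 (fun w : H6 => cQ P.La (τ w, w)) P.lN0 w = lamQ P.GM P.ka P.kr 0 0 w := by
  have hf := SH_dQ P.La τ w hw hτ
  have hr := SH_rpos hw
  have hLa : 0 < P.La := by linarith [h.La]
  refine ContinuousLinearMap.ext fun a => ?_
  have hU1 := (SH_pb _ pU w a hf).trans (SH_Q_U P.La τ w a)
  have hZe1 := (SH_pb _ pZe w a hf).trans (SH_Q_Ze P.La τ w a hw)
  have hZ1 := (SH_pb _ pZ w a hf).trans (SH_Q_Z P.La τ w a hw)
  set X : FP := fderiv ℝ (fun w : H6 => cQ P.La (τ w, w)) w a with hX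
  show P.F0 (cQ P.La (τ w, w)) * ((qsq (((2 * P.La / (1 + (Complex.normSq w.2.1 + Complex.normSq w.2.2)) : ℝ) : ℂ) * w.2.1)
      (((2 * P.La / (1 + (Complex.normSq w.2.1 + Complex.normSq w.2.2)) : ℝ) : ℂ) * w.2.2))⁻¹ *
      (imF pZe (cQ P.La (τ w, w)) X + imF pZ (cQ P.La (τ w, w)) X) +
      Complex.normSq (((2 * P.La / (1 + (Complex.normSq w.2.1 + Complex.normSq w.2.2)) : ℝ) : ℂ) * w.2.2) /
        (qsq (((2 * P.La / (1 + (Complex.normSq w.2.1 + Complex.normSq w.2.2)) : ℝ) : ℂ) * w.2.1)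
      (((2 * P.La / (1 + (Complex.normSq w.2.1 + Complex.normSq w.2.2)) : ℝ) : ℂ) * w.2.2)) *
      (P.ka (Complex.normSq w.1) * imF pU (cQ P.La (τ w, w)) X)) +
      P.kr (Complex.normSq w.1) / 2 * imF pU (cQ P.La (τ w, w)) X =
    (P.GM (qsq w.2.1 w.2.2) / qsq w.2.1 w.2.2) * (imF hA w a + imF hB w a +
      (Complex.normSq w.2.2 * P.ka (Complex.normSq w.1)) * imF hU w a)
    + (P.kr (Complex.normSq w.1) / 2) * imF hU w a
    + (0 * 0) * imF hU w a
  rw [hU1, hZe1, hZ1, SH_F0Q P h (τ w) w hw]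
  unfold qsq
  rw [Complex.normSq_mul, Complex.normSq_mul, Complex.normSq_ofReal]
  have hr1 : 1 + (Complex.normSq w.2.1 + Complex.normSq w.2.2) ≠ 0 := by positivity
  have hrho : 2 * P.La / (1 + (Complex.normSq w.2.1 + Complex.normSq w.2.2)) ≠ 0 := by positivity
  generalize 2 * P.La / (1 + (Complex.normSq w.2.1 + Complex.normSq w.2.2)) = ρ at *
  have hr2 := hr.ne'
  rw [← mul_add (ρ * ρ)]
  generalize P.GM (Complex.normSq w.2.1 + Complex.normSq w.2.2) = G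
  field_simp
  ring

theorem pb_cQ_S (P : FPar) (h : P.Ok0) (τ : H6 → ℝ) (w : H6) (hw : w.2.1 ≠ 0 ∨ w.2.2 ≠ 0)
    (hτ : DifferentiableAt ℝ τ w) :
    pb1 (fun w : H6 => cQ P.La (τ w, w)) P.lS0 w = lamQ P.GM 0 (fun _ => -1) 0 0 w := by
  have hf := SH_dQ P.La τ w hw hτ
  have hr := SH_rpos hw
  have hLa : 0 < P.La := by linarith [h.La]
  refine ContinuousLinearMap.ext fun a => ?_
  have hU1 := (SH_pb _ pU w a hf).trans (SH_Q_U P.La τ w a)
  have hZe1 := (SH_pb _ pZe w a hf).trans (SH_Q_Ze P.La τ w a hw)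
  have hZ1 := (SH_pb _ pZ w a hf).trans (SH_Q_Z P.La τ w a hw)
  set X : FP := fderiv ℝ (fun w : H6 => cQ P.La (τ w, w)) w a with hX
  show P.F0 (cQ P.La (τ w, w)) * ((qsq (((2 * P.La / (1 + (Complex.normSq w.2.1 + Complex.normSq w.2.2)) : ℝ) : ℂ) * w.2.1)
      (((2 * P.La / (1 + (Complex.normSq w.2.1 + Complex.normSq w.2.2)) : ℝ) : ℂ) * w.2.2))⁻¹ *
      (imF pZe (cQ P.La (τ w, w)) X + imF pZ (cQ P.La (τ w, w)) X)) +
      (-(1 / 2)) * imF pU (cQ P.La (τ w, w)) X =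
    (P.GM (qsq w.2.1 w.2.2) / qsq w.2.1 w.2.2) * (imF hA w a + imF hB w a +
      (Complex.normSq w.2.2 * 0) * imF hU w a)
    + (-1 / 2) * imF hU w a
    + (0 * 0) * imF hU w a
  rw [hU1, hZe1, hZ1, SH_F0Q P h (τ w) w hw]
  unfold qsq
  rw [Complex.normSq_mul, Complex.normSq_mul, Complex.normSq_ofReal]
  have hr1 : 1 + (Complex.normSq w.2.1 + Complex.normSq w.2.2) ≠ 0 := by positivity
  have hrho : 2 * P.La / (1 + (Complex.normSq w.2.1 + Complex.normSq w.2.2)) ≠ 0 := by positivity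
  generalize 2 * P.La / (1 + (Complex.normSq w.2.1 + Complex.normSq w.2.2)) = ρ at *
  have hr2 := hr.ne'
  rw [← mul_add (ρ * ρ)]
  generalize P.GM (Complex.normSq w.2.1 + Complex.normSq w.2.2) = G
  field_simp
  ring
theorem SH_B_Ze (La sg : ℝ) (τ : H6 → ℝ) (w a : H6) :
    SH_I (fun v => pZe (cB La sg (τ v, v))) w a =
      Complex.normSq w.2.1 * imF hB w a + Complex.normSq w.2.2 * imF hA w a := by
  have h1 := SH_mul a (SH_d2 w) (SH_d3 w)
  have h2 : SH_I (fun v : H6 => v.2.1) w a = imF hA w a := SH_lin hA w a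
  have h3 : SH_I (fun v : H6 => v.2.2) w a = imF hB w a := SH_lin hB w a
  rw [h2, h3] at h1
  exact h1

theorem SH_B_H (La sg : ℝ) (τ : H6 → ℝ) (w a : H6) :
    SH_I (fun v => pH (cB La sg (τ v, v))) w a =
      -((2 / (1 + Complex.normSq w.2.1)) * (2 / (1 + Complex.normSq w.2.1)) * imF hA w a) := by
  have h0 := Complex.normSq_nonneg w.2.1
  have hr1 : 1 + Complex.normSq w.2.1 ≠ 0 := by positivity
  have hrho : DifferentiableAt ℝ
      (fun v : H6 => 2 / (1 + Complex.normSq v.2.1)) w :=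
    SH_rdiv 2 (SH_dn (SH_d2 w)) hr1
  have h1 := SH_mul a (SH_dr hrho) (SH_dc (SH_d2 w))
  have h2 : SH_I (fun v : H6 => v.2.1) w a = imF hA w a := SH_lin hA w a
  rw [SH_real a hrho, mul_zero, add_zero, Complex.normSq_ofReal, SH_conj a (SH_d2 w), h2] at h1
  rw [← mul_neg]
  exact h1

theorem SH_A_H (La sg : ℝ) (τ : H6 → ℝ) (w a : H6) :
    SH_I (fun v => pH (cA La sg (τ v, v))) w a =
      ((2 / (1 + Complex.normSq w.2.1)) * (2 / (1 + Complex.normSq w.2.1)) * imF hA w a) := by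
  have h0 := Complex.normSq_nonneg w.2.1
  have hr1 : 1 + Complex.normSq w.2.1 ≠ 0 := by positivity
  have hrho : DifferentiableAt ℝ
      (fun v : H6 => 2 / (1 + Complex.normSq v.2.1)) w :=
    SH_rdiv 2 (SH_dn (SH_d2 w)) hr1
  have h1 := SH_mul a (SH_dr hrho) (SH_d2 w)
  have h2 : SH_I (fun v : H6 => v.2.1) w a = imF hA w a := SH_lin hA w a
  rw [SH_real a hrho, mul_zero, add_zero, Complex.normSq_ofReal, h2] at h1
  exact h1

theorem SH_h0B (x : ℝ) (hx : 0 ≤ x) : 1 - (x - 1) / (x + 1) = 2 / (1 + x) := by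
  have : x + 1 ≠ 0 := by positivity
  have h2 : 1 + x ≠ 0 := by positivity
  field_simp
  ring

theorem SH_h0A (x : ℝ) (hx : 0 ≤ x) : 1 - (1 - x) / (1 + x) = 2 * x / (1 + x) := by
  have h2 : 1 + x ≠ 0 := by positivity
  field_simp
  ring

theorem SH_h0A' (x : ℝ) (hx : 0 ≤ x) : 1 + (1 - x) / (1 + x) = 2 / (1 + x) := by
  have h2 : 1 + x ≠ 0 := by positivity
  field_simp
  ring

theorem pb_cB_N (P : FPar) (h : P.Ok0) (sg k1 k2 : ℝ) (τ : H6 → ℝ) (w : H6)
    (hw : Complex.normSq w.2.2 * (1 + Complex.normSq w.2.1) < P.La ^ 2)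
    (hτ : DifferentiableAt ℝ τ w) :
    pb1 (fun w : H6 => cB P.La sg (τ w, w)) (P.primN k1 k2 Ab) w =
      lamB k1 k2 P.ka P.kr
        (fun v => (k1 / 2) • (imF hA v + P.ka (Complex.normSq v.1) • imF hU v)) w := by
  have hf := SH_dB P.La sg τ w hw hτ
  have h0 := Complex.normSq_nonneg w.2.1
  refine ContinuousLinearMap.ext fun a => ?_
  have hU1 : imF pU _ _ = imF hU w a := (SH_pb _ pU w a hf).trans (SH_lin hU w a)
  have hZe1 := (SH_pb _ pZe w a hf).trans (SH_B_Ze P.La sg τ w a)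
  have hZ1 : imF pZ _ _ = imF hB w a := (SH_pb _ pZ w a hf).trans (SH_lin hB w a)
  have hH1 := (SH_pb _ pH w a hf).trans (SH_B_H P.La sg τ w a)
  set X : FP := fderiv ℝ (fun w : H6 => cB P.La sg (τ w, w)) w a with hX
  show k1 * ((1 / 2) * (imF pZe (cB P.La sg (τ w, w)) X + imF pZ (cB P.La sg (τ w, w)) X +
        Complex.normSq w.2.2 * (P.ka (Complex.normSq w.1) * imF pU (cB P.La sg (τ w, w)) X))) +
      P.kr (Complex.normSq w.1) / 2 * imF pU (cB P.La sg (τ w, w)) X +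
      (k2 * ((1 - (Complex.normSq w.2.1 - 1) / (Complex.normSq w.2.1 + 1)) / 2)) *
        (P.ka (Complex.normSq w.1) * imF pU (cB P.La sg (τ w, w)) X) +
      k2 * ((-(1 / (2 * (1 - (Complex.normSq w.2.1 - 1) / (Complex.normSq w.2.1 + 1))))) *
        imF pH (cB P.La sg (τ w, w)) X) =
    (k1 / 2 * (1 + Complex.normSq w.2.1)) * imF hB w a + Complex.normSq w.2.2 *
      ((k1 / 2) * (imF hA w a + P.ka (Complex.normSq w.1) * imF hU w a))
    + (k2 / (1 + Complex.normSq w.2.1)) * (imF hA w a + P.ka (Complex.normSq w.1) * imF hU w a)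
    + (P.kr (Complex.normSq w.1) / 2) * imF hU w a
  rw [hU1, hZe1, hZ1, hH1, SH_h0B _ h0]
  have hr1 : 1 + Complex.normSq w.2.1 ≠ 0 := by positivity
  field_simp
  ring

theorem pb_cA_N (P : FPar) (h : P.Ok0) (sg k1 k2 : ℝ) (τ : H6 → ℝ) (w : H6)
    (hw : Complex.normSq w.2.2 * (1 + Complex.normSq w.2.1) < P.La ^ 2)
    (hτ : DifferentiableAt ℝ τ w) :
    pb1 (fun w : H6 => cA P.La sg (τ w, w)) (P.primN k1 k2 Abe) w =
      lamA k1 k2 P.ka P.kr
        (fun v => (k1 / 2) •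
          (imF hA v + (Complex.normSq v.2.1 * P.ka (Complex.normSq v.1)) • imF hU v)) w := by
  have hf := SH_dA P.La sg τ w hw hτ
  have h0 := Complex.normSq_nonneg w.2.1
  refine ContinuousLinearMap.ext fun a => ?_
  have hU1 : imF pU _ _ = imF hU w a := (SH_pb _ pU w a hf).trans (SH_lin hU w a)
  have hZ1 : imF pZ _ _ = _ := (SH_pb _ pZ w a hf).trans (SH_B_Ze P.La sg τ w a)
  have hZe1 : imF pZe _ _ = imF hB w a := (SH_pb _ pZe w a hf).trans (SH_lin hB w a)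
  have hH1 := (SH_pb _ pH w a hf).trans (SH_A_H P.La sg τ w a)
  set X : FP := fderiv ℝ (fun w : H6 => cA P.La sg (τ w, w)) w a with hX
  show k1 * ((1 / 2) * (imF pZe (cA P.La sg (τ w, w)) X + imF pZ (cA P.La sg (τ w, w)) X +
        Complex.normSq (w.2.1 * w.2.2) *
          (P.ka (Complex.normSq w.1) * imF pU (cA P.La sg (τ w, w)) X))) +
      P.kr (Complex.normSq w.1) / 2 * imF pU (cA P.La sg (τ w, w)) X +
      (k2 * ((1 - (1 - Complex.normSq w.2.1) / (1 + Complex.normSq w.2.1)) / 2)) *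
        (P.ka (Complex.normSq w.1) * imF pU (cA P.La sg (τ w, w)) X) +
      k2 * ((1 / (2 * (1 + (1 - Complex.normSq w.2.1) / (1 + Complex.normSq w.2.1)))) *
        imF pH (cA P.La sg (τ w, w)) X) =
    (k1 / 2 * (1 + Complex.normSq w.2.1)) * imF hB w a + Complex.normSq w.2.2 *
      ((k1 / 2) * (imF hA w a + (Complex.normSq w.2.1 * P.ka (Complex.normSq w.1)) * imF hU w a))
    + (k2 / (1 + Complex.normSq w.2.1)) *
      (imF hA w a + (Complex.normSq w.2.1 * P.ka (Complex.normSq w.1)) * imF hU w a)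
    + (P.kr (Complex.normSq w.1) / 2) * imF hU w a
  rw [hU1, hZe1, hZ1, hH1, SH_h0A _ h0, SH_h0A' _ h0, Complex.normSq_mul]
  have hr1 : 1 + Complex.normSq w.2.1 ≠ 0 := by positivity
  field_simp
  ring

theorem pb_cB_S (P : FPar) (h : P.Ok0) (sg k1 k2 : ℝ) (τ : H6 → ℝ) (w : H6)
    (hw : Complex.normSq w.2.2 * (1 + Complex.normSq w.2.1) < P.La ^ 2)
    (hτ : DifferentiableAt ℝ τ w) :
    pb1 (fun w : H6 => cB P.La sg (τ w, w)) (primS k1 k2 Ab) w =
      lamB k1 k2 0 (fun _ => -1) (fun v => (k1 / 2) • imF hA v) w := by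
  have hf := SH_dB P.La sg τ w hw hτ
  have h0 := Complex.normSq_nonneg w.2.1
  refine ContinuousLinearMap.ext fun a => ?_
  have hU1 : imF pU _ _ = imF hU w a := (SH_pb _ pU w a hf).trans (SH_lin hU w a)
  have hZe1 := (SH_pb _ pZe w a hf).trans (SH_B_Ze P.La sg τ w a)
  have hZ1 : imF pZ _ _ = imF hB w a := (SH_pb _ pZ w a hf).trans (SH_lin hB w a)
  have hH1 := (SH_pb _ pH w a hf).trans (SH_B_H P.La sg τ w a)
  set X : FP := fderiv ℝ (fun w : H6 => cB P.La sg (τ w, w)) w a with hX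
  show k1 * ((1 / 2) * (imF pZe (cB P.La sg (τ w, w)) X + imF pZ (cB P.La sg (τ w, w)) X)) +
      (-(1 / 2)) * imF pU (cB P.La sg (τ w, w)) X +
      k2 * ((-(1 / (2 * (1 - (Complex.normSq w.2.1 - 1) / (Complex.normSq w.2.1 + 1))))) *
        imF pH (cB P.La sg (τ w, w)) X) =
    (k1 / 2 * (1 + Complex.normSq w.2.1)) * imF hB w a + Complex.normSq w.2.2 *
      ((k1 / 2) * imF hA w a)
    + (k2 / (1 + Complex.normSq w.2.1)) * (imF hA w a + 0 * imF hU w a)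
    + (-1 / 2) * imF hU w a
  rw [hU1, hZe1, hZ1, hH1, SH_h0B _ h0]
  have hr1 : 1 + Complex.normSq w.2.1 ≠ 0 := by positivity
  field_simp
  ring

theorem pb_cA_S (P : FPar) (h : P.Ok0) (sg k1 k2 : ℝ) (τ : H6 → ℝ) (w : H6)
    (hw : Complex.normSq w.2.2 * (1 + Complex.normSq w.2.1) < P.La ^ 2)
    (hτ : DifferentiableAt ℝ τ w) :
    pb1 (fun w : H6 => cA P.La sg (τ w, w)) (primS k1 k2 Abe) w =
      lamA k1 k2 0 (fun _ => -1) (fun v => (k1 / 2) • imF hA v) w := by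
  have hf := SH_dA P.La sg τ w hw hτ
  have h0 := Complex.normSq_nonneg w.2.1
  refine ContinuousLinearMap.ext fun a => ?_
  have hU1 : imF pU _ _ = imF hU w a := (SH_pb _ pU w a hf).trans (SH_lin hU w a)
  have hZ1 : imF pZ _ _ = _ := (SH_pb _ pZ w a hf).trans (SH_B_Ze P.La sg τ w a)
  have hZe1 : imF pZe _ _ = imF hB w a := (SH_pb _ pZe w a hf).trans (SH_lin hB w a)
  have hH1 := (SH_pb _ pH w a hf).trans (SH_A_H P.La sg τ w a)
  set X : FP := fderiv ℝ (fun w : H6 => cA P.La sg (τ w, w)) w a with hX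
  show k1 * ((1 / 2) * (imF pZe (cA P.La sg (τ w, w)) X + imF pZ (cA P.La sg (τ w, w)) X)) +
      (-(1 / 2)) * imF pU (cA P.La sg (τ w, w)) X +
      k2 * ((1 / (2 * (1 + (1 - Complex.normSq w.2.1) / (1 + Complex.normSq w.2.1)))) *
        imF pH (cA P.La sg (τ w, w)) X) =
    (k1 / 2 * (1 + Complex.normSq w.2.1)) * imF hB w a + Complex.normSq w.2.2 *
      ((k1 / 2) * imF hA w a)
    + (k2 / (1 + Complex.normSq w.2.1)) *
      (imF hA w a + (Complex.normSq w.2.1 * 0) * imF hU w a)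
    + (-1 / 2) * imF hU w a
  rw [hU1, hZe1, hZ1, hH1, SH_h0A' _ h0]
  have hr1 : 1 + Complex.normSq w.2.1 ≠ 0 := by positivity
  field_simp
  ring

end FPar

end

end Pool.Agent.H34.SY
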