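import Pool.Agent.H34.SY.MH1
import Pool.Agent.H34.SY.SG
import Pool.Agent.H34.SY.SA2
import Pool.Agent.H34.SY.SH
import Pool.Agent.H34.SY.SD1
import Pool.Agent.H34.SY.SB
import Pool.Agent.H34.SY.CE
import Pool.Agent.H34.SY.CB

/-!
# Row MH3: nondegeneracy of the outer forms on the exceptional divisor

Side `N`: `z ∈ M'`, `B² < |u|²`, `q = 0`, `s < 0`.  `omOm = dd (bN + pb1 xiN q2N - (eps (1-h0)/2) aN) - eps areaF`.  Near `p`:
`|q|² < rb²/4`, so `l = 1`, `n = 1`: `xiN p = (t, u, h0, h, z̄ w̄, -ζ̄ w̄, s)`, `w = u/|u|` (`xiN_eq`).  With `θ = Im (ū du)`,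
`dw = i w θ/|u|²`: `Im (conj ζ' dζ') = -Im (z̄ dz) - |z|² θ/|u|²` for `ζ' = z̄ w̄`, the same for `z' = -ζ̄ w̄`, `|z'|² = |ζ|²`, so
`pb1 xiN q2N = ½ (-(Im ζ̄dζ + Im z̄dz) - |q|² θ/|u|² + |ζ|² ka θ)`.
In the chart `cB` (`graph_N`, `τ = tauN`, `TChart.graphN (tchart_B ..)` restricted to the open set): the form is `dd` of
`lamB (-1) (-eps) ka kr mu` with `mu = -½ imF hA - ½ (1+|b|²)(1/|u|²) imF hU + ½ |b|² ka imF hU` (use row SH for the terms without `xiN`;
`areaF = dd Ab` on tangent vectors of `FPS`), `lamB_nondeg`: base coefficient `(kr+skr') - 2 eps (ka+ska')/(1+|b|²) > 0` by `small2`.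
Chart `cA` if `h0 = 1` (or `-1 < h0`): `lamA (-1) (-eps)` and `Abe`.
Side `S`: `xiS p = (.., z̄, -ζ̄, ..)` near, `pb1 xiS q2S = -½ (Im ζ̄dζ + Im z̄dz)`; `lamB (-1) (-eps) 0 (-1) (-½ imF hA)`.
-/

open Set Topology
open scoped ContDiff ComplexConjugate

namespace Pool.Agent.H34.SY

section MH3gen

variable {E : Type} [NormedAddCommGroup E] [NormedSpace ℝ E]

/-- `Im (conj g dg)`. -/
noncomputable def MH3_I (g : E → ℂ) (w a : E) : ℝ := (conj (g w) * fderiv ℝ g w a).im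

theorem MH3_pb (f : E → FP) (c : FP →L[ℝ] ℂ) (w a : E) (hf : DifferentiableAt ℝ f w) :
    imF c (f w) (fderiv ℝ f w a) = MH3_I (fun v => c (f v)) w a := by
  have h : fderiv ℝ (fun v => c (f v)) w = c.comp (fderiv ℝ f w) :=
    (c.hasFDerivAt.comp w hf.hasFDerivAt).fderiv
  rw [imF_apply]
  unfold MH3_I
  rw [h]
  rfl

theorem MH3_lin (c : E →L[ℝ] ℂ) (w a : E) : MH3_I (fun v => c v) w a = imF c w a := by
  have h : fderiv ℝ (fun v => c v) w = c := c.fderiv
  rw [imF_apply]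
  unfold MH3_I
  rw [h]

theorem MH3_mul {X Y : E → ℂ} {w : E} (a : E) (hX : DifferentiableAt ℝ X w)
    (hY : DifferentiableAt ℝ Y w) :
    MH3_I (fun v => X v * Y v) w a =
      Complex.normSq (X w) * MH3_I Y w a + Complex.normSq (Y w) * MH3_I X w a := by
  have h : fderiv ℝ (fun v => X v * Y v) w = X w • fderiv ℝ Y w + Y w • fderiv ℝ X w :=
    (hX.hasFDerivAt.mul hY.hasFDerivAt).fderiv
  unfold MH3_I
  rw [h]
  change (conj (X w * Y w) * (X w * fderiv ℝ Y w a + Y w * fderiv ℝ X w a)).im = _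
  simp only [Complex.normSq_apply, Complex.mul_im, Complex.mul_re, Complex.add_re, Complex.add_im,
    Complex.conj_re, Complex.conj_im, map_mul]
  ring

theorem MH3_real {k : E → ℝ} {w : E} (a : E) (hk : DifferentiableAt ℝ k w) :
    MH3_I (fun v => ((k v : ℝ) : ℂ)) w a = 0 := by
  have h : fderiv ℝ (fun v => ((k v : ℝ) : ℂ)) w = Complex.ofRealCLM.comp (fderiv ℝ k w) :=
    (Complex.ofRealCLM.hasFDerivAt.comp w hk.hasFDerivAt).fderiv
  unfold MH3_I
  rw [h]
  change (conj ((k w : ℝ) : ℂ) * ((fderiv ℝ k w a : ℝ) : ℂ)).im = 0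
  simp

theorem MH3_conj {X : E → ℂ} {w : E} (a : E) (hX : DifferentiableAt ℝ X w) :
    MH3_I (fun v => conj (X v)) w a = -MH3_I X w a := by
  have h : fderiv ℝ (fun v => conj (X v)) w =
      (Complex.conjCLE : ℂ →L[ℝ] ℂ).comp (fderiv ℝ X w) :=
    ((Complex.conjCLE : ℂ →L[ℝ] ℂ).hasFDerivAt.comp w hX.hasFDerivAt).fderiv
  unfold MH3_I
  rw [h]
  change (conj (conj (X w)) * conj (fderiv ℝ X w a)).im = -(conj (X w) * fderiv ℝ X w a).im
  simp only [Complex.mul_im, Complex.conj_re, Complex.conj_im]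
  ring

theorem MH3_neg {X : E → ℂ} {w : E} (a : E) (hX : DifferentiableAt ℝ X w) :
    MH3_I (fun v => -(X v)) w a = MH3_I X w a := by
  have h : fderiv ℝ (fun v => -(X v)) w = -fderiv ℝ X w := hX.hasFDerivAt.fun_neg.fderiv
  unfold MH3_I
  rw [h]
  change (conj (-(X w)) * -(fderiv ℝ X w a)).im = _
  rw [map_neg, neg_mul_neg]

theorem MH3_dr {k : E → ℝ} {w : E} (hk : DifferentiableAt ℝ k w) :
    DifferentiableAt ℝ (fun v => ((k v : ℝ) : ℂ)) w :=
  (Complex.ofRealCLM.differentiableAt).comp w hk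

theorem MH3_dc {X : E → ℂ} {w : E} (hX : DifferentiableAt ℝ X w) :
    DifferentiableAt ℝ (fun v => conj (X v)) w :=
  ((Complex.conjCLE : ℂ →L[ℝ] ℂ).differentiableAt).comp w hX

end MH3gen

namespace FPar

/-- the pull-back of `q2N` by a map of the kind of `xiN` near `q = 0`. -/
theorem MH3_G (_P : FPar) (p : FP) (f : FP → FP) (w : FP → ℂ) (k : FP → ℝ)
    (hf : f =ᶠ[𝓝 p] fun y => (fT y, fU y, fH0 y, fH y, conj (fZ y) * conj (w y),
      -(conj (fZe y) * conj (w y)), fS y)) (hw : DifferentiableAt ℝ w p)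
    (hn : Complex.normSq (w p) = 1) (a : FP) (hI : MH3_I w p a = k a) :
    fU (f p) = fU p ∧ Complex.normSq (fZ (f p)) = Complex.normSq (fZe p) ∧
    imF pU (f p) (fderiv ℝ f p a) = imF pU p a ∧
    imF pZe (f p) (fderiv ℝ f p a) = -(imF pZ p a) - Complex.normSq (fZ p) * k a ∧
    imF pZ (f p) (fderiv ℝ f p a) = -(imF pZe p a) - Complex.normSq (fZe p) * k a := by
  obtain ⟨G, hG⟩ : ∃ G : FP → FP, G = fun y => (fT y, fU y, fH0 y, fH y,
      conj (fZ y) * conj (w y), -(conj (fZe y) * conj (w y)), fS y) := ⟨_, rfl⟩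
  rw [← hG] at hf
  have hfp : f p = G p := hf.eq_of_nhds
  have hdf : fderiv ℝ f p = fderiv ℝ G p := hf.fderiv_eq
  have dT : DifferentiableAt ℝ (fun y : FP => fT y) p := pT.differentiableAt
  have dU : DifferentiableAt ℝ (fun y : FP => fU y) p := pU.differentiableAt
  have dH0 : DifferentiableAt ℝ (fun y : FP => fH0 y) p := pH0.differentiableAt
  have dH : DifferentiableAt ℝ (fun y : FP => fH y) p := pH.differentiableAt
  have dZe : DifferentiableAt ℝ (fun y : FP => fZe y) p := pZe.differentiableAt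
  have dZ : DifferentiableAt ℝ (fun y : FP => fZ y) p := pZ.differentiableAt
  have dS : DifferentiableAt ℝ (fun y : FP => fS y) p := pS.differentiableAt
  have dw := MH3_dc hw
  have d1 : DifferentiableAt ℝ (fun y : FP => conj (fZ y) * conj (w y)) p :=
    (MH3_dc dZ).fun_mul dw
  have d2 : DifferentiableAt ℝ (fun y : FP => conj (fZe y) * conj (w y)) p :=
    (MH3_dc dZe).fun_mul dw
  have dG : DifferentiableAt ℝ G p := by
    rw [hG]
    exact dT.prodMk (dU.prodMk (dH0.prodMk (dH.prodMk (d1.prodMk (d2.fun_neg.prodMk dS)))))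
  rw [hfp, hdf, MH3_pb G pU p a dG, MH3_pb G pZe p a dG, MH3_pb G pZ p a dG, hG]
  have hnc : Complex.normSq (conj (w p)) = 1 := by
    rw [Complex.normSq_conj, hn]
  refine ⟨rfl, ?_, MH3_lin pU p a, ?_, ?_⟩
  · change Complex.normSq (-(conj (fZe p) * conj (w p))) = _
    rw [Complex.normSq_neg, map_mul, hnc, Complex.normSq_conj, mul_one]
  · change MH3_I (fun y : FP => conj (fZ y) * conj (w y)) p a = _
    rw [MH3_mul a (MH3_dc dZ) dw, MH3_conj a dZ, MH3_conj a hw, hI, hnc, Complex.normSq_conj]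
    have h1 : MH3_I (fun y : FP => fZ y) p a = imF pZ p a := MH3_lin pZ p a
    rw [h1]
    ring
  · change MH3_I (fun y : FP => -(conj (fZe y) * conj (w y))) p a = _
    rw [MH3_neg a d2, MH3_mul a (MH3_dc dZe) dw, MH3_conj a dZe, MH3_conj a hw, hI, hnc,
      Complex.normSq_conj]
    have h1 : MH3_I (fun y : FP => fZe y) p a = imF pZe p a := MH3_lin pZe p a
    rw [h1]
    ring

theorem MH3_wu {p : FP} (hu : fU p ≠ 0) : DifferentiableAt ℝ wu p ∧ Complex.normSq (wu p) = 1 ∧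
    ∀ a, MH3_I wu p a = (Complex.normSq (fU p))⁻¹ * imF pU p a := by
  have hr : ‖fU p‖ ≠ 0 := norm_ne_zero_iff.mpr hu
  have d1 : DifferentiableAt ℝ (fun y : FP => ‖fU y‖) p :=
    DifferentiableAt.norm ℝ (pU.differentiableAt) hu
  have d2 : DifferentiableAt ℝ (fun y : FP => (‖fU y‖)⁻¹) p := d1.fun_inv hr
  have dU : DifferentiableAt ℝ (fun y : FP => fU y) p := pU.differentiableAt
  have hn : Complex.normSq (fU p) = ‖fU p‖ ^ 2 := Complex.normSq_eq_norm_sq _
  refine ⟨(MH3_dr d2).fun_mul dU, ?_, ?_⟩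
  · change Complex.normSq ((((‖fU p‖)⁻¹ : ℝ) : ℂ) * fU p) = 1
    rw [map_mul, Complex.normSq_ofReal, hn]
    field_simp
  · intro a
    change MH3_I (fun y : FP => (((‖fU y‖)⁻¹ : ℝ) : ℂ) * fU y) p a = _
    rw [MH3_mul a (MH3_dr d2) dU, MH3_real a d2, mul_zero, add_zero, Complex.normSq_ofReal, hn]
    have h1 : MH3_I (fun y : FP => fU y) p a = imF pU p a := MH3_lin pU p a
    rw [h1]
    field_simp

theorem MH3_ll (P : FPar) (h : P.Ok2) {y : FP} (hs : fS y < 0)
    (hq : qsq (fZe y) (fZ y) < P.rb ^ 2 / 4) : P.ll y = 1 ∧ P.nn y = 1 := by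
  have hr := h.rb0
  have h1 : P.ll y = 1 := by
    unfold ll
    rw [if_pos hs]
    unfold Par.lamb
    apply (cut_props (1 / 4) (3 / 4) (by norm_num)).2.1
    rw [div_le_iff₀ (by positivity)]
    linarith
  refine ⟨h1, ?_⟩
  unfold nn
  rw [h1]
  norm_num

theorem MH3_xiW (P : FPar) (h : P.Ok2) {y : FP} (hs : fS y < 0)
    (hq : qsq (fZe y) (fZ y) < P.rb ^ 2 / 4) (w : ℂ) :
    P.xiW w y = (fT y, fU y, fH0 y, fH y, conj (fZ y) * conj w, -(conj (fZe y) * conj w),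
      fS y) := by
  obtain ⟨h1, h2⟩ := MH3_ll P h hs hq
  unfold xiW
  rw [h1, h2]
  simp

theorem MH3_open (P : FPar) {p : FP} (hs : fS p < 0)
    (hq : qsq (fZe p) (fZ p) < P.rb ^ 2 / 4) :
    ∀ᶠ y in 𝓝 p, fS y < 0 ∧ qsq (fZe y) (fZ y) < P.rb ^ 2 / 4 :=
  ((SD1_S.continuous.continuousAt).eventually (gt_mem_nhds hs)).and
    ((SD1_qsq.continuous.continuousAt).eventually (gt_mem_nhds hq))

/-- `pb1 xiN q2N` near `q = 0`. -/
theorem pb_xiN_q2N (P : FPar) (h : P.Ok2) {p : FP} (hu : P.hd.B ^ 2 < Complex.normSq (fU p))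
    (hs : fS p < 0) (hq : qsq (fZe p) (fZ p) < P.rb ^ 2 / 4) :
    pb1 P.xiN P.q2N p = (1 / 2 : ℝ) • (-(imF pZe p) - imF pZ p
      - (qsq (fZe p) (fZ p) / Complex.normSq (fU p)) • imF pU p
      + Complex.normSq (fZe p) • P.aN p) := by
  have hu0 : fU p ≠ 0 := by
    intro h0
    rw [h0, map_zero] at hu
    have := sq_nonneg P.hd.B
    linarith
  obtain ⟨w1, w2, w3⟩ := MH3_wu hu0
  have hev : P.xiN =ᶠ[𝓝 p] fun y => (fT y, fU y, fH0 y, fH y, conj (fZ y) * conj (wu y),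
      -(conj (fZe y) * conj (wu y)), fS y) := by
    filter_upwards [MH3_open P hs hq,
      (SD1_nU.continuous.continuousAt).eventually (lt_mem_nhds hu)] with y hy hyu
    rw [P.xiN_eq hyu.le]
    exact MH3_xiW P h hy.1 hy.2 _
  apply ContinuousLinearMap.ext
  intro a
  obtain ⟨g1, g2, g3, g4, g5⟩ := MH3_G P p P.xiN wu
    (fun a => (Complex.normSq (fU p))⁻¹ * imF pU p a) hev w1 w2 a (w3 a)
  change 1 / 2 * (imF pZe (P.xiN p) (fderiv ℝ P.xiN p a) +
      imF pZ (P.xiN p) (fderiv ℝ P.xiN p a) + Complex.normSq (fZ (P.xiN p)) *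
        (P.ka (Complex.normSq (fU (P.xiN p))) * imF pU (P.xiN p) (fderiv ℝ P.xiN p a))) =
    1 / 2 * (-(imF pZe p a) - imF pZ p a -
      qsq (fZe p) (fZ p) / Complex.normSq (fU p) * imF pU p a +
      Complex.normSq (fZe p) * (P.ka (Complex.normSq (fU p)) * imF pU p a))
  rw [g1, g2, g3, g4, g5]
  unfold qsq
  ring

theorem MH3_xiS (P : FPar) (h : P.Ok2) {p : FP}
    (hs : fS p < 0) (hq : qsq (fZe p) (fZ p) < P.rb ^ 2 / 4) :
    pb1 P.xiS q2S p = -q2S p := by
  have hev : P.xiS =ᶠ[𝓝 p] fun y => (fT y, fU y, fH0 y, fH y, conj (fZ y) * conj ((fun _ => 1) y),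
      -(conj (fZe y) * conj ((fun _ => 1) y)), fS y) := by
    filter_upwards [MH3_open P hs hq] with y hy
    rw [P.xiS_eq y]
    exact MH3_xiW P h hy.1 hy.2 _
  have hI : ∀ a : FP, MH3_I (fun _ : FP => (1 : ℂ)) p a = 0 := by
    intro a
    have h1 : fderiv ℝ (fun _ : FP => (1 : ℂ)) p = 0 := (hasFDerivAt_const (1 : ℂ) p).fderiv
    unfold MH3_I
    rw [h1]
    simp
  apply ContinuousLinearMap.ext
  intro a
  obtain ⟨g1, g2, g3, g4, g5⟩ := MH3_G P p P.xiS (fun _ => 1)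
    (fun _ => 0) hev (differentiableAt_const _) (map_one _) a (hI a)
  change 1 / 2 * (imF pZe (P.xiS p) (fderiv ℝ P.xiS p a) +
      imF pZ (P.xiS p) (fderiv ℝ P.xiS p a)) = -(1 / 2 * (imF pZe p a + imF pZ p a))
  rw [g4, g5]
  ring

/-- the reduction to a chart, side `N`. -/
theorem MH3_genN {La : ℝ} {U W : Set FP} {V : Set H7} {ρ : FP → H7} {c : H7 → FP}
    (hc : TChart La U V ρ c) {X : Set EA} {τ : FP → ℝ} (hX : GraphN La X W τ) {z : EA}
    (hz : z ∈ X) (h1 : -1 < eW1 z) (hU : rhoN z ∈ U) (hW : rhoN z ∈ W) (om : Form FP)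
    (L : Form1 FP) (lam : Form1 H6)
    (hom : ∀ a b, IsTangent (FPS La) (rhoN z) a → IsTangent (FPS La) (rhoN z) b →
      om (rhoN z) a b = dd L (rhoN z) a b)
    (hL : DifferentiableAt ℝ L (rhoN z))
    (hlam : ∀ (T : H6 → ℝ) (w : H6), ((0, w) : H7) ∈ V → DifferentiableAt ℝ T w →
      pb1 (fun w => c (T w, w)) L w = lam w)
    (hnd : ∀ a : H6, a ≠ 0 → ∃ b : H6, dd lam (ρ (rhoN z)).2 a b ≠ 0) :
    NonDegAt X (pb2 rhoN om) z := by
  obtain ⟨hXW, hWo, hWt, hτ, hτt, hXg⟩ := hX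
  have hr := hc.restrict hWo hWt
  have hτ' : ContDiffOn ℝ ∞ τ (U ∩ W) := hτ.mono inter_subset_right
  have hg := hr.graphN τ hτ' hτt X hXW (fun z hz h1 h2 => hXg z hz h1 h2.2)
  have hzU : z ∈ X ∩ ({z | -1 < eW1 z} ∩ rhoN ⁻¹' (U ∩ W)) := ⟨hz, h1, hU, hW⟩
  have hv := hg.maps_ρ z hzU
  have hψ := hg.left_inv z hzU
  obtain ⟨v, hvd⟩ : ∃ v : H6, v = (ρ (rhoN z)).2 := ⟨_, rfl⟩
  simp only [← hvd] at hv hψ hnd
  obtain ⟨T, hT⟩ : ∃ T : H6 → ℝ, T = fun w => τ (c (0, w)) := ⟨_, rfl⟩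
  obtain ⟨C, hC⟩ : ∃ C : H6 → FP, C = fun w => c (T w, w) := ⟨_, rfl⟩
  have hlin : ContDiff ℝ ∞ (fun w : H6 => ((0, w) : H7)) := contDiff_const.prodMk contDiff_id
  have hTs : ContDiffOn ℝ ∞ T {w : H6 | ((0, w) : H7) ∈ V ∩ c ⁻¹' W} := by
    rw [hT]
    exact hτ'.comp (hr.chart.smooth_ψ.comp hlin.contDiffOn fun w h => h)
      fun w h => (hr.chart.maps_ψ _ h).2
  have hopen : IsOpen {w : H6 | ((0, w) : H7) ∈ V ∩ c ⁻¹' W} := hg.isOpen_V
  have hj : ContDiffOn ℝ ∞ (fun w : H6 => ((T w, w) : H7))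
      {w : H6 | ((0, w) : H7) ∈ V ∩ c ⁻¹' W} := hTs.prodMk contDiffOn_id
  have hjV : ∀ w : H6, ((0, w) : H7) ∈ V ∩ c ⁻¹' W → ((T w, w) : H7) ∈ V := fun w hw =>
    hc.V_t (0, w) (T w) hw.1
  have hCs : ContDiffOn ℝ ∞ C {w : H6 | ((0, w) : H7) ∈ V ∩ c ⁻¹' W} := by
    rw [hC]
    exact hc.chart.smooth_ψ.comp hj fun w hw => hjV w hw
  have hvn : {w : H6 | ((0, w) : H7) ∈ V ∩ c ⁻¹' W} ∈ 𝓝 v := hopen.mem_nhds hv
  have hCa : ContDiffAt ℝ ∞ C v := hCs.contDiffAt hvn
  have hψe : (fun w : H6 => psiN (c (τ (c (0, w)), w))) = fun w => psiN (C w) := by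
    rw [hC, hT]
  rw [hψe] at hg
  have hψ2 : psiN (C v) = z := by
    rw [hC, hT]
    exact hψ
  have hCv : C v = rhoN z := by
    rw [← hψ2, rhoN_psiN]
  rw [← hψ2]
  apply nonDegAt_of_chart hg hv
  intro a ha
  obtain ⟨b, hb⟩ := hnd a ha
  refine ⟨b, ?_⟩
  have hopN : IsOpen {z : EA | -1 < eW1 z} := isOpen_lt continuous_const WB_cont_W1
  have e1 : pb2 (fun w => psiN (C w)) (pb2 rhoN om) v = pb2 C om v := by
    rw [pb2_comp]
    · simp only [rhoN_psiN]
    · exact (contDiff_psiN.contDiffAt.comp v hCa).differentiableAt (by simp)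
    · rw [hψ2]
      exact (contDiffOn_rhoN.contDiffAt (hopN.mem_nhds h1)).differentiableAt (by simp)
  have hta : ∀ a : H6, IsTangent (FPS La) (rhoN z) (fderiv ℝ C v a) := by
    intro a
    have d1 : DifferentiableAt ℝ (fun w : H6 => ((T w, w) : H7)) v :=
      (hj.contDiffAt hvn).differentiableAt (by simp)
    have d2 : DifferentiableAt ℝ c (T v, v) :=
      (hc.chart.smooth_ψ.contDiffAt (hc.chart.isOpen_V.mem_nhds (hjV v hv))).differentiableAt
        (by simp)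
    have d3 : fderiv ℝ C v = (fderiv ℝ c (T v, v)).comp
        (fderiv ℝ (fun w : H6 => ((T w, w) : H7)) v) := by
      rw [hC]
      have d6 : HasFDerivAt (fun w : H6 => c (T w, w)) ((fderiv ℝ c (T v, v)).comp
          (fderiv ℝ (fun w : H6 => ((T w, w) : H7)) v)) v :=
        HasFDerivAt.comp (g := c) (f := fun w : H6 => ((T w, w) : H7)) v d2.hasFDerivAt
          d1.hasFDerivAt
      exact d6.fderiv
    have d4 := hc.chart.tangent_psi (hjV v hv) (fderiv ℝ (fun w : H6 => ((T w, w) : H7)) v a)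
    have d5 : c (T v, v) = rhoN z := by
      rw [← hCv, hC]
    rw [d5] at d4
    rw [d3]
    exact d4
  have e2 : dd (pb1 C L) v = pb2 C (dd L) v :=
    dd_pb1 (hCa.of_le (by norm_cast)) (by rw [hCv]; exact hL)
  have e3 : dd (pb1 C L) v = dd lam v := by
    apply dd_congr
    filter_upwards [hvn] with w hw
    rw [hC]
    exact hlam T w hw.1 ((hTs.contDiffAt (hopen.mem_nhds hw)).differentiableAt (by simp))
  rw [e1, pb2_apply, hCv, hom _ _ (hta a) (hta b)]
  have e4 : dd L (rhoN z) (fderiv ℝ C v a) (fderiv ℝ C v b) = pb2 C (dd L) v a b := by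
    rw [pb2_apply, hCv]
  rw [e4, ← e2, e3]
  exact hb

/-- the reduction to a chart, side `S`. -/
theorem MH3_genS {La : ℝ} {U W : Set FP} {V : Set H7} {ρ : FP → H7} {c : H7 → FP}
    (hc : TChart La U V ρ c) {X : Set EA} {τ : FP → ℝ} (hX : GraphS La X W τ) {z : EA}
    (hz : z ∈ X) (h1 : eW1 z < 1) (hU : rhoS z ∈ U) (hW : rhoS z ∈ W) (om : Form FP)
    (L : Form1 FP) (lam : Form1 H6)
    (hom : ∀ a b, IsTangent (FPS La) (rhoS z) a → IsTangent (FPS La) (rhoS z) b →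
      om (rhoS z) a b = dd L (rhoS z) a b)
    (hL : DifferentiableAt ℝ L (rhoS z))
    (hlam : ∀ (T : H6 → ℝ) (w : H6), ((0, w) : H7) ∈ V → DifferentiableAt ℝ T w →
      pb1 (fun w => c (T w, w)) L w = lam w)
    (hnd : ∀ a : H6, a ≠ 0 → ∃ b : H6, dd lam (ρ (rhoS z)).2 a b ≠ 0) :
    NonDegAt X (pb2 rhoS om) z := by
  obtain ⟨hXW, hWo, hWt, hτ, hτt, hXg⟩ := hX
  have hr := hc.restrict hWo hWt
  have hτ' : ContDiffOn ℝ ∞ τ (U ∩ W) := hτ.mono inter_subset_right
  have hg := hr.graphS τ hτ' hτt X hXW (fun z hz h1 h2 => hXg z hz h1 h2.2)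
  have hzU : z ∈ X ∩ ({z | eW1 z < 1} ∩ rhoS ⁻¹' (U ∩ W)) := ⟨hz, h1, hU, hW⟩
  have hv := hg.maps_ρ z hzU
  have hψ := hg.left_inv z hzU
  obtain ⟨v, hvd⟩ : ∃ v : H6, v = (ρ (rhoS z)).2 := ⟨_, rfl⟩
  simp only [← hvd] at hv hψ hnd
  obtain ⟨T, hT⟩ : ∃ T : H6 → ℝ, T = fun w => τ (c (0, w)) := ⟨_, rfl⟩
  obtain ⟨C, hC⟩ : ∃ C : H6 → FP, C = fun w => c (T w, w) := ⟨_, rfl⟩
  have hlin : ContDiff ℝ ∞ (fun w : H6 => ((0, w) : H7)) := contDiff_const.prodMk contDiff_id
  have hTs : ContDiffOn ℝ ∞ T {w : H6 | ((0, w) : H7) ∈ V ∩ c ⁻¹' W} := by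
    rw [hT]
    exact hτ'.comp (hr.chart.smooth_ψ.comp hlin.contDiffOn fun w h => h)
      fun w h => (hr.chart.maps_ψ _ h).2
  have hopen : IsOpen {w : H6 | ((0, w) : H7) ∈ V ∩ c ⁻¹' W} := hg.isOpen_V
  have hj : ContDiffOn ℝ ∞ (fun w : H6 => ((T w, w) : H7))
      {w : H6 | ((0, w) : H7) ∈ V ∩ c ⁻¹' W} := hTs.prodMk contDiffOn_id
  have hjV : ∀ w : H6, ((0, w) : H7) ∈ V ∩ c ⁻¹' W → ((T w, w) : H7) ∈ V := fun w hw =>
    hc.V_t (0, w) (T w) hw.1
  have hCs : ContDiffOn ℝ ∞ C {w : H6 | ((0, w) : H7) ∈ V ∩ c ⁻¹' W} := by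
    rw [hC]
    exact hc.chart.smooth_ψ.comp hj fun w hw => hjV w hw
  have hvn : {w : H6 | ((0, w) : H7) ∈ V ∩ c ⁻¹' W} ∈ 𝓝 v := hopen.mem_nhds hv
  have hCa : ContDiffAt ℝ ∞ C v := hCs.contDiffAt hvn
  have hψe : (fun w : H6 => psiS (c (τ (c (0, w)), w))) = fun w => psiS (C w) := by
    rw [hC, hT]
  rw [hψe] at hg
  have hψ2 : psiS (C v) = z := by
    rw [hC, hT]
    exact hψ
  have hCv : C v = rhoS z := by
    rw [← hψ2, rhoS_psiS]
  rw [← hψ2]
  apply nonDegAt_of_chart hg hv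
  intro a ha
  obtain ⟨b, hb⟩ := hnd a ha
  refine ⟨b, ?_⟩
  have hopN : IsOpen {z : EA | eW1 z < 1} := isOpen_lt WB_cont_W1 continuous_const
  have e1 : pb2 (fun w => psiS (C w)) (pb2 rhoS om) v = pb2 C om v := by
    rw [pb2_comp]
    · simp only [rhoS_psiS]
    · exact (contDiff_psiS.contDiffAt.comp v hCa).differentiableAt (by simp)
    · rw [hψ2]
      exact (contDiffOn_rhoS.contDiffAt (hopN.mem_nhds h1)).differentiableAt (by simp)
  have hta : ∀ a : H6, IsTangent (FPS La) (rhoS z) (fderiv ℝ C v a) := by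
    intro a
    have d1 : DifferentiableAt ℝ (fun w : H6 => ((T w, w) : H7)) v :=
      (hj.contDiffAt hvn).differentiableAt (by simp)
    have d2 : DifferentiableAt ℝ c (T v, v) :=
      (hc.chart.smooth_ψ.contDiffAt (hc.chart.isOpen_V.mem_nhds (hjV v hv))).differentiableAt
        (by simp)
    have d3 : fderiv ℝ C v = (fderiv ℝ c (T v, v)).comp
        (fderiv ℝ (fun w : H6 => ((T w, w) : H7)) v) := by
      rw [hC]
      have d6 : HasFDerivAt (fun w : H6 => c (T w, w)) ((fderiv ℝ c (T v, v)).comp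
          (fderiv ℝ (fun w : H6 => ((T w, w) : H7)) v)) v :=
        HasFDerivAt.comp (g := c) (f := fun w : H6 => ((T w, w) : H7)) v d2.hasFDerivAt
          d1.hasFDerivAt
      exact d6.fderiv
    have d4 := hc.chart.tangent_psi (hjV v hv) (fderiv ℝ (fun w : H6 => ((T w, w) : H7)) v a)
    have d5 : c (T v, v) = rhoS z := by
      rw [← hCv, hC]
    rw [d5] at d4
    rw [d3]
    exact d4
  have e2 : dd (pb1 C L) v = pb2 C (dd L) v :=
    dd_pb1 (hCa.of_le (by norm_cast)) (by rw [hCv]; exact hL)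
  have e3 : dd (pb1 C L) v = dd lam v := by
    apply dd_congr
    filter_upwards [hvn] with w hw
    rw [hC]
    exact hlam T w hw.1 ((hTs.contDiffAt (hopen.mem_nhds hw)).differentiableAt (by simp))
  rw [e1, pb2_apply, hCv, hom _ _ (hta a) (hta b)]
  have e4 : dd L (rhoS z) (fderiv ℝ C v a) (fderiv ℝ C v b) = pb2 C (dd L) v a b := by
    rw [pb2_apply, hCv]
  rw [e4, ← e2, e3]
  exact hb

/-- the primitive of the outer form near `q = 0`, side `N`. -/
noncomputable def MH3_L (P : FPar) (A : Form1 FP) : Form1 FP := fun p =>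
  P.primN (-1) (-P.eps) A p + (1 / 2 * qsq (fZe p) (fZ p)) •
    (P.aN p - (Complex.normSq (fU p))⁻¹ • imF pU p)

theorem MH3_L_diff (P : FPar) (h : P.Ok0) (A : Form1 FP) {p : FP} (hu : fU p ≠ 0)
    (hA : DifferentiableAt ℝ A p) : DifferentiableAt ℝ (P.MH3_L A) p := by
  have hn : Complex.normSq (fU p) ≠ 0 := (Complex.normSq_pos.mpr hu).ne'
  have d1 : DifferentiableAt ℝ P.q2N p := (SD1_q2N P h).differentiable (by simp) p
  have d2 : DifferentiableAt ℝ P.bN p := (SD1_bN P h).differentiable (by simp) p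
  have d3 : DifferentiableAt ℝ P.aN p := (SD1_aN P h).differentiable (by simp) p
  have d4 : DifferentiableAt ℝ (fun p : FP => fH0 p) p := SD1_H0.differentiable (by simp) p
  have d5 : DifferentiableAt ℝ (fun p : FP => qsq (fZe p) (fZ p)) p :=
    SD1_qsq.differentiable (by simp) p
  have d6 : DifferentiableAt ℝ (fun p : FP => Complex.normSq (fU p)) p :=
    SD1_nU.differentiable (by simp) p
  have d7 : DifferentiableAt ℝ (imF pU) p := (contDiff_imF pU).differentiable (by simp) p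
  have d81 : DifferentiableAt ℝ (fun p : FP => 1 - fH0 p) p := d4.const_sub 1
  have d82 : DifferentiableAt ℝ (fun p : FP => (1 - fH0 p) / 2) p := by
    simpa only [div_eq_mul_inv] using d81.mul_const ((2 : ℝ)⁻¹)
  have d8 : DifferentiableAt ℝ (fun p : FP => -P.eps * ((1 - fH0 p) / 2)) p :=
    d82.const_mul (-P.eps)
  exact ((((d1.fun_const_smul (-1 : ℝ)).fun_add d2).fun_add (d8.fun_smul d3)).fun_add
    (hA.fun_const_smul (-P.eps))).fun_add
      ((d5.const_mul (1 / 2)).fun_smul (d3.fun_sub ((d6.fun_inv hn).fun_smul d7)))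

theorem MH3_homN (P : FPar) (h : P.Ok2) (A : Form1 FP) {p : FP}
    (hu : P.hd.B ^ 2 < Complex.normSq (fU p))
    (hs : fS p < 0) (hq : qsq (fZe p) (fZ p) < P.rb ^ 2 / 4) (hA : DifferentiableAt ℝ A p)
    (a b : FP) (hab : dd A p a b = areaF p a b) : P.omOm p a b = dd (P.MH3_L A) p a b := by
  have hu0 : fU p ≠ 0 := by
    intro h0
    rw [h0, map_zero] at hu
    have := sq_nonneg P.hd.B
    linarith
  have h1 : dd (fun p => P.bN p + pb1 P.xiN P.q2N p - (P.eps * ((1 - fH0 p) / 2)) • P.aN p) p =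
      dd (fun y => P.MH3_L A y + P.eps • A y) p := by
    apply dd_congr
    filter_upwards [MH3_open P hs hq,
      (SD1_nU.continuous.continuousAt).eventually (lt_mem_nhds hu)] with y hy hyu
    rw [P.pb_xiN_q2N h hyu hy.1 hy.2]
    apply ContinuousLinearMap.ext
    intro c
    change P.bN y c + 1 / 2 * (-(imF pZe y c) - imF pZ y c -
        qsq (fZe y) (fZ y) / Complex.normSq (fU y) * imF pU y c +
        Complex.normSq (fZe y) * P.aN y c) - P.eps * ((1 - fH0 y) / 2) * P.aN y c =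
      (-1) * (1 / 2 * (imF pZe y c + imF pZ y c + Complex.normSq (fZ y) * P.aN y c)) + P.bN y c +
        (-P.eps * ((1 - fH0 y) / 2)) * P.aN y c + (-P.eps) * A y c +
        1 / 2 * qsq (fZe y) (fZ y) * (P.aN y c - (Complex.normSq (fU y))⁻¹ * imF pU y c) +
        P.eps * A y c
    unfold qsq
    ring
  change dd (fun p => P.bN p + pb1 P.xiN P.q2N p - (P.eps * ((1 - fH0 p) / 2)) • P.aN p) p a b -
    P.eps * areaF p a b = _
  rw [h1, dd_add (P.MH3_L_diff h.toOk0 A hu0 hA) (hA.fun_const_smul P.eps),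
    dd_const_smul P.eps hA, ← hab]
  change dd (P.MH3_L A) p a b + P.eps * dd A p a b - P.eps * dd A p a b = _
  ring

theorem MH3_homS (P : FPar) (h : P.Ok2) (A : Form1 FP) {p : FP}
    (hs : fS p < 0) (hq : qsq (fZe p) (fZ p) < P.rb ^ 2 / 4) (hA : DifferentiableAt ℝ A p)
    (a b : FP) (hab : dd A p a b = areaF p a b) :
    DifferentiableAt ℝ (primS (-1) (-P.eps) A) p ∧
      P.omOSm p a b = dd (primS (-1) (-P.eps) A) p a b := by
  have d1 : DifferentiableAt ℝ q2S p := SD1_q2S.differentiable (by simp) p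
  have d2 : DifferentiableAt ℝ bS p := SD1_bS.differentiable (by simp) p
  have d3 : DifferentiableAt ℝ (primS (-1) (-P.eps) A) p :=
    ((d1.fun_const_smul (-1 : ℝ)).fun_add d2).fun_add (hA.fun_const_smul (-P.eps))
  refine ⟨d3, ?_⟩
  have h1 : dd (fun p => bS p + pb1 P.xiS q2S p) p =
      dd (fun y => primS (-1) (-P.eps) A y + P.eps • A y) p := by
    apply dd_congr
    filter_upwards [MH3_open P hs hq] with y hy
    rw [P.MH3_xiS h hy.1 hy.2]
    apply ContinuousLinearMap.ext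
    intro c
    change bS y c + -(q2S y c) = (-1) * q2S y c + bS y c + (-P.eps) * A y c + P.eps * A y c
    ring
  change dd (fun p => bS p + pb1 P.xiS q2S p) p a b - P.eps * areaF p a b = _
  rw [h1, dd_add d3 (hA.fun_const_smul P.eps), dd_const_smul P.eps hA, ← hab]
  change dd (primS (-1) (-P.eps) A) p a b + P.eps * dd A p a b - P.eps * dd A p a b = _
  ring

/-- the term of the primitive that vanishes on `q = 0`. -/
noncomputable def MH3_nu (P : FPar) : Form1 H6 := fun v =>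
  (1 / 2 * (1 + Complex.normSq v.2.1) *
    (P.ka (Complex.normSq v.1) - (Complex.normSq v.1)⁻¹)) • imF hU v

theorem MH3_nu_smooth (P : FPar) (h : P.Ok0) {v : H6} (hv : v.1 ≠ 0) :
    ContDiffAt ℝ ∞ P.MH3_nu v := by
  have hn : Complex.normSq v.1 ≠ 0 := (Complex.normSq_pos.mpr hv).ne'
  have c1 : ContDiff ℝ ∞ (fun v : H6 => Complex.normSq v.1) := SD1_normSq.comp contDiff_fst
  have c2 : ContDiff ℝ ∞ (fun v : H6 => Complex.normSq v.2.1) :=
    SD1_normSq.comp (contDiff_fst.comp contDiff_snd)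
  have c3 : ContDiff ℝ ∞ (fun v : H6 => P.ka (Complex.normSq v.1)) :=
    (P.ka_props h.Ta).1.comp c1
  have c4 : ContDiffAt ℝ ∞ (fun v : H6 => (Complex.normSq v.1)⁻¹) v := c1.contDiffAt.inv hn
  exact ((contDiffAt_const.mul (contDiffAt_const.add c2.contDiffAt)).mul
    (c3.contDiffAt.sub c4)).smul (contDiff_imF hU).contDiffAt

theorem MH3_ndN (P : FPar) (h : P.Ok2) (s N x : ℝ) (hs : 0 ≤ s) (hN : 0 < N) (_hx0 : 0 ≤ x)
    (hx : x ≤ N) :
    (P.kr s + s * deriv P.kr s) + 2 * (-P.eps) * (P.ka s + s * deriv P.ka s) * x / N ≠ 0 := by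
  have h1 := h.small2 s hs
  have h2 := (P.ka_props h.Ta).2.2.2.1 s hs
  have h3 := h.eps
  have h4 : 2 * (-P.eps) * (P.ka s + s * deriv P.ka s) * x / N =
      -(2 * P.eps * (P.ka s + s * deriv P.ka s) * (x / N)) := by ring
  have h5 : x / N ≤ 1 := (div_le_one hN).mpr hx
  have h6 : 2 * P.eps * (P.ka s + s * deriv P.ka s) * (x / N) ≤
      2 * P.eps * (P.ka s + s * deriv P.ka s) * 1 := by
    apply mul_le_mul_of_nonneg_left h5
    positivity
  rw [h4]
  apply ne_of_gt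
  linarith

theorem MH3_dA {p : FP} (h0 : fH0 p < 1) : DifferentiableAt ℝ Ab p := by
  have d4 : DifferentiableAt ℝ (fun p : FP => fH0 p) p := SD1_H0.differentiable (by simp) p
  have d5 : DifferentiableAt ℝ (fun p : FP => 2 * (1 - fH0 p)) p := (d4.const_sub 1).const_mul 2
  have hne : 2 * (1 - fH0 p) ≠ 0 := by linarith
  have d6 : DifferentiableAt ℝ (fun p : FP => -(1 / (2 * (1 - fH0 p)))) p := by
    simp only [one_div]
    exact (d5.fun_inv hne).fun_neg
  exact d6.fun_smul ((contDiff_imF pH).differentiable (by simp) p)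

theorem MH3_dAe {p : FP} (h0 : -1 < fH0 p) : DifferentiableAt ℝ Abe p := by
  have d4 : DifferentiableAt ℝ (fun p : FP => fH0 p) p := SD1_H0.differentiable (by simp) p
  have d5 : DifferentiableAt ℝ (fun p : FP => 2 * (1 + fH0 p)) p := (d4.const_add 1).const_mul 2
  have hne : 2 * (1 + fH0 p) ≠ 0 := by linarith
  have d6 : DifferentiableAt ℝ (fun p : FP => 1 / (2 * (1 + fH0 p))) p := by
    simp only [one_div]
    exact d5.fun_inv hne
  exact d6.fun_smul ((contDiff_imF pH).differentiable (by simp) p)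

theorem MH3_U0 (P : FPar) {u : ℂ} (hu : P.hd.B ^ 2 < Complex.normSq u) : u ≠ 0 := by
  intro h0
  rw [h0, map_zero] at hu
  have := sq_nonneg P.hd.B
  linarith

theorem nd_Om (P : FPar) (h : P.Ok2) {z : EA} (hz : z ∈ P.toPar.M') (h1 : -1 < eW1 z)
    (hq : fZe (rhoN z) = 0 ∧ fZ (rhoN z) = 0) (hs : fS (rhoN z) < 0)
    (hu : P.hd.B ^ 2 < Complex.normSq (fU (rhoN z))) :
    NonDegAt P.toPar.M' (pb2 rhoN P.omOm) z := by
  have hLa : 0 < P.La := by linarith [h.La]
  have hG := P.graph_N h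
  have hpF : rhoN z ∈ FPS P.La := (rhoN_mem (hG.1 hz) h1).1
  have hq0 : qsq (fZe (rhoN z)) (fZ (rhoN z)) < P.rb ^ 2 / 4 := by
    unfold qsq
    rw [hq.1, hq.2, map_zero, add_zero]
    have := h.rb0
    positivity
  have hW : rhoN z ∈ {p : FP | P.hd.B ^ 2 < Complex.normSq (fU p) ∧
      (fS p ≠ 0 ∨ 1 < qsq (fZe p) (fZ p))} := ⟨hu, Or.inl hs.ne⟩
  have hu0 : fU (rhoN z) ≠ 0 := P.MH3_U0 hu
  have hs' : 0 < -1 * fS (rhoN z) := by linarith
  have hc4 := (FPS_cases hLa hpF).resolve_left (fun h2 => by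
    rcases h2.1 with h3 | h3
    · exact h3 hq.1
    · exact h3 hq.2)
  rcases hc4.2.2.2 with h0 | h0
  · -- chart B
    refine MH3_genN (tchart_B P.La hLa (-1) (Or.inr rfl)) hG hz h1 ⟨h0, hs'⟩ hW P.omOm
      (P.MH3_L Ab)
      (lamB (-1) (-P.eps) P.ka P.kr (fun v => ((-1 : ℝ) / 2) •
        (imF hA v + P.ka (Complex.normSq v.1) • imF hU v) + P.MH3_nu v)) ?_ ?_ ?_ ?_
    · intro a b ha hb
      exact P.MH3_homN h Ab hu hs hq0 (MH3_dA h0) a b (dd_Ab hpF h0 ha hb)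
    · exact P.MH3_L_diff h.toOk0 Ab hu0 (MH3_dA h0)
    · intro T w hw hT
      have h2 := P.pb_cB_N h.toOk0 (-1) (-1) (-P.eps) T w hw hT
      have hf := SH_dB P.La (-1) T w hw hT
      apply ContinuousLinearMap.ext
      intro a
      have h3 : P.primN (-1) (-P.eps) Ab (cB P.La (-1) (T w, w))
          (fderiv ℝ (fun w : H6 => cB P.La (-1) (T w, w)) w a) =
          lamB (-1) (-P.eps) P.ka P.kr (fun v => ((-1 : ℝ) / 2) •
            (imF hA v + P.ka (Complex.normSq v.1) • imF hU v)) w a :=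
        congrArg (fun l : H6 →L[ℝ] ℝ => l a) h2
      have hU1 : imF pU (cB P.La (-1) (T w, w))
          (fderiv ℝ (fun w : H6 => cB P.La (-1) (T w, w)) w a) = imF hU w a :=
        (SH_pb _ pU w a hf).trans (SH_lin hU w a)
      change P.primN (-1) (-P.eps) Ab (cB P.La (-1) (T w, w))
          (fderiv ℝ (fun w : H6 => cB P.La (-1) (T w, w)) w a) +
        1 / 2 * (Complex.normSq (w.2.1 * w.2.2) + Complex.normSq w.2.2) *
          (P.ka (Complex.normSq w.1) * imF pU (cB P.La (-1) (T w, w))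
            (fderiv ℝ (fun w : H6 => cB P.La (-1) (T w, w)) w a) -
          (Complex.normSq w.1)⁻¹ * imF pU (cB P.La (-1) (T w, w))
            (fderiv ℝ (fun w : H6 => cB P.La (-1) (T w, w)) w a)) = _
      rw [h3, hU1, map_mul]
      change (-1 / 2 * (1 + Complex.normSq w.2.1)) * imF hB w a + Complex.normSq w.2.2 *
          ((-1 : ℝ) / 2 * (imF hA w a + P.ka (Complex.normSq w.1) * imF hU w a)) +
          (-P.eps / (1 + Complex.normSq w.2.1)) *
            (imF hA w a + P.ka (Complex.normSq w.1) * imF hU w a) +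
          (P.kr (Complex.normSq w.1) / 2) * imF hU w a +
        1 / 2 * (Complex.normSq w.2.1 * Complex.normSq w.2.2 + Complex.normSq w.2.2) *
          (P.ka (Complex.normSq w.1) * imF hU w a - (Complex.normSq w.1)⁻¹ * imF hU w a) =
        (-1 / 2 * (1 + Complex.normSq w.2.1)) * imF hB w a + Complex.normSq w.2.2 *
          ((-1 : ℝ) / 2 * (imF hA w a + P.ka (Complex.normSq w.1) * imF hU w a) +
            (1 / 2 * (1 + Complex.normSq w.2.1) *
              (P.ka (Complex.normSq w.1) - (Complex.normSq w.1)⁻¹)) * imF hU w a) +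
          (-P.eps / (1 + Complex.normSq w.2.1)) *
            (imF hA w a + P.ka (Complex.normSq w.1) * imF hU w a) +
          (P.kr (Complex.normSq w.1) / 2) * imF hU w a
      ring
    · intro a ha
      have c1 : ContDiff ℝ ∞ (fun v : H6 => P.ka (Complex.normSq v.1)) :=
        (P.ka_props h.Ta).1.comp (SD1_normSq.comp contDiff_fst)
      refine lamB_nondeg (-1) (-P.eps) P.ka P.kr _ (by norm_num) (neg_ne_zero.mpr h.eps.ne')
        (P.ka_props h.Ta).1 (P.kr_props h.Ta).1 _ ?_ hq.2 ?_ a ha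
      · exact ((contDiffAt_const (c := (-1 : ℝ) / 2)).smul ((contDiff_imF hA).contDiffAt.add
          (c1.contDiffAt.smul (contDiff_imF hU).contDiffAt))).add
          (P.MH3_nu_smooth (v := (rB (rhoN z)).2) h.toOk0 hu0)
      · have h3 := P.MH3_ndN h (Complex.normSq (fU (rhoN z)))
          (1 + Complex.normSq (rB (rhoN z)).2.2.1) 1 (Complex.normSq_nonneg _)
          (by have := Complex.normSq_nonneg (rB (rhoN z)).2.2.1; linarith) zero_le_one
          (by have := Complex.normSq_nonneg (rB (rhoN z)).2.2.1; linarith)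
        rw [mul_one] at h3
        exact h3
  · -- chart A
    refine MH3_genN (tchart_A P.La hLa (-1) (Or.inr rfl)) hG hz h1 ⟨h0, hs'⟩ hW P.omOm
      (P.MH3_L Abe)
      (lamA (-1) (-P.eps) P.ka P.kr (fun v => ((-1 : ℝ) / 2) •
        (imF hA v + (Complex.normSq v.2.1 * P.ka (Complex.normSq v.1)) • imF hU v) +
          P.MH3_nu v)) ?_ ?_ ?_ ?_
    · intro a b ha hb
      exact P.MH3_homN h Abe hu hs hq0 (MH3_dAe h0) a b (dd_Abe hpF h0 ha hb)
    · exact P.MH3_L_diff h.toOk0 Abe hu0 (MH3_dAe h0)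
    · intro T w hw hT
      have h2 := P.pb_cA_N h.toOk0 (-1) (-1) (-P.eps) T w hw hT
      have hf := SH_dA P.La (-1) T w hw hT
      apply ContinuousLinearMap.ext
      intro a
      have h3 : P.primN (-1) (-P.eps) Abe (cA P.La (-1) (T w, w))
          (fderiv ℝ (fun w : H6 => cA P.La (-1) (T w, w)) w a) =
          lamA (-1) (-P.eps) P.ka P.kr (fun v => ((-1 : ℝ) / 2) •
            (imF hA v + (Complex.normSq v.2.1 * P.ka (Complex.normSq v.1)) • imF hU v)) w a :=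
        congrArg (fun l : H6 →L[ℝ] ℝ => l a) h2
      have hU1 : imF pU (cA P.La (-1) (T w, w))
          (fderiv ℝ (fun w : H6 => cA P.La (-1) (T w, w)) w a) = imF hU w a :=
        (SH_pb _ pU w a hf).trans (SH_lin hU w a)
      change P.primN (-1) (-P.eps) Abe (cA P.La (-1) (T w, w))
          (fderiv ℝ (fun w : H6 => cA P.La (-1) (T w, w)) w a) +
        1 / 2 * (Complex.normSq w.2.2 + Complex.normSq (w.2.1 * w.2.2)) *
          (P.ka (Complex.normSq w.1) * imF pU (cA P.La (-1) (T w, w))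
            (fderiv ℝ (fun w : H6 => cA P.La (-1) (T w, w)) w a) -
          (Complex.normSq w.1)⁻¹ * imF pU (cA P.La (-1) (T w, w))
            (fderiv ℝ (fun w : H6 => cA P.La (-1) (T w, w)) w a)) = _
      rw [h3, hU1, map_mul]
      change (-1 / 2 * (1 + Complex.normSq w.2.1)) * imF hB w a + Complex.normSq w.2.2 *
          ((-1 : ℝ) / 2 * (imF hA w a +
            (Complex.normSq w.2.1 * P.ka (Complex.normSq w.1)) * imF hU w a)) +
          (-P.eps / (1 + Complex.normSq w.2.1)) *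
            (imF hA w a + (Complex.normSq w.2.1 * P.ka (Complex.normSq w.1)) * imF hU w a) +
          (P.kr (Complex.normSq w.1) / 2) * imF hU w a +
        1 / 2 * (Complex.normSq w.2.2 + Complex.normSq w.2.1 * Complex.normSq w.2.2) *
          (P.ka (Complex.normSq w.1) * imF hU w a - (Complex.normSq w.1)⁻¹ * imF hU w a) =
        (-1 / 2 * (1 + Complex.normSq w.2.1)) * imF hB w a + Complex.normSq w.2.2 *
          ((-1 : ℝ) / 2 * (imF hA w a +
            (Complex.normSq w.2.1 * P.ka (Complex.normSq w.1)) * imF hU w a) +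
            (1 / 2 * (1 + Complex.normSq w.2.1) *
              (P.ka (Complex.normSq w.1) - (Complex.normSq w.1)⁻¹)) * imF hU w a) +
          (-P.eps / (1 + Complex.normSq w.2.1)) *
            (imF hA w a + (Complex.normSq w.2.1 * P.ka (Complex.normSq w.1)) * imF hU w a) +
          (P.kr (Complex.normSq w.1) / 2) * imF hU w a
      ring
    · intro a ha
      have c1 : ContDiff ℝ ∞ (fun v : H6 => P.ka (Complex.normSq v.1)) :=
        (P.ka_props h.Ta).1.comp (SD1_normSq.comp contDiff_fst)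
      have c2 : ContDiff ℝ ∞ (fun v : H6 => Complex.normSq v.2.1) :=
        SD1_normSq.comp (contDiff_fst.comp contDiff_snd)
      refine lamA_nondeg (-1) (-P.eps) P.ka P.kr _ (by norm_num) (neg_ne_zero.mpr h.eps.ne')
        (P.ka_props h.Ta).1 (P.kr_props h.Ta).1 _ ?_ hq.1 ?_ a ha
      · exact ((contDiffAt_const (c := (-1 : ℝ) / 2)).smul ((contDiff_imF hA).contDiffAt.add
          ((c2.mul c1).contDiffAt.smul (contDiff_imF hU).contDiffAt))).add
          (P.MH3_nu_smooth (v := (rA (rhoN z)).2) h.toOk0 hu0)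
      · exact P.MH3_ndN h (Complex.normSq (fU (rhoN z)))
          (1 + Complex.normSq (rA (rhoN z)).2.2.1) (Complex.normSq (rA (rhoN z)).2.2.1)
          (Complex.normSq_nonneg _)
          (by have := Complex.normSq_nonneg (rA (rhoN z)).2.2.1; linarith)
          (Complex.normSq_nonneg _) (by linarith)

theorem nd_OSm (P : FPar) (h : P.Ok2) {z : EA} (hz : z ∈ P.toPar.M') (h1 : eW1 z < 1)
    (hq : fZe (rhoS z) = 0 ∧ fZ (rhoS z) = 0) (hs : fS (rhoS z) < 0)
    (hu : Complex.normSq (fU (rhoS z)) * P.hd.B ^ 2 < 1) :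
    NonDegAt P.toPar.M' (pb2 rhoS P.omOSm) z := by
  have hLa : 0 < P.La := by linarith [h.La]
  have hG := P.graph_S h
  have hpF : rhoS z ∈ FPS P.La := (rhoS_mem (hG.1 hz) h1).1
  have hq0 : qsq (fZe (rhoS z)) (fZ (rhoS z)) < P.rb ^ 2 / 4 := by
    unfold qsq
    rw [hq.1, hq.2, map_zero, add_zero]
    have := h.rb0
    positivity
  have hW : rhoS z ∈ {p : FP | Complex.normSq (fU p) * P.hd.B ^ 2 < 1 ∧
      (fS p ≠ 0 ∨ 1 < qsq (fZe p) (fZ p))} := ⟨hu, Or.inl hs.ne⟩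
  have hs' : 0 < -1 * fS (rhoS z) := by linarith
  have hc4 := (FPS_cases hLa hpF).resolve_left (fun h2 => by
    rcases h2.1 with h3 | h3
    · exact h3 hq.1
    · exact h3 hq.2)
  have hne : ∀ (s x : ℝ), ((fun _ : ℝ => (-1 : ℝ)) s + s * deriv (fun _ : ℝ => (-1 : ℝ)) s) +
      2 * (-P.eps) * ((0 : ℝ → ℝ) s + s * deriv (0 : ℝ → ℝ) s) * x ≠ 0 := by
    intro s x
    have e1 : deriv (fun _ : ℝ => (-1 : ℝ)) s = 0 := by simp
    have e2 : deriv (0 : ℝ → ℝ) s = 0 := by simp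
    rw [e1, e2]
    simp
  have hz0 : ContDiff ℝ ∞ (0 : ℝ → ℝ) := contDiff_const
  rcases hc4.2.2.2 with h0 | h0
  · refine MH3_genS (tchart_B P.La hLa (-1) (Or.inr rfl)) hG hz h1 ⟨h0, hs'⟩ hW P.omOSm
      (primS (-1) (-P.eps) Ab)
      (lamB (-1) (-P.eps) 0 (fun _ => -1) (fun v => ((-1 : ℝ) / 2) • imF hA v)) ?_ ?_ ?_ ?_
    · intro a b ha hb
      exact (P.MH3_homS h Ab hs hq0 (MH3_dA h0) a b (dd_Ab hpF h0 ha hb)).2
    · have d1 : DifferentiableAt ℝ q2S (rhoS z) := SD1_q2S.differentiable (by simp) _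
      have d2 : DifferentiableAt ℝ bS (rhoS z) := SD1_bS.differentiable (by simp) _
      exact ((d1.fun_const_smul (-1 : ℝ)).fun_add d2).fun_add
        ((MH3_dA h0).fun_const_smul (-P.eps))
    · intro T w hw hT
      exact P.pb_cB_S h.toOk0 (-1) (-1) (-P.eps) T w hw hT
    · intro a ha
      refine lamB_nondeg (-1) (-P.eps) 0 (fun _ => -1) _ (by norm_num)
        (neg_ne_zero.mpr h.eps.ne') hz0 contDiff_const _ ?_ hq.2 ?_ a ha
      · have c5 : ContDiffAt ℝ ∞ (fun v : H6 => ((-1 : ℝ) / 2) • imF hA v) (rB (rhoS z)).2 :=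
          (contDiffAt_const (c := (-1 : ℝ) / 2)).smul (contDiff_imF hA).contDiffAt
        exact c5
      · have h3 := hne (Complex.normSq (rB (rhoS z)).2.1)
          (1 / (1 + Complex.normSq (rB (rhoS z)).2.2.1))
        rw [mul_one_div] at h3
        exact h3
  · refine MH3_genS (tchart_A P.La hLa (-1) (Or.inr rfl)) hG hz h1 ⟨h0, hs'⟩ hW P.omOSm
      (primS (-1) (-P.eps) Abe)
      (lamA (-1) (-P.eps) 0 (fun _ => -1) (fun v => ((-1 : ℝ) / 2) • imF hA v)) ?_ ?_ ?_ ?_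
    · intro a b ha hb
      exact (P.MH3_homS h Abe hs hq0 (MH3_dAe h0) a b (dd_Abe hpF h0 ha hb)).2
    · have d1 : DifferentiableAt ℝ q2S (rhoS z) := SD1_q2S.differentiable (by simp) _
      have d2 : DifferentiableAt ℝ bS (rhoS z) := SD1_bS.differentiable (by simp) _
      exact ((d1.fun_const_smul (-1 : ℝ)).fun_add d2).fun_add
        ((MH3_dAe h0).fun_const_smul (-P.eps))
    · intro T w hw hT
      exact P.pb_cA_S h.toOk0 (-1) (-1) (-P.eps) T w hw hT
    · intro a ha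
      refine lamA_nondeg (-1) (-P.eps) 0 (fun _ => -1) _ (by norm_num)
        (neg_ne_zero.mpr h.eps.ne') hz0 contDiff_const _ ?_ hq.1 ?_ a ha
      · have c5 : ContDiffAt ℝ ∞ (fun v : H6 => ((-1 : ℝ) / 2) • imF hA v) (rA (rhoS z)).2 :=
          (contDiffAt_const (c := (-1 : ℝ) / 2)).smul (contDiff_imF hA).contDiffAt
        exact c5
      · have h3 := hne (Complex.normSq (rA (rhoS z)).2.1)
          (Complex.normSq (rA (rhoS z)).2.2.1 / (1 + Complex.normSq (rA (rhoS z)).2.2.1))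
        rw [← mul_div_assoc] at h3
        exact h3

end FPar

end Pool.Agent.H34.SY
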