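import Pool.Agent.H34.SY.SD1
import Pool.Agent.H34.SY.WA1
import Pool.Agent.H34.SY.WA2
import Pool.Agent.H34.SY.WA3
import Pool.Agent.H34.SY.CA
import Pool.Agent.H34.SY.CB
import Pool.Agent.H34.SY.CC

/-!
# Row SD2 (the four agreement statements): agreement of the local forms of `M` near `q = 0`

Imports: rows CA, CB, CC, SA, SB, WA1-3 (charts of `FPS La`; add the imports).
At `p ∈ FPS La`, `q ≠ 0`, `s < 0`, `|q|² < r0²/4` (then `s < -La/2` because `|q|² = La² - s²` and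
`r0 ≤ 1 ≤ La`): near `p` (open conditions) `F0 = (La² - s²)/2 + eps`, on `FPS`: `= |q|²/2 + eps`, and
`|z|²/|q|² = (1-h0)/2` on `FPS` (`FPS_hopf`).  So on tangent vectors of `FPS` at points of `FPS` near `p`
`lN0 = q2N + bN + eps ((1-h0)/2) aN + eps alq`, by `dd_congr_tangent` the `dd`'s agree, and
`dd alq = areaF` (`star`).  For `s > 0` small `|q|`: `F0 = La² + 1 - |q|²/2`.  Side `S`: same with `a = 0`.
The closedness statements: `isClosedForm_dd` and `areaF_closed` (restricted to the open set).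
-/

open Set Topology
open scoped ContDiff ComplexConjugate

namespace Pool.Agent.H34.SY

theorem sd2_smU : ContDiff ℝ ∞ (fun p : FP => Complex.normSq (fU p)) :=
  contDiff_normSq.comp pU.contDiff

theorem sd2_smZ : ContDiff ℝ ∞ (fun p : FP => Complex.normSq (fZ p)) :=
  contDiff_normSq.comp pZ.contDiff

theorem sd2_smZe : ContDiff ℝ ∞ (fun p : FP => Complex.normSq (fZe p)) :=
  contDiff_normSq.comp pZe.contDiff

theorem sd2_smq : ContDiff ℝ ∞ (fun p : FP => qsq (fZe p) (fZ p)) :=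
  sd2_smZe.add sd2_smZ

theorem sd2_smH0 : ContDiff ℝ ∞ (fun p : FP => fH0 p) := pH0.contDiff

theorem sd2_smS : ContDiff ℝ ∞ (fun p : FP => fS p) := pS.contDiff

theorem sd2_qpos {ze z : ℂ} (h : ze ≠ 0 ∨ z ≠ 0) : 0 < qsq ze z := by
  unfold qsq
  rcases h with h | h
  · have := Complex.normSq_pos.mpr h
    have := Complex.normSq_nonneg z
    linarith
  · have := Complex.normSq_pos.mpr h
    have := Complex.normSq_nonneg ze
    linarith

theorem sd2_alq {W : Set FP} (hWq : ∀ y ∈ W, fZe y ≠ 0 ∨ fZ y ≠ 0) : ContDiffOn ℝ ∞ alq W := by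
  have h1 : ContDiffOn ℝ ∞ (fun p : FP => (qsq (fZe p) (fZ p))⁻¹) W :=
    sd2_smq.contDiffOn.inv (fun y hy => ne_of_gt (sd2_qpos (hWq y hy)))
  exact h1.smul ((contDiff_imF pZe).add (contDiff_imF pZ)).contDiffOn

theorem sd2_slt {La : ℝ} (hLa : 0 < La) {p : FP} (hp : p ∈ FPS La)
    (hq : fZe p ≠ 0 ∨ fZ p ≠ 0) : fS p < La := by
  have h1 := hp.2.2.2
  have h2 := sd2_qpos hq
  unfold qsq at h2
  by_contra hc
  push Not at hc
  nlinarith

theorem sd2_sq {La : ℝ} {p : FP} (hp : p ∈ FPS La) :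
    La ^ 2 - fS p ^ 2 = qsq (fZe p) (fZ p) := by
  have h1 := hp.2.2.2
  unfold qsq
  linarith

theorem sd2_core {La : ℝ} (hLa : 0 < La) {p a b : FP} (hp : p ∈ FPS La) (W : Set FP)
    (hW : IsOpen W) (hpW : p ∈ W) (hWq : ∀ y ∈ W, fZe y ≠ 0 ∨ fZ y ≠ 0) (l m1 : Form1 FP)
    (hl : ContDiffOn ℝ ∞ l W) (hm : ContDiffOn ℝ ∞ m1 W) (c : ℝ)
    (h : ∀ y ∈ FPS La ∩ W, l y = m1 y + c • alq y)
    (ha : IsTangent (FPS La) p a) (hb : IsTangent (FPS La) p b) :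
    dd l p a b = (dd m1 p + c • areaF p) a b := by
  have hq := hWq p hpW
  have hal := sd2_alq hWq
  have hcal : ContDiffOn ℝ ∞ (fun y => c • alq y) W := hal.const_smul c
  have h1 := dd_congr_tangent (chart_cQ La hLa) (z := p) ⟨hp, hq, sd2_slt hLa hp hq⟩ hW hpW hl
    (hm.add hcal) (fun y hy v _ => by
      show l y v = (m1 y + c • alq y) v
      rw [h y hy]) ha hb
  rw [h1]
  have hWn : W ∈ 𝓝 p := hW.mem_nhds hpW
  have d1 : DifferentiableAt ℝ m1 p := (hm.contDiffAt hWn).differentiableAt (by simp)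
  have d2 : DifferentiableAt ℝ alq p := (hal.contDiffAt hWn).differentiableAt (by simp)
  have h2 : dd (fun y => m1 y + c • alq y) p = dd m1 p + c • dd alq p := by
    have d3 : DifferentiableAt ℝ (fun y => c • alq y) p := d2.const_smul c
    rw [dd_add d1 d3, dd_const_smul c d2]
  have h3 := star hp hq ha hb
  show dd (fun y => m1 y + c • alq y) p a b = _
  rw [h2]
  simp only [add_apply, smul_apply]
  rw [h3]

namespace FPar

theorem sd2_aN (P : FPar) (h : P.Ok0) : ContDiff ℝ ∞ P.aN :=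
  ((P.ka_props h.Ta).1.comp sd2_smU).smul (contDiff_imF pU)

theorem sd2_bN (P : FPar) (h : P.Ok0) : ContDiff ℝ ∞ P.bN := by
  have h1 : ContDiff ℝ ∞ (fun p : FP => P.kr (Complex.normSq (fU p)) / 2) :=
    ((P.kr_props h.Ta).1.comp sd2_smU).div_const 2
  exact h1.smul (contDiff_imF pU)

theorem sd2_bS : ContDiff ℝ ∞ bS :=
  (contDiff_imF pU).const_smul (-(1 / 2) : ℝ)

theorem sd2_q2N (P : FPar) (h : P.Ok0) : ContDiff ℝ ∞ P.q2N := by
  have h1 : ContDiff ℝ ∞ (fun p : FP => imF pZe p + imF pZ p +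
      Complex.normSq (fZ p) • P.aN p) :=
    ((contDiff_imF pZe).add (contDiff_imF pZ)).add (sd2_smZ.smul (sd2_aN P h))
  exact h1.const_smul (1 / 2 : ℝ)

theorem sd2_q2S : ContDiff ℝ ∞ q2S := by
  have h1 : ContDiff ℝ ∞ (fun p : FP => imF pZe p + imF pZ p) :=
    (contDiff_imF pZe).add (contDiff_imF pZ)
  exact h1.const_smul (1 / 2 : ℝ)

theorem sd2_haN (P : FPar) (h : P.Ok0) (c : ℝ) :
    ContDiff ℝ ∞ (fun p : FP => (c * ((1 - fH0 p) / 2)) • P.aN p) := by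
  have h1 : ContDiff ℝ ∞ (fun p : FP => c * ((1 - fH0 p) / 2)) :=
    contDiff_const.mul ((contDiff_const.sub sd2_smH0).div_const 2)
  exact h1.smul (sd2_aN P h)

/-- open neighbourhood for `s < 0` -/
def sd2_Wm (P : FPar) : Set FP :=
  {y | (fZe y ≠ 0 ∨ fZ y ≠ 0) ∧ fS y < 0 ∧ qsq (fZe y) (fZ y) < P.r0 ^ 2 / 4}

/-- open neighbourhood for `s > 0` -/
def sd2_Wp : Set FP :=
  {y | (fZe y ≠ 0 ∨ fZ y ≠ 0) ∧ 0 < fS y ∧ qsq (fZe y) (fZ y) < 1}

theorem sd2_openq : IsOpen {y : FP | fZe y ≠ 0 ∨ fZ y ≠ 0} := by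
  apply IsOpen.union
  · exact isOpen_ne_fun pZe.continuous continuous_const
  · exact isOpen_ne_fun pZ.continuous continuous_const

theorem sd2_openWm (P : FPar) : IsOpen P.sd2_Wm := by
  apply sd2_openq.inter
  apply IsOpen.inter
  · exact isOpen_lt pS.continuous continuous_const
  · exact isOpen_lt sd2_smq.continuous continuous_const

theorem sd2_openWp : IsOpen sd2_Wp := by
  apply sd2_openq.inter
  apply IsOpen.inter
  · exact isOpen_lt continuous_const pS.continuous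
  · exact isOpen_lt sd2_smq.continuous continuous_const

theorem sd2_WmD (P : FPar) : P.sd2_Wm ⊆ P.Dq :=
  fun _ hy => ⟨hy.1, Or.inl (ne_of_lt hy.2.1)⟩

theorem sd2_WpD (P : FPar) : sd2_Wp ⊆ P.Dq :=
  fun _ hy => ⟨hy.1, Or.inl (ne_of_gt hy.2.1)⟩

theorem sd2_F0m (P : FPar) (h : P.Ok0) {y : FP} (hy : y ∈ FPS P.La) (hW : y ∈ P.sd2_Wm) :
    P.F0 y = qsq (fZe y) (fZ y) / 2 + P.eps := by
  have h1 := sd2_sq hy
  obtain ⟨_, hs, hr⟩ := hW
  have hLa := h.La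
  have h2 : fS y ≤ -P.La / 2 := by
    by_contra hc
    push Not at hc
    have h3 : fS y ^ 2 < (P.La / 2) ^ 2 := by nlinarith
    have h4 := h.r0
    have h5 := h.r1
    nlinarith
  have h3 : P.chip y = 1 := by
    unfold chip
    rw [if_pos hs]
    exact (P.chi_props h.r0).2.1 _ hr.le
  unfold F0
  rw [(P.f0_props (by linarith)).2.1 _ h2, h3, h1]
  ring

theorem sd2_F0p (P : FPar) (h : P.Ok0) {y : FP} (hy : y ∈ FPS P.La) (hW : y ∈ sd2_Wp) :
    P.F0 y = P.La ^ 2 + 1 - qsq (fZe y) (fZ y) / 2 := by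
  have h1 := sd2_sq hy
  obtain ⟨_, hs, hr⟩ := hW
  have hLa := h.La
  have h2 : P.La / 2 ≤ fS y := by
    by_contra hc
    push Not at hc
    have h3 : fS y ^ 2 < (P.La / 2) ^ 2 := by nlinarith
    nlinarith
  have h3 : P.chip y = 0 := by
    unfold chip
    rw [if_neg (not_lt.mpr hs.le)]
  unfold F0
  rw [(P.f0_props (by linarith)).2.2.1 _ h2, h3, h1]
  ring

theorem sd2_algN {V : Type} [AddCommGroup V] [Module ℝ V] (A N B : V) (r zz c t : ℝ) (hr : r ≠ 0)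
    (ht : zz / r = t) :
    (r / 2 + c) • (r⁻¹ • A + (zz / r) • N) + B =
      ((1 / 2 : ℝ) • (A + zz • N) + B + (c * t) • N) + c • (r⁻¹ • A) := by
  subst ht
  have h1 : r / 2 * r⁻¹ = 1 / 2 := by field_simp
  have h2 : r / 2 * (zz / r) = 1 / 2 * zz := by field_simp
  simp only [smul_add, add_smul, smul_smul, add_mul, h1, h2]
  module

theorem sd2_algNp {V : Type} [AddCommGroup V] [Module ℝ V] (A N B : V) (r zz c t : ℝ) (hr : r ≠ 0)
    (ht : zz / r = t) :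
    (c - r / 2) • (r⁻¹ • A + (zz / r) • N) + B =
      (-((1 / 2 : ℝ) • (A + zz • N)) + B + (c * t) • N) + c • (r⁻¹ • A) := by
  subst ht
  have h1 : r / 2 * r⁻¹ = 1 / 2 := by field_simp
  have h2 : r / 2 * (zz / r) = 1 / 2 * zz := by field_simp
  simp only [smul_add, sub_smul, smul_smul, sub_mul, h1, h2]
  module

theorem sd2_algS {V : Type} [AddCommGroup V] [Module ℝ V] (A B : V) (r c : ℝ) (hr : r ≠ 0) :
    (r / 2 + c) • (r⁻¹ • A) + B = ((1 / 2 : ℝ) • A + B) + c • (r⁻¹ • A) := by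
  have h1 : r / 2 * r⁻¹ = 1 / 2 := by field_simp
  simp only [smul_smul, add_mul, h1]
  module

theorem sd2_algSp {V : Type} [AddCommGroup V] [Module ℝ V] (A B : V) (r c : ℝ) (hr : r ≠ 0) :
    (c - r / 2) • (r⁻¹ • A) + B = (-((1 / 2 : ℝ) • A) + B) + c • (r⁻¹ • A) := by
  have h1 : r / 2 * r⁻¹ = 1 / 2 := by field_simp
  simp only [smul_smul, sub_mul, h1]
  module

end FPar

namespace FPar

theorem agree_Nm (P : FPar) (h : P.Ok0) {p a b : FP} (hp : p ∈ FPS P.La)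
    (hq : fZe p ≠ 0 ∨ fZ p ≠ 0) (hs : fS p < 0) (hr : qsq (fZe p) (fZ p) < P.r0 ^ 2 / 4)
    (ha : IsTangent (FPS P.La) p a) (hb : IsTangent (FPS P.La) p b) :
    P.omN0 p a b = P.omNm p a b := by
  have hW : p ∈ P.sd2_Wm := ⟨hq, hs, hr⟩
  have hLa : 0 < P.La := by linarith [h.La]
  refine sd2_core hLa hp P.sd2_Wm P.sd2_openWm hW (fun y hy => hy.1) P.lN0
    (fun p => P.q2N p + P.bN p + (P.eps * ((1 - fH0 p) / 2)) • P.aN p)
    ((P.smooth_lN0 h).mono P.sd2_WmD)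
    (((P.sd2_q2N h).add (P.sd2_bN h)).add (P.sd2_haN h P.eps)).contDiffOn P.eps ?_ ha hb
  rintro y ⟨hy1, hy2⟩
  have hr0 := ne_of_gt (sd2_qpos hy2.1)
  show P.F0 y • (alq y + (Complex.normSq (fZ y) / qsq (fZe y) (fZ y)) • P.aN y) + P.bN y = _
  rw [P.sd2_F0m h hy1 hy2]
  exact sd2_algN (imF pZe y + imF pZ y) (P.aN y) (P.bN y) (qsq (fZe y) (fZ y))
    (Complex.normSq (fZ y)) P.eps ((1 - fH0 y) / 2) hr0 (FPS_hopf hy1 hy2.1).2.2

theorem agree_Np (P : FPar) (h : P.Ok0) {p a b : FP} (hp : p ∈ FPS P.La)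
    (hq : fZe p ≠ 0 ∨ fZ p ≠ 0) (hs : 0 < fS p) (hr : qsq (fZe p) (fZ p) < 1)
    (ha : IsTangent (FPS P.La) p a) (hb : IsTangent (FPS P.La) p b) :
    P.omN0 p a b = P.omNp p a b := by
  have hW : p ∈ sd2_Wp := ⟨hq, hs, hr⟩
  have hLa : 0 < P.La := by linarith [h.La]
  refine sd2_core hLa hp sd2_Wp sd2_openWp hW (fun y hy => hy.1) P.lN0
    (fun p => -P.q2N p + P.bN p + ((P.La ^ 2 + 1) * ((1 - fH0 p) / 2)) • P.aN p)
    ((P.smooth_lN0 h).mono P.sd2_WpD)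
    (((P.sd2_q2N h).neg.add (P.sd2_bN h)).add (P.sd2_haN h (P.La ^ 2 + 1))).contDiffOn
    (P.La ^ 2 + 1) ?_ ha hb
  rintro y ⟨hy1, hy2⟩
  have hr0 := ne_of_gt (sd2_qpos hy2.1)
  show P.F0 y • (alq y + (Complex.normSq (fZ y) / qsq (fZe y) (fZ y)) • P.aN y) + P.bN y = _
  rw [P.sd2_F0p h hy1 hy2]
  exact sd2_algNp (imF pZe y + imF pZ y) (P.aN y) (P.bN y) (qsq (fZe y) (fZ y))
    (Complex.normSq (fZ y)) (P.La ^ 2 + 1) ((1 - fH0 y) / 2) hr0 (FPS_hopf hy1 hy2.1).2.2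

theorem agree_Sm (P : FPar) (h : P.Ok0) {p a b : FP} (hp : p ∈ FPS P.La)
    (hq : fZe p ≠ 0 ∨ fZ p ≠ 0) (hs : fS p < 0) (hr : qsq (fZe p) (fZ p) < P.r0 ^ 2 / 4)
    (ha : IsTangent (FPS P.La) p a) (hb : IsTangent (FPS P.La) p b) :
    P.omS0 p a b = P.omSm p a b := by
  have hW : p ∈ P.sd2_Wm := ⟨hq, hs, hr⟩
  have hLa : 0 < P.La := by linarith [h.La]
  refine sd2_core hLa hp P.sd2_Wm P.sd2_openWm hW (fun y hy => hy.1) P.lS0
    (fun p => q2S p + bS p) ((P.smooth_lS0 h).mono P.sd2_WmD)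
    (sd2_q2S.add sd2_bS).contDiffOn P.eps ?_ ha hb
  rintro y ⟨hy1, hy2⟩
  have hr0 := ne_of_gt (sd2_qpos hy2.1)
  show P.F0 y • alq y + bS y = _
  rw [P.sd2_F0m h hy1 hy2]
  exact sd2_algS (imF pZe y + imF pZ y) (bS y) (qsq (fZe y) (fZ y)) P.eps hr0

theorem agree_Sp (P : FPar) (h : P.Ok0) {p a b : FP} (hp : p ∈ FPS P.La)
    (hq : fZe p ≠ 0 ∨ fZ p ≠ 0) (hs : 0 < fS p) (hr : qsq (fZe p) (fZ p) < 1)
    (ha : IsTangent (FPS P.La) p a) (hb : IsTangent (FPS P.La) p b) :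
    P.omS0 p a b = P.omSp p a b := by
  have hW : p ∈ sd2_Wp := ⟨hq, hs, hr⟩
  have hLa : 0 < P.La := by linarith [h.La]
  refine sd2_core hLa hp sd2_Wp sd2_openWp hW (fun y hy => hy.1) P.lS0
    (fun p => -q2S p + bS p) ((P.smooth_lS0 h).mono P.sd2_WpD)
    (sd2_q2S.neg.add sd2_bS).contDiffOn (P.La ^ 2 + 1) ?_ ha hb
  rintro y ⟨hy1, hy2⟩
  have hr0 := ne_of_gt (sd2_qpos hy2.1)
  show P.F0 y • alq y + bS y = _
  rw [P.sd2_F0p h hy1 hy2]
  exact sd2_algSp (imF pZe y + imF pZ y) (bS y) (qsq (fZe y) (fZ y)) (P.La ^ 2 + 1) hr0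

end FPar

end Pool.Agent.H34.SY
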