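import Pool.Agent.H34.SY.MA
import Pool.Agent.H34.SY.MB
import Pool.Agent.H34.SY.MC
import Pool.Agent.H34.SY.MH1
import Pool.Agent.H34.SY.MH3
import Pool.Agent.H34.SY.SD2

/-!
# Row MX1: closedness of the local forms of `M'` and agreement near `q = 0`

Everything on `FPS La` (tangent vectors of `FPS La`).
Smoothness: `PiN` is smooth (`yy` is smooth everywhere in `(t,u,ζ,z)`, `mixq_ne`; also stated as `contDiff_PiN` in row MB; reprove
it here if you do not want to import MB), `l6` smooth, `alq` smooth off `q = 0`, `chip` smooth on `{s ≠ 0 ∨ r0² < |q|²}`; `xiN`: on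
`s < 0` smooth, on `s > 0` the identity, and on `1 < |q|²` both are the identity (`yy_big`).  `etaN` is smooth off `u = 0`; `chip = 0`
where `0 < s` or `1 < |q|²`.
* `closed_I0`, `closed_Im`, `closed_O0`, `closed_Om`, `closed_OS0`, `closed_OSm`: `isClosedForm_dd` on the open set, `areaF_closed`,
  `IsClosedForm.add/smul/mono`.
* `agree_I`: near `p` `chip = 1`; `omI0 = dd (pb1 PiN l6) - eps dd alq`, and `dd alq = areaF` (`star`).
* `agree_O`: (`B² < |u|²`, `s < 0`, `0 < |q|² < r0²/4`): near `p`: `l = 1` (`r0 ≤ rb/2`), `xiN p' = (.., z̄ w̄, -ζ̄ w̄, ..)`, and as 1-forms on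
  `{B² < |u|²}`: `alq(xi) = -alq - dθ`, `|z_X|² = |ζ|²`, so on tangent vectors of `FPS` near `p` (`F0 = |q|²/2 + eps` there, since
  `f0 = (La²-s²)/2`): `pb1 xiN lN0 = pb1 xiN q2N + bN + eps (-alq - dθ + (|ζ|²/|q|²) aN)`, `dθ = Im(ū du)/|u|²`, plus
  `eps etaN = eps (dθ - aN)`: total `pb1 xiN q2N + bN - eps alq - eps (|z|²/|q|²) aN`, and `|z|²/|q|² = (1-h0)/2` on `FPS`.
  `dd_congr_tangent` (charts of `FPS`: `exists_tchart`), `star`.
* `agree_O_p`: `0 < s`, `|q|² < 1`: near `p` `xiN = id`, `chip = 0`: `omO0 = omN0`, then `agree_Np`.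
* `agree_OS`, `agree_OS_p`: side `S`: `alq(xiS) = -alq`, no connection.
-/

open Set Topology
open scoped ContDiff ComplexConjugate

namespace Pool.Agent.H34.SY

namespace FPar

/-- Domain of the outer form off `q = 0`. -/
def DO (P : FPar) : Set FP :=
  {p | (fZe p ≠ 0 ∨ fZ p ≠ 0) ∧ ((P.hd.B ^ 2 < Complex.normSq (fU p) ∧ fS p < 0) ∨ 0 < fS p ∨
    1 < qsq (fZe p) (fZ p))}

theorem isOpen_DO (P : FPar) : IsOpen P.DO := by
  refine sd2_openq.inter (IsOpen.union (IsOpen.inter ?_ ?_) (IsOpen.union ?_ ?_))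
  · exact isOpen_lt continuous_const sd2_smU.continuous
  · exact isOpen_lt sd2_smS.continuous continuous_const
  · exact isOpen_lt continuous_const sd2_smS.continuous
  · exact isOpen_lt continuous_const sd2_smq.continuous

/-! ### the map `xiN` -/

theorem MX1_cdyy (P : FPar) :
    ContDiff ℝ ∞ (fun p : FP => P.toPar.yy 1 (fT p) (fU p) (fZe p) (fZ p)) := by
  rw [← contDiffOn_univ]
  have cT : ContDiffOn ℝ ∞ (fun p : FP => fT p) univ := pT.contDiff.contDiffOn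
  have cU : ContDiffOn ℝ ∞ (fun p : FP => fU p) univ := pU.contDiff.contDiffOn
  have cZe : ContDiffOn ℝ ∞ (fun p : FP => fZe p) univ := pZe.contDiff.contDiffOn
  have cZ : ContDiffOn ℝ ∞ (fun p : FP => fZ p) univ := pZ.contDiff.contDiffOn
  have cx : ContDiffOn ℝ ∞ (fun p : FP => xpt (fT p) (fU p)) univ :=
    cT.prodMk ((MB_re cU).prodMk (MB_im cU))
  have cq : ContDiffOn ℝ ∞ (fun p : FP => qsq (fZe p) (fZ p)) univ := by
    unfold qsq
    exact (MB_normSq cZe).add (MB_normSq cZ)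
  have cg : ContDiffOn ℝ ∞ (fun p : FP => mixq (1 * P.toPar.lamb (qsq (fZe p) (fZ p)))
      (P.hd.g (xpt (fT p) (fU p)))) univ :=
    MB_mixq (contDiffOn_const.mul (P.MB_cuts.2.comp_contDiffOn cq))
      (P.hd.g_smooth.comp_contDiffOn cx)
  exact MB_qgbar cZe cZ cg (fun p _ => by rw [one_mul]; exact P.MB_npos _ _)

/-- The formula for `xiN` for `s < 0`. -/
noncomputable def MX1_xm (P : FPar) (p : FP) : FP :=
  (fT p, fU p, fH0 p, fH p,
    ⟨(P.toPar.yy 1 (fT p) (fU p) (fZe p) (fZ p)).1,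
      (P.toPar.yy 1 (fT p) (fU p) (fZe p) (fZ p)).2.1⟩,
    ⟨(P.toPar.yy 1 (fT p) (fU p) (fZe p) (fZ p)).2.2.1,
      -(P.toPar.yy 1 (fT p) (fU p) (fZe p) (fZ p)).2.2.2⟩, fS p)

theorem MX1_xm_cd (P : FPar) : ContDiff ℝ ∞ P.MX1_xm := by
  rw [← contDiffOn_univ]
  have cy := P.MX1_cdyy.contDiffOn (s := univ)
  have cT : ContDiffOn ℝ ∞ (fun p : FP => fT p) univ := pT.contDiff.contDiffOn
  have cU : ContDiffOn ℝ ∞ (fun p : FP => fU p) univ := pU.contDiff.contDiffOn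
  have cH0 : ContDiffOn ℝ ∞ (fun p : FP => fH0 p) univ := pH0.contDiff.contDiffOn
  have cH : ContDiffOn ℝ ∞ (fun p : FP => fH p) univ := pH.contDiff.contDiffOn
  have cS : ContDiffOn ℝ ∞ (fun p : FP => fS p) univ := pS.contDiff.contDiffOn
  exact cT.prodMk (cU.prodMk (cH0.prodMk (cH.prodMk ((MB_mk cy.fst cy.snd.fst).prodMk
    ((MB_mk cy.snd.snd.fst cy.snd.snd.snd.neg).prodMk cS)))))

theorem MX1_xiN_neg (P : FPar) {p : FP} (hs : fS p < 0) : P.xiN p = P.MX1_xm p := by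
  unfold xiN MX1_xm
  rw [if_pos hs]

theorem MX1_xiN_pos (P : FPar) {p : FP} (hs : 0 ≤ fS p) : P.xiN p = p := by
  unfold xiN
  rw [if_neg (not_lt.2 hs)]
  simp only [neg_neg]

theorem MX1_xiN_big (P : FPar) (h : P.Ok2) {p : FP} (hq : 1 < qsq (fZe p) (fZ p)) :
    P.xiN p = p := by
  rcases lt_or_ge (fS p) 0 with hs | hs
  · rw [P.MX1_xiN_neg hs]
    unfold MX1_xm
    have h1 := h.rb0
    have h2 := h.rb1
    rw [P.yy_big h1 1 _ _ _ _ (by nlinarith)]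
    simp only [neg_neg]
  · exact P.MX1_xiN_pos hs

theorem MX1_xiN_qsq (P : FPar) (p : FP) :
    qsq (fZe (P.xiN p)) (fZ (P.xiN p)) = qsq (fZe p) (fZ p) := by
  rcases lt_or_ge (fS p) 0 with hs | hs
  · rw [P.MX1_xiN_neg hs]
    have h1 := P.yy_norm 1 (fT p) (fU p) (fZe p) (fZ p) (P.mixq_ne zero_le_one le_rfl _ _)
    rw [← h1]
    unfold MX1_xm qsq nsq4
    simp only [Complex.normSq_apply]
    ring
  · rw [P.MX1_xiN_pos hs]

theorem MX1_xiN_cd (P : FPar) (h : P.Ok2) {p : FP} (hp : fS p ≠ 0 ∨ 1 < qsq (fZe p) (fZ p)) :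
    ContDiffAt ℝ ∞ P.xiN p := by
  by_cases hq : 1 < qsq (fZe p) (fZ p)
  · have h1 : ∀ᶠ y in 𝓝 p, 1 < qsq (fZe y) (fZ y) :=
      (isOpen_lt continuous_const sd2_smq.continuous).mem_nhds hq
    refine contDiffAt_id.congr_of_eventuallyEq ?_
    filter_upwards [h1] with y hy
    exact P.MX1_xiN_big h hy
  · rcases lt_or_gt_of_ne (hp.resolve_right hq) with hs | hs
    · have h1 : ∀ᶠ y in 𝓝 p, fS y < 0 :=
        (isOpen_lt sd2_smS.continuous continuous_const).mem_nhds hs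
      refine P.MX1_xm_cd.contDiffAt.congr_of_eventuallyEq ?_
      filter_upwards [h1] with y hy
      exact P.MX1_xiN_neg hy
    · have h1 : ∀ᶠ y in 𝓝 p, 0 < fS y :=
        (isOpen_lt continuous_const sd2_smS.continuous).mem_nhds hs
      refine contDiffAt_id.congr_of_eventuallyEq ?_
      filter_upwards [h1] with y hy
      exact P.MX1_xiN_pos hy.le

/-! ### the map `xiS` -/

/-- The formula for `xiS` for `s < 0`. -/
noncomputable def MX1_xs (P : FPar) (p : FP) : FP :=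
  (fT p, fU p, fH0 p, fH p,
    (((1 - P.toPar.lamb (qsq (fZe p) (fZ p))) /
      Real.sqrt ((1 - P.toPar.lamb (qsq (fZe p) (fZ p))) ^ 2
        + P.toPar.lamb (qsq (fZe p) (fZ p)) ^ 2) : ℝ) : ℂ) * fZe p +
      ((P.toPar.lamb (qsq (fZe p) (fZ p)) /
        Real.sqrt ((1 - P.toPar.lamb (qsq (fZe p) (fZ p))) ^ 2
        + P.toPar.lamb (qsq (fZe p) (fZ p)) ^ 2) : ℝ) : ℂ) * conj (fZ p),
    (((1 - P.toPar.lamb (qsq (fZe p) (fZ p))) /
      Real.sqrt ((1 - P.toPar.lamb (qsq (fZe p) (fZ p))) ^ 2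
        + P.toPar.lamb (qsq (fZe p) (fZ p)) ^ 2) : ℝ) : ℂ) * fZ p -
      ((P.toPar.lamb (qsq (fZe p) (fZ p)) /
        Real.sqrt ((1 - P.toPar.lamb (qsq (fZe p) (fZ p))) ^ 2
        + P.toPar.lamb (qsq (fZe p) (fZ p)) ^ 2) : ℝ) : ℂ) * conj (fZe p), fS p)

theorem MX1_xs_cd (P : FPar) : ContDiff ℝ ∞ P.MX1_xs := by
  rw [← contDiffOn_univ]
  have cl := P.MA_cdl.contDiffOn (s := univ)
  have cn := P.MA_cdsq.contDiffOn (s := univ)
  have cn0 : ∀ p ∈ (univ : Set FP), Real.sqrt ((1 - P.toPar.lamb (qsq (fZe p) (fZ p))) ^ 2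
      + P.toPar.lamb (qsq (fZe p) (fZ p)) ^ 2) ≠ 0 := fun p _ => MA_sq_ne _
  have cT : ContDiffOn ℝ ∞ (fun p : FP => fT p) univ := pT.contDiff.contDiffOn
  have cU : ContDiffOn ℝ ∞ (fun p : FP => fU p) univ := pU.contDiff.contDiffOn
  have cH0 : ContDiffOn ℝ ∞ (fun p : FP => fH0 p) univ := pH0.contDiff.contDiffOn
  have cH : ContDiffOn ℝ ∞ (fun p : FP => fH p) univ := pH.contDiff.contDiffOn
  have cZe : ContDiffOn ℝ ∞ (fun p : FP => fZe p) univ := pZe.contDiff.contDiffOn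
  have cZ : ContDiffOn ℝ ∞ (fun p : FP => fZ p) univ := pZ.contDiff.contDiffOn
  have cS : ContDiffOn ℝ ∞ (fun p : FP => fS p) univ := pS.contDiff.contDiffOn
  have ca := MB_ofReal ((contDiffOn_const (c := (1 : ℝ)).sub cl).div cn cn0)
  have cb := MB_ofReal (cl.div cn cn0)
  exact cT.prodMk (cU.prodMk (cH0.prodMk (cH.prodMk (((ca.mul cZe).add (cb.mul (MB_conj cZ))).prodMk
    (((ca.mul cZ).sub (cb.mul (MB_conj cZe))).prodMk cS)))))

theorem MX1_xiS_neg (P : FPar) {p : FP} (hs : fS p < 0) : P.xiS p = P.MX1_xs p := by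
  unfold xiS MX1_xs
  rw [if_pos hs]

theorem MX1_xiS_pos (P : FPar) {p : FP} (hs : 0 ≤ fS p) : P.xiS p = p := by
  unfold xiS
  rw [if_neg (not_lt.2 hs)]
  simp

theorem MX1_xiS_big (P : FPar) (h : P.Ok2) {p : FP} (hq : 1 < qsq (fZe p) (fZ p)) :
    P.xiS p = p := by
  rcases lt_or_ge (fS p) 0 with hs | hs
  · rw [P.MX1_xiS_neg hs]
    unfold MX1_xs
    have h1 := h.rb0
    have h2 := h.rb1
    rw [MA_lamb_zero P.toPar h1 (by nlinarith)]
    simp
  · exact P.MX1_xiS_pos hs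

theorem MX1_alg (a b n : ℝ) (ze z : ℂ) (hn : n = a ^ 2 + b ^ 2) (hn0 : 0 < n) :
    qsq (((a / Real.sqrt n : ℝ) : ℂ) * ze + ((b / Real.sqrt n : ℝ) : ℂ) * conj z)
      (((a / Real.sqrt n : ℝ) : ℂ) * z - ((b / Real.sqrt n : ℝ) : ℂ) * conj ze) = qsq ze z := by
  have h1 : Real.sqrt n ≠ 0 := (Real.sqrt_pos.2 hn0).ne'
  have h2 : Real.sqrt n ^ 2 = n := Real.sq_sqrt hn0.le
  have h3 : (a / Real.sqrt n) ^ 2 + (b / Real.sqrt n) ^ 2 = 1 := by
    rw [div_pow, div_pow, h2, ← add_div, ← hn]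
    exact div_self hn0.ne'
  revert h3
  generalize a / Real.sqrt n = A
  generalize b / Real.sqrt n = B
  intro h3
  unfold qsq
  simp only [Complex.normSq_apply, Complex.add_re, Complex.add_im, Complex.sub_re, Complex.sub_im,
    Complex.mul_re, Complex.mul_im, Complex.ofReal_re, Complex.ofReal_im, Complex.conj_re,
    Complex.conj_im]
  linear_combination (ze.re * ze.re + ze.im * ze.im + (z.re * z.re + z.im * z.im)) * h3

theorem MX1_xiS_qsq (P : FPar) (p : FP) :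
    qsq (fZe (P.xiS p)) (fZ (P.xiS p)) = qsq (fZe p) (fZ p) := by
  rcases lt_or_ge (fS p) 0 with hs | hs
  · rw [P.MX1_xiS_neg hs]
    refine MX1_alg _ _ _ (fZe p) (fZ p) rfl ?_
    have := Real.sqrt_ne_zero'.1 (MA_sq_ne (P.toPar.lamb (qsq (fZe p) (fZ p))))
    exact this
  · rw [P.MX1_xiS_pos hs]

theorem MX1_xiS_cd (P : FPar) (h : P.Ok2) {p : FP} (hp : fS p ≠ 0 ∨ 1 < qsq (fZe p) (fZ p)) :
    ContDiffAt ℝ ∞ P.xiS p := by
  by_cases hq : 1 < qsq (fZe p) (fZ p)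
  · have h1 : ∀ᶠ y in 𝓝 p, 1 < qsq (fZe y) (fZ y) :=
      (isOpen_lt continuous_const sd2_smq.continuous).mem_nhds hq
    refine contDiffAt_id.congr_of_eventuallyEq ?_
    filter_upwards [h1] with y hy
    exact P.MX1_xiS_big h hy
  · rcases lt_or_gt_of_ne (hp.resolve_right hq) with hs | hs
    · have h1 : ∀ᶠ y in 𝓝 p, fS y < 0 :=
        (isOpen_lt sd2_smS.continuous continuous_const).mem_nhds hs
      refine P.MX1_xs_cd.contDiffAt.congr_of_eventuallyEq ?_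
      filter_upwards [h1] with y hy
      exact P.MX1_xiS_neg hy
    · have h1 : ∀ᶠ y in 𝓝 p, 0 < fS y :=
        (isOpen_lt continuous_const sd2_smS.continuous).mem_nhds hs
      refine contDiffAt_id.congr_of_eventuallyEq ?_
      filter_upwards [h1] with y hy
      exact P.MX1_xiS_pos hy.le

theorem MX1_neg {V : Type} [AddCommGroup V] [Module ℝ V] (c : ℝ) (A B : V) :
    A + (-c) • B = A - c • B := by
  rw [neg_smul, ← sub_eq_add_neg]

theorem MX1_neg2 (c : ℝ) (A B : FP →L[ℝ] FP →L[ℝ] ℝ) (a b : FP) :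
    (A + (-c) • B) a b = (A - c • B) a b := by
  show A a b + (-c) * B a b = A a b - c * B a b
  ring

/-! ### smoothness of the primitives -/

theorem MX1_open_s : IsOpen {p : FP | fS p < 0} := isOpen_lt sd2_smS.continuous continuous_const

theorem MX1_open_I : IsOpen {p : FP | (fZe p ≠ 0 ∨ fZ p ≠ 0) ∧ fS p < 0} :=
  sd2_openq.inter MX1_open_s

theorem MX1_q0 {p : FP} (h : 0 < qsq (fZe p) (fZ p)) : fZe p ≠ 0 ∨ fZ p ≠ 0 := by
  by_contra hc
  push Not at hc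
  rw [hc.1, hc.2] at h
  simp [qsq] at h

theorem MX1_cd_I0 (P : FPar) (h : P.Ok2) :
    ContDiffOn ℝ ∞ (fun p => pb1 P.PiN P.l6 p - (P.eps * P.chip p) • alq p)
      {p : FP | (fZe p ≠ 0 ∨ fZ p ≠ 0) ∧ fS p < 0} := by
  have h1 : ContDiffOn ℝ ∞ (pb1 P.PiN P.l6) univ :=
    contDiffOn_pb1 isOpen_univ (P.contDiff_PiN h).contDiffOn
      (P.contDiff_l6 h.T2 h.Ta).contDiffOn (mapsTo_univ _ _)
  have hD : {p : FP | (fZe p ≠ 0 ∨ fZ p ≠ 0) ∧ fS p < 0} ⊆ P.Dq :=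
    fun p hp => ⟨hp.1, Or.inl (ne_of_lt hp.2)⟩
  exact (h1.mono (subset_univ _)).sub
    ((contDiffOn_const.mul ((SD1_chip P h.toOk0).mono hD)).smul ((SD1_alq P).mono hD))

theorem MX1_cd_Im (P : FPar) (h : P.Ok2) : ContDiff ℝ ∞ (pb1 P.PiN P.l6) := by
  rw [← contDiffOn_univ]
  exact contDiffOn_pb1 isOpen_univ (P.contDiff_PiN h).contDiffOn
      (P.contDiff_l6 h.T2 h.Ta).contDiffOn (mapsTo_univ _ _)

theorem closed_I0 (P : FPar) (h : P.Ok2) :
    IsClosedForm (FPS P.La ∩ {p | (fZe p ≠ 0 ∨ fZ p ≠ 0) ∧ fS p < 0}) P.omI0 :=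
  isClosedForm_dd MX1_open_I (P.MX1_cd_I0 h)

theorem closed_Im (P : FPar) (h : P.Ok2) : IsClosedForm (FPS P.La) P.omIm := by
  refine ((SD1_univ (P.MX1_cd_Im h)).add ((areaF_closed P.La).smul (-P.eps))).congr ?_
  intro z _ a b _ _
  unfold omIm
  exact MX1_neg2 _ _ _ _ _

theorem MX1_chip_big (P : FPar) (h : P.Ok2) {y : FP} (hy : 1 < qsq (fZe y) (fZ y)) :
    P.chip y = 0 := by
  unfold chip
  split_ifs
  · refine (P.chi_props h.r0).2.2.1 _ ?_
    have h1 := h.r0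
    have h2 := h.r1
    nlinarith
  · rfl

theorem MX1_chip_pos (P : FPar) {y : FP} (hy : 0 < fS y) : P.chip y = 0 := by
  unfold chip
  rw [if_neg (not_lt.2 hy.le)]

theorem MX1_maps (P : FPar) (h : P.Ok2) {p : FP} (hq : fZe p ≠ 0 ∨ fZ p ≠ 0)
    (hp : fS p ≠ 0 ∨ 1 < qsq (fZe p) (fZ p)) : P.xiN p ∈ P.Dq := by
  have h0 := sd2_qpos hq
  refine ⟨MX1_q0 (by rw [P.MX1_xiN_qsq]; exact h0), ?_⟩
  rw [P.MX1_xiN_qsq]
  rcases hp with hp | hp
  · exact Or.inl hp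
  · right
    have h1 := h.r0
    have h2 := h.r1
    nlinarith

theorem MX1_mapsS (P : FPar) (h : P.Ok2) {p : FP} (hq : fZe p ≠ 0 ∨ fZ p ≠ 0)
    (hp : fS p ≠ 0 ∨ 1 < qsq (fZe p) (fZ p)) : P.xiS p ∈ P.Dq := by
  have h0 := sd2_qpos hq
  refine ⟨MX1_q0 (by rw [P.MX1_xiS_qsq]; exact h0), ?_⟩
  rw [P.MX1_xiS_qsq]
  rcases hp with hp | hp
  · exact Or.inl hp
  · right
    have h1 := h.r0
    have h2 := h.r1
    nlinarith

theorem MX1_DO (P : FPar) {p : FP} (hp : p ∈ P.DO) : fS p ≠ 0 ∨ 1 < qsq (fZe p) (fZ p) := by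
  rcases hp.2 with h1 | h1 | h1
  · exact Or.inl (ne_of_lt h1.2)
  · exact Or.inl (ne_of_gt h1)
  · exact Or.inr h1

theorem MX1_cd_O0 (P : FPar) (h : P.Ok2) :
    ContDiffOn ℝ ∞ (fun p => pb1 P.xiN P.lN0 p + (P.eps * P.chip p) • P.etaN p) P.DO := by
  have h1 : ContDiffOn ℝ ∞ (pb1 P.xiN P.lN0) P.DO :=
    contDiffOn_pb1 P.isOpen_DO (fun p hp => (P.MX1_xiN_cd h (P.MX1_DO hp)).contDiffWithinAt)
      (P.smooth_lN0 h.toOk0) (fun p hp => P.MX1_maps h hp.1 (P.MX1_DO hp))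
  refine h1.add ?_
  intro p hp
  refine ContDiffAt.contDiffWithinAt ?_
  rcases hp.2 with h2 | h2 | h2
  · have hD : p ∈ P.Dq := ⟨hp.1, Or.inl (ne_of_lt h2.2)⟩
    have hc : ContDiffAt ℝ ∞ P.chip p := (SD1_chip P h.toOk0).contDiffAt (P.isOpen_Dq.mem_nhds hD)
    have hu : Complex.normSq (fU p) ≠ 0 := by
      have h3 := sq_nonneg P.hd.B
      have h4 := h2.1
      exact ne_of_gt (by linarith)
    have he : ContDiffAt ℝ ∞ (fun p : FP => 1 / Complex.normSq (fU p) -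
        P.ka (Complex.normSq (fU p))) p :=
      (contDiffAt_const.div sd2_smU.contDiffAt hu).sub
        ((P.ka_props h.Ta).1.comp sd2_smU).contDiffAt
    exact (contDiffAt_const.mul hc).smul (he.smul (contDiff_imF pU).contDiffAt)
  · refine (contDiffAt_const (c := (0 : FP →L[ℝ] ℝ))).congr_of_eventuallyEq ?_
    have h3 : ∀ᶠ y in 𝓝 p, 0 < fS y :=
      (isOpen_lt continuous_const sd2_smS.continuous).mem_nhds h2
    filter_upwards [h3] with y hy
    rw [P.MX1_chip_pos hy, mul_zero, zero_smul]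
  · refine (contDiffAt_const (c := (0 : FP →L[ℝ] ℝ))).congr_of_eventuallyEq ?_
    have h3 : ∀ᶠ y in 𝓝 p, 1 < qsq (fZe y) (fZ y) :=
      (isOpen_lt continuous_const sd2_smq.continuous).mem_nhds h2
    filter_upwards [h3] with y hy
    rw [P.MX1_chip_big h hy, mul_zero, zero_smul]

theorem closed_O0 (P : FPar) (h : P.Ok2) : IsClosedForm (FPS P.La ∩ P.DO) P.omO0 :=
  isClosedForm_dd P.isOpen_DO (P.MX1_cd_O0 h)

theorem MX1_cd_Om (P : FPar) (h : P.Ok2) :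
    ContDiffOn ℝ ∞ (fun p => P.bN p + pb1 P.xiN P.q2N p - (P.eps * ((1 - fH0 p) / 2)) • P.aN p)
      {p | fS p < 0} := by
  have h1 : ContDiffOn ℝ ∞ (pb1 P.xiN P.q2N) {p | fS p < 0} :=
    contDiffOn_pb1 MX1_open_s
      (fun p hp => (P.MX1_xiN_cd h (Or.inl (ne_of_lt hp))).contDiffWithinAt)
      (P.sd2_q2N h.toOk0).contDiffOn (mapsTo_univ _ _)
  exact ((P.sd2_bN h.toOk0).contDiffOn.add h1).sub (P.sd2_haN h.toOk0 P.eps).contDiffOn

theorem closed_Om (P : FPar) (h : P.Ok2) :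
    IsClosedForm (FPS P.La ∩ {p | fS p < 0}) P.omOm := by
  refine ((isClosedForm_dd MX1_open_s (P.MX1_cd_Om h)).add
    (((areaF_closed P.La).mono MX1_open_s).smul (-P.eps))).congr ?_
  intro z _ a b _ _
  unfold omOm
  exact MX1_neg2 _ _ _ _ _

/-- The open set where `xiS` is smooth. -/
def MX1_Dq' : Set FP :=
  {p | (fZe p ≠ 0 ∨ fZ p ≠ 0) ∧ (fS p ≠ 0 ∨ 1 < qsq (fZe p) (fZ p))}

theorem MX1_open_Dq' : IsOpen MX1_Dq' :=
  sd2_openq.inter (IsOpen.union (isOpen_ne_fun sd2_smS.continuous continuous_const)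
    (isOpen_lt continuous_const sd2_smq.continuous))

theorem MX1_inter (P : FPar) (h : P.Ok2) : FPS P.La ∩ P.Dq = FPS P.La ∩ MX1_Dq' := by
  ext p
  constructor
  · rintro ⟨h1, h2⟩
    refine ⟨h1, h2.1, ?_⟩
    by_cases hs : fS p = 0
    · right
      have h3 := sd2_sq h1
      rw [hs] at h3
      have h4 := h.La
      nlinarith
    · exact Or.inl hs
  · rintro ⟨h1, h2⟩
    exact ⟨h1, P.Dq_of h.toOk0 h1 h2.1⟩

theorem MX1_cd_OS0 (P : FPar) (h : P.Ok2) : ContDiffOn ℝ ∞ (pb1 P.xiS P.lS0) MX1_Dq' :=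
  contDiffOn_pb1 MX1_open_Dq' (fun p hp => (P.MX1_xiS_cd h hp.2).contDiffWithinAt)
      (P.smooth_lS0 h.toOk0) (fun p hp => P.MX1_mapsS h hp.1 hp.2)

theorem closed_OS0 (P : FPar) (h : P.Ok2) : IsClosedForm (FPS P.La ∩ P.Dq) P.omOS0 := by
  rw [P.MX1_inter h]
  exact isClosedForm_dd MX1_open_Dq' (P.MX1_cd_OS0 h)

theorem MX1_cd_OSm (P : FPar) (h : P.Ok2) :
    ContDiffOn ℝ ∞ (fun p => bS p + pb1 P.xiS q2S p) {p | fS p < 0} := by
  have h1 : ContDiffOn ℝ ∞ (pb1 P.xiS q2S) {p | fS p < 0} :=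
    contDiffOn_pb1 MX1_open_s
      (fun p hp => (P.MX1_xiS_cd h (Or.inl (ne_of_lt hp))).contDiffWithinAt)
      sd2_q2S.contDiffOn (mapsTo_univ _ _)
  exact sd2_bS.contDiffOn.add h1

theorem closed_OSm (P : FPar) (h : P.Ok2) :
    IsClosedForm (FPS P.La ∩ {p | fS p < 0}) P.omOSm := by
  refine ((isClosedForm_dd MX1_open_s (P.MX1_cd_OSm h)).add
    (((areaF_closed P.La).mono MX1_open_s).smul (-P.eps))).congr ?_
  intro z _ a b _ _
  unfold omOSm
  exact MX1_neg2 _ _ _ _ _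

/-! ### agreement -/

theorem MX1_chip_one (P : FPar) (h : P.Ok2) {y : FP} (hy : y ∈ P.sd2_Wm) : P.chip y = 1 := by
  unfold chip
  rw [if_pos hy.2.1]
  exact (P.chi_props h.r0).2.1 _ hy.2.2.le

theorem agree_I (P : FPar) (h : P.Ok2) {p a b : FP} (hp : p ∈ FPS P.La)
    (hq : fZe p ≠ 0 ∨ fZ p ≠ 0) (hs : fS p < 0) (hr : qsq (fZe p) (fZ p) < P.r0 ^ 2 / 4)
    (ha : IsTangent (FPS P.La) p a) (hb : IsTangent (FPS P.La) p b) :
    P.omI0 p a b = P.omIm p a b := by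
  have hW : p ∈ P.sd2_Wm := ⟨hq, hs, hr⟩
  have hLa : 0 < P.La := by linarith [h.La]
  have key := sd2_core hLa hp P.sd2_Wm P.sd2_openWm hW (fun y hy => hy.1)
    (fun p => pb1 P.PiN P.l6 p - (P.eps * P.chip p) • alq p) (pb1 P.PiN P.l6)
    ((P.MX1_cd_I0 h).mono (fun y hy => ⟨hy.1, hy.2.1⟩)) (P.MX1_cd_Im h).contDiffOn (-P.eps)
    (by
      rintro y ⟨_, hy2⟩
      show pb1 P.PiN P.l6 y - (P.eps * P.chip y) • alq y = _
      rw [P.MX1_chip_one h hy2, mul_one]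
      exact (MX1_neg P.eps (pb1 P.PiN P.l6 y) (alq y)).symm) ha hb
  unfold omI0 omIm
  rw [key]
  exact MX1_neg2 _ _ _ _ _

theorem MX1_proj (L : FP →L[ℝ] ℂ) (f : FP → FP) (hL : ∀ y, L (f y) = L y) {y : FP}
    (hf : DifferentiableAt ℝ f y) (v : FP) : L (fderiv ℝ f y v) = L v := by
  have h1 : HasFDerivAt (fun y => L (f y)) (L.comp (fderiv ℝ f y)) y :=
    L.hasFDerivAt.comp y hf.hasFDerivAt
  have h2 : HasFDerivAt (fun y => L (f y)) L y := by
    have h3 : (fun y => L (f y)) = fun y => L y := funext hL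
    rw [h3]
    exact L.hasFDerivAt
  have h4 := h1.unique h2
  have h5 : (L.comp (fderiv ℝ f y)) v = L v := by rw [h4]
  exact h5

theorem MX1_algO (A b i U k r t z Z h0 e : ℝ) (hr : r ≠ 0) (hU : U ≠ 0)
    (ht : t = -A - r / U * i + Z * (k * i)) (hz : z / r = (1 - h0) / 2) (hZ : Z + z = r) :
    (r / 2 + e) * (r⁻¹ * t) + b + e * ((1 / U - k) * i) =
      b + 1 / 2 * t - e * ((1 - h0) / 2) * (k * i) + -e * (r⁻¹ * A) := by
  rw [← hz]
  have hZ' : Z = r - z := by linarith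
  subst hZ'
  subst ht
  field_simp
  ring

theorem agree_O (P : FPar) (h : P.Ok2) {p a b : FP} (hp : p ∈ FPS P.La)
    (hq : fZe p ≠ 0 ∨ fZ p ≠ 0) (hs : fS p < 0) (hr : qsq (fZe p) (fZ p) < P.r0 ^ 2 / 4)
    (hu : P.hd.B ^ 2 < Complex.normSq (fU p))
    (ha : IsTangent (FPS P.La) p a) (hb : IsTangent (FPS P.La) p b) :
    P.omO0 p a b = P.omOm p a b := by
  have hW : p ∈ P.sd2_Wm ∩ {p | P.hd.B ^ 2 < Complex.normSq (fU p)} := ⟨⟨hq, hs, hr⟩, hu⟩
  have hLa : 0 < P.La := by linarith [h.La]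
  have hO : IsOpen (P.sd2_Wm ∩ {p | P.hd.B ^ 2 < Complex.normSq (fU p)}) :=
    P.sd2_openWm.inter (isOpen_lt continuous_const sd2_smU.continuous)
  have key := sd2_core hLa hp _ hO hW (fun y hy => hy.1.1)
    (fun p => pb1 P.xiN P.lN0 p + (P.eps * P.chip p) • P.etaN p)
    (fun p => P.bN p + pb1 P.xiN P.q2N p - (P.eps * ((1 - fH0 p) / 2)) • P.aN p)
    ((P.MX1_cd_O0 h).mono (fun y hy => ⟨hy.1.1, Or.inl ⟨hy.2, hy.1.2.1⟩⟩))
    ((P.MX1_cd_Om h).mono (fun y hy => hy.1.2.1)) (-P.eps)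
    (by
      rintro y ⟨hy1, hy2, hy3⟩
      have hr0 := sd2_qpos hy2.1
      have hF0 : P.F0 (P.xiN y) = qsq (fZe y) (fZ y) / 2 + P.eps := by
        rw [← P.sd2_F0m h.toOk0 hy1 hy2]
        unfold F0 chip
        rw [P.MX1_xiN_qsq]
        rfl
      have hy3' : P.hd.B ^ 2 < Complex.normSq (fU y) := hy3
      have hU : Complex.normSq (fU y) ≠ 0 := by
        have h3 := sq_nonneg P.hd.B
        exact ne_of_gt (by linarith)
      have hrb : qsq (fZe y) (fZ y) < P.rb ^ 2 / 4 := by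
        have h1 := hy2.2.2
        have h2 := h.r0rb
        have h3 := h.r0
        have h4 := h.rb0
        nlinarith
      have H := P.pb_xiN_q2N h hy3' hy2.2.1 hrb
      have hxd : DifferentiableAt ℝ P.xiN y :=
        (P.MX1_xiN_cd h (Or.inl (ne_of_lt hy2.2.1))).differentiableAt (by simp)
      apply ContinuousLinearMap.ext
      intro v
      have hUv : fU (fderiv ℝ P.xiN y v) = fU v := MX1_proj pU P.xiN (fun y => rfl) hxd v
      have hUi : imF pU (P.xiN y) (fderiv ℝ P.xiN y v) = imF pU y v := by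
        rw [imF_apply, imF_apply]
        show (conj (fU (P.xiN y)) * fU (fderiv ℝ P.xiN y v)).im = _
        rw [hUv]
        rfl
      have Hv : pb1 P.xiN P.q2N y v = ((1 / 2 : ℝ) • (-(imF pZe y) - imF pZ y
          - (qsq (fZe y) (fZ y) / Complex.normSq (fU y)) • imF pU y
          + Complex.normSq (fZe y) • P.aN y)) v := by rw [H]
      have Hv' : 1 / 2 * (imF pZe (P.xiN y) (fderiv ℝ P.xiN y v)
          + imF pZ (P.xiN y) (fderiv ℝ P.xiN y v)
          + Complex.normSq (fZ (P.xiN y)) * (P.ka (Complex.normSq (fU y)) * imF pU y v)) =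
          1 / 2 * (-(imF pZe y v) - imF pZ y v
          - (qsq (fZe y) (fZ y) / Complex.normSq (fU y)) * imF pU y v
          + Complex.normSq (fZe y) * (P.ka (Complex.normSq (fU y)) * imF pU y v)) := by
        have Hw : 1 / 2 * (imF pZe (P.xiN y) (fderiv ℝ P.xiN y v)
          + imF pZ (P.xiN y) (fderiv ℝ P.xiN y v)
          + Complex.normSq (fZ (P.xiN y)) * (P.ka (Complex.normSq (fU y)) *
            imF pU (P.xiN y) (fderiv ℝ P.xiN y v))) =
          1 / 2 * (-(imF pZe y v) - imF pZ y v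
          - (qsq (fZe y) (fZ y) / Complex.normSq (fU y)) * imF pU y v
          + Complex.normSq (fZe y) * (P.ka (Complex.normSq (fU y)) * imF pU y v)) := Hv
        rw [hUi] at Hw
        exact Hw
      have hopf := (FPS_hopf hy1 hy2.1).2.2
      show P.F0 (P.xiN y) * ((qsq (fZe (P.xiN y)) (fZ (P.xiN y)))⁻¹ *
          (imF pZe (P.xiN y) (fderiv ℝ P.xiN y v) + imF pZ (P.xiN y) (fderiv ℝ P.xiN y v))
          + Complex.normSq (fZ (P.xiN y)) / qsq (fZe (P.xiN y)) (fZ (P.xiN y)) *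
          (P.ka (Complex.normSq (fU y)) * imF pU (P.xiN y) (fderiv ℝ P.xiN y v)))
          + P.kr (Complex.normSq (fU y)) / 2 * imF pU (P.xiN y) (fderiv ℝ P.xiN y v)
          + P.eps * P.chip y * ((1 / Complex.normSq (fU y) - P.ka (Complex.normSq (fU y)))
            * imF pU y v) =
        P.kr (Complex.normSq (fU y)) / 2 * imF pU y v
          + 1 / 2 * (imF pZe (P.xiN y) (fderiv ℝ P.xiN y v)
          + imF pZ (P.xiN y) (fderiv ℝ P.xiN y v)
          + Complex.normSq (fZ (P.xiN y)) * (P.ka (Complex.normSq (fU y)) *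
            imF pU (P.xiN y) (fderiv ℝ P.xiN y v)))
          - P.eps * ((1 - fH0 y) / 2) * (P.ka (Complex.normSq (fU y)) * imF pU y v)
          + -P.eps * ((qsq (fZe y) (fZ y))⁻¹ * (imF pZe y v + imF pZ y v))
      rw [hUi, P.MX1_xiN_qsq, hF0, P.MX1_chip_one h hy2]
      have fin := MX1_algO (imF pZe y v + imF pZ y v)
        (P.kr (Complex.normSq (fU y)) / 2 * imF pU y v) (imF pU y v) (Complex.normSq (fU y))
        (P.ka (Complex.normSq (fU y))) (qsq (fZe y) (fZ y))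
        (imF pZe (P.xiN y) (fderiv ℝ P.xiN y v) + imF pZ (P.xiN y) (fderiv ℝ P.xiN y v)
          + Complex.normSq (fZ (P.xiN y)) * (P.ka (Complex.normSq (fU y)) * imF pU y v))
        (Complex.normSq (fZ y)) (Complex.normSq (fZe y)) (fH0 y) P.eps hr0.ne' hU
        (by linarith [Hv']) hopf rfl
      rw [← fin]
      field_simp) ha hb
  unfold omO0 omOm
  rw [key]
  exact MX1_neg2 _ _ _ _ _

theorem MX1_id {f : FP → FP} {l : Form1 FP} {y : FP} (hf : f =ᶠ[𝓝 y] fun z => z) :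
    pb1 f l y = l y := by
  unfold pb1
  rw [hf.fderiv_eq, hf.eq_of_nhds]
  have h1 : fderiv ℝ (fun z : FP => z) y = ContinuousLinearMap.id ℝ FP := fderiv_id'
  rw [h1, ContinuousLinearMap.comp_id]

theorem MX1_ev {p : FP} (hs : 0 < fS p) : ∀ᶠ y in 𝓝 p, 0 < fS y :=
  (isOpen_lt continuous_const sd2_smS.continuous).mem_nhds hs

theorem agree_O_p (P : FPar) (h : P.Ok2) {p a b : FP} (hp : p ∈ FPS P.La)
    (hq : fZe p ≠ 0 ∨ fZ p ≠ 0) (hs : 0 < fS p) (hr : qsq (fZe p) (fZ p) < 1)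
    (ha : IsTangent (FPS P.La) p a) (hb : IsTangent (FPS P.La) p b) :
    P.omO0 p a b = P.omNp p a b := by
  rw [← P.agree_Np h.toOk0 hp hq hs hr ha hb]
  unfold omO0 omN0
  have h1 : (fun p => pb1 P.xiN P.lN0 p + (P.eps * P.chip p) • P.etaN p) =ᶠ[𝓝 p] P.lN0 := by
    filter_upwards [MX1_ev hs] with y hy
    have h2 : P.xiN =ᶠ[𝓝 y] fun z => z := by
      filter_upwards [MX1_ev hy] with z hz
      exact P.MX1_xiN_pos hz.le
    rw [MX1_id h2, P.MX1_chip_pos hy, mul_zero, zero_smul, add_zero]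
  rw [dd_congr h1]

/-- `xiS` near `q = 0`. -/
noncomputable def MX1_L : FP →L[ℝ] FP :=
  pT.prod (pU.prod (pH0.prod (pH.prod
    (((Complex.conjCLE : ℂ →L[ℝ] ℂ).comp pZ).prod
      ((-((Complex.conjCLE : ℂ →L[ℝ] ℂ).comp pZe)).prod pS)))))

theorem MX1_xiS_L (P : FPar) (h : P.Ok2) {y : FP} (hy : y ∈ P.sd2_Wm) : P.xiS y = MX1_L y := by
  rw [P.MX1_xiS_neg hy.2.1]
  have hl : P.toPar.lamb (qsq (fZe y) (fZ y)) = 1 := by
    unfold Par.lamb
    refine (cut_props (1 / 4) (3 / 4) (by norm_num)).2.1 _ ?_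
    have h1 := hy.2.2
    have h2 := h.r0rb
    have h3 := h.r0
    have h4 := h.rb0
    rw [div_le_iff₀ (by positivity)]
    nlinarith
  unfold MX1_xs
  rw [hl]
  show _ = (fT y, fU y, fH0 y, fH y, conj (fZ y), -conj (fZe y), fS y)
  simp

theorem agree_OS (P : FPar) (h : P.Ok2) {p a b : FP} (hp : p ∈ FPS P.La)
    (hq : fZe p ≠ 0 ∨ fZ p ≠ 0) (hs : fS p < 0) (hr : qsq (fZe p) (fZ p) < P.r0 ^ 2 / 4)
    (ha : IsTangent (FPS P.La) p a) (hb : IsTangent (FPS P.La) p b) :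
    P.omOS0 p a b = P.omOSm p a b := by
  have hW : p ∈ P.sd2_Wm := ⟨hq, hs, hr⟩
  have hLa : 0 < P.La := by linarith [h.La]
  have key := sd2_core hLa hp _ P.sd2_openWm hW (fun y hy => hy.1)
    (pb1 P.xiS P.lS0) (fun p => bS p + pb1 P.xiS q2S p)
    ((P.MX1_cd_OS0 h).mono (fun y hy => ⟨hy.1, Or.inl (ne_of_lt hy.2.1)⟩))
    ((P.MX1_cd_OSm h).mono (fun y hy => hy.2.1)) (-P.eps)
    (by
      rintro y ⟨hy1, hy2⟩
      have hr0 := (sd2_qpos hy2.1).ne'
      have hF0 : P.F0 (P.xiS y) = qsq (fZe y) (fZ y) / 2 + P.eps := by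
        rw [← P.sd2_F0m h.toOk0 hy1 hy2]
        unfold F0 chip
        rw [P.MX1_xiS_qsq]
        rfl
      have hev : P.xiS =ᶠ[𝓝 y] MX1_L := by
        filter_upwards [P.sd2_openWm.mem_nhds hy2] with z hz
        exact P.MX1_xiS_L h hz
      have hfd : fderiv ℝ P.xiS y = MX1_L := by
        rw [hev.fderiv_eq]
        exact MX1_L.fderiv
      apply ContinuousLinearMap.ext
      intro v
      have e1 : imF pZe (P.xiS y) (fderiv ℝ P.xiS y v) = -(imF pZ y v) := by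
        rw [hfd, P.MX1_xiS_L h hy2, imF_apply, imF_apply]
        show (conj (conj (fZ y)) * conj (fZ v)).im = -(conj (fZ y) * fZ v).im
        simp [Complex.mul_im]
        ring
      have e2 : imF pZ (P.xiS y) (fderiv ℝ P.xiS y v) = -(imF pZe y v) := by
        rw [hfd, P.MX1_xiS_L h hy2, imF_apply, imF_apply]
        show (conj (-conj (fZe y)) * (-conj (fZe v))).im = -(conj (fZe y) * fZe v).im
        simp [Complex.mul_im]
        ring
      have e3 : imF pU (P.xiS y) (fderiv ℝ P.xiS y v) = imF pU y v := by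
        rw [hfd, P.MX1_xiS_L h hy2, imF_apply, imF_apply]
        rfl
      show P.F0 (P.xiS y) * ((qsq (fZe (P.xiS y)) (fZ (P.xiS y)))⁻¹ *
          (imF pZe (P.xiS y) (fderiv ℝ P.xiS y v) + imF pZ (P.xiS y) (fderiv ℝ P.xiS y v)))
          + -(1 / 2) * imF pU (P.xiS y) (fderiv ℝ P.xiS y v) =
        -(1 / 2) * imF pU y v
          + 1 / 2 * (imF pZe (P.xiS y) (fderiv ℝ P.xiS y v)
          + imF pZ (P.xiS y) (fderiv ℝ P.xiS y v))
          + -P.eps * ((qsq (fZe y) (fZ y))⁻¹ * (imF pZe y v + imF pZ y v))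
      rw [e1, e2, e3, P.MX1_xiS_qsq, hF0]
      field_simp
      ring) ha hb
  unfold omOS0 omOSm
  rw [key]
  exact MX1_neg2 _ _ _ _ _

theorem agree_OS_p (P : FPar) (h : P.Ok2) {p a b : FP} (hp : p ∈ FPS P.La)
    (hq : fZe p ≠ 0 ∨ fZ p ≠ 0) (hs : 0 < fS p) (hr : qsq (fZe p) (fZ p) < 1)
    (ha : IsTangent (FPS P.La) p a) (hb : IsTangent (FPS P.La) p b) :
    P.omOS0 p a b = P.omSp p a b := by
  rw [← P.agree_Sp h.toOk0 hp hq hs hr ha hb]
  unfold omOS0 omS0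
  have h1 : pb1 P.xiS P.lS0 =ᶠ[𝓝 p] P.lS0 := by
    filter_upwards [MX1_ev hs] with y hy
    have h2 : P.xiS =ᶠ[𝓝 y] fun z => z := by
      filter_upwards [MX1_ev hy] with z hz
      exact P.MX1_xiS_pos hz.le
    exact MX1_id h2
  rw [dd_congr h1]

end FPar

end Pool.Agent.H34.SY
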