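import Pool.Agent.H34.SY.MA
import Pool.Agent.H34.SY.MB
import Pool.Agent.H34.SY.MC
import Pool.Agent.H34.SY.MH1
import Pool.Agent.H34.SY.MH3
import Pool.Agent.H34.SY.SD2
import Pool.Agent.H34.SY.SX

open Set Topology
open scoped ContDiff ComplexConjugate

/-!
# Row MX2: agreement of the inner and the outer forms on `M'`

`z ∈ M'`, side `N`, `p = rhoN z`, in the overlap: (a) `s1 - 2 < |u|² < s1 - 1`, `s < -La/2`, or (b) `|u|² < s1 - 1`,
`-3La/4 < s < -La/2`.  Both conditions are open; on `M'` near `z`: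
* `ka(|u|²) = 0` near (`|u|² < s1`), `kr = 1`; so `aN = 0`, `bN = ½ Im(ū du)`, `etaN = Im (ū du)/|u|² = dθ` (off `u = 0`).
* `l6 = lX` near `PiN p` (`l6_far`): in case (a) `|u|² > s1 - 2 > B² + Ta`; in case (b) `|q|² = La² - s² ≥ 7La²/16 ≥ 7(Q²+..)/4`, `M'` is `t = Re ζ`,
  `yy = (Re ζ, Im ζ, Re z, -Im z)`, and `t² + |y|² = |q|² > B² + T2 + 2` (at the point, and it is an open condition in `PiN p`).
* on `M'` near `z`: `t = y₀` (case (a): `graph_N`/`FNm_far`; case (b): `graph_mid`), so `dt = dy₀` on tangent vectors, and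
  `pb1 PiN lX = ½ Im(ū du) + ½ (t dy₁ - y₁ dt - y₂ dy₃ + y₃ dy₂) = bN + pb1 xiN q2N` on tangent vectors of `M'`
  (`ζ_X = y₀ + i y₁`, `z_X = y₂ - i y₃`, `Im (ζ̄_X dζ_X) = y₀ dy₁ - y₁ dy₀`, `Im (z̄_X dz_X) = -y₂ dy₃ + y₃ dy₂`).
* `f0 = (La² - s²)/2 = |q|²/2` on `FPS` for `s < -La/2`.  `pb1 xiN lN0 + eps chip etaN = (|q|²/2 + eps chip) alq(xi) + bN + eps chip dθ`, and where
  `chip ≠ 0` (so `|q|² < r0² ≤ rb²/4`, `l = 1`, case (a)): `alq(xi) = -alq - dθ`.  So it equals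
  `pb1 xiN q2N + bN - eps chip alq = pb1 PiN l6 - eps chip alq` on tangent vectors of `M'` at all points of `M'` near `z`.
`dd_congr_tangent` for `X = M'` (pull everything back to the ambient space: `pb1 rhoN`; `dd_pb1`), with the chart given by `hm`.
* `agree_IOm` (`q = 0`): the primitives `pb1 PiN l6` and `bN + pb1 xiN q2N - eps((1-h0)/2) aN` agree on tangent vectors of `M'` near `z`, and
  both forms have the same term `-eps areaF`.
-/

namespace Pool.Agent.H34.SY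

theorem MX2_openN : IsOpen {z : EA | -1 < eW1 z} := isOpen_lt continuous_const WB_cont_W1

/-- Agreement of pulled back exterior derivatives. -/
theorem MX2_core {La : ℝ} {X : Set EA} (hX : X ⊆ WS La) (hm : IsMfd R6 X) {z a b : EA}
    (hz : z ∈ X) (h1 : -1 < eW1 z) (W : Set FP) (hW : IsOpen W) (hzW : rhoN z ∈ W)
    (l m : Form1 FP) (hl : ContDiffOn ℝ ∞ l W) (hmm : ContDiffOn ℝ ∞ m W)
    (h : ∀ y ∈ X, -1 < eW1 y → rhoN y ∈ W → ∀ v : EA, IsTangent X y v →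
      l (rhoN y) (fderiv ℝ rhoN y v) = m (rhoN y) (fderiv ℝ rhoN y v))
    (ha : IsTangent X z a) (hb : IsTangent X z b) :
    pb2 rhoN (dd l) z a b = pb2 rhoN (dd m) z a b := by
  have _ := hX
  obtain ⟨U, V, ρ, ψ, hzU, hc⟩ := hm z hz
  have hrho := contDiffOn_rhoN
  have hW0 : IsOpen ({z : EA | -1 < eW1 z} ∩ rhoN ⁻¹' W) :=
    hrho.continuousOn.isOpen_inter_preimage MX2_openN hW
  have hr0 : ContDiffOn ℝ ∞ rhoN ({z : EA | -1 < eW1 z} ∩ rhoN ⁻¹' W) := hrho.mono inter_subset_left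
  have c1 := contDiffOn_pb1 hW0 hr0 hl (fun y hy => hy.2)
  have c2 := contDiffOn_pb1 hW0 hr0 hmm (fun y hy => hy.2)
  have h2 := dd_congr_tangent hc (z := z) ⟨hz, hzU⟩ hW0 ⟨h1, hzW⟩ c1 c2
    (fun y hy v hv => h y hy.1 hy.2.1 hy.2.2 v hv) ha hb
  have hf : ContDiffAt ℝ 2 rhoN z := CC_at MX2_openN hrho h1
  have e1 := dd_pb1 hf (CC_diff hW hl hzW)
  have e2 := dd_pb1 hf (CC_diff hW hmm hzW)
  rw [e1, e2] at h2
  exact h2

/-- A function vanishing on `X` near `y` has vanishing derivative on the tangent vectors. -/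
theorem MX2_tan {X : Set EA} {W : Set FP} (hW : IsOpen W) {G : FP → ℝ} (hG : ContDiffOn ℝ ∞ G W)
    (h : ∀ y ∈ X, -1 < eW1 y → rhoN y ∈ W → G (rhoN y) = 0) {y v : EA}
    (h1 : -1 < eW1 y) (hyW : rhoN y ∈ W) (hv : IsTangent X y v) :
    fderiv ℝ G (rhoN y) (fderiv ℝ rhoN y v) = 0 := by
  obtain ⟨γ, h0, hXe, hs, hd⟩ := hv
  have hrho := contDiffOn_rhoN
  have hW0 : IsOpen ({z : EA | -1 < eW1 z} ∩ rhoN ⁻¹' W) :=
    hrho.continuousOn.isOpen_inter_preimage MX2_openN hW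
  have hN : ContDiffAt ℝ ∞ rhoN y := hrho.contDiffAt (MX2_openN.mem_nhds h1)
  have hGy : ContDiffAt ℝ ∞ G (rhoN y) := hG.contDiffAt (hW.mem_nhds hyW)
  have d1 := CA_comp h0 (CA_fd hN) hd
  have d2 := CA_comp (F := G) (γ := fun t => rhoN (γ t)) (z := rhoN y) (by simp only [h0])
    (CA_fd hGy) d1
  have hev : (fun _ : ℝ => (0 : ℝ)) =ᶠ[𝓝 0] fun t => G (rhoN (γ t)) := by
    filter_upwards [hXe, CA_ev h0 hW0 ⟨h1, hyW⟩ hs.continuousAt] with t ht1 ht2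
    exact (h _ ht1 ht2.1 ht2.2).symm
  exact (d2.congr_of_eventuallyEq hev).unique (hasDerivAt_const 0 (0 : ℝ))

namespace FPar

/-- The four components of `q ḡ`. -/
noncomputable def Yv (P : FPar) (p : FP) : V4 := P.toPar.yy 1 (fT p) (fU p) (fZe p) (fZ p)

theorem MX2_Y (P : FPar) : ContDiff ℝ ∞ P.Yv := by
  rw [← contDiffOn_univ]
  have cT : ContDiffOn ℝ ∞ (fun p : FP => fT p) univ := pT.contDiff.contDiffOn
  have cU : ContDiffOn ℝ ∞ (fun p : FP => fU p) univ := pU.contDiff.contDiffOn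
  have cZe : ContDiffOn ℝ ∞ (fun p : FP => fZe p) univ := pZe.contDiff.contDiffOn
  have cZ : ContDiffOn ℝ ∞ (fun p : FP => fZ p) univ := pZ.contDiff.contDiffOn
  have cx : ContDiffOn ℝ ∞ (fun p : FP => xpt (fT p) (fU p)) univ :=
    cT.prodMk ((MB_re cU).prodMk (MB_im cU))
  have cq : ContDiffOn ℝ ∞ (fun p : FP => qsq (fZe p) (fZ p)) univ := by
    unfold qsq
    exact (MB_normSq cZe).add (MB_normSq cZ)
  have cg : ContDiffOn ℝ ∞ (fun p : FP => mixq (1 * P.toPar.lamb (qsq (fZe p) (fZ p)))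
      (P.hd.g (xpt (fT p) (fU p)))) univ :=
    MB_mixq (contDiffOn_const.mul (P.MB_cuts.2.comp_contDiffOn cq))
      (P.hd.g_smooth.comp_contDiffOn cx)
  exact MB_qgbar cZe cZ cg (fun p _ => by rw [one_mul]; exact P.MB_npos _ _)

/-- The derivative of `Y`. -/
noncomputable def DY (P : FPar) (p : FP) : FP →L[ℝ] V4 := fderiv ℝ P.Yv p

theorem MX2_dY (P : FPar) (p : FP) : HasFDerivAt P.Yv (P.DY p) p :=
  CA_fd P.MX2_Y.contDiffAt

theorem MX2_Ynorm (P : FPar) (p : FP) : nsq4 (P.Yv p) = qsq (fZe p) (fZ p) :=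
  P.yy_norm 1 _ _ _ _ (P.mixq_ne zero_le_one le_rfl _ _)

/-- The formula of `xiN` for `s < 0`. -/
noncomputable def MX2_xi (P : FPar) (p : FP) : FP :=
  (fT p, fU p, fH0 p, fH p,
    ((P.Yv p).1 : ℂ) + ((P.Yv p).2.1 : ℂ) * Complex.I,
    ((P.Yv p).2.2.1 : ℂ) + ((-(P.Yv p).2.2.2 : ℝ) : ℂ) * Complex.I, fS p)

theorem MX2_xi_eq (P : FPar) {p : FP} (hs : fS p < 0) : P.xiN p = P.MX2_xi p := by
  unfold xiN MX2_xi
  simp only [if_pos hs]
  have e : ∀ a b : ℝ, (⟨a, b⟩ : ℂ) = (a : ℂ) + (b : ℂ) * Complex.I := fun a b => Complex.mk_eq_add_mul_I a b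
  rw [e, e]
  rfl

/-- The derivative of `MX2_xi`. -/
noncomputable def MX2_Dxi (P : FPar) (p : FP) : FP →L[ℝ] FP :=
  pT.prod (pU.prod (pH0.prod (pH.prod
    ((Complex.ofRealCLM.comp ((ContinuousLinearMap.fst ℝ ℝ (ℝ × ℝ × ℝ)).comp (P.DY p))
      + (ContinuousLinearMap.mul ℝ ℂ).flip Complex.I ∘L Complex.ofRealCLM.comp
        (((ContinuousLinearMap.fst ℝ ℝ (ℝ × ℝ)).comp
          (ContinuousLinearMap.snd ℝ ℝ (ℝ × ℝ × ℝ))).comp (P.DY p))).prod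
      ((Complex.ofRealCLM.comp ((((ContinuousLinearMap.fst ℝ ℝ ℝ).comp
          (ContinuousLinearMap.snd ℝ ℝ (ℝ × ℝ))).comp
            (ContinuousLinearMap.snd ℝ ℝ (ℝ × ℝ × ℝ))).comp (P.DY p))
      + (ContinuousLinearMap.mul ℝ ℂ).flip Complex.I ∘L Complex.ofRealCLM.comp
        (-((((ContinuousLinearMap.snd ℝ ℝ ℝ).comp
          (ContinuousLinearMap.snd ℝ ℝ (ℝ × ℝ))).comp
            (ContinuousLinearMap.snd ℝ ℝ (ℝ × ℝ × ℝ))).comp (P.DY p)))).prod pS)))))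

theorem MX2_dxi (P : FPar) (p : FP) : HasFDerivAt P.MX2_xi (P.MX2_Dxi p) p := by
  have hY := P.MX2_dY p
  have h0 : HasFDerivAt (fun p => (P.Yv p).1) ((ContinuousLinearMap.fst ℝ ℝ (ℝ × ℝ × ℝ)).comp (P.DY p)) p :=
    (ContinuousLinearMap.fst ℝ ℝ (ℝ × ℝ × ℝ)).hasFDerivAt.comp p hY
  have h1 : HasFDerivAt (fun p => (P.Yv p).2.1) (((ContinuousLinearMap.fst ℝ ℝ (ℝ × ℝ)).comp
          (ContinuousLinearMap.snd ℝ ℝ (ℝ × ℝ × ℝ))).comp (P.DY p)) p :=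
    ((ContinuousLinearMap.fst ℝ ℝ (ℝ × ℝ)).comp
          (ContinuousLinearMap.snd ℝ ℝ (ℝ × ℝ × ℝ))).hasFDerivAt.comp p hY
  have h2 : HasFDerivAt (fun p => (P.Yv p).2.2.1) ((((ContinuousLinearMap.fst ℝ ℝ ℝ).comp
          (ContinuousLinearMap.snd ℝ ℝ (ℝ × ℝ))).comp
            (ContinuousLinearMap.snd ℝ ℝ (ℝ × ℝ × ℝ))).comp (P.DY p)) p :=
    (((ContinuousLinearMap.fst ℝ ℝ ℝ).comp
          (ContinuousLinearMap.snd ℝ ℝ (ℝ × ℝ))).comp
            (ContinuousLinearMap.snd ℝ ℝ (ℝ × ℝ × ℝ))).hasFDerivAt.comp p hY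
  have h3 : HasFDerivAt (fun p => (P.Yv p).2.2.2) ((((ContinuousLinearMap.snd ℝ ℝ ℝ).comp
          (ContinuousLinearMap.snd ℝ ℝ (ℝ × ℝ))).comp
            (ContinuousLinearMap.snd ℝ ℝ (ℝ × ℝ × ℝ))).comp (P.DY p)) p :=
    (((ContinuousLinearMap.snd ℝ ℝ ℝ).comp
          (ContinuousLinearMap.snd ℝ ℝ (ℝ × ℝ))).comp
            (ContinuousLinearMap.snd ℝ ℝ (ℝ × ℝ × ℝ))).hasFDerivAt.comp p hY
  have cI := ((ContinuousLinearMap.mul ℝ ℂ).flip Complex.I).hasFDerivAt (x := Complex.ofRealCLM ((P.Yv p).2.1))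
  have cI' := ((ContinuousLinearMap.mul ℝ ℂ).flip Complex.I).hasFDerivAt (x := Complex.ofRealCLM (-(P.Yv p).2.2.2))
  have k0 := Complex.ofRealCLM.hasFDerivAt.comp p h0
  have k1 := Complex.ofRealCLM.hasFDerivAt.comp p h1
  have k2 := Complex.ofRealCLM.hasFDerivAt.comp p h2
  have k3 := Complex.ofRealCLM.hasFDerivAt.comp p h3.neg
  have j1 := cI.comp p k1
  have j3 := cI'.comp p k3
  exact pT.hasFDerivAt.prodMk (pU.hasFDerivAt.prodMk (pH0.hasFDerivAt.prodMk (pH.hasFDerivAt.prodMk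
    ((k0.add j1).prodMk ((k2.add j3).prodMk pS.hasFDerivAt)))))

theorem MX2_dxiN (P : FPar) {p : FP} (hs : fS p < 0) : HasFDerivAt P.xiN (P.MX2_Dxi p) p := by
  refine (P.MX2_dxi p).congr_of_eventuallyEq ?_
  have ho : IsOpen {p : FP | fS p < 0} := isOpen_lt pS.continuous continuous_const
  filter_upwards [ho.mem_nhds hs] with y hy
  exact P.MX2_xi_eq hy

theorem MX2_cdxi (P : FPar) : ContDiffOn ℝ ∞ P.xiN {p | fS p < 0} := by
  have hY := P.MX2_Y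
  have y0 : ContDiff ℝ ∞ (fun p => (P.Yv p).1) := hY.fst
  have y1 : ContDiff ℝ ∞ (fun p => (P.Yv p).2.1) := hY.snd.fst
  have y2 : ContDiff ℝ ∞ (fun p => (P.Yv p).2.2.1) := hY.snd.snd.fst
  have y3 : ContDiff ℝ ∞ (fun p => -(P.Yv p).2.2.2) := hY.snd.snd.snd.neg
  have o : ∀ {f : FP → ℝ}, ContDiff ℝ ∞ f → ContDiff ℝ ∞ (fun p => ((f p : ℝ) : ℂ)) :=
    fun hf => Complex.ofRealCLM.contDiff.comp hf
  have key : ContDiff ℝ ∞ P.MX2_xi :=
    pT.contDiff.prodMk (pU.contDiff.prodMk (pH0.contDiff.prodMk (pH.contDiff.prodMk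
      (((o y0).add ((o y1).mul contDiff_const)).prodMk
        (((o y2).add ((o y3).mul contDiff_const)).prodMk pS.contDiff)))))
  exact key.contDiffOn.congr (fun p hp => P.MX2_xi_eq hp)

/-- `y₀ dy₁ - y₁ dy₀ - y₂ dy₃ + y₃ dy₂` on the vector `v`. -/
noncomputable def MX2_S (P : FPar) (p v : FP) : ℝ :=
  (P.Yv p).1 * (P.DY p v).2.1 - (P.Yv p).2.1 * (P.DY p v).1
    - (P.Yv p).2.2.1 * (P.DY p v).2.2.2 + (P.Yv p).2.2.2 * (P.DY p v).2.2.1

theorem MX2_im (P : FPar) {p : FP} (hs : fS p < 0) (v : FP) :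
    imF pZe (P.xiN p) (fderiv ℝ P.xiN p v) + imF pZ (P.xiN p) (fderiv ℝ P.xiN p v)
      = P.MX2_S p v := by
  rw [(P.MX2_dxiN hs).fderiv, imF_apply, imF_apply, P.MX2_xi_eq hs]
  have e1 : pZe (P.MX2_xi p) = ((P.Yv p).1 : ℂ) + ((P.Yv p).2.1 : ℂ) * Complex.I := rfl
  have e2 : pZ (P.MX2_xi p) = ((P.Yv p).2.2.1 : ℂ) + ((-(P.Yv p).2.2.2 : ℝ) : ℂ) * Complex.I := rfl
  have e3 : pZe (P.MX2_Dxi p v) = ((P.DY p v).1 : ℂ) + ((P.DY p v).2.1 : ℂ) * Complex.I := rfl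
  have e4 : pZ (P.MX2_Dxi p v) = ((P.DY p v).2.2.1 : ℂ) + ((-(P.DY p v).2.2.2 : ℝ) : ℂ) * Complex.I := rfl
  rw [e1, e2, e3, e4]
  unfold MX2_S
  simp only [Complex.mul_im, Complex.add_re, Complex.add_im, Complex.conj_re, Complex.conj_im,
    Complex.ofReal_re, Complex.ofReal_im, Complex.mul_re, Complex.I_re, Complex.I_im]
  ring

theorem MX2_xiU (P : FPar) {p : FP} (hs : fS p < 0) (v : FP) :
    imF pU (P.xiN p) (fderiv ℝ P.xiN p v) = imF pU p v := by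
  rw [(P.MX2_dxiN hs).fderiv, imF_apply, imF_apply, P.MX2_xi_eq hs]
  rfl

theorem MX2_xi_U (P : FPar) (p : FP) : fU (P.xiN p) = fU p := rfl

theorem MX2_xi_S (P : FPar) (p : FP) : fS (P.xiN p) = fS p := rfl

theorem MX2_xi_q (P : FPar) {p : FP} (hs : fS p < 0) :
    qsq (fZe (P.xiN p)) (fZ (P.xiN p)) = qsq (fZe p) (fZ p) := by
  rw [← P.MX2_Ynorm p, P.MX2_xi_eq hs]
  show Complex.normSq (((P.Yv p).1 : ℂ) + ((P.Yv p).2.1 : ℂ) * Complex.I)
    + Complex.normSq (((P.Yv p).2.2.1 : ℂ) + ((-(P.Yv p).2.2.2 : ℝ) : ℂ) * Complex.I) = _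
  rw [Complex.normSq_add_mul_I, Complex.normSq_add_mul_I]
  unfold nsq4
  ring

/-- The derivative of `PiN`. -/
theorem MX2_dPi (P : FPar) (p : FP) : HasFDerivAt P.PiN
    ((pT.prod ((Complex.reCLM.comp pU).prod (Complex.imCLM.comp pU))).prod
      ((ContinuousLinearMap.snd ℝ ℝ (ℝ × ℝ × ℝ)).comp (P.DY p))) p := by
  have hY := P.MX2_dY p
  have h1 : HasFDerivAt (fun p => (P.Yv p).2) ((ContinuousLinearMap.snd ℝ ℝ (ℝ × ℝ × ℝ)).comp (P.DY p)) p :=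
    (ContinuousLinearMap.snd ℝ ℝ (ℝ × ℝ × ℝ)).hasFDerivAt.comp p hY
  exact (pT.hasFDerivAt.prodMk ((Complex.reCLM.comp pU).hasFDerivAt.prodMk
    (Complex.imCLM.comp pU).hasFDerivAt)).prodMk h1

/-- The inner primitive. -/
theorem MX2_inner (P : FPar) {p : FP} (v : FP) (hl : P.l6 (P.PiN p) = lX (P.PiN p))
    (ht : fT p = (P.Yv p).1) (hdt : pT v = (P.DY p v).1) :
    pb1 P.PiN P.l6 p v = (1 / 2) * imF pU p v + (1 / 2) * P.MX2_S p v := by
  unfold pb1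
  rw [hl, (P.MX2_dPi p).fderiv, imF_apply]
  show lX (xpt (fT p) (fU p), (P.Yv p).2)
    ((pT v, (pU v).re, (pU v).im), (P.DY p v).2) = _
  show (1 / 2 : ℝ) * ((fU p).re * (pU v).im - (fU p).im * (pU v).re
    + fT p * (P.DY p v).2.1 - (P.Yv p).2.1 * pT v - (P.Yv p).2.2.1 * (P.DY p v).2.2.2
      + (P.Yv p).2.2.2 * (P.DY p v).2.2.1) = _
  rw [ht, hdt]
  unfold MX2_S
  simp only [Complex.mul_im, Complex.conj_re, Complex.conj_im]
  have e : pU p = fU p := rfl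
  rw [e]
  ring

theorem MX2_ka (P : FPar) (h : P.Ok2) {p : FP} (hu : Complex.normSq (fU p) < P.s1 - 1) :
    P.ka (Complex.normSq (fU p)) = 0 := (P.ka_props h.Ta).2.1 _ (by linarith)

theorem MX2_kr (P : FPar) (h : P.Ok2) {p : FP} (hu : Complex.normSq (fU p) < P.s1 - 1) :
    P.kr (Complex.normSq (fU p)) = 1 :=
  (P.kr_props h.Ta).2.1 _ (by unfold s2; linarith)

theorem MX2_aN (P : FPar) (h : P.Ok2) {p : FP} (hu : Complex.normSq (fU p) < P.s1 - 1) :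
    P.aN p = 0 := by
  unfold aN
  rw [P.MX2_ka h hu, zero_smul]

theorem MX2_bN (P : FPar) (h : P.Ok2) {p : FP} (hu : Complex.normSq (fU p) < P.s1 - 1) (v : FP) :
    P.bN p v = (1 / 2) * imF pU p v := by
  show (P.kr (Complex.normSq (fU p)) / 2) * imF pU p v = _
  rw [P.MX2_kr h hu]

theorem MX2_chip (P : FPar) {p : FP} (hs : fS p < 0) : P.chip (P.xiN p) = P.chip p := by
  unfold chip
  rw [P.MX2_xi_S, P.MX2_xi_q hs]

/-- The outer primitive. -/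
theorem MX2_outer (P : FPar) (h : P.Ok2) {p : FP} (hs : fS p < 0)
    (hu : Complex.normSq (fU p) < P.s1 - 1) (v : FP) :
    pb1 P.xiN P.lN0 p v = (P.f0 (fS p) + P.eps * P.chip p) *
      ((qsq (fZe p) (fZ p))⁻¹ * P.MX2_S p v) + (1 / 2) * imF pU p v := by
  have hu' : Complex.normSq (fU (P.xiN p)) < P.s1 - 1 := hu
  show P.F0 (P.xiN p) * ((qsq (fZe (P.xiN p)) (fZ (P.xiN p)))⁻¹ *
      (imF pZe (P.xiN p) (fderiv ℝ P.xiN p v) + imF pZ (P.xiN p) (fderiv ℝ P.xiN p v))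
      + (Complex.normSq (fZ (P.xiN p)) / qsq (fZe (P.xiN p)) (fZ (P.xiN p))) *
        P.aN (P.xiN p) (fderiv ℝ P.xiN p v)) + P.bN (P.xiN p) (fderiv ℝ P.xiN p v) = _
  rw [P.MX2_im hs, P.MX2_xi_q hs, P.MX2_aN h hu', P.MX2_bN h hu', P.MX2_xiU hs]
  unfold F0
  rw [P.MX2_chip hs, P.MX2_xi_S]
  show _ * (_ + _ * (0 : ℝ)) + _ = _
  ring

theorem MX2_outq (P : FPar) (h : P.Ok2) {p : FP} (hs : fS p < 0)
    (hu : Complex.normSq (fU p) < P.s1 - 1) (v : FP) :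
    pb1 P.xiN P.q2N p v = (1 / 2) * P.MX2_S p v := by
  have hu' : Complex.normSq (fU (P.xiN p)) < P.s1 - 1 := hu
  show (1 / 2 : ℝ) * (imF pZe (P.xiN p) (fderiv ℝ P.xiN p v)
    + imF pZ (P.xiN p) (fderiv ℝ P.xiN p v)
    + Complex.normSq (fZ (P.xiN p)) * P.aN (P.xiN p) (fderiv ℝ P.xiN p v)) = _
  rw [P.MX2_im hs, P.MX2_aN h hu']
  show (1 / 2 : ℝ) * (_ + _ * (0 : ℝ)) = _
  ring

/-- Open set of the overlap. -/
def MX2_W (P : FPar) : Set FP :=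
  {p | (fZe p ≠ 0 ∨ fZ p ≠ 0) ∧ fS p < -(P.La / 2) ∧ Complex.normSq (fU p) < P.s1 - 1 ∧
    (P.s1 - 2 < Complex.normSq (fU p) ∨
      (-(3 / 4) * P.La < fS p ∧ P.r0 ^ 2 < qsq (fZe p) (fZ p)))}

theorem MX2_openW (P : FPar) : IsOpen P.MX2_W := by
  refine sd2_openq.inter ((isOpen_lt pS.continuous continuous_const).inter
    ((isOpen_lt SD1_nU.continuous continuous_const).inter
      ((isOpen_lt continuous_const SD1_nU.continuous).union
        ((isOpen_lt continuous_const pS.continuous).inter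
          (isOpen_lt continuous_const SD1_qsq.continuous)))))

theorem MX2_B (P : FPar) (h : P.Ok2) : P.hd.B ^ 2 < P.s1 - 2 := by
  have := h.Ta
  unfold s1
  linarith

theorem MX2_big (P : FPar) (h : P.Ok2) {p : FP} (hp : p ∈ FPS P.La) (hs : fS p < 0)
    (hs' : -(3 / 4) * P.La < fS p) :
    P.Q ^ 2 + 1 ≤ qsq (fZe p) (fZ p) ∧ P.hd.B ^ 2 + P.T2 + 2 < qsq (fZe p) (fZ p) := by
  have h5 := sd2_sq hp
  have hLa := h.La2
  have hT2 := h.T2
  have h0 := h.La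
  have h6 : fS p ^ 2 ≤ 9 / 16 * P.La ^ 2 := by nlinarith
  have h7 := sq_nonneg P.Q
  have h8 := sq_nonneg P.hd.B
  constructor
  · rw [← h5]; linarith
  · rw [← h5]; linarith

theorem MX2_graph (P : FPar) (h : P.Ok2) {y : EA} (hy : y ∈ P.toPar.M') (h1 : -1 < eW1 y)
    (hs : fS (rhoN y) < 0)
    (hor : P.s1 - 2 < Complex.normSq (fU (rhoN y)) ∨ -(3 / 4) * P.La < fS (rhoN y)) :
    fT (rhoN y) = (P.Yv (rhoN y)).1 := by
  have hM : y ∈ WS P.La := hy.1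
  have hF := ((P.mem_N hM h1).1 hs).1 hy
  rcases hor with hu | hu
  · have hB := P.MX2_B h
    obtain ⟨-, f2⟩ := P.FNm_far (fT (rhoN y)) (fU (rhoN y)) (fZe (rhoN y)) (fZ (rhoN y))
      (by linarith)
    rw [f2] at hF
    exact sub_eq_zero.1 hF
  · obtain ⟨b1, b2⟩ := P.MX2_big h (rhoN_mem hM h1).1 hs hu
    rw [P.FNm_big h _ _ _ _ b1] at hF
    have hrb := h.rb0
    have hrb1 := h.rb1
    have hyb := P.yy_big hrb 1 (fT (rhoN y)) (fU (rhoN y)) (fZe (rhoN y)) (fZ (rhoN y))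
      (by nlinarith [sq_nonneg P.Q])
    unfold Yv
    rw [hyb]
    exact sub_eq_zero.1 hF

theorem MX2_l6 (P : FPar) (h : P.Ok2) {p : FP} (hp : p ∈ FPS P.La) (hs : fS p < 0)
    (ht : fT p = (P.Yv p).1)
    (hor : P.s1 - 2 < Complex.normSq (fU p) ∨ -(3 / 4) * P.La < fS p) :
    P.l6 (P.PiN p) = lX (P.PiN p) := by
  refine (P.l6_far h.T2 h.Ta (P.PiN p) ?_).self_of_nhds
  rcases hor with hu | hu
  · left
    show P.hd.B ^ 2 + P.Ta < (fU p).re ^ 2 + (fU p).im ^ 2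
    rw [Complex.normSq_apply] at hu
    unfold s1 at hu
    nlinarith
  · right
    obtain ⟨-, b2⟩ := P.MX2_big h hp hs hu
    show P.hd.B ^ 2 + P.T2 + 2 < fT p ^ 2 + nsq3 (P.Yv p).2
    have e : fT p ^ 2 + nsq3 (P.Yv p).2 = qsq (fZe p) (fZ p) := by
      rw [← P.MX2_Ynorm p, ht]
      unfold nsq3 nsq4
      ring
    rw [e]
    exact b2

theorem MX2_dt (P : FPar) {W : Set FP} (hW : IsOpen W)
    (hg : ∀ y ∈ P.toPar.M', -1 < eW1 y → rhoN y ∈ W → fT (rhoN y) = (P.Yv (rhoN y)).1)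
    {y v : EA} (h1 : -1 < eW1 y) (hyW : rhoN y ∈ W) (hv : IsTangent P.toPar.M' y v) :
    pT (fderiv ℝ rhoN y v) = (P.DY (rhoN y) (fderiv ℝ rhoN y v)).1 := by
  have hG : ContDiff ℝ ∞ (fun p : FP => pT p - (P.Yv p).1) := pT.contDiff.sub P.MX2_Y.fst
  have h2 := MX2_tan hW hG.contDiffOn
    (fun y hy h1 hyW => sub_eq_zero.2 (hg y hy h1 hyW)) h1 hyW hv
  have h0 : HasFDerivAt (fun p => (P.Yv p).1)
      ((ContinuousLinearMap.fst ℝ ℝ (ℝ × ℝ × ℝ)).comp (P.DY (rhoN y))) (rhoN y) :=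
    (ContinuousLinearMap.fst ℝ ℝ (ℝ × ℝ × ℝ)).hasFDerivAt.comp (rhoN y) (P.MX2_dY (rhoN y))
  have h3 : HasFDerivAt (fun p : FP => pT p - (P.Yv p).1)
      (pT - (ContinuousLinearMap.fst ℝ ℝ (ℝ × ℝ × ℝ)).comp (P.DY (rhoN y))) (rhoN y) :=
    (pT.hasFDerivAt (x := rhoN y)).sub h0
  rw [h3.fderiv] at h2
  exact sub_eq_zero.1 h2

theorem MX2_WD (P : FPar) (h : P.Ok2) {p : FP} (hp : p ∈ P.MX2_W) : fS p < 0 := by
  have h1 := h.La
  have h2 := hp.2.1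
  linarith

theorem MX2_smI (P : FPar) (h : P.Ok2) :
    ContDiffOn ℝ ∞ (fun p => pb1 P.PiN P.l6 p - (P.eps * P.chip p) • alq p) P.MX2_W := by
  have hDq : P.MX2_W ⊆ P.Dq := fun p hp => ⟨hp.1, Or.inl (ne_of_lt (P.MX2_WD h hp))⟩
  have h1 : ContDiffOn ℝ ∞ (pb1 P.PiN P.l6) P.MX2_W :=
    contDiffOn_pb1 P.MX2_openW (P.contDiff_PiN h).contDiffOn
      (P.contDiff_l6 h.T2 h.Ta).contDiffOn (mapsTo_univ _ _)
  have h2 : ContDiffOn ℝ ∞ (fun p => P.eps * P.chip p) P.MX2_W :=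
    contDiffOn_const.mul ((P.SD1_chip h.toOk0).mono hDq)
  exact h1.sub (h2.smul ((P.SD1_alq).mono hDq))

theorem MX2_smO (P : FPar) (h : P.Ok2) :
    ContDiffOn ℝ ∞ (fun p => pb1 P.xiN P.lN0 p + (P.eps * P.chip p) • P.etaN p) P.MX2_W := by
  have hDq : P.MX2_W ⊆ P.Dq := fun p hp => ⟨hp.1, Or.inl (ne_of_lt (P.MX2_WD h hp))⟩
  have hmaps : MapsTo P.xiN P.MX2_W P.Dq := by
    intro p hp
    have hs := P.MX2_WD h hp
    refine ⟨?_, Or.inl (ne_of_lt hs)⟩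
    have e := P.MX2_xi_q hs
    have q0 := sd2_qpos hp.1
    by_contra hc
    push Not at hc
    rw [hc.1, hc.2] at e
    unfold qsq at e q0
    simp only [map_zero, add_zero] at e
    linarith
  have h1 : ContDiffOn ℝ ∞ (pb1 P.xiN P.lN0) P.MX2_W :=
    contDiffOn_pb1 P.MX2_openW (P.MX2_cdxi.mono (fun p hp => P.MX2_WD h hp))
      (P.smooth_lN0 h.toOk0) hmaps
  refine h1.add ?_
  intro p hp
  refine ContDiffAt.contDiffWithinAt ?_
  have hch : ContDiffAt ℝ ∞ (fun p => P.eps * P.chip p) p := by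
    have h2 : ContDiffOn ℝ ∞ (fun p => P.eps * P.chip p) P.MX2_W :=
      contDiffOn_const.mul ((P.SD1_chip h.toOk0).mono hDq)
    exact h2.contDiffAt (P.MX2_openW.mem_nhds hp)
  rcases hp.2.2.2 with hu | hu
  · refine hch.smul ?_
    have hB := P.MX2_B h
    have hu0 : Complex.normSq (fU p) ≠ 0 := by
      have := sq_nonneg P.hd.B
      exact ne_of_gt (by linarith)
    have h3 : ContDiffAt ℝ ∞ (fun p : FP => 1 / Complex.normSq (fU p)
        - P.ka (Complex.normSq (fU p))) p := by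
      refine ContDiffAt.sub (contDiffAt_const.div SD1_nU.contDiffAt hu0) ?_
      exact ((P.ka_props h.Ta).1.comp SD1_nU).contDiffAt
    exact h3.smul (contDiff_imF pU).contDiffAt
  · have hz : (fun p => (P.eps * P.chip p) • P.etaN p) =ᶠ[𝓝 p] fun _ => (0 : FP →L[ℝ] ℝ) := by
      have ho : IsOpen {p : FP | P.r0 ^ 2 < qsq (fZe p) (fZ p)} :=
        isOpen_lt continuous_const SD1_qsq.continuous
      filter_upwards [ho.mem_nhds hu.2] with y hy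
      have hy' : P.r0 ^ 2 < qsq (fZe y) (fZ y) := hy
      have : P.chip y = 0 := by
        unfold chip
        split_ifs
        · exact (P.chi_props h.r0).2.2.1 _ hy'.le
        · rfl
      rw [this, mul_zero, zero_smul]
    exact contDiffAt_const.congr_of_eventuallyEq hz

theorem MX2_key (P : FPar) (h : P.Ok2) {p : FP} (hp : p ∈ FPS P.La) (hW : p ∈ P.MX2_W)
    (ht : fT p = (P.Yv p).1) (v : FP) (hdt : pT v = (P.DY p v).1) :
    (pb1 P.PiN P.l6 p - (P.eps * P.chip p) • alq p) v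
      = (pb1 P.xiN P.lN0 p + (P.eps * P.chip p) • P.etaN p) v := by
  have hs := P.MX2_WD h hW
  have hLa := h.La
  obtain ⟨hq, hs2, hu, hor⟩ := hW
  have hor' : P.s1 - 2 < Complex.normSq (fU p) ∨ -(3 / 4) * P.La < fS p :=
    hor.imp id (fun x => x.1)
  have r0 := sd2_qpos hq
  have hf0 : P.f0 (fS p) = qsq (fZe p) (fZ p) / 2 := by
    rw [(P.f0_props (by linarith)).2.1 _ (by linarith), sd2_sq hp]
  have e1 := P.MX2_inner v (P.MX2_l6 h hp hs ht hor') ht hdt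
  have e2 := P.MX2_outer h hs hu v
  show pb1 P.PiN P.l6 p v - (P.eps * P.chip p) * ((qsq (fZe p) (fZ p))⁻¹ *
      (imF pZe p v + imF pZ p v))
    = pb1 P.xiN P.lN0 p v + (P.eps * P.chip p) *
      ((1 / Complex.normSq (fU p) - P.ka (Complex.normSq (fU p))) * imF pU p v)
  rw [e1, e2, hf0, P.MX2_ka h hu]
  by_cases hc : P.chip p = 0
  · rw [hc]
    field_simp
    ring
  · have hqr : qsq (fZe p) (fZ p) < P.r0 ^ 2 := by
      by_contra hcon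
      push Not at hcon
      apply hc
      unfold chip
      rw [if_pos hs]
      exact (P.chi_props h.r0).2.2.1 _ hcon
    have hrb := h.rb0
    have hr0 := h.r0
    have hrr := h.r0rb
    have hqb : qsq (fZe p) (fZ p) < P.rb ^ 2 / 4 := by nlinarith
    have hua : P.s1 - 2 < Complex.normSq (fU p) := by
      rcases hor with hx | hx
      · exact hx
      · exact absurd hx.2 (not_lt.2 hqr.le)
    have hB := P.MX2_B h
    have hun : 0 < Complex.normSq (fU p) := by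
      have := sq_nonneg P.hd.B
      linarith
    have e3 := congrArg (fun L : FP →L[ℝ] ℝ => L v)
      (P.pb_xiN_q2N h (p := p) (by linarith) hs hqb)
    have e3' : pb1 P.xiN P.q2N p v = (1 / 2 : ℝ) * (-(imF pZe p v) - imF pZ p v
      - (qsq (fZe p) (fZ p) / Complex.normSq (fU p)) * imF pU p v
      + Complex.normSq (fZe p) * P.aN p v) := e3
    rw [P.MX2_outq h hs hu, P.MX2_aN h hu] at e3'
    have e4 : P.MX2_S p v = -(imF pZe p v) - imF pZ p v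
      - (qsq (fZe p) (fZ p) / Complex.normSq (fU p)) * imF pU p v := by
      have : Complex.normSq (fZe p) * (0 : FP →L[ℝ] ℝ) v = 0 := by
        show Complex.normSq (fZe p) * (0 : ℝ) = 0
        ring
      rw [this] at e3'
      linarith
    rw [e4]
    have hun' := hun.ne'
    have hr' := r0.ne'
    field_simp
    ring

theorem agree_IO (P : FPar) (h : P.Ok2) (hm : IsMfd R6 P.toPar.M') {z a b : EA}
    (hz : z ∈ P.toPar.M') (h1 : -1 < eW1 z) (hq : fZe (rhoN z) ≠ 0 ∨ fZ (rhoN z) ≠ 0)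
    (hs : fS (rhoN z) < -(P.La / 2)) (hu : Complex.normSq (fU (rhoN z)) < P.s1 - 1)
    (hor : P.s1 - 2 < Complex.normSq (fU (rhoN z)) ∨ -(3 / 4) * P.La < fS (rhoN z))
    (ha : IsTangent P.toPar.M' z a) (hb : IsTangent P.toPar.M' z b) :
    pb2 rhoN P.omI0 z a b = pb2 rhoN P.omO0 z a b := by
  have hX : P.toPar.M' ⊆ WS P.La := fun y hy => hy.1
  have hLa := h.La
  have hW : rhoN z ∈ P.MX2_W := by
    refine ⟨hq, hs, hu, hor.imp id (fun hx => ⟨hx, ?_⟩)⟩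
    have hb := (P.MX2_big h (rhoN_mem hz.1 h1).1 (by linarith) hx).1
    have h2 := h.r0rb
    have h3 := h.r0
    have h4 := h.rb1
    nlinarith [sq_nonneg P.Q]
  have hg : ∀ y ∈ P.toPar.M', -1 < eW1 y → rhoN y ∈ P.MX2_W →
      fT (rhoN y) = (P.Yv (rhoN y)).1 := fun y hy hy1 hyW =>
    P.MX2_graph h hy hy1 (P.MX2_WD h hyW) (hyW.2.2.2.imp id (fun x => x.1))
  exact MX2_core hX hm hz h1 P.MX2_W P.MX2_openW hW _ _ (P.MX2_smI h) (P.MX2_smO h)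
    (fun y hy hy1 hyW v hv => P.MX2_key h (rhoN_mem hy.1 hy1).1 hyW (hg y hy hy1 hyW) _
      (P.MX2_dt P.MX2_openW hg hy1 hyW hv)) ha hb

/-- Open set of the overlap, near `q = 0`. -/
def MX2_W0 (P : FPar) : Set FP :=
  {p | fS p < 0 ∧ Complex.normSq (fU p) < P.s1 - 1 ∧ P.s1 - 2 < Complex.normSq (fU p)}

theorem MX2_openW0 (P : FPar) : IsOpen P.MX2_W0 :=
  (isOpen_lt pS.continuous continuous_const).inter
    ((isOpen_lt SD1_nU.continuous continuous_const).inter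
      (isOpen_lt continuous_const SD1_nU.continuous))

theorem agree_IOm (P : FPar) (h : P.Ok2) (hm : IsMfd R6 P.toPar.M') {z a b : EA}
    (hz : z ∈ P.toPar.M') (h1 : -1 < eW1 z) (hq : fZe (rhoN z) = 0 ∧ fZ (rhoN z) = 0)
    (hs : fS (rhoN z) < 0) (hu : Complex.normSq (fU (rhoN z)) < P.s1 - 1)
    (hu' : P.s1 - 2 < Complex.normSq (fU (rhoN z)))
    (ha : IsTangent P.toPar.M' z a) (hb : IsTangent P.toPar.M' z b) :
    pb2 rhoN P.omIm z a b = pb2 rhoN P.omOm z a b := by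
  have _ := hq
  have hX : P.toPar.M' ⊆ WS P.La := fun y hy => hy.1
  have hW : rhoN z ∈ P.MX2_W0 := ⟨hs, hu, hu'⟩
  have hg : ∀ y ∈ P.toPar.M', -1 < eW1 y → rhoN y ∈ P.MX2_W0 →
      fT (rhoN y) = (P.Yv (rhoN y)).1 := fun y hy hy1 hyW =>
    P.MX2_graph h hy hy1 hyW.1 (Or.inl hyW.2.2)
  have c1 : ContDiffOn ℝ ∞ (pb1 P.PiN P.l6) P.MX2_W0 :=
    contDiffOn_pb1 P.MX2_openW0 (P.contDiff_PiN h).contDiffOn
      (P.contDiff_l6 h.T2 h.Ta).contDiffOn (mapsTo_univ _ _)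
  have c2 : ContDiffOn ℝ ∞ (fun p => P.bN p + pb1 P.xiN P.q2N p
      - (P.eps * ((1 - fH0 p) / 2)) • P.aN p) P.MX2_W0 := by
    have d1 : ContDiffOn ℝ ∞ (pb1 P.xiN P.q2N) P.MX2_W0 :=
      contDiffOn_pb1 P.MX2_openW0 (P.MX2_cdxi.mono (fun p hp => hp.1))
        (P.sd2_q2N h.toOk0).contDiffOn (mapsTo_univ _ _)
    exact (((P.sd2_bN h.toOk0).contDiffOn).add d1).sub (P.sd2_haN h.toOk0 P.eps).contDiffOn
  have key := MX2_core hX hm hz h1 P.MX2_W0 P.MX2_openW0 hW _ _ c1 c2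
    (fun y hy hy1 hyW v hv => by
      have e1 := P.MX2_inner (fderiv ℝ rhoN y v)
        (P.MX2_l6 h (rhoN_mem hy.1 hy1).1 hyW.1 (hg y hy hy1 hyW) (Or.inl hyW.2.2))
        (hg y hy hy1 hyW) (P.MX2_dt P.MX2_openW0 hg hy1 hyW hv)
      rw [e1]
      show _ = P.bN (rhoN y) (fderiv ℝ rhoN y v) + pb1 P.xiN P.q2N (rhoN y) (fderiv ℝ rhoN y v)
        - (P.eps * ((1 - fH0 (rhoN y)) / 2)) * P.aN (rhoN y) (fderiv ℝ rhoN y v)
      rw [P.MX2_bN h hyW.2.1, P.MX2_outq h hyW.1 hyW.2.1, P.MX2_aN h hyW.2.1]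
      show _ = _ + _ - _ * (0 : ℝ)
      ring) ha hb
  have q1 : P.omIm (rhoN z) = dd (pb1 P.PiN P.l6) (rhoN z) - P.eps • areaF (rhoN z) := rfl
  have q2 : P.omOm (rhoN z) = dd (fun p => P.bN p + pb1 P.xiN P.q2N p
      - (P.eps * ((1 - fH0 p) / 2)) • P.aN p) (rhoN z) - P.eps • areaF (rhoN z) := rfl
  rw [pb2_apply, pb2_apply] at key
  rw [pb2_apply, pb2_apply, q1, q2]
  have r1 : ∀ (A B : FP →L[ℝ] FP →L[ℝ] ℝ) (x y : FP), (A - B) x y = A x y - B x y :=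
    fun _ _ _ _ => rfl
  rw [r1, r1, key]

end FPar

end Pool.Agent.H34.SY
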