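import Pool.Agent.H34.SY.Forms
import Pool.Agent.H34.SY.WC
import Pool.Agent.H34.SY.CB
import Pool.Agent.H34.SY.SA1
import Pool.Agent.H34.SY.SB

/-!
# Row SC: the forms under the change of side

`trans : (t, u, h0, h, ζ, z, s) ↦ (t, u/|u|², h0, h u/|u|, ζ, z u/|u|, s)`.  All identities are between
1-forms at a point `p` with `u ≠ 0`, evaluated on a vector `a`.  Write `w = u/|u|` (unit complex number),
`dth p a = Im (conj u ua)/|u|²`; the derivative of `w` in direction `a` is `i w dth`; hence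
`Im (conj (z w) d(z w)) = Im (conj z dz) + |z|² dth`, the same for `h`; and
`Im (conj U dU) = |U|² dth = dth/|u|²` for `U = u/|u|²`.
`dth` is closed off `u = 0` (`dd` of `(1/|u|²) Im (conj u du)`).
* `trans_l0`: for `|u|² ≥ s2 + 1`: `ka = 1/|u|²`, `aN = dth`, `bN = ½ (s2+3-1/|u|²) dth`,
  `pb1 trans lS0 = F0 (alq + (|z|²/|q|²) dth) - ½ |u|⁻² dth = lN0 - ½ (s2+3) dth` near `p` (open condition: use
  `s2 + 1 < |u|²`); take `dd` (`dd_pb1`, `dd_congr`).
* `trans_m`: `pb1 trans (q2S + bS) = q2N + bN - ½ (s2+3) dth`; `pb2 trans areaF p a b` for tangent vectors of the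
  sphere: `areaF (trans p)(..) = ½ (h0 Im(conj ha' hb') - h0a Im (conj h' hb') + h0b Im (conj h' ha'))` with
  `h' = h w`, `ha' = w (ha + i h dth a)`: `Im (conj ha' hb') = Im(conj ha hb) + dth b Re (conj ha h) ... `;
  the result is `areaF p a b - ½ (h0a dth b - h0b dth a)` on vectors with `h0 h0a + Re (conj h ha) = 0`,
  `h0² + |h|² = 1`; and `dd (((1-h0)/2) dth) p a b = -½ (h0a dth b - h0b dth a)`.
-/

open Set Topology
open scoped ContDiff ComplexConjugate

namespace Pool.Agent.H34.SY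

/-- the unit complex number `u / |u|` -/
noncomputable def SC_w (p : FP) : ℂ := ((‖fU p‖)⁻¹ : ℝ) * fU p

/-- the form `dθ` -/
noncomputable def SC_th : Form1 FP := fun p => (Complex.normSq (fU p))⁻¹ • imF pU p

theorem SC_w_mul {p : FP} (hu : fU p ≠ 0) : conj (SC_w p) * SC_w p = 1 := by
  have h1 : ‖fU p‖ ≠ 0 := norm_ne_zero_iff.mpr hu
  have h2 : conj (fU p) * fU p = ((‖fU p‖ ^ 2 : ℝ) : ℂ) := by
    rw [← Complex.normSq_eq_conj_mul_self, Complex.normSq_eq_norm_sq]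
  unfold SC_w
  rw [map_mul, Complex.conj_ofReal]
  have h3 : (((‖fU p‖)⁻¹ : ℝ) : ℂ) * conj (fU p) * ((((‖fU p‖)⁻¹ : ℝ) : ℂ) * fU p) =
      (((‖fU p‖)⁻¹ : ℝ) : ℂ) * (((‖fU p‖)⁻¹ : ℝ) : ℂ) * (conj (fU p) * fU p) := by ring
  rw [h3, h2, ← Complex.ofReal_mul, ← Complex.ofReal_mul]
  have h4 : ‖fU p‖⁻¹ * ‖fU p‖⁻¹ * ‖fU p‖ ^ 2 = 1 := by field_simp
  rw [h4, Complex.ofReal_one]

theorem SC_cancel {p : FP} (hu : fU p ≠ 0) (x y : ℂ) :
    conj (SC_w p * x) * (SC_w p * y) = conj x * y := by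
  rw [map_mul]
  linear_combination (conj x * y) * SC_w_mul hu

theorem SC_normSq {p : FP} (hu : fU p ≠ 0) (x : ℂ) :
    Complex.normSq (SC_w p * x) = Complex.normSq x := by
  have h := SC_cancel hu x x
  rw [← Complex.normSq_eq_conj_mul_self, ← Complex.normSq_eq_conj_mul_self] at h
  exact_mod_cast h

theorem SC_th_apply (p a : FP) :
    SC_th p a = (Complex.normSq (fU p))⁻¹ * (conj (fU p) * fU a).im := by
  unfold SC_th
  change (Complex.normSq (fU p))⁻¹ * (imF pU p a) = _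
  rw [imF_apply]
  rfl

theorem SC_eq : trans = fun p : FP => (fT p, (Complex.normSq (fU p))⁻¹ • fU p, fH0 p,
    (‖fU p‖)⁻¹ • (fH p * fU p), fZe p, (‖fU p‖)⁻¹ • (fZ p * fU p), fS p) := by
  funext p
  simp only [trans, Complex.real_smul]

theorem SC_ns (c : FP →L[ℝ] ℂ) : ContDiff ℝ ∞ (fun p => Complex.normSq (c p)) := by
  have h : (fun p => Complex.normSq (c p)) =
      fun p => ((Complex.reCLM.comp c) p) ^ 2 + ((Complex.imCLM.comp c) p) ^ 2 := by
    funext p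
    simp [Complex.normSq_apply]
    ring
  rw [h]
  exact ((ContinuousLinearMap.contDiff _).pow 2).add ((ContinuousLinearMap.contDiff _).pow 2)

theorem SC_dns (c : FP →L[ℝ] ℂ) (p : FP) : HasFDerivAt (fun p => Complex.normSq (c p))
    ((2 * (c p).re) • (Complex.reCLM.comp c) + (2 * (c p).im) • (Complex.imCLM.comp c)) p := by
  have h : (fun p => Complex.normSq (c p)) =
      fun p => ((Complex.reCLM.comp c) p) * ((Complex.reCLM.comp c) p) +
        ((Complex.imCLM.comp c) p) * ((Complex.imCLM.comp c) p) := by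
    funext p
    simp [Complex.normSq_apply]
  rw [h]
  have h1 := (Complex.reCLM.comp c).hasFDerivAt (x := p)
  have h2 := (Complex.imCLM.comp c).hasFDerivAt (x := p)
  refine ((h1.fun_mul h1).fun_add (h2.fun_mul h2)).congr_fderiv ?_
  apply ContinuousLinearMap.ext
  intro a
  change (c p).re * (c a).re + (c p).re * (c a).re + ((c p).im * (c a).im + (c p).im * (c a).im) =
    2 * (c p).re * (c a).re + 2 * (c p).im * (c a).im
  ring

theorem SC_sm {p : FP} (hu : fU p ≠ 0) : ContDiffAt ℝ ∞ trans p := by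
  have hn : Complex.normSq (fU p) ≠ 0 := (Complex.normSq_pos.mpr hu).ne'
  have h1 : ContDiffAt ℝ ∞ (fun p : FP => (Complex.normSq (fU p))⁻¹) p :=
    (SC_ns pU).contDiffAt.inv hn
  have h2 : ContDiffAt ℝ ∞ (fun p : FP => (‖fU p‖)⁻¹) p := by
    have h3 : ContDiffAt ℝ ∞ (fun p : FP => ‖fU p‖) p :=
      (contDiffAt_norm ℝ hu).comp p pU.contDiff.contDiffAt
    exact h3.inv (norm_ne_zero_iff.mpr hu)
  have hT : ContDiffAt ℝ ∞ (fun p : FP => fT p) p := pT.contDiff.contDiffAt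
  have hU : ContDiffAt ℝ ∞ (fun p : FP => fU p) p := pU.contDiff.contDiffAt
  have hH0 : ContDiffAt ℝ ∞ (fun p : FP => fH0 p) p := pH0.contDiff.contDiffAt
  have hH : ContDiffAt ℝ ∞ (fun p : FP => fH p) p := pH.contDiff.contDiffAt
  have hZe : ContDiffAt ℝ ∞ (fun p : FP => fZe p) p := pZe.contDiff.contDiffAt
  have hZ : ContDiffAt ℝ ∞ (fun p : FP => fZ p) p := pZ.contDiff.contDiffAt
  have hS : ContDiffAt ℝ ∞ (fun p : FP => fS p) p := pS.contDiff.contDiffAt
  rw [SC_eq]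
  exact hT.prodMk ((h1.smul hU).prodMk (hH0.prodMk ((h2.smul (hH.mul hU)).prodMk
    (hZe.prodMk ((h2.smul (hZ.mul hU)).prodMk hS)))))

theorem SC_key (U a : ℂ) (hU : U ≠ 0) :
    a = (((Complex.normSq U)⁻¹ : ℝ) : ℂ) *
      ((((conj U * a).re : ℝ) : ℂ) + (((conj U * a).im : ℝ) : ℂ) * Complex.I) * U := by
  rw [Complex.re_add_im]
  have hn : ((Complex.normSq U : ℝ) : ℂ) ≠ 0 := by
    exact_mod_cast (Complex.normSq_pos.mpr hU).ne'
  rw [Complex.ofReal_inv]
  have h1 : conj U * a * U = (Complex.normSq U : ℂ) * a := by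
    rw [Complex.normSq_eq_conj_mul_self]
    ring
  rw [mul_assoc, h1, ← mul_assoc, inv_mul_cancel₀ hn, one_mul]

theorem SC_fd {p : FP} (hu : fU p ≠ 0) (a : FP) :
    fderiv ℝ trans p a = (fT a,
      (((Complex.normSq (fU p))⁻¹ : ℝ) : ℂ) * fU p *
        ((((Complex.normSq (fU p))⁻¹ : ℝ) : ℂ) *
          (-(((conj (fU p) * fU a).re : ℝ) : ℂ) +
            (((conj (fU p) * fU a).im : ℝ) : ℂ) * Complex.I)),
      fH0 a, SC_w p * (fH a + (SC_th p a : ℂ) * Complex.I * fH p), fZe a,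
      SC_w p * (fZ a + (SC_th p a : ℂ) * Complex.I * fZ p), fS a) := by
  have hn : Complex.normSq (fU p) ≠ 0 := (Complex.normSq_pos.mpr hu).ne'
  have hr0 : ‖fU p‖ ≠ 0 := norm_ne_zero_iff.mpr hu
  obtain ⟨Ln, hLn⟩ : ∃ L : FP →L[ℝ] ℝ, L = (2 * (pU p).re) • (Complex.reCLM.comp pU) +
    (2 * (pU p).im) • (Complex.imCLM.comp pU) := ⟨_, rfl⟩
  have hN : HasFDerivAt (fun p : FP => Complex.normSq (fU p)) Ln p := by
    rw [hLn]
    exact SC_dns pU p
  have hLa : Ln a = 2 * (conj (fU p) * fU a).re := by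
    rw [hLn]
    rw [Complex.mul_re, Complex.conj_re, Complex.conj_im]
    change 2 * (fU p).re * (fU a).re + 2 * (fU p).im * (fU a).im = _
    ring
  have h1 : HasFDerivAt (fun p : FP => (Complex.normSq (fU p))⁻¹)
      ((-((Complex.normSq (fU p)) ^ 2)⁻¹) • Ln) p :=
    (hasDerivAt_inv hn).comp_hasFDerivAt p hN
  have h2 : HasFDerivAt (fun p : FP => (‖fU p‖)⁻¹)
      ((-(‖fU p‖ ^ 2)⁻¹ * (1 / (2 * ‖fU p‖))) • Ln) p := by
    have h3 : HasFDerivAt (fun p : FP => ‖fU p‖) ((1 / (2 * ‖fU p‖)) • Ln) p := by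
      have h4 := (Real.hasDerivAt_sqrt hn).comp_hasFDerivAt p hN
      have h5 : (fun p : FP => ‖fU p‖) = (fun x => √x) ∘ fun p : FP => Complex.normSq (fU p) := by
        funext q
        exact Complex.norm_def _
      rw [h5, Complex.norm_def]
      exact h4
    have h6 := (hasDerivAt_inv hr0).comp_hasFDerivAt p h3
    rw [smul_smul] at h6
    exact h6
  have hT : HasFDerivAt (fun p : FP => fT p) pT p := pT.hasFDerivAt
  have hU : HasFDerivAt (fun p : FP => fU p) pU p := pU.hasFDerivAt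
  have hH0 : HasFDerivAt (fun p : FP => fH0 p) pH0 p := pH0.hasFDerivAt
  have hH : HasFDerivAt (fun p : FP => fH p) pH p := pH.hasFDerivAt
  have hZe : HasFDerivAt (fun p : FP => fZe p) pZe p := pZe.hasFDerivAt
  have hZ : HasFDerivAt (fun p : FP => fZ p) pZ p := pZ.hasFDerivAt
  have hS : HasFDerivAt (fun p : FP => fS p) pS p := pS.hasFDerivAt
  have hD := hT.prodMk ((h1.fun_smul hU).prodMk (hH0.prodMk ((h2.fun_smul (hH.fun_mul hU)).prodMk
    (hZe.prodMk ((h2.fun_smul (hZ.fun_mul hU)).prodMk hS)))))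
  rw [SC_eq, hD.fderiv]
  simp only [ContinuousLinearMap.prod_apply]
  have hkey := SC_key (fU p) (fU a) hu
  obtain ⟨R, hR⟩ : ∃ R : ℝ, R = (conj (fU p) * fU a).re := ⟨_, rfl⟩
  obtain ⟨J, hJ⟩ : ∃ J : ℝ, J = (conj (fU p) * fU a).im := ⟨_, rfl⟩
  rw [SC_th_apply, ← hR, ← hJ]
  rw [← hR, ← hJ] at hkey
  rw [← hR] at hLa
  have hns : Complex.normSq (fU p) = ‖fU p‖ ^ 2 := Complex.normSq_eq_norm_sq _
  have hcoef : -(‖fU p‖ ^ 2)⁻¹ * (1 / (2 * ‖fU p‖)) * (2 * R) =
      -(‖fU p‖⁻¹ * (Complex.normSq (fU p))⁻¹ * R) := by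
    rw [hns]
    field_simp
  have hvec : ∀ x y : ℂ, (‖fU p‖)⁻¹ • (x * fU a + fU p * y) +
      (-(‖fU p‖ ^ 2)⁻¹ * (1 / (2 * ‖fU p‖)) * (2 * R)) • (x * fU p) =
      SC_w p * (y + (((Complex.normSq (fU p))⁻¹ * J : ℝ) : ℂ) * Complex.I * x) := by
    intro x y
    rw [hcoef]
    simp only [Complex.real_smul, SC_w]
    push_cast
    push_cast at hkey
    linear_combination ((‖fU p‖ : ℂ)⁻¹ * x) * hkey
  refine Prod.ext rfl (Prod.ext ?_ (Prod.ext rfl (Prod.ext ?_ (Prod.ext rfl (Prod.ext ?_ rfl)))))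
  · change (Complex.normSq (fU p))⁻¹ • fU a + (-((Complex.normSq (fU p)) ^ 2)⁻¹ * Ln a) • fU p = _
    rw [hLa]
    simp only [Complex.real_smul]
    push_cast
    push_cast at hkey
    linear_combination ((Complex.normSq (fU p) : ℂ)⁻¹) * hkey
  · change (‖fU p‖)⁻¹ • (fH p * fU a + fU p * fH a) +
      (-(‖fU p‖ ^ 2)⁻¹ * (1 / (2 * ‖fU p‖)) * Ln a) • (fH p * fU p) = _
    rw [hLa]
    exact hvec _ _
  · change (‖fU p‖)⁻¹ • (fZ p * fU a + fU p * fZ a) +
      (-(‖fU p‖ ^ 2)⁻¹ * (1 / (2 * ‖fU p‖)) * Ln a) • (fZ p * fU p) = _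
    rw [hLa]
    exact hvec _ _

theorem SC_fZ_trans (p : FP) : fZ (trans p) = SC_w p * fZ p := by
  change (((‖fU p‖)⁻¹ : ℝ) : ℂ) * (fZ p * fU p) = _
  unfold SC_w
  ring

theorem SC_fH_trans (p : FP) : fH (trans p) = SC_w p * fH p := by
  change (((‖fU p‖)⁻¹ : ℝ) : ℂ) * (fH p * fU p) = _
  unfold SC_w
  ring

theorem SC_im_Ze {p : FP} (hu : fU p ≠ 0) (a : FP) :
    imF pZe (trans p) (fderiv ℝ trans p a) = imF pZe p a := by
  rw [imF_apply, imF_apply, SC_fd hu]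
  rfl

theorem SC_im_Z {p : FP} (hu : fU p ≠ 0) (a : FP) :
    imF pZ (trans p) (fderiv ℝ trans p a) =
      imF pZ p a + Complex.normSq (fZ p) * SC_th p a := by
  rw [imF_apply, imF_apply, SC_fd hu]
  change (conj (fZ (trans p)) * (SC_w p * (fZ a + (SC_th p a : ℂ) * Complex.I * fZ p))).im =
    (conj (fZ p) * fZ a).im + _
  rw [SC_fZ_trans, SC_cancel hu]
  simp [Complex.normSq_apply]
  ring

theorem SC_im_U {p : FP} (hu : fU p ≠ 0) (a : FP) :
    imF pU (trans p) (fderiv ℝ trans p a) = (Complex.normSq (fU p))⁻¹ * SC_th p a := by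
  have hn : Complex.normSq (fU p) ≠ 0 := (Complex.normSq_pos.mpr hu).ne'
  rw [imF_apply, SC_fd hu, SC_th_apply]
  change (conj ((((Complex.normSq (fU p))⁻¹ : ℝ) : ℂ) * fU p) *
    ((((Complex.normSq (fU p))⁻¹ : ℝ) : ℂ) * fU p *
        ((((Complex.normSq (fU p))⁻¹ : ℝ) : ℂ) *
          (-(((conj (fU p) * fU a).re : ℝ) : ℂ) +
            (((conj (fU p) * fU a).im : ℝ) : ℂ) * Complex.I)))).im = _
  obtain ⟨R, hR⟩ : ∃ R : ℝ, R = (conj (fU p) * fU a).re := ⟨_, rfl⟩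
  obtain ⟨J, hJ⟩ : ∃ J : ℝ, J = (conj (fU p) * fU a).im := ⟨_, rfl⟩
  obtain ⟨n, hnn⟩ : ∃ n : ℝ, n = Complex.normSq (fU p) := ⟨_, rfl⟩
  rw [← hR, ← hJ, map_mul, Complex.conj_ofReal]
  have h1 : (((Complex.normSq (fU p))⁻¹ : ℝ) : ℂ) * conj (fU p) *
      ((((Complex.normSq (fU p))⁻¹ : ℝ) : ℂ) * fU p *
        ((((Complex.normSq (fU p))⁻¹ : ℝ) : ℂ) * (-(R : ℂ) + (J : ℂ) * Complex.I))) =
      (((n⁻¹ * n⁻¹ * n * n⁻¹ : ℝ)) : ℂ) * (-(R : ℂ) + (J : ℂ) * Complex.I) := by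
    have h2 : (n : ℂ) = conj (fU p) * fU p := by
      rw [hnn]
      exact Complex.normSq_eq_conj_mul_self
    rw [← hnn]
    simp only [Complex.ofReal_mul]
    rw [h2]
    ring
  rw [h1, ← hnn]
  rw [← hnn] at hn
  have h3 : n⁻¹ * n⁻¹ * n * n⁻¹ = n⁻¹ * n⁻¹ := by field_simp
  rw [h3]
  simp
  ring

theorem SC_areaF {La : ℝ} {p a b : FP} (hu : fU p ≠ 0) (hp : p ∈ FPS La)
    (ha : IsTangent (FPS La) p a) (hb : IsTangent (FPS La) p b) :
    areaF (trans p) (fderiv ℝ trans p a) (fderiv ℝ trans p b) =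
      areaF p a b - 1 / 2 * (fH0 a * SC_th p b - SC_th p a * fH0 b) := by
  rw [areaF_apply, areaF_apply, SC_fd hu, SC_fd hu]
  have hta := (tangent_FPS ha).1
  have htb := (tangent_FPS hb).1
  have hp1 := hp.1
  change 1 / 2 * (fH0 p * (conj (SC_w p * (fH a + (SC_th p a : ℂ) * Complex.I * fH p)) *
      (SC_w p * (fH b + (SC_th p b : ℂ) * Complex.I * fH p))).im -
    fH0 a * (conj (fH (trans p)) * (SC_w p * (fH b + (SC_th p b : ℂ) * Complex.I * fH p))).im +
    fH0 b * (conj (fH (trans p)) *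
      (SC_w p * (fH a + (SC_th p a : ℂ) * Complex.I * fH p))).im) = _
  rw [SC_fH_trans, SC_cancel hu, SC_cancel hu, SC_cancel hu]
  rw [Complex.normSq_apply] at hp1
  simp only [map_add, map_mul, Complex.conj_ofReal, Complex.conj_I, Complex.mul_im,
    Complex.mul_re, Complex.add_im, Complex.add_re, Complex.conj_re, Complex.conj_im,
    Complex.ofReal_re, Complex.ofReal_im, Complex.I_re, Complex.I_im, Complex.neg_re,
    Complex.neg_im] at hta htb ⊢
  linear_combination (1 / 2 * SC_th p b * fH0 p) * hta - (1 / 2 * SC_th p a * fH0 p) * htb +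
    (1 / 2 * (SC_th p a * fH0 b - SC_th p b * fH0 a)) * hp1

theorem SC_dinv {p : FP} (hu : fU p ≠ 0) :
    HasFDerivAt (fun p : FP => (Complex.normSq (fU p))⁻¹)
      ((-((Complex.normSq (fU p)) ^ 2)⁻¹) • ((2 * (pU p).re) • (Complex.reCLM.comp pU) +
        (2 * (pU p).im) • (Complex.imCLM.comp pU))) p :=
  (hasDerivAt_inv (Complex.normSq_pos.mpr hu).ne').comp_hasFDerivAt p (SC_dns pU p)

theorem SC_imd (c : FP →L[ℝ] ℂ) (p : FP) : DifferentiableAt ℝ (imF c) p :=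
  ((contDiff_imF c).differentiable (by simp)) p

theorem SC_thd {p : FP} (hu : fU p ≠ 0) : DifferentiableAt ℝ SC_th p :=
  (SC_dinv hu).differentiableAt.fun_smul (SC_imd pU p)

theorem SC_dd_th {p : FP} (hu : fU p ≠ 0) (a b : FP) : dd SC_th p a b = 0 := by
  have hn : Complex.normSq (fU p) ≠ 0 := (Complex.normSq_pos.mpr hu).ne'
  have h1 : dd SC_th p = wdg (fderiv ℝ (fun p : FP => (Complex.normSq (fU p))⁻¹) p) (imF pU p) +
      (Complex.normSq (fU p))⁻¹ • dd (imF pU) p :=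
    dd_smul (SC_dinv hu).differentiableAt (SC_imd pU p)
  rw [h1, (SC_dinv hu).fderiv]
  change wdg _ _ a b + (Complex.normSq (fU p))⁻¹ * dd (imF pU) p a b = 0
  rw [wdg_apply, dd_imF, imF_apply, imF_apply]
  change (-((Complex.normSq (fU p)) ^ 2)⁻¹ * (2 * (fU p).re * (fU a).re + 2 * (fU p).im * (fU a).im))
      * (conj (fU p) * fU b).im - (conj (fU p) * fU a).im *
      (-((Complex.normSq (fU p)) ^ 2)⁻¹ * (2 * (fU p).re * (fU b).re + 2 * (fU p).im * (fU b).im))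
      + (Complex.normSq (fU p))⁻¹ * (2 * (conj (fU a) * fU b).im) = 0
  obtain ⟨n, hnn⟩ : ∃ n : ℝ, n = Complex.normSq (fU p) := ⟨_, rfl⟩
  rw [← hnn] at hn ⊢
  rw [Complex.normSq_apply] at hnn
  simp only [Complex.mul_im, Complex.conj_re, Complex.conj_im]
  have h2 : (n ^ 2)⁻¹ = n⁻¹ * n⁻¹ := by field_simp
  have h3 : n⁻¹ * n = 1 := inv_mul_cancel₀ hn
  rw [h2]
  linear_combination (-2 * n⁻¹ * ((fU a).re * (fU b).im - (fU a).im * (fU b).re)) * h3 +
    (2 * n⁻¹ * n⁻¹ * ((fU a).re * (fU b).im - (fU a).im * (fU b).re)) * hnn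

theorem SC_pbd {l : Form1 FP} {p : FP} (hu : fU p ≠ 0)
    (hl : DifferentiableAt ℝ l (trans p)) : DifferentiableAt ℝ (pb1 trans l) p := by
  have h1 : DifferentiableAt ℝ (fun y => l (trans y)) p :=
    hl.comp p ((SC_sm hu).differentiableAt (by simp))
  have h2 : ContDiffAt ℝ 1 (fderiv ℝ trans) p :=
    (SC_sm hu).fderiv_right (by norm_cast)
  exact h1.clm_comp (h2.differentiableAt (by simp))

namespace FPar

theorem SC_U0 (P : FPar) (hTa : 0 < P.Ta) {y : FP} (hy : P.s2 + 1 < Complex.normSq (fU y)) :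
    fU y ≠ 0 := by
  intro h
  have h1 := P.s1_pos hTa
  rw [h, map_zero] at hy
  unfold s2 at hy
  linarith

theorem SC_aN (P : FPar) (hTa : 0 < P.Ta) {y : FP} (hy : P.s2 + 1 < Complex.normSq (fU y)) :
    P.aN y = SC_th y := by
  unfold aN SC_th
  rw [(P.ka_props hTa).2.2.1 _ (by unfold s2 at hy; linarith), one_div]

theorem SC_bN (P : FPar) (hTa : 0 < P.Ta) {y : FP} (hy : P.s2 + 1 < Complex.normSq (fU y)) :
    P.bN y = pb1 trans bS y + ((P.s2 + 3) / 2) • SC_th y := by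
  have hu := P.SC_U0 hTa hy
  have hn : Complex.normSq (fU y) ≠ 0 := (Complex.normSq_pos.mpr hu).ne'
  apply ContinuousLinearMap.ext
  intro a
  change P.kr (Complex.normSq (fU y)) / 2 * imF pU y a =
    -(1 / 2) * imF pU (trans y) (fderiv ℝ trans y a) + (P.s2 + 3) / 2 * SC_th y a
  rw [SC_im_U hu, (P.kr_props hTa).2.2.1 _ hy.le]
  have h1 : imF pU y a = Complex.normSq (fU y) * SC_th y a := by
    rw [SC_th_apply, imF_apply]
    change (conj (fU y) * fU a).im = _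
    field_simp
  rw [h1]
  field_simp
  ring

theorem SC_q2 (P : FPar) (hTa : 0 < P.Ta) {y : FP} (hy : P.s2 + 1 < Complex.normSq (fU y)) :
    P.q2N y = pb1 trans q2S y := by
  have hu := P.SC_U0 hTa hy
  apply ContinuousLinearMap.ext
  intro a
  unfold q2N
  rw [P.SC_aN hTa hy]
  change 1 / 2 * (imF pZe y a + imF pZ y a + Complex.normSq (fZ y) * SC_th y a) =
    1 / 2 * (imF pZe (trans y) (fderiv ℝ trans y a) + imF pZ (trans y) (fderiv ℝ trans y a))
  rw [SC_im_Ze hu, SC_im_Z hu]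
  ring

theorem SC_qsq {y : FP} (hu : fU y ≠ 0) :
    qsq (fZe (trans y)) (fZ (trans y)) = qsq (fZe y) (fZ y) := by
  rw [SC_fZ_trans]
  unfold qsq
  rw [SC_normSq hu]
  rfl

theorem SC_l0 (P : FPar) (hTa : 0 < P.Ta) {y : FP} (hy : P.s2 + 1 < Complex.normSq (fU y)) :
    P.lN0 y = pb1 trans P.lS0 y + ((P.s2 + 3) / 2) • SC_th y := by
  have hu := P.SC_U0 hTa hy
  have hF : P.F0 (trans y) = P.F0 y := by
    unfold F0 chip
    rw [SC_qsq hu]
    rfl
  unfold lN0
  rw [P.SC_bN hTa hy, P.SC_aN hTa hy]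
  apply ContinuousLinearMap.ext
  intro a
  change P.F0 y * ((qsq (fZe y) (fZ y))⁻¹ * (imF pZe y a + imF pZ y a) +
      Complex.normSq (fZ y) / qsq (fZe y) (fZ y) * SC_th y a) +
      (bS (trans y) (fderiv ℝ trans y a) + (P.s2 + 3) / 2 * SC_th y a) =
    P.F0 (trans y) * ((qsq (fZe (trans y)) (fZ (trans y)))⁻¹ *
      (imF pZe (trans y) (fderiv ℝ trans y a) + imF pZ (trans y) (fderiv ℝ trans y a))) +
      bS (trans y) (fderiv ℝ trans y a) + (P.s2 + 3) / 2 * SC_th y a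
  rw [hF, SC_qsq hu, SC_im_Ze hu, SC_im_Z hu]
  ring

theorem SC_ev (P : FPar) {p : FP} (hu : P.s2 + 1 < Complex.normSq (fU p)) :
    ∀ᶠ y in 𝓝 p, P.s2 + 1 < Complex.normSq (fU y) :=
  (SC_ns pU).continuous.continuousAt.eventually (lt_mem_nhds hu)

theorem SC_qd (p : FP) : DifferentiableAt ℝ (fun y : FP => qsq (fZe y) (fZ y)) p :=
  (SC_dns pZe p).differentiableAt.fun_add (SC_dns pZ p).differentiableAt

theorem SC_f0d (P : FPar) : Differentiable ℝ P.f0 := by
  have h1 : Differentiable ℝ Real.smoothTransition :=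
    (Real.smoothTransition.contDiff (n := 1)).differentiable (by simp)
  have h2 : Differentiable ℝ fun s : ℝ => Real.smoothTransition ((s + P.La / 2) / P.La) :=
    h1.comp (by fun_prop)
  have h3 : P.f0 = fun s => (1 - Real.smoothTransition ((s + P.La / 2) / P.La)) *
      ((P.La ^ 2 - s ^ 2) / 2) + Real.smoothTransition ((s + P.La / 2) / P.La) *
        (P.La ^ 2 + 1 - (P.La ^ 2 - s ^ 2) / 2) := rfl
  rw [h3]
  fun_prop

theorem SC_F0d (P : FPar) (hr : 0 < P.r0) {p : FP}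
    (hs : fS p ≠ 0 ∨ P.r0 ^ 2 < qsq (fZe p) (fZ p)) : DifferentiableAt ℝ P.F0 p := by
  have hSc : Continuous fun y : FP => fS y := pS.continuous
  have h1 : DifferentiableAt ℝ (fun y : FP => P.f0 (fS y)) p :=
    (P.SC_f0d (fS p)).comp p (pS.differentiableAt)
  have h2 : DifferentiableAt ℝ P.chip p := by
    obtain ⟨hc1, hc2, hc3, hc4⟩ := P.chi_props hr
    have hchi : DifferentiableAt ℝ (fun y : FP => P.chi (qsq (fZe y) (fZ y))) p :=
      ((hc1.differentiable (by simp)) _).comp p (SC_qd p)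
    rcases hs with hs | hs
    · rcases lt_or_gt_of_ne hs with hs | hs
      · apply hchi.congr_of_eventuallyEq
        filter_upwards [hSc.continuousAt.eventually (gt_mem_nhds hs)] with y hy
        unfold chip
        rw [if_pos hy]
      · apply (differentiableAt_const (0 : ℝ)).congr_of_eventuallyEq
        filter_upwards [hSc.continuousAt.eventually (lt_mem_nhds hs)] with y hy
        unfold chip
        rw [if_neg (not_lt.mpr hy.le)]
    · apply (differentiableAt_const (0 : ℝ)).congr_of_eventuallyEq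
      filter_upwards [(SC_qd p).continuousAt.eventually (lt_mem_nhds hs)] with y hy
      unfold chip
      split_ifs
      · exact hc3 _ hy.le
      · rfl
  exact h1.fun_add (h2.const_mul P.eps)

theorem SC_lS0d (P : FPar) (hr : 0 < P.r0) {p : FP} (hq : qsq (fZe p) (fZ p) ≠ 0)
    (hs : fS p ≠ 0 ∨ P.r0 ^ 2 < qsq (fZe p) (fZ p)) : DifferentiableAt ℝ P.lS0 p := by
  have h1 : DifferentiableAt ℝ alq p :=
    ((SC_qd p).fun_inv hq).fun_smul ((SC_imd pZe p).fun_add (SC_imd pZ p))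
  exact ((P.SC_F0d hr hs).fun_smul h1).fun_add ((SC_imd pU p).fun_const_smul _)

theorem trans_l0 (P : FPar) (hTa : 0 < P.Ta) {p : FP} (hu : P.s2 + 1 < Complex.normSq (fU p))
    (hq : fZe p ≠ 0 ∨ fZ p ≠ 0) (hs : fS p ≠ 0 ∨ P.r0 ^ 2 < qsq (fZe p) (fZ p)) (hr : 0 < P.r0)
    (a b : FP) : pb2 trans P.omS0 p a b = P.omN0 p a b := by
  have hU := P.SC_U0 hTa hu
  have hq0 : qsq (fZe p) (fZ p) ≠ 0 := by
    unfold qsq
    rcases hq with hq | hq
    · have h1 := Complex.normSq_pos.mpr hq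
      have h2 := Complex.normSq_nonneg (fZ p)
      linarith
    · have h1 := Complex.normSq_pos.mpr hq
      have h2 := Complex.normSq_nonneg (fZe p)
      linarith
  have hl : DifferentiableAt ℝ P.lS0 (trans p) := by
    apply P.SC_lS0d hr
    · rw [SC_qsq hU]
      exact hq0
    · rw [SC_qsq hU]
      exact hs
  have h1 : dd P.lN0 p = dd (fun y => pb1 trans P.lS0 y + ((P.s2 + 3) / 2) • SC_th y) p := by
    apply dd_congr
    filter_upwards [P.SC_ev hu] with y hy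
    exact P.SC_l0 hTa hy
  have h2 := dd_pb1 ((SC_sm hU).of_le (by norm_cast)) hl
  unfold omS0 omN0
  rw [h1, dd_add (SC_pbd hU hl) ((SC_thd hU).fun_const_smul _), dd_const_smul _ (SC_thd hU), h2]
  change _ = pb2 trans (dd P.lS0) p a b + (P.s2 + 3) / 2 * dd SC_th p a b
  rw [SC_dd_th hU, mul_zero, add_zero]

theorem SC_main (P : FPar) (hTa : 0 < P.Ta) {La : ℝ} {p a b : FP} (hp : p ∈ FPS La)
    (hu : P.s2 + 1 < Complex.normSq (fU p)) (ha : IsTangent (FPS La) p a)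
    (hb : IsTangent (FPS La) p b) (σ c : ℝ) :
    pb2 trans (fun p => dd (fun p => σ • q2S p + bS p) p + c • areaF p) p a b =
      (dd (fun p => σ • P.q2N p + P.bN p + (c * ((1 - fH0 p) / 2)) • P.aN p) p +
        c • areaF p) a b := by
  have hU := P.SC_U0 hTa hu
  obtain ⟨l, hl⟩ : ∃ l : Form1 FP, l = fun p => σ • q2S p + bS p := ⟨_, rfl⟩
  have hld : DifferentiableAt ℝ l (trans p) := by
    rw [hl]
    have h1 : DifferentiableAt ℝ q2S (trans p) :=
      ((SC_imd pZe _).fun_add (SC_imd pZ _)).fun_const_smul _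
    exact (h1.fun_const_smul σ).fun_add ((SC_imd pU _).fun_const_smul _)
  have hg : HasFDerivAt (fun y : FP => (P.s2 + 3) / 2 + c * ((1 - fH0 y) / 2))
      ((-(c / 2)) • pH0) p := by
    have h1 := ((pH0.hasFDerivAt (x := p)).const_smul (-(c / 2))).const_add
      ((P.s2 + 3) / 2 + c / 2)
    refine h1.congr_of_eventuallyEq (Filter.Eventually.of_forall fun y => ?_)
    change (P.s2 + 3) / 2 + c * ((1 - fH0 y) / 2) = (P.s2 + 3) / 2 + c / 2 + -(c / 2) * fH0 y
    ring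
  have h1 : dd (fun p => σ • P.q2N p + P.bN p + (c * ((1 - fH0 p) / 2)) • P.aN p) p =
      dd (fun y => pb1 trans l y +
        ((P.s2 + 3) / 2 + c * ((1 - fH0 y) / 2)) • SC_th y) p := by
    apply dd_congr
    filter_upwards [P.SC_ev hu] with y hy
    rw [P.SC_q2 hTa hy, P.SC_bN hTa hy, P.SC_aN hTa hy, hl]
    apply ContinuousLinearMap.ext
    intro a
    change σ * q2S (trans y) (fderiv ℝ trans y a) + (bS (trans y) (fderiv ℝ trans y a) +
        (P.s2 + 3) / 2 * SC_th y a) + c * ((1 - fH0 y) / 2) * SC_th y a =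
      σ * q2S (trans y) (fderiv ℝ trans y a) + bS (trans y) (fderiv ℝ trans y a) +
        ((P.s2 + 3) / 2 + c * ((1 - fH0 y) / 2)) * SC_th y a
    ring
  have h2 := dd_pb1 ((SC_sm hU).of_le (by norm_cast)) hld
  rw [h1, dd_add (SC_pbd hU hld) (hg.differentiableAt.fun_smul (SC_thd hU)),
    dd_smul hg.differentiableAt (SC_thd hU), h2, hg.fderiv]
  change dd (fun p => σ • q2S p + bS p) (trans p) (fderiv ℝ trans p a) (fderiv ℝ trans p b) +
      c * areaF (trans p) (fderiv ℝ trans p a) (fderiv ℝ trans p b) =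
    dd l (trans p) (fderiv ℝ trans p a) (fderiv ℝ trans p b) +
      (wdg ((-(c / 2)) • pH0) (SC_th p) a b +
        ((P.s2 + 3) / 2 + c * ((1 - fH0 p) / 2)) * dd SC_th p a b) + c * areaF p a b
  rw [SC_dd_th hU, wdg_apply, SC_areaF hU hp ha hb, ← hl]
  change _ = _ + (-(c / 2) * fH0 a * SC_th p b - SC_th p a * (-(c / 2) * fH0 b) + _) + _
  ring

theorem trans_m (P : FPar) (hTa : 0 < P.Ta) {La : ℝ} {p a b : FP} (hp : p ∈ FPS La)
    (hu : P.s2 + 1 < Complex.normSq (fU p)) (ha : IsTangent (FPS La) p a)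
    (hb : IsTangent (FPS La) p b) : pb2 trans P.omSm p a b = P.omNm p a b := by
  have h := P.SC_main hTa hp hu ha hb 1 P.eps
  simp only [one_smul] at h
  exact h

theorem trans_p (P : FPar) (hTa : 0 < P.Ta) {La : ℝ} {p a b : FP} (hp : p ∈ FPS La)
    (hu : P.s2 + 1 < Complex.normSq (fU p)) (ha : IsTangent (FPS La) p a)
    (hb : IsTangent (FPS La) p b) : pb2 trans P.omSp p a b = P.omNp p a b := by
  have h := P.SC_main hTa hp hu ha hb (-1) (P.La ^ 2 + 1)
  have h1 : (fun p : FP => (-1 : ℝ) • q2S p + bS p) = fun p => -q2S p + bS p := by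
    funext p
    apply ContinuousLinearMap.ext
    intro v
    change (-1) * q2S p v + bS p v = -(q2S p v) + bS p v
    ring
  have h2 : (fun p : FP => (-1 : ℝ) • P.q2N p + P.bN p +
      ((P.La ^ 2 + 1) * ((1 - fH0 p) / 2)) • P.aN p) = fun p => -P.q2N p + P.bN p +
      ((P.La ^ 2 + 1) * ((1 - fH0 p) / 2)) • P.aN p := by
    funext p
    apply ContinuousLinearMap.ext
    intro v
    change (-1) * P.q2N p v + P.bN p v + (P.La ^ 2 + 1) * ((1 - fH0 p) / 2) * P.aN p v =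
      -(P.q2N p v) + P.bN p v + (P.La ^ 2 + 1) * ((1 - fH0 p) / 2) * P.aN p v
    ring
  rw [h1, h2] at h
  exact h

end FPar

end Pool.Agent.H34.SY
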