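import Pool.Agent.H34.SY.MA
import Pool.Agent.H34.SY.MH1
import Pool.Agent.H34.SY.SC

/-!
# Row MX3: the outer forms under the change of side

For `|u|² > s2 + 1` (`> B²`): `aN = dθ`, `etaN = 0` near; `xiS (trans p)` and `trans (xiN p)` have the same `t, u, ζ, z, s, h0, h`
(side `N`: `ζ_X = ((1-l)ζ + l z̄ w̄)/n`, `z_X = ((1-l) z - l ζ̄ w̄)/n`, `w = u/|u|`; `trans` multiplies `z` by `w`; side `S` of
`(ζ, z w)`: `((1-l) ζ + l z̄ w̄)/n`, `((1-l) z w - l ζ̄)/n = z_X w` ✓.).  So `pb1 trans (pb1 xiS lS0) = pb1 xiN (pb1 trans lS0)` near `p`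
(`pb1_comp`), and `pb1 trans lS0 = lN0 - ½(s2+3) dθ` off `q = 0` (row SC, `SC_l0` or similar); `xiN` preserves `u`, so
`pb1 xiN dθ = dθ` is closed.  Hence `pb2 trans omOS0 = omO0` at `p`.
Near `q = 0`: `pb1 trans (bS + pb1 xiS q2S) = pb1 xiN (bN + q2N) - ½ (s2+3) dθ` and `pb1 xiN bN = bN`; `pb2 trans areaF` on tangent
vectors of `FPS` is `areaF + dd (((1-h0)/2) dθ)` up to sign conventions as in `trans_m` (row SC): the term `-eps ((1-h0)/2) aN` of
`omOm` matches.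
-/

open Set Topology
open scoped ContDiff ComplexConjugate

namespace Pool.Agent.H34.SY

theorem MX3_pbd {f : FP → FP} {l : Form1 FP} {p : FP} (hf : ContDiffAt ℝ ∞ f p)
    (hl : DifferentiableAt ℝ l (f p)) : DifferentiableAt ℝ (pb1 f l) p := by
  have h1 : DifferentiableAt ℝ (fun y => l (f y)) p :=
    hl.comp p (hf.differentiableAt (by simp))
  have h2 : ContDiffAt ℝ 1 (fderiv ℝ f) p := hf.fderiv_right (by norm_cast)
  exact h1.clm_comp (h2.differentiableAt (by simp))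

theorem MX3_pb1_congr {f g : FP → FP} {l : Form1 FP} {p : FP} (h : f =ᶠ[𝓝 p] g) :
    pb1 f l p = pb1 g l p := by
  unfold pb1
  rw [h.eq_of_nhds, h.fderiv_eq]

theorem MX3_pb1_lin {f : FP → FP} {l m n : Form1 FP} {p : FP} {c : ℝ}
    (h : l (f p) = m (f p) + c • n (f p)) : pb1 f l p = pb1 f m p + c • pb1 f n p := by
  unfold pb1
  rw [h]
  rfl

theorem MX3_open : IsOpen {p : FP | fS p ≠ 0 ∨ 1 < qsq (fZe p) (fZ p)} := by
  refine IsOpen.union ?_ ?_
  · exact isOpen_ne_fun FPar.MA_cdS.continuous continuous_const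
  · exact isOpen_lt continuous_const FPar.MA_cdq.continuous

theorem MX3_wu {p : FP} (hu : fU p ≠ 0) : ContDiffAt ℝ ∞ SC_w p := by
  have h2 : ContDiffAt ℝ ∞ (fun p : FP => (‖fU p‖)⁻¹) p := by
    have h3 : ContDiffAt ℝ ∞ (fun p : FP => ‖fU p‖) p :=
      (contDiffAt_norm ℝ hu).comp p pU.contDiff.contDiffAt
    exact h3.inv (norm_ne_zero_iff.mpr hu)
  exact (Complex.ofRealCLM.contDiff.contDiffAt.comp p h2).mul FPar.MA_cdU.contDiffAt

namespace FPar

theorem MX3_ll (P : FPar) (h : P.Ok2) {p : FP} (hs : fS p ≠ 0 ∨ 1 < qsq (fZe p) (fZ p)) :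
    ContDiffAt ℝ ∞ P.ll p := by
  by_cases hq : 1 < qsq (fZe p) (fZ p)
  · have hopq : IsOpen {p : FP | 1 < qsq (fZe p) (fZ p)} :=
      isOpen_lt continuous_const MA_cdq.continuous
    have he : P.ll =ᶠ[𝓝 p] fun _ => 0 := by
      filter_upwards [hopq.mem_nhds hq] with y hy
      have hy1 : 1 < qsq (fZe y) (fZ y) := hy
      have hr : P.rb ^ 2 ≤ qsq (fZe y) (fZ y) := by
        have h1 := h.rb0
        have h2 := h.rb1
        nlinarith
      unfold ll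
      split_ifs
      · exact MA_lamb_zero P.toPar h.rb0 hr
      · rfl
    exact contDiffAt_const.congr_of_eventuallyEq he
  · have hs0 : fS p ≠ 0 := hs.resolve_right hq
    rcases lt_or_gt_of_ne hs0 with hs1 | hs1
    · have hopS : IsOpen {p : FP | fS p < 0} := isOpen_lt MA_cdS.continuous continuous_const
      have he : P.ll =ᶠ[𝓝 p] fun p => P.toPar.lamb (qsq (fZe p) (fZ p)) := by
        filter_upwards [hopS.mem_nhds hs1] with y hy1
        unfold ll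
        rw [if_pos hy1]
      exact (P.MA_cdl).contDiffAt.congr_of_eventuallyEq he
    · have hopS : IsOpen {p : FP | 0 < fS p} := isOpen_lt continuous_const MA_cdS.continuous
      have he : P.ll =ᶠ[𝓝 p] fun _ => 0 := by
        filter_upwards [hopS.mem_nhds hs1] with y hy
        unfold ll
        rw [if_neg (not_lt.2 (le_of_lt hy))]
      exact contDiffAt_const.congr_of_eventuallyEq he

theorem MX3_nn (P : FPar) (h : P.Ok2) {p : FP} (hs : fS p ≠ 0 ∨ 1 < qsq (fZe p) (fZ p)) :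
    ContDiffAt ℝ ∞ P.nn p := by
  have hl := P.MX3_ll h hs
  have h1 : ContDiffAt ℝ ∞ (fun p => (1 - P.ll p) ^ 2 + P.ll p ^ 2) p :=
    ((contDiffAt_const.sub hl).pow 2).add (hl.pow 2)
  refine h1.sqrt ?_
  have h2 : 0 < (1 - P.ll p) ^ 2 + P.ll p ^ 2 := by nlinarith [sq_nonneg (1 - 2 * P.ll p)]
  exact h2.ne'

theorem MX3_nn_ne (P : FPar) (p : FP) : P.nn p ≠ 0 := MA_sq_ne (P.ll p)

theorem MX3_xiW (P : FPar) (h : P.Ok2) {p : FP} (hs : fS p ≠ 0 ∨ 1 < qsq (fZe p) (fZ p))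
    {w : FP → ℂ} (hw : ContDiffAt ℝ ∞ w p) : ContDiffAt ℝ ∞ (fun y => P.xiW (w y) y) p := by
  have hl := P.MX3_ll h hs
  have hn := P.MX3_nn h hs
  have hcj : ContDiff ℝ ∞ (fun z : ℂ => conj z) := Complex.conjCLE.contDiff
  have hT : ContDiffAt ℝ ∞ (fun p : FP => fT p) p := pT.contDiff.contDiffAt
  have hU : ContDiffAt ℝ ∞ (fun p : FP => fU p) p := pU.contDiff.contDiffAt
  have hH0 : ContDiffAt ℝ ∞ (fun p : FP => fH0 p) p := pH0.contDiff.contDiffAt
  have hH : ContDiffAt ℝ ∞ (fun p : FP => fH p) p := pH.contDiff.contDiffAt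
  have hZe : ContDiffAt ℝ ∞ (fun p : FP => fZe p) p := pZe.contDiff.contDiffAt
  have hZ : ContDiffAt ℝ ∞ (fun p : FP => fZ p) p := pZ.contDiff.contDiffAt
  have hS : ContDiffAt ℝ ∞ (fun p : FP => fS p) p := pS.contDiff.contDiffAt
  have hA : ContDiffAt ℝ ∞ (fun p : FP => (((1 - P.ll p) / P.nn p : ℝ) : ℂ)) p :=
    Complex.ofRealCLM.contDiff.contDiffAt.comp p
      ((contDiffAt_const.sub hl).div hn (P.MX3_nn_ne p))
  have hB : ContDiffAt ℝ ∞ (fun p : FP => ((P.ll p / P.nn p : ℝ) : ℂ)) p :=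
    Complex.ofRealCLM.contDiff.contDiffAt.comp p (hl.div hn (P.MX3_nn_ne p))
  have hcw : ContDiffAt ℝ ∞ (fun p : FP => conj (w p)) p := hcj.contDiffAt.comp p hw
  have hcZ : ContDiffAt ℝ ∞ (fun p : FP => conj (fZ p)) p := hcj.contDiffAt.comp p hZ
  have hcZe : ContDiffAt ℝ ∞ (fun p : FP => conj (fZe p)) p := hcj.contDiffAt.comp p hZe
  exact hT.prodMk (hU.prodMk (hH0.prodMk (hH.prodMk
    (((hA.mul hZe).add (hB.mul (hcZ.mul hcw))).prodMk
      (((hA.mul hZ).sub (hB.mul (hcZe.mul hcw))).prodMk hS)))))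

theorem MX3_xiS (P : FPar) (h : P.Ok2) {p : FP} (hs : fS p ≠ 0 ∨ 1 < qsq (fZe p) (fZ p)) :
    ContDiffAt ℝ ∞ P.xiS p := by
  have h1 : P.xiS = fun y => P.xiW ((fun _ => (1 : ℂ)) y) y := funext fun y => P.xiS_eq y
  rw [h1]
  exact P.MX3_xiW h hs contDiffAt_const

theorem MX3_B (P : FPar) (hTa : 0 < P.Ta) {y : FP} (hy : P.s2 + 1 < Complex.normSq (fU y)) :
    P.hd.B ^ 2 < Complex.normSq (fU y) := by
  unfold s2 s1 at hy
  linarith

theorem MX3_xiN (P : FPar) (h : P.Ok2) {p : FP} (hu : P.s2 + 1 < Complex.normSq (fU p))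
    (hs : fS p ≠ 0 ∨ 1 < qsq (fZe p) (fZ p)) : ContDiffAt ℝ ∞ P.xiN p := by
  have he : P.xiN =ᶠ[𝓝 p] fun y => P.xiW (SC_w y) y := by
    filter_upwards [P.SC_ev hu] with y hy
    exact P.xiN_eq (P.MX3_B h.Ta hy).le
  exact (P.MX3_xiW h hs (MX3_wu (P.SC_U0 h.Ta hu))).congr_of_eventuallyEq he

theorem MX3_comm (P : FPar) (hTa : 0 < P.Ta) {y : FP}
    (hy : P.s2 + 1 < Complex.normSq (fU y)) : P.xiS (trans y) = trans (P.xiN y) := by
  have hU := P.SC_U0 hTa hy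
  have hl : P.ll (trans y) = P.ll y := by
    unfold ll
    rw [SC_qsq hU]
    rfl
  have hn : P.nn (trans y) = P.nn y := by
    unfold nn
    rw [hl]
  rw [P.xiS_eq, P.xiN_eq (P.MX3_B hTa hy).le]
  have hw := SC_w_mul hU
  have hZ := SC_fZ_trans y
  unfold xiW
  rw [hl, hn, hZ]
  unfold xiX xiW
  refine Prod.ext rfl (Prod.ext rfl (Prod.ext rfl (Prod.ext rfl (Prod.ext ?_ (Prod.ext ?_ rfl)))))
  · change (((1 - P.ll y) / P.nn y : ℝ) : ℂ) * fZe y +
      ((P.ll y / P.nn y : ℝ) : ℂ) * (conj (SC_w y * fZ y) * conj 1) =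
      (((1 - P.ll y) / P.nn y : ℝ) : ℂ) * fZe y +
      ((P.ll y / P.nn y : ℝ) : ℂ) * (conj (fZ y) * conj (SC_w y))
    rw [map_mul, map_one]
    ring
  · change (((1 - P.ll y) / P.nn y : ℝ) : ℂ) * (SC_w y * fZ y) -
      ((P.ll y / P.nn y : ℝ) : ℂ) * (conj (fZe y) * conj 1) =
      ((‖fU y‖⁻¹ : ℝ) : ℂ) * (((((1 - P.ll y) / P.nn y : ℝ) : ℂ) * fZ y -
      ((P.ll y / P.nn y : ℝ) : ℂ) * (conj (fZe y) * conj (SC_w y))) * fU y)
    have h1 : ((‖fU y‖⁻¹ : ℝ) : ℂ) * (((((1 - P.ll y) / P.nn y : ℝ) : ℂ) * fZ y -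
      ((P.ll y / P.nn y : ℝ) : ℂ) * (conj (fZe y) * conj (SC_w y))) * fU y) =
      ((((1 - P.ll y) / P.nn y : ℝ) : ℂ) * fZ y -
      ((P.ll y / P.nn y : ℝ) : ℂ) * (conj (fZe y) * conj (SC_w y))) * SC_w y := by
      unfold SC_w
      ring
    rw [h1, map_one]
    linear_combination (-(((P.ll y / P.nn y : ℝ) : ℂ) * conj (fZe y))) * (-hw)

theorem MX3_swap (P : FPar) (h : P.Ok2) {y : FP} (hu : P.s2 + 1 < Complex.normSq (fU y))
    (hs : fS y ≠ 0 ∨ 1 < qsq (fZe y) (fZ y)) (l : Form1 FP) :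
    pb1 trans (pb1 P.xiS l) y = pb1 P.xiN (pb1 trans l) y := by
  have hU := P.SC_U0 h.Ta hu
  have hs' : fS (trans y) ≠ 0 ∨ 1 < qsq (fZe (trans y)) (fZ (trans y)) := by
    rw [SC_qsq hU]
    exact hs
  have hS : DifferentiableAt ℝ P.xiS (trans y) :=
    (P.MX3_xiS h hs').differentiableAt (by simp)
  have hN : DifferentiableAt ℝ P.xiN y := (P.MX3_xiN h hu hs).differentiableAt (by simp)
  have hT1 : DifferentiableAt ℝ trans y := (SC_sm hU).differentiableAt (by simp)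
  have hT2 : DifferentiableAt ℝ trans (P.xiN y) :=
    (SC_sm (p := P.xiN y) hU).differentiableAt (by simp)
  rw [pb1_comp hT1 hS, pb1_comp hN hT2]
  apply MX3_pb1_congr
  filter_upwards [P.SC_ev hu] with x hx
  exact P.MX3_comm h.Ta hx

theorem MX3_th (P : FPar) (h : P.Ok2) {y : FP} (hu : P.s2 + 1 < Complex.normSq (fU y))
    (hs : fS y ≠ 0 ∨ 1 < qsq (fZe y) (fZ y)) : pb1 P.xiN SC_th y = SC_th y := by
  have hN : DifferentiableAt ℝ P.xiN y := (P.MX3_xiN h hu hs).differentiableAt (by simp)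
  have h1 : HasFDerivAt (fun x => pU (P.xiN x)) (pU.comp (fderiv ℝ P.xiN y)) y :=
    pU.hasFDerivAt.comp y hN.hasFDerivAt
  have h2 : HasFDerivAt (fun x => pU (P.xiN x)) pU y := pU.hasFDerivAt
  have h3 := h1.unique h2
  apply ContinuousLinearMap.ext
  intro a
  change SC_th (P.xiN y) (fderiv ℝ P.xiN y a) = _
  rw [SC_th_apply, SC_th_apply]
  have h4 : fU (fderiv ℝ P.xiN y a) = fU a := DFunLike.congr_fun h3 a
  rw [h4]
  rfl

theorem MX3_eta (P : FPar) (hTa : 0 < P.Ta) {y : FP} (hy : P.s2 + 1 < Complex.normSq (fU y)) :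
    P.etaN y = 0 := by
  unfold etaN
  rw [(P.ka_props hTa).2.2.1 _ (by unfold s2 at hy; linarith), sub_self, zero_smul]

theorem MX3_l0 (P : FPar) (h : P.Ok2) {y : FP} (hu : P.s2 + 1 < Complex.normSq (fU y))
    (hs : fS y ≠ 0 ∨ 1 < qsq (fZe y) (fZ y)) :
    pb1 P.xiN P.lN0 y = pb1 trans (pb1 P.xiS P.lS0) y + ((P.s2 + 3) / 2) • SC_th y := by
  rw [P.MX3_swap h hu hs, MX3_pb1_lin (f := P.xiN) (P.SC_l0 (y := P.xiN y) h.Ta hu),
    P.MX3_th h hu hs]

theorem MX3_q2 (P : FPar) (h : P.Ok2) {y : FP} (hu : P.s2 + 1 < Complex.normSq (fU y))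
    (hs : fS y ≠ 0 ∨ 1 < qsq (fZe y) (fZ y)) :
    pb1 P.xiN P.q2N y = pb1 trans (pb1 P.xiS q2S) y := by
  rw [P.MX3_swap h hu hs]
  unfold pb1
  rw [P.SC_q2 (y := P.xiN y) h.Ta hu]
  rfl

theorem trans_O0 (P : FPar) (h : P.Ok2) {p : FP} (hu : P.s2 + 1 < Complex.normSq (fU p))
    (hq : fZe p ≠ 0 ∨ fZ p ≠ 0) (hs : fS p ≠ 0 ∨ 1 < qsq (fZe p) (fZ p)) (a b : FP) :
    pb2 trans P.omOS0 p a b = P.omO0 p a b := by
  have hTa := h.Ta
  have hU := P.SC_U0 hTa hu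
  have hq0 : qsq (fZe p) (fZ p) ≠ 0 := by
    unfold qsq
    rcases hq with hq | hq
    · have h1 := Complex.normSq_pos.mpr hq
      have h2 := Complex.normSq_nonneg (fZ p)
      linarith
    · have h1 := Complex.normSq_pos.mpr hq
      have h2 := Complex.normSq_nonneg (fZe p)
      linarith
  have hs' : fS (trans p) ≠ 0 ∨ 1 < qsq (fZe (trans p)) (fZ (trans p)) := by
    rw [SC_qsq hU]
    exact hs
  have hqx : qsq (fZe (P.xiS (trans p))) (fZ (P.xiS (trans p))) = qsq (fZe p) (fZ p) := by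
    rw [P.xiS_eq, (P.xiW_qsq 1 (by simp) (trans p)).1, SC_qsq hU]
  have hlS : DifferentiableAt ℝ P.lS0 (P.xiS (trans p)) := by
    apply P.SC_lS0d h.r0
    · rw [hqx]
      exact hq0
    · rw [hqx]
      rcases hs with hs | hs
      · exact Or.inl hs
      · right
        have h1 := h.r0
        have h2 := h.r1
        nlinarith
  have hl : DifferentiableAt ℝ (pb1 P.xiS P.lS0) (trans p) :=
    MX3_pbd (P.MX3_xiS h hs') hlS
  have h1 : dd (fun p => pb1 P.xiN P.lN0 p + (P.eps * P.chip p) • P.etaN p) p =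
      dd (fun y => pb1 trans (pb1 P.xiS P.lS0) y + ((P.s2 + 3) / 2) • SC_th y) p := by
    apply dd_congr
    filter_upwards [P.SC_ev hu, MX3_open.mem_nhds hs] with y hy hys
    rw [P.MX3_l0 h hy hys, P.MX3_eta hTa hy, smul_zero, add_zero]
  have h2 := dd_pb1 ((SC_sm hU).of_le (by norm_cast)) hl
  unfold omOS0 omO0
  rw [h1, dd_add (SC_pbd hU hl) ((SC_thd hU).fun_const_smul _), dd_const_smul _ (SC_thd hU), h2]
  change _ = pb2 trans (dd (pb1 P.xiS P.lS0)) p a b + (P.s2 + 3) / 2 * dd SC_th p a b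
  rw [SC_dd_th hU, mul_zero, add_zero]

theorem trans_Om (P : FPar) (h : P.Ok2) {p a b : FP} (hp : p ∈ FPS P.La)
    (hu : P.s2 + 1 < Complex.normSq (fU p)) (hs : fS p < 0)
    (hq : qsq (fZe p) (fZ p) < P.rb ^ 2 / 4)
    (ha : IsTangent (FPS P.La) p a) (hb : IsTangent (FPS P.La) p b) :
    pb2 trans P.omOSm p a b = P.omOm p a b := by
  have hTa := h.Ta
  have hU := P.SC_U0 hTa hu
  have hs0 : fS p ≠ 0 ∨ 1 < qsq (fZe p) (fZ p) := Or.inl hs.ne
  have hs' : fS (trans p) ≠ 0 ∨ 1 < qsq (fZe (trans p)) (fZ (trans p)) := Or.inl hs.ne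
  obtain ⟨l, hl⟩ : ∃ l : Form1 FP, l = fun p => bS p + pb1 P.xiS q2S p := ⟨_, rfl⟩
  have hld : DifferentiableAt ℝ l (trans p) := by
    rw [hl]
    have h1 : DifferentiableAt ℝ q2S (P.xiS (trans p)) :=
      ((SC_imd pZe _).fun_add (SC_imd pZ _)).fun_const_smul _
    exact ((SC_imd pU _).fun_const_smul _).fun_add (MX3_pbd (P.MX3_xiS h hs') h1)
  have hg : HasFDerivAt (fun y : FP => (P.s2 + 3) / 2 - P.eps * ((1 - fH0 y) / 2))
      ((P.eps / 2) • pH0) p := by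
    have h1 := ((pH0.hasFDerivAt (x := p)).const_smul (P.eps / 2)).const_add
      ((P.s2 + 3) / 2 - P.eps / 2)
    refine h1.congr_of_eventuallyEq (Filter.Eventually.of_forall fun y => ?_)
    change (P.s2 + 3) / 2 - P.eps * ((1 - fH0 y) / 2) =
      (P.s2 + 3) / 2 - P.eps / 2 + P.eps / 2 * fH0 y
    ring
  have h1 : dd (fun p => P.bN p + pb1 P.xiN P.q2N p -
        (P.eps * ((1 - fH0 p) / 2)) • P.aN p) p =
      dd (fun y => pb1 trans l y +
        ((P.s2 + 3) / 2 - P.eps * ((1 - fH0 y) / 2)) • SC_th y) p := by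
    apply dd_congr
    filter_upwards [P.SC_ev hu, MX3_open.mem_nhds hs0] with y hy hys
    rw [P.MX3_q2 h hy hys, P.SC_bN hTa hy, P.SC_aN hTa hy, hl]
    apply ContinuousLinearMap.ext
    intro a
    change bS (trans y) (fderiv ℝ trans y a) + (P.s2 + 3) / 2 * SC_th y a +
        pb1 P.xiS q2S (trans y) (fderiv ℝ trans y a) - P.eps * ((1 - fH0 y) / 2) * SC_th y a =
      bS (trans y) (fderiv ℝ trans y a) + pb1 P.xiS q2S (trans y) (fderiv ℝ trans y a) +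
        ((P.s2 + 3) / 2 - P.eps * ((1 - fH0 y) / 2)) * SC_th y a
    ring
  have h2 := dd_pb1 ((SC_sm hU).of_le (by norm_cast)) hld
  unfold omOSm omOm
  rw [pb2_apply, h1, dd_add (SC_pbd hU hld) (hg.differentiableAt.fun_smul (SC_thd hU)),
    dd_smul hg.differentiableAt (SC_thd hU), h2, hg.fderiv]
  change dd (fun p => bS p + pb1 P.xiS q2S p) (trans p) (fderiv ℝ trans p a) (fderiv ℝ trans p b) -
      P.eps * areaF (trans p) (fderiv ℝ trans p a) (fderiv ℝ trans p b) =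
    dd l (trans p) (fderiv ℝ trans p a) (fderiv ℝ trans p b) +
      (wdg ((P.eps / 2) • pH0) (SC_th p) a b +
        ((P.s2 + 3) / 2 - P.eps * ((1 - fH0 p) / 2)) * dd SC_th p a b) - P.eps * areaF p a b
  rw [SC_dd_th hU, wdg_apply, SC_areaF hU hp ha hb, ← hl]
  change _ = _ + (P.eps / 2 * fH0 a * SC_th p b - SC_th p a * (P.eps / 2 * fH0 b) + _) - _
  ring

end FPar

end Pool.Agent.H34.SY
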