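import Pool.Agent.H34.SY.Geo

/-!
# Row WD: `M` is compact and connected

`M = {z ∈ WS La | t = Re ζ}` is the image of the compact connected space
`S³ × S³ × S²` (`p, e ∈ ℂ²` unit vectors, `(y, s) ∈ ℂ × ℝ` with `|y|²+s² = La²`) under the continuous map
`Θ : (p, e, y, s) ↦` the point with
`w₁ = |p₀|²-|p₁|²`, `w = 2 conj p₀ p₁`, `h₀ = |e₀|²-|e₁|²`, `ζ = e₀ y`, `z = e₁ y`, `h = 2 conj e₀ e₁`,
`v = z p`, `k = h p`, `t = Re ζ`.
* `Θ` lands in `M`: polynomial identities, e.g. `(1+w₁) v₁ = 2|p₀|² z p₁ = w v₀` because `1+w₁ = 2|p₀|²`;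
  `(1+h₀) v₀ = 2|e₀|² z p₀ = 2 |e₀|² e₁ y p₀ = ζ k₀` because `ζ k₀ = e₀ y · 2 conj e₀ e₁ p₀`;
  `(1-h₀) ζ = 2|e₁|² e₀ y = conj h z (|p₀|²+|p₁|²)`, where `conj k₀ v₀ + conj k₁ v₁ = conj h z |p|²`.
* `Θ` is onto: given a point of `M`, if `w₁ > -1` put `p₀ = √((1+w₁)/2)` (real), `p₁ = w/(2 p₀)`; if
  `w₁ = -1` put `p = (0,1)`.  Then `v = z p` and `k = h p` with `z = conj p₀ v₀ + conj p₁ v₁`,
  `h = conj p₀ k₀ + conj p₁ k₁`, because of the first equations of `WS`.  Then `h₀² + |h|² = 1`,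
  `(1+h₀) z = ζ h`, `(1-h₀) ζ = conj h z`; if `h₀ > -1`: `e₀ = √((1+h₀)/2)`, `e₁ = h/(2 e₀)`,
  `y = conj e₀ ζ + conj e₁ z`; if `h₀ = -1`: `e = (0, 1)`, `y = z` (`ζ = 0`).
Connectedness: unit spheres of real normed spaces of dimension > 1 are connected
(`isConnected_sphere`, `isPreconnected_sphere`; use e.g. `EuclideanSpace ℂ (Fin 2)` or
`WithLp 2 (ℂ × ℂ)`, `WithLp 2 (ℂ × ℝ)`, `Module.rank` ≥ 2), product of connected sets `IsConnected.prod`,
image `IsConnected.image`.  Compactness: `isCompact_sphere`, `IsCompact.prod`, `IsCompact.image`.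
-/

open Set Topology
open scoped ContDiff ComplexConjugate

namespace Pool.Agent.H34.SY

/-- the Hopf map is onto. -/
lemma WD_hopf (a : ℝ) (b : ℂ) (h : a ^ 2 + Complex.normSq b = 1) :
    ∃ p q : ℂ, Complex.normSq p + Complex.normSq q = 1 ∧ Complex.normSq p - Complex.normSq q = a ∧
      2 * conj p * q = b := by
  have hb0 : 0 ≤ Complex.normSq b := Complex.normSq_nonneg b
  by_cases ha : 1 + a = 0
  · have ha' : a = -1 := by linarith
    have hb : Complex.normSq b = 0 := by rw [ha'] at h; linarith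
    refine ⟨0, 1, by simp, by simp [ha'], ?_⟩
    rw [Complex.normSq_eq_zero.1 hb]; simp
  · have hpos : 0 < 1 + a := by
      rcases lt_or_gt_of_ne ha with h1 | h1
      · nlinarith
      · exact h1
    obtain ⟨r, hr⟩ : ∃ r : ℝ, r = Real.sqrt ((1 + a) / 2) := ⟨_, rfl⟩
    have hr0 : 0 < r := by rw [hr]; exact Real.sqrt_pos.2 (by positivity)
    have hr2 : r ^ 2 = (1 + a) / 2 := by rw [hr]; exact Real.sq_sqrt (by positivity)
    have hrc : (r : ℂ) ≠ 0 := by exact_mod_cast hr0.ne'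
    have n1 : Complex.normSq (r : ℂ) = (1 + a) / 2 := by rw [Complex.normSq_ofReal, ← hr2]; ring
    have n2 : Complex.normSq ((((2 * r)⁻¹ : ℝ) : ℂ) * b) = (1 - a) / 2 := by
      rw [Complex.normSq_mul, Complex.normSq_ofReal]
      have e1 : (2 * r)⁻¹ * (2 * r)⁻¹ = (2 * (1 + a))⁻¹ := by
        rw [← mul_inv]
        congr 1
        nlinarith
      rw [e1, show Complex.normSq b = (1 + a) * (1 - a) by linarith]
      field_simp
    refine ⟨(r : ℂ), (((2 * r)⁻¹ : ℝ) : ℂ) * b, ?_, ?_, ?_⟩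
    · rw [n1, n2]; ring
    · rw [n1, n2]; ring
    · rw [Complex.conj_ofReal]
      push_cast
      field_simp

/-- the line through a point of the Hopf sphere. -/
lemma WD_line (p q v0 v1 w : ℂ) (a : ℝ) (h1 : Complex.normSq p + Complex.normSq q = 1)
    (h2 : Complex.normSq p - Complex.normSq q = a) (h3 : 2 * conj p * q = w)
    (h4 : ((1 + a : ℝ) : ℂ) * v1 = w * v0) (h5 : ((1 - a : ℝ) : ℂ) * v0 = conj w * v1) :
    (conj p * v0 + conj q * v1) * p = v0 ∧ (conj p * v0 + conj q * v1) * q = v1 := by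
  have g1 : conj p * p + conj q * q = 1 := by
    rw [← Complex.normSq_eq_conj_mul_self, ← Complex.normSq_eq_conj_mul_self, ← Complex.ofReal_add, h1,
      Complex.ofReal_one]
  have g2 : conj p * p - conj q * q = (a : ℂ) := by
    rw [← Complex.normSq_eq_conj_mul_self, ← Complex.normSq_eq_conj_mul_self, ← Complex.ofReal_sub, h2]
  have g3 : 2 * p * conj q = conj w := by
    rw [← h3, map_mul, map_mul, Complex.conj_conj, map_ofNat]
  push_cast at h4 h5
  constructor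
  · linear_combination (v0 / 2) * g1 + (v0 / 2) * g2 + (v1 / 2) * g3 - (1 / 2 : ℂ) * h5
  · linear_combination (v1 / 2) * g1 - (v1 / 2) * g2 + (v0 / 2) * h3 - (1 / 2 : ℂ) * h4

/-- the parametrisation of `M`. -/
noncomputable def WD_map (p0 p1 e0 e1 y : ℂ) (s : ℝ) : EA :=
  ((e0 * y).re, Complex.normSq p0 - Complex.normSq p1, Complex.normSq e0 - Complex.normSq e1, s,
    2 * conj p0 * p1, e0 * y, (e1 * y) * p0, (e1 * y) * p1, (2 * conj e0 * e1) * p0,
    (2 * conj e0 * e1) * p1)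

lemma WD_mem (P : Par) (p0 p1 e0 e1 y : ℂ) (s : ℝ)
    (hp : Complex.normSq p0 + Complex.normSq p1 = 1) (he : Complex.normSq e0 + Complex.normSq e1 = 1)
    (hy : Complex.normSq y + s ^ 2 = P.La ^ 2) : WD_map p0 p1 e0 e1 y s ∈ P.M := by
  have gp : conj p0 * p0 + conj p1 * p1 = 1 := by
    rw [← Complex.normSq_eq_conj_mul_self, ← Complex.normSq_eq_conj_mul_self, ← Complex.ofReal_add, hp,
      Complex.ofReal_one]
  have ge : conj e0 * e0 + conj e1 * e1 = 1 := by
    rw [← Complex.normSq_eq_conj_mul_self, ← Complex.normSq_eq_conj_mul_self, ← Complex.ofReal_add, he,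
      Complex.ofReal_one]
  have n2 : Complex.normSq (2 : ℂ) = 4 := by
    rw [show (2 : ℂ) = ((2 : ℝ) : ℂ) by norm_num, Complex.normSq_ofReal]; norm_num
  refine ⟨⟨?_, ?_, ?_, ?_, ?_, ?_, ?_, ?_, ?_, ?_⟩, rfl⟩
  · show (Complex.normSq p0 - Complex.normSq p1) ^ 2 + Complex.normSq (2 * conj p0 * p1) = 1
    rw [Complex.normSq_mul, Complex.normSq_mul, Complex.normSq_conj, n2]
    linear_combination (Complex.normSq p0 + Complex.normSq p1 + 1) * hp
  · show ((1 + (Complex.normSq p0 - Complex.normSq p1) : ℝ) : ℂ) * ((e1 * y) * p1) =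
      (2 * conj p0 * p1) * ((e1 * y) * p0)
    push_cast
    rw [Complex.normSq_eq_conj_mul_self, Complex.normSq_eq_conj_mul_self]
    linear_combination (-(e1 * y * p1)) * gp
  · show ((1 - (Complex.normSq p0 - Complex.normSq p1) : ℝ) : ℂ) * ((e1 * y) * p0) =
      conj (2 * conj p0 * p1) * ((e1 * y) * p1)
    simp only [map_mul, Complex.conj_conj, map_ofNat]
    push_cast
    rw [Complex.normSq_eq_conj_mul_self, Complex.normSq_eq_conj_mul_self]
    linear_combination (-(e1 * y * p0)) * gp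
  · show ((1 + (Complex.normSq p0 - Complex.normSq p1) : ℝ) : ℂ) * ((2 * conj e0 * e1) * p1) =
      (2 * conj p0 * p1) * ((2 * conj e0 * e1) * p0)
    push_cast
    rw [Complex.normSq_eq_conj_mul_self, Complex.normSq_eq_conj_mul_self]
    linear_combination (-(2 * conj e0 * e1 * p1)) * gp
  · show ((1 - (Complex.normSq p0 - Complex.normSq p1) : ℝ) : ℂ) * ((2 * conj e0 * e1) * p0) =
      conj (2 * conj p0 * p1) * ((2 * conj e0 * e1) * p1)
    simp only [map_mul, Complex.conj_conj, map_ofNat]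
    push_cast
    rw [Complex.normSq_eq_conj_mul_self, Complex.normSq_eq_conj_mul_self]
    linear_combination (-(2 * conj e0 * e1 * p0)) * gp
  · show (Complex.normSq e0 - Complex.normSq e1) ^ 2 + Complex.normSq ((2 * conj e0 * e1) * p0) +
      Complex.normSq ((2 * conj e0 * e1) * p1) = 1
    simp only [Complex.normSq_mul, Complex.normSq_conj, n2]
    linear_combination (Complex.normSq e0 + Complex.normSq e1 + 1) * he +
      (4 * Complex.normSq e0 * Complex.normSq e1) * hp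
  · show ((1 + (Complex.normSq e0 - Complex.normSq e1) : ℝ) : ℂ) * ((e1 * y) * p0) =
      (e0 * y) * ((2 * conj e0 * e1) * p0)
    push_cast
    rw [Complex.normSq_eq_conj_mul_self, Complex.normSq_eq_conj_mul_self]
    linear_combination (-(e1 * y * p0)) * ge
  · show ((1 + (Complex.normSq e0 - Complex.normSq e1) : ℝ) : ℂ) * ((e1 * y) * p1) =
      (e0 * y) * ((2 * conj e0 * e1) * p1)
    push_cast
    rw [Complex.normSq_eq_conj_mul_self, Complex.normSq_eq_conj_mul_self]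
    linear_combination (-(e1 * y * p1)) * ge
  · show ((1 - (Complex.normSq e0 - Complex.normSq e1) : ℝ) : ℂ) * (e0 * y) =
      conj ((2 * conj e0 * e1) * p0) * ((e1 * y) * p0) + conj ((2 * conj e0 * e1) * p1) * ((e1 * y) * p1)
    simp only [map_mul, Complex.conj_conj, map_ofNat]
    push_cast
    rw [Complex.normSq_eq_conj_mul_self, Complex.normSq_eq_conj_mul_self]
    linear_combination (-(e0 * y)) * ge - (2 * e0 * conj e1 * e1 * y) * gp
  · show Complex.normSq (e0 * y) + Complex.normSq ((e1 * y) * p0) + Complex.normSq ((e1 * y) * p1) +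
      s ^ 2 = P.La ^ 2
    simp only [Complex.normSq_mul]
    linear_combination (Complex.normSq y) * he + (Complex.normSq e1 * Complex.normSq y) * hp + hy

lemma WD_onto (P : Par) (z : EA) (hz : z ∈ P.M) : ∃ (p0 p1 e0 e1 y : ℂ) (s : ℝ),
    Complex.normSq p0 + Complex.normSq p1 = 1 ∧ Complex.normSq e0 + Complex.normSq e1 = 1 ∧
    Complex.normSq y + s ^ 2 = P.La ^ 2 ∧ WD_map p0 p1 e0 e1 y s = z := by
  obtain ⟨t, w1, h0, s, w, ze, v0, v1, k0, k1⟩ := z
  obtain ⟨⟨q1, q2, q3, q4, q5, q6, q7, q8, q9, q10⟩, q11⟩ := hz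
  change w1 ^ 2 + Complex.normSq w = 1 at q1
  change ((1 + w1 : ℝ) : ℂ) * v1 = w * v0 at q2
  change ((1 - w1 : ℝ) : ℂ) * v0 = conj w * v1 at q3
  change ((1 + w1 : ℝ) : ℂ) * k1 = w * k0 at q4
  change ((1 - w1 : ℝ) : ℂ) * k0 = conj w * k1 at q5
  change h0 ^ 2 + Complex.normSq k0 + Complex.normSq k1 = 1 at q6
  change ((1 + h0 : ℝ) : ℂ) * v0 = ze * k0 at q7
  change ((1 + h0 : ℝ) : ℂ) * v1 = ze * k1 at q8
  change ((1 - h0 : ℝ) : ℂ) * ze = conj k0 * v0 + conj k1 * v1 at q9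
  change Complex.normSq ze + Complex.normSq v0 + Complex.normSq v1 + s ^ 2 = P.La ^ 2 at q10
  change t = ze.re at q11
  obtain ⟨p0, p1, hp, hw1, hw⟩ := WD_hopf w1 w q1
  obtain ⟨hv0, hv1⟩ := WD_line p0 p1 v0 v1 w w1 hp hw1 hw q2 q3
  obtain ⟨hk0, hk1⟩ := WD_line p0 p1 k0 k1 w w1 hp hw1 hw q4 q5
  obtain ⟨zz, hzz⟩ : ∃ zz : ℂ, zz = conj p0 * v0 + conj p1 * v1 := ⟨_, rfl⟩
  obtain ⟨hh, hhh⟩ : ∃ hh : ℂ, hh = conj p0 * k0 + conj p1 * k1 := ⟨_, rfl⟩
  rw [← hzz] at hv0 hv1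
  rw [← hhh] at hk0 hk1
  have gp : conj p0 * p0 + conj p1 * p1 = 1 := by
    rw [← Complex.normSq_eq_conj_mul_self, ← Complex.normSq_eq_conj_mul_self, ← Complex.ofReal_add, hp,
      Complex.ofReal_one]
  have r1 : h0 ^ 2 + Complex.normSq hh = 1 := by
    rw [← hk0, ← hk1, Complex.normSq_mul, Complex.normSq_mul] at q6
    linear_combination q6 - Complex.normSq hh * hp
  have r2 : ((1 + h0 : ℝ) : ℂ) * zz = hh * ze := by
    rw [hzz, hhh]
    linear_combination conj p0 * q7 + conj p1 * q8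
  have r3 : ((1 - h0 : ℝ) : ℂ) * ze = conj hh * zz := by
    rw [q9, ← hk0, ← hk1, ← hv0, ← hv1]
    simp only [map_mul]
    linear_combination (conj hh * zz) * gp
  obtain ⟨e0, e1, he, hh0, hhe⟩ := WD_hopf h0 hh r1
  obtain ⟨hze, hz1⟩ := WD_line e0 e1 ze zz hh h0 he hh0 hhe r2 r3
  obtain ⟨y, hy⟩ : ∃ y : ℂ, y = conj e0 * ze + conj e1 * zz := ⟨_, rfl⟩
  rw [← hy] at hze hz1
  refine ⟨p0, p1, e0, e1, y, s, hp, he, ?_, ?_⟩
  · rw [← hv0, ← hv1, ← hz1, ← hze] at q10
    simp only [Complex.normSq_mul] at q10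
    linear_combination q10 - Complex.normSq y * he -
      (Complex.normSq y * Complex.normSq e1) * hp
  · show ((e0 * y).re, Complex.normSq p0 - Complex.normSq p1, Complex.normSq e0 - Complex.normSq e1, s,
      2 * conj p0 * p1, e0 * y, (e1 * y) * p0, (e1 * y) * p1, (2 * conj e0 * e1) * p0,
      (2 * conj e0 * e1) * p1) = (t, w1, h0, s, w, ze, v0, v1, k0, k1)
    rw [mul_comm e0 y, hze, mul_comm e1 y, hz1, hv0, hv1, hhe, hk0, hk1, hw, hw1, hh0, q11]

theorem M_compact_connected (P : Par) (hLa : 0 < P.La) : IsCompact P.M ∧ IsConnected P.M := by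
  obtain ⟨Θ, hΘ⟩ : ∃ Θ : EuclideanSpace ℝ (Fin 4) × EuclideanSpace ℝ (Fin 4) × EuclideanSpace ℝ (Fin 3) → EA,
      Θ = fun x => WD_map ⟨x.1 0, x.1 1⟩ ⟨x.1 2, x.1 3⟩ ⟨x.2.1 0, x.2.1 1⟩ ⟨x.2.1 2, x.2.1 3⟩
        ⟨x.2.2 0, x.2.2 1⟩ (x.2.2 2) := ⟨_, rfl⟩
  have hcont : Continuous Θ := by
    have mk : ∀ f g : EuclideanSpace ℝ (Fin 4) × EuclideanSpace ℝ (Fin 4) × EuclideanSpace ℝ (Fin 3) → ℝ,
        Continuous f → Continuous g → Continuous (fun x => (⟨f x, g x⟩ : ℂ)) := by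
      intro f g hf hg
      have : (fun x => (⟨f x, g x⟩ : ℂ)) = fun x => (f x : ℂ) + (g x : ℂ) * Complex.I := by
        funext x
        exact (Complex.re_add_im ⟨f x, g x⟩).symm
      rw [this]
      fun_prop
    have c1 := mk (fun x => x.1 0) (fun x => x.1 1) (by fun_prop) (by fun_prop)
    have c2 := mk (fun x => x.1 2) (fun x => x.1 3) (by fun_prop) (by fun_prop)
    have c3 := mk (fun x => x.2.1 0) (fun x => x.2.1 1) (by fun_prop) (by fun_prop)
    have c4 := mk (fun x => x.2.1 2) (fun x => x.2.1 3) (by fun_prop) (by fun_prop)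
    have c5 := mk (fun x => x.2.2 0) (fun x => x.2.2 1) (by fun_prop) (by fun_prop)
    have hc := Complex.continuous_conj
    have hn := Complex.continuous_normSq
    rw [hΘ]
    unfold WD_map
    refine Continuous.prodMk (Complex.continuous_re.comp (c3.mul c5)) ?_
    refine Continuous.prodMk ((hn.comp c1).sub (hn.comp c2)) ?_
    refine Continuous.prodMk ((hn.comp c3).sub (hn.comp c4)) ?_
    refine Continuous.prodMk (by fun_prop) ?_
    refine Continuous.prodMk ((continuous_const.mul (hc.comp c1)).mul c2) ?_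
    refine Continuous.prodMk (c3.mul c5) ?_
    refine Continuous.prodMk ((c4.mul c5).mul c1) ?_
    refine Continuous.prodMk ((c4.mul c5).mul c2) ?_
    exact Continuous.prodMk (((continuous_const.mul (hc.comp c3)).mul c4).mul c1)
      (((continuous_const.mul (hc.comp c3)).mul c4).mul c2)
  obtain ⟨Kc, hK⟩ : ∃ Kc : Set (EuclideanSpace ℝ (Fin 4) × EuclideanSpace ℝ (Fin 4) × EuclideanSpace ℝ (Fin 3)),
      Kc = Metric.sphere 0 1 ×ˢ Metric.sphere 0 1 ×ˢ Metric.sphere 0 P.La := ⟨_, rfl⟩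
  have hn4 : ∀ x : EuclideanSpace ℝ (Fin 4), x ∈ Metric.sphere (0 : EuclideanSpace ℝ (Fin 4)) 1 ↔
      Complex.normSq ⟨x 0, x 1⟩ + Complex.normSq ⟨x 2, x 3⟩ = 1 := by
    intro x
    rw [mem_sphere_zero_iff_norm, ← sq_eq_sq₀ (norm_nonneg _) (by norm_num), EuclideanSpace.norm_sq_eq,
      Fin.sum_univ_four, Complex.normSq_mk, Complex.normSq_mk]
    simp only [Real.norm_eq_abs, sq_abs]
    constructor <;> intro h <;> linarith
  have hn3 : ∀ x : EuclideanSpace ℝ (Fin 3), x ∈ Metric.sphere (0 : EuclideanSpace ℝ (Fin 3)) P.La ↔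
      Complex.normSq ⟨x 0, x 1⟩ + (x 2) ^ 2 = P.La ^ 2 := by
    intro x
    rw [mem_sphere_zero_iff_norm, ← sq_eq_sq₀ (norm_nonneg _) hLa.le, EuclideanSpace.norm_sq_eq,
      Fin.sum_univ_three, Complex.normSq_mk]
    simp only [Real.norm_eq_abs, sq_abs]
    constructor <;> intro h <;> linarith
  have himg : P.M = Θ '' Kc := by
    apply Set.Subset.antisymm
    · intro z hz
      obtain ⟨p0, p1, e0, e1, y, s, hp, he, hy, hm⟩ := WD_onto P z hz
      refine ⟨(!₂[p0.re, p0.im, p1.re, p1.im], !₂[e0.re, e0.im, e1.re, e1.im], !₂[y.re, y.im, s]), ?_, ?_⟩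
      · rw [hK]
        exact ⟨(hn4 _).2 hp, (hn4 _).2 he, (hn3 _).2 hy⟩
      · rw [hΘ]
        exact hm
    · rintro _ ⟨x, hx, rfl⟩
      rw [hK] at hx
      rw [hΘ]
      exact WD_mem P _ _ _ _ _ _ ((hn4 _).1 hx.1) ((hn4 _).1 hx.2.1) ((hn3 _).1 hx.2.2)
  have hcomp : IsCompact Kc := by
    rw [hK]
    exact (isCompact_sphere _ _).prod ((isCompact_sphere _ _).prod (isCompact_sphere _ _))
  have hconn : IsConnected Kc := by
    have r4 : 1 < Module.rank ℝ (EuclideanSpace ℝ (Fin 4)) := by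
      rw [← Module.finrank_eq_rank, finrank_euclideanSpace_fin]
      norm_num
    have r3 : 1 < Module.rank ℝ (EuclideanSpace ℝ (Fin 3)) := by
      rw [← Module.finrank_eq_rank, finrank_euclideanSpace_fin]
      norm_num
    rw [hK]
    exact (isConnected_sphere r4 _ zero_le_one).prod ((isConnected_sphere r4 _ zero_le_one).prod
      (isConnected_sphere r3 _ hLa.le))
  rw [himg]
  exact ⟨hcomp.image hcont, hconn.image _ hcont.continuousOn⟩

end Pool.Agent.H34.SY
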