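import Pool.Agent.H34.SY.SJ
import Pool.Agent.H34.SY.SD2
import Pool.Agent.H34.SY.SC
import Pool.Agent.H34.SY.CC
import Pool.Agent.H34.SY.CG
import Pool.Agent.H34.SY.WD
import Pool.Agent.H34.SY.Spec

/-!
# Row SK: the symplectic form of `M`

Glue (`glue_closed`) the six forms
0: `pb2 rhoN omN0` on `{-1 < w₁} ∩ rhoN⁻¹ Dq`;  1: `pb2 rhoN omNm` on `{-1 < w₁} ∩ rhoN⁻¹ {s < 0, |q|² < r0²/4}`;
2: `pb2 rhoN omNp` on `.. {0 < s, |q|² < 1}`;  3, 4, 5: `pb2 rhoS omS0/omSm/omSp` on `{w₁ < 1} ∩ rhoS⁻¹ ({|u|² < 1/(s2+1)} ∩ ..)`.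
Closedness: `IsClosedForm.pb` with the closed forms on (parts of) `FPS La` (row SD1).  Agreement at `z` in two of the sets:
if `q ≠ 0` every form equals the form off `q = 0` of its side (row SD2), and `omN0`, `omS0` correspond (`trans_l0`,
`rhoS_trans_tangent`; on the overlap `|u_N|² = 1/|u_S|² > s2 + 1`); if `q = 0` then `s = ±La`, so both forms are of type
`m` (resp. `p`): `trans_m`, `trans_p`.  Covering: `-1 < w₁` or `w₁ = -1` (then `u_S = 0`).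
Nondegeneracy: row SJ with `X = M`, `τ p = Re ζ`, `W = univ`; `isSymplectic_of_nonDeg`, where `IsMfd R6 P.M` follows from the
charts `TChart.graphN/S` (`exists_tchart`) and a linear isomorphism `H6 ≃L R6` (`IsChart.equiv`, finrank 6).
-/

open Set Topology
open scoped ContDiff ComplexConjugate

namespace Pool.Agent.H34.SY

theorem finrank_H6 : Module.finrank ℝ H6 = 6 := by
  simp [H6, Module.finrank_prod, Complex.finrank_real_complex]

/-- A manifold modelled on `H6` is modelled on `R6`. -/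
theorem IsMfd.toR6 {E : Type} [NormedAddCommGroup E] [NormedSpace ℝ E] {X : Set E}
    (h : IsMfd H6 X) : IsMfd R6 X := by
  have hf : Module.finrank ℝ H6 = Module.finrank ℝ R6 := by
    rw [finrank_H6, finrank_euclideanSpace, Fintype.card_fin]
  intro z hz
  obtain ⟨U, V, ρ, ψ, hU, hc⟩ := h z hz
  exact ⟨U, _, _, _, hU, hc.equiv (ContinuousLinearEquiv.ofFinrankEq hf)⟩

theorem SK_re : ContDiff ℝ ∞ (fun p : FP => (fZe p).re) :=
  Complex.reCLM.contDiff.comp FPar.SD1_Ze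

/-- Block W. -/
theorem M_mfd (P : Par) (hLa : 0 < P.La) : IsMfd H6 P.M := by
  intro z hz
  rcases lt_or_ge (-1) (eW1 z) with h1 | h1
  · obtain ⟨hp, _⟩ := rhoN_mem hz.1 h1
    obtain ⟨U, V, ρ, c, hU, hc⟩ := exists_tchart hLa hp
    refine ⟨{z | -1 < eW1 z} ∩ rhoN ⁻¹' U, _, _, _, ⟨h1, hU⟩, hc.graphN (fun p => (fZe p).re) SK_re.contDiffOn
      (fun _ _ => rfl) P.M (fun _ h => h.1) ?_⟩
    intro y hy _ _
    exact ⟨fun h => h.2, fun h => ⟨hy, h⟩⟩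
  · have h2 : eW1 z < 1 := by linarith
    obtain ⟨hp, _⟩ := rhoS_mem hz.1 h2
    obtain ⟨U, V, ρ, c, hU, hc⟩ := exists_tchart hLa hp
    refine ⟨{z | eW1 z < 1} ∩ rhoS ⁻¹' U, _, _, _, ⟨h2, hU⟩, hc.graphS (fun p => (fZe p).re) SK_re.contDiffOn
      (fun _ _ => rfl) P.M (fun _ h => h.1) ?_⟩
    intro y hy _ _
    exact ⟨fun h => h.2, fun h => ⟨hy, h⟩⟩

theorem M_closed_mfd : MSpec := by
  intro P hLa
  obtain ⟨h1, h2⟩ := M_compact_connected P hLa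
  exact ⟨(M_mfd P hLa).toR6, h1, h2⟩

namespace FPar

/-- The three kinds of regions. -/
def SK_D (P : FPar) : Fin 3 → Set FP
  | 0 => P.Dq
  | 1 => {p | fS p < 0 ∧ qsq (fZe p) (fZ p) < P.r0 ^ 2 / 4}
  | 2 => {p | 0 < fS p ∧ qsq (fZe p) (fZ p) < 1}

noncomputable def SK_N (P : FPar) : Fin 3 → Form FP
  | 0 => P.omN0
  | 1 => P.omNm
  | 2 => P.omNp

noncomputable def SK_S (P : FPar) : Fin 3 → Form FP
  | 0 => P.omS0
  | 1 => P.omSm
  | 2 => P.omSp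

theorem SK_open (P : FPar) (k : Fin 3) : IsOpen (SK_D P k) := by
  match k with
  | 0 => exact P.isOpen_Dq
  | 1 =>
    exact (isOpen_lt SD1_S.continuous continuous_const).inter
      (isOpen_lt SD1_qsq.continuous continuous_const)
  | 2 =>
    exact (isOpen_lt continuous_const SD1_S.continuous).inter
      (isOpen_lt SD1_qsq.continuous continuous_const)

theorem SK_closedN (P : FPar) (h : P.Ok0) (k : Fin 3) :
    IsClosedForm (FPS P.La ∩ SK_D P k) (SK_N P k) := by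
  match k with
  | 0 => exact P.closed_N0 h
  | 1 => exact (P.closed_Nm h).mono (SK_open P 1)
  | 2 => exact (P.closed_Np h).mono (SK_open P 2)

theorem SK_closedS (P : FPar) (h : P.Ok0) (k : Fin 3) :
    IsClosedForm (FPS P.La ∩ SK_D P k) (SK_S P k) := by
  match k with
  | 0 => exact P.closed_S0 h
  | 1 => exact (P.closed_Sm h).mono (SK_open P 1)
  | 2 => exact (P.closed_Sp h).mono (SK_open P 2)

theorem SK_agN (P : FPar) (h : P.Ok0) (j k : Fin 3) {p a b : FP} (hp : p ∈ FPS P.La)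
    (hj : p ∈ SK_D P j) (hk : p ∈ SK_D P k) (ha : IsTangent (FPS P.La) p a)
    (hb : IsTangent (FPS P.La) p b) : SK_N P j p a b = SK_N P k p a b := by
  match j, k with
  | 0, 0 => rfl
  | 1, 1 => rfl
  | 2, 2 => rfl
  | 0, 1 => exact P.agree_Nm h hp hj.1 hk.1 hk.2 ha hb
  | 1, 0 => exact (P.agree_Nm h hp hk.1 hj.1 hj.2 ha hb).symm
  | 0, 2 => exact P.agree_Np h hp hj.1 hk.1 hk.2 ha hb
  | 2, 0 => exact (P.agree_Np h hp hk.1 hj.1 hj.2 ha hb).symm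
  | 1, 2 => exact absurd (hj.1.trans hk.1) (lt_irrefl _)
  | 2, 1 => exact absurd (hk.1.trans hj.1) (lt_irrefl _)

theorem SK_agS (P : FPar) (h : P.Ok0) (j k : Fin 3) {p a b : FP} (hp : p ∈ FPS P.La)
    (hj : p ∈ SK_D P j) (hk : p ∈ SK_D P k) (ha : IsTangent (FPS P.La) p a)
    (hb : IsTangent (FPS P.La) p b) : SK_S P j p a b = SK_S P k p a b := by
  match j, k with
  | 0, 0 => rfl
  | 1, 1 => rfl
  | 2, 2 => rfl
  | 0, 1 => exact P.agree_Sm h hp hj.1 hk.1 hk.2 ha hb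
  | 1, 0 => exact (P.agree_Sm h hp hk.1 hj.1 hj.2 ha hb).symm
  | 0, 2 => exact P.agree_Sp h hp hj.1 hk.1 hk.2 ha hb
  | 2, 0 => exact (P.agree_Sp h hp hk.1 hj.1 hj.2 ha hb).symm
  | 1, 2 => exact absurd (hj.1.trans hk.1) (lt_irrefl _)
  | 2, 1 => exact absurd (hk.1.trans hj.1) (lt_irrefl _)

theorem SK_trans (P : FPar) (h : P.Ok0) (k : Fin 3) {p a b : FP} (hp : p ∈ FPS P.La)
    (hk : p ∈ SK_D P k) (hu : P.s2 + 1 < Complex.normSq (fU p)) (ha : IsTangent (FPS P.La) p a)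
    (hb : IsTangent (FPS P.La) p b) : pb2 trans (SK_S P k) p a b = SK_N P k p a b := by
  match k with
  | 0 => exact P.trans_l0 h.Ta hu hk.1 hk.2 h.r0 a b
  | 1 => exact P.trans_m h.Ta hp hu ha hb
  | 2 => exact P.trans_p h.Ta hp hu ha hb

theorem SK_same (P : FPar) {z : EA} (hz : z ∈ WS P.La) (h1 : -1 < eW1 z) (h2 : eW1 z < 1)
    (k : Fin 3) (hk : rhoS z ∈ SK_D P k) : rhoN z ∈ SK_D P k := by
  obtain ⟨_, _, e3, e4, e5⟩ := rhoS_same hz h1 h2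
  have e6 : qsq (fZe (rhoN z)) (fZ (rhoN z)) = qsq (fZe (rhoS z)) (fZ (rhoS z)) := by
    unfold qsq
    rw [e3, e5]
  match k with
  | 0 =>
    obtain ⟨h3, h4⟩ := hk
    refine ⟨?_, ?_⟩
    · rcases h3 with h3 | h3
      · left
        rwa [e3] at h3
      · right
        intro h5
        rw [h5, map_zero] at e5
        exact h3 (Complex.normSq_eq_zero.1 e5)
    · rw [e6, ← e4]
      exact h4
  | 1 =>
    obtain ⟨h3, h4⟩ := hk
    refine ⟨?_, ?_⟩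
    · rwa [e4] at h3
    · rwa [← e6] at h4
  | 2 =>
    obtain ⟨h3, h4⟩ := hk
    refine ⟨?_, ?_⟩
    · rwa [e4] at h3
    · rwa [← e6] at h4

/-- The six regions of `EA`. -/
def SK_U (P : FPar) (i : Bool × Fin 3) : Set EA :=
  if i.1 = true then {z | -1 < eW1 z} ∩ rhoN ⁻¹' (SK_D P i.2)
  else {z | eW1 z < 1} ∩ rhoS ⁻¹' ({p | Complex.normSq (fU p) < (P.s2 + 1)⁻¹} ∩ SK_D P i.2)

noncomputable def SK_Om (P : FPar) (i : Bool × Fin 3) : Form EA :=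
  if i.1 = true then pb2 rhoN (SK_N P i.2) else pb2 rhoS (SK_S P i.2)

theorem SK_oN : IsOpen {z : EA | -1 < eW1 z} := isOpen_lt continuous_const WB_cont_W1
theorem SK_oS : IsOpen {z : EA | eW1 z < 1} := isOpen_lt WB_cont_W1 continuous_const

theorem SK_oD (P : FPar) (k : Fin 3) :
    IsOpen ({p : FP | Complex.normSq (fU p) < (P.s2 + 1)⁻¹} ∩ SK_D P k) :=
  (isOpen_lt SD1_nU.continuous continuous_const).inter (SK_open P k)

theorem SK_Uopen (P : FPar) (i : Bool × Fin 3) : IsOpen (SK_U P i) := by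
  obtain ⟨i, k⟩ := i
  cases i
  · exact contDiffOn_rhoS.continuousOn.isOpen_inter_preimage SK_oS (SK_oD P k)
  · exact contDiffOn_rhoN.continuousOn.isOpen_inter_preimage SK_oN (SK_open P k)

theorem SK_cl (P : FPar) (h : P.Ok0) {X : Set EA} (hX : X ⊆ WS P.La) (i : Bool × Fin 3) :
    IsClosedForm (X ∩ SK_U P i) (SK_Om P i) := by
  have hUo := SK_Uopen P i
  obtain ⟨i, k⟩ := i
  cases i
  · refine IsClosedForm.pb (Y := FPS P.La ∩ SK_D P k) hUo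
      (contDiffOn_rhoS.mono (fun z hz => hz.1)) ?_ (SK_closedS P h k)
    intro z hz
    exact ⟨(rhoS_mem (hX hz.1) hz.2.1).1, hz.2.2.2⟩
  · refine IsClosedForm.pb (Y := FPS P.La ∩ SK_D P k) hUo
      (contDiffOn_rhoN.mono (fun z hz => hz.1)) ?_ (SK_closedN P h k)
    intro z hz
    exact ⟨(rhoN_mem (hX hz.1) hz.2.1).1, hz.2.2⟩

theorem SK_mix (P : FPar) (h : P.Ok0) {X : Set EA} (hX : X ⊆ WS P.La) (j k : Fin 3) {z : EA}
    (hz : z ∈ X) (hj : z ∈ SK_U P (true, j)) (hk : z ∈ SK_U P (false, k)) {a b : EA}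
    (ha : IsTangent X z a) (hb : IsTangent X z b) :
    SK_Om P (true, j) z a b = SK_Om P (false, k) z a b := by
  obtain ⟨h1, hj⟩ := hj
  obtain ⟨h2, hk1, hk⟩ := hk
  change -1 < eW1 z at h1
  change eW1 z < 1 at h2
  change Complex.normSq (fU (rhoS z)) < (P.s2 + 1)⁻¹ at hk1
  have hW := hX hz
  obtain ⟨hu1, hu2⟩ := normSq_U hW h1 h2
  have hs2 := SB_s2_pos P h.Ta
  have hu : P.s2 + 1 < Complex.normSq (fU (rhoN z)) := by
    rw [hu1] at hk1
    exact (inv_lt_inv₀ hu2 (by linarith)).1 hk1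
  have hkN := SK_same P hW h1 h2 k hk
  have hp := (rhoN_mem hW h1).1
  have ha' := rhoN_tangent hX hz h1 ha
  have hb' := rhoN_tangent hX hz h1 hb
  show SK_N P j (rhoN z) (fderiv ℝ rhoN z a) (fderiv ℝ rhoN z b) =
    SK_S P k (rhoS z) (fderiv ℝ rhoS z a) (fderiv ℝ rhoS z b)
  rw [SK_agN P h j k hp hj hkN ha' hb', ← SK_trans P h k hp hkN hu ha' hb', pb2_apply,
    ← rhoS_trans_tangent hX hz h1 h2 ha, ← rhoS_trans_tangent hX hz h1 h2 hb,
    ← (rhoS_eq hW h1 h2).2]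

theorem SK_comp (P : FPar) (h : P.Ok0) {X : Set EA} (hX : X ⊆ WS P.La) (i j : Bool × Fin 3)
    (z : EA) (hz : z ∈ X) (hi : z ∈ SK_U P i) (hj : z ∈ SK_U P j) (a b : EA)
    (ha : IsTangent X z a) (hb : IsTangent X z b) : SK_Om P i z a b = SK_Om P j z a b := by
  obtain ⟨i, k⟩ := i
  obtain ⟨j, l⟩ := j
  cases i <;> cases j
  · exact SK_agS P h k l (rhoS_mem (hX hz) hi.1).1 hi.2.2 hj.2.2 (rhoS_tangent hX hz hi.1 ha)
      (rhoS_tangent hX hz hi.1 hb)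
  · exact (SK_mix P h hX l k hz hj hi ha hb).symm
  · exact SK_mix P h hX k l hz hi hj ha hb
  · exact SK_agN P h k l (rhoN_mem (hX hz) hi.1).1 hi.2 hj.2 (rhoN_tangent hX hz hi.1 ha)
      (rhoN_tangent hX hz hi.1 hb)

/-- the region of a point of `FPS`. -/
theorem SK_kind (P : FPar) (h : P.Ok0) {p : FP} (hp : p ∈ FPS P.La) :
    ((fZe p ≠ 0 ∨ fZ p ≠ 0) ∧ p ∈ SK_D P 0) ∨ ((fZe p = 0 ∧ fZ p = 0) ∧ p ∈ SK_D P 1) ∨
      ((fZe p = 0 ∧ fZ p = 0) ∧ p ∈ SK_D P 2) := by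
  by_cases hq : fZe p ≠ 0 ∨ fZ p ≠ 0
  · exact Or.inl ⟨hq, P.Dq_of h hp hq⟩
  · right
    push Not at hq
    have h4 := hp.2.2.2
    have h5 := h.La
    have h6 := h.r0
    rw [hq.1, hq.2, map_zero] at h4
    have h7 : qsq (fZe p) (fZ p) = 0 := by
      unfold qsq
      rw [hq.1, hq.2, map_zero, add_zero]
    rcases lt_trichotomy (fS p) 0 with h8 | h8 | h8
    · left
      refine ⟨hq, h8, ?_⟩
      rw [h7]
      positivity
    · rw [h8] at h4
      nlinarith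
    · right
      refine ⟨hq, h8, ?_⟩
      rw [h7]
      norm_num

theorem SK_wm {La : ℝ} {z : EA} (hz : z ∈ WS La) (h : ¬ -1 < eW1 z) :
    eW1 z < 1 ∧ fU (rhoS z) = 0 := by
  have h1 := hz.1
  have h2 := Complex.normSq_nonneg (eW z)
  have h3 : eW1 z = -1 := by
    push Not at h
    nlinarith
  have h4 : Complex.normSq (eW z) = 0 := by
    rw [h3] at h1
    linarith
  refine ⟨by linarith, ?_⟩
  show (((1 - eW1 z)⁻¹ : ℝ) : ℂ) * eW z = 0
  rw [Complex.normSq_eq_zero.1 h4, mul_zero]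

theorem SK_base0 (P : FPar) (h : P.Ok0) {z : EA} (hu : fU (rhoS z) = 0) :
    Complex.normSq (fU (rhoS z)) < (P.s2 + 1)⁻¹ := by
  have := SB_s2_pos P h.Ta
  rw [hu, map_zero]
  exact inv_pos.2 (by linarith)

theorem SK_cov (P : FPar) (h : P.Ok0) {z : EA} (hz : z ∈ WS P.La) : ∃ i, z ∈ SK_U P i := by
  by_cases h1 : -1 < eW1 z
  · rcases SK_kind P h (rhoN_mem hz h1).1 with h2 | h2 | h2
    · exact ⟨(true, 0), h1, h2.2⟩
    · exact ⟨(true, 1), h1, h2.2⟩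
    · exact ⟨(true, 2), h1, h2.2⟩
  · obtain ⟨h3, h4⟩ := SK_wm hz h1
    have h5 := SK_base0 P h h4
    rcases SK_kind P h (rhoS_mem hz h3).1 with h2 | h2 | h2
    · exact ⟨(false, 0), h3, h5, h2.2⟩
    · exact ⟨(false, 1), h3, h5, h2.2⟩
    · exact ⟨(false, 2), h3, h5, h2.2⟩

/-- the glued form on a graph over `M_amb`. -/
theorem SK_glue (P : FPar) (h : P.Ok1) {X : Set EA} (hX : X ⊆ WS P.La) (hm : IsMfd R6 X)
    {τ τ' : FP → ℝ} (hN : GraphN P.La X Set.univ τ) (hS : GraphS P.La X Set.univ τ') :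
    ∃ om : Form EA, IsSymplectic X om ∧
    ∀ z ∈ X, -1 < eW1 z → (fZe (rhoN z) ≠ 0 ∨ fZ (rhoN z) ≠ 0) → ∀ a b, IsTangent X z a →
      IsTangent X z b → om z a b = pb2 rhoN P.omN0 z a b := by
  have h0 := h.toOk0
  obtain ⟨om, hcl, hom⟩ := glue_closed (SK_U P) (SK_Om P) (SK_Uopen P) (SK_cl P h0 hX)
    (fun z hz => SK_cov P h0 (hX hz)) (SK_comp P h0 hX)
  refine ⟨om, isSymplectic_of_nonDeg hm hcl ?_, ?_⟩
  · intro z hz
    have hc : ∀ i, z ∈ SK_U P i → NonDegAt X (SK_Om P i) z → NonDegAt X om z :=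
      fun i hi hn => hn.congr (fun a b ha hb => (hom i z hz hi a b ha hb).symm)
    by_cases h1 : -1 < eW1 z
    · rcases SK_kind P h0 (rhoN_mem (hX hz) h1).1 with h2 | h2 | h2
      · exact hc (true, 0) ⟨h1, h2.2⟩ (P.nd_N0 h hN hz h1 (Set.mem_univ _) h2.1)
      · exact hc (true, 1) ⟨h1, h2.2⟩ (P.nd_Nm h hN hz h1 (Set.mem_univ _) h2.1)
      · exact hc (true, 2) ⟨h1, h2.2⟩ (P.nd_Np h hN hz h1 (Set.mem_univ _) h2.1)
    · obtain ⟨h3, h4⟩ := SK_wm (hX hz) h1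
      have h5 := SK_base0 P h0 h4
      rcases SK_kind P h0 (rhoS_mem (hX hz) h3).1 with h2 | h2 | h2
      · exact hc (false, 0) ⟨h3, h5, h2.2⟩ (P.nd_S0 h hS hz h3 (Set.mem_univ _) h2.1)
      · exact hc (false, 1) ⟨h3, h5, h2.2⟩ (P.nd_Sm h hS hz h3 (Set.mem_univ _) h2.1)
      · exact hc (false, 2) ⟨h3, h5, h2.2⟩ (P.nd_Sp h hS hz h3 (Set.mem_univ _) h2.1)
  · intro z hz h1 hq a b ha hb
    exact hom (true, 0) z hz ⟨h1, P.Dq_of h0 (rhoN_mem (hX hz) h1).1 hq⟩ a b ha hb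

theorem M_form (P : FPar) (h : P.Ok1) : ∃ om : Form EA, IsSymplectic P.M om ∧
    ∀ z ∈ P.M, -1 < eW1 z → (fZe (rhoN z) ≠ 0 ∨ fZ (rhoN z) ≠ 0) → ∀ a b, IsTangent P.M z a →
      IsTangent P.M z b → om z a b = pb2 rhoN P.omN0 z a b := by
  have hLa : 0 < P.La := by linarith [h.La]
  refine SK_glue P h (fun _ hz => hz.1) (M_mfd P.toPar hLa).toR6 (τ := fun p => (fZe p).re)
    (τ' := fun p => (fZe p).re) ?_ ?_
  · refine ⟨fun _ hz => hz.1, isOpen_univ, fun _ _ _ => Set.mem_univ _, SK_re.contDiffOn,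
      fun _ _ => rfl, ?_⟩
    intro z hz _ _
    exact ⟨fun h => h.2, fun h => ⟨hz, h⟩⟩
  · refine ⟨fun _ hz => hz.1, isOpen_univ, fun _ _ _ => Set.mem_univ _, SK_re.contDiffOn,
      fun _ _ => rfl, ?_⟩
    intro z hz _ _
    exact ⟨fun h => h.2, fun h => ⟨hz, h⟩⟩

end FPar

end Pool.Agent.H34.SY
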