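import Pool.Agent.H34.SY.MX1
import Pool.Agent.H34.SY.MX2
import Pool.Agent.H34.SY.MX3
import Pool.Agent.H34.SY.MF2
import Pool.Agent.H34.SY.MH2
import Pool.Agent.H34.SY.MH3
import Pool.Agent.H34.SY.SK

/-!
# Row MY: the symplectic form of `M'`

Glue (`glue_closed`) on `X = M'` the eight forms:
`I0`: `pb2 rhoN omI0` on `{-1 < w₁} ∩ rhoN⁻¹ {q ≠ 0, |u|² < s1 - 1, s < -La/2}`;
`Im`: `pb2 rhoN omIm` on `.. {|q|² < r0²/4, |u|² < s1 - 1, s < -La/2}`;
`O0`: `pb2 rhoN omO0` on `.. {q ≠ 0, (s1 - 2 < |u|² and (s < 0 or 0 < s or 1 < |q|²)) or (-3La/4 < s and (0 < s or 1 < |q|²))}` (contained in `DO`);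
`Om`: `pb2 rhoN omOm` on `.. {s1 - 2 < |u|², s < 0, |q|² < r0²/4}`;
`Np`: `pb2 rhoN omNp` on `.. {0 < s, |q|² < 1}`;
`OS0`: `pb2 rhoS omOS0` on `{w₁ < 1} ∩ rhoS⁻¹ ({|u|² < 1/(s2+1)} ∩ Dq)`;
`OSm`: `pb2 rhoS omOSm` on `.. {|u|² < 1/(s2+1), s < 0, |q|² < r0²/4}`; `Sp`: `pb2 rhoS omSp` on `.. {|u|² < 1/(s2+1), 0 < s, |q|² < 1}`.
Closedness: `IsClosedForm.pb` with rows MX1, SD1.
Agreement: points with `q ≠ 0`: `Im → I0`, `Om → O0`, `Np → O0`, `OSm → OS0`, `Sp → OS0` (MX1), `I0 ↔ O0` (MX2; two points of view (a), (b)),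
`O0 ↔ OS0` (`trans_O0`, `rhoS_trans_tangent`); `I0` and `OS0` are disjoint (`|u_N|² < s1 - 1` versus `> s2 + 1`).  Points with `q = 0`, `s = -La`: `Im ↔ Om`
(`agree_IOm`), `Om ↔ OSm` (`trans_Om`); `q = 0`, `s = La`: `Np ↔ Sp` (`trans_p`).
Covering: `-1 < w₁`: by the sign of `s`, the size of `|q|²`, `|u|²`; `w₁ = -1`: `u_S = 0`.  Note `s2 = s1 + 1`, `s1 - 3 = B² + Ta`.
Nondegeneracy at each point: rows MF1, MF2 (inner), MH2 (`nd_O0`, `nd_mid`, `nd_OS0`), MH3, and `nd_Np`, `nd_Sp` (row SJ) with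
`graph_mid`, `graph_S`; in the last case `|u_S|² B² < 1` because `|u_S|² < 1/(s2+1)` and `B² ≤ s2`.
For `nd_Sp`: `GraphS` with the domain of `graph_S`; at `q = 0`, `s = La ≠ 0`.
`isSymplectic_of_nonDeg`.  (Row SK is the model of this proof.)
-/

open Set Topology
open scoped ContDiff ComplexConjugate

namespace Pool.Agent.H34.SY

namespace FPar

/-- regions of the side `N`. -/
def MY_N (P : FPar) : Fin 5 → Set FP
  | 0 => {p | (fZe p ≠ 0 ∨ fZ p ≠ 0) ∧ Complex.normSq (fU p) < P.s1 - 1 ∧ fS p < -(P.La / 2)}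
  | 1 => {p | qsq (fZe p) (fZ p) < P.r0 ^ 2 / 4 ∧ Complex.normSq (fU p) < P.s1 - 1 ∧
      fS p < -(P.La / 2)}
  | 2 => {p | (fZe p ≠ 0 ∨ fZ p ≠ 0) ∧
      ((P.s1 - 2 < Complex.normSq (fU p) ∧ (fS p < 0 ∨ 0 < fS p ∨ 1 < qsq (fZe p) (fZ p))) ∨
        (-(3 / 4) * P.La < fS p ∧ (0 < fS p ∨ 1 < qsq (fZe p) (fZ p))))}
  | 3 => {p | P.s1 - 2 < Complex.normSq (fU p) ∧ fS p < 0 ∧ qsq (fZe p) (fZ p) < P.r0 ^ 2 / 4}
  | 4 => {p | 0 < fS p ∧ qsq (fZe p) (fZ p) < 1}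

noncomputable def MY_fN (P : FPar) : Fin 5 → Form FP
  | 0 => P.omI0
  | 1 => P.omIm
  | 2 => P.omO0
  | 3 => P.omOm
  | 4 => P.omNp

noncomputable def MY_fS (P : FPar) : Fin 3 → Form FP
  | 0 => P.omOS0
  | 1 => P.omOSm
  | 2 => P.omSp

theorem MY_oq : IsOpen {p : FP | fZe p ≠ 0 ∨ fZ p ≠ 0} :=
  (isOpen_ne_fun SD1_Ze.continuous continuous_const).union
    (isOpen_ne_fun SD1_Z.continuous continuous_const)

theorem MY_oNopen (P : FPar) (k : Fin 5) : IsOpen (MY_N P k) := by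
  have cS := SD1_S.continuous
  have cq := SD1_qsq.continuous
  have cU := SD1_nU.continuous
  match k with
  | 0 => exact MY_oq.inter ((isOpen_lt cU continuous_const).inter (isOpen_lt cS continuous_const))
  | 1 =>
    exact (isOpen_lt cq continuous_const).inter
      ((isOpen_lt cU continuous_const).inter (isOpen_lt cS continuous_const))
  | 2 =>
    exact MY_oq.inter (((isOpen_lt continuous_const cU).inter
      ((isOpen_lt cS continuous_const).union ((isOpen_lt continuous_const cS).union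
        (isOpen_lt continuous_const cq)))).union
      ((isOpen_lt continuous_const cS).inter ((isOpen_lt continuous_const cS).union
        (isOpen_lt continuous_const cq))))
  | 3 =>
    exact (isOpen_lt continuous_const cU).inter
      ((isOpen_lt cS continuous_const).inter (isOpen_lt cq continuous_const))
  | 4 => exact (isOpen_lt continuous_const cS).inter (isOpen_lt cq continuous_const)

/-- The eight regions of `EA`. -/
def MY_U (P : FPar) : Fin 5 ⊕ Fin 3 → Set EA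
  | Sum.inl k => {z | -1 < eW1 z} ∩ rhoN ⁻¹' (MY_N P k)
  | Sum.inr k => {z | eW1 z < 1} ∩ rhoS ⁻¹' ({p | Complex.normSq (fU p) < (P.s2 + 1)⁻¹} ∩ SK_D P k)

noncomputable def MY_Om (P : FPar) : Fin 5 ⊕ Fin 3 → Form EA
  | Sum.inl k => pb2 rhoN (MY_fN P k)
  | Sum.inr k => pb2 rhoS (MY_fS P k)

theorem MY_Uopen (P : FPar) (i : Fin 5 ⊕ Fin 3) : IsOpen (MY_U P i) := by
  rcases i with k | k
  · exact contDiffOn_rhoN.continuousOn.isOpen_inter_preimage SK_oN (MY_oNopen P k)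
  · exact contDiffOn_rhoS.continuousOn.isOpen_inter_preimage SK_oS (SK_oD P k)

/-- the numbers. -/
theorem MY_num (P : FPar) (h : P.Ok2) : 2 ≤ P.La ∧ 0 < P.Ta ∧ 0 < P.r0 ∧ P.r0 ≤ 1 ∧
    P.hd.B ^ 2 < P.s1 - 2 ∧ P.s2 = P.s1 + 1 ∧ P.hd.B ^ 2 < P.s2 + 1 ∧ 16 ≤ P.La ^ 2 := by
  have h1 := h.La
  have h2 := h.Ta
  have h3 := h.r0
  have h4 := h.r1
  have h5 := h.La2
  have h6 := h.T2
  have h7 := sq_nonneg P.Q
  have h8 := sq_nonneg P.hd.B
  have e1 : P.s1 = P.hd.B ^ 2 + P.Ta + 3 := rfl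
  have e2 : P.s2 = P.s1 + 1 := rfl
  refine ⟨h1, h2, h3, h4, ?_, e2, ?_, ?_⟩
  · rw [e1]; linarith
  · rw [e2, e1]; linarith
  · linarith

theorem MY_DO (P : FPar) (h : P.Ok2) {p : FP} (hp : p ∈ MY_N P 2) : p ∈ P.DO := by
  obtain ⟨hq, hp⟩ := hp
  have hn := (MY_num P h).2.2.2.2.1
  refine ⟨hq, ?_⟩
  rcases hp with ⟨h1, h2⟩ | ⟨_, h2⟩
  · rcases h2 with h2 | h2 | h2
    · exact Or.inl ⟨hn.trans h1, h2⟩
    · exact Or.inr (Or.inl h2)
    · exact Or.inr (Or.inr h2)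
  · exact Or.inr h2

theorem MY_cl (P : FPar) (h : P.Ok2) (i : Fin 5 ⊕ Fin 3) :
    IsClosedForm (P.toPar.M' ∩ MY_U P i) (MY_Om P i) := by
  have h0 := h.toOk1.toOk0
  have hUo := MY_Uopen P i
  have hLa := (MY_num P h).1
  have hN : ∀ z ∈ P.toPar.M', -1 < eW1 z → rhoN z ∈ FPS P.La := fun z hz h1 => (rhoN_mem hz.1 h1).1
  have hS : ∀ z ∈ P.toPar.M', eW1 z < 1 → rhoS z ∈ FPS P.La := fun z hz h1 => (rhoS_mem hz.1 h1).1
  rcases i with k | k
  · have hf : ContDiffOn ℝ ∞ rhoN (MY_U P (Sum.inl k)) := contDiffOn_rhoN.mono (fun z hz => hz.1)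
    match k with
    | 0 =>
      refine IsClosedForm.pb hUo hf (fun z hz => ?_) (P.closed_I0 h)
      have h9 : fS (rhoN z) < -(P.La / 2) := hz.2.2.2.2
      exact ⟨hN z hz.1 hz.2.1, hz.2.2.1, show fS (rhoN z) < 0 by linarith⟩
    | 1 => exact IsClosedForm.pb hUo hf (fun z hz => hN z hz.1 hz.2.1) (P.closed_Im h)
    | 2 =>
      exact IsClosedForm.pb (Y := FPS P.La ∩ P.DO) hUo hf
        (fun z hz => ⟨hN z hz.1 hz.2.1, MY_DO P h hz.2.2⟩) (P.closed_O0 h)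
    | 3 =>
      exact IsClosedForm.pb (Y := FPS P.La ∩ {p | fS p < 0}) hUo hf
        (fun z hz => ⟨hN z hz.1 hz.2.1, hz.2.2.2.1⟩) (P.closed_Om h)
    | 4 => exact IsClosedForm.pb hUo hf (fun z hz => hN z hz.1 hz.2.1) (P.closed_Np h0)
  · have hf : ContDiffOn ℝ ∞ rhoS (MY_U P (Sum.inr k)) := contDiffOn_rhoS.mono (fun z hz => hz.1)
    match k with
    | 0 =>
      exact IsClosedForm.pb (Y := FPS P.La ∩ P.Dq) hUo hf
        (fun z hz => ⟨hS z hz.1 hz.2.1, hz.2.2.2⟩) (P.closed_OS0 h)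
    | 1 =>
      exact IsClosedForm.pb (Y := FPS P.La ∩ {p | fS p < 0}) hUo hf
        (fun z hz => ⟨hS z hz.1 hz.2.1, hz.2.2.2.1⟩) (P.closed_OSm h)
    | 2 => exact IsClosedForm.pb hUo hf (fun z hz => hS z hz.1 hz.2.1) (P.closed_Sp h0)

/-- where `q = 0`. -/
theorem MY_q0 {La : ℝ} {p : FP} (hp : p ∈ FPS La) (hq : ¬(fZe p ≠ 0 ∨ fZ p ≠ 0)) :
    (fZe p = 0 ∧ fZ p = 0) ∧ fS p ^ 2 = La ^ 2 ∧ qsq (fZe p) (fZ p) = 0 := by
  push Not at hq
  have h4 := hp.2.2.2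
  have h7 : qsq (fZe p) (fZ p) = 0 := by
    unfold qsq
    rw [hq.1, hq.2, map_zero, add_zero]
  rw [hq.1, hq.2, map_zero] at h4
  refine ⟨hq, by linarith, h7⟩

/-- the inner forms agree off `q = 0`. -/
theorem MY_inner (P : FPar) (h : P.Ok2) (k : Fin 5) (hk : k = 0 ∨ k = 1) {p a b : FP}
    (hp : p ∈ FPS P.La) (hpk : p ∈ MY_N P k) (hq : fZe p ≠ 0 ∨ fZ p ≠ 0)
    (ha : IsTangent (FPS P.La) p a) (hb : IsTangent (FPS P.La) p b) :
    P.omI0 p a b = MY_fN P k p a b ∧ fS p < -(P.La / 2) ∧ Complex.normSq (fU p) < P.s1 - 1 := by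
  have hLa := (MY_num P h).1
  rcases hk with rfl | rfl
  · exact ⟨rfl, hpk.2.2, hpk.2.1⟩
  · obtain ⟨h1, h2, h3⟩ := hpk
    exact ⟨P.agree_I h hp hq (by linarith) h1 ha hb, h3, h2⟩

/-- the outer forms agree off `q = 0`. -/
theorem MY_outer (P : FPar) (h : P.Ok2) (k : Fin 5) (hk : k = 2 ∨ k = 3 ∨ k = 4) {p a b : FP}
    (hp : p ∈ FPS P.La) (hpk : p ∈ MY_N P k) (hq : fZe p ≠ 0 ∨ fZ p ≠ 0)
    (ha : IsTangent (FPS P.La) p a) (hb : IsTangent (FPS P.La) p b) :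
    P.omO0 p a b = MY_fN P k p a b ∧
      (P.s1 - 2 < Complex.normSq (fU p) ∨ -(3 / 4) * P.La < fS p) := by
  obtain ⟨hLa, _, _, _, hn, _⟩ := MY_num P h
  rcases hk with rfl | rfl | rfl
  · refine ⟨rfl, ?_⟩
    rcases hpk.2 with h1 | h1
    · exact Or.inl h1.1
    · exact Or.inr h1.1
  · obtain ⟨h1, h2, h3⟩ := hpk
    exact ⟨P.agree_O h hp hq h2 h3 (hn.trans h1) ha hb, Or.inl h1⟩
  · obtain ⟨h1, h2⟩ := hpk
    exact ⟨P.agree_O_p h hp hq h1 h2 ha hb, Or.inr (by linarith)⟩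

theorem MY_kk (k : Fin 5) : (k = 0 ∨ k = 1) ∨ (k = 2 ∨ k = 3 ∨ k = 4) := by
  match k with
  | 0 => exact Or.inl (Or.inl rfl)
  | 1 => exact Or.inl (Or.inr rfl)
  | 2 => exact Or.inr (Or.inl rfl)
  | 3 => exact Or.inr (Or.inr (Or.inl rfl))
  | 4 => exact Or.inr (Or.inr (Or.inr rfl))

/-- the kind of a region at `q = 0`: `1`: inner, `3`: outer minus, `4`: plus. -/
theorem MY_zero (P : FPar) {p : FP} (k : Fin 5) (hpk : p ∈ MY_N P k)
    (hq : ¬(fZe p ≠ 0 ∨ fZ p ≠ 0)) : k = 1 ∨ k = 3 ∨ k = 4 := by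
  match k with
  | 0 => exact absurd hpk.1 hq
  | 1 => exact Or.inl rfl
  | 2 => exact absurd hpk.1 hq
  | 3 => exact Or.inr (Or.inl rfl)
  | 4 => exact Or.inr (Or.inr rfl)

theorem MY_NN (P : FPar) (h : P.Ok2) (hm : IsMfd R6 P.toPar.M') (j k : Fin 5) {z a b : EA}
    (hz : z ∈ P.toPar.M') (h1 : -1 < eW1 z) (hj : rhoN z ∈ MY_N P j) (hk : rhoN z ∈ MY_N P k)
    (ha : IsTangent P.toPar.M' z a) (hb : IsTangent P.toPar.M' z b) :
    MY_Om P (Sum.inl j) z a b = MY_Om P (Sum.inl k) z a b := by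
  have hX : P.toPar.M' ⊆ WS P.La := fun z hz => hz.1
  have hp := (rhoN_mem hz.1 h1).1
  have ha' := rhoN_tangent hX hz h1 ha
  have hb' := rhoN_tangent hX hz h1 hb
  have hLa := (MY_num P h).1
  by_cases hq : fZe (rhoN z) ≠ 0 ∨ fZ (rhoN z) ≠ 0
  · rcases MY_kk j with hj1 | hj1 <;> rcases MY_kk k with hk1 | hk1
    · have e1 := (MY_inner P h j hj1 hp hj hq ha' hb').1
      have e2 := (MY_inner P h k hk1 hp hk hq ha' hb').1
      exact e1.symm.trans e2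
    · obtain ⟨e1, e2, e3⟩ := MY_inner P h j hj1 hp hj hq ha' hb'
      obtain ⟨e4, e5⟩ := MY_outer P h k hk1 hp hk hq ha' hb'
      exact e1.symm.trans ((P.agree_IO h hm hz h1 hq e2 e3 e5 ha hb).trans e4)
    · obtain ⟨e1, e2, e3⟩ := MY_inner P h k hk1 hp hk hq ha' hb'
      obtain ⟨e4, e5⟩ := MY_outer P h j hj1 hp hj hq ha' hb'
      exact e4.symm.trans ((P.agree_IO h hm hz h1 hq e2 e3 e5 ha hb).symm.trans e1)
    · have e1 := (MY_outer P h j hj1 hp hj hq ha' hb').1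
      have e2 := (MY_outer P h k hk1 hp hk hq ha' hb').1
      exact e1.symm.trans e2
  · obtain ⟨hq0, _, _⟩ := MY_q0 hp hq
    rcases MY_zero P j hj hq with rfl | rfl | rfl <;> rcases MY_zero P k hk hq with rfl | rfl | rfl
    · rfl
    · exact P.agree_IOm h hm hz h1 hq0 hk.2.1 hj.2.1 hk.1 ha hb
    · have e1 := hj.2.2
      have e2 := hk.1
      linarith
    · exact (P.agree_IOm h hm hz h1 hq0 hj.2.1 hk.2.1 hj.1 ha hb).symm
    · rfl
    · have e1 := hj.2.1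
      have e2 := hk.1
      linarith
    · have e1 := hk.2.2
      have e2 := hj.1
      linarith
    · have e1 := hk.2.1
      have e2 := hj.1
      linarith
    · rfl

theorem MY_SS (P : FPar) (h : P.Ok2) (j k : Fin 3) {p a b : FP} (hp : p ∈ FPS P.La)
    (hj : p ∈ SK_D P j) (hk : p ∈ SK_D P k) (ha : IsTangent (FPS P.La) p a)
    (hb : IsTangent (FPS P.La) p b) : MY_fS P j p a b = MY_fS P k p a b := by
  match j, k with
  | 0, 0 => rfl
  | 1, 1 => rfl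
  | 2, 2 => rfl
  | 0, 1 => exact P.agree_OS h hp hj.1 hk.1 hk.2 ha hb
  | 1, 0 => exact (P.agree_OS h hp hk.1 hj.1 hj.2 ha hb).symm
  | 0, 2 => exact P.agree_OS_p h hp hj.1 hk.1 hk.2 ha hb
  | 2, 0 => exact (P.agree_OS_p h hp hk.1 hj.1 hj.2 ha hb).symm
  | 1, 2 => exact absurd (hj.1.trans hk.1) (lt_irrefl _)
  | 2, 1 => exact absurd (hk.1.trans hj.1) (lt_irrefl _)

/-- on the overlap of the sides. -/
theorem MY_NS (P : FPar) (h : P.Ok2) (j : Fin 5) (k : Fin 3) {z a b : EA}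
    (hz : z ∈ P.toPar.M') (hj : z ∈ MY_U P (Sum.inl j)) (hk : z ∈ MY_U P (Sum.inr k))
    (ha : IsTangent P.toPar.M' z a) (hb : IsTangent P.toPar.M' z b) :
    MY_Om P (Sum.inl j) z a b = MY_Om P (Sum.inr k) z a b := by
  have hX : P.toPar.M' ⊆ WS P.La := fun z hz => hz.1
  obtain ⟨h1, hj⟩ := hj
  obtain ⟨h2, hk1, hk⟩ := hk
  change -1 < eW1 z at h1
  change eW1 z < 1 at h2
  change Complex.normSq (fU (rhoS z)) < (P.s2 + 1)⁻¹ at hk1
  have hW := hX hz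
  obtain ⟨hLa, hTa, hr0, hr1, hn, es2, hn2, hLa2⟩ := MY_num P h
  obtain ⟨hu1, hu2⟩ := normSq_U hW h1 h2
  have hs2 := SB_s2_pos P h.Ta
  have hu : P.s2 + 1 < Complex.normSq (fU (rhoN z)) := by
    rw [hu1] at hk1
    exact (inv_lt_inv₀ hu2 (by linarith)).1 hk1
  have hkN := SK_same P hW h1 h2 k hk
  have hp := (rhoN_mem hW h1).1
  have ha' := rhoN_tangent hX hz h1 ha
  have hb' := rhoN_tangent hX hz h1 hb
  have hpS := (rhoS_mem hW h2).1
  have haS := rhoS_tangent hX hz h2 ha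
  have hbS := rhoS_tangent hX hz h2 hb
  have hjn : ∀ {k : Fin 5}, (k = 0 ∨ k = 1) → rhoN z ∈ MY_N P k → False := by
    intro k hk0 hk2
    have e : Complex.normSq (fU (rhoN z)) < P.s1 - 1 := by
      rcases hk0 with rfl | rfl
      · exact hk2.2.1
      · exact hk2.2.1
    rw [es2] at hu
    linarith
  -- transport of a form of the side S
  have htr : ∀ Om : Form FP, pb2 rhoS Om z a b =
      pb2 trans Om (rhoN z) (fderiv ℝ rhoN z a) (fderiv ℝ rhoN z b) := by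
    intro Om
    rw [pb2_apply, pb2_apply, ← rhoS_trans_tangent hX hz h1 h2 ha,
      ← rhoS_trans_tangent hX hz h1 h2 hb, ← (rhoS_eq hW h1 h2).2]
  by_cases hq : fZe (rhoN z) ≠ 0 ∨ fZ (rhoN z) ≠ 0
  · have hjo : j = 2 ∨ j = 3 ∨ j = 4 := (MY_kk j).resolve_left (fun h0 => hjn h0 hj)
    have e1 := (MY_outer P h j hjo hp hj hq ha' hb').1
    have hqS : fZe (rhoS z) ≠ 0 ∨ fZ (rhoS z) ≠ 0 := by
      obtain ⟨_, _, e3, _, e5⟩ := rhoS_same hW h1 h2
      rcases hq with h3 | h3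
      · left
        rwa [e3]
      · right
        intro h5
        rw [h5, map_zero] at e5
        exact h3 (Complex.normSq_eq_zero.1 e5.symm)
    have hD0 : rhoS z ∈ SK_D P 0 := P.Dq_of h.toOk1.toOk0 hpS hqS
    have e2 : MY_fS P k (rhoS z) (fderiv ℝ rhoS z a) (fderiv ℝ rhoS z b) =
        P.omOS0 (rhoS z) (fderiv ℝ rhoS z a) (fderiv ℝ rhoS z b) :=
      MY_SS P h k 0 hpS hk hD0 haS hbS
    have hs1 : fS (rhoN z) ≠ 0 ∨ 1 < qsq (fZe (rhoN z)) (fZ (rhoN z)) := by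
      by_cases hs0 : fS (rhoN z) = 0
      · right
        have h4 := hp.2.2.2
        rw [hs0] at h4
        unfold qsq
        nlinarith
      · exact Or.inl hs0
    have e3 := P.trans_O0 h hu hq hs1 (fderiv ℝ rhoN z a) (fderiv ℝ rhoN z b)
    have e4 := htr P.omOS0
    show MY_fN P j (rhoN z) (fderiv ℝ rhoN z a) (fderiv ℝ rhoN z b) =
      MY_fS P k (rhoS z) (fderiv ℝ rhoS z a) (fderiv ℝ rhoS z b)
    rw [← e1, e2, ← e3, ← e4]
    rfl
  · obtain ⟨hq0, hs0, hqs⟩ := MY_q0 hp hq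
    have hk2 : k ≠ 0 := by
      rintro rfl
      exact hq hkN.1
    have hk3 : k = 1 ∨ k = 2 := by
      revert hk2
      clear hkN hk
      revert k
      decide
    rcases MY_zero P j hj hq with rfl | rfl | rfl
    · exact (hjn (Or.inr rfl) hj).elim
    · rcases hk3 with rfl | rfl
      · have e1 := P.trans_Om h hp hu hj.2.1 (by
          rw [hqs]
          have := h.rb0
          positivity) ha' hb'
        have e3 : MY_Om P (Sum.inl 3) = pb2 rhoN P.omOm := rfl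
        have e4 : MY_Om P (Sum.inr 1) = pb2 rhoS P.omOSm := rfl
        rw [e3, e4, htr, e1, pb2_apply]
      · have e1 := hj.2.1
        have e2 := hkN.1
        linarith
    · rcases hk3 with rfl | rfl
      · have e1 := hj.1
        have e2 := hkN.1
        linarith
      · have e1 := P.trans_p hTa hp hu ha' hb'
        have e3 : MY_Om P (Sum.inl 4) = pb2 rhoN P.omNp := rfl
        have e4 : MY_Om P (Sum.inr 2) = pb2 rhoS P.omSp := rfl
        rw [e3, e4, htr, e1, pb2_apply]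

theorem MY_comp (P : FPar) (h : P.Ok2) (hm : IsMfd R6 P.toPar.M') (i j : Fin 5 ⊕ Fin 3)
    (z : EA) (hz : z ∈ P.toPar.M') (hi : z ∈ MY_U P i) (hj : z ∈ MY_U P j) (a b : EA)
    (ha : IsTangent P.toPar.M' z a) (hb : IsTangent P.toPar.M' z b) :
    MY_Om P i z a b = MY_Om P j z a b := by
  have hX : P.toPar.M' ⊆ WS P.La := fun z hz => hz.1
  rcases i with i | i <;> rcases j with j | j
  · exact MY_NN P h hm i j hz hi.1 hi.2 hj.2 ha hb
  · exact MY_NS P h i j hz hi hj ha hb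
  · exact (MY_NS P h j i hz hj hi ha hb).symm
  · exact MY_SS P h i j (rhoS_mem hz.1 hi.1).1 hi.2.2 hj.2.2 (rhoS_tangent hX hz hi.1 ha)
      (rhoS_tangent hX hz hi.1 hb)

/-- every point lies in a region in which the form is nondegenerate. -/
theorem MY_nd (P : FPar) (h : P.Ok3) {z : EA} (hz : z ∈ P.toPar.M') :
    ∃ i, z ∈ MY_U P i ∧ NonDegAt P.toPar.M' (MY_Om P i) z := by
  have h2 := h.toOk2
  have h1' := h2.toOk1
  have h0 := h1'.toOk0
  obtain ⟨hLa, hTa, hr0, hr1, hn, es2, hn2, hLa2⟩ := MY_num P h2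
  by_cases h1 : -1 < eW1 z
  · have hp := (rhoN_mem hz.1 h1).1
    by_cases hq : fZe (rhoN z) ≠ 0 ∨ fZ (rhoN z) ≠ 0
    · rcases lt_or_ge (fS (rhoN z)) (-(P.La / 2)) with hs | hs
      · rcases lt_or_ge (Complex.normSq (fU (rhoN z))) (P.s1 - 1) with hu | hu
        · exact ⟨Sum.inl 0, ⟨h1, hq, hu, hs⟩, P.nd_I0 h hz h1 hq hs (by linarith)⟩
        · exact ⟨Sum.inl 2, ⟨h1, hq, Or.inl ⟨by linarith, Or.inl (by linarith)⟩⟩,
            P.nd_O0 h2 hz h1 hq (by linarith)⟩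
      · refine ⟨Sum.inl 2, ⟨h1, hq, Or.inr ⟨by linarith, ?_⟩⟩,
            P.nd_mid h2 hz h1 hq (by linarith)⟩
        rcases lt_or_ge 0 (fS (rhoN z)) with hs1 | hs1
        · exact Or.inl hs1
        · right
          have h4 := hp.2.2.2
          unfold qsq
          nlinarith
    · obtain ⟨hq0, hs0, hqs⟩ := MY_q0 hp hq
      have hsc : fS (rhoN z) = P.La ∨ fS (rhoN z) = -P.La := by
        rcases sq_eq_sq_iff_eq_or_eq_neg.1 hs0 with h3 | h3
        · exact Or.inl h3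
        · exact Or.inr h3
      rcases hsc with hs | hs
      · refine ⟨Sum.inl 4, ⟨h1, by show 0 < fS (rhoN z); rw [hs]; linarith, by rw [hqs]; norm_num⟩, ?_⟩
        exact P.nd_Np h1' (P.graph_mid h2) hz h1
          (show -(3 / 4) * P.La < fS (rhoN z) by rw [hs]; linarith) hq0
      · rcases lt_or_ge (Complex.normSq (fU (rhoN z))) (P.s1 - 1) with hu | hu
        · refine ⟨Sum.inl 1, ⟨h1, by rw [hqs]; positivity, hu,
            by rw [hs]; linarith⟩, ?_⟩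
          exact P.nd_Im h hz h1 hq0 (by rw [hs]; linarith) (by linarith)
        · refine ⟨Sum.inl 3, ⟨h1, by linarith, by rw [hs]; linarith,
            by rw [hqs]; positivity⟩, ?_⟩
          exact P.nd_Om h2 hz h1 hq0 (by rw [hs]; linarith) (by linarith)
  · obtain ⟨h3, h4⟩ := SK_wm hz.1 h1
    have h5 := SK_base0 P h0 h4
    have h6 : Complex.normSq (fU (rhoS z)) * P.hd.B ^ 2 < 1 := by
      rw [h4, map_zero, zero_mul]
      norm_num
    rcases SK_kind P h0 (rhoS_mem hz.1 h3).1 with h7 | h7 | h7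
    · exact ⟨Sum.inr 0, ⟨h3, h5, h7.2⟩, P.nd_OS0 h2 hz h3 h7.1 h6⟩
    · exact ⟨Sum.inr 1, ⟨h3, h5, h7.2⟩, P.nd_OSm h2 hz h3 h7.1 h7.2.1 h6⟩
    · exact ⟨Sum.inr 2, ⟨h3, h5, h7.2⟩, P.nd_Sp h1' (P.graph_S h2) hz h3
        ⟨h6, Or.inl (ne_of_gt h7.2.1)⟩ h7.1⟩

theorem M'_form (P : FPar) (h : P.Ok3) (hm : IsMfd R6 P.toPar.M') :
    ∃ om : Form EA, IsSymplectic P.toPar.M' om ∧
      ∀ z ∈ P.toPar.M', -1 < eW1 z → (fZe (rhoN z) ≠ 0 ∨ fZ (rhoN z) ≠ 0) →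
        -(3 / 4) * P.La < fS (rhoN z) → ∀ a b, IsTangent P.toPar.M' z a →
          IsTangent P.toPar.M' z b → om z a b = pb2 rhoN P.omO0 z a b := by
  have h2 := h.toOk2
  obtain ⟨hLa, hTa, hr0, hr1, hn, es2, hn2, hLa2⟩ := MY_num P h2
  obtain ⟨om, hcl, hom⟩ := glue_closed (MY_U P) (MY_Om P) (MY_Uopen P) (MY_cl P h2)
    (fun z hz => by
      obtain ⟨i, hi, _⟩ := MY_nd P h hz
      exact ⟨i, hi⟩) (MY_comp P h2 hm)
  refine ⟨om, isSymplectic_of_nonDeg hm hcl ?_, ?_⟩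
  · intro z hz
    obtain ⟨i, hi, hn⟩ := MY_nd P h hz
    exact hn.congr (fun a b ha hb => (hom i z hz hi a b ha hb).symm)
  · intro z hz h1 hq hs a b ha hb
    refine hom (Sum.inl 2) z hz ⟨h1, hq, Or.inr ⟨hs, ?_⟩⟩ a b ha hb
    have hp := (rhoN_mem hz.1 h1).1
    rcases lt_or_ge 0 (fS (rhoN z)) with hs1 | hs1
    · exact Or.inl hs1
    · right
      have h4 := hp.2.2.2
      unfold qsq
      nlinarith

end FPar

end Pool.Agent.H34.SY
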