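import Pool.Agent.H34.SY.TA
import Pool.Agent.H34.SY.SB

/-!
# Row TB: the family (a) in the charts

`GaB`, `GaA` are the expressions of `Fa` in the charts `psiN ∘ cB La (-1)` and `psiN ∘ cA La (-1)`.

* `Fa_cB`: unfold; `eW1 (psiN p) > -1`, `rhoN_psiN`, `fS (cB ..) < 0`, `fH0 = (|b|²-1)/(|b|²+1) < 1`, `(1+h0)/(1-h0) = |b|²`.
* `Fa_cA`: `h0 = (1-|β|²)/(1+|β|²)`.  If `β = 0` then `h0 = 1` and the term with `psiR` is `0` by the `if`.  If `β ≠ 0`,
  `(1+h0)/(1-h0) = 1/|β|²`, so `Rr ≥ 1/(2|β|²) ≥ 1/4 + T` and `psiR = 0` (`cut_props`).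
* `Fa_lin`: if `|u|² > B²`, i.e. `w1 < (1-B²)/(1+B²)` (on `WS`, `|u|² = |w|²/(1+w1)² = (1-w1)/(1+w1)`), then `c(x) = t` by `c_far`.
  If `-3La/4 < s < 0` then `|q|² = La² - s² > 7 La²/16` so `chiq = 0`; and `psiR = 0`: for `h0 < 1` one has
  `(1-h0)|ζ|² = (1+h0)|z|²` (third equation of `FPS`), so with `a = (1+h0)/(1-h0)`, `|q|² = |z|²(1+a) ≤ 2R(1+2R)`; if `R < 1/4+T` this is
  `< (1/2+2T)(3/2+2T)`, contradiction.
-/

open Set Topology
open scoped ContDiff ComplexConjugate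

namespace Pool.Agent.H34.SY

noncomputable section

/-- Size conditions used in block TOP. -/
structure Par.OkT (P : Par) : Prop where
  hT : 1 ≤ P.T
  hLa : 4 ≤ P.La
  big : P.Q ^ 2 + 1 + (1 / 2 + 2 * P.T) * (3 / 2 + 2 * P.T) ≤ 7 / 16 * P.La ^ 2

def Par.GaB (P : Par) (τ : ℝ) (v : H7) : ℝ :=
  v.1 + ((1 - τ) * (P.psic ((v.2.2.1 * v.2.2.2).im ^ 2 + Complex.normSq v.2.2.2)
      * P.chiq (qsq (v.2.2.1 * v.2.2.2) v.2.2.2))
    + τ * P.psiR ((Complex.normSq v.2.2.1 + Complex.normSq v.2.2.2) / 2))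
    * (P.hd.c (xpt v.1 v.2.1) - v.1) - (v.2.2.1 * v.2.2.2).re

def Par.GaA (P : Par) (τ : ℝ) (v : H7) : ℝ :=
  v.1 + (1 - τ) * (P.psic (v.2.2.2.im ^ 2 + Complex.normSq (v.2.2.1 * v.2.2.2))
      * P.chiq (qsq v.2.2.2 (v.2.2.1 * v.2.2.2)))
    * (P.hd.c (xpt v.1 v.2.1) - v.1) - v.2.2.2.re

private theorem TB_w1 (p : FP) : -1 < eW1 (psiN p) := by
  show -1 < (1 - Complex.normSq (fU p)) / (1 + Complex.normSq (fU p))
  have h := Complex.normSq_nonneg (fU p)
  rw [lt_div_iff₀ (by linarith)]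
  linarith

private theorem TB_Fa (P : Par) (p : FP) (τ : ℝ) : P.Fa τ (psiN p) = P.FaN τ p := by
  unfold Par.Fa
  rw [if_pos (TB_w1 p), rhoN_psiN]

private theorem TB_s {La : ℝ} {v : H7}
    (hv : Complex.normSq v.2.2.2 * (1 + Complex.normSq v.2.2.1) < La ^ 2) :
    (-1 : ℝ) * Real.sqrt (La ^ 2 - Complex.normSq v.2.2.2 * (1 + Complex.normSq v.2.2.1)) < 0 := by
  have := Real.sqrt_pos.2 (sub_pos.2 hv)
  linarith

theorem Fa_cB (P : Par) (hLa : 0 < P.La) {v : H7}
    (hv : Complex.normSq v.2.2.2 * (1 + Complex.normSq v.2.2.1) < P.La ^ 2) (τ : ℝ) :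
    P.Fa τ (psiN (cB P.La (-1) v)) = P.GaB τ v := by
  rw [TB_Fa]
  unfold Par.FaN
  have h1 : fS (cB P.La (-1) v) < 0 := TB_s hv
  have hb := Complex.normSq_nonneg v.2.2.1
  have h2 : fH0 (cB P.La (-1) v) < 1 := by
    show (Complex.normSq v.2.2.1 - 1) / (Complex.normSq v.2.2.1 + 1) < 1
    rw [div_lt_one (by linarith)]
    linarith
  have h3 : Rr (fH0 (cB P.La (-1) v)) (fZ (cB P.La (-1) v)) =
      (Complex.normSq v.2.2.1 + Complex.normSq v.2.2.2) / 2 := by
    show ((1 + (Complex.normSq v.2.2.1 - 1) / (Complex.normSq v.2.2.1 + 1)) /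
      (1 - (Complex.normSq v.2.2.1 - 1) / (Complex.normSq v.2.2.1 + 1)) +
        Complex.normSq v.2.2.2) / 2 = _
    have h4 : (1 + (Complex.normSq v.2.2.1 - 1) / (Complex.normSq v.2.2.1 + 1)) /
      (1 - (Complex.normSq v.2.2.1 - 1) / (Complex.normSq v.2.2.1 + 1)) =
        Complex.normSq v.2.2.1 := by
      have h5 : Complex.normSq v.2.2.1 + 1 ≠ 0 := by linarith
      have h6 : 1 - (Complex.normSq v.2.2.1 - 1) / (Complex.normSq v.2.2.1 + 1) =
          2 / (Complex.normSq v.2.2.1 + 1) := by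
        field_simp
        ring
      rw [h6]
      field_simp
      ring
    rw [h4]
  rw [if_pos h1, if_pos h2, h3]
  rfl

theorem Fa_cA (P : Par) (hT : 0 < P.T) (hLa : 0 < P.La) {v : H7}
    (hv : Complex.normSq v.2.2.2 * (1 + Complex.normSq v.2.2.1) < P.La ^ 2)
    (hb : 2 * (1 / 4 + P.T) * Complex.normSq v.2.2.1 < 1) (τ : ℝ) :
    P.Fa τ (psiN (cA P.La (-1) v)) = P.GaA τ v := by
  rw [TB_Fa]
  unfold Par.FaN
  have h1 : fS (cA P.La (-1) v) < 0 := TB_s hv
  have hb0 := Complex.normSq_nonneg v.2.2.1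
  have h2 : (if fH0 (cA P.La (-1) v) < 1 then
      P.psiR (Rr (fH0 (cA P.La (-1) v)) (fZ (cA P.La (-1) v))) else 0) = 0 := by
    rcases hb0.eq_or_lt with h0 | h0
    · rw [if_neg]
      show ¬ (1 - Complex.normSq v.2.2.1) / (1 + Complex.normSq v.2.2.1) < 1
      rw [← h0]
      norm_num
    · split_ifs with h3
      · refine (cut_props (1 / 4) P.T hT).2.2.1 _ ?_
        show 1 / 4 + P.T ≤ ((1 + (1 - Complex.normSq v.2.2.1) / (1 + Complex.normSq v.2.2.1)) /
          (1 - (1 - Complex.normSq v.2.2.1) / (1 + Complex.normSq v.2.2.1)) +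
            Complex.normSq (v.2.2.1 * v.2.2.2)) / 2
        have h4 : (1 + (1 - Complex.normSq v.2.2.1) / (1 + Complex.normSq v.2.2.1)) /
          (1 - (1 - Complex.normSq v.2.2.1) / (1 + Complex.normSq v.2.2.1)) =
            1 / Complex.normSq v.2.2.1 := by
          have h5 : 1 + Complex.normSq v.2.2.1 ≠ 0 := by linarith
          have h6 : 1 - (1 - Complex.normSq v.2.2.1) / (1 + Complex.normSq v.2.2.1) =
              2 * Complex.normSq v.2.2.1 / (1 + Complex.normSq v.2.2.1) := by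
            field_simp
            ring
          rw [h6]
          field_simp
          ring
        rw [h4]
        have h5 : 2 * (1 / 4 + P.T) ≤ 1 / Complex.normSq v.2.2.1 := by
          rw [le_div_iff₀ h0]
          exact hb.le
        have h6 := Complex.normSq_nonneg (v.2.2.1 * v.2.2.2)
        linarith
      · rfl
  rw [if_pos h1, h2, mul_zero, add_zero]
  rfl

private theorem TB_big (P : Par) (hP : P.OkT) {p : FP} (hp : p ∈ FPS P.La)
    (h1 : -(3 / 4) * P.La < fS p) (h2 : fS p < 0) :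
    P.chiq (qsq (fZe p) (fZ p)) = 0 ∧
      (if fH0 p < 1 then P.psiR (Rr (fH0 p) (fZ p)) else 0) = 0 := by
  obtain ⟨g1, g2, g3, g4⟩ := hp
  have hLa := hP.hLa
  have hT := hP.hT
  have hbig := hP.big
  have hs : fS p ^ 2 ≤ 9 / 16 * P.La ^ 2 := by nlinarith
  have hq : 7 / 16 * P.La ^ 2 ≤ qsq (fZe p) (fZ p) := by
    unfold qsq
    linarith
  constructor
  · refine (cut_props (P.Q ^ 2) 1 one_pos).2.2.1 _ ?_
    have : 0 ≤ (1 / 2 + 2 * P.T) * (3 / 2 + 2 * P.T) := by positivity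
    linarith
  · split_ifs with h3
    · refine (cut_props (1 / 4) P.T (by linarith)).2.2.1 _ ?_
      by_contra hcon
      push Not at hcon
      have hh := Complex.normSq_nonneg (fH p)
      have hz := Complex.normSq_nonneg (fZ p)
      have h4 : -1 ≤ fH0 p := by nlinarith
      have h5 : 0 < 1 - fH0 p := by linarith
      obtain ⟨a, ha⟩ : ∃ a, a = (1 + fH0 p) / (1 - fH0 p) := ⟨_, rfl⟩
      have ha0 : 0 ≤ a := by
        rw [ha]
        exact div_nonneg (by linarith) h5.le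
      have h6 : Complex.normSq (fZe p) = a * Complex.normSq (fZ p) := by
        have h7 := congrArg Complex.normSq g3
        rw [Complex.normSq_mul, Complex.normSq_mul, Complex.normSq_ofReal,
          Complex.normSq_conj] at h7
        have h8 : Complex.normSq (fH p) = (1 - fH0 p) * (1 + fH0 p) := by linarith [sq (fH0 p)]
        rw [h8] at h7
        have h9 : (1 - fH0 p) * Complex.normSq (fZe p) = (1 + fH0 p) * Complex.normSq (fZ p) := by
          have : (1 - fH0 p) * ((1 - fH0 p) * Complex.normSq (fZe p)) =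
              (1 - fH0 p) * ((1 + fH0 p) * Complex.normSq (fZ p)) := by linarith
          exact mul_left_cancel₀ h5.ne' this
        rw [ha, div_mul_eq_mul_div, eq_div_iff h5.ne']
        linarith
      have h7 : (a + Complex.normSq (fZ p)) / 2 < 1 / 4 + P.T := by
        rw [ha]
        exact hcon
      have h8 : qsq (fZe p) (fZ p) = (1 + a) * Complex.normSq (fZ p) := by
        unfold qsq
        rw [h6]
        ring
      have h9 : (1 + a) * Complex.normSq (fZ p) < (3 / 2 + 2 * P.T) * (1 / 2 + 2 * P.T) := by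
        have ea : 1 + a ≤ 3 / 2 + 2 * P.T := by linarith
        have ez : Complex.normSq (fZ p) < 1 / 2 + 2 * P.T := by linarith
        calc (1 + a) * Complex.normSq (fZ p) < (1 + a) * (1 / 2 + 2 * P.T) :=
              mul_lt_mul_of_pos_left ez (by linarith)
          _ ≤ (3 / 2 + 2 * P.T) * (1 / 2 + 2 * P.T) :=
              mul_le_mul_of_nonneg_right ea (by linarith)
      have h10 := sq_nonneg P.Q
      rw [h8] at hq
      linarith
    · rfl

theorem Fa_lin (P : Par) (hP : P.OkT) {z : EA} (hz : z ∈ WS P.La)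
    (h : eW1 z < (1 - P.hd.B ^ 2) / (1 + P.hd.B ^ 2) ∨ -(3 / 4) * P.La < eS z) (τ : ℝ) :
    P.Fa τ z = eT z - (eZe z).re := by
  unfold Par.Fa
  split_ifs with h1
  · obtain ⟨hp, hpz⟩ := rhoN_mem hz h1
    have hw : eW1 z = (1 - Complex.normSq (fU (rhoN z))) / (1 + Complex.normSq (fU (rhoN z))) := by
      have e : eW1 (psiN (rhoN z)) =
          (1 - Complex.normSq (fU (rhoN z))) / (1 + Complex.normSq (fU (rhoN z))) := rfl
      rw [← e, hpz]
    have hS : fS (rhoN z) = eS z := rfl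
    have hTe : fT (rhoN z) = eT z := rfl
    have hZe : fZe (rhoN z) = eZe z := rfl
    obtain ⟨p, hpe⟩ : ∃ p, p = rhoN z := ⟨_, rfl⟩
    rw [← hpe] at hp hw hS hTe hZe ⊢
    unfold Par.FaN
    by_cases h2 : fS p < 0
    · rw [if_pos h2]
      rw [hS] at h2
      rcases h with h | h
      · have hN := Complex.normSq_nonneg (fU p)
        have hB : P.hd.B ^ 2 < Complex.normSq (fU p) := by
          rw [hw, div_lt_div_iff₀ (by linarith) (by positivity)] at h
          nlinarith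
        have h3 : P.hd.c (xpt (fT p) (fU p)) = fT p := by
          refine P.hd.c_far _ ?_
          show P.hd.B ^ 2 ≤ (fT p) ^ 2 + (fU p).re ^ 2 + (fU p).im ^ 2
          have := sq_nonneg (fT p)
          rw [Complex.normSq_apply] at hB
          nlinarith
        rw [h3, sub_self, mul_zero, add_zero, hTe, hZe]
      · have h3 := TB_big P hP hp (by rw [hS]; exact h) (by rw [hS]; exact h2)
        rw [h3.1, h3.2, mul_zero, mul_zero, mul_zero, add_zero, zero_mul, add_zero, hTe, hZe]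
    · rw [if_neg h2, hTe, hZe]
  · rfl

private theorem TB_xpt : ContDiff ℝ ∞ (fun p : ℝ × ℂ => xpt p.1 p.2) :=
  contDiff_fst.prodMk ((Complex.reCLM.contDiff.comp contDiff_snd).prodMk
    (Complex.imCLM.contDiff.comp contDiff_snd))

private theorem TB_qsq : ContDiff ℝ ∞ (fun p : ℂ × ℂ => qsq p.1 p.2) :=
  (contDiff_normSq.comp contDiff_fst).add (contDiff_normSq.comp contDiff_snd)

theorem contDiff_GaB (P : Par) : ContDiff ℝ ∞ (fun p : ℝ × H7 => P.GaB p.1 p.2) := by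
  have t : ContDiff ℝ ∞ (fun p : ℝ × H7 => p.1) := contDiff_fst
  have a : ContDiff ℝ ∞ (fun p : ℝ × H7 => p.2.1) := contDiff_fst.comp contDiff_snd
  have u : ContDiff ℝ ∞ (fun p : ℝ × H7 => p.2.2.1) :=
    contDiff_fst.comp (contDiff_snd.comp contDiff_snd)
  have b : ContDiff ℝ ∞ (fun p : ℝ × H7 => p.2.2.2.1) :=
    contDiff_fst.comp (contDiff_snd.comp (contDiff_snd.comp contDiff_snd))
  have y : ContDiff ℝ ∞ (fun p : ℝ × H7 => p.2.2.2.2) :=
    contDiff_snd.comp (contDiff_snd.comp (contDiff_snd.comp contDiff_snd))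
  have by' : ContDiff ℝ ∞ (fun p : ℝ × H7 => p.2.2.2.1 * p.2.2.2.2) := b.mul y
  have e1 : ContDiff ℝ ∞ (fun p : ℝ × H7 => P.psic ((p.2.2.2.1 * p.2.2.2.2).im ^ 2 +
      Complex.normSq p.2.2.2.2)) :=
    (SB_cut_smooth 1 (P.T ^ 2)).comp
      (((Complex.imCLM.contDiff.comp by').pow 2).add (contDiff_normSq.comp y))
  have e2 : ContDiff ℝ ∞ (fun p : ℝ × H7 => P.chiq (qsq (p.2.2.2.1 * p.2.2.2.2) p.2.2.2.2)) :=
    (SB_cut_smooth (P.Q ^ 2) 1).comp (TB_qsq.comp (by'.prodMk y))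
  have e3 : ContDiff ℝ ∞ (fun p : ℝ × H7 => P.psiR ((Complex.normSq p.2.2.2.1 +
      Complex.normSq p.2.2.2.2) / 2)) :=
    (SB_cut_smooth (1 / 4) P.T).comp
      (((contDiff_normSq.comp b).add (contDiff_normSq.comp y)).div_const 2)
  have e4 : ContDiff ℝ ∞ (fun p : ℝ × H7 => P.hd.c (xpt p.2.1 p.2.2.1) - p.2.1) :=
    (P.hd.c_smooth.comp (TB_xpt.comp (a.prodMk u))).sub a
  exact (a.add ((((contDiff_const.sub t).mul (e1.mul e2)).add (t.mul e3)).mul e4)).sub
    (Complex.reCLM.contDiff.comp by')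

theorem contDiff_GaA (P : Par) : ContDiff ℝ ∞ (fun p : ℝ × H7 => P.GaA p.1 p.2) := by
  have t : ContDiff ℝ ∞ (fun p : ℝ × H7 => p.1) := contDiff_fst
  have a : ContDiff ℝ ∞ (fun p : ℝ × H7 => p.2.1) := contDiff_fst.comp contDiff_snd
  have u : ContDiff ℝ ∞ (fun p : ℝ × H7 => p.2.2.1) :=
    contDiff_fst.comp (contDiff_snd.comp contDiff_snd)
  have b : ContDiff ℝ ∞ (fun p : ℝ × H7 => p.2.2.2.1) :=
    contDiff_fst.comp (contDiff_snd.comp (contDiff_snd.comp contDiff_snd))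
  have y : ContDiff ℝ ∞ (fun p : ℝ × H7 => p.2.2.2.2) :=
    contDiff_snd.comp (contDiff_snd.comp (contDiff_snd.comp contDiff_snd))
  have by' : ContDiff ℝ ∞ (fun p : ℝ × H7 => p.2.2.2.1 * p.2.2.2.2) := b.mul y
  have e1 : ContDiff ℝ ∞ (fun p : ℝ × H7 => P.psic (p.2.2.2.2.im ^ 2 +
      Complex.normSq (p.2.2.2.1 * p.2.2.2.2))) :=
    (SB_cut_smooth 1 (P.T ^ 2)).comp
      (((Complex.imCLM.contDiff.comp y).pow 2).add (contDiff_normSq.comp by'))
  have e2 : ContDiff ℝ ∞ (fun p : ℝ × H7 => P.chiq (qsq p.2.2.2.2 (p.2.2.2.1 * p.2.2.2.2))) :=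
    (SB_cut_smooth (P.Q ^ 2) 1).comp (TB_qsq.comp (y.prodMk by'))
  have e4 : ContDiff ℝ ∞ (fun p : ℝ × H7 => P.hd.c (xpt p.2.1 p.2.2.1) - p.2.1) :=
    (P.hd.c_smooth.comp (TB_xpt.comp (a.prodMk u))).sub a
  exact (a.add (((contDiff_const.sub t).mul (e1.mul e2)).mul e4)).sub
    (Complex.reCLM.contDiff.comp y)

end

end Pool.Agent.H34.SY
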