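import Pool.Agent.H34.SY.TB
import Pool.Agent.H34.SY.MD2

/-!
# Row TC: regularity of the family (a), chart cB

Let `v = (t, u, b, y)`, `x = (t, u)`, `q = (b y, y)`, `R = (|b|²+|y|²)/2`, `Y = Im(b y)² + |y|²`.

* `b = y = 0`: near `v` one has `psic = chiq = psiR = 1`, so `GaB τ = c(x) - Re(b y)` near `v`; `c(x) = 0`, `grad c(x) ≠ 0`
  (`grad_ne`, file MD2): take `γ(s) = (t + s ξ₁, u + s (ξ₂ + i ξ₃), 0, 0)` for a coordinate vector `ξ` with `fderiv c x ξ ≠ 0`.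
* otherwise `R > 0`: `γ(s) = (t, u, b + s conj y, y + s conj b)`.  Derivatives at `s = 0`: `Re(b y)' = |b|²+|y|² = 2R`, `Im(b y)' = 0`,
  `(|y|²)' = (|b|²)' = 2 Re(b y)`, so `Y' = 2 Re(b y)`, `R' = 2 Re(b y)`, and `|2 Re (b y)| ≤ 2|b||y| ≤ 2R`.
  The term with the derivative of `chiq` vanishes: if `psic(Y) (c(x) - t) ≠ 0` then `|x| < B` (`c_far`), `Y < 1+T²`, and from
  `GaB τ v = 0`: `|Re (b y)| ≤ |t| + |Ψ (c - t)| ≤ B + Sb` (`0 ≤ Ψ ≤ 1`), so `|q|² = Re(by)² + Y < Q²` and `chiq = 1` near `|q|²`.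
  So `d = ((1-τ) psic'(Y) 2Re(by) chiq + τ psiR'(R) 2Re(by)) (c-t) - 2R`, with
  `|psic'| ≤ C/T²`, `|psiR'| ≤ C/T` (`cut_slope`), `|c-t| ≤ Sb`: `|d| ≥ 2R (1 - C Sb/T) > 0` for `T ≥ T0 = max 1 (C Sb + 1)`.
-/

open Set Topology
open scoped ContDiff ComplexConjugate

namespace Pool.Agent.H34.SY

private theorem TC_poly (a b c d e : ℝ) :
    HasDerivAt (fun s : ℝ => a + b * s + c * s ^ 2 + d * s ^ 3 + e * s ^ 4) b 0 := by
  have h1 : HasDerivAt (fun s : ℝ => b * s) b 0 := by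
    simpa using (hasDerivAt_id' (0 : ℝ)).const_mul b
  have h2 : HasDerivAt (fun s : ℝ => c * s ^ 2) 0 0 := by
    simpa using ((hasDerivAt_id' (0 : ℝ)).pow 2).const_mul c
  have h3 : HasDerivAt (fun s : ℝ => d * s ^ 3) 0 0 := by
    simpa using ((hasDerivAt_id' (0 : ℝ)).pow 3).const_mul d
  have h4 : HasDerivAt (fun s : ℝ => e * s ^ 4) 0 0 := by
    simpa using ((hasDerivAt_id' (0 : ℝ)).pow 4).const_mul e
  have h := (((h1.const_add a).add h2).add h3).add h4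
  exact h.congr_deriv (by ring)

private theorem TC_cut_has (a T s : ℝ) (hT : 0 < T) : HasDerivAt (cut a T) (deriv (cut a T) s) s :=
  (((cut_props a T hT).1).differentiable (by simp) s).hasDerivAt

private theorem TC_cut_flat (a T s : ℝ) (hT : 0 < T) (hs : s < a) : deriv (cut a T) s = 0 := by
  have h : cut a T =ᶠ[𝓝 s] fun _ => 1 := by
    filter_upwards [Iio_mem_nhds hs] with r hr
    exact (cut_props a T hT).2.1 r (le_of_lt hr)
  rw [h.deriv_eq]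
  simp

private theorem TC_reb (b y : ℂ) : |2 * (b * y).re| ≤ Complex.normSq b + Complex.normSq y := by
  simp only [Complex.mul_re, Complex.normSq_apply]
  rw [abs_le]
  constructor <;> nlinarith [sq_nonneg (b.re + y.re), sq_nonneg (b.im - y.im),
    sq_nonneg (b.re - y.re), sq_nonneg (b.im + y.im)]

theorem GaB_reg (hd : Handle) : ∃ T0 : ℝ, ∀ P : Par, P.hd = hd → T0 ≤ P.T →
    ∀ τ ∈ Icc (0 : ℝ) 1, ∀ v : H7, P.GaB τ v = 0 → ∃ (γ : ℝ → H7) (γ' : H7) (d : ℝ),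
      γ 0 = v ∧ HasDerivAt γ γ' 0 ∧ HasDerivAt (fun t => P.GaB τ (γ t)) d 0 ∧ d ≠ 0 := by
  obtain ⟨C, hC, hslope⟩ := cut_slope
  refine ⟨max 1 (C * hd.Sb + 1), ?_⟩
  intro P hP hT τ hτ v hv
  obtain ⟨t, u, b, y⟩ := v
  have hT1 : 1 ≤ P.T := (le_max_left _ _).trans hT
  have hT2 : C * P.hd.Sb + 1 ≤ P.T := by rw [hP]; exact (le_max_right _ _).trans hT
  have hT0 : 0 < P.T := by linarith
  have hSb : 0 ≤ P.hd.Sb := (abs_nonneg _).trans (P.hd.c_bound 0)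
  have hB : 0 < P.hd.B := by linarith [P.hd.hL, P.hd.hLB]
  by_cases h0 : b = 0 ∧ y = 0
  · obtain ⟨rfl, rfl⟩ := h0
    have hQ : (0 : ℝ) ≤ P.Q ^ 2 := sq_nonneg _
    have e1 : P.psic 0 = 1 := (cut_props 1 (P.T ^ 2) (by positivity)).2.1 0 (by norm_num)
    have e2 : P.chiq 0 = 1 := (cut_props (P.Q ^ 2) 1 one_pos).2.1 0 hQ
    have e3 : P.psiR 0 = 1 := (cut_props (1 / 4) P.T hT0).2.1 0 (by norm_num)
    have hval : ∀ (t : ℝ) (u : ℂ), P.GaB τ (t, u, 0, 0) = P.hd.c (xpt t u) := by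
      intro t u
      have q0 : qsq (0 : ℂ) 0 = 0 := by simp [qsq]
      simp only [Par.GaB, mul_zero, Complex.zero_im, Complex.zero_re, map_zero, add_zero,
        zero_div, q0]
      rw [show ((0 : ℝ) ^ 2) = 0 by norm_num, e1, e2, e3]
      ring
    rw [hval] at hv
    have hg := FPar.grad_ne P.hd _ hv
    obtain ⟨ξ, hξ⟩ : ∃ ξ : V3, fderiv ℝ P.hd.c (xpt t u) ξ ≠ 0 := by
      by_contra hcon
      push Not at hcon
      apply hg
      unfold grad3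
      rw [hcon, hcon, hcon]
      rfl
    have hγ : HasDerivAt (fun s : ℝ => ((t + s * ξ.1, u + (s : ℂ) * (⟨ξ.2.1, ξ.2.2⟩ : ℂ), 0, 0) : H7))
        (ξ.1, (⟨ξ.2.1, ξ.2.2⟩ : ℂ), 0, 0) 0 := by
      have h1 : HasDerivAt (fun s : ℝ => t + s * ξ.1) ξ.1 0 := by
        simpa using ((hasDerivAt_id' (0 : ℝ)).mul_const ξ.1).const_add t
      have h2 : HasDerivAt (fun s : ℝ => u + (s : ℂ) * (⟨ξ.2.1, ξ.2.2⟩ : ℂ))
          (⟨ξ.2.1, ξ.2.2⟩ : ℂ) 0 := by
        simpa using (((hasDerivAt_id' (0 : ℝ)).ofReal_comp).mul_const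
          (⟨ξ.2.1, ξ.2.2⟩ : ℂ)).const_add u
      exact h1.prodMk (h2.prodMk ((hasDerivAt_const _ _).prodMk (hasDerivAt_const _ _)))
    refine ⟨_, _, fderiv ℝ P.hd.c (xpt t u) ξ, ?_, hγ, ?_, hξ⟩
    · simp
    · have hx : HasDerivAt (fun s : ℝ => xpt (t + s * ξ.1)
          (u + (s : ℂ) * (⟨ξ.2.1, ξ.2.2⟩ : ℂ))) ξ 0 := by
        have h1 : HasDerivAt (fun s : ℝ => t + s * ξ.1) ξ.1 0 := by
          simpa using ((hasDerivAt_id' (0 : ℝ)).mul_const ξ.1).const_add t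
        have h2 : HasDerivAt (fun s : ℝ => u.re + s * ξ.2.1) ξ.2.1 0 := by
          simpa using ((hasDerivAt_id' (0 : ℝ)).mul_const ξ.2.1).const_add u.re
        have h3 : HasDerivAt (fun s : ℝ => u.im + s * ξ.2.2) ξ.2.2 0 := by
          simpa using ((hasDerivAt_id' (0 : ℝ)).mul_const ξ.2.2).const_add u.im
        have h4 := h1.prodMk (h2.prodMk h3)
        convert h4 using 1
        funext s
        simp [xpt]
      have hc : HasFDerivAt P.hd.c (fderiv ℝ P.hd.c (xpt t u))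
          (xpt (t + (0 : ℝ) * ξ.1) (u + ((0 : ℝ) : ℂ) * (⟨ξ.2.1, ξ.2.2⟩ : ℂ))) := by
        have h5 := (P.hd.c_smooth.differentiable (by simp) (xpt t u)).hasFDerivAt
        have h6 : xpt (t + (0 : ℝ) * ξ.1) (u + ((0 : ℝ) : ℂ) * (⟨ξ.2.1, ξ.2.2⟩ : ℂ)) = xpt t u := by
          simp
        rw [h6]
        exact h5
      have h7 := hc.comp_hasDerivAt (0 : ℝ) hx
      have h8 : (fun s : ℝ => P.GaB τ (t + s * ξ.1, u + (s : ℂ) * (⟨ξ.2.1, ξ.2.2⟩ : ℂ), 0, 0)) =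
          P.hd.c ∘ fun s : ℝ => xpt (t + s * ξ.1) (u + (s : ℂ) * (⟨ξ.2.1, ξ.2.2⟩ : ℂ)) := by
        funext s
        rw [hval]
        rfl
      rw [h8]
      exact h7
  · -- the main case
    set X := (b * y).re with hX
    set I := (b * y).im with hI
    set Nb := Complex.normSq b with hNb
    set Ny := Complex.normSq y with hNy
    set cc := P.hd.c (xpt t u) - t with hcc
    have hNb0 : 0 ≤ Nb := Complex.normSq_nonneg _
    have hNy0 : 0 ≤ Ny := Complex.normSq_nonneg _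
    have hR : 0 < Nb + Ny := by
      by_contra hcon
      apply h0
      have h1 : Nb = 0 := by linarith
      have h2 : Ny = 0 := by linarith
      exact ⟨Complex.normSq_eq_zero.1 h1, Complex.normSq_eq_zero.1 h2⟩
    have h2X : |2 * X| ≤ Nb + Ny := TC_reb b y
    have hXI : X ^ 2 + I ^ 2 = Nb * Ny := by
      rw [hX, hI, hNb, hNy]
      simp only [Complex.mul_re, Complex.mul_im, Complex.normSq_apply]
      ring
    have hccb : |cc| ≤ P.hd.Sb := P.hd.c_bound (xpt t u)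
    let γ : ℝ → H7 := fun s => (t, u, b + (s : ℂ) * conj y, y + (s : ℂ) * conj b)
    have hγ : HasDerivAt γ (0, 0, conj y, conj b) 0 := by
      have h1 : HasDerivAt (fun s : ℝ => b + (s : ℂ) * conj y) (conj y) 0 := by
        simpa using (((hasDerivAt_id' (0 : ℝ)).ofReal_comp).mul_const (conj y)).const_add b
      have h2 : HasDerivAt (fun s : ℝ => y + (s : ℂ) * conj b) (conj b) 0 := by
        simpa using (((hasDerivAt_id' (0 : ℝ)).ofReal_comp).mul_const (conj b)).const_add y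
      exact (hasDerivAt_const _ _).prodMk ((hasDerivAt_const _ _).prodMk (h1.prodMk h2))
    -- the functions along the curve
    have f1 : ∀ s : ℝ, ((b + (s : ℂ) * conj y) * (y + (s : ℂ) * conj b)).re =
        X + (Nb + Ny) * s + X * s ^ 2 + 0 * s ^ 3 + 0 * s ^ 4 := by
      intro s
      rw [hX, hNb, hNy]
      simp only [Complex.mul_re, Complex.add_re, Complex.add_im, Complex.mul_im,
        Complex.ofReal_re, Complex.ofReal_im, Complex.conj_re, Complex.conj_im,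
        Complex.normSq_apply]
      ring
    have f2 : ∀ s : ℝ, ((b + (s : ℂ) * conj y) * (y + (s : ℂ) * conj b)).im ^ 2 +
        Complex.normSq (y + (s : ℂ) * conj b) =
        (I ^ 2 + Ny) + (2 * X) * s + (Nb - 2 * I ^ 2) * s ^ 2 + 0 * s ^ 3 + I ^ 2 * s ^ 4 := by
      intro s
      rw [hX, hI, hNb, hNy]
      simp only [Complex.mul_re, Complex.add_re, Complex.add_im, Complex.mul_im,
        Complex.ofReal_re, Complex.ofReal_im, Complex.conj_re, Complex.conj_im,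
        Complex.normSq_apply]
      ring
    have f3 : ∀ s : ℝ, (Complex.normSq (b + (s : ℂ) * conj y) +
        Complex.normSq (y + (s : ℂ) * conj b)) / 2 =
        (Nb + Ny) / 2 + (2 * X) * s + ((Nb + Ny) / 2) * s ^ 2 + 0 * s ^ 3 + 0 * s ^ 4 := by
      intro s
      rw [hX, hNb, hNy]
      simp only [Complex.mul_re, Complex.add_re, Complex.add_im, Complex.mul_im,
        Complex.ofReal_re, Complex.ofReal_im, Complex.conj_re, Complex.conj_im,
        Complex.normSq_apply]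
      ring
    have f4 : ∀ s : ℝ, qsq ((b + (s : ℂ) * conj y) * (y + (s : ℂ) * conj b))
        (y + (s : ℂ) * conj b) =
        (X ^ 2 + I ^ 2 + Ny) + (2 * (Nb + Ny) * X + 2 * X) * s +
          (2 * X ^ 2 + (Nb + Ny) ^ 2 + Nb - 2 * I ^ 2) * s ^ 2 +
          (2 * (Nb + Ny) * X) * s ^ 3 + (X ^ 2 + I ^ 2) * s ^ 4 := by
      intro s
      have h1 : qsq ((b + (s : ℂ) * conj y) * (y + (s : ℂ) * conj b)) (y + (s : ℂ) * conj b) =
          ((b + (s : ℂ) * conj y) * (y + (s : ℂ) * conj b)).re ^ 2 +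
          (((b + (s : ℂ) * conj y) * (y + (s : ℂ) * conj b)).im ^ 2 +
            Complex.normSq (y + (s : ℂ) * conj b)) := by
        unfold qsq
        rw [Complex.normSq_apply ((b + (s : ℂ) * conj y) * (y + (s : ℂ) * conj b))]
        ring
      rw [h1, f1, f2]
      ring
    have hGs : ∀ s : ℝ, P.GaB τ (γ s) = t + ((1 - τ) * (P.psic ((I ^ 2 + Ny) + (2 * X) * s +
          (Nb - 2 * I ^ 2) * s ^ 2 + 0 * s ^ 3 + I ^ 2 * s ^ 4) *
        P.chiq ((X ^ 2 + I ^ 2 + Ny) + (2 * (Nb + Ny) * X + 2 * X) * s +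
          (2 * X ^ 2 + (Nb + Ny) ^ 2 + Nb - 2 * I ^ 2) * s ^ 2 +
          (2 * (Nb + Ny) * X) * s ^ 3 + (X ^ 2 + I ^ 2) * s ^ 4)) +
        τ * P.psiR ((Nb + Ny) / 2 + (2 * X) * s + ((Nb + Ny) / 2) * s ^ 2 + 0 * s ^ 3 +
          0 * s ^ 4)) * cc -
        (X + (Nb + Ny) * s + X * s ^ 2 + 0 * s ^ 3 + 0 * s ^ 4) := by
      intro s
      rw [← f1, ← f2, ← f3, ← f4]
      rfl
    have hv' : t + ((1 - τ) * (P.psic (I ^ 2 + Ny) * P.chiq (X ^ 2 + I ^ 2 + Ny)) +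
        τ * P.psiR ((Nb + Ny) / 2)) * cc - X = 0 := by
      have h1 := hGs 0
      have h2 : γ 0 = (t, u, b, y) := by simp [γ]
      rw [h2, hv] at h1
      have h3 : ∀ a b c d e : ℝ, a + b * 0 + c * 0 ^ 2 + d * 0 ^ 3 + e * 0 ^ 4 = a := by
        intros; ring
      rw [h3, h3, h3, h3] at h1
      exact h1.symm
    have hT2' : 0 < P.T ^ 2 := by positivity
    -- derivative
    have d1 := TC_poly (I ^ 2 + Ny) (2 * X) (Nb - 2 * I ^ 2) 0 (I ^ 2)
    have d2 := TC_poly (X ^ 2 + I ^ 2 + Ny) (2 * (Nb + Ny) * X + 2 * X)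
      (2 * X ^ 2 + (Nb + Ny) ^ 2 + Nb - 2 * I ^ 2) (2 * (Nb + Ny) * X) (X ^ 2 + I ^ 2)
    have d3 := TC_poly ((Nb + Ny) / 2) (2 * X) ((Nb + Ny) / 2) 0 0
    have d4 := TC_poly X (Nb + Ny) X 0 0
    have c1 : HasDerivAt P.psic (deriv P.psic (I ^ 2 + Ny)) (I ^ 2 + Ny + (2 * X) * 0 +
        (Nb - 2 * I ^ 2) * 0 ^ 2 + 0 * 0 ^ 3 + I ^ 2 * 0 ^ 4) := by
      rw [show I ^ 2 + Ny + (2 * X) * 0 + (Nb - 2 * I ^ 2) * 0 ^ 2 + 0 * 0 ^ 3 + I ^ 2 * 0 ^ 4 =
        I ^ 2 + Ny by ring]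
      exact TC_cut_has 1 (P.T ^ 2) _ hT2'
    have c2 : HasDerivAt P.chiq (deriv P.chiq (X ^ 2 + I ^ 2 + Ny)) (X ^ 2 + I ^ 2 + Ny +
        (2 * (Nb + Ny) * X + 2 * X) * 0 +
          (2 * X ^ 2 + (Nb + Ny) ^ 2 + Nb - 2 * I ^ 2) * 0 ^ 2 +
          (2 * (Nb + Ny) * X) * 0 ^ 3 + (X ^ 2 + I ^ 2) * 0 ^ 4) := by
      rw [show X ^ 2 + I ^ 2 + Ny + (2 * (Nb + Ny) * X + 2 * X) * 0 +
          (2 * X ^ 2 + (Nb + Ny) ^ 2 + Nb - 2 * I ^ 2) * 0 ^ 2 +
          (2 * (Nb + Ny) * X) * 0 ^ 3 + (X ^ 2 + I ^ 2) * 0 ^ 4 = X ^ 2 + I ^ 2 + Ny by ring]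
      exact TC_cut_has (P.Q ^ 2) 1 _ one_pos
    have c3 : HasDerivAt P.psiR (deriv P.psiR ((Nb + Ny) / 2)) ((Nb + Ny) / 2 + (2 * X) * 0 +
        ((Nb + Ny) / 2) * 0 ^ 2 + 0 * 0 ^ 3 + 0 * 0 ^ 4) := by
      rw [show (Nb + Ny) / 2 + (2 * X) * 0 + ((Nb + Ny) / 2) * 0 ^ 2 + 0 * 0 ^ 3 + 0 * 0 ^ 4 =
        (Nb + Ny) / 2 by ring]
      exact TC_cut_has (1 / 4) P.T _ hT0
    have m1 := c1.comp (0 : ℝ) d1
    have m2 := c2.comp (0 : ℝ) d2
    have m3 := c3.comp (0 : ℝ) d3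
    have m4 := ((((((m1.mul m2).const_mul (1 - τ)).add (m3.const_mul τ)).mul_const cc).const_add
      t).sub d4)
    refine ⟨γ, _, ((1 - τ) * (deriv P.psic (I ^ 2 + Ny) * (2 * X) *
          P.chiq (X ^ 2 + I ^ 2 + Ny) +
        P.psic (I ^ 2 + Ny) * (deriv P.chiq (X ^ 2 + I ^ 2 + Ny) *
          (2 * (Nb + Ny) * X + 2 * X))) + τ * (deriv P.psiR ((Nb + Ny) / 2) * (2 * X))) * cc -
        (Nb + Ny), by simp [γ], hγ, ?_, ?_⟩
    · have h8 := funext hGs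
      rw [h8]
      have h3 : ∀ a b c d e : ℝ, a + b * 0 + c * 0 ^ 2 + d * 0 ^ 3 + e * 0 ^ 4 = a := by
        intros; ring
      refine HasDerivAt.congr_deriv m4 ?_
      simp only [Function.comp, h3]
    · -- the value
      have k1 : P.psic (I ^ 2 + Ny) * deriv P.chiq (X ^ 2 + I ^ 2 + Ny) * cc = 0 := by
        by_cases hz : P.psic (I ^ 2 + Ny) * cc = 0
        · rw [mul_right_comm, hz, zero_mul]
        · have hz1 : P.psic (I ^ 2 + Ny) ≠ 0 := left_ne_zero_of_mul hz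
          have hz2 : cc ≠ 0 := right_ne_zero_of_mul hz
          have hY : I ^ 2 + Ny < 1 + P.T ^ 2 := by
            by_contra hcon
            exact hz1 ((cut_props 1 (P.T ^ 2) hT2').2.2.1 _ (not_lt.1 hcon))
          have hx : nsq3 (xpt t u) < P.hd.B ^ 2 := by
            by_contra hcon
            apply hz2
            rw [hcc, P.hd.c_far _ (not_lt.1 hcon)]
            simp [xpt]
          have ht : |t| ≤ P.hd.B := by
            apply abs_le_of_sq_le_sq _ hB.le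
            have : nsq3 (xpt t u) = t ^ 2 + u.re ^ 2 + u.im ^ 2 := rfl
            nlinarith [sq_nonneg u.re, sq_nonneg u.im]
          set Ψ := (1 - τ) * (P.psic (I ^ 2 + Ny) * P.chiq (X ^ 2 + I ^ 2 + Ny)) +
            τ * P.psiR ((Nb + Ny) / 2) with hΨ
          have p1 := (cut_props 1 (P.T ^ 2) hT2').2.2.2.1 (I ^ 2 + Ny)
          have p2 := (cut_props (P.Q ^ 2) 1 one_pos).2.2.2.1 (X ^ 2 + I ^ 2 + Ny)
          have p3 := (cut_props (1 / 4) P.T hT0).2.2.2.1 ((Nb + Ny) / 2)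
          change 0 ≤ P.psic (I ^ 2 + Ny) ∧ P.psic (I ^ 2 + Ny) ≤ 1 at p1
          change 0 ≤ P.chiq (X ^ 2 + I ^ 2 + Ny) ∧ P.chiq (X ^ 2 + I ^ 2 + Ny) ≤ 1 at p2
          change 0 ≤ P.psiR ((Nb + Ny) / 2) ∧ P.psiR ((Nb + Ny) / 2) ≤ 1 at p3
          have p4 : 0 ≤ P.psic (I ^ 2 + Ny) * P.chiq (X ^ 2 + I ^ 2 + Ny) :=
            mul_nonneg p1.1 p2.1
          have p5 : P.psic (I ^ 2 + Ny) * P.chiq (X ^ 2 + I ^ 2 + Ny) ≤ 1 :=
            mul_le_one₀ p1.2 p2.1 p2.2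
          have hΨ0 : 0 ≤ Ψ := by
            rw [hΨ]
            exact add_nonneg (mul_nonneg (by linarith [hτ.2]) p4) (mul_nonneg hτ.1 p3.1)
          have hΨ1 : Ψ ≤ 1 := by
            rw [hΨ]
            have q1 := mul_le_mul_of_nonneg_left p5 (by linarith [hτ.2] : (0 : ℝ) ≤ 1 - τ)
            have q2 := mul_le_mul_of_nonneg_left p3.2 hτ.1
            linarith
          have hXe : X = t + Ψ * cc := by linarith
          have hXb : |X| ≤ P.hd.B + P.hd.Sb := by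
            rw [hXe]
            refine (abs_add_le _ _).trans ?_
            rw [abs_mul, abs_of_nonneg hΨ0]
            have : Ψ * |cc| ≤ 1 * P.hd.Sb := mul_le_mul hΨ1 hccb (abs_nonneg _) zero_le_one
            linarith
          have hX2 : X ^ 2 ≤ (P.hd.B + P.hd.Sb) ^ 2 := by
            rw [← sq_abs X]
            exact pow_le_pow_left₀ (abs_nonneg _) hXb 2
          have hlt : X ^ 2 + I ^ 2 + Ny < P.Q ^ 2 := by
            have hQd : P.Q = P.hd.B + P.hd.Sb + P.T + 2 := rfl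
            rw [hQd]
            nlinarith [mul_nonneg (add_nonneg hB.le hSb) hT0.le]
          have : deriv P.chiq (X ^ 2 + I ^ 2 + Ny) = 0 := TC_cut_flat _ _ _ one_pos hlt
          rw [this, mul_zero, zero_mul]
      have s1 : |deriv P.psic (I ^ 2 + Ny)| ≤ C / P.T := by
        refine (hslope 1 (P.T ^ 2) hT2' _).trans ?_
        apply div_le_div_of_nonneg_left hC.le hT0
        nlinarith
      have s3 : |deriv P.psiR ((Nb + Ny) / 2)| ≤ C / P.T := hslope (1 / 4) P.T hT0 _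
      have p2 := (cut_props (P.Q ^ 2) 1 one_pos).2.2.2.1 (X ^ 2 + I ^ 2 + Ny)
      change 0 ≤ P.chiq (X ^ 2 + I ^ 2 + Ny) ∧ P.chiq (X ^ 2 + I ^ 2 + Ny) ≤ 1 at p2
      have hCT : 0 ≤ C / P.T := by positivity
      have hkey : |((1 - τ) * (deriv P.psic (I ^ 2 + Ny) * P.chiq (X ^ 2 + I ^ 2 + Ny)) +
          τ * deriv P.psiR ((Nb + Ny) / 2)) * (2 * X) * cc| ≤ (C / P.T) * (Nb + Ny) * P.hd.Sb := by
        rw [abs_mul, abs_mul]
        refine mul_le_mul (mul_le_mul ?_ h2X (abs_nonneg _) hCT) hccb (abs_nonneg _)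
          (mul_nonneg hCT hR.le)
        refine (abs_add_le _ _).trans ?_
        rw [abs_mul, abs_mul, abs_mul, abs_of_nonneg (by linarith [hτ.2] : (0 : ℝ) ≤ 1 - τ),
          abs_of_nonneg hτ.1, abs_of_nonneg p2.1]
        have q1 : |deriv P.psic (I ^ 2 + Ny)| * P.chiq (X ^ 2 + I ^ 2 + Ny) ≤ C / P.T * 1 :=
          mul_le_mul s1 p2.2 p2.1 hCT
        have q2 := mul_le_mul_of_nonneg_left q1 (by linarith [hτ.2] : (0 : ℝ) ≤ 1 - τ)
        have q3 := mul_le_mul_of_nonneg_left s3 hτ.1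
        linarith
      have hlt : (C / P.T) * (Nb + Ny) * P.hd.Sb < Nb + Ny := by
        have h1 : C / P.T * P.hd.Sb < 1 := by
          rw [div_mul_eq_mul_div, div_lt_one hT0]
          linarith
        calc (C / P.T) * (Nb + Ny) * P.hd.Sb = (C / P.T * P.hd.Sb) * (Nb + Ny) := by ring
          _ < 1 * (Nb + Ny) := mul_lt_mul_of_pos_right h1 hR
          _ = Nb + Ny := one_mul _
      have heq : ((1 - τ) * (deriv P.psic (I ^ 2 + Ny) * (2 * X) *
            P.chiq (X ^ 2 + I ^ 2 + Ny) +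
          P.psic (I ^ 2 + Ny) * (deriv P.chiq (X ^ 2 + I ^ 2 + Ny) *
            (2 * (Nb + Ny) * X + 2 * X))) + τ * (deriv P.psiR ((Nb + Ny) / 2) * (2 * X))) * cc -
          (Nb + Ny) = ((1 - τ) * (deriv P.psic (I ^ 2 + Ny) * P.chiq (X ^ 2 + I ^ 2 + Ny)) +
          τ * deriv P.psiR ((Nb + Ny) / 2)) * (2 * X) * cc - (Nb + Ny) := by
        linear_combination ((1 - τ) * (2 * (Nb + Ny) * X + 2 * X)) * k1
      rw [heq]
      have := (abs_le.1 hkey).2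
      apply ne_of_lt
      linarith

end Pool.Agent.H34.SY
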