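import Pool.Agent.H34.SY.TB

/-!
# Row TD: regularity of the family (a), chart cA

`v = (t, u, β, y)`, `x = (t, u)`, `q = (y, β y)`, `Y = Im(y)² + |β y|²`, `γ(s) = (t, u, β, y + s)`: `Re(y)' = 1`, `Y' = 2|β|² Re y`.
The term with the derivative of `chiq` vanishes: if `psic(Y)(c(x)-t) ≠ 0` then `|x| < B`, `Y < 1+T²`, and from `GaA τ v = 0`:
`|Re y| ≤ B + Sb`, so `|q|² = (Re y)² + Y < Q²` and `chiq = 1` near `|q|²`.  So `d = (1-τ) psic'(Y) 2|β|² (Re y) chiq (c-t) - 1`.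
If `psic'(Y) = 0` then `d = -1`.  Otherwise `Y ≤ 1+T²` (`psic` is locally constant on `Y > 1+T²`), `|β y|² ≤ 1 + T² ≤ 2T²`,
`|β|²|Re y| ≤ |β||β y| ≤ (1/√(2T)) √2 T`.. `|β|² < 1/(2T)`, so `|β|²|Re y| ≤ √T`, and `|psic'| ≤ C/T²`:
`|d| ≥ 1 - 2 C Sb √T/T² > 0` for `T` large (`√T ≤ T` for `T ≥ 1` gives `2 C Sb/T < 1`).
-/

open Set Topology
open scoped ContDiff ComplexConjugate

namespace Pool.Agent.H34.SY

theorem TD_curve (v : H7) :
    HasDerivAt (fun s : ℝ => ((v.1, v.2.1, v.2.2.1, v.2.2.2 + (s : ℂ)) : H7)) (0, 0, 0, 1) 0 := by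
  have h : HasDerivAt (fun s : ℝ => v.2.2.2 + (s : ℂ)) 1 0 :=
    (Complex.ofRealCLM.hasDerivAt (x := (0 : ℝ))).const_add v.2.2.2
  exact (hasDerivAt_const (0 : ℝ) v.1).prodMk ((hasDerivAt_const (0 : ℝ) v.2.1).prodMk
    ((hasDerivAt_const (0 : ℝ) v.2.2.1).prodMk h))

theorem TD_expr (P : Par) (τ : ℝ) (v : H7) (s : ℝ) :
    P.GaA τ ((v.1, v.2.1, v.2.2.1, v.2.2.2 + (s : ℂ)) : H7) =
      v.1 + (1 - τ) * (P.psic (v.2.2.2.im ^ 2 +
          Complex.normSq v.2.2.1 * ((v.2.2.2.re + s) ^ 2 + v.2.2.2.im ^ 2)) *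
        P.chiq ((1 + Complex.normSq v.2.2.1) * ((v.2.2.2.re + s) ^ 2 + v.2.2.2.im ^ 2))) *
        (P.hd.c (xpt v.1 v.2.1) - v.1) - (v.2.2.2.re + s) := by
  have h1 : Complex.normSq (v.2.2.2 + (s : ℂ)) = (v.2.2.2.re + s) ^ 2 + v.2.2.2.im ^ 2 := by
    rw [Complex.normSq_apply]; simp; ring
  have h2 : (v.2.2.2 + (s : ℂ)).im = v.2.2.2.im := by simp
  have h3 : (v.2.2.2 + (s : ℂ)).re = v.2.2.2.re + s := by simp
  have h4 : qsq (v.2.2.2 + (s : ℂ)) (v.2.2.1 * (v.2.2.2 + (s : ℂ))) =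
      (1 + Complex.normSq v.2.2.1) * ((v.2.2.2.re + s) ^ 2 + v.2.2.2.im ^ 2) := by
    unfold qsq; rw [map_mul, h1]; ring
  show v.1 + (1 - τ) * (P.psic ((v.2.2.2 + (s : ℂ)).im ^ 2 +
      Complex.normSq (v.2.2.1 * (v.2.2.2 + (s : ℂ)))) *
      P.chiq (qsq (v.2.2.2 + (s : ℂ)) (v.2.2.1 * (v.2.2.2 + (s : ℂ))))) *
      (P.hd.c (xpt v.1 v.2.1) - v.1) - (v.2.2.2 + (s : ℂ)).re = _
  rw [h4, map_mul, h1, h2, h3]

theorem TD_q {R T a Y : ℝ} (hR : 0 ≤ R) (hT : 1 ≤ T) (ha : |a| ≤ R) (hY : Y < 1 + T ^ 2) :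
    a ^ 2 + Y < (R + T + 2) ^ 2 := by
  have h1 : a ^ 2 ≤ R ^ 2 := by
    rw [← sq_abs a]
    exact pow_le_pow_left₀ (abs_nonneg a) ha 2
  nlinarith [mul_nonneg hR (by linarith : (0 : ℝ) ≤ T)]

theorem TD_b {T b a m : ℝ} (hT : 1 ≤ T) (hb0 : 0 ≤ b) (hb : 2 * (1 / 4 + T) * b < 1)
    (hY : m ^ 2 + b * (a ^ 2 + m ^ 2) ≤ 1 + T ^ 2) : |b * (2 * a)| ≤ 2 * T := by
  have h0 : 0 ≤ b * m ^ 2 := mul_nonneg hb0 (sq_nonneg m)
  have h1 : b * a ^ 2 ≤ 2 * T ^ 2 := by nlinarith [sq_nonneg m]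
  have h2 : b * (2 * T) ≤ 1 := by nlinarith
  have h3 : (b * |a|) ^ 2 ≤ T ^ 2 := by
    have h4 : (b * |a|) ^ 2 = b * (b * a ^ 2) := by
      rw [mul_pow, sq_abs]; ring
    rw [h4]
    have h5 : b * (b * a ^ 2) ≤ b * (2 * T ^ 2) := mul_le_mul_of_nonneg_left h1 hb0
    have h6 : b * (2 * T ^ 2) = (b * (2 * T)) * T := by ring
    have h7 : (b * (2 * T)) * T ≤ 1 * T := mul_le_mul_of_nonneg_right h2 (by linarith)
    nlinarith
  have h7 : b * |a| ≤ T := le_of_sq_le_sq h3 (by linarith)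
  rw [abs_mul, abs_mul, abs_of_nonneg hb0, abs_two]
  linarith

theorem TD_t {t x y B : ℝ} (hB : 0 ≤ B) (h : t ^ 2 + x ^ 2 + y ^ 2 < B ^ 2) : |t| ≤ B := by
  apply abs_le_of_sq_le_sq _ hB
  nlinarith [sq_nonneg x, sq_nonneg y]

theorem GaA_reg (hd : Handle) : ∃ T0 : ℝ, ∀ P : Par, P.hd = hd → T0 ≤ P.T →
    ∀ τ ∈ Icc (0 : ℝ) 1, ∀ v : H7, 2 * (1 / 4 + P.T) * Complex.normSq v.2.2.1 < 1 →
      P.GaA τ v = 0 → ∃ (γ : ℝ → H7) (γ' : H7) (d : ℝ),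
      γ 0 = v ∧ HasDerivAt γ γ' 0 ∧ HasDerivAt (fun t => P.GaA τ (γ t)) d 0 ∧ d ≠ 0 := by
  obtain ⟨C, hC, hslope⟩ := cut_slope
  have hSb : 0 ≤ hd.Sb := le_trans (abs_nonneg _) (hd.c_bound 0)
  refine ⟨2 * C * hd.Sb + 1, fun P hP hT τ hτ v hb h0 => ?_⟩
  have hT1 : 1 ≤ P.T := by
    have : 0 ≤ 2 * C * hd.Sb := by positivity
    linarith
  have hT2 : 2 * C * hd.Sb < P.T := by linarith
  have hB : 0 < hd.B := by linarith [hd.hL, hd.hLB]
  have hTT : 0 < P.T ^ 2 := by positivity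
  obtain ⟨p1, p2, p3, p4, _⟩ := cut_props 1 (P.T ^ 2) hTT
  obtain ⟨q1, q2, _, q4, _⟩ := cut_props (P.Q ^ 2) 1 one_pos
  set b := Complex.normSq v.2.2.1 with hbdef
  set a := v.2.2.2.re with hadef
  set m := v.2.2.2.im with hmdef
  set D := P.hd.c (xpt v.1 v.2.1) - v.1 with hD
  have hb0 : 0 ≤ b := Complex.normSq_nonneg _
  have hDb : |D| ≤ hd.Sb := by
    rw [hD, hP]
    exact hd.c_bound (xpt v.1 v.2.1)
  have hτ0 : 0 ≤ 1 - τ := by linarith [hτ.2]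
  have hτ1 : 1 - τ ≤ 1 := by linarith [hτ.1]
  -- the function along the curve
  set Y0 := m ^ 2 + b * (a ^ 2 + m ^ 2) with hY0
  set q0 := (1 + b) * (a ^ 2 + m ^ 2) with hq0
  have hq0' : q0 = a ^ 2 + Y0 := by rw [hq0, hY0]; ring
  have hexpr := TD_expr P τ v
  have hY : HasDerivAt (fun s : ℝ => m ^ 2 + b * ((a + s) ^ 2 + m ^ 2)) (b * (2 * a)) 0 := by
    have h1 : HasDerivAt (fun s : ℝ => a + s) 1 0 := (hasDerivAt_id (0 : ℝ)).const_add a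
    have h2 := ((h1.pow 2).add_const (m ^ 2)).const_mul b
    have h3 := h2.const_add (m ^ 2)
    refine h3.congr_deriv ?_
    norm_num
  have hq : HasDerivAt (fun s : ℝ => (1 + b) * ((a + s) ^ 2 + m ^ 2)) ((1 + b) * (2 * a)) 0 := by
    have h1 : HasDerivAt (fun s : ℝ => a + s) 1 0 := (hasDerivAt_id (0 : ℝ)).const_add a
    have h2 := ((h1.pow 2).add_const (m ^ 2)).const_mul (1 + b)
    refine h2.congr_deriv ?_
    norm_num
  have eY : (m ^ 2 + b * ((a + 0) ^ 2 + m ^ 2)) = Y0 := by rw [hY0]; ring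
  have eq0 : ((1 + b) * ((a + 0) ^ 2 + m ^ 2)) = q0 := by rw [hq0]; ring
  have hps : HasDerivAt P.psic (deriv (cut 1 (P.T ^ 2)) Y0)
      (m ^ 2 + b * ((a + 0) ^ 2 + m ^ 2)) := by
    rw [eY]
    exact (p1.differentiable (by simp) Y0).hasDerivAt
  have hch : HasDerivAt P.chiq (deriv (cut (P.Q ^ 2) 1) q0)
      ((1 + b) * ((a + 0) ^ 2 + m ^ 2)) := by
    rw [eq0]
    exact (q1.differentiable (by simp) q0).hasDerivAt
  have hc1 := hps.comp (0 : ℝ) hY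
  have hc2 := hch.comp (0 : ℝ) hq
  have hc3 := (((hc1.mul hc2).const_mul (1 - τ)).mul_const D).const_add v.1
  have hc4 := hc3.sub ((hasDerivAt_id (0 : ℝ)).const_add a)
  have hc5 : HasDerivAt (fun s : ℝ => P.GaA τ ((v.1, v.2.1, v.2.2.1, v.2.2.2 + (s : ℂ)) : H7))
      ((1 - τ) * (deriv (cut 1 (P.T ^ 2)) Y0 * (b * (2 * a)) * P.chiq q0 +
        P.psic Y0 * (deriv (cut (P.Q ^ 2) 1) q0 * ((1 + b) * (2 * a)))) * D - 1) 0 := by
    have hfun : (fun s : ℝ => P.GaA τ ((v.1, v.2.1, v.2.2.1, v.2.2.2 + (s : ℂ)) : H7)) =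
        fun s : ℝ => v.1 + (1 - τ) * (P.psic (m ^ 2 + b * ((a + s) ^ 2 + m ^ 2)) *
          P.chiq ((1 + b) * ((a + s) ^ 2 + m ^ 2))) * D - (a + s) := by
      funext s
      exact hexpr s
    rw [hfun]
    refine hc4.congr_deriv ?_
    simp only [Function.comp, eY, eq0]
  refine ⟨fun s => (v.1, v.2.1, v.2.2.1, v.2.2.2 + (s : ℂ)), (0, 0, 0, 1), _, ?_, TD_curve v,
    hc5, ?_⟩
  · simp
  · -- the derivative does not vanish
    have hpY : 0 ≤ P.psic Y0 ∧ P.psic Y0 ≤ 1 := p4 Y0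
    have hcq : 0 ≤ P.chiq q0 ∧ P.chiq q0 ≤ 1 := q4 q0
    have h00 : v.1 + (1 - τ) * (P.psic Y0 * P.chiq q0) * D - a = 0 := by
      have h1 := hexpr 0
      rw [eY, eq0] at h1
      have h2 : ((v.1, v.2.1, v.2.2.1, v.2.2.2 + ((0 : ℝ) : ℂ)) : H7) = v := by simp
      rw [h2, h0] at h1
      linarith
    -- second term
    have hsec : P.psic Y0 * deriv (cut (P.Q ^ 2) 1) q0 * D = 0 := by
      by_cases hD0 : D = 0
      · rw [hD0, mul_zero]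
      by_cases hp0 : P.psic Y0 = 0
      · rw [hp0, zero_mul, zero_mul]
      have hx : nsq3 (xpt v.1 v.2.1) < hd.B ^ 2 := by
        by_contra hcon
        apply hD0
        have := hd.c_far _ (not_lt.1 hcon)
        rw [hD, hP, this]
        show v.1 - v.1 = 0
        ring
      have ht' : |v.1| ≤ hd.B := TD_t hB.le hx
      have hY1 : Y0 < 1 + P.T ^ 2 := by
        by_contra hcon
        exact hp0 (p3 Y0 (not_lt.1 hcon))
      have hab : |a| ≤ hd.B + hd.Sb := by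
        have h1 : a = v.1 + (1 - τ) * (P.psic Y0 * P.chiq q0) * D := by linarith
        have h2 : |(1 - τ) * (P.psic Y0 * P.chiq q0) * D| ≤ hd.Sb := by
          rw [abs_mul]
          have h3 : |(1 - τ) * (P.psic Y0 * P.chiq q0)| ≤ 1 := by
            rw [abs_of_nonneg (mul_nonneg hτ0 (mul_nonneg hpY.1 hcq.1))]
            exact mul_le_one₀ hτ1 (mul_nonneg hpY.1 hcq.1) (mul_le_one₀ hpY.2 hcq.1 hcq.2)
          calc _ ≤ 1 * |D| := mul_le_mul_of_nonneg_right h3 (abs_nonneg _)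
            _ ≤ hd.Sb := by rw [one_mul]; exact hDb
        rw [h1]
        exact (abs_add_le _ _).trans (add_le_add ht' h2)
      have hQ : P.Q = hd.B + hd.Sb + P.T + 2 := by unfold Par.Q; rw [hP]
      have hlt : q0 < P.Q ^ 2 := by
        rw [hq0', hQ]
        exact TD_q (by linarith) hT1 hab hY1
      have hconst : cut (P.Q ^ 2) 1 =ᶠ[𝓝 q0] fun _ => (1 : ℝ) := by
        filter_upwards [Iio_mem_nhds hlt] with s hs
        exact q2 s (le_of_lt hs)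
      rw [hconst.deriv_eq]
      simp
    -- first term
    have hfst : |deriv (cut 1 (P.T ^ 2)) Y0 * (b * (2 * a))| * hd.Sb < 1 := by
      by_cases hY1 : 1 + P.T ^ 2 < Y0
      · have hconst : cut 1 (P.T ^ 2) =ᶠ[𝓝 Y0] fun _ => (0 : ℝ) := by
          filter_upwards [Ioi_mem_nhds hY1] with s hs
          exact p3 s (le_of_lt hs)
        rw [hconst.deriv_eq]
        simp
      · have hY2 : Y0 ≤ 1 + P.T ^ 2 := not_lt.1 hY1
        have h8 : |b * (2 * a)| ≤ 2 * P.T := TD_b hT1 hb0 hb hY2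
        rw [abs_mul]
        have h9 := hslope 1 (P.T ^ 2) hTT Y0
        calc |deriv (cut 1 (P.T ^ 2)) Y0| * |b * (2 * a)| * hd.Sb
            ≤ (C / P.T ^ 2) * (2 * P.T) * hd.Sb := by
              apply mul_le_mul_of_nonneg_right _ hSb
              exact mul_le_mul h9 h8 (abs_nonneg _) (by positivity)
          _ = 2 * C * hd.Sb / P.T := by
              field_simp
          _ < 1 := by
              rw [div_lt_one (by linarith)]
              exact hT2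
    intro hzero
    have hz2 : (1 - τ) * (deriv (cut 1 (P.T ^ 2)) Y0 * (b * (2 * a)) * P.chiq q0 * D) = 1 := by
      have h5 : (1 - τ) * (deriv (cut 1 (P.T ^ 2)) Y0 * (b * (2 * a)) * P.chiq q0 * D) +
          (1 - τ) * ((1 + b) * (2 * a)) * (P.psic Y0 * deriv (cut (P.Q ^ 2) 1) q0 * D) = 1 := by
        linear_combination hzero
      rw [hsec, mul_zero, add_zero] at h5
      exact h5
    have hz3 : |(1 - τ) * (deriv (cut 1 (P.T ^ 2)) Y0 * (b * (2 * a)) * P.chiq q0 * D)| < 1 := by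
      rw [abs_mul, abs_mul, abs_mul, abs_of_nonneg hτ0, abs_of_nonneg hcq.1]
      have h6 : |deriv (cut 1 (P.T ^ 2)) Y0 * (b * (2 * a))| * P.chiq q0 * |D| ≤
          |deriv (cut 1 (P.T ^ 2)) Y0 * (b * (2 * a))| * hd.Sb := by
        apply mul_le_mul _ hDb (abs_nonneg _) (abs_nonneg _)
        exact mul_le_of_le_one_right (abs_nonneg _) hcq.2
      have h7 : 0 ≤ |deriv (cut 1 (P.T ^ 2)) Y0 * (b * (2 * a))| * P.chiq q0 * |D| :=
        mul_nonneg (mul_nonneg (abs_nonneg _) hcq.1) (abs_nonneg _)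
      calc _ ≤ 1 * (|deriv (cut 1 (P.T ^ 2)) Y0 * (b * (2 * a))| * P.chiq q0 * |D|) :=
            mul_le_mul_of_nonneg_right hτ1 h7
        _ ≤ |deriv (cut 1 (P.T ^ 2)) Y0 * (b * (2 * a))| * hd.Sb := by rw [one_mul]; exact h6
        _ < 1 := hfst
    rw [hz2] at hz3
    simp at hz3

end Pool.Agent.H34.SY
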