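import Pool.Agent.H34.SY.TC
import Pool.Agent.H34.SY.TD

/-!
# Row TE: isotopy (a)

`T0` = max of `1` and of the `T0` of rows TC, TD; `La0` such that `OkT` holds for `La ≥ La0`.  `isoFam_of` with `η = 1`, `t0 = B`:
outside `|t| ≤ B`, `s ≤ -2` the family does not depend on `τ` (if `|t| > B` then `c(x) = t`, and all terms with `τ` have the
factor `c(x) - t`; if `s > -2` then `s > -3La/4`, `Fa_lin`; if `w1 = -1`, definition).
`RegAt`: if `w1 < (1-B²)/(1+B²)` or `-3La/4 < s`: `regAt_lin`, `Fa_lin`.  Otherwise `w1 > -1`, `s < 0`, `p = rhoN z ∈ FPS La`.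
If `h0 < 1`: `regAt_N` with `chart_cB La hLa (-1)`, `Fa_cB`, `GaB_reg`.  If `h0 = 1`: `regAt_N` with
`(chart_cA ..).restrict_model` to the open set `{v | 2 (1/4+T) |v.2.2.1|² < 1}` (`ρ p` has `β = h/(1+h0) = 0` since
`|h|² = 1 - h0² = 0`), `Fa_cA`, `GaA_reg`.
-/

open Set Topology
open scoped ContDiff ComplexConjugate

namespace Pool.Agent.H34.SY

/-- `OkT` holds for large `La`. -/
theorem okT_large (hd : Handle) (T : ℝ) (hT : 1 ≤ T) : ∃ La0 : ℝ, ∀ La : ℝ, La0 ≤ La → ∀ rb : ℝ,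
    (⟨hd, T, La, rb⟩ : Par).OkT := by
  have hC : 0 ≤ (hd.B + hd.Sb + T + 2) ^ 2 + 1 + (1 / 2 + 2 * T) * (3 / 2 + 2 * T) := by
    positivity
  refine ⟨4 + ((hd.B + hd.Sb + T + 2) ^ 2 + 1 + (1 / 2 + 2 * T) * (3 / 2 + 2 * T)),
    fun La hLa rb => ⟨hT, ?_, ?_⟩⟩
  · show 4 ≤ La
    linarith
  · show (hd.B + hd.Sb + T + 2) ^ 2 + 1 + (1 / 2 + 2 * T) * (3 / 2 + 2 * T) ≤ 7 / 16 * La ^ 2
    generalize (hd.B + hd.Sb + T + 2) ^ 2 + 1 + (1 / 2 + 2 * T) * (3 / 2 + 2 * T) = C at hC hLa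
    nlinarith

/-- Far out in `t` the family does not depend on `τ`. -/
theorem TE_far (P : Par) {z : EA} (h : P.hd.B < |eT z|) (τ : ℝ) :
    P.Fa τ z = eT z - (eZe z).re := by
  have hB : 0 < P.hd.B := by linarith [P.hd.hL, P.hd.hLB]
  unfold Par.Fa
  split_ifs with h1
  · unfold Par.FaN
    split_ifs with h2 h3
    all_goals try rfl
    all_goals
      have h4 : P.hd.B ^ 2 ≤ nsq3 (xpt (fT (rhoN z)) (fU (rhoN z))) := by
        have h5 : P.hd.B ^ 2 ≤ (eT z) ^ 2 := by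
          rw [← sq_abs (eT z)]
          exact pow_le_pow_left₀ hB.le h.le 2
        have h6 : (eT z) ^ 2 ≤ nsq3 (xpt (fT (rhoN z)) (fU (rhoN z))) := by
          show (eT z) ^ 2 ≤ (eT z) ^ 2 + (fU (rhoN z)).re ^ 2 + (fU (rhoN z)).im ^ 2
          nlinarith [sq_nonneg (fU (rhoN z)).re, sq_nonneg (fU (rhoN z)).im]
        exact h5.trans h6
      have h7 : P.hd.c (xpt (fT (rhoN z)) (fU (rhoN z))) = fT (rhoN z) := P.hd.c_far _ h4
      rw [h7, sub_self, mul_zero, add_zero]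
      rfl
  · rfl

theorem isoFam_Fa (hd : Handle) : ∃ T0 : ℝ, ∀ T : ℝ, T0 ≤ T → ∃ La0 : ℝ, ∀ La : ℝ, La0 ≤ La →
    ∀ rb : ℝ, ∀ P : Par, P = ⟨hd, T, La, rb⟩ → IsoFam P.La P.Fa := by
  obtain ⟨TB, hTB⟩ := GaB_reg hd
  obtain ⟨TA, hTA⟩ := GaA_reg hd
  refine ⟨max 1 (max TB TA), fun T hT => ?_⟩
  have hT1 : 1 ≤ T := (le_max_left _ _).trans hT
  have hT2 : TB ≤ T := ((le_max_left _ _).trans (le_max_right _ _)).trans hT
  have hT3 : TA ≤ T := ((le_max_right _ _).trans (le_max_right _ _)).trans hT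
  obtain ⟨La0, hLa0⟩ := okT_large hd T hT1
  refine ⟨La0, fun La hLa rb P hP => ?_⟩
  have hOk : P.OkT := by rw [hP]; exact hLa0 La hLa rb
  have hPhd : P.hd = hd := by rw [hP]
  have hPT : P.T = T := by rw [hP]
  have hLap : 0 < P.La := by linarith [hOk.hLa]
  have hB : 0 < P.hd.B := by linarith [P.hd.hL, P.hd.hLB]
  refine isoFam_of P.Fa (fun z hz => ?_) P.hd.B 1 one_pos (fun z hz hout => Or.inl ?_)
  · by_cases hcase : eW1 z < (1 - P.hd.B ^ 2) / (1 + P.hd.B ^ 2) ∨ -(3 / 4) * P.La < eS z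
    · refine regAt_lin hLap P.Fa hz
        ({y : EA | eW1 y < (1 - P.hd.B ^ 2) / (1 + P.hd.B ^ 2)} ∪ {y : EA | -(3 / 4) * P.La < eS y})
        ((isOpen_lt (continuous_fst.comp continuous_snd) continuous_const).union
          (isOpen_lt continuous_const TA_contS)) hcase ?_
      intro y hy τ
      exact Fa_lin P hOk hy.1 hy.2 τ
    · push Not at hcase
      have h1 : -1 < eW1 z := by
        refine lt_of_lt_of_le ?_ hcase.1
        rw [lt_div_iff₀ (by positivity)]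
        linarith
      obtain ⟨hp, _⟩ := rhoN_mem hz h1
      have hs : fS (rhoN z) = eS z := rfl
      have hs2 : 0 < -1 * fS (rhoN z) := by
        rw [hs]
        linarith [hcase.2]
      rcases lt_or_ge (fH0 (rhoN z)) 1 with h0 | h0
      · exact regAt_N finrank_H7 (chart_cB P.La hLap (-1) (Or.inr rfl)) P.Fa h1 ⟨h0, hs2⟩ P.GaB
          (fun τ v hv => Fa_cB P hLap hv τ) (contDiff_GaB P).contDiffOn
          (fun τ hτ v _ hv0 => hTB P hPhd (by rw [hPT]; exact hT2) τ hτ v hv0)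
      · have hV' : IsOpen {v : H7 | 2 * (1 / 4 + P.T) * Complex.normSq v.2.2.1 < 1} :=
          isOpen_lt (continuous_const.mul (Complex.continuous_normSq.comp
            (continuous_fst.comp (continuous_snd.comp continuous_snd)))) continuous_const
        have hh : Complex.normSq (fH (rhoN z)) = 0 := by
          have e1 := hp.1
          have e2 := Complex.normSq_nonneg (fH (rhoN z))
          nlinarith
        have hh2 : fH (rhoN z) = 0 := Complex.normSq_eq_zero.1 hh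
        refine regAt_N finrank_H7 ((chart_cA P.La hLap (-1) (Or.inr rfl)).restrict_model hV') P.Fa
          h1 ⟨⟨by linarith, hs2⟩, ?_⟩ P.GaA
          (fun τ v hv => Fa_cA P (by rw [hPT]; linarith) hLap hv.1 hv.2 τ)
          (contDiff_GaA P).contDiffOn
          (fun τ hτ v hv hv0 => hTA P hPhd (by rw [hPT]; exact hT3) τ hτ v hv.2 hv0)
        show 2 * (1 / 4 + P.T) *
          Complex.normSq (((1 + fH0 (rhoN z))⁻¹ : ℝ) * fH (rhoN z)) < 1
        rw [hh2, mul_zero, map_zero, mul_zero]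
        exact one_pos
  · intro τ _
    rcases hout with h | h
    · rw [TE_far P h τ, TE_far P h 0]
    · have h2 : -(3 / 4) * P.La < eS z := by
        have := hOk.hLa
        linarith
      rw [Fa_lin P hOk hz (Or.inr h2) τ, Fa_lin P hOk hz (Or.inr h2) 0]

end Pool.Agent.H34.SY
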