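import Pool.Agent.H34.SY.TB
import Pool.Agent.H34.SY.MD

/-!
# Row TF: the family FD, basic facts

`ghat hd l x = mixq l (g x) / |mixq l (g x)|`, a smooth unit quaternion, for all real `l`, `x`.

* `mixq_ne_all`: if `mixq l g = 0` then `l ≠ 0`, `g₁ = g₂ = g₃ = 0`, `1 - l + l g₀ = 0`; `|g| = 1` gives `g₀ = ±1`: `g₀ = 1` gives `1 = 0`, and
  `g₀ = -1` contradicts `g_ne`.
* `yy_ghat`: unfold `qgbar`, `qb` (file MD); components are linear in the quaternion, division by `√(nsq4 ..)`.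
* `contDiff_FNm`: all real `τ`.
* `FNm_small`: `|Im yy|² ≤ |yy|² = |q|² ≤ 1` (`|qb ζ z g|² = |q|² |g|²`), so `psic = 1`, and `chiq = 1` since `1 ≤ Q²`.
* `FNm_mid`: `lamb = 0`, `mixq 0 g = (1,0,0,0)`.
* `FD_lin`: `-3La/4 < s`: if `s ≥ 0` by definition; if `s < 0` then `|q|² = La² - s² > 7La²/16 ≥ Q²+1 ≥ rb²`.
* `FD_0`: `FD 0 = Fa 0` on `WS` (`mixq 0 g = (1,0,0,0)`; if `w1 = -1`, `FS 0 p = t - Re ζ`).
-/

open Set Topology
open scoped ContDiff ComplexConjugate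

namespace Pool.Agent.H34.SY

noncomputable section

def ghat (hd : Handle) (l : ℝ) (x : V3) : V4 :=
  ((mixq l (hd.g x)).1 / Real.sqrt (nsq4 (mixq l (hd.g x))),
    (mixq l (hd.g x)).2.1 / Real.sqrt (nsq4 (mixq l (hd.g x))),
    (mixq l (hd.g x)).2.2.1 / Real.sqrt (nsq4 (mixq l (hd.g x))),
    (mixq l (hd.g x)).2.2.2 / Real.sqrt (nsq4 (mixq l (hd.g x))))

theorem TF_ns_re (z : ℂ) : Complex.normSq z = z.re ^ 2 + z.im ^ 2 := by
  rw [Complex.normSq_apply]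
  ring

theorem mixq_ne_all (hd : Handle) (l : ℝ) (x : V3) : 0 < nsq4 (mixq l (hd.g x)) := by
  have h1 := hd.g_unit x
  have h2 := hd.g_ne x
  generalize hd.g x = g at h1 h2 ⊢
  obtain ⟨g0, g1, g2, g3⟩ := g
  unfold nsq4 at h1 ⊢
  unfold mixq
  dsimp only at h1 ⊢
  by_contra hcon
  push Not at hcon
  have a0 : (1 - l + l * g0) ^ 2 = 0 := by nlinarith [sq_nonneg (1 - l + l * g0), sq_nonneg (l * g1), sq_nonneg (l * g2), sq_nonneg (l * g3)]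
  have a1 : (l * g1) ^ 2 = 0 := by nlinarith [sq_nonneg (1 - l + l * g0), sq_nonneg (l * g1), sq_nonneg (l * g2), sq_nonneg (l * g3)]
  have a2 : (l * g2) ^ 2 = 0 := by nlinarith [sq_nonneg (1 - l + l * g0), sq_nonneg (l * g1), sq_nonneg (l * g2), sq_nonneg (l * g3)]
  have a3 : (l * g3) ^ 2 = 0 := by nlinarith [sq_nonneg (1 - l + l * g0), sq_nonneg (l * g1), sq_nonneg (l * g2), sq_nonneg (l * g3)]
  have b0 : 1 - l + l * g0 = 0 := by simpa using a0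
  have b1 : l * g1 = 0 := by simpa using a1
  have b2 : l * g2 = 0 := by simpa using a2
  have b3 : l * g3 = 0 := by simpa using a3
  have hl : l ≠ 0 := by
    rintro rfl
    norm_num at b0
  have c1 : g1 = 0 := (mul_eq_zero.1 b1).resolve_left hl
  have c2 : g2 = 0 := (mul_eq_zero.1 b2).resolve_left hl
  have c3 : g3 = 0 := (mul_eq_zero.1 b3).resolve_left hl
  subst c1 c2 c3
  have c0 : (g0 - 1) * (g0 + 1) = 0 := by nlinarith
  rcases mul_eq_zero.1 c0 with h | h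
  · have h3 : g0 = 1 := by linarith
    rw [h3] at b0
    norm_num at b0
  · have h3 : g0 = -1 := by linarith
    exact h2 (by rw [h3])

theorem TF_mix_cd (hd : Handle) : ContDiff ℝ ∞ (fun p : ℝ × V3 => mixq p.1 (hd.g p.2)) := by
  have hg : ContDiff ℝ ∞ (fun p : ℝ × V3 => hd.g p.2) := hd.g_smooth.comp contDiff_snd
  have g0 : ContDiff ℝ ∞ (fun p : ℝ × V3 => (hd.g p.2).1) := contDiff_fst.comp hg
  have g1 : ContDiff ℝ ∞ (fun p : ℝ × V3 => (hd.g p.2).2.1) :=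
    contDiff_fst.comp (contDiff_snd.comp hg)
  have g2 : ContDiff ℝ ∞ (fun p : ℝ × V3 => (hd.g p.2).2.2.1) :=
    contDiff_fst.comp (contDiff_snd.comp (contDiff_snd.comp hg))
  have g3 : ContDiff ℝ ∞ (fun p : ℝ × V3 => (hd.g p.2).2.2.2) :=
    contDiff_snd.comp (contDiff_snd.comp (contDiff_snd.comp hg))
  have hl : ContDiff ℝ ∞ (fun p : ℝ × V3 => p.1) := contDiff_fst
  unfold mixq
  exact ((contDiff_const.sub hl).add (hl.mul g0)).prodMk
    ((hl.mul g1).prodMk ((hl.mul g2).prodMk (hl.mul g3)))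

theorem TF_sq_cd (hd : Handle) :
    ContDiff ℝ ∞ (fun p : ℝ × V3 => Real.sqrt (nsq4 (mixq p.1 (hd.g p.2)))) := by
  have hm := TF_mix_cd hd
  have m0 : ContDiff ℝ ∞ (fun p : ℝ × V3 => (mixq p.1 (hd.g p.2)).1) := contDiff_fst.comp hm
  have m1 : ContDiff ℝ ∞ (fun p : ℝ × V3 => (mixq p.1 (hd.g p.2)).2.1) :=
    contDiff_fst.comp (contDiff_snd.comp hm)
  have m2 : ContDiff ℝ ∞ (fun p : ℝ × V3 => (mixq p.1 (hd.g p.2)).2.2.1) :=
    contDiff_fst.comp (contDiff_snd.comp (contDiff_snd.comp hm))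
  have m3 : ContDiff ℝ ∞ (fun p : ℝ × V3 => (mixq p.1 (hd.g p.2)).2.2.2) :=
    contDiff_snd.comp (contDiff_snd.comp (contDiff_snd.comp hm))
  refine ContDiff.sqrt ?_ (fun p => (mixq_ne_all hd p.1 p.2).ne')
  exact (((m0.pow 2).add (m1.pow 2)).add (m2.pow 2)).add (m3.pow 2)

theorem contDiff_ghat (hd : Handle) : ContDiff ℝ ∞ (fun p : ℝ × V3 => ghat hd p.1 p.2) := by
  have hm := TF_mix_cd hd
  have hs := TF_sq_cd hd
  have hne : ∀ p : ℝ × V3, Real.sqrt (nsq4 (mixq p.1 (hd.g p.2))) ≠ 0 := fun p =>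
    (Real.sqrt_pos.2 (mixq_ne_all hd p.1 p.2)).ne'
  have m0 : ContDiff ℝ ∞ (fun p : ℝ × V3 => (mixq p.1 (hd.g p.2)).1) := contDiff_fst.comp hm
  have m1 : ContDiff ℝ ∞ (fun p : ℝ × V3 => (mixq p.1 (hd.g p.2)).2.1) :=
    contDiff_fst.comp (contDiff_snd.comp hm)
  have m2 : ContDiff ℝ ∞ (fun p : ℝ × V3 => (mixq p.1 (hd.g p.2)).2.2.1) :=
    contDiff_fst.comp (contDiff_snd.comp (contDiff_snd.comp hm))
  have m3 : ContDiff ℝ ∞ (fun p : ℝ × V3 => (mixq p.1 (hd.g p.2)).2.2.2) :=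
    contDiff_snd.comp (contDiff_snd.comp (contDiff_snd.comp hm))
  unfold ghat
  exact (m0.div hs hne).prodMk ((m1.div hs hne).prodMk ((m2.div hs hne).prodMk (m3.div hs hne)))

theorem ghat_unit (hd : Handle) (l : ℝ) (x : V3) : nsq4 (ghat hd l x) = 1 := by
  have h := mixq_ne_all hd l x
  have h1 : Real.sqrt (nsq4 (mixq l (hd.g x))) ^ 2 = nsq4 (mixq l (hd.g x)) :=
    Real.sq_sqrt h.le
  have h2 : nsq4 (ghat hd l x) = nsq4 (mixq l (hd.g x)) /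
      Real.sqrt (nsq4 (mixq l (hd.g x))) ^ 2 := by
    unfold ghat
    generalize Real.sqrt (nsq4 (mixq l (hd.g x))) = n
    unfold nsq4
    simp only [div_pow]
    ring
  rw [h2, h1, div_self h.ne']

theorem qb_norm (ze z : ℂ) (g : V4) : nsq4 (qb ze z g) = qsq ze z * nsq4 g := by
  obtain ⟨g0, g1, g2, g3⟩ := g
  obtain ⟨a, b⟩ := ze
  obtain ⟨c, d⟩ := z
  unfold nsq4 qb qsq
  simp only [Complex.normSq_mk]
  ring

theorem TF_qgbar (ze z : ℂ) (g : V4) : qgbar ze z g = qb ze z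
    (g.1 / Real.sqrt (nsq4 g), g.2.1 / Real.sqrt (nsq4 g), g.2.2.1 / Real.sqrt (nsq4 g),
      g.2.2.2 / Real.sqrt (nsq4 g)) := by
  unfold qgbar
  generalize Real.sqrt (nsq4 g) = n
  unfold qb
  simp only [Complex.add_re, Complex.add_im, Complex.sub_re, Complex.sub_im,
    Complex.mul_re, Complex.mul_im, Complex.conj_re, Complex.conj_im]
  ext <;> ring

theorem yy_ghat (P : Par) (τ t : ℝ) (u ze z : ℂ) :
    P.yy τ t u ze z = qb ze z (ghat P.hd (τ * P.lamb (qsq ze z)) (xpt t u)) := by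
  unfold Par.yy ghat
  exact TF_qgbar ze z _

theorem TF_qb_cd {E : Type} [NormedAddCommGroup E] [NormedSpace ℝ E] {ze z : E → ℂ} {g : E → V4}
    (h1 : ContDiff ℝ ∞ ze) (h2 : ContDiff ℝ ∞ z) (hg : ContDiff ℝ ∞ g) :
    ContDiff ℝ ∞ (fun p => qb (ze p) (z p) (g p)) := by
  have a1 : ContDiff ℝ ∞ (fun p => (ze p).re) := Complex.reCLM.contDiff.comp h1
  have a2 : ContDiff ℝ ∞ (fun p => (ze p).im) := Complex.imCLM.contDiff.comp h1
  have a3 : ContDiff ℝ ∞ (fun p => (z p).re) := Complex.reCLM.contDiff.comp h2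
  have a4 : ContDiff ℝ ∞ (fun p => (z p).im) := Complex.imCLM.contDiff.comp h2
  have g0 : ContDiff ℝ ∞ (fun p => (g p).1) := contDiff_fst.comp hg
  have g1 : ContDiff ℝ ∞ (fun p => (g p).2.1) := contDiff_fst.comp (contDiff_snd.comp hg)
  have g2 : ContDiff ℝ ∞ (fun p => (g p).2.2.1) :=
    contDiff_fst.comp (contDiff_snd.comp (contDiff_snd.comp hg))
  have g3 : ContDiff ℝ ∞ (fun p => (g p).2.2.2) :=
    contDiff_snd.comp (contDiff_snd.comp (contDiff_snd.comp hg))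
  unfold qb
  exact ((((a1.mul g0).add (a2.mul g1)).add (a3.mul g2)).sub (a4.mul g3)).prodMk
    (((((a2.mul g0).sub (a1.mul g1)).sub (a3.mul g3)).sub (a4.mul g2)).prodMk
    (((((a3.mul g0).add (a4.mul g1)).sub (a1.mul g2)).add (a2.mul g3)).prodMk
    ((((a3.mul g1).sub (a4.mul g0)).sub (a1.mul g3)).sub (a2.mul g2))))

theorem TF_ns_cd : ContDiff ℝ ∞ (fun z : ℂ => Complex.normSq z) := by
  have h : (fun z : ℂ => Complex.normSq z) = fun z : ℂ => z.re ^ 2 + z.im ^ 2 := by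
    funext z
    exact TF_ns_re z
  rw [h]
  exact (Complex.reCLM.contDiff.pow 2).add (Complex.imCLM.contDiff.pow 2)

theorem TF_lamb_cd (P : Par) : ContDiff ℝ ∞ P.lamb := by
  have h : ContDiff ℝ ∞ (fun s : ℝ => s / P.rb ^ 2) := contDiff_id.div_const _
  exact (cut_props (1 / 4) (3 / 4) (by norm_num)).1.comp h

theorem TF_psic_cd (P : Par) : ContDiff ℝ ∞ P.psic := SB_cut_smooth 1 (P.T ^ 2)

theorem TF_chiq_cd (P : Par) : ContDiff ℝ ∞ P.chiq := SB_cut_smooth (P.Q ^ 2) 1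

theorem contDiff_FNm (P : Par) :
    ContDiff ℝ ∞ (fun p : ℝ × V3 × ℂ × ℂ => P.FNm p.1 p.2.1.1 ⟨p.2.1.2.1, p.2.1.2.2⟩ p.2.2.1 p.2.2.2)
    := by
  have hτ : ContDiff ℝ ∞ (fun p : ℝ × V3 × ℂ × ℂ => p.1) := contDiff_fst
  have hx : ContDiff ℝ ∞ (fun p : ℝ × V3 × ℂ × ℂ => p.2.1) := contDiff_fst.comp contDiff_snd
  have ht : ContDiff ℝ ∞ (fun p : ℝ × V3 × ℂ × ℂ => p.2.1.1) := contDiff_fst.comp hx
  have hze : ContDiff ℝ ∞ (fun p : ℝ × V3 × ℂ × ℂ => p.2.2.1) :=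
    contDiff_fst.comp (contDiff_snd.comp contDiff_snd)
  have hz : ContDiff ℝ ∞ (fun p : ℝ × V3 × ℂ × ℂ => p.2.2.2) :=
    contDiff_snd.comp (contDiff_snd.comp contDiff_snd)
  have hq : ContDiff ℝ ∞ (fun p : ℝ × V3 × ℂ × ℂ => qsq p.2.2.1 p.2.2.2) :=
    (TF_ns_cd.comp hze).add (TF_ns_cd.comp hz)
  have hl : ContDiff ℝ ∞ (fun p : ℝ × V3 × ℂ × ℂ => p.1 * P.lamb (qsq p.2.2.1 p.2.2.2)) :=
    hτ.mul ((TF_lamb_cd P).comp hq)
  have hg : ContDiff ℝ ∞ (fun p : ℝ × V3 × ℂ × ℂ =>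
      ghat P.hd (p.1 * P.lamb (qsq p.2.2.1 p.2.2.2)) p.2.1) :=
    (contDiff_ghat P.hd).comp (hl.prodMk hx)
  have hy := TF_qb_cd hze hz hg
  have y0 := contDiff_fst.comp hy
  have y1 := contDiff_fst.comp (contDiff_snd.comp hy)
  have y2 := contDiff_fst.comp (contDiff_snd.comp (contDiff_snd.comp hy))
  have y3 := contDiff_snd.comp (contDiff_snd.comp (contDiff_snd.comp hy))
  have hc : ContDiff ℝ ∞ (fun p : ℝ × V3 × ℂ × ℂ => P.hd.c p.2.1) := P.hd.c_smooth.comp hx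
  have main := (ht.add ((((TF_psic_cd P).comp (((y1.pow 2).add (y2.pow 2)).add (y3.pow 2))).mul
    ((TF_chiq_cd P).comp hq)).mul (hc.sub ht))).sub y0
  have he : (fun p : ℝ × V3 × ℂ × ℂ => P.FNm p.1 p.2.1.1 ⟨p.2.1.2.1, p.2.1.2.2⟩ p.2.2.1 p.2.2.2) =
      fun p : ℝ × V3 × ℂ × ℂ =>
        let y := qb p.2.2.1 p.2.2.2 (ghat P.hd (p.1 * P.lamb (qsq p.2.2.1 p.2.2.2)) p.2.1)
        p.2.1.1 + P.psic (y.2.1 ^ 2 + y.2.2.1 ^ 2 + y.2.2.2 ^ 2) * P.chiq (qsq p.2.2.1 p.2.2.2)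
          * (P.hd.c p.2.1 - p.2.1.1) - y.1 := by
    funext p
    unfold Par.FNm
    rw [yy_ghat]
    rfl
  rw [he]
  exact main

/-- The function near the exceptional divisors. -/
def Par.G2 (P : Par) (τ : ℝ) (x : V3) (ze z : ℂ) : ℝ :=
  P.hd.c x - (qb ze z (ghat P.hd (τ * P.lamb (qsq ze z)) x)).1

theorem TF_Q (P : Par) (hT : 1 ≤ P.T) : 1 ≤ P.Q := by
  unfold Par.Q
  have h1 := P.hd.hL
  have h2 := P.hd.hLB
  have h3 : 0 ≤ P.hd.Sb := (abs_nonneg _).trans (P.hd.c_bound 0)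
  linarith

theorem FNm_small (P : Par) (hT : 1 ≤ P.T) (τ t : ℝ) (u ze z : ℂ) (h : qsq ze z ≤ 1) :
    P.FNm τ t u ze z = P.G2 τ (xpt t u) ze z := by
  have hq := qb_norm ze z (ghat P.hd (τ * P.lamb (qsq ze z)) (xpt t u))
  rw [ghat_unit, mul_one] at hq
  have hQ := TF_Q P hT
  unfold Par.FNm Par.G2
  rw [yy_ghat]
  generalize qb ze z (ghat P.hd (τ * P.lamb (qsq ze z)) (xpt t u)) = y at hq ⊢
  unfold nsq4 at hq
  have h1 : P.psic (y.2.1 ^ 2 + y.2.2.1 ^ 2 + y.2.2.2 ^ 2) = 1 := by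
    refine (cut_props 1 (P.T ^ 2) (by positivity)).2.1 _ ?_
    nlinarith [sq_nonneg y.1]
  have h2 : P.chiq (qsq ze z) = 1 := by
    refine (cut_props (P.Q ^ 2) 1 one_pos).2.1 _ ?_
    nlinarith
  show t + P.psic (y.2.1 ^ 2 + y.2.2.1 ^ 2 + y.2.2.2 ^ 2) * P.chiq (qsq ze z) *
    (P.hd.c (xpt t u) - t) - y.1 = P.hd.c (xpt t u) - y.1
  rw [h1, h2]
  ring

/-- The function off the exceptional divisors. -/
def Par.G1 (P : Par) (v : R7) : ℝ :=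
  v.1.1 + P.psic (v.2.1.im ^ 2 + Complex.normSq v.2.2) * P.chiq (qsq v.2.1 v.2.2)
      * (P.hd.c v.1 - v.1.1) - v.2.1.re

theorem TF_yy0 (P : Par) {τ : ℝ} (t : ℝ) (u ze z : ℂ) (h : τ * P.lamb (qsq ze z) = 0) :
    P.yy τ t u ze z = (ze.re, ze.im, z.re, -z.im) := by
  unfold Par.yy
  rw [h]
  have h1 : mixq 0 (P.hd.g (xpt t u)) = (1, 0, 0, 0) := by
    unfold mixq
    ext <;> simp
  rw [h1, qgbar_qb ze z (1, 0, 0, 0) (by unfold nsq4; norm_num)]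
  unfold qb
  ext <;> simp

theorem TF_FNm0 (P : Par) {τ : ℝ} (t : ℝ) (u ze z : ℂ) (h : τ * P.lamb (qsq ze z) = 0) :
    P.FNm τ t u ze z = P.G1 (xpt t u, ze, z) := by
  unfold Par.FNm Par.G1
  rw [TF_yy0 P t u ze z h]
  have h1 : ze.im ^ 2 + z.re ^ 2 + (-z.im) ^ 2 = ze.im ^ 2 + Complex.normSq z := by
    rw [TF_ns_re]
    ring
  show t + P.psic (ze.im ^ 2 + z.re ^ 2 + (-z.im) ^ 2) * P.chiq (qsq ze z) *
    (P.hd.c (xpt t u) - t) - ze.re = _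
  rw [h1]
  rfl

theorem TF_lamb0 (P : Par) (hrb : 0 < P.rb) {r : ℝ} (hr : P.rb ^ 2 ≤ r) : P.lamb r = 0 := by
  unfold Par.lamb
  refine (cut_props (1 / 4) (3 / 4) (by norm_num)).2.2.1 _ ?_
  rw [le_div_iff₀ (by positivity)]
  linarith

theorem FNm_mid (P : Par) (hrb : 0 < P.rb) (τ t : ℝ) (u ze z : ℂ) (h : P.rb ^ 2 ≤ qsq ze z) :
    P.FNm τ t u ze z = P.G1 (xpt t u, ze, z) := by
  exact TF_FNm0 P t u ze z (by rw [TF_lamb0 P hrb h, mul_zero])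

theorem contDiff_G1 (P : Par) : ContDiff ℝ ∞ P.G1 := by
  have hx : ContDiff ℝ ∞ (fun v : R7 => v.1) := contDiff_fst
  have ht : ContDiff ℝ ∞ (fun v : R7 => v.1.1) := contDiff_fst.comp contDiff_fst
  have hze : ContDiff ℝ ∞ (fun v : R7 => v.2.1) := contDiff_fst.comp contDiff_snd
  have hz : ContDiff ℝ ∞ (fun v : R7 => v.2.2) := contDiff_snd.comp contDiff_snd
  have hq : ContDiff ℝ ∞ (fun v : R7 => qsq v.2.1 v.2.2) :=
    (TF_ns_cd.comp hze).add (TF_ns_cd.comp hz)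
  have hi : ContDiff ℝ ∞ (fun v : R7 => v.2.1.im) := Complex.imCLM.contDiff.comp hze
  have hr : ContDiff ℝ ∞ (fun v : R7 => v.2.1.re) := Complex.reCLM.contDiff.comp hze
  have hc : ContDiff ℝ ∞ (fun v : R7 => P.hd.c v.1) := P.hd.c_smooth.comp hx
  exact (ht.add ((((TF_psic_cd P).comp ((hi.pow 2).add (TF_ns_cd.comp hz))).mul
    ((TF_chiq_cd P).comp hq)).mul (hc.sub ht))).sub hr

theorem TF_FS0 (P : Par) {τ : ℝ} (t : ℝ) (ze z : ℂ) (h : τ * P.lamb (qsq ze z) = 0) :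
    P.FSm τ t ze z = t - ze.re := by
  unfold Par.FSm
  rw [h]
  simp

theorem FD_lin (P : Par) (hP : P.OkT) (hrb : 0 < P.rb) (hrb1 : P.rb ≤ 1) {z : EA}
    (hz : z ∈ WS P.La) (h : -(3 / 4) * P.La < eS z) (τ : ℝ) :
    P.FD τ z = eT z - (eZe z).re := by
  have hLa : 0 < P.La := by linarith [hP.hLa]
  have hQ := TF_Q P hP.hT
  have hbig : ∀ p : FP, p ∈ FPS P.La → fS p < 0 → -(3 / 4) * P.La < fS p →
      P.Q ^ 2 + 1 ≤ qsq (fZe p) (fZ p) := by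
    intro p hp h1 h2
    rw [(FPS_bounds hLa hp).1]
    have h3 := hP.big
    have h4 := hP.hT
    nlinarith
  have hkey : ∀ p : FP, p ∈ FPS P.La → fS p < 0 → -(3 / 4) * P.La < fS p →
      P.lamb (qsq (fZe p) (fZ p)) = 0 ∧ P.chiq (qsq (fZe p) (fZ p)) = 0 := by
    intro p hp h1 h2
    have h3 := hbig p hp h1 h2
    refine ⟨TF_lamb0 P hrb ?_, (cut_props (P.Q ^ 2) 1 one_pos).2.2.1 _ h3⟩
    nlinarith
  unfold Par.FD
  split_ifs with h1
  · have hp := (rhoN_mem hz h1).1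
    unfold Par.FN
    split_ifs with h2
    · obtain ⟨h3, h4⟩ := hkey _ hp h2 h
      rw [TF_FNm0 P _ _ _ _ (by rw [h3, mul_zero])]
      show fT (rhoN z) + P.psic _ * P.chiq (qsq (fZe (rhoN z)) (fZ (rhoN z))) * _ -
        (fZe (rhoN z)).re = _
      rw [h4]
      simp only [mul_zero, zero_mul, add_zero]
      rfl
    · rfl
  · have h1' : eW1 z < 1 := by linarith
    have hp := (rhoS_mem hz h1').1
    unfold Par.FS
    split_ifs with h2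
    · obtain ⟨h3, h4⟩ := hkey _ hp h2 h
      rw [TF_FS0 P _ _ _ (by rw [h3, mul_zero])]
      rfl
    · rfl

theorem FD_0 (P : Par) {z : EA} (hz : z ∈ WS P.La) : P.FD 0 z = P.Fa 0 z := by
  unfold Par.FD Par.Fa
  split_ifs with h1
  · unfold Par.FN Par.FaN
    have hG : P.G1 (xpt (fT (rhoN z)) (fU (rhoN z)), fZe (rhoN z), fZ (rhoN z)) =
        fT (rhoN z) + P.psic ((fZe (rhoN z)).im ^ 2 + Complex.normSq (fZ (rhoN z))) *
          P.chiq (qsq (fZe (rhoN z)) (fZ (rhoN z))) *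
          (P.hd.c (xpt (fT (rhoN z)) (fU (rhoN z))) - fT (rhoN z)) - (fZe (rhoN z)).re := rfl
    split_ifs with h2 h3
    · rw [TF_FNm0 P _ _ _ _ (zero_mul _), hG]
      ring
    · rw [TF_FNm0 P _ _ _ _ (zero_mul _), hG]
      ring
    · rfl
  · unfold Par.FS
    split_ifs with h2
    · rw [TF_FS0 P _ _ _ (zero_mul _)]
      rfl
    · rfl

end

end Pool.Agent.H34.SY
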