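import Pool.Agent.H34.SY.TF
import Pool.Agent.H34.SY.MD2

/-!
# Row TG: regularity of `G1` and `G2`

* `G1_reg`: direction `Re ζ`: `d = psic · chiq' · 2 Re ζ · (c - t) - 1`; if `psic (c - t) ≠ 0` then `|x| < B`, `Im(ζ)² + |z|² < 1 + T²` and
  from `G1 v = 0`: `|Re ζ| ≤ B + Sb`, so `|q|² < (B+Sb)² + 1 + T² ≤ Q²`, `chiq' = 0`.  So `d = -1`.
* `G2_reg`: `(qb ζ z g).1 = ζ.re g₀ + ζ.im g₁ + z.re g₂ - z.im g₃`.
  If `x₂² + x₃² ≥ B²`: `ξ = (1,0,0)`, `c = x₁` near along the line, `g` does not depend on `x₁` (`g_far`): `d = 1`.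
  Otherwise: `G2 = 0` gives `|c(x)| ≤ |q| ≤ 1`, so `|x₁| ≤ Sb + 1` and `x` is in the compact set `K = {|x₁| ≤ Sb+1, x₂²+x₃² ≤ B²}`.
  On `K` the continuous function `|c(x)| + ‖fderiv c x‖` is positive (`grad_ne`), so `≥ δ > 0`; and `‖fderiv (ghat_k)(l, x)‖ ≤ C` for
  `l ∈ [0,1]`, `x ∈ K`.  If all `ξ`-derivatives vanished, `fderiv c x = Σ q_k fderiv (ghat_k (l, ·)) x`, so
  `‖fderiv c x‖ ≤ 4 C |q|` and `|c(x)| ≤ |q|`, contradiction for `|q| (4 C + 1) < δ`.
  `l = τ lamb(|q|²) ∈ [0,1]` does not depend on `x`.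
-/

open Set Topology
open scoped ContDiff ComplexConjugate

namespace Pool.Agent.H34.SY

theorem TG_psic_zero (P : Par) (hT : 1 ≤ P.T) {s : ℝ} (h : 1 + P.T ^ 2 ≤ s) : P.psic s = 0 :=
  (cut_props 1 (P.T ^ 2) (by positivity)).2.2.1 s h

theorem G1_reg (P : Par) (hT : 1 ≤ P.T) (v : R7) (h : P.G1 v = 0) :
    ∃ (γ : ℝ → R7) (γ' : R7) (d : ℝ),
      γ 0 = v ∧ HasDerivAt γ γ' 0 ∧ HasDerivAt (fun t => P.G1 (γ t)) d 0 ∧ d ≠ 0 := by
  refine ⟨fun t => (v.1, (v.2.1 + (t : ℂ), v.2.2)), (0, (1, 0)), -1, by simp, ?_, ?_, by norm_num⟩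
  · refine (hasDerivAt_const (0 : ℝ) v.1).prodMk (HasDerivAt.prodMk ?_ (hasDerivAt_const (0 : ℝ) v.2.2))
    exact (Complex.ofRealCLM.hasDerivAt (x := (0 : ℝ))).const_add v.2.1
  · set a : ℝ := v.2.1.im ^ 2 + Complex.normSq v.2.2 with ha
    have hB : 0 < P.hd.B := lt_of_lt_of_le zero_lt_one (P.hd.hL.trans P.hd.hLB.le)
    have hSb : 0 ≤ P.hd.Sb := (abs_nonneg _).trans (P.hd.c_bound v.1)
    have hG : ∀ t : ℝ, P.G1 (v.1, (v.2.1 + (t : ℂ), v.2.2)) =
        v.1.1 + P.psic a * P.chiq (qsq (v.2.1 + (t : ℂ)) v.2.2) * (P.hd.c v.1 - v.1.1)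
          - (v.2.1.re + t) := by
      intro t
      unfold Par.G1
      simp only [Complex.add_im, Complex.ofReal_im, add_zero, Complex.add_re, Complex.ofReal_re, ha]
    have key : ∃ C : ℝ, ∀ᶠ t : ℝ in 𝓝 0,
        P.psic a * P.chiq (qsq (v.2.1 + (t : ℂ)) v.2.2) * (P.hd.c v.1 - v.1.1) = C := by
      by_cases h0 : P.psic a * (P.hd.c v.1 - v.1.1) = 0
      · refine ⟨0, Filter.Eventually.of_forall fun t => ?_⟩
        rw [mul_right_comm, h0, zero_mul]
      · refine ⟨P.psic a * 1 * (P.hd.c v.1 - v.1.1), ?_⟩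
        have hp : P.psic a ≠ 0 := fun h1 => h0 (by rw [h1, zero_mul])
        have hc : P.hd.c v.1 ≠ v.1.1 := fun h1 => h0 (by rw [h1, sub_self, mul_zero])
        have h1 : a < 1 + P.T ^ 2 := by
          by_contra hcon
          exact hp (TG_psic_zero P hT (not_lt.1 hcon))
        have h2 : nsq3 v.1 < P.hd.B ^ 2 := by
          by_contra hcon
          exact hc (P.hd.c_far v.1 (not_lt.1 hcon))
        have h3 : |v.1.1| ≤ P.hd.B := by
          refine abs_le_of_sq_le_sq ?_ hB.le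
          unfold nsq3 at h2
          nlinarith [sq_nonneg v.1.2.1, sq_nonneg v.1.2.2]
        have h4 := P.hd.c_bound v.1
        have p0 : 0 ≤ P.psic a ∧ P.psic a ≤ 1 :=
          (cut_props 1 (P.T ^ 2) (by positivity)).2.2.2.1 a
        have q0 : 0 ≤ P.chiq (qsq v.2.1 v.2.2) ∧ P.chiq (qsq v.2.1 v.2.2) ≤ 1 :=
          (cut_props (P.Q ^ 2) 1 one_pos).2.2.2.1 (qsq v.2.1 v.2.2)
        have h5 : |v.2.1.re| ≤ P.hd.B + P.hd.Sb := by
          have e : v.2.1.re = v.1.1 + P.psic a * P.chiq (qsq v.2.1 v.2.2) *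
              (P.hd.c v.1 - v.1.1) := by
            have : v.1.1 + P.psic a * P.chiq (qsq v.2.1 v.2.2) * (P.hd.c v.1 - v.1.1)
              - v.2.1.re = 0 := h
            linarith
          rw [e]
          refine (abs_add_le _ _).trans (add_le_add h3 ?_)
          rw [abs_mul]
          have h6 : |P.psic a * P.chiq (qsq v.2.1 v.2.2)| ≤ 1 := by
            rw [abs_of_nonneg (mul_nonneg p0.1 q0.1)]
            exact mul_le_one₀ p0.2 q0.1 q0.2
          calc |P.psic a * P.chiq (qsq v.2.1 v.2.2)| * |P.hd.c v.1 - v.1.1|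
              ≤ 1 * P.hd.Sb := mul_le_mul h6 h4 (abs_nonneg _) zero_le_one
            _ = P.hd.Sb := one_mul _
        have h7 : qsq v.2.1 v.2.2 = v.2.1.re ^ 2 + a := by
          unfold qsq
          rw [Complex.normSq_apply v.2.1, ha]
          ring
        have h8 : qsq v.2.1 v.2.2 < P.Q ^ 2 := by
          rw [h7]
          have h9 : v.2.1.re ^ 2 ≤ (P.hd.B + P.hd.Sb) ^ 2 := by
            rw [← sq_abs]
            exact pow_le_pow_left₀ (abs_nonneg _) h5 2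
          have hQ : P.Q = P.hd.B + P.hd.Sb + P.T + 2 := rfl
          rw [hQ]
          nlinarith [mul_nonneg (add_nonneg hB.le hSb) (le_trans zero_le_one hT)]
        have hcont : Continuous (fun t : ℝ => qsq (v.2.1 + (t : ℂ)) v.2.2) := by
          unfold qsq
          exact (Complex.continuous_normSq.comp
            (continuous_const.add Complex.continuous_ofReal)).add continuous_const
        have h10 : ∀ᶠ t : ℝ in 𝓝 0, qsq (v.2.1 + (t : ℂ)) v.2.2 < P.Q ^ 2 := by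
          refine (isOpen_lt hcont continuous_const).mem_nhds ?_
          show qsq (v.2.1 + ((0 : ℝ) : ℂ)) v.2.2 < P.Q ^ 2
          rw [Complex.ofReal_zero, add_zero]
          exact h8
        filter_upwards [h10] with t ht
        have h11 : P.chiq (qsq (v.2.1 + (t : ℂ)) v.2.2) = 1 :=
          (cut_props (P.Q ^ 2) 1 one_pos).2.1 _ ht.le
        rw [h11]
    obtain ⟨C, hC⟩ := key
    have hd1 : HasDerivAt (fun t : ℝ => v.1.1 + C - (v.2.1.re + t)) (-1) 0 := by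
      have := ((hasDerivAt_id (0 : ℝ)).const_add v.2.1.re).const_sub (v.1.1 + C)
      exact this
    refine hd1.congr_of_eventuallyEq ?_
    filter_upwards [hC] with t ht
    rw [hG t, ht]

/-- the compact set. -/
def TG_K (hd : Handle) : Set V3 :=
  {x | |x.1| ≤ hd.Sb + 1 ∧ x.2.1 ^ 2 + x.2.2 ^ 2 ≤ hd.B ^ 2}

theorem TG_K_compact (hd : Handle) : IsCompact (TG_K hd) := by
  have hB : 0 < hd.B := lt_of_lt_of_le zero_lt_one (hd.hL.trans hd.hLB.le)
  refine Metric.isCompact_of_isClosed_isBounded ?_ ?_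
  · refine IsClosed.inter ?_ ?_
    · exact isClosed_le (continuous_abs.comp continuous_fst) continuous_const
    · exact isClosed_le (((continuous_fst.comp continuous_snd).pow 2).add
        ((continuous_snd.comp continuous_snd).pow 2)) continuous_const
  · refine (Metric.isBounded_closedBall (x := (0 : V3)) (r := max (hd.Sb + 1) hd.B)).subset ?_
    rintro ⟨x1, x2, x3⟩ ⟨h1, h2⟩
    rw [mem_closedBall_zero_iff, Prod.norm_def, Prod.norm_def]
    simp only at h1 h2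
    have h3 : |x2| ≤ hd.B := abs_le_of_sq_le_sq (by nlinarith [sq_nonneg x3]) hB.le
    have h4 : |x3| ≤ hd.B := abs_le_of_sq_le_sq (by nlinarith [sq_nonneg x2]) hB.le
    exact max_le (h1.trans (le_max_left _ _))
      (max_le (h3.trans (le_max_right _ _)) (h4.trans (le_max_right _ _)))

theorem TG_delta (hd : Handle) : ∃ δ : ℝ, 0 < δ ∧
    ∀ x ∈ TG_K hd, δ ≤ |hd.c x| + ‖fderiv ℝ hd.c x‖ := by
  have hc : Continuous (fun x : V3 => |hd.c x| + ‖fderiv ℝ hd.c x‖) :=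
    (continuous_abs.comp hd.c_smooth.continuous).add
      (hd.c_smooth.continuous_fderiv (by simp)).norm
  refine (TG_K_compact hd).exists_forall_le' hc.continuousOn (a := 0) ?_
  intro x _
  by_contra hcon
  push Not at hcon
  have h1 := abs_nonneg (hd.c x)
  have h2 := norm_nonneg (fderiv ℝ hd.c x)
  have h3 : hd.c x = 0 := abs_eq_zero.1 (by linarith)
  have h4 : fderiv ℝ hd.c x = 0 := norm_eq_zero.1 (by linarith)
  apply FPar.grad_ne hd x h3
  unfold grad3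
  rw [h4]
  rfl

theorem TG_C (hd : Handle) : ∃ C : ℝ, 0 ≤ C ∧ ∀ l ∈ Icc (0 : ℝ) 1, ∀ x ∈ TG_K hd,
    ‖fderiv ℝ (fun p : ℝ × V3 => ghat hd p.1 p.2) (l, x)‖ ≤ C := by
  have hK : IsCompact (Icc (0 : ℝ) 1 ×ˢ TG_K hd) := isCompact_Icc.prod (TG_K_compact hd)
  have hc : Continuous (fun p : ℝ × V3 =>
      ‖fderiv ℝ (fun p : ℝ × V3 => ghat hd p.1 p.2) p‖) :=
    ((contDiff_ghat hd).continuous_fderiv (by simp)).norm
  obtain ⟨C, hC⟩ := hK.bddAbove_image hc.continuousOn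
  refine ⟨max C 0, le_max_right _ _, fun l hl x hx => le_trans (hC ⟨(l, x), ⟨hl, hx⟩, rfl⟩) (le_max_left _ _)⟩

/-- `|(q w)₀| ≤ 4 |q| |w|`. -/
theorem TG_qb (ze z : ℂ) (w : V4) : |(qb ze z w).1| ≤ 4 * Real.sqrt (qsq ze z) * ‖w‖ := by
  obtain ⟨w0, w1, w2, w3⟩ := w
  set n := ‖((w0, w1, w2, w3) : V4)‖ with hn
  have hw : |w0| ≤ n ∧ |w1| ≤ n ∧ |w2| ≤ n ∧ |w3| ≤ n := by
    rw [hn, Prod.norm_def, Prod.norm_def, Prod.norm_def]
    simp only [Real.norm_eq_abs]
    exact ⟨le_max_left _ _, (le_max_left _ _).trans (le_max_right _ _),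
      (le_max_left _ _).trans ((le_max_right _ _).trans (le_max_right _ _)),
      (le_max_right _ _).trans ((le_max_right _ _).trans (le_max_right _ _))⟩
  have hq : ∀ y : ℝ, y ^ 2 ≤ qsq ze z → |y| ≤ Real.sqrt (qsq ze z) := fun y hy =>
    Real.abs_le_sqrt hy
  have e : qsq ze z = ze.re ^ 2 + ze.im ^ 2 + (z.re ^ 2 + z.im ^ 2) := by
    unfold qsq
    rw [Complex.normSq_apply, Complex.normSq_apply]
    ring
  have s1 := sq_nonneg ze.re
  have s2 := sq_nonneg ze.im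
  have s3 := sq_nonneg z.re
  have s4 := sq_nonneg z.im
  have h1 := hq ze.re (by rw [e]; linarith)
  have h2 := hq ze.im (by rw [e]; linarith)
  have h3 := hq z.re (by rw [e]; linarith)
  have h4 := hq z.im (by rw [e]; linarith)
  have hs := Real.sqrt_nonneg (qsq ze z)
  show |ze.re * w0 + ze.im * w1 + z.re * w2 - z.im * w3| ≤ _
  have t1 : |ze.re * w0| ≤ Real.sqrt (qsq ze z) * n := by
    rw [abs_mul]; exact mul_le_mul h1 hw.1 (abs_nonneg _) hs
  have t2 : |ze.im * w1| ≤ Real.sqrt (qsq ze z) * n := by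
    rw [abs_mul]; exact mul_le_mul h2 hw.2.1 (abs_nonneg _) hs
  have t3 : |z.re * w2| ≤ Real.sqrt (qsq ze z) * n := by
    rw [abs_mul]; exact mul_le_mul h3 hw.2.2.1 (abs_nonneg _) hs
  have t4 : |z.im * w3| ≤ Real.sqrt (qsq ze z) * n := by
    rw [abs_mul]; exact mul_le_mul h4 hw.2.2.2 (abs_nonneg _) hs
  rw [abs_le] at t1 t2 t3 t4 ⊢
  constructor <;> linarith [t1.1, t1.2, t2.1, t2.2, t3.1, t3.2, t4.1, t4.2]

theorem TG_qb_lin (ze z : ℂ) {f : ℝ → V4} {f' : V4} (hf : HasDerivAt f f' 0) :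
    HasDerivAt (fun t => (qb ze z (f t)).1) (qb ze z f').1 0 := by
  have h0 : HasDerivAt (fun t => (f t).1) f'.1 0 := hf.fst
  have h1 : HasDerivAt (fun t => (f t).2.1) f'.2.1 0 := hf.snd.fst
  have h2 : HasDerivAt (fun t => (f t).2.2.1) f'.2.2.1 0 := hf.snd.snd.fst
  have h3 : HasDerivAt (fun t => (f t).2.2.2) f'.2.2.2 0 := hf.snd.snd.snd
  exact (((h0.const_mul ze.re).add (h1.const_mul ze.im)).add (h2.const_mul z.re)).sub
    (h3.const_mul z.im)

theorem G2_reg (hd : Handle) : ∃ r0 : ℝ, 0 < r0 ∧ r0 ≤ 1 ∧ ∀ P : Par, P.hd = hd →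
    ∀ τ ∈ Icc (0 : ℝ) 1, ∀ (x : V3) (ze z : ℂ), qsq ze z ≤ r0 → P.G2 τ x ze z = 0 →
      ∃ (ξ : V3) (d : ℝ), HasDerivAt (fun s : ℝ => P.G2 τ (x + s • ξ) ze z) d 0 ∧ d ≠ 0 := by
  obtain ⟨δ, hδ, hδK⟩ := TG_delta hd
  obtain ⟨C, hC, hCK⟩ := TG_C hd
  have hr : 0 < δ / (4 * C + 2) := by positivity
  refine ⟨min 1 ((δ / (4 * C + 2)) ^ 2), lt_min one_pos (by positivity), min_le_left _ _, ?_⟩
  intro P hP τ hτ x ze z hq h0
  subst hP
  obtain ⟨l, hl⟩ : ∃ l : ℝ, l = τ * P.lamb (qsq ze z) := ⟨_, rfl⟩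
  have hl1 : l ∈ Icc (0 : ℝ) 1 := by
    have h1 := FPar.MA_lamb_bd P (qsq ze z)
    rw [hl]
    exact ⟨mul_nonneg hτ.1 h1.1, mul_le_one₀ hτ.2 h1.1 h1.2⟩
  have hG2 : ∀ y : V3, P.G2 τ y ze z = P.hd.c y - (qb ze z (ghat P.hd l y)).1 := by
    intro y
    unfold Par.G2
    rw [hl]
  by_cases hfar : P.hd.B ^ 2 ≤ x.2.1 ^ 2 + x.2.2 ^ 2
  · refine ⟨(1, 0, 0), 1, ?_, one_ne_zero⟩
    have hx : ∀ s : ℝ, x + s • ((1, 0, 0) : V3) = (x.1 + s, x.2.1, x.2.2) := by
      intro s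
      ext <;> simp
    have hval : ∀ s : ℝ, P.G2 τ (x + s • ((1, 0, 0) : V3)) ze z =
        x.1 + s - (qb ze z (ghat P.hd l x)).1 := by
      intro s
      rw [hG2, hx s]
      have h1 : P.hd.c (x.1 + s, x.2.1, x.2.2) = x.1 + s := P.hd.c_far _ (by
        show P.hd.B ^ 2 ≤ (x.1 + s) ^ 2 + x.2.1 ^ 2 + x.2.2 ^ 2
        nlinarith [sq_nonneg (x.1 + s)])
      have h2 : P.hd.g (x.1 + s, x.2.1, x.2.2) = P.hd.g x := by
        rw [P.hd.g_far (x.1 + s, x.2.1, x.2.2) hfar, P.hd.g_far x hfar]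
      have h3 : ghat P.hd l (x.1 + s, x.2.1, x.2.2) = ghat P.hd l x := by
        unfold ghat
        rw [h2]
      rw [h1, h3]
    have hfun : (fun s : ℝ => P.G2 τ (x + s • ((1, 0, 0) : V3)) ze z) =
        fun s : ℝ => x.1 + s - (qb ze z (ghat P.hd l x)).1 := funext hval
    rw [hfun]
    exact ((hasDerivAt_id (0 : ℝ)).const_add x.1).sub_const _
  · push Not at hfar
    by_contra hcon
    push Not at hcon
    obtain ⟨r, hr0⟩ : ∃ r : ℝ, r = Real.sqrt (qsq ze z) := ⟨_, rfl⟩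
    have hr1 : r ≤ δ / (4 * C + 2) := by
      rw [hr0]
      exact Real.sqrt_le_iff.2 ⟨hr.le, hq.trans (min_le_right _ _)⟩
    have hr2 : r ≤ 1 := by
      rw [hr0]
      exact Real.sqrt_le_iff.2 ⟨zero_le_one, by simpa using hq.trans (min_le_left _ _)⟩
    have hr3 : 0 ≤ r := by rw [hr0]; exact Real.sqrt_nonneg _
    have hcx : |P.hd.c x| ≤ r := by
      have h1 : P.hd.c x = (qb ze z (ghat P.hd l x)).1 := by
        have := hG2 x
        rw [h0] at this
        linarith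
      rw [h1, hr0]
      refine Real.abs_le_sqrt ?_
      have h2 := qb_norm ze z (ghat P.hd l x)
      rw [ghat_unit, mul_one] at h2
      rw [← h2]
      unfold nsq4
      nlinarith [sq_nonneg (qb ze z (ghat P.hd l x)).2.1, sq_nonneg (qb ze z (ghat P.hd l x)).2.2.1,
        sq_nonneg (qb ze z (ghat P.hd l x)).2.2.2]
    have hxK : x ∈ TG_K P.hd := by
      refine ⟨?_, hfar.le⟩
      have h1 := P.hd.c_bound x
      have h2 := abs_le.1 h1
      have h3 := abs_le.1 (hcx.trans hr2)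
      rw [abs_le]
      constructor <;> linarith [h2.1, h2.2, h3.1, h3.2]
    have hder : ∀ ξ : V3, fderiv ℝ P.hd.c x ξ =
        (qb ze z (fderiv ℝ (fun p : ℝ × V3 => ghat P.hd p.1 p.2) (l, x) (0, ξ))).1 := by
      intro ξ
      have hline : HasDerivAt (fun s : ℝ => x + s • ξ) ξ 0 := by
        simpa using ((hasDerivAt_id (0 : ℝ)).smul_const ξ).const_add x
      have h1 : HasDerivAt (fun s : ℝ => P.hd.c (x + s • ξ)) (fderiv ℝ P.hd.c x ξ) 0 := by
        have h2 : HasFDerivAt P.hd.c (fderiv ℝ P.hd.c x) (x + (0 : ℝ) • ξ) := by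
          rw [zero_smul, add_zero]
          exact (P.hd.c_smooth.differentiable (by simp)).differentiableAt.hasFDerivAt
        exact h2.comp_hasDerivAt (0 : ℝ) hline
      have h3 : HasDerivAt (fun s : ℝ => ghat P.hd l (x + s • ξ))
          (fderiv ℝ (fun p : ℝ × V3 => ghat P.hd p.1 p.2) (l, x) (0, ξ)) 0 := by
        have h4 : HasFDerivAt (fun p : ℝ × V3 => ghat P.hd p.1 p.2)
            (fderiv ℝ (fun p : ℝ × V3 => ghat P.hd p.1 p.2) (l, x)) (l, x + (0 : ℝ) • ξ) := by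
          rw [zero_smul, add_zero]
          exact ((contDiff_ghat P.hd).differentiable (by simp)).differentiableAt.hasFDerivAt
        exact h4.comp_hasDerivAt (0 : ℝ) ((hasDerivAt_const (0 : ℝ) l).prodMk hline)
      have h5 := h1.sub (TG_qb_lin ze z h3)
      have h6 : (fun s : ℝ => P.G2 τ (x + s • ξ) ze z) =
          fun s : ℝ => P.hd.c (x + s • ξ) - (qb ze z (ghat P.hd l (x + s • ξ))).1 :=
        funext fun s => hG2 _
      have h7 := hcon ξ _ (by rw [h6]; exact h5)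
      linarith
    have hbound : ‖fderiv ℝ P.hd.c x‖ ≤ 4 * C * r := by
      refine ContinuousLinearMap.opNorm_le_bound _ (by positivity) fun ξ => ?_
      rw [hder ξ, Real.norm_eq_abs]
      refine (TG_qb ze z _).trans ?_
      rw [← hr0]
      have h1 : ‖fderiv ℝ (fun p : ℝ × V3 => ghat P.hd p.1 p.2) (l, x) (0, ξ)‖ ≤ C * ‖ξ‖ := by
        refine (ContinuousLinearMap.le_opNorm _ _).trans ?_
        have h2 : ‖((0 : ℝ), ξ)‖ = ‖ξ‖ := by
          rw [Prod.norm_def]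
          simp
        rw [h2]
        exact mul_le_mul_of_nonneg_right (hCK l hl1 x hxK) (norm_nonneg _)
      calc 4 * r * ‖fderiv ℝ (fun p : ℝ × V3 => ghat P.hd p.1 p.2) (l, x) (0, ξ)‖
          ≤ 4 * r * (C * ‖ξ‖) := mul_le_mul_of_nonneg_left h1 (by positivity)
        _ = 4 * C * r * ‖ξ‖ := by ring
    have h1 := hδK x hxK
    have h2 : δ ≤ (4 * C + 1) * r := by nlinarith
    have h3 : (4 * C + 1) * r ≤ (4 * C + 1) * (δ / (4 * C + 2)) :=
      mul_le_mul_of_nonneg_left hr1 (by positivity)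
    have h4 : (4 * C + 1) * (δ / (4 * C + 2)) < δ := by
      rw [mul_div_assoc', div_lt_iff₀ (by positivity)]
      nlinarith
    linarith

end Pool.Agent.H34.SY
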