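import Pool.Agent.H34.SY.TF

/-!
# Row TI: the family FD on the side S (near `w1 = -1`)

* `FD_S`: if `w1 = -1` by definition.  If `w1 > -1`: `|u_N|² = 1/|u_S|² > B²` (`normSq_U`), `g = (0,0,u.re/|u|,u.im/|u|)` (`g_far`),
  `c = t` (`c_far`), `z_S = z_N u_N/|u_N|` (`rhoS_eq`, `trans`), the other coordinates agree (`rhoS_same`); compare `FNm_far` in row MA
  (there `τ = 1`; here all real `τ`).
* `regAt_S0`: `p = rhoS z`, `s < 0`; chart `cB La (-1)` if `h0 < 1`, `cA La (-1)` if `-1 < h0`, restricted to `{v | |v.2.1|² B² < 1}`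
  (`IsChart.restrict_model`), `regAt_S`; `G τ v = FSm τ v.1 (ζ v) (z v)` smooth for all real `τ` (`(1-l)² + l² > 0`), the curve
  `s ↦ (v.1 + s, v.2)` has `d = 1`.
-/

open Set Topology
open scoped ContDiff ComplexConjugate

namespace Pool.Agent.H34.SY

theorem TI_norm (u : ℂ) : Real.sqrt (u.re ^ 2 + u.im ^ 2) = ‖u‖ := by
  rw [Complex.norm_def, Complex.normSq_apply]
  congr 1
  ring

theorem TI_FNm_far (P : Par) (τ t : ℝ) (u ze z : ℂ) (hu : P.hd.B ^ 2 ≤ Complex.normSq u) :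
    P.FNm τ t u ze z =
      t - ((1 - τ * P.lamb (qsq ze z)) * ze.re
          + τ * P.lamb (qsq ze z) * ((z * u).re / ‖u‖))
          / Real.sqrt ((1 - τ * P.lamb (qsq ze z)) ^ 2 + (τ * P.lamb (qsq ze z)) ^ 2) := by
  have hB : 1 < P.hd.B := lt_of_le_of_lt P.hd.hL P.hd.hLB
  have hn0 : 0 < Complex.normSq u := by nlinarith
  have hu0 : u ≠ 0 := Complex.normSq_pos.1 hn0
  have hnu : ‖u‖ ≠ 0 := norm_ne_zero_iff.2 hu0
  have hns : u.re ^ 2 + u.im ^ 2 = Complex.normSq u := by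
    rw [Complex.normSq_apply]
    ring
  have hnn : ‖u‖ ^ 2 = u.re ^ 2 + u.im ^ 2 := by
    rw [hns, Complex.normSq_eq_norm_sq]
  have hg := P.hd.g_far (xpt t u) (by
    show P.hd.B ^ 2 ≤ u.re ^ 2 + u.im ^ 2
    rw [hns]
    exact hu)
  have hg' : P.hd.g (xpt t u) = (0, 0, u.re / ‖u‖, u.im / ‖u‖) := by
    rw [hg]
    show ((0 : ℝ), (0 : ℝ), u.re / Real.sqrt (u.re ^ 2 + u.im ^ 2),
      u.im / Real.sqrt (u.re ^ 2 + u.im ^ 2)) = _
    rw [TI_norm]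
  have hc : P.hd.c (xpt t u) = t := P.hd.c_far (xpt t u) (by
    show P.hd.B ^ 2 ≤ t ^ 2 + u.re ^ 2 + u.im ^ 2
    nlinarith)
  unfold Par.FNm
  simp only [hc, sub_self, mul_zero, add_zero]
  congr 1
  unfold Par.yy
  rw [hg']
  generalize τ * P.lamb (qsq ze z) = l
  have hn4 : nsq4 (mixq l (0, 0, u.re / ‖u‖, u.im / ‖u‖)) = (1 - l) ^ 2 + l ^ 2 := by
    simp only [nsq4, mixq]
    field_simp
    rw [hnn]
    ring
  unfold qgbar
  rw [hn4]
  simp only [mixq, mul_zero, add_zero]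
  simp only [Complex.add_re, Complex.mul_re, Complex.conj_re, Complex.conj_im]
  congr 1
  field_simp
  ring

theorem FD_S (P : Par) {z : EA} (hz : z ∈ WS P.La) (h1 : eW1 z < 1) (hs : eS z < 0)
    (hu : Complex.normSq (fU (rhoS z)) * P.hd.B ^ 2 < 1) (τ : ℝ) :
    P.FD τ z = P.FSm τ (fT (rhoS z)) (fZe (rhoS z)) (fZ (rhoS z)) := by
  unfold Par.FD
  by_cases h : -1 < eW1 z
  · rw [if_pos h]
    obtain ⟨hu0, htr⟩ := rhoS_eq hz h h1
    have hsN : fS (rhoN z) < 0 := hs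
    rw [htr] at hu ⊢
    unfold Par.FN
    rw [if_pos hsN]
    revert hu hu0
    generalize rhoN z = p
    obtain ⟨t, u, h0, hh, ze, zz, s⟩ := p
    intro hu hu0
    change Complex.normSq ((((Complex.normSq u)⁻¹ : ℝ) : ℂ) * u) * P.hd.B ^ 2 < 1 at hu
    change u ≠ 0 at hu0
    have hn : 0 < Complex.normSq u := Complex.normSq_pos.2 hu0
    have hnu : ‖u‖ ≠ 0 := norm_ne_zero_iff.2 hu0
    rw [WC_ns u hu0, inv_mul_eq_div, div_lt_one hn] at hu
    show P.FNm τ t u ze zz = P.FSm τ t ze ((((‖u‖)⁻¹ : ℝ) : ℂ) * (zz * u))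
    rw [TI_FNm_far P τ t u ze zz hu.le]
    have hq : qsq ze ((((‖u‖)⁻¹ : ℝ) : ℂ) * (zz * u)) = qsq ze zz := by
      unfold qsq
      have e : Complex.normSq u = ‖u‖ * ‖u‖ := by
        rw [Complex.normSq_eq_norm_sq]
        ring
      rw [map_mul, map_mul, Complex.normSq_ofReal, e]
      field_simp
    have hre : ((((‖u‖)⁻¹ : ℝ) : ℂ) * (zz * u)).re = (zz * u).re / ‖u‖ := by
      rw [Complex.re_ofReal_mul]
      ring
    unfold Par.FSm
    simp only [hq, hre]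
  · rw [if_neg h]
    unfold Par.FS
    have hsS : fS (rhoS z) < 0 := hs
    rw [if_pos hsS]

theorem contDiff_FSm (P : Par) :
    ContDiff ℝ ∞ (fun p : ℝ × ℝ × ℂ × ℂ => P.FSm p.1 p.2.1 p.2.2.1 p.2.2.2) := by
  have cA : ContDiff ℝ ∞ (fun p : ℝ × ℝ × ℂ × ℂ => p.1) := contDiff_fst
  have c1 : ContDiff ℝ ∞ (fun p : ℝ × ℝ × ℂ × ℂ => p.2) := contDiff_snd
  have cT : ContDiff ℝ ∞ (fun p : ℝ × ℝ × ℂ × ℂ => p.2.1) := contDiff_fst.comp c1
  have c2 : ContDiff ℝ ∞ (fun p : ℝ × ℝ × ℂ × ℂ => p.2.2) := contDiff_snd.comp c1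
  have cZe : ContDiff ℝ ∞ (fun p : ℝ × ℝ × ℂ × ℂ => p.2.2.1) := contDiff_fst.comp c2
  have cZ : ContDiff ℝ ∞ (fun p : ℝ × ℝ × ℂ × ℂ => p.2.2.2) := contDiff_snd.comp c2
  have cq : ContDiff ℝ ∞ (fun p : ℝ × ℝ × ℂ × ℂ => qsq p.2.2.1 p.2.2.2) :=
    (contDiff_normSq.comp cZe).add (contDiff_normSq.comp cZ)
  have clb : ContDiff ℝ ∞ P.lamb :=
    (SB_cut_smooth (1 / 4) (3 / 4)).comp (contDiff_id.div_const _)
  have cl : ContDiff ℝ ∞ (fun p : ℝ × ℝ × ℂ × ℂ => p.1 * P.lamb (qsq p.2.2.1 p.2.2.2)) :=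
    cA.mul (clb.comp cq)
  have cre : ContDiff ℝ ∞ (fun p : ℝ × ℝ × ℂ × ℂ => p.2.2.1.re) := Complex.reCLM.contDiff.comp cZe
  have crz : ContDiff ℝ ∞ (fun p : ℝ × ℝ × ℂ × ℂ => p.2.2.2.re) := Complex.reCLM.contDiff.comp cZ
  have hpos : ∀ l : ℝ, 0 < (1 - l) ^ 2 + l ^ 2 := fun l => by
    nlinarith [sq_nonneg (2 * l - 1)]
  have cs : ContDiff ℝ ∞ (fun p : ℝ × ℝ × ℂ × ℂ =>
      Real.sqrt ((1 - p.1 * P.lamb (qsq p.2.2.1 p.2.2.2)) ^ 2
        + (p.1 * P.lamb (qsq p.2.2.1 p.2.2.2)) ^ 2)) :=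
    ((((contDiff_const.sub cl).pow 2).add (cl.pow 2))).sqrt fun p => (hpos _).ne'
  unfold Par.FSm
  exact cT.sub ((((contDiff_const.sub cl).mul cre).add (cl.mul crz)).div cs
    fun p => (Real.sqrt_pos.2 (hpos _)).ne')

theorem TI_core (P : Par) {U : Set FP} {V : Set H7} {ρ : FP → H7} {c : H7 → FP}
    (hc : IsChart (FPS P.La) U V ρ c) (hcT : ∀ v, fT (c v) = v.1) (hcU : ∀ v, fU (c v) = v.2.1)
    (hρ : ∀ p, (ρ p).2.1 = fU p) (hcS : ∀ v ∈ V, fS (c v) < 0) (f g : ℂ × ℂ → ℂ)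
    (hf : ContDiff ℝ ∞ f) (hg : ContDiff ℝ ∞ g) (hcZe : ∀ v, fZe (c v) = f v.2.2)
    (hcZ : ∀ v, fZ (c v) = g v.2.2) {z : EA} (hz : z ∈ WS P.La) (h1 : eW1 z = -1)
    (hU : rhoS z ∈ U) : RegAt P.La P.FD z := by
  have hV' : IsOpen {v : H7 | Complex.normSq v.2.1 * P.hd.B ^ 2 < 1} := by
    have hcn : Continuous fun v : H7 => Complex.normSq v.2.1 :=
      contDiff_normSq.continuous.comp (continuous_fst.comp continuous_snd)
    exact isOpen_lt (hcn.mul continuous_const) continuous_const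
  have hlt : eW1 z < 1 := by linarith
  refine regAt_S finrank_H7 (hc.restrict_model hV') P.FD hlt ⟨hU, ?_⟩
    (fun τ v => P.FSm τ v.1 (f v.2.2) (g v.2.2)) ?_ ?_ ?_
  · show Complex.normSq (ρ (rhoS z)).2.1 * P.hd.B ^ 2 < 1
    rw [hρ]
    have hw : Complex.normSq (eW z) = 0 := by
      have h2 := hz.1
      rw [h1] at h2
      linarith
    have hw0 : eW z = 0 := Complex.normSq_eq_zero.1 hw
    have hu0 : fU (rhoS z) = 0 := by
      show (((1 - eW1 z)⁻¹ : ℝ) : ℂ) * eW z = 0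
      rw [hw0, mul_zero]
    rw [hu0, map_zero, zero_mul]
    exact one_pos
  · intro τ v hv
    have hm := psiS_mem (hc.maps_ψ v hv.1).1
    have h3 := FD_S P (z := psiS (c v)) hm.1 hm.2 (hcS v hv.1) (by
      rw [rhoS_psiS, hcU]
      exact hv.2) τ
    rw [rhoS_psiS, hcT, hcZe, hcZ] at h3
    exact h3
  · have c1 : ContDiff ℝ ∞ (fun p : ℝ × H7 => ((p.1, p.2.1, f p.2.2.2, g p.2.2.2) :
        ℝ × ℝ × ℂ × ℂ)) := by
      have d1 : ContDiff ℝ ∞ (fun p : ℝ × H7 => p.2) := contDiff_snd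
      have d2 : ContDiff ℝ ∞ (fun p : ℝ × H7 => p.2.2.2) :=
        contDiff_snd.comp (contDiff_snd.comp d1)
      exact contDiff_fst.prodMk ((contDiff_fst.comp d1).prodMk ((hf.comp d2).prodMk (hg.comp d2)))
    exact ((contDiff_FSm P).comp c1).contDiffOn
  · intro τ _ v _ _
    refine ⟨fun t => (v.1 + t, v.2), (1, 0), 1, by simp, ?_, ?_, one_ne_zero⟩
    · exact ((hasDerivAt_id (0 : ℝ)).const_add v.1).prodMk (hasDerivAt_const (0 : ℝ) v.2)
    · have h4 : HasDerivAt (fun t : ℝ => v.1 + t -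
          ((1 - τ * P.lamb (qsq (f v.2.2) (g v.2.2))) * (f v.2.2).re
            + τ * P.lamb (qsq (f v.2.2) (g v.2.2)) * (g v.2.2).re) /
            Real.sqrt ((1 - τ * P.lamb (qsq (f v.2.2) (g v.2.2))) ^ 2
              + (τ * P.lamb (qsq (f v.2.2) (g v.2.2))) ^ 2)) 1 0 :=
        ((hasDerivAt_id (0 : ℝ)).const_add v.1).sub_const _
      exact h4

theorem regAt_S0 (P : Par) (hLa : 0 < P.La) {z : EA} (hz : z ∈ WS P.La) (h1 : eW1 z = -1)
    (hs : eS z < 0) : RegAt P.La P.FD z := by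
  have hsq : ∀ v : H7, Complex.normSq v.2.2.2 * (1 + Complex.normSq v.2.2.1) < P.La ^ 2 →
      (-1) * Real.sqrt (P.La ^ 2 - Complex.normSq v.2.2.2 * (1 + Complex.normSq v.2.2.1)) < 0 := by
    intro v hv
    have := Real.sqrt_pos.2 (sub_pos.2 hv)
    linarith
  have hsS : 0 < (-1) * fS (rhoS z) := by
    have : fS (rhoS z) = eS z := rfl
    rw [this]
    linarith
  have cfst : ContDiff ℝ ∞ (fun p : ℂ × ℂ => p.1) := contDiff_fst
  have csnd : ContDiff ℝ ∞ (fun p : ℂ × ℂ => p.2) := contDiff_snd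
  by_cases h : fH0 (rhoS z) < 1
  · exact TI_core P (chart_cB P.La hLa (-1) (Or.inr rfl)) (fun _ => rfl) (fun _ => rfl)
      (fun _ => rfl) (fun v hv => hsq v hv) (fun p => p.1 * p.2) (fun p => p.2)
      (cfst.mul csnd) csnd (fun _ => rfl) (fun _ => rfl) hz h1 ⟨h, hsS⟩
  · exact TI_core P (chart_cA P.La hLa (-1) (Or.inr rfl)) (fun _ => rfl) (fun _ => rfl)
      (fun _ => rfl) (fun v hv => hsq v hv) (fun p => p.2) (fun p => p.1 * p.2)
      csnd (cfst.mul csnd) (fun _ => rfl) (fun _ => rfl) hz h1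
      ⟨lt_of_lt_of_le (by norm_num) (not_lt.1 h), hsS⟩

end Pool.Agent.H34.SY
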