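import Pool.Agent.H34.SY.TG
import Pool.Agent.H34.SY.TI
import Pool.Agent.H34.SY.TE

/-!
# Row TJ: the isotopy (T)

`T0 = 1`, `La0` from `okT_large`, `rb0 = min 1 (√r0)` with `r0` from `G2_reg` (so `rb² < r0 ≤ 1`).
`RegAt` at `z ∈ WS`: if `-3La/4 < s`: `regAt_lin`, `FD_lin`.  Otherwise `s < 0`.  If `w1 = -1`: `regAt_S0`.  If `w1 > -1`:
 * `|q|² > rb²`, `q = (ζ, z)` of `rhoN z`: `regAt_chart` with `chart_R7 La hLa` restricted (`IsChart.restrict_model`) to the open set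
   `{v | rb² < qsq v.2.1 v.2.2}`, `G τ v = G1 v` (`FNm_mid`), `G1_reg`.
 * `|q|² ≤ rb² < r0`: `regAt_N` with `chart_cB La hLa (-1)` (if `h0 < 1`) or `chart_cA La hLa (-1)` (if `-1 < h0`), restricted to
   `{v | qsq (ζ v) (z v) < r0}`; `G τ v = G2 τ (xpt v.1 v.2.1) (ζ v) (z v)` (`FNm_small`); curve
   `s ↦ (v.1 + s ξ₁, v.2.1 + s (ξ₂ + i ξ₃), v.2.2)` from `G2_reg`.  Smoothness: `qb` polynomial, `contDiff_ghat`, `lamb` smooth.
`isoFam_of` with `t0 = B + 2`, `η = 1`: `s > -2`: `FD_lin`, constant.  `|t| > B + 2`, `s ≤ -2`: on the side N, `c(x) = t`, so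
`FD τ = t - yy.1`; if `|q|² ≥ rb²`, `yy = q`, constant; if `|q|² < rb² ≤ 1` then `|yy.1| ≤ |q| ≤ 1` (`yy_ghat`, `qb_norm`, `ghat_unit`), `|F| ≥ 1`.
If `w1 = -1`: `FD τ = FSm τ`, the same (`|(1-l) a + l b| ≤ √((1-l)²+l²) √(a²+b²)`).
-/

open Set Topology
open scoped ContDiff ComplexConjugate

namespace Pool.Agent.H34.SY

theorem TJ_normSq : ContDiff ℝ ∞ (fun z : ℂ => Complex.normSq z) := contDiff_normSq

theorem TJ_lamb (P : Par) : ContDiff ℝ ∞ P.lamb :=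
  (SB_cut_smooth (1 / 4) (3 / 4)).comp (contDiff_id.div_const _)

theorem TJ_qsq : ContDiff ℝ ∞ (fun p : ℂ × ℂ => qsq p.1 p.2) :=
  (TJ_normSq.comp contDiff_fst).add (TJ_normSq.comp contDiff_snd)

theorem TJ_G2 (P : Par) :
    ContDiff ℝ ∞ (fun p : ℝ × V3 × ℂ × ℂ => P.G2 p.1 p.2.1 p.2.2.1 p.2.2.2) := by
  have a1 : ContDiff ℝ ∞ (fun p : ℝ × V3 × ℂ × ℂ => p.1) := contDiff_fst
  have a2 : ContDiff ℝ ∞ (fun p : ℝ × V3 × ℂ × ℂ => p.2.1) := contDiff_fst.comp contDiff_snd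
  have a3 : ContDiff ℝ ∞ (fun p : ℝ × V3 × ℂ × ℂ => p.2.2) := contDiff_snd.comp contDiff_snd
  have a4 : ContDiff ℝ ∞ (fun p : ℝ × V3 × ℂ × ℂ => p.2.2.1) := contDiff_fst.comp a3
  have a5 : ContDiff ℝ ∞ (fun p : ℝ × V3 × ℂ × ℂ => p.2.2.2) := contDiff_snd.comp a3
  have b1 : ContDiff ℝ ∞ (fun p : ℝ × V3 × ℂ × ℂ => p.1 * P.lamb (qsq p.2.2.1 p.2.2.2)) :=
    a1.mul ((TJ_lamb P).comp (TJ_qsq.comp a3))
  have b2 : ContDiff ℝ ∞ (fun p : ℝ × V3 × ℂ × ℂ =>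
      ghat P.hd (p.1 * P.lamb (qsq p.2.2.1 p.2.2.2)) p.2.1) :=
    (contDiff_ghat P.hd).comp (b1.prodMk a2)
  have g0 := contDiff_fst.comp b2
  have g1 := contDiff_fst.comp (contDiff_snd.comp b2)
  have g2 := contDiff_fst.comp (contDiff_snd.comp (contDiff_snd.comp b2))
  have g3 := contDiff_snd.comp (contDiff_snd.comp (contDiff_snd.comp b2))
  have c1 : ContDiff ℝ ∞ (fun p : ℝ × V3 × ℂ × ℂ => p.2.2.1.re) := Complex.reCLM.contDiff.comp a4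
  have c2 : ContDiff ℝ ∞ (fun p : ℝ × V3 × ℂ × ℂ => p.2.2.1.im) := Complex.imCLM.contDiff.comp a4
  have c3 : ContDiff ℝ ∞ (fun p : ℝ × V3 × ℂ × ℂ => p.2.2.2.re) := Complex.reCLM.contDiff.comp a5
  have c4 : ContDiff ℝ ∞ (fun p : ℝ × V3 × ℂ × ℂ => p.2.2.2.im) := Complex.imCLM.contDiff.comp a5
  exact (P.hd.c_smooth.comp a2).sub ((((c1.mul g0).add (c2.mul g1)).add (c3.mul g2)).sub
    (c4.mul g3))

theorem TJ_finrank : Module.finrank ℝ R7 = 7 := by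
  simp [Complex.finrank_real_complex]

/-- the family on the side `N`. -/
theorem TJ_FDN (P : Par) (τ : ℝ) {z : EA} (h1 : -1 < eW1 z) (hs : eS z < 0) :
    P.FD τ z = P.FNm τ (fT (rhoN z)) (fU (rhoN z)) (fZe (rhoN z)) (fZ (rhoN z)) := by
  unfold Par.FD
  rw [if_pos h1]
  unfold Par.FN
  rw [if_pos (show fS (rhoN z) < 0 from hs)]

theorem TJ_FDpsi (P : Par) {La : ℝ} (τ : ℝ) {p : FP} (hp : p ∈ FPS La) (hs : fS p < 0) :
    P.FD τ (psiN p) = P.FNm τ (fT p) (fU p) (fZe p) (fZ p) := by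
  rw [TJ_FDN P τ (psiN_mem hp).2 hs, rhoN_psiN]

theorem TJ_near (P : Par) (hT : 1 ≤ P.T) {r0 : ℝ} (hr1 : r0 ≤ 1)
    (hreg : ∀ τ ∈ Icc (0 : ℝ) 1, ∀ (x : V3) (ze z : ℂ), qsq ze z ≤ r0 → P.G2 τ x ze z = 0 →
      ∃ (ξ : V3) (d : ℝ), HasDerivAt (fun s : ℝ => P.G2 τ (x + s • ξ) ze z) d 0 ∧ d ≠ 0)
    {U : Set FP} {V : Set H7} {ρ : FP → H7} {c : H7 → FP} (hc : IsChart (FPS P.La) U V ρ c)
    (hcT : ∀ v, fT (c v) = v.1) (hcU : ∀ v, fU (c v) = v.2.1) (Z1 Z2 : ℂ × ℂ → ℂ)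
    (hZ1 : ContDiff ℝ ∞ Z1) (hZ2 : ContDiff ℝ ∞ Z2) (hc1 : ∀ v, fZe (c v) = Z1 v.2.2)
    (hc2 : ∀ v, fZ (c v) = Z2 v.2.2) (hS : ∀ v ∈ V, fS (c v) < 0) {z : EA}
    (hz : z ∈ WS P.La) (h1 : -1 < eW1 z) (hzU : rhoN z ∈ U)
    (hq : qsq (fZe (rhoN z)) (fZ (rhoN z)) < r0) : RegAt P.La P.FD z := by
  have hZc : Continuous (fun v : H7 => qsq (Z1 v.2.2) (Z2 v.2.2)) := by
    have h2 : ContDiff ℝ ∞ (fun v : H7 => v.2.2) := contDiff_snd.comp contDiff_snd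
    exact (TJ_qsq.comp ((hZ1.comp h2).prodMk (hZ2.comp h2))).continuous
  have hV' : IsOpen {v : H7 | qsq (Z1 v.2.2) (Z2 v.2.2) < r0} := isOpen_lt hZc continuous_const
  have hp := (rhoN_mem hz h1).1
  have hin : rhoN z ∈ U ∩ ρ ⁻¹' {v : H7 | qsq (Z1 v.2.2) (Z2 v.2.2) < r0} := by
    refine ⟨hzU, ?_⟩
    show qsq (Z1 (ρ (rhoN z)).2.2) (Z2 (ρ (rhoN z)).2.2) < r0
    rw [← hc1, ← hc2, hc.left_inv _ ⟨hp, hzU⟩]
    exact hq
  refine regAt_N finrank_H7 (hc.restrict_model hV') P.FD h1 hin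
    (fun τ v => P.G2 τ (xpt v.1 v.2.1) (Z1 v.2.2) (Z2 v.2.2)) ?_ ?_ ?_
  · intro τ v hv
    have hv2 : qsq (Z1 v.2.2) (Z2 v.2.2) < r0 := hv.2
    rw [TJ_FDpsi P τ (hc.maps_ψ v hv.1).1 (hS v hv.1), hcT, hcU, hc1, hc2,
      FNm_small P hT τ _ _ _ _ (by linarith)]
  · have hx : ContDiff ℝ ∞ (fun p : ℝ × H7 => xpt p.2.1 p.2.2.1) := by
      have e1 : ContDiff ℝ ∞ (fun p : ℝ × H7 => p.2.1) := contDiff_fst.comp contDiff_snd
      have e2 : ContDiff ℝ ∞ (fun p : ℝ × H7 => p.2.2.1) :=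
        contDiff_fst.comp (contDiff_snd.comp contDiff_snd)
      exact e1.prodMk ((Complex.reCLM.contDiff.comp e2).prodMk (Complex.imCLM.contDiff.comp e2))
    have hy : ContDiff ℝ ∞ (fun p : ℝ × H7 => p.2.2.2) :=
      contDiff_snd.comp (contDiff_snd.comp contDiff_snd)
    exact ((TJ_G2 P).comp (contDiff_fst.prodMk (hx.prodMk
      ((hZ1.comp hy).prodMk (hZ2.comp hy))))).contDiffOn
  · intro τ hτ v hv h0
    have hv2 : qsq (Z1 v.2.2) (Z2 v.2.2) < r0 := hv.2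
    obtain ⟨ξ, d, hd, hd0⟩ := hreg τ hτ _ _ _ hv2.le h0
    refine ⟨fun t => (v.1 + t * ξ.1, v.2.1 + (t : ℂ) * (⟨ξ.2.1, ξ.2.2⟩ : ℂ), v.2.2),
      (ξ.1, (⟨ξ.2.1, ξ.2.2⟩ : ℂ), 0), d, ?_, ?_, ?_, hd0⟩
    · simp
    · have k1 : HasDerivAt (fun t : ℝ => v.1 + t * ξ.1) ξ.1 0 := by
        have := ((hasDerivAt_id (0 : ℝ)).mul_const ξ.1).const_add v.1
        simpa using this
      have k2 : HasDerivAt (fun t : ℝ => v.2.1 + (t : ℂ) * (⟨ξ.2.1, ξ.2.2⟩ : ℂ))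
          (⟨ξ.2.1, ξ.2.2⟩ : ℂ) 0 := by
        have h3 : HasDerivAt (fun t : ℝ => (t : ℂ)) 1 0 := Complex.ofRealCLM.hasDerivAt
        have := (h3.mul_const (⟨ξ.2.1, ξ.2.2⟩ : ℂ)).const_add v.2.1
        simpa using this
      exact k1.prodMk (k2.prodMk (hasDerivAt_const (0 : ℝ) v.2.2))
    · have e : (fun t : ℝ => P.G2 τ (xpt (v.1 + t * ξ.1)
          (v.2.1 + (t : ℂ) * (⟨ξ.2.1, ξ.2.2⟩ : ℂ))) (Z1 v.2.2) (Z2 v.2.2)) =
          fun s : ℝ => P.G2 τ (xpt v.1 v.2.1 + s • ξ) (Z1 v.2.2) (Z2 v.2.2) := by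
        funext t
        have : xpt (v.1 + t * ξ.1) (v.2.1 + (t : ℂ) * (⟨ξ.2.1, ξ.2.2⟩ : ℂ)) =
            xpt v.1 v.2.1 + t • ξ := by
          unfold xpt
          ext <;> simp
        rw [this]
      show HasDerivAt (fun t : ℝ => P.G2 τ (xpt (v.1 + t * ξ.1)
          (v.2.1 + (t : ℂ) * (⟨ξ.2.1, ξ.2.2⟩ : ℂ))) (Z1 v.2.2) (Z2 v.2.2)) d 0
      rw [e]
      exact hd

theorem TJ_mid (P : Par) (hLa : 0 < P.La) (hT : 1 ≤ P.T) (hrb : 0 < P.rb) {z : EA}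
    (hz : z ∈ WS P.La) (h1 : -1 < eW1 z) (hs : eS z < 0)
    (hq : P.rb ^ 2 < qsq (fZe (rhoN z)) (fZ (rhoN z))) : RegAt P.La P.FD z := by
  have hcont : Continuous (fun v : R7 => qsq v.2.1 v.2.2) :=
    (TJ_qsq.comp contDiff_snd).continuous
  have hV' : IsOpen {v : R7 | P.rb ^ 2 < qsq v.2.1 v.2.2} := isOpen_lt continuous_const hcont
  have hrb2 : 0 < P.rb ^ 2 := by positivity
  have hc := chart_R7 P.La hLa
  have hin : z ∈ {z | -1 < eW1 z ∧ eS z < 0 ∧ (fZe (rhoN z) ≠ 0 ∨ fZ (rhoN z) ≠ 0)} ∩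
      (fun z => ((xpt (fT (rhoN z)) (fU (rhoN z)), fZe (rhoN z), fZ (rhoN z)) : R7)) ⁻¹'
        {v : R7 | P.rb ^ 2 < qsq v.2.1 v.2.2} :=
    ⟨⟨h1, hs, MG_qpos.1 (by linarith)⟩, hq⟩
  refine regAt_chart TJ_finrank (hc.restrict_model hV') P.FD hin (fun _ v => P.G1 v) ?_ ?_ ?_
  · intro τ v hv
    obtain ⟨⟨hv1, hv2⟩, hv3⟩ := hv
    have hv3' : P.rb ^ 2 < qsq v.2.1 v.2.2 := hv3
    have hS : fS (p7 P.La v) < 0 := by
      show -Real.sqrt (P.La ^ 2 - qsq v.2.1 v.2.2) < 0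
      have : 0 < Real.sqrt (P.La ^ 2 - qsq v.2.1 v.2.2) := Real.sqrt_pos.2 (by linarith)
      linarith
    rw [TJ_FDpsi P τ (p7_mem hv1 hv2) hS]
    exact FNm_mid P hrb τ v.1.1 ⟨v.1.2.1, v.1.2.2⟩ v.2.1 v.2.2 hv3'.le
  · exact ((contDiff_G1 P).comp contDiff_snd).contDiffOn
  · intro τ _ v _ h0
    exact G1_reg P hT v h0

theorem TJ_wm {La : ℝ} {z : EA} (hz : z ∈ WS La) (h : ¬ -1 < eW1 z) : eW1 z = -1 := by
  have h1 := hz.1
  have h2 := Complex.normSq_nonneg (eW z)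
  push Not at h
  nlinarith

theorem TJ_reg (P : Par) (hP : P.OkT) (hrb : 0 < P.rb) (hrb1 : P.rb ≤ 1) {r0 : ℝ} (hr1 : r0 ≤ 1)
    (hr0 : P.rb ^ 2 < r0)
    (hreg : ∀ τ ∈ Icc (0 : ℝ) 1, ∀ (x : V3) (ze z : ℂ), qsq ze z ≤ r0 → P.G2 τ x ze z = 0 →
      ∃ (ξ : V3) (d : ℝ), HasDerivAt (fun s : ℝ => P.G2 τ (x + s • ξ) ze z) d 0 ∧ d ≠ 0)
    {z : EA} (hz : z ∈ WS P.La) : RegAt P.La P.FD z := by
  have hLa : 0 < P.La := by linarith [hP.hLa]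
  by_cases hA : -(3 / 4) * P.La < eS z
  · exact regAt_lin hLa P.FD hz {y | -(3 / 4) * P.La < eS y}
      (isOpen_lt continuous_const TA_contS) hA (fun y hy τ => FD_lin P hP hrb hrb1 hy.1 hy.2 τ)
  have hs : eS z < 0 := by
    push Not at hA
    nlinarith
  by_cases h1 : -1 < eW1 z
  · by_cases hq : P.rb ^ 2 < qsq (fZe (rhoN z)) (fZ (rhoN z))
    · exact TJ_mid P hLa hP.hT hrb hz h1 hs hq
    · push Not at hq
      have hq' : qsq (fZe (rhoN z)) (fZ (rhoN z)) < r0 := by linarith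
      have hsqrt : ∀ v : H7, Complex.normSq v.2.2.2 * (1 + Complex.normSq v.2.2.1) < P.La ^ 2 →
          -1 * Real.sqrt (P.La ^ 2 - Complex.normSq v.2.2.2 * (1 + Complex.normSq v.2.2.1)) < 0 := by
        intro v hv
        have : 0 < Real.sqrt (P.La ^ 2 - Complex.normSq v.2.2.2 * (1 + Complex.normSq v.2.2.1)) :=
          Real.sqrt_pos.2 (by linarith)
        linarith
      by_cases hh : fH0 (rhoN z) < 1
      · refine TJ_near P hP.hT hr1 hreg (chart_cB P.La hLa (-1) (Or.inr rfl)) (fun _ => rfl)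
          (fun _ => rfl) (fun y => y.1 * y.2) (fun y => y.2) (contDiff_fst.mul contDiff_snd)
          contDiff_snd (fun _ => rfl) (fun _ => rfl) hsqrt hz h1 ⟨hh, ?_⟩ hq'
        show 0 < -1 * eS z
        linarith
      · refine TJ_near P hP.hT hr1 hreg (chart_cA P.La hLa (-1) (Or.inr rfl)) (fun _ => rfl)
          (fun _ => rfl) (fun y => y.2) (fun y => y.1 * y.2) contDiff_snd
          (contDiff_fst.mul contDiff_snd) (fun _ => rfl) (fun _ => rfl) hsqrt hz h1 ⟨?_, ?_⟩ hq'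
        · push Not at hh
          show -1 < fH0 (rhoN z)
          linarith
        · show 0 < -1 * eS z
          linarith
  · exact regAt_S0 P hLa hz (TJ_wm hz h1) hs

theorem TJ_cs (a b l : ℝ) (h : a ^ 2 + b ^ 2 ≤ 1) :
    |((1 - l) * a + l * b) / Real.sqrt ((1 - l) ^ 2 + l ^ 2)| ≤ 1 := by
  have h0 : 0 < (1 - l) ^ 2 + l ^ 2 := by nlinarith [sq_nonneg (2 * l - 1)]
  have hs : 0 < Real.sqrt ((1 - l) ^ 2 + l ^ 2) := Real.sqrt_pos.2 h0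
  rw [abs_div, abs_of_pos hs, div_le_one hs]
  apply Real.abs_le_sqrt
  nlinarith [sq_nonneg ((1 - l) * b - l * a)]

theorem TJ_out (P : Par) (hP : P.OkT) (hrb : 0 < P.rb) (hrb1 : P.rb ≤ 1) {z : EA}
    (hz : z ∈ WS P.La) (h : P.hd.B + 2 < |eT z| ∨ -2 < eS z) :
    (∀ τ ∈ Icc (0 : ℝ) 1, P.FD τ z = P.FD 0 z) ∨ (∀ τ ∈ Icc (0 : ℝ) 1, 1 ≤ |P.FD τ z|) := by
  have hLa4 := hP.hLa
  by_cases hA : -(3 / 4) * P.La < eS z
  · left
    intro τ _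
    rw [FD_lin P hP hrb hrb1 hz hA τ, FD_lin P hP hrb hrb1 hz hA 0]
  have hs : eS z < 0 := by
    push Not at hA
    nlinarith
  have hT : P.hd.B + 2 < |eT z| := by
    rcases h with h | h
    · exact h
    · exfalso
      push Not at hA
      linarith
  have hB : 0 < P.hd.B := by linarith [P.hd.hL, P.hd.hLB]
  have hrb2 : P.rb ^ 2 ≤ 1 := by nlinarith
  have habs : ∀ y : ℝ, |y| ≤ 1 → 1 ≤ |eT z - y| := by
    intro y hy
    have := abs_sub_abs_le_abs_sub (eT z) y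
    linarith
  by_cases h1 : -1 < eW1 z
  · rcases le_or_gt (P.rb ^ 2) (qsq (fZe (rhoN z)) (fZ (rhoN z))) with hq | hq
    · left
      intro τ _
      rw [TJ_FDN P τ h1 hs, TJ_FDN P 0 h1 hs, FNm_mid P hrb τ _ _ _ _ hq,
        FNm_mid P hrb 0 _ _ _ _ hq]
    · right
      intro τ _
      have hct : P.hd.c (xpt (fT (rhoN z)) (fU (rhoN z))) = fT (rhoN z) := by
        refine P.hd.c_far _ ?_
        show P.hd.B ^ 2 ≤ (eT z) ^ 2 + (fU (rhoN z)).re ^ 2 + (fU (rhoN z)).im ^ 2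
        have h2 : P.hd.B ^ 2 ≤ |eT z| ^ 2 := by
          apply pow_le_pow_left₀ hB.le
          linarith
        rw [sq_abs] at h2
        nlinarith [sq_nonneg (fU (rhoN z)).re, sq_nonneg (fU (rhoN z)).im]
      rw [TJ_FDN P τ h1 hs]
      have e : P.FNm τ (fT (rhoN z)) (fU (rhoN z)) (fZe (rhoN z)) (fZ (rhoN z)) =
          eT z - (P.yy τ (fT (rhoN z)) (fU (rhoN z)) (fZe (rhoN z)) (fZ (rhoN z))).1 := by
        unfold Par.FNm
        rw [hct]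
        show fT (rhoN z) + _ * _ * (fT (rhoN z) - fT (rhoN z)) - _ = fT (rhoN z) - _
        ring
      rw [e]
      apply habs
      have hn : nsq4 (P.yy τ (fT (rhoN z)) (fU (rhoN z)) (fZe (rhoN z)) (fZ (rhoN z))) =
          qsq (fZe (rhoN z)) (fZ (rhoN z)) := by
        rw [yy_ghat, qb_norm, ghat_unit, mul_one]
      generalize P.yy τ (fT (rhoN z)) (fU (rhoN z)) (fZe (rhoN z)) (fZ (rhoN z)) = y at hn
      unfold nsq4 at hn
      rw [← sq_le_one_iff_abs_le_one]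
      nlinarith [sq_nonneg y.2.1, sq_nonneg y.2.2.1, sq_nonneg y.2.2.2]
  · have hFS : ∀ τ, P.FD τ z = P.FSm τ (eT z) (fZe (rhoS z)) (fZ (rhoS z)) := by
      intro τ
      unfold Par.FD
      rw [if_neg h1]
      unfold Par.FS
      rw [if_pos (show fS (rhoS z) < 0 from hs)]
      rfl
    rcases le_or_gt (P.rb ^ 2) (qsq (fZe (rhoS z)) (fZ (rhoS z))) with hq | hq
    · left
      intro τ _
      have hl : P.lamb (qsq (fZe (rhoS z)) (fZ (rhoS z))) = 0 := by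
        refine (cut_props (1 / 4) (3 / 4) (by norm_num)).2.2.1 _ ?_
        rw [le_div_iff₀ (by positivity)]
        linarith
      rw [hFS, hFS]
      unfold Par.FSm
      rw [hl]
      simp
    · right
      intro τ _
      rw [hFS]
      unfold Par.FSm
      apply habs
      apply TJ_cs
      unfold qsq at hq
      rw [Complex.normSq_apply, Complex.normSq_apply] at hq
      nlinarith [mul_self_nonneg (fZe (rhoS z)).im, mul_self_nonneg (fZ (rhoS z)).im]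

theorem isoFam_FD (hd : Handle) : ∃ T0 : ℝ, ∀ T : ℝ, T0 ≤ T → ∃ La0 : ℝ, ∀ La : ℝ, La0 ≤ La →
    ∃ rb0 : ℝ, 0 < rb0 ∧ ∀ rb : ℝ, 0 < rb → rb < rb0 → ∀ P : Par, P = ⟨hd, T, La, rb⟩ →
      (∀ z ∈ WS P.La, RegAt P.La P.FD z) ∧ IsoFam P.La P.FD := by
  refine ⟨1, fun T hT => ?_⟩
  obtain ⟨La0, hLa0⟩ := okT_large hd T hT
  obtain ⟨r0, hr0, hr1, hG⟩ := G2_reg hd
  refine ⟨La0, fun La hLa => ⟨Real.sqrt r0, Real.sqrt_pos.2 hr0, fun rb hrb hrb0 P hP => ?_⟩⟩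
  have hok : P.OkT := by rw [hP]; exact hLa0 La hLa rb
  have hPrb : P.rb = rb := by rw [hP]
  have hPhd : P.hd = hd := by rw [hP]
  have h1 : P.rb ^ 2 < r0 := by
    rw [hPrb]
    exact (Real.lt_sqrt hrb.le).1 hrb0
  have h2 : P.rb ≤ 1 := by
    rw [hPrb]
    have : Real.sqrt r0 ≤ 1 := Real.sqrt_le_iff.2 ⟨zero_le_one, by linarith⟩
    linarith
  have h3 : 0 < P.rb := by rw [hPrb]; exact hrb
  have hreg : ∀ z ∈ WS P.La, RegAt P.La P.FD z :=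
    fun z hz => TJ_reg P hok h3 h2 hr1 h1 (hG P hPhd) hz
  exact ⟨hreg, isoFam_of P.FD hreg (P.hd.B + 2) 1 one_pos (fun z hz h => TJ_out P hok h3 h2 hz h)⟩

end Pool.Agent.H34.SY
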